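import Pool.Agent.Run7.h834.Frac2

/-! Decay of the transfer product. -/

set_option autoImplicit false
open MeasureTheory Matrix
open scoped ENNReal

namespace Run7.h834

variable {w : ℕ}

/-- fractional power -/
noncomputable def fr (r : ℝ) (t : ℝ) : ℝ≥0∞ := ENNReal.ofReal (|t| ^ r)

theorem measurable_fr {α : Type*} [MeasurableSpace α] {f : α → ℝ} (hf : Measurable f) (r : ℝ) :
    Measurable fun x => fr r (f x) := measurable_frac hf r

theorem fr_mul {r : ℝ} (a b : ℝ) : fr r (a * b) = fr r a * fr r b := by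
  unfold fr
  rw [abs_mul, Real.mul_rpow (abs_nonneg _) (abs_nonneg _), ENNReal.ofReal_mul (by positivity)]

theorem fr_add {r : ℝ} (hr : 0 ≤ r) (hr1 : r ≤ 1) (a b : ℝ) : fr r (a + b) ≤ fr r a + fr r b := by
  unfold fr
  rw [← ENNReal.ofReal_add (by positivity) (by positivity)]
  refine ENNReal.ofReal_le_ofReal ?_
  calc |a + b| ^ r ≤ (|a| + |b|) ^ r := Real.rpow_le_rpow (abs_nonneg _) (abs_add_le a b) hr
    _ ≤ |a| ^ r + |b| ^ r := Real.rpow_add_le_add_rpow (abs_nonneg _) (abs_nonneg _) hr hr1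

theorem fr_zero {r : ℝ} (hr : 0 < r) : fr r 0 = 0 := by
  unfold fr
  rw [abs_zero, Real.zero_rpow hr.ne', ENNReal.ofReal_zero]

theorem fr_sum {r : ℝ} (hr : 0 < r) (hr1 : r ≤ 1) {ι : Type*} (s : Finset ι) (f : ι → ℝ) :
    fr r (∑ i ∈ s, f i) ≤ ∑ i ∈ s, fr r (f i) := by
  classical
  induction s using Finset.induction_on with
  | empty => simp [fr_zero hr]
  | insert i s hi ih =>
    rw [Finset.sum_insert hi, Finset.sum_insert hi]
    exact (fr_add hr.le hr1 _ _).trans (add_le_add le_rfl ih)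

theorem NiceV.fr_entry {V : ℝ → ℝ} {K : ℝ} (h : NiceV V K) :
    ∫⁻ x, fr (1 / 2) x ∂(lawV V) ≤ 2 := by
  have := h.prob
  calc ∫⁻ x, fr (1 / 2) x ∂(lawV V) ≤ ∫⁻ x, ENNReal.ofReal (1 + x ^ 2) ∂(lawV V) := by
        refine lintegral_mono fun x => ENNReal.ofReal_le_ofReal ?_
        rcases le_total |x| 1 with hx | hx
        · have := Real.rpow_le_one (abs_nonneg x) hx (by norm_num : (0 : ℝ) ≤ 1 / 2)
          nlinarith [sq_nonneg x]
        · have h1 := Real.rpow_le_rpow_of_exponent_le hx (by norm_num : (1 / 2 : ℝ) ≤ 2)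
          rw [Real.rpow_two, sq_abs] at h1
          linarith
    _ = 2 := by
        have hi : Integrable (fun x : ℝ => 1 + x ^ 2) (lawV V) :=
          (integrable_const 1).add h.integrable_sq
        rw [← ofReal_integral_eq_lintegral_ofReal hi
          (Filter.Eventually.of_forall fun x => by
            simp only [Pi.zero_apply]
            positivity), integral_add (integrable_const 1) h.integrable_sq, h.var]
        simp
        norm_num

/-- moments of the resolvent product -/
theorem stG_moment {μ : Measure ℝ} [IsProbabilityMeasure μ] {D : ℝ} (hμ : LeVol μ D)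
    (hμ' : BddDens μ D) (w : ℕ) (e : ℝ) (k : ℕ) (Q : Arr w) (s : ℕ) (x z : Fin w) :
    ∫⁻ ω, fr (1 / 2) (stG w ω e k Q s x z) ∂(Pm μ) ≤ 4 * cW D := by
  have hz := z.2
  have hx := x.2
  have hp : (x : ℕ) < (k + 1) * w := by nlinarith
  have hq : k * w + (z : ℕ) < (k + 1) * w := by nlinarith
  have h1 := apriori hμ w e Q s ((k + 1) * w) ⟨x, hp⟩ ⟨k * w + z, hq⟩
  refine le_trans (le_of_eq ?_) h1
  refine lintegral_congr_ae ?_
  have h2 : ∀ᵐ ω ∂(Pm μ), stR w ω e (k + 1) Q s := by
    rw [ae_iff]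
    exact stR_null hμ' w e (k + 1) Q s
  filter_upwards [h2] with ω hω
  have h3 := green w ω e k _ rfl Q s hω x z ⟨x, hp⟩ ⟨k * w + z, hq⟩ rfl rfl
  rw [h3]
  unfold fr
  rw [abs_mul, abs_pow, abs_neg, abs_one, one_pow, one_mul]

theorem stP_moment {V : ℝ → ℝ} {K : ℝ} (h : NiceV V K) (w : ℕ) (e : ℝ) (k : ℕ) (Q : Arr w)
    (s : ℕ) (x y : Fin w) :
    ∫⁻ ω, fr (1 / 2) (stP w ω e (k + 1) Q s x y) ∂(Pm (lawV V)) ≤
      w * (4 * cW (Real.exp (K / 2)) * 2) := by
  have := h.prob
  have e1 : ∀ ω, fr (1 / 2) (stP w ω e (k + 1) Q s x y) ≤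
      ∑ z, fr (1 / 2) (stG w ω e k Q s x z) *
        fr (1 / 2) (lowM (arrB w ω (s + k * w)) z y) := by
    intro ω
    rw [stP_succ_eq, Matrix.mul_apply]
    refine (fr_sum (by norm_num) (by norm_num) _ _).trans (le_of_eq ?_)
    exact Finset.sum_congr rfl fun z _ => fr_mul _ _
  refine (lintegral_mono e1).trans ?_
  have mG : ∀ z, Measurable fun ω => fr (1 / 2) (stG w ω e k Q s x z) := fun z =>
    measurable_fr (measurable_stG w e measurable_id k s measurable_const x z) _
  have mB : ∀ z, Measurable fun ω => fr (1 / 2) (lowM (arrB w ω (s + k * w)) z y) := fun z =>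
    measurable_fr (measurable_lowM (measurable_arrB' w _ measurable_id) z y) _
  have mGB : ∀ z ∈ (Finset.univ : Finset (Fin w)), Measurable fun ω =>
      fr (1 / 2) (stG w ω e k Q s x z) * fr (1 / 2) (lowM (arrB w ω (s + k * w)) z y) :=
    fun z _ => (mG z).mul (mB z)
  rw [lintegral_finsetSum _ mGB]
  calc _ ≤ ∑ _z : Fin w, 4 * cW (Real.exp (K / 2)) * 2 := by
        refine Finset.sum_le_sum fun z _ => ?_
        rw [lintegral_mul_indep (lawV V) {p : ℕ × ℕ | p.2 < s + (k + 1) * w} (mG z) (mB z)]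
        · refine mul_le_mul' (stG_moment h.leVol h.bddDens w e k Q s x z) ?_
          have hrow : (y ≤ z) ∨ ¬ (y ≤ z) := em _
          rcases hrow with hyz | hyz
          · have e2 : ∀ ω : Om, fr (1 / 2) (lowM (arrB w ω (s + k * w)) z y) =
                fr (1 / 2) (ω (s + k * w + z, s + k * w + w + y)) := by
              intro ω
              simp [lowM, arrB, hyz]
            simp_rw [e2]
            have h5 : (Pm (lawV V)).map (fun ω => ω (s + k * w + z, s + k * w + w + y)) =
                lawV V := by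
              unfold Pm
              exact Measure.infinitePi_map_eval (fun _ => lawV V) _
            have h6 := h.fr_entry
            have h7 : Measurable fun x : ℝ => fr (1 / 2) x := measurable_fr measurable_id _
            have h8 : Measurable fun ω : Om => ω (s + k * w + z, s + k * w + w + y) :=
              measurable_pi_apply _
            rw [← h5, lintegral_map h7 h8] at h6
            exact h6
          · have e2 : ∀ ω : Om, fr (1 / 2) (lowM (arrB w ω (s + k * w)) z y) = 0 := by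
              intro ω
              simp only [lowM, Matrix.of_apply, if_neg hyz]
              exact fr_zero (by norm_num)
            simp_rw [e2]
            simp
        · refine DepOn.comp (f := fun M : Matrix (Fin w) (Fin w) ℝ => fr (1 / 2) (M x z)) ?_
          exact (depOn_stG w e k Q s).mono fun p hp => hp.2.2
        · refine DepOn.comp (X := fun ω => arrB w ω (s + k * w))
            (f := fun a : Arr w => fr (1 / 2) (lowM a z y)) ?_
          intro ω ω' hω
          funext p
          refine hω _ ?_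
          simp only [Set.mem_compl_iff, Set.mem_ofPred_eq, not_lt]
          nlinarith
    _ = w * (4 * cW (Real.exp (K / 2)) * 2) := by simp

/-! ### Groups -/

/-- the group starting at `s` -/
def grpA (w : ℕ) (ω : Om) (s : ℕ) : Grp w :=
  ((arrA w ω s, arrB w ω s), (arrA w ω (s + w), arrB w ω (s + w)),
    (arrA w ω (s + w + w), arrB w ω (s + w + w)))

theorem measurable_grpA (w s : ℕ) : Measurable fun ω : Om => grpA w ω s :=
  ((measurable_arrA' w _ measurable_id).prodMk (measurable_arrB' w _ measurable_id)).prodMk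
    (((measurable_arrA' w _ measurable_id).prodMk (measurable_arrB' w _ measurable_id)).prodMk
      ((measurable_arrA' w _ measurable_id).prodMk (measurable_arrB' w _ measurable_id)))

theorem zetaG_grpA (w : ℕ) (ω : Om) (e : ℝ) (Q : Arr w) (s : ℕ) :
    zetaG e Q (grpA w ω s) = stQ w ω e 3 Q s := rfl

theorem transG_grpA (w : ℕ) (ω : Om) (e : ℝ) (Q : Arr w) (s : ℕ) (u : Fin w → ℝ) :
    transG e Q (grpA w ω s) u = u ᵥ* stP w ω e 3 Q s := by
  simp only [transG, grpA, stP, stepT, Matrix.vecMul_vecMul, Matrix.mul_one, Matrix.mul_assoc]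

theorem law_arrA {V : ℝ → ℝ} [IsProbabilityMeasure (lawV V)] (w s : ℕ) :
    (Pm (lawV V)).map (fun ω => arrA w ω s) = piA V w := by
  refine map_sel (lawV V) (fun p : Fin w × Fin w => (s + (p.1 : ℕ), s + (p.2 : ℕ))) ?_
  intro p q h
  simp only [Prod.mk.injEq] at h
  apply Prod.ext
  · apply Fin.ext
    omega
  · apply Fin.ext
    omega

theorem law_arrB {V : ℝ → ℝ} [IsProbabilityMeasure (lawV V)] (w s : ℕ) :
    (Pm (lawV V)).map (fun ω => arrB w ω s) = piA V w := by
  refine map_sel (lawV V) (fun p : Fin w × Fin w => (s + (p.1 : ℕ), s + w + (p.2 : ℕ))) ?_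
  intro p q h
  simp only [Prod.mk.injEq] at h
  apply Prod.ext
  · apply Fin.ext
    omega
  · apply Fin.ext
    omega

theorem law_pair {V : ℝ → ℝ} [IsProbabilityMeasure (lawV V)] (w s : ℕ) :
    (Pm (lawV V)).map (fun ω => (arrA w ω s, arrB w ω s)) = (piA V w).prod (piA V w) := by
  rw [map_pair_indep (lawV V) {p : ℕ × ℕ | p.2 < s + w} (X := fun ω => arrA w ω s)
    (Y := fun ω => arrB w ω s) (measurable_arrA' w s measurable_id)
    (measurable_arrB' w s measurable_id), law_arrA, law_arrB]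
  · exact (depOn_arrA w s).mono fun p hp => hp.2.2
  · intro ω ω' hω
    funext p
    refine hω _ ?_
    simp

theorem depOn_pair (w s : ℕ) :
    DepOn (rect s (s + w) (s + 2 * w)) (fun ω => (arrA w ω s, arrB w ω s)) :=
  DepOn.comp₂ ((depOn_arrA w s).mono (rect_mono le_rfl le_rfl (by omega))) (depOn_arrB w s)
    fun a b => (a, b)

theorem law_grpA {V : ℝ → ℝ} [IsProbabilityMeasure (lawV V)] (w s : ℕ) :
    (Pm (lawV V)).map (fun ω => grpA w ω s) = gamG V w := by
  have mp : ∀ s, Measurable fun ω : Om => (arrA w ω s, arrB w ω s) := fun s =>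
    (measurable_arrA' w s measurable_id).prodMk (measurable_arrB' w s measurable_id)
  unfold grpA gamG
  rw [map_pair_indep (lawV V) {p : ℕ × ℕ | p.1 < s + w} (X := fun ω => (arrA w ω s, arrB w ω s))
    (Y := fun ω => ((arrA w ω (s + w), arrB w ω (s + w)),
      (arrA w ω (s + w + w), arrB w ω (s + w + w)))) (mp s) ((mp _).prodMk (mp _)),
    map_pair_indep (lawV V) {p : ℕ × ℕ | p.1 < s + w + w}
      (X := fun ω => (arrA w ω (s + w), arrB w ω (s + w)))
      (Y := fun ω => (arrA w ω (s + w + w), arrB w ω (s + w + w))) (mp _) (mp _),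
    law_pair, law_pair, law_pair]
  · exact (depOn_pair w (s + w)).mono rows_sub
  · exact (depOn_pair w (s + w + w)).mono compl_rows
  · exact (depOn_pair w s).mono rows_sub
  · exact DepOn.comp₂ ((depOn_pair w (s + w)).mono compl_rows)
      ((depOn_pair w (s + w + w)).mono ((rect_mono (by omega) le_rfl le_rfl).trans
        compl_rows)) fun a b => (a, b)

theorem depOn_grpA (w s : ℕ) : DepOn {p : ℕ × ℕ | p.1 < s + 3 * w} (fun ω => grpA w ω s) := by
  have h6 : ∀ (a : ℕ), a + w ≤ s + 3 * w → DepOn {p : ℕ × ℕ | p.1 < s + 3 * w}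
      (fun ω => (arrA w ω a, arrB w ω a)) := by
    intro a ha
    exact (depOn_pair w a).mono fun p hp => by
      have := hp.2.1
      simp only [Set.mem_ofPred_eq]
      omega
  exact DepOn.comp₂ (h6 s (by omega)) (DepOn.comp₂ (h6 (s + w) (by omega))
    (h6 (s + w + w) (by omega)) fun a b => (a, b)) fun a b => (a, b)

theorem measurable_transG' {α : Type*} [MeasurableSpace α] (e : ℝ) {Q : α → Arr w}
    {g : α → Grp w} {u : α → Fin w → ℝ} (hQ : Measurable Q) (hg : Measurable g)
    (hu : Measurable u) : Measurable fun x => transG e (Q x) (g x) (u x) := by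
  have q1 : Measurable fun x => nextQ e (Q x) (g x).1.1 (g x).1.2 :=
    measurable_nextQ e hQ hg.fst.fst hg.fst.snd
  have q2 : Measurable fun x => nextQ e (nextQ e (Q x) (g x).1.1 (g x).1.2)
      (g x).2.1.1 (g x).2.1.2 := measurable_nextQ e q1 hg.snd.fst.fst hg.snd.fst.snd
  have t1 : Measurable fun x => stepT e (Q x) (g x).1.1 (g x).1.2 (u x) :=
    measurable_stepT e hQ hg.fst.fst hg.fst.snd hu
  have t2 : Measurable fun x => stepT e (nextQ e (Q x) (g x).1.1 (g x).1.2)
      (g x).2.1.1 (g x).2.1.2 (stepT e (Q x) (g x).1.1 (g x).1.2 (u x)) :=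
    measurable_stepT e q1 hg.snd.fst.fst hg.snd.fst.snd t1
  unfold transG
  exact measurable_stepT e q2 hg.snd.snd.fst hg.snd.snd.snd t2

theorem measurable_zetaG' {α : Type*} [MeasurableSpace α] (e : ℝ) {Q : α → Arr w}
    {g : α → Grp w} (hQ : Measurable Q) (hg : Measurable g) :
    Measurable fun x => zetaG e (Q x) (g x) := by
  have q1 : Measurable fun x => nextQ e (Q x) (g x).1.1 (g x).1.2 :=
    measurable_nextQ e hQ hg.fst.fst hg.fst.snd
  have q2 : Measurable fun x => nextQ e (nextQ e (Q x) (g x).1.1 (g x).1.2)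
      (g x).2.1.1 (g x).2.1.2 := measurable_nextQ e q1 hg.snd.fst.fst hg.snd.fst.snd
  unfold zetaG
  exact measurable_nextQ e q2 hg.snd.snd.fst hg.snd.snd.snd

/-- the iterated integral is an expectation -/
theorem iter_eq {V : ℝ → ℝ} [IsProbabilityMeasure (lawV V)] (w : ℕ) (e : ℝ)
    {A : Arr w → (Fin w → ℝ) → ℝ≥0∞} (hA : Measurable fun p : Arr w × (Fin w → ℝ) => A p.1 p.2)
    (n : ℕ) : ∀ (s : ℕ) (Q : Arr w) (u : Fin w → ℝ),
    ∫⁻ ω, A (stQ w ω e (3 * n) Q s) (u ᵥ* stP w ω e (3 * n) Q s) ∂(Pm (lawV V)) =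
      iter (gamG V w) (zetaG e) (transG e) A n Q u := by
  induction n with
  | zero =>
    intro s Q u
    simp [stQ, stP, iter]
  | succ n ih =>
    intro s Q u
    have h3 : 3 * (n + 1) = 3 + 3 * n := by ring
    have e1 : ∀ ω : Om, A (stQ w ω e (3 * (n + 1)) Q s) (u ᵥ* stP w ω e (3 * (n + 1)) Q s) =
        A (stQ w ω e (3 * n) (zetaG e Q (grpA w ω s)) (s + 3 * w))
          (transG e Q (grpA w ω s) u ᵥ*
            stP w ω e (3 * n) (zetaG e Q (grpA w ω s)) (s + 3 * w)) := by
      intro ω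
      rw [h3, stQ_add, stP_add, zetaG_grpA, transG_grpA, Matrix.vecMul_vecMul]
    simp_rw [e1]
    have mu : ∀ {α : Type} [MeasurableSpace α] {u : α → Fin w → ℝ} {M : α → Matrix (Fin w) (Fin w) ℝ},
        Measurable u → (∀ i j, Measurable fun x => M x i j) →
        Measurable fun x => (u x) ᵥ* (M x) := by
      intro α _ u M hu hM
      refine measurable_pi_iff.2 fun j => ?_
      simp only [Matrix.vecMul, dotProduct]
      exact Finset.measurable_sum _ fun i _ => ((measurable_pi_apply i).comp hu).mul (hM i j)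
    have mz' : Measurable fun g : Grp w => zetaG e Q g :=
      measurable_zetaG' e measurable_const measurable_id
    have mt' : Measurable fun g : Grp w => transG e Q g u :=
      measurable_transG' e measurable_const measurable_id measurable_const
    have mz : Measurable fun p : Grp w × Om => zetaG e Q p.1 := mz'.comp measurable_fst
    have mt : Measurable fun p : Grp w × Om => transG e Q p.1 u := mt'.comp measurable_fst
    have mY : Measurable fun p : Grp w × Om =>
        A (stQ w p.2 e (3 * n) (zetaG e Q p.1) (s + 3 * w))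
          (transG e Q p.1 u ᵥ* stP w p.2 e (3 * n) (zetaG e Q p.1) (s + 3 * w)) :=
      hA.comp ((measurable_stQ w e measurable_snd (3 * n) _ mz).prodMk
        (mu mt (measurable_stP w e measurable_snd (3 * n) _ mz)))
    have hi := lintegral_indep (lawV V) {p : ℕ × ℕ | p.1 < s + 3 * w} (X := fun ω => grpA w ω s)
      (Y := fun g ω => A (stQ w ω e (3 * n) (zetaG e Q g) (s + 3 * w))
          (transG e Q g u ᵥ* stP w ω e (3 * n) (zetaG e Q g) (s + 3 * w)))
      (measurable_grpA w s) mY ?_ ?_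
    · rw [hi]
      simp only [iter]
      have h5 : Measurable fun p : Arr w × (Fin w → ℝ) =>
          iter (gamG V w) (zetaG e) (transG e) A n p.1 p.2 :=
        measurable_iter (measurable_zetaG e) (measurable_transG e) hA n
      have h6 : Measurable fun g : Grp w =>
          iter (gamG V w) (zetaG e) (transG e) A n (zetaG e Q g) (transG e Q g u) :=
        h5.comp (mz'.prodMk mt')
      have h7 : ∫⁻ g, iter (gamG V w) (zetaG e) (transG e) A n (zetaG e Q g) (transG e Q g u)
          ∂(gamG V w) = ∫⁻ ω, iter (gamG V w) (zetaG e) (transG e) A n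
            (zetaG e Q (grpA w ω s)) (transG e Q (grpA w ω s) u) ∂(Pm (lawV V)) := by
        have h8 := lintegral_map (μ := Pm (lawV V)) h6 (measurable_grpA w s)
        rw [law_grpA] at h8
        exact h8
      rw [h7]
      exact lintegral_congr fun ω => ih _ _ _
    · exact depOn_grpA w s
    · intro g
      refine DepOn.comp₂ (X := fun ω => stQ w ω e (3 * n) (zetaG e Q g) (s + 3 * w))
        (Y := fun ω => stP w ω e (3 * n) (zetaG e Q g) (s + 3 * w))
        ((depOn_stQ w e (3 * n) _ _).mono compl_rows) ((depOn_stP w e (3 * n) _ _).mono compl_rows)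
        fun a b => A a (transG e Q g u ᵥ* b)

/-- decay -/
theorem stP_decay {V : ℝ → ℝ} {K : ℝ} (h : NiceV V K) (hw : 1 ≤ w) {C R ε e : ℝ} (hC : 1 ≤ C)
    (hCm : 12 * (1 + m2 V + M2 V) ≤ C ^ 2) (hwR : (w : ℝ) ≤ R) (heR : w * e ^ 2 ≤ R ^ 2)
    (hε0 : 0 ≤ ε) (hε : ε * R * (100 * K * C ^ 2) ≤ 1)
    (hT : ∀ Q : Arr w, ((piA V w).prod (piA V w)) {p | R ^ 2 < nsq (nextQ e Q p.1 p.2)} ≤
      ENNReal.ofReal (1 / 12)) (n : ℕ) (Q : Arr w) (s : ℕ) (x y : Fin w) :
    ∫⁻ ω, fr (1 / 4) (stP w ω e (3 * (n + 1)) Q s x y) ∂(Pm (lawV V)) ≤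
      (w * (4 * cW (Real.exp (K / 2)) * 2)) ^ (1 / 2 : ℝ) *
      (ENNReal.ofReal (1 - (1 - Real.exp (-(ε / 2))) ^ 2 / (2 * Real.exp 1 + 2) / 2) ^ (n + 1)) ^
        (1 / 2 : ℝ) := by
  have := h.prob
  have hg := gap_group h hw hC hCm hwR heR hε0 hε hT (r := 1 / 4) (by norm_num) y (n + 1) Q
    (Pi.single x 1)
  have e1 : ∀ r : ℝ, iter (gamG V w) (zetaG e) (transG e) (obs r y) (n + 1) Q (Pi.single x 1) =
      ∫⁻ ω, fr r (stP w ω e (3 * (n + 1)) Q s x y) ∂(Pm (lawV V)) := by
    intro r
    rw [← iter_eq w e (measurable_obs r y) (n + 1) s Q]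
    refine lintegral_congr fun ω => ?_
    unfold obs fr
    rw [Matrix.single_one_vecMul]
    rfl
  rw [e1, e1] at hg
  refine hg.trans ?_
  have h2 : (2 * (1 / 4) : ℝ) = 1 / 2 := by norm_num
  have h3 : (2 * (1 / 4 * ε) : ℝ) = ε / 2 := by ring
  rw [h2, h3]
  gcongr
  have h4 : 3 * (n + 1) = (3 * n + 2) + 1 := by ring
  rw [h4]
  exact stP_moment h w e (3 * n + 2) Q s x y

end Run7.h834
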