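import Pool.Agent.Run7.h834.Trace
import Pool.Agent.Run7.h834.Decay

/-! Size of the self-energy: probabilities. -/

set_option autoImplicit false
open MeasureTheory Matrix
open scoped ENNReal

namespace Run7.h834

variable {V : ℝ → ℝ} {K : ℝ} {w : ℕ}

theorem lowM_lin (U : Matrix (Fin w) (Fin w) ℝ) (b : Arr w) (α j : Fin w) :
    (Uᵀ * lowM b) α j =
      ∑ p : Fin w × Fin w, (if p.2 = j ∧ j ≤ p.1 then U p.1 α else 0) * b p := by
  rw [Fintype.sum_prod_type, Matrix.mul_apply]
  refine Finset.sum_congr rfl fun k _ => ?_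
  rw [Finset.sum_eq_single j]
  · simp only [Matrix.transpose_apply, lowM, Matrix.of_apply]
    by_cases h : j ≤ k
    · simp [h]
    · simp [h]
  · intro j' _ hj'
    simp [hj']
  · intro h
    exact absurd (Finset.mem_univ j) h

theorem lowM_coef {U : Matrix (Fin w) (Fin w) ℝ} (hU : Uᵀ * U = 1) (α j : Fin w) :
    nsq (fun p : Fin w × Fin w => if p.2 = j ∧ j ≤ p.1 then U p.1 α else 0) ≤ 1 := by
  have h1 : ∑ k, U k α ^ 2 = 1 := by
    have := congrFun (congrFun hU α) α
    rw [Matrix.mul_apply, Matrix.one_apply_eq] at this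
    rw [← this]
    refine Finset.sum_congr rfl fun k _ => ?_
    rw [Matrix.transpose_apply]
    ring
  rw [← h1]
  unfold nsq
  rw [Fintype.sum_prod_type]
  refine Finset.sum_le_sum fun k _ => ?_
  rw [Finset.sum_eq_single j]
  · by_cases h : j ≤ k
    · simp [h]
    · simp [h]
      positivity
  · intro j' _ hj'
    simp [hj']
  · intro h
    exact absurd (Finset.mem_univ j) h

/-- the conditional tail of the self-energy -/
theorem tail_b (h : NiceV V K) (e : ℝ) (Q a : Arr w)
    (h0 : ∀ i, (SM_isHermitian e Q a).eigenvalues i ≠ 0) {R : ℝ} (hR : 0 < R) :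
    (piA V w) {b | R ^ 2 < nsq (nextQ e Q a b)} ≤
      ENNReal.ofReal ((w * trInv (SM_isHermitian e Q a)) / R) := by
  have := h.prob
  obtain ⟨U, h1, h2, h3⟩ := spec_decomp (SM_isHermitian e Q a)
  set lam := (SM_isHermitian e Q a).eigenvalues with hlam
  set Θ : Arr w → ℝ := fun b => ∑ j, ∑ α, |lam α|⁻¹ * ((Uᵀ * lowM b) α j) ^ 2 with hΘ
  have hΘ0 : ∀ b, 0 ≤ Θ b := fun b => Finset.sum_nonneg fun j _ => Finset.sum_nonneg fun α _ =>
    mul_nonneg (by positivity) (sq_nonneg _)
  have hle : ∀ b, nsq (nextQ e Q a b) ≤ Θ b ^ 2 := by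
    intro b
    have := frob_le h0 h1 h2 h3 (lowM b)
    refine le_trans (le_of_eq ?_) this
    unfold nsq
    rw [Fintype.sum_prod_type]
    rfl
  have hmeas : ∀ α j, Measurable fun b : Arr w => (Uᵀ * lowM b) α j := by
    intro α j
    exact measurable_mat_mul (A := fun _ : Arr w => Uᵀ) (B := fun b => lowM b)
      (fun _ _ => measurable_const) (fun i j => measurable_lowM measurable_id i j) α j
  have hΘm : Measurable Θ := by
    refine Finset.measurable_sum _ fun j _ => Finset.measurable_sum _ fun α _ => ?_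
    exact ((hmeas α j).pow_const 2).const_mul _
  have hsub : {b | R ^ 2 < nsq (nextQ e Q a b)} ⊆ {b | R < Θ b} := by
    intro b hb
    simp only [Set.mem_ofPred_eq] at hb ⊢
    have := lt_of_lt_of_le hb (hle b)
    exact lt_of_pow_lt_pow_left₀ 2 (hΘ0 b) this
  refine (measure_mono hsub).trans ?_
  refine markov_lt hΘm hR ?_
  have e1 : ∀ b, ENNReal.ofReal (Θ b) = ∑ j, ∑ α, ENNReal.ofReal |lam α|⁻¹ *
      ENNReal.ofReal (((Uᵀ * lowM b) α j) ^ 2) := by
    intro b
    rw [hΘ, ENNReal.ofReal_sum_of_nonneg fun j _ => Finset.sum_nonneg fun α _ =>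
      mul_nonneg (by positivity) (sq_nonneg _)]
    refine Finset.sum_congr rfl fun j _ => ?_
    rw [ENNReal.ofReal_sum_of_nonneg fun α _ => mul_nonneg (by positivity) (sq_nonneg _)]
    refine Finset.sum_congr rfl fun α _ => ?_
    rw [ENNReal.ofReal_mul (by positivity)]
  have mm' : ∀ α j, Measurable fun b : Arr w => ENNReal.ofReal (((Uᵀ * lowM b) α j) ^ 2) :=
    fun α j => ENNReal.measurable_ofReal.comp ((hmeas α j).pow_const 2)
  have mm : ∀ α j, Measurable fun b : Arr w => ENNReal.ofReal |lam α|⁻¹ *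
      ENNReal.ofReal (((Uᵀ * lowM b) α j) ^ 2) := fun α j => (mm' α j).const_mul _
  rw [lintegral_congr e1, lintegral_finsetSum _ fun j _ =>
    Finset.measurable_sum _ fun α _ => mm α j]
  have e2 : ∀ j, ∫⁻ b, ∑ α, ENNReal.ofReal |lam α|⁻¹ *
      ENNReal.ofReal (((Uᵀ * lowM b) α j) ^ 2) ∂(piA V w) ≤
      ENNReal.ofReal (trInv (SM_isHermitian e Q a)) := by
    intro j
    rw [lintegral_finsetSum _ fun α _ => mm α j]
    unfold trInv
    rw [ENNReal.ofReal_sum_of_nonneg fun α _ => by positivity]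
    refine Finset.sum_le_sum fun α _ => ?_
    rw [lintegral_const_mul _ (mm' α j)]
    have h5 := h.entry_sq (ι := Fin w × Fin w)
      (fun p => if p.2 = j ∧ j ≤ p.1 then U p.1 α else 0)
    have h6 : ∫⁻ b, ENNReal.ofReal (((Uᵀ * lowM b) α j) ^ 2) ∂(piA V w) ≤ 1 := by
      simp_rw [lowM_lin]
      unfold piA
      rw [h5]
      rw [ENNReal.ofReal_le_one]
      exact lowM_coef h2 α j
    calc ENNReal.ofReal |lam α|⁻¹ * ∫⁻ b, ENNReal.ofReal (((Uᵀ * lowM b) α j) ^ 2) ∂(piA V w)
        ≤ ENNReal.ofReal |lam α|⁻¹ * 1 := by gcongr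
      _ = _ := mul_one _
  calc _ ≤ ∑ _j : Fin w, ENNReal.ofReal (trInv (SM_isHermitian e Q a)) :=
        Finset.sum_le_sum fun j _ => e2 j
    _ = ENNReal.ofReal (w * trInv (SM_isHermitian e Q a)) := by
        rw [Finset.sum_const, Finset.card_univ, Fintype.card_fin, nsmul_eq_mul,
          ENNReal.ofReal_mul (by positivity), ENNReal.ofReal_natCast]

/-- the tail of the self-energy from a Wegner estimate with constant `B` -/
theorem tail_ab (h : NiceV V K) (hw : 1 ≤ w) {B R e : ℝ} (hB0 : 0 < B)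
    (hB : ∀ (Q : Arr w) (t : ℝ), 0 ≤ t →
      ∫⁻ a, (nInt (SM e Q a) t : ℝ≥0∞) ∂(piA V w) ≤ ENNReal.ofReal (B * t))
    {k0 : ℕ} (hk0 : (48 * w : ℝ) ≤ 2 ^ k0) (hR : 48 * w * (B * (1 + 96 * k0)) ≤ R)
    (Q : Arr w) :
    ((piA V w).prod (piA V w)) {p | R ^ 2 < nsq (nextQ e Q p.1 p.2)} ≤
      ENNReal.ofReal (1 / 12) := by
  have := h.prob
  have hw1 : (1 : ℝ) ≤ w := by exact_mod_cast hw
  have hw0 : (0 : ℝ) < w := by linarith
  have hk0' : 0 < k0 := by
    rcases Nat.eq_zero_or_pos k0 with h0 | h0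
    · rw [h0, pow_zero] at hk0
      linarith
    · exact h0
  have hk0r : (0 : ℝ) < k0 := by exact_mod_cast hk0'
  have hR0 : 0 < R := lt_of_lt_of_le (by positivity) hR
  set t0 : ℝ := w / B with ht0
  have ht0p : 0 < t0 := by positivity
  have mS : ∀ i j, Measurable fun a : Arr w => SM e Q a i j := fun i j =>
    measurable_SM e measurable_const measurable_id i j
  have mN : ∀ t, Measurable fun a : Arr w => (nInt (SM e Q a) t : ℝ) := fun t =>
    measurable_from_top.comp (measurable_nInt mS t)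
  -- the first bad set
  set G1 : Set (Arr w) := {a | 1 / 2 < (nInt (SM e Q a) (t0 / 2 ^ k0) : ℝ)} with hG1
  set X : Arr w → ℝ := fun a => ∑ k ∈ Finset.range k0,
    (2 ^ (k + 1) / t0) * (nInt (SM e Q a) (t0 / 2 ^ k) : ℝ) with hX
  have mX : Measurable X := Finset.measurable_sum _ fun k _ => (mN _).const_mul _
  set G2 : Set (Arr w) := {a | 96 * B * k0 < X a} with hG2
  have mG1 : MeasurableSet G1 := measurableSet_lt measurable_const (mN _)
  have mG2 : MeasurableSet G2 := measurableSet_lt measurable_const mX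
  have hBr : ∀ t : ℝ, 0 ≤ t → ∫⁻ a, ENNReal.ofReal (nInt (SM e Q a) t : ℝ) ∂(piA V w) ≤
      ENNReal.ofReal (B * t) := by
    intro t ht
    simp_rw [ENNReal.ofReal_natCast]
    exact hB Q t ht
  have p1 : piA V w G1 ≤ ENNReal.ofReal (1 / 24) := by
    refine (markov_lt (mN _) (by norm_num) (hBr (t0 / 2 ^ k0) (by positivity))).trans ?_
    refine ENNReal.ofReal_le_ofReal ?_
    have : B * (t0 / 2 ^ k0) = w / 2 ^ k0 := by
      rw [ht0]
      field_simp
    rw [this]
    have h2 : (0 : ℝ) < 2 ^ k0 := by positivity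
    rw [div_div, div_le_div_iff₀ (by positivity) (by norm_num)]
    linarith
  have p2 : piA V w G2 ≤ ENNReal.ofReal (1 / 48) := by
    have hE : ∫⁻ a, ENNReal.ofReal (X a) ∂(piA V w) ≤ ENNReal.ofReal (2 * B * k0) := by
      have e1 : ∀ a, ENNReal.ofReal (X a) = ∑ k ∈ Finset.range k0,
          ENNReal.ofReal (2 ^ (k + 1) / t0) *
            ENNReal.ofReal (nInt (SM e Q a) (t0 / 2 ^ k) : ℝ) := by
        intro a
        rw [hX, ENNReal.ofReal_sum_of_nonneg fun k _ => by positivity]
        refine Finset.sum_congr rfl fun k _ => ?_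
        rw [ENNReal.ofReal_mul (by positivity)]
      have mN' : ∀ t, Measurable fun a : Arr w => ENNReal.ofReal (nInt (SM e Q a) t : ℝ) :=
        fun t => ENNReal.measurable_ofReal.comp (mN t)
      have mN'' : ∀ k ∈ Finset.range k0, Measurable fun a : Arr w =>
          ENNReal.ofReal (2 ^ (k + 1) / t0) *
            ENNReal.ofReal (nInt (SM e Q a) (t0 / 2 ^ k) : ℝ) := fun k _ => (mN' _).const_mul _
      rw [lintegral_congr e1, lintegral_finsetSum _ mN'']
      calc _ ≤ ∑ _k ∈ Finset.range k0, ENNReal.ofReal (2 * B) := by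
            refine Finset.sum_le_sum fun k _ => ?_
            rw [lintegral_const_mul _ (mN' _)]
            calc ENNReal.ofReal (2 ^ (k + 1) / t0) * ∫⁻ a,
                  ENNReal.ofReal (nInt (SM e Q a) (t0 / 2 ^ k) : ℝ) ∂(piA V w)
                ≤ ENNReal.ofReal (2 ^ (k + 1) / t0) * ENNReal.ofReal (B * (t0 / 2 ^ k)) := by
                  gcongr
                  exact hBr _ (by positivity)
              _ = ENNReal.ofReal (2 * B) := by
                  rw [← ENNReal.ofReal_mul (by positivity)]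
                  congr 1
                  field_simp
                  ring
        _ = ENNReal.ofReal (2 * B * k0) := by
            rw [Finset.sum_const, Finset.card_range, nsmul_eq_mul, mul_comm,
              ENNReal.ofReal_mul (p := 2 * B) (by positivity), ENNReal.ofReal_natCast]
    refine (markov_lt mX (by positivity) hE).trans ?_
    refine ENNReal.ofReal_le_ofReal (le_of_eq ?_)
    field_simp
    norm_num
  -- the third bad set
  set T0 : ℝ := B * (1 + 96 * k0) with hT0
  set G3 : Set (Arr w × Arr w) := {p | p.1 ∉ G1 ∧ p.1 ∉ G2 ∧ R ^ 2 < nsq (nextQ e Q p.1 p.2)}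
    with hG3
  have mG3 : MeasurableSet G3 := by
    refine (mG1.compl.preimage measurable_fst).inter ((mG2.compl.preimage measurable_fst).inter ?_)
    exact measurableSet_lt measurable_const (measurable_nsq
      (measurable_nextQ e measurable_const measurable_fst measurable_snd))
  have p3 : ((piA V w).prod (piA V w)) G3 ≤ ENNReal.ofReal (1 / 48) := by
    refine prod_slice_le mG3 fun a => ?_
    by_cases ha : a ∉ G1 ∧ a ∉ G2
    · have hn : nInt (SM e Q a) (t0 / 2 ^ k0) = 0 := by
        have := ha.1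
        simp only [hG1, Set.mem_ofPred_eq, not_lt] at this
        by_contra hcon
        have h1 : 1 ≤ nInt (SM e Q a) (t0 / 2 ^ k0) := Nat.one_le_iff_ne_zero.2 hcon
        have h2 : (1 : ℝ) ≤ (nInt (SM e Q a) (t0 / 2 ^ k0) : ℝ) := by exact_mod_cast h1
        linarith
      obtain ⟨h0, htr⟩ := trInv_le (SM_isHermitian e Q a) ht0p k0 hn
      have hT : trInv (SM_isHermitian e Q a) ≤ T0 := by
        refine htr.trans ?_
        have := ha.2
        simp only [hG2, Set.mem_ofPred_eq, not_lt] at this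
        rw [Fintype.card_fin]
        have e3 : (w : ℝ) / t0 = B := by
          rw [ht0]
          field_simp
        rw [e3, hT0]
        have : X a ≤ 96 * B * k0 := this
        have e4 : X a = ∑ k ∈ Finset.range k0,
            (2 ^ (k + 1) / t0) * (nInt (SM e Q a) (t0 / 2 ^ k) : ℝ) := rfl
        rw [← e4]
        linarith
      refine le_trans (measure_mono (t := {b | R ^ 2 < nsq (nextQ e Q a b)}) ?_) ?_
      · intro b hb
        exact hb.2.2
      · refine (tail_b h e Q a h0 hR0).trans (ENNReal.ofReal_le_ofReal ?_)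
        rw [div_le_div_iff₀ hR0 (by norm_num), one_mul]
        have : (w : ℝ) * trInv (SM_isHermitian e Q a) ≤ w * T0 :=
          mul_le_mul_of_nonneg_left hT hw0.le
        linarith
    · have : Prod.mk a ⁻¹' G3 = ∅ := by
        ext b
        simp only [hG3, Set.mem_preimage, Set.mem_ofPred_eq, Set.mem_empty_iff_false, iff_false]
        intro hb
        exact ha ⟨hb.1, hb.2.1⟩
      rw [this, measure_empty]
      exact zero_le
  have hsub : {p : Arr w × Arr w | R ^ 2 < nsq (nextQ e Q p.1 p.2)} ⊆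
      {p | p.1 ∈ G1} ∪ {p | p.1 ∈ G2} ∪ G3 := by
    intro p hp
    by_cases h1 : p.1 ∈ G1
    · exact Or.inl (Or.inl h1)
    · by_cases h2 : p.1 ∈ G2
      · exact Or.inl (Or.inr h2)
      · exact Or.inr ⟨h1, h2, hp⟩
  refine (measure_mono hsub).trans ?_
  refine (measure_union_le _ _).trans ?_
  have q1 := measure_union_le (μ := (piA V w).prod (piA V w))
    {p : Arr w × Arr w | p.1 ∈ G1} {p | p.1 ∈ G2}
  rw [prod_fst_eq, prod_fst_eq] at q1
  have hsum : ENNReal.ofReal (1 / 12) = ENNReal.ofReal (1 / 24) + ENNReal.ofReal (1 / 48) +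
      ENNReal.ofReal (1 / 48) := by
    rw [← ENNReal.ofReal_add, ← ENNReal.ofReal_add]
    · norm_num
    all_goals norm_num
  rw [hsum]
  exact add_le_add (q1.trans (add_le_add p1 p2)) p3

end Run7.h834
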