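import Pool.Agent.Run7.h834.Cut3
import Pool.Agent.Run7.h834.Trace2

/-! The localization estimate in terms of the Wegner constant of one block. -/

set_option autoImplicit false
open MeasureTheory Matrix Set
open scoped ENNReal

namespace Run7.h834

variable {V : ℝ → ℝ} {K : ℝ} {w : ℕ}

/-- Wegner estimate for one block with constant `B` -/
def WegB (V : ℝ → ℝ) (w : ℕ) (B : ℝ) : Prop :=
  ∀ (e : ℝ) (Q : Arr w) (t : ℝ), 0 ≤ t →
    ∫⁻ a, (nInt (SM e Q a) t : ℝ≥0∞) ∂(piA V w) ≤ ENNReal.ofReal (B * t)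

theorem wegB_weak (h : NiceV V K) (w : ℕ) : WegB V w (w * (4 * Real.exp (K / 2))) := by
  have := h.prob
  intro e Q t ht
  have m1 : Measurable fun a : Arr w => (nInt (SM e Q a) t : ℝ≥0∞) :=
    measurable_from_top.comp
      (measurable_nInt (fun i j => measurable_SM e measurable_const measurable_id i j) t)
  have m2 : Measurable fun ω : Om => arrA w ω 0 := measurable_arrA' w 0 measurable_id
  rw [← law_arrA (V := V) w 0, lintegral_map m1 m2]
  have h1 := wegner_nInt h.bddDens w e Q 0 w ht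
  simp_rw [kM_self] at h1
  refine h1.trans (le_of_eq ?_)
  rw [mul_assoc (w : ℝ), ENNReal.ofReal_mul (p := (w : ℝ)) (Nat.cast_nonneg _),
    ENNReal.ofReal_natCast]

/-- scale count -/
noncomputable def kz (w : ℕ) : ℕ := Nat.clog 2 (48 * w)

theorem kz_spec (w : ℕ) : (48 * w : ℝ) ≤ 2 ^ kz w := by
  have := Nat.le_pow_clog (b := 2) (by norm_num) (48 * w)
  unfold kz
  exact_mod_cast this

/-- the a priori size of the self-energy -/
noncomputable def RR (e₀ B : ℝ) (w : ℕ) : ℝ := 4608 * (1 + e₀) * w * B * (1 + kz w)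

/-- numerical constant of the decay rate -/
noncomputable def cD (V : ℝ → ℝ) (K : ℝ) : ℝ :=
  512 * (100 * K * (12 * (1 + m2 V + M2 V))) ^ 2

theorem exp_one_le : Real.exp 1 ≤ 3 := by
  have := Real.exp_one_lt_d9
  linarith

theorem one_sub_exp_ge {x : ℝ} (h0 : 0 ≤ x) (h1 : x ≤ 1) : x / 2 ≤ 1 - Real.exp (-x) := by
  have h2 : Real.exp (-x) ≤ 1 - x + x ^ 2 := by
    have h3 := Real.add_one_le_exp x
    have h4 : Real.exp (-x) = 1 / Real.exp x := by
      rw [Real.exp_neg, one_div]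
    rw [h4, div_le_iff₀ (Real.exp_pos x)]
    nlinarith [mul_nonneg (by nlinarith [sq_nonneg (x - 1/2)] : (0:ℝ) ≤ 1 - x + x ^ 2)
      (by linarith : (0:ℝ) ≤ Real.exp x - (x + 1)), pow_nonneg h0 3]
  have h3 : Real.exp (-x) ≤ 1 / (1 + x) := by
    rw [Real.exp_neg, ← one_div]
    exact one_div_le_one_div_of_le (by linarith) (by linarith [Real.add_one_le_exp x])
  have h4 : 1 / (1 + x) ≤ 1 - x / 2 := by
    rw [div_le_iff₀ (by linarith)]
    nlinarith
  linarith

/-- localization bound -/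
theorem locP_bound (h : NiceV V K) (hw : 1 ≤ w) {B e₀ e : ℝ} (hB1 : 1 ≤ B) (hB : WegB V w B)
    (he₀ : 0 ≤ e₀) (he : |e| ≤ e₀ * Real.sqrt w) (n : ℕ) :
    LocP V w e (3 * (n + 1)) ((w * (4 * cW (Real.exp (K / 2)) * 2)) ^ (1 / 2 : ℝ) *
      ENNReal.ofReal (Real.exp (-((n + 1) / (cD V K * RR e₀ B w ^ 2))))) := by
  have hK := h.one_le
  have hw1 : (1 : ℝ) ≤ w := by exact_mod_cast hw
  set R := RR e₀ B w with hR
  have hkz : (0 : ℝ) ≤ kz w := Nat.cast_nonneg _
  have wB : (1 : ℝ) ≤ w * B := by nlinarith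
  have hR1 : w * B * (1 + e₀) ≤ R := by
    rw [hR, RR]
    have : 0 ≤ w * B * (1 + e₀) := by positivity
    nlinarith [mul_nonneg this hkz]
  have hwR : (w : ℝ) ≤ R := by
    refine le_trans ?_ hR1
    have : (w : ℝ) ≤ w * B := le_mul_of_one_le_right (by positivity) hB1
    nlinarith [mul_nonneg (by positivity : (0:ℝ) ≤ w * B) he₀]
  have hR0 : 0 < R := by linarith
  have heR : w * e ^ 2 ≤ R ^ 2 := by
    have h1 : e ^ 2 ≤ e₀ ^ 2 * w := by
      rw [← sq_abs]
      calc |e| ^ 2 ≤ (e₀ * Real.sqrt w) ^ 2 := pow_le_pow_left₀ (abs_nonneg _) he 2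
        _ = e₀ ^ 2 * w := by rw [mul_pow, Real.sq_sqrt (by positivity)]
    have h2 : w * e₀ ≤ R := by
      refine le_trans ?_ hR1
      have : (w : ℝ) ≤ w * B := le_mul_of_one_le_right (by positivity) hB1
      nlinarith [mul_le_mul_of_nonneg_right this he₀]
    calc (w : ℝ) * e ^ 2 ≤ w * (e₀ ^ 2 * w) := mul_le_mul_of_nonneg_left h1 (by positivity)
      _ = (w * e₀) ^ 2 := by ring
      _ ≤ R ^ 2 := pow_le_pow_left₀ (by positivity) h2 2
  set C2 : ℝ := 12 * (1 + m2 V + M2 V) with hC2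
  have hC21 : 1 ≤ C2 := by
    have := m2_nonneg V
    have := M2_nonneg V
    rw [hC2]
    linarith
  have hC20 : 0 ≤ C2 := by linarith
  set C := Real.sqrt C2 with hC
  have hCsq : C ^ 2 = C2 := Real.sq_sqrt hC20
  have hC1 : 1 ≤ C := by
    rw [hC]
    exact Real.one_le_sqrt.2 hC21
  have hT : ∀ Q : Arr w, ((piA V w).prod (piA V w)) {p | R ^ 2 < nsq (nextQ e Q p.1 p.2)} ≤
      ENNReal.ofReal (1 / 12) := fun Q => by
    refine tail_ab h hw (B := B) (by linarith) (fun Q t ht => hB e Q t ht) (kz_spec w) ?_ Q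
    rw [hR, RR]
    have h1 : 0 ≤ (w : ℝ) * B := by positivity
    have h2 : 48 * w * (B * (1 + 96 * (kz w : ℝ))) ≤ 4608 * w * B * (1 + kz w) := by
      nlinarith [mul_nonneg h1 hkz]
    refine h2.trans ?_
    have h3 : 0 ≤ 4608 * w * B * (1 + (kz w : ℝ)) := by positivity
    nlinarith [mul_nonneg h3 he₀]
  set ε : ℝ := 1 / (100 * K * C2 * R) with hε
  have hden : 0 < 100 * K * C2 * R := by positivity
  have hR1' : 1 ≤ R := hw1.trans hwR
  have hden1 : 1 ≤ 100 * K * C2 * R := by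
    have a1 : 1 ≤ K * C2 := by nlinarith
    have a2 : 1 ≤ K * C2 * R := by nlinarith
    nlinarith
  have hε0 : 0 < ε := by positivity
  have hε1 : ε ≤ 1 := by
    rw [hε, div_le_one hden]
    exact hden1
  intro Q s x y
  have key := stP_decay h hw (C := C) (R := R) (ε := ε) (e := e) hC1 (by rw [hCsq]) hwR heR
    hε0.le (by
      rw [hCsq, hε]
      refine le_of_eq ?_
      field_simp) hT n Q s x y
  refine key.trans (mul_le_mul_right ?_ _)
  -- the rate
  set q : ℝ := 1 - (1 - Real.exp (-(ε / 2))) ^ 2 / (2 * Real.exp 1 + 2) / 2 with hq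
  have hq1 : q ≤ 1 - ε ^ 2 / 256 := by
    have h1 := one_sub_exp_ge (x := ε / 2) (by positivity) (by linarith)
    have h2 : (ε / 2 / 2) ^ 2 ≤ (1 - Real.exp (-(ε / 2))) ^ 2 :=
      pow_le_pow_left₀ (by positivity) h1 2
    have h3 := exp_one_le
    have h4 : 0 < 2 * Real.exp 1 + 2 := by positivity
    have h5 : (ε / 2 / 2) ^ 2 / 8 / 2 ≤ (1 - Real.exp (-(ε / 2))) ^ 2 / (2 * Real.exp 1 + 2) / 2 := by
      have : (ε / 2 / 2) ^ 2 / 8 ≤ (1 - Real.exp (-(ε / 2))) ^ 2 / (2 * Real.exp 1 + 2) :=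
        div_le_div₀ (by positivity) h2 h4 (by linarith)
      linarith
    have h6 : (ε / 2 / 2) ^ 2 / 8 / 2 = ε ^ 2 / 256 := by ring
    rw [hq]
    linarith
  have hq2 : q ≤ Real.exp (-(ε ^ 2 / 256)) := by
    have := Real.add_one_le_exp (-(ε ^ 2 / 256))
    linarith
  have h7 : (ENNReal.ofReal q) ^ (n + 1) ≤ ENNReal.ofReal (Real.exp (-(ε ^ 2 / 256) * (n + 1))) := by
    calc (ENNReal.ofReal q) ^ (n + 1) ≤ (ENNReal.ofReal (Real.exp (-(ε ^ 2 / 256)))) ^ (n + 1) := by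
          gcongr
      _ = ENNReal.ofReal (Real.exp (-(ε ^ 2 / 256)) ^ (n + 1)) := by
          rw [ENNReal.ofReal_pow (Real.exp_pos _).le]
      _ = ENNReal.ofReal (Real.exp (-(ε ^ 2 / 256) * (n + 1))) := by
          rw [← Real.exp_nat_mul]
          congr 2
          push_cast
          ring
  calc ((ENNReal.ofReal q) ^ (n + 1)) ^ (1 / 2 : ℝ)
      ≤ (ENNReal.ofReal (Real.exp (-(ε ^ 2 / 256) * (n + 1)))) ^ (1 / 2 : ℝ) :=
        ENNReal.rpow_le_rpow h7 (by norm_num)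
    _ = ENNReal.ofReal (Real.exp (-(ε ^ 2 / 256) * (n + 1) * (1 / 2))) := by
        rw [ENNReal.ofReal_rpow_of_pos (Real.exp_pos _), ← Real.exp_mul]
    _ ≤ _ := by
        refine ENNReal.ofReal_le_ofReal (Real.exp_le_exp.2 ?_)
        have h8 : ((n : ℝ) + 1) / (cD V K * R ^ 2) = ε ^ 2 / 256 * (n + 1) * (1 / 2) := by
          have h9 : cD V K = 512 * (100 * K * C2) ^ 2 := rfl
          rw [h9, hε]
          field_simp
          ring
        linarith

end Run7.h834
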