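import Pool.Agent.Run7.h834.SW6
import Pool.Agent.Run7.h834.LocE

/-! Strong Wegner estimate for long sections. -/

set_option autoImplicit false
open MeasureTheory Matrix Set Module
open scoped ENNReal

namespace Run7.h834

variable {V : ℝ → ℝ} {K : ℝ}

/-- a random symmetric matrix with independent diagonal is almost surely invertible -/
theorem unit_ae {μ : Measure ℝ} [IsProbabilityMeasure μ] {D : ℝ} (hμ : BddDens μ D)
    {ι : Type*} [Fintype ι] [DecidableEq ι] {M K₀ : Om → Matrix ι ι ℝ}
    (hM : ∀ ω, (M ω).IsHermitian) (mM : ∀ i j, Measurable fun ω => M ω i j)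
    (φ : ι → ℕ × ℕ) (hφ : Function.Injective φ)
    (hdec : ∀ ω ω', M (mix (Set.range φ)ᶜ ω ω') = K₀ ω + Matrix.diagonal (fun i => ω' (φ i))) :
    Pm μ {ω | ¬ IsUnit (M ω)} = 0 := by
  have h1 : ∀ t : ℝ, 0 < t → Pm μ {ω | ¬ IsUnit (M ω)} ≤
      Fintype.card ι * ENNReal.ofReal (2 * D * (2 * t)) := by
    intro t ht
    have hm : Measurable fun ω : Om => (nInt (M ω) t : ℝ≥0∞) :=
      measurable_from_top.comp (measurable_nInt mM t)
    have h2 : Pm μ {ω | ¬ IsUnit (M ω)} ≤ ∫⁻ ω, (nInt (M ω) t : ℝ≥0∞) ∂(Pm μ) := by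
      have h2 := mul_meas_ge_le_lintegral (μ := Pm μ) hm 1
      rw [one_mul] at h2
      refine le_trans (measure_mono ?_) h2
      intro ω hω
      simp only [Set.mem_ofPred_eq] at hω ⊢
      by_contra hcon
      push Not at hcon
      apply hω
      refine isUnit_of_nInt (hM ω) ht ?_
      have : nInt (M ω) t < 1 := by exact_mod_cast hcon
      omega
    refine h2.trans ?_
    rw [lintegral_mix μ (Set.range φ)ᶜ hm]
    calc _ ≤ ∫⁻ _, Fintype.card ι * ENNReal.ofReal (2 * D * (2 * t)) ∂(Pm μ) := by
          refine lintegral_mono fun ω => ?_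
          set K1 : Matrix ι ι ℝ := K₀ ω + t • (1 : Matrix ι ι ℝ) with hK1
          have e1 : ∀ ω', (nInt (M (mix (Set.range φ)ᶜ ω ω')) t : ℝ≥0∞) =
              (fun v : ι → ℝ => (cnt K1 (2 * t) v : ℝ≥0∞)) (fun i => ω' (φ i)) := by
            intro ω'
            rw [hdec]
            unfold nInt cnt dIdx
            have f1 : K₀ ω + Matrix.diagonal (fun i => ω' (φ i)) - t • (1 : Matrix ι ι ℝ) =
                K1 + Matrix.diagonal (sub' Finset.univ (2 * t) fun i => ω' (φ i)) := by
              ext i j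
              by_cases h : i = j
              · subst h
                simp only [Matrix.sub_apply, Matrix.add_apply, Matrix.diagonal_apply_eq,
                  Matrix.smul_apply, Matrix.one_apply_eq, hK1, sub', Finset.mem_univ, if_true,
                  smul_eq_mul]
                ring
              · simp [hK1, h, Matrix.one_apply]
            have f2 : K₀ ω + Matrix.diagonal (fun i => ω' (φ i)) - (-t) • (1 : Matrix ι ι ℝ) =
                K1 + Matrix.diagonal (fun i => ω' (φ i)) := by
              rw [hK1, neg_smul]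
              abel
            rw [f1, f2]
          simp_rw [e1]
          have hc : Measurable fun v : ι → ℝ => (cnt K1 (2 * t) v : ℝ≥0∞) :=
            measurable_from_top.comp (measurable_cnt K1 _)
          rw [lintegral_sel μ φ hφ hc]
          exact wegner hμ K1 (by linarith)
      _ = _ := by simp
  have h2 : Filter.Tendsto (fun t : ℝ => (Fintype.card ι : ℝ≥0∞) *
      ENNReal.ofReal (2 * D * (2 * t))) (nhdsWithin 0 (Set.Ioi 0)) (nhds 0) := by
    have h3 : Filter.Tendsto (fun t : ℝ => ENNReal.ofReal (2 * D * (2 * t)))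
        (nhdsWithin 0 (Set.Ioi 0)) (nhds 0) := by
      have : Continuous fun t : ℝ => ENNReal.ofReal (2 * D * (2 * t)) :=
        ENNReal.continuous_ofReal.comp (by fun_prop)
      have h4 := (this.tendsto 0).mono_left (nhdsWithin_le_nhds (s := Set.Ioi (0 : ℝ)))
      simpa using h4
    have := ENNReal.Tendsto.const_mul (a := (Fintype.card ι : ℝ≥0∞)) h3
      (Or.inr (ENNReal.natCast_ne_top _))
    simpa using this
  refine le_antisymm (ge_of_tendsto h2 ?_) zero_le
  filter_upwards [self_mem_nhdsWithin] with t ht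
  exact h1 t ht

/-- the section with the first `m` sites shifted by `t` -/
noncomputable def dM (w : ℕ) (ω : Om) (e t : ℝ) (s n m : ℕ) : Matrix (Fin n) (Fin n) ℝ :=
  Matrix.of fun i j => bnd w ω (s + i) (s + j) -
    (if i = j then e + (if (i : ℕ) < m then t else 0) else 0)

theorem bnd_symm (w : ℕ) (ω : Om) (i j : ℕ) : bnd w ω i j = bnd w ω j i := by
  unfold bnd
  rw [max_comm, min_comm]

theorem dM_zero (w : ℕ) (ω : Om) (e t : ℝ) (s n : ℕ) : dM w ω e t s n 0 = kM w ω e 0 s n := by
  ext i j
  simp only [dM, kM, Matrix.of_apply]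
  have h0 : qE (0 : Arr w) i j = 0 := by
    unfold qE
    split_ifs
    · simp [symM]
    · rfl
  rw [h0, if_neg (Nat.not_lt_zero _), add_zero, sub_zero]

theorem dM_top (w : ℕ) (ω : Om) (e t : ℝ) (s : ℕ) {n m : ℕ} (h : n ≤ m) :
    dM w ω e t s n m = kM w ω (e + t) 0 s n := by
  ext i j
  simp only [dM, kM, Matrix.of_apply]
  have h0 : qE (0 : Arr w) i j = 0 := by
    unfold qE
    split_ifs
    · simp [symM]
    · rfl
  rw [h0, if_pos (lt_of_lt_of_le i.2 h), sub_zero]

theorem dM_isHermitian (w : ℕ) (ω : Om) (e t : ℝ) (s n m : ℕ) :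
    (dM w ω e t s n m).IsHermitian := by
  ext i j
  simp only [Matrix.conjTranspose_apply, dM, Matrix.of_apply, star_trivial]
  rw [bnd_symm]
  by_cases h : i = j
  · subst h
    rfl
  · rw [if_neg h, if_neg (Ne.symm h)]

theorem measurable_dM (w : ℕ) (e t : ℝ) (s n m : ℕ) (i j : Fin n) :
    Measurable fun ω : Om => dM w ω e t s n m i j := by
  simp only [dM, Matrix.of_apply]
  exact (measurable_bnd w _ _).sub_const _

theorem dM_mono (w : ℕ) (ω : Om) (e : ℝ) {t : ℝ} (ht : 0 ≤ t) (s n : ℕ) {m m' : ℕ}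
    (h : m ≤ m') : negIdx (dM w ω e t s n m) ≤ negIdx (dM w ω e t s n m') := by
  refine negIdx_mono fun x => ?_
  have e1 : dM w ω e t s n m = dM w ω e t s n m' + Matrix.diagonal (fun i : Fin n =>
      if (i : ℕ) < m then 0 else if (i : ℕ) < m' then t else 0) := by
    ext i j
    simp only [dM, Matrix.of_apply, Matrix.add_apply]
    by_cases hij : i = j
    · subst hij
      rw [Matrix.diagonal_apply_eq, if_pos rfl, if_pos rfl]
      by_cases h1 : (i : ℕ) < m
      · rw [if_pos h1, if_pos h1, if_pos (lt_of_lt_of_le h1 h)]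
        ring
      · rw [if_neg h1, if_neg h1]
        ring
    · rw [Matrix.diagonal_apply_ne _ hij, if_neg hij, if_neg hij]
      ring
  rw [e1, quad_add]
  have : 0 ≤ x ⬝ᵥ (Matrix.diagonal (fun i : Fin n =>
      if (i : ℕ) < m then 0 else if (i : ℕ) < m' then t else 0) *ᵥ x) := by
    unfold dotProduct
    refine Finset.sum_nonneg fun i _ => ?_
    rw [Matrix.mulVec_diagonal]
    split_ifs
    · simp
    · nlinarith [mul_nonneg ht (sq_nonneg (x i))]
    · simp
  linarith

section block

variable {w s n m d : ℕ}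

/-- the complement of a block -/
abbrev Cmp (n m d : ℕ) := {x : Fin n // ¬ (m ≤ (x : ℕ) ∧ (x : ℕ) < m + d)}

/-- splitting off a block -/
noncomputable def spl (n m d : ℕ) (h : m + d ≤ n) : Cmp n m d ⊕ Fin d ≃ Fin n :=
  Equiv.ofBijective (Sum.elim (fun x => x.1) fun k => ⟨m + k, by omega⟩) (by
    constructor
    · rintro (x | k) (y | l) hxy
      · simp only [Sum.elim_inl] at hxy
        rw [Subtype.ext hxy]
      · simp only [Sum.elim_inl, Sum.elim_inr] at hxy
        exfalso
        apply x.2
        rw [hxy]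
        simp only
        omega
      · simp only [Sum.elim_inl, Sum.elim_inr] at hxy
        exfalso
        apply y.2
        rw [← hxy]
        simp only
        omega
      · simp only [Sum.elim_inr, Fin.mk.injEq] at hxy
        congr 1
        apply Fin.ext
        omega
    · intro i
      by_cases hi : m ≤ (i : ℕ) ∧ (i : ℕ) < m + d
      · refine ⟨Sum.inr ⟨i - m, by omega⟩, ?_⟩
        simp only [Sum.elim_inr]
        apply Fin.ext
        simp only
        omega
      · exact ⟨Sum.inl ⟨i, hi⟩, rfl⟩)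

theorem spl_inl (h : m + d ≤ n) (x : Cmp n m d) : spl n m d h (Sum.inl x) = x.1 := rfl

theorem spl_inr (h : m + d ≤ n) (k : Fin d) :
    spl n m d h (Sum.inr k) = ⟨m + k, by omega⟩ := rfl

/-- the rest -/
noncomputable def bA (w : ℕ) (ω : Om) (e t : ℝ) (s n m d : ℕ) :
    Matrix (Cmp n m d) (Cmp n m d) ℝ :=
  (dM w ω e t s n m).submatrix Subtype.val Subtype.val

/-- the coupling -/
noncomputable def bC (w : ℕ) (ω : Om) (s n m d : ℕ) : Matrix (Cmp n m d) (Fin d) ℝ :=
  Matrix.of fun x k => bnd w ω (s + (x : Fin n)) (s + (m + k))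

theorem bnd_block (hd : d ≤ w) (ω : Om) (k l : Fin d) :
    bnd w ω (s + (m + k)) (s + (m + l)) = ω (s + m + min (k : ℕ) l, s + m + max (k : ℕ) l) := by
  unfold bnd
  rw [if_pos (by omega)]
  congr 2 <;> omega

theorem dM_blocks (h : m + d ≤ n) (hd : d ≤ w) (ω : Om) (e t : ℝ) :
    (dM w ω e t s n m).submatrix (spl n m d h) (spl n m d h) =
      Matrix.fromBlocks (bA w ω e t s n m d) (bC w ω s n m d) (bC w ω s n m d)ᵀ
        (sA (s + m) d ω - e • (1 : Matrix (Fin d) (Fin d) ℝ)) := by
  ext (x | k) (y | l)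
  · simp only [Matrix.submatrix_apply, spl_inl, Matrix.fromBlocks_apply₁₁, bA]
  · have hne : (x : Fin n) ≠ ⟨m + l, by omega⟩ := by
      intro h2
      apply x.2
      rw [h2]
      simp only
      omega
    simp only [Matrix.submatrix_apply, spl_inl, spl_inr, Matrix.fromBlocks_apply₁₂, bC, dM,
      Matrix.of_apply, if_neg hne, sub_zero]
  · have hne : (⟨m + k, by omega⟩ : Fin n) ≠ (y : Fin n) := by
      intro h2
      apply y.2
      rw [← h2]
      simp only
      omega
    simp only [Matrix.submatrix_apply, spl_inl, spl_inr, Matrix.fromBlocks_apply₂₁, bC, dM,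
      Matrix.of_apply, if_neg hne, sub_zero, Matrix.transpose_apply]
    exact bnd_symm w ω _ _
  · simp only [Matrix.submatrix_apply, spl_inr, Matrix.fromBlocks_apply₂₂, dM,
      Matrix.of_apply, Matrix.sub_apply, Matrix.smul_apply, Matrix.one_apply, smul_eq_mul, sA,
      Fin.mk.injEq]
    rw [bnd_block hd]
    by_cases hkl : k = l
    · subst hkl
      simp
    · have : ¬ (m + (k : ℕ) = m + (l : ℕ)) := fun h2 => hkl (Fin.ext (by omega))
      rw [if_neg this, if_neg hkl, mul_zero]

theorem dM_blocks' (h : m + d ≤ n) (hd : d ≤ w) (ω : Om) (e t : ℝ) :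
    (dM w ω e t s n (m + d)).submatrix (spl n m d h) (spl n m d h) =
      Matrix.fromBlocks (bA w ω e t s n m d) (bC w ω s n m d) (bC w ω s n m d)ᵀ
        (sA (s + m) d ω - e • (1 : Matrix (Fin d) (Fin d) ℝ) - t • 1) := by
  ext (x | k) (y | l)
  · simp only [Matrix.submatrix_apply, spl_inl, Matrix.fromBlocks_apply₁₁, bA, dM,
      Matrix.of_apply]
    have hx := x.2
    have : ((x : Fin n) : ℕ) < m + d ↔ ((x : Fin n) : ℕ) < m := by omega
    simp only [this]
  · have hne : (x : Fin n) ≠ ⟨m + l, by omega⟩ := by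
      intro h2
      apply x.2
      rw [h2]
      simp only
      omega
    simp only [Matrix.submatrix_apply, spl_inl, spl_inr, Matrix.fromBlocks_apply₁₂, bC, dM,
      Matrix.of_apply, if_neg hne, sub_zero]
  · have hne : (⟨m + k, by omega⟩ : Fin n) ≠ (y : Fin n) := by
      intro h2
      apply y.2
      rw [← h2]
      simp only
      omega
    simp only [Matrix.submatrix_apply, spl_inl, spl_inr, Matrix.fromBlocks_apply₂₁, bC, dM,
      Matrix.of_apply, if_neg hne, sub_zero, Matrix.transpose_apply]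
    exact bnd_symm w ω _ _
  · simp only [Matrix.submatrix_apply, spl_inr, Matrix.fromBlocks_apply₂₂, dM,
      Matrix.of_apply, Matrix.sub_apply, Matrix.smul_apply, Matrix.one_apply, smul_eq_mul, sA,
      Fin.mk.injEq]
    rw [bnd_block hd]
    by_cases hkl : k = l
    · subst hkl
      have : m + (k : ℕ) < m + d := by
        have := k.2
        omega
      rw [if_pos rfl, if_pos rfl, if_pos this]
      ring
    · have : ¬ (m + (k : ℕ) = m + (l : ℕ)) := fun h2 => hkl (Fin.ext (by omega))
      rw [if_neg this, if_neg hkl, mul_zero, mul_zero]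
      ring

theorem bA_isHermitian (ω : Om) (e t : ℝ) : (bA w ω e t s n m d).IsHermitian :=
  (dM_isHermitian w ω e t s n m).submatrix _

/-- almost sure invertibility of the rest -/
theorem bA_unit {μ : Measure ℝ} [IsProbabilityMeasure μ] {D : ℝ} (hμ : BddDens μ D)
    (w : ℕ) (e t : ℝ) (s n m d : ℕ) :
    Pm μ {ω | ¬ IsUnit (bA w ω e t s n m d)} = 0 := by
  refine unit_ae hμ (K₀ := fun ω => Matrix.of fun x y : Cmp n m d =>
    if x = y then -(e + (if ((x : Fin n) : ℕ) < m then t else 0)) else
      bA w ω e t s n m d x y) (fun ω => bA_isHermitian ω e t)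
    (fun x y => measurable_dM w e t s n m x y) (fun x => (s + (x : Fin n), s + (x : Fin n)))
    ?_ ?_
  · intro x y hxy
    simp only [Prod.mk.injEq] at hxy
    apply Subtype.ext
    apply Fin.ext
    omega
  · intro ω ω'
    ext x y
    simp only [bA, Matrix.submatrix_apply, dM, Matrix.of_apply, Matrix.add_apply]
    by_cases h : x = y
    · subst h
      rw [if_pos rfl, if_pos rfl, Matrix.diagonal_apply_eq]
      unfold bnd
      rw [if_pos (by omega), min_self, max_self, mix_notMem]
      · ring
      · simp only [Set.mem_compl_iff, not_not]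
        exact ⟨x, rfl⟩
    · have hv : (x : Fin n) ≠ y := fun h2 => h (Subtype.ext h2)
      rw [if_neg hv, if_neg h, Matrix.diagonal_apply_ne _ h, add_zero]
      congr 1
      unfold bnd
      split_ifs with h2
      · rw [mix_mem]
        simp only [Set.mem_compl_iff]
        rintro ⟨l, hl⟩
        simp only [Prod.mk.injEq] at hl
        apply hv
        apply Fin.ext
        omega
      · rfl

/-- one step of the telescoping sum -/
theorem dM_step (h : NiceV V K) (hmd : m + d ≤ n) (hd1 : 1 ≤ d) (hdw : d ≤ w) (e : ℝ) {t : ℝ}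
    (ht : 0 ≤ t) :
    ∫⁻ ω, ((negIdx (dM w ω e t s n (m + d)) - negIdx (dM w ω e t s n m) : ℕ) : ℝ≥0∞)
      ∂(Pm (lawV V)) ≤ ENNReal.ofReal (cS V K * Real.sqrt d * t) := by
  have := h.prob
  set T : Set (ℕ × ℕ) := {c | s + m ≤ c.1 ∧ c.2 < s + m + d} with hT
  have mi : ∀ m' : ℕ, Measurable fun ω : Om => negIdx (dM w ω e t s n m') := fun m' =>
    measurable_negIdx_comp fun i j => measurable_dM w e t s n m' i j
  have mF : Measurable fun ω : Om =>
      ((negIdx (dM w ω e t s n (m + d)) - negIdx (dM w ω e t s n m) : ℕ) : ℝ≥0∞) :=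
    measurable_from_top.comp ((mi _).sub (mi _))
  rw [lintegral_mix (lawV V) Tᶜ mF]
  have hA : ∀ ω ω' : Om, bA w (mix Tᶜ ω ω') e t s n m d = bA w ω e t s n m d := by
    intro ω ω'
    ext x y
    simp only [bA, Matrix.submatrix_apply, dM, Matrix.of_apply]
    congr 1
    unfold bnd
    split_ifs with h2
    · rw [mix_mem]
      simp only [Set.mem_compl_iff, hT, Set.mem_ofPred_eq]
      intro h3
      apply x.2
      omega
    · rfl
  have hC : ∀ ω ω' : Om, bC w (mix Tᶜ ω ω') s n m d = bC w ω s n m d := by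
    intro ω ω'
    ext x k
    simp only [bC, Matrix.of_apply]
    unfold bnd
    split_ifs with h2
    · rw [mix_mem]
      simp only [Set.mem_compl_iff, hT, Set.mem_ofPred_eq]
      intro h3
      apply x.2
      omega
    · rfl
  have hD : ∀ ω ω' : Om, sA (s + m) d (mix Tᶜ ω ω') = sA (s + m) d ω' := by
    intro ω ω'
    ext k l
    simp only [sA, Matrix.of_apply]
    rw [mix_notMem]
    simp only [Set.mem_compl_iff, hT, Set.mem_ofPred_eq, not_not]
    omega
  have key : ∀ᵐ ω ∂(Pm (lawV V)), ∫⁻ ω', ((negIdx (dM w (mix Tᶜ ω ω') e t s n (m + d)) -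
      negIdx (dM w (mix Tᶜ ω ω') e t s n m) : ℕ) : ℝ≥0∞) ∂(Pm (lawV V)) ≤
      ENNReal.ofReal (cS V K * Real.sqrt d * t) := by
    have hu := bA_unit (μ := lawV V) h.bddDens w e t s n m d
    rw [← compl_mem_ae_iff] at hu
    filter_upwards [hu] with ω hω
    have hω' : IsUnit (bA w ω e t s n m d) := by
      by_contra hcon
      exact hω hcon
    set Q : Matrix (Fin d) (Fin d) ℝ := -(e • (1 : Matrix (Fin d) (Fin d) ℝ)) -
      (bC w ω s n m d)ᵀ * (bA w ω e t s n m d)⁻¹ * bC w ω s n m d with hQ
    have h1H : ∀ c : ℝ, (c • (1 : Matrix (Fin d) (Fin d) ℝ)).IsHermitian := fun c => by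
      rw [Matrix.IsHermitian, Matrix.conjTranspose_smul, Matrix.conjTranspose_one, star_trivial]
    have hQH : Q.IsHermitian := by
      refine (h1H e).neg.sub ?_
      have h1 : ((bA w ω e t s n m d)⁻¹).IsHermitian := (bA_isHermitian ω e t).inv
      have h2 := Matrix.isHermitian_conjTranspose_mul_mul (bC w ω s n m d) h1
      rwa [Matrix.conjTranspose_eq_transpose_of_trivial] at h2
    have e1 : ∀ ω' : Om, ((negIdx (dM w (mix Tᶜ ω ω') e t s n (m + d)) -
        negIdx (dM w (mix Tᶜ ω ω') e t s n m) : ℕ) : ℝ≥0∞) =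
        (nW (sA (s + m) d ω' + Q) 0 (0 + t) : ℝ≥0∞) := by
      intro ω'
      have r1 := negIdx_reindex (dM w (mix Tᶜ ω ω') e t s n m) (spl n m d hmd).symm
      have r2 := negIdx_reindex (dM w (mix Tᶜ ω ω') e t s n (m + d)) (spl n m d hmd).symm
      rw [Equiv.symm_symm] at r1 r2
      rw [dM_blocks hmd hdw, hA, hC, hD, negIdx_fromBlocks _ (bA_isHermitian ω e t)
        ((sA_isHermitian _ _ _).sub (h1H e)) hω'] at r1
      rw [dM_blocks' hmd hdw, hA, hC, hD, negIdx_fromBlocks _ (bA_isHermitian ω e t)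
        (((sA_isHermitian _ _ _).sub (h1H e)).sub (h1H t)) hω'] at r2
      rw [← r1, ← r2, Nat.add_sub_add_left]
      unfold nW
      have f1 : sA (s + m) d ω' - e • (1 : Matrix (Fin d) (Fin d) ℝ) - t • 1 -
          (bC w ω s n m d)ᵀ * (bA w ω e t s n m d)⁻¹ * bC w ω s n m d =
          sA (s + m) d ω' + Q - (0 + t) • 1 := by
        rw [hQ, zero_add]
        abel
      have f2 : sA (s + m) d ω' - e • (1 : Matrix (Fin d) (Fin d) ℝ) -
          (bC w ω s n m d)ᵀ * (bA w ω e t s n m d)⁻¹ * bC w ω s n m d =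
          sA (s + m) d ω' + Q - (0 : ℝ) • 1 := by
        rw [hQ, zero_smul]
        abel
      rw [f1, f2]
    simp_rw [e1]
    exact HA_strong h (s + m) hd1 hQH 0 ht
  calc _ ≤ ∫⁻ _, ENNReal.ofReal (cS V K * Real.sqrt d * t) ∂(Pm (lawV V)) :=
        lintegral_mono_ae key
    _ = _ := by simp

end block

/-- telescoping over blocks -/
theorem dM_tele (h : NiceV V K) {w : ℕ} (hw : 1 ≤ w) (e : ℝ) {t : ℝ} (ht : 0 ≤ t) (s n b : ℕ) :
    ∫⁻ ω, ((negIdx (dM w ω e t s n (min (b * w) n)) - negIdx (dM w ω e t s n 0) : ℕ) : ℝ≥0∞)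
      ∂(Pm (lawV V)) ≤ b * ENNReal.ofReal (cS V K * Real.sqrt w * t) := by
  have := h.prob
  have mi : ∀ m' : ℕ, Measurable fun ω : Om => negIdx (dM w ω e t s n m') := fun m' =>
    measurable_negIdx_comp fun i j => measurable_dM w e t s n m' i j
  induction b with
  | zero => simp
  | succ b ih =>
    set m := min (b * w) n with hm
    set m' := min ((b + 1) * w) n with hm'
    have hbw : (b + 1) * w = b * w + w := by ring
    rcases Nat.lt_or_ge (b * w) n with hlt | hge
    · have hmm : m = b * w := by omega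
      set d := m' - m with hd
      have hd1 : 1 ≤ d := by omega
      have hdw : d ≤ w := by omega
      have hmd : m + d ≤ n := by omega
      have hm'd : m' = m + d := by omega
      have hst := dM_step (s := s) h hmd hd1 hdw e ht
      have hst2 : ENNReal.ofReal (cS V K * Real.sqrt d * t) ≤
          ENNReal.ofReal (cS V K * Real.sqrt w * t) := by
        have := cS_pos V K
        refine ENNReal.ofReal_le_ofReal ?_
        gcongr
      have pt : ∀ ω : Om, ((negIdx (dM w ω e t s n m') - negIdx (dM w ω e t s n 0) : ℕ) :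
          ℝ≥0∞) ≤ ((negIdx (dM w ω e t s n (m + d)) - negIdx (dM w ω e t s n m) : ℕ) : ℝ≥0∞) +
          ((negIdx (dM w ω e t s n m) - negIdx (dM w ω e t s n 0) : ℕ) : ℝ≥0∞) := by
        intro ω
        rw [hm'd]
        have : negIdx (dM w ω e t s n (m + d)) - negIdx (dM w ω e t s n 0) ≤
            (negIdx (dM w ω e t s n (m + d)) - negIdx (dM w ω e t s n m)) +
            (negIdx (dM w ω e t s n m) - negIdx (dM w ω e t s n 0)) := by omega
        exact_mod_cast this
      have m1 : Measurable fun ω : Om =>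
          ((negIdx (dM w ω e t s n (m + d)) - negIdx (dM w ω e t s n m) : ℕ) : ℝ≥0∞) :=
        measurable_from_top.comp ((mi _).sub (mi _))
      refine (lintegral_mono pt).trans ?_
      rw [lintegral_add_left m1]
      refine (add_le_add (hst.trans hst2) ih).trans (le_of_eq ?_)
      push_cast
      ring
    · have : m' = m := by omega
      rw [this]
      refine ih.trans ?_
      gcongr
      push_cast
      exact le_self_add

/-- **strong Wegner estimate** for long sections -/
theorem wegC_strong (h : NiceV V K) {w : ℕ} (hw : 1 ≤ w) :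
    WegC V w (2 * cS V K / Real.sqrt w) := by
  have := h.prob
  intro e₁ e₂ he s n hn
  have hw0 : (0 : ℝ) < w := by exact_mod_cast hw
  have hsw : 0 < Real.sqrt w := Real.sqrt_pos.2 hw0
  have hss : Real.sqrt w * Real.sqrt w = w := Real.mul_self_sqrt hw0.le
  have hcS := cS_pos V K
  set t := e₂ - e₁ with ht
  have ht0 : 0 ≤ t := by linarith
  set b := n / w + 1 with hb
  have hbn : n ≤ b * w := by
    have h1 := Nat.div_add_mod n w
    have h2 := Nat.mod_lt n (by omega : 0 < w)
    have h3 : b * w = w * (n / w) + w := by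
      rw [hb]
      ring
    omega
  have h1 := dM_tele h hw e₁ ht0 s n b
  rw [min_eq_right hbn] at h1
  simp_rw [dM_zero, dM_top w _ e₁ t s (le_refl n)] at h1
  have e2 : e₁ + t = e₂ := by
    rw [ht]
    ring
  rw [e2] at h1
  refine h1.trans ?_
  rw [← ENNReal.ofReal_natCast, ← ENNReal.ofReal_natCast, ← ENNReal.ofReal_mul (by positivity),
    ← ENNReal.ofReal_mul (by positivity)]
  refine ENNReal.ofReal_le_ofReal ?_
  have hb2 : (b : ℝ) * w ≤ 2 * n := by
    have h2 : w * (n / w) ≤ n := Nat.mul_div_le n w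
    have h3 : b * w ≤ 2 * n := by
      have : b * w = w * (n / w) + w := by
        rw [hb]
        ring
      omega
    exact_mod_cast h3
  calc (b : ℝ) * (cS V K * Real.sqrt w * t) = (b * w) * (cS V K * t / Real.sqrt w) := by
        rw [eq_comm]
        calc ((b : ℝ) * w) * (cS V K * t / Real.sqrt w)
            = (b * (Real.sqrt w * Real.sqrt w)) * (cS V K * t / Real.sqrt w) := by rw [hss]
          _ = b * (cS V K * Real.sqrt w * t) := by field_simp
    _ ≤ (2 * n) * (cS V K * t / Real.sqrt w) := mul_le_mul_of_nonneg_right hb2 (by positivity)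
    _ = n * (2 * cS V K / Real.sqrt w * t) := by ring

/-- **strong Wegner estimate** for one block -/
theorem wegB_strong (h : NiceV V K) {w : ℕ} (hw : 1 ≤ w) :
    WegB V w (2 * cS V K * Real.sqrt w) := by
  have := h.prob
  intro e Q t ht
  have m1 : Measurable fun a : Arr w => (nInt (SM e Q a) t : ℝ≥0∞) :=
    measurable_from_top.comp
      (measurable_nInt (fun i j => measurable_SM e measurable_const measurable_id i j) t)
  have m2 : Measurable fun ω : Om => arrA w ω 0 := measurable_arrA' w 0 measurable_id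
  rw [← law_arrA (V := V) w 0, lintegral_map m1 m2]
  set Q' : Matrix (Fin w) (Fin w) ℝ := -(e • (1 : Matrix (Fin w) (Fin w) ℝ)) - symM Q with hQ'
  have h1H : ∀ c : ℝ, (c • (1 : Matrix (Fin w) (Fin w) ℝ)).IsHermitian := fun c => by
    rw [Matrix.IsHermitian, Matrix.conjTranspose_smul, Matrix.conjTranspose_one, star_trivial]
  have hsym : (symM Q).IsHermitian := by
    ext i j
    simp only [Matrix.conjTranspose_apply, symM, Matrix.of_apply, star_trivial]
    rw [max_comm, min_comm]
  have hQH : Q'.IsHermitian := (h1H e).neg.sub hsym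
  have e1 : ∀ ω : Om, (nInt (SM e Q (arrA w ω 0)) t : ℝ≥0∞) =
      (nW (sA 0 w ω + Q') (-t) (-t + 2 * t) : ℝ≥0∞) := by
    intro ω
    have e2 : SM e Q (arrA w ω 0) = sA 0 w ω + Q' := by
      rw [SM_eq, hQ']
      have e3 : symM (arrA w ω 0) = sA 0 w ω := by
        ext i j
        simp [symM, arrA, sA]
      rw [e3]
      abel
    rw [e2]
    unfold nInt nW
    have : -t + 2 * t = t := by ring
    rw [this]
  simp_rw [e1]
  refine (HA_strong h 0 hw hQH (-t) (δ := 2 * t) (by linarith)).trans (le_of_eq ?_)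
  congr 1
  ring

end Run7.h834
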