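import Pool.Agent.Run7.h834.Regime
import Pool.Agent.Run7.h834.SW7

/-! The strong Wegner estimate gives the exponents `c < 2 / 9`. -/

set_option autoImplicit false
open MeasureTheory Matrix Set Filter Topology
open scoped ENNReal

namespace Run7.h834

variable {V : ℝ → ℝ} {K : ℝ}

theorem reg_strong (h : NiceV V K) {W : ℕ → ℕ} {c : ℝ} (hc : c < 2 / 9)
    (w1 : ∀ᶠ N : ℕ in atTop, 1 ≤ W N) (hW : ∀ᶠ N : ℕ in atTop, (W N : ℝ) ≤ (N : ℝ) ^ c) :
    ∃ hh : ℕ → ℝ, Reg V W (fun w => 2 * cS V K * Real.sqrt w) (fun w => 2 * cS V K / Real.sqrt w)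
      hh (2 * cS V K) := by
  have hS := one_le_cS h
  refine reg_of_pow (γ := 9 / 2) (C := (2 * cS V K) ^ 2 * (2 * cS V K) ^ 2)
    (by norm_num) (by linarith) w1 ?_ (fun w hw => wegB_strong h hw) ?_
    (fun w hw => wegC_strong h hw) ?_ ?_ hW
  · intro w hw
    have hw1 : (1 : ℝ) ≤ w := by exact_mod_cast hw
    have : 1 ≤ Real.sqrt w := Real.one_le_sqrt.2 hw1
    nlinarith
  · intro w hw
    have hw1 : (1 : ℝ) ≤ w := by exact_mod_cast hw
    have h0 : 0 < Real.sqrt w := Real.sqrt_pos.2 (by linarith)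
    rw [mul_div_cancel₀ _ h0.ne']
    linarith
  · intro w hw
    have hw1 : (1 : ℝ) ≤ w := by exact_mod_cast hw
    have : 1 ≤ Real.sqrt w := Real.one_le_sqrt.2 hw1
    exact div_le_self (by linarith) this
  · intro w hw
    have hw0 : (0 : ℝ) < w := by exact_mod_cast hw
    have h0 : 0 < Real.sqrt w := Real.sqrt_pos.2 hw0
    have e1 : (w : ℝ) ^ (9 / 2 : ℝ) = (w : ℝ) ^ 4 * Real.sqrt w := by
      rw [Real.sqrt_eq_rpow, ← Real.rpow_natCast, ← Real.rpow_add hw0]
      norm_num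
    rw [e1]
    refine le_of_eq ?_
    field_simp

end Run7.h834
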