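import Pool.Agent.Run7.h568.DG.CIface

/-!
# Pieces C_mat and C_tr of project DG (helper568, MP_00a7c6_gt), by helper834
-/

set_option autoImplicit false
set_option linter.all false

open Real Matrix

noncomputable section

namespace Run7.h834.DG

open Run7.h568.DG

theorem mul_ent (A B : SL) (i j : Fin 2) :
    (A * B).1 i j = A.1 i 0 * B.1 0 j + A.1 i 1 * B.1 1 j := by
  rw [Matrix.SpecialLinearGroup.coe_mul, Matrix.mul_apply, Fin.sum_univ_two]

theorem inv_ent (A : SL) : (A⁻¹).1 0 0 = A.1 1 1 ∧ (A⁻¹).1 0 1 = -A.1 0 1 ∧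
    (A⁻¹).1 1 0 = -A.1 1 0 ∧ (A⁻¹).1 1 1 = A.1 0 0 := by
  rw [Matrix.SpecialLinearGroup.coe_inv, Matrix.adjugate_fin_two]
  simp

theorem E_ent (s : ℝ) : (E s).1 0 0 = 0 ∧ (E s).1 0 1 = exp (s / 2) ∧
    (E s).1 1 0 = -exp (-s / 2) ∧ (E s).1 1 1 = 0 := by
  simp [E]

theorem step_true (s : ℝ) : (step true s).1 0 0 = exp (-s / 2) ∧ (step true s).1 0 1 = exp (s / 2) ∧
    (step true s).1 1 0 = 0 ∧ (step true s).1 1 1 = exp (s / 2) := by
  refine ⟨?_, ?_, ?_, ?_⟩ <;> (rw [step, mul_ent]; simp [U, Del])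

theorem step_false (s : ℝ) : (step false s).1 0 0 = exp (-s / 2) ∧ (step false s).1 0 1 = 0 ∧
    (step false s).1 1 0 = exp (-s / 2) ∧ (step false s).1 1 1 = exp (s / 2) := by
  refine ⟨?_, ?_, ?_, ?_⟩ <;> (rw [step, mul_ent]; simp [U, Del])

theorem ct_ent (s s' : ℝ) (g : SL) :
    (E s * g⁻¹ * (E s')⁻¹).1 0 0 = g.1 0 0 * exp ((s - s') / 2) ∧
    (E s * g⁻¹ * (E s')⁻¹).1 0 1 = g.1 1 0 * exp ((s + s') / 2) ∧
    (E s * g⁻¹ * (E s')⁻¹).1 1 0 = g.1 0 1 * exp (-(s + s') / 2) ∧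
    (E s * g⁻¹ * (E s')⁻¹).1 1 1 = g.1 1 1 * exp ((s' - s) / 2) := by
  obtain ⟨a1, a2, a3, a4⟩ := inv_ent g
  obtain ⟨b1, b2, b3, b4⟩ := inv_ent (E s')
  obtain ⟨c1, c2, c3, c4⟩ := E_ent s
  obtain ⟨d1, d2, d3, d4⟩ := E_ent s'
  simp only [mul_ent, a1, a2, a3, a4, b1, b2, b3, b4, c1, c2, c3, c4, d1, d2, d3, d4]
  refine ⟨?_, ?_, ?_, ?_⟩
  · rw [show (s - s') / 2 = s / 2 + -s' / 2 by ring, exp_add]; ring
  · rw [show (s + s') / 2 = s / 2 + s' / 2 by ring, exp_add]; ring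
  · rw [show -(s + s') / 2 = -s / 2 + -s' / 2 by ring, exp_add]; ring
  · rw [show (s' - s) / 2 = s' / 2 + -s / 2 by ring, exp_add]; ring

/-! ### Domination by powers -/

/-- `A' ≤ A ^ k` entrywise -/
def Dom (k : ℝ) (A A' : SL) : Prop :=
  ∀ i j, 0 ≤ A.1 i j ∧ 0 ≤ A'.1 i j ∧ A'.1 i j ≤ (A.1 i j) ^ k

theorem Dom.mul {k : ℝ} (hk : 1 ≤ k) {A A' B B' : SL} (hA : Dom k A A') (hB : Dom k B B') :
    Dom k (A * B) (A' * B') := by
  intro i j
  simp only [mul_ent]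
  obtain ⟨a1, a2, a3⟩ := hA i 0
  obtain ⟨a4, a5, a6⟩ := hA i 1
  obtain ⟨b1, b2, b3⟩ := hB 0 j
  obtain ⟨b4, b5, b6⟩ := hB 1 j
  refine ⟨by positivity, by positivity, ?_⟩
  calc A'.1 i 0 * B'.1 0 j + A'.1 i 1 * B'.1 1 j
      ≤ (A.1 i 0) ^ k * (B.1 0 j) ^ k + (A.1 i 1) ^ k * (B.1 1 j) ^ k :=
        add_le_add (mul_le_mul a3 b3 b2 (by positivity)) (mul_le_mul a6 b6 b5 (by positivity))
    _ = (A.1 i 0 * B.1 0 j) ^ k + (A.1 i 1 * B.1 1 j) ^ k := by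
        rw [mul_rpow a1 b1, mul_rpow a4 b4]
    _ ≤ _ := add_rpow_le_rpow_add (by positivity) (by positivity) hk

theorem Dom.one {k : ℝ} (hk : 1 ≤ k) : Dom k 1 1 := by
  intro i j
  have hk0 : k ≠ 0 := by linarith
  fin_cases i <;> fin_cases j <;> simp [Matrix.SpecialLinearGroup.coe_one, zero_rpow hk0]

theorem exp_rpow (a k : ℝ) : exp a ^ k = exp (k * a) := by
  rw [← exp_mul, mul_comm]

theorem Dom.step {k : ℝ} (hk : 1 ≤ k) (b : Bool) (s : ℝ) : Dom k (step b s) (step b (k * s)) := by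
  have hk0 : k ≠ 0 := by linarith
  have e1 : exp (-(k * s) / 2) = exp (-s / 2) ^ k := by rw [exp_rpow]; congr 1; ring
  have e2 : exp ((k * s) / 2) = exp (s / 2) ^ k := by rw [exp_rpow]; congr 1; ring
  intro i j
  cases b
  · obtain ⟨a1, a2, a3, a4⟩ := step_false s
    obtain ⟨b1, b2, b3, b4⟩ := step_false (k * s)
    fin_cases i <;> fin_cases j <;>
      simp only [Fin.zero_eta, Fin.mk_one, a1, a2, a3, a4, b1, b2, b3, b4, e1, e2] <;>
      first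
        | exact ⟨(exp_pos _).le, by positivity, le_rfl⟩
        | exact ⟨le_rfl, le_rfl, by rw [zero_rpow hk0]⟩
  · obtain ⟨a1, a2, a3, a4⟩ := step_true s
    obtain ⟨b1, b2, b3, b4⟩ := step_true (k * s)
    fin_cases i <;> fin_cases j <;>
      simp only [Fin.zero_eta, Fin.mk_one, a1, a2, a3, a4, b1, b2, b3, b4, e1, e2] <;>
      first
        | exact ⟨(exp_pos _).le, by positivity, le_rfl⟩
        | exact ⟨le_rfl, le_rfl, by rw [zero_rpow hk0]⟩

variable {D : Type} [Fintype D] [DecidableEq D] {T : Tri D}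

theorem Dom.hol {k : ℝ} (hk : 1 ≤ k) (x : D → ℝ) (w : List Bool) :
    ∀ d, Dom k (T.hol x w d) (T.hol (k • x) w d) := by
  induction w with
  | nil => intro d; exact Dom.one hk
  | cons b w ih =>
    intro d
    exact (Dom.step hk b _).mul hk (ih _)

theorem cyc_smul (k : ℝ) (x : D → ℝ) (d : D) : T.cyc (k • x) d = k * T.cyc x d := by
  simp only [Tri.cyc, Pi.smul_apply, smul_eq_mul, ← Finset.mul_sum]

theorem teich_smul (P : Portal T) (p : (D → ℝ) × ℝ) (hp : p ∈ P.Teich) (k : ℝ) (hk : 0 < k) :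
    k • p ∈ P.Teich := by
  obtain ⟨h1, h2, h3, h4⟩ := hp
  refine ⟨fun d => ?_, ?_, ?_, fun d hu hv => ?_⟩
  · show k * p.1 (T.io d) = k * p.1 d
    rw [h1]
  · show 0 < T.cyc (k • p.1) P.v
    rw [cyc_smul]; positivity
  · show T.cyc (k • p.1) P.u = - T.cyc (k • p.1) P.v
    rw [cyc_smul, cyc_smul, h3]; ring
  · show T.cyc (k • p.1) d = 0
    rw [cyc_smul, h4 d hu hv, mul_zero]

theorem sinh_pow {k : ℝ} (hk : 1 ≤ k) {l : ℝ} (hl : 0 < l) :
    (2 * sinh (l / 2)) ^ k ≤ 2 * sinh (k * l / 2) := by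
  have h1 : 0 < sinh (l / 2) := sinh_pos_iff.2 (by positivity)
  have h2 := add_rpow_le_rpow_add (a := 2 * sinh (l / 2)) (b := exp (-(l / 2))) (by positivity)
    (exp_pos _).le hk
  have h3 : 2 * sinh (l / 2) + exp (-(l / 2)) = exp (l / 2) := by rw [sinh_eq]; ring
  rw [h3, exp_rpow, exp_rpow] at h2
  rw [sinh_eq (k * l / 2)]
  have h4 : k * -(l / 2) = -(k * l / 2) := by ring
  have h5 : k * (l / 2) = k * l / 2 := by ring
  rw [h4, h5] at h2
  linarith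

/-- the letter `cf n` -/
theorem Dom.cf (hJ : C_J) (P : Portal T) (p : (D → ℝ) × ℝ) (hp : p ∈ P.Teich) (k : ℝ) (hk : 1 ≤ k)
    (n : ℤ) : Dom k (Portal.rot (T := T) p.1 P.u ^ n * P.J p)
      (Portal.rot (T := T) (k • p).1 P.u ^ n * P.J (k • p)) := by
  have hk0 : 0 < k := by linarith
  obtain ⟨_, hr, _, _, h5⟩ := hJ T P p hp
  obtain ⟨_, hr', _, _, h5'⟩ := hJ T P (k • p) (teich_smul P p hp k hk0)
  have h6 := h5 n
  have h6' := h5' n
  simp only at h6 h6'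
  have hl : 0 < T.cyc p.1 P.v := hp.2.1
  have hRu : 0 < (Portal.rot (T := T) p.1 P.u).1 1 0 := (hr P.u).2.2
  have hRv : 0 < (Portal.rot (T := T) p.1 P.v).1 1 0 := (hr P.v).2.2
  have hRu' : 0 < (Portal.rot (T := T) (k • p).1 P.u).1 1 0 := (hr' P.u).2.2
  have hRv' : 0 < (Portal.rot (T := T) (k • p).1 P.v).1 1 0 := (hr' P.v).2.2
  have hDu : (Portal.rot (T := T) (k • p).1 P.u).1 1 0 ≤
      ((Portal.rot (T := T) p.1 P.u).1 1 0) ^ k := (Dom.hol hk p.1 _ P.u 1 0).2.2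
  have hDv : (Portal.rot (T := T) (k • p).1 P.v).1 1 0 ≤
      ((Portal.rot (T := T) p.1 P.v).1 1 0) ^ k := (Dom.hol hk p.1 _ P.v 1 0).2.2
  have hcyc : T.cyc (k • p).1 P.v = k * T.cyc p.1 P.v := cyc_smul k p.1 P.v
  have hp2 : (k • p).2 = k * p.2 := rfl
  rw [hcyc, hp2] at h6'
  obtain ⟨l, hl'⟩ : ∃ l, l = T.cyc p.1 P.v := ⟨_, rfl⟩
  obtain ⟨z, hz⟩ : ∃ z, z = (n : ℝ) * l + p.2 := ⟨_, rfl⟩
  have hz' : (n : ℝ) * (k * l) + k * p.2 = k * z := by rw [hz]; ring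
  rw [← hl'] at h6 h6' hl
  rw [← hz] at h6
  rw [hz'] at h6'
  obtain ⟨Ru, hRu0⟩ : ∃ Ru, Ru = (Portal.rot (T := T) p.1 P.u).1 1 0 := ⟨_, rfl⟩
  obtain ⟨Rv, hRv0⟩ : ∃ Rv, Rv = (Portal.rot (T := T) p.1 P.v).1 1 0 := ⟨_, rfl⟩
  obtain ⟨Su, hSu0⟩ : ∃ Su, Su = (Portal.rot (T := T) (k • p).1 P.u).1 1 0 := ⟨_, rfl⟩
  obtain ⟨Sv, hSv0⟩ : ∃ Sv, Sv = (Portal.rot (T := T) (k • p).1 P.v).1 1 0 := ⟨_, rfl⟩
  rw [← hRu0, ← hRv0] at h6
  rw [← hSu0, ← hSv0] at h6'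
  rw [← hRu0] at hRu hDu
  rw [← hRv0] at hRv hDv
  rw [← hSu0] at hRu' hDu
  rw [← hSv0] at hRv' hDv
  have hs : 0 < sinh (l / 2) := sinh_pos_iff.2 (by positivity)
  have hs' : 0 < sinh (k * l / 2) := sinh_pos_iff.2 (by positivity)
  have e1 : exp (k * z / 2) = exp (z / 2) ^ k := by rw [exp_rpow]; congr 1; ring
  have e2 : exp (-(k * z) / 2) = exp (-z / 2) ^ k := by rw [exp_rpow]; congr 1; ring
  have hmain : (Su * exp (k * z / 2) + Sv * exp (-(k * z) / 2)) / (2 * sinh (k * l / 2)) ≤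
      ((Ru * exp (z / 2) + Rv * exp (-z / 2)) / (2 * sinh (l / 2))) ^ k := by
    rw [div_rpow (by positivity) (by positivity)]
    apply div_le_div₀ (by positivity) _ (by positivity) (sinh_pow hk hl)
    calc Su * exp (k * z / 2) + Sv * exp (-(k * z) / 2)
        ≤ Ru ^ k * exp (z / 2) ^ k + Rv ^ k * exp (-z / 2) ^ k := by
          rw [e1, e2]
          exact add_le_add (mul_le_mul_of_nonneg_right hDu (by positivity))
            (mul_le_mul_of_nonneg_right hDv (by positivity))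
      _ = (Ru * exp (z / 2)) ^ k + (Rv * exp (-z / 2)) ^ k := by
          rw [mul_rpow hRu.le (exp_pos _).le, mul_rpow hRv.le (exp_pos _).le]
      _ ≤ _ := add_rpow_le_rpow_add (by positivity) (by positivity) hk
  intro i j
  rw [h6, h6']
  have hk0' : k ≠ 0 := by linarith
  fin_cases i <;> fin_cases j
  · simp only [Fin.zero_eta, Fin.isValue, of_apply, cons_val', cons_val_zero, cons_val_fin_one]
    exact ⟨(exp_pos _).le, (exp_pos _).le, e1.le⟩
  · simp [zero_rpow hk0']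
  · simp only [Fin.zero_eta, Fin.mk_one, Fin.isValue, of_apply, cons_val', cons_val_zero,
      cons_val_fin_one, cons_val_one]
    exact ⟨by positivity, by positivity, hmain⟩
  · simp only [Fin.mk_one, Fin.isValue, of_apply, cons_val', cons_val_fin_one, cons_val_one]
    exact ⟨(exp_pos _).le, (exp_pos _).le, e2.le⟩

theorem Dom.ct {k : ℝ} (hk : 1 ≤ k) {g g' : SL} (h : Dom k g g') (s s' : ℝ) :
    Dom k (E s * g⁻¹ * (E s')⁻¹) (E (k * s) * g'⁻¹ * (E (k * s'))⁻¹) := by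
  obtain ⟨a1, a2, a3, a4⟩ := ct_ent s s' g
  obtain ⟨b1, b2, b3, b4⟩ := ct_ent (k * s) (k * s') g'
  have key : ∀ x y t t' : ℝ, 0 ≤ x → 0 ≤ y → y ≤ x ^ k → t' = k * t →
      0 ≤ x * exp t ∧ 0 ≤ y * exp t' ∧ y * exp t' ≤ (x * exp t) ^ k := by
    intro x y t t' hx hy hxy ht
    refine ⟨by positivity, by positivity, ?_⟩
    rw [mul_rpow hx (exp_pos _).le, exp_rpow, ht]
    exact mul_le_mul_of_nonneg_right hxy (exp_pos _).le
  intro i j
  fin_cases i <;> fin_cases j <;>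
    simp only [Fin.zero_eta, Fin.mk_one, a1, a2, a3, a4, b1, b2, b3, b4]
  · exact key _ _ _ _ (h 0 0).1 (h 0 0).2.1 (h 0 0).2.2 (by ring)
  · exact key _ _ _ _ (h 1 0).1 (h 1 0).2.1 (h 1 0).2.2 (by ring)
  · exact key _ _ _ _ (h 0 1).1 (h 0 1).2.1 (h 0 1).2.2 (by ring)
  · exact key _ _ _ _ (h 1 1).1 (h 1 1).2.1 (h 1 1).2.2 (by ring)

theorem mat (hJ : C_J) (_ : S_ineq) : C_mat := by
  intro D _ _ T P p hp
  refine ⟨fun k hk => ⟨teich_smul P p hp k hk, cyc_smul k p.1 P.v⟩, ?_⟩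
  intro k hk d l hl i j
  have main : Dom k (P.mat p d l) (P.mat (k • p) d l) := by
    cases l with
    | turn b => exact Dom.step hk b _
    | cf n => exact Dom.cf hJ P p hp k hk n
    | ct n => exact Dom.ct hk (Dom.cf hJ P p hp k hk n) (p.1 P.v) (p.1 P.u)
  exact ⟨(main i j).1, (main i j).2.2⟩

/-! ### Positivity -/

/-- nonnegative entries and positive diagonal -/
def NN (A : SL) : Prop := (∀ i j, 0 ≤ A.1 i j) ∧ 0 < A.1 0 0 ∧ 0 < A.1 1 1

theorem letter_pos (hJ : C_J) (P : Portal T) (p : (D → ℝ) × ℝ) (hp : p ∈ P.Teich) (d : D)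
    (l : Letter) : NN (P.mat p d l) ∧ (l.isT → 0 < (P.mat p d l).1 0 1) ∧
      (l.isF → 0 < (P.mat p d l).1 1 0) := by
  obtain ⟨_, hr, _, _, h5⟩ := hJ T P p hp
  have hcf : ∀ n : ℤ, NN (Portal.rot (T := T) p.1 P.u ^ n * P.J p) ∧
      0 < (Portal.rot (T := T) p.1 P.u ^ n * P.J p).1 1 0 := by
    intro n
    have h6 := h5 n
    simp only at h6
    have hl : 0 < T.cyc p.1 P.v := hp.2.1
    have hRu : 0 < (Portal.rot (T := T) p.1 P.u).1 1 0 := (hr P.u).2.2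
    have hRv : 0 < (Portal.rot (T := T) p.1 P.v).1 1 0 := (hr P.v).2.2
    have hs : 0 < sinh (T.cyc p.1 P.v / 2) := sinh_pos_iff.2 (by positivity)
    obtain ⟨z, hz⟩ : ∃ z, z = (n : ℝ) * T.cyc p.1 P.v + p.2 := ⟨_, rfl⟩
    rw [← hz] at h6
    have h10 : 0 < ((Portal.rot (T := T) p.1 P.u).1 1 0 * exp (z / 2) +
        (Portal.rot (T := T) p.1 P.v).1 1 0 * exp (-z / 2)) / (2 * sinh (T.cyc p.1 P.v / 2)) := by
      positivity
    rw [NN, h6]
    refine ⟨⟨?_, ?_, ?_⟩, ?_⟩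
    · intro i j
      fin_cases i <;> fin_cases j
      · simpa using (exp_pos _).le
      · simp
      · simpa using h10.le
      · simpa using (exp_pos _).le
    · simpa using exp_pos _
    · simpa using exp_pos _
    · simpa using h10
  cases l with
  | turn b =>
    show NN (step b _) ∧ (b = true → 0 < (step b _).1 0 1) ∧ (b = false → 0 < (step b _).1 1 0)
    cases b
    · obtain ⟨a1, a2, a3, a4⟩ := step_false (p.1 (T.turn false d))
      refine ⟨⟨?_, ?_, ?_⟩, ?_, ?_⟩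
      · intro i j
        fin_cases i <;> fin_cases j <;> simp only [Fin.zero_eta, Fin.mk_one, a1, a2, a3, a4] <;>
          first | exact (exp_pos _).le | exact le_rfl
      · rw [a1]; exact exp_pos _
      · rw [a4]; exact exp_pos _
      · intro h; exact absurd h (by simp)
      · intro _; rw [a3]; exact exp_pos _
    · obtain ⟨a1, a2, a3, a4⟩ := step_true (p.1 (T.turn true d))
      refine ⟨⟨?_, ?_, ?_⟩, ?_, ?_⟩
      · intro i j
        fin_cases i <;> fin_cases j <;> simp only [Fin.zero_eta, Fin.mk_one, a1, a2, a3, a4] <;>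
          first | exact (exp_pos _).le | exact le_rfl
      · rw [a1]; exact exp_pos _
      · rw [a4]; exact exp_pos _
      · intro _; rw [a2]; exact exp_pos _
      · intro h; exact absurd h (by simp)
  | cf n =>
    exact ⟨(hcf n).1, fun h => absurd h (by simp [Letter.isT]), fun _ => (hcf n).2⟩
  | ct n =>
    show NN (E (p.1 P.v) * (Portal.rot (T := T) p.1 P.u ^ n * P.J p)⁻¹ * (E (p.1 P.u))⁻¹) ∧ _ ∧ _
    obtain ⟨a1, a2, a3, a4⟩ := ct_ent (p.1 P.v) (p.1 P.u)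
      (Portal.rot (T := T) p.1 P.u ^ n * P.J p)
    obtain ⟨⟨hn, h0, h1⟩, h10⟩ := hcf n
    refine ⟨⟨?_, ?_, ?_⟩, ?_, ?_⟩
    · intro i j
      fin_cases i <;> fin_cases j <;> simp only [Fin.zero_eta, Fin.mk_one, a1, a2, a3, a4] <;>
        exact mul_nonneg (hn _ _) (exp_pos _).le
    · rw [a1]; positivity
    · rw [a4]; positivity
    · intro _
      show 0 < (E (p.1 P.v) * (Portal.rot (T := T) p.1 P.u ^ n * P.J p)⁻¹ *
        (E (p.1 P.u))⁻¹).1 0 1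
      rw [a2]; positivity
    · intro h; exact absurd h (by simp [Letter.isF])

theorem word_pos (hJ : C_J) (P : Portal T) (p : (D → ℝ) × ℝ) (hp : p ∈ P.Teich)
    (w : List Letter) : ∀ d, NN (P.hol p w d) ∧ ((∃ l ∈ w, l.isT) → 0 < (P.hol p w d).1 0 1) ∧
      ((∃ l ∈ w, l.isF) → 0 < (P.hol p w d).1 1 0) := by
  induction w with
  | nil =>
    intro d
    refine ⟨⟨?_, ?_, ?_⟩, ?_, ?_⟩
    · intro i j
      fin_cases i <;> fin_cases j <;> simp [Portal.hol]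
    · simp [Portal.hol]
    · simp [Portal.hol]
    · rintro ⟨l, hl, _⟩; exact absurd hl (by simp)
    · rintro ⟨l, hl, _⟩; exact absurd hl (by simp)
  | cons l w ih =>
    intro d
    obtain ⟨⟨hn, h0, h1⟩, hT, hF⟩ := letter_pos hJ P p hp d l
    obtain ⟨⟨kn, k0, k1⟩, kT, kF⟩ := ih (P.nxt d l)
    have e : ∀ i j, (P.hol p (l :: w) d).1 i j =
        (P.mat p d l).1 i 0 * (P.hol p w (P.nxt d l)).1 0 j +
        (P.mat p d l).1 i 1 * (P.hol p w (P.nxt d l)).1 1 j := fun i j => mul_ent _ _ i j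
    refine ⟨⟨?_, ?_, ?_⟩, ?_, ?_⟩
    · intro i j
      rw [e]
      exact add_nonneg (mul_nonneg (hn _ _) (kn _ _)) (mul_nonneg (hn _ _) (kn _ _))
    · rw [e]
      exact add_pos_of_pos_of_nonneg (mul_pos h0 k0) (mul_nonneg (hn _ _) (kn _ _))
    · rw [e]
      exact add_pos_of_nonneg_of_pos (mul_nonneg (hn _ _) (kn _ _)) (mul_pos h1 k1)
    · rintro ⟨l', hl', ht⟩
      rw [e]
      rcases List.mem_cons.1 hl' with h | h
      · subst h
        exact add_pos_of_nonneg_of_pos (mul_nonneg (hn _ _) (kn _ _)) (mul_pos (hT ht) k1)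
      · exact add_pos_of_pos_of_nonneg (mul_pos h0 (kT ⟨l', h, ht⟩)) (mul_nonneg (hn _ _) (kn _ _))
    · rintro ⟨l', hl', ht⟩
      rw [e]
      rcases List.mem_cons.1 hl' with h | h
      · subst h
        exact add_pos_of_pos_of_nonneg (mul_pos (hF ht) k0) (mul_nonneg (hn _ _) (kn _ _))
      · exact add_pos_of_nonneg_of_pos (mul_nonneg (hn _ _) (kn _ _)) (mul_pos h1 (kF ⟨l', h, ht⟩))

theorem tr_gt (A : SL) (h : ∀ i j, 0 < A.1 i j) : 2 < Run7.h568.DG.tr A := by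
  have hd := A.2
  rw [Matrix.det_fin_two] at hd
  have h1 := h 0 0
  have h2 := h 0 1
  have h3 := h 1 0
  have h4 := h 1 1
  rw [Run7.h568.DG.tr]
  have h5 : 0 < A.1 0 1 * A.1 1 0 := mul_pos h2 h3
  by_contra hcon
  push Not at hcon
  nlinarith [sq_nonneg (A.1 0 0 - A.1 1 1)]

theorem tr (hJ : C_J) : C_tr := by
  intro D _ _ T P p hp w d _ hT hF
  obtain ⟨⟨hn, h0, h1⟩, kT, kF⟩ := word_pos hJ P p hp w d
  have hpos : ∀ i j, 0 < (P.hol p w d).1 i j := by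
    intro i j
    fin_cases i <;> fin_cases j
    · exact h0
    · exact kT hT
    · exact kF hF
    · exact h1
  exact ⟨hpos, tr_gt _ hpos⟩

end Run7.h834.DG
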