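import Mathlib

/-! The sample space: an infinite i.i.d. array. -/

set_option autoImplicit false
open MeasureTheory Set
open scoped ENNReal

namespace Run7.h834

/-- the sample space -/
abbrev Om : Type := ℕ × ℕ → ℝ

/-- the law of an i.i.d. array with common law `μ` -/
noncomputable def Pm (μ : Measure ℝ) : Measure Om := Measure.infinitePi fun _ => μ

instance (μ : Measure ℝ) [IsProbabilityMeasure μ] : IsProbabilityMeasure (Pm μ) := by
  unfold Pm
  infer_instance

open Classical in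
/-- coordinates in `S` from the first argument, the others from the second -/
noncomputable def mix (S : Set (ℕ × ℕ)) (ω ω' : Om) : Om := fun p => if p ∈ S then ω p else ω' p

theorem mix_mem {S : Set (ℕ × ℕ)} (ω ω' : Om) {p : ℕ × ℕ} (h : p ∈ S) : mix S ω ω' p = ω p := by
  simp [mix, h]

theorem mix_notMem {S : Set (ℕ × ℕ)} (ω ω' : Om) {p : ℕ × ℕ} (h : p ∉ S) :
    mix S ω ω' p = ω' p := by
  simp [mix, h]

theorem measurable_mix (S : Set (ℕ × ℕ)) : Measurable fun p : Om × Om => mix S p.1 p.2 := by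
  refine measurable_pi_lambda _ fun i => ?_
  by_cases h : i ∈ S
  · simp only [mix, h, if_true]
    exact (measurable_pi_apply i).comp measurable_fst
  · simp only [mix, h, if_false]
    exact (measurable_pi_apply i).comp measurable_snd

variable (μ : Measure ℝ) [IsProbabilityMeasure μ]

theorem map_mix (S : Set (ℕ × ℕ)) :
    ((Pm μ).prod (Pm μ)).map (fun p : Om × Om => mix S p.1 p.2) = Pm μ := by
  classical
  unfold Pm
  refine Measure.eq_infinitePi _ fun s t ht => ?_
  rw [Measure.map_apply (measurable_mix S)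
    (MeasurableSet.pi s.countable_toSet fun i _ => ht i)]
  have h1 : (fun p : Om × Om => mix S p.1 p.2) ⁻¹' ((s : Set (ℕ × ℕ)).pi t) =
      (((s.filter (· ∈ S) : Finset (ℕ × ℕ)) : Set (ℕ × ℕ)).pi t) ×ˢ
        (((s.filter (¬ · ∈ S) : Finset (ℕ × ℕ)) : Set (ℕ × ℕ)).pi t) := by
    ext ⟨ω, ω'⟩
    simp only [Set.mem_preimage, Set.mem_pi, Finset.mem_coe, Set.mem_prod, Finset.mem_filter]
    constructor
    · intro h
      refine ⟨fun i hi => ?_, fun i hi => ?_⟩
      · have := h i hi.1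
        rwa [mix_mem _ _ hi.2] at this
      · have := h i hi.1
        rwa [mix_notMem _ _ hi.2] at this
    · rintro ⟨h2, h3⟩ i hi
      by_cases hS : i ∈ S
      · rw [mix_mem _ _ hS]
        exact h2 i ⟨hi, hS⟩
      · rw [mix_notMem _ _ hS]
        exact h3 i ⟨hi, hS⟩
  rw [h1, Measure.prod_prod, Measure.infinitePi_pi _ (fun i _ => ht i),
    Measure.infinitePi_pi _ (fun i _ => ht i)]
  exact Finset.prod_filter_mul_prod_filter_not s _ _

theorem map_sel {κ : Type*} [Fintype κ] (φ : κ → ℕ × ℕ) (hφ : Function.Injective φ) :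
    (Pm μ).map (fun ω k => ω (φ k)) = Measure.pi (fun _ : κ => μ) := by
  classical
  symm
  refine Measure.pi_eq fun s hs => ?_
  have hm : Measurable fun (ω : Om) (k : κ) => ω (φ k) :=
    measurable_pi_lambda _ fun k => measurable_pi_apply _
  rw [Measure.map_apply hm (MeasurableSet.univ_pi hs)]
  set t : ℕ × ℕ → Set ℝ := fun p => if h : ∃ k, φ k = p then s h.choose else univ with ht
  have htφ : ∀ k, t (φ k) = s k := by
    intro k
    have h : ∃ k', φ k' = φ k := ⟨k, rfl⟩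
    simp only [ht, h, dif_pos]
    congr 1
    exact hφ h.choose_spec
  have h1 : (fun (ω : Om) (k : κ) => ω (φ k)) ⁻¹' (univ.pi s) =
      ((Finset.univ.image φ : Finset (ℕ × ℕ)) : Set (ℕ × ℕ)).pi t := by
    ext ω
    simp only [Set.mem_preimage, Set.mem_pi, Set.mem_univ, true_implies, Finset.coe_image,
      Finset.coe_univ, Set.image_univ, Set.mem_range]
    constructor
    · rintro h _ ⟨k, rfl⟩
      rw [htφ]
      exact h k
    · intro h k
      have := h (φ k) ⟨k, rfl⟩
      rwa [htφ] at this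
  have htm : ∀ p, MeasurableSet (t p) := by
    intro p
    by_cases h : ∃ k, φ k = p
    · simp only [ht, h, dif_pos]
      exact hs _
    · simp only [ht, h, dif_neg, not_false_iff, MeasurableSet.univ]
  rw [h1]
  unfold Pm
  rw [Measure.infinitePi_pi _ (fun i _ => htm i), Finset.prod_image (fun a _ b _ h => hφ h)]
  exact Finset.prod_congr rfl fun k _ => by rw [htφ]

theorem lintegral_sel {κ : Type*} [Fintype κ] (φ : κ → ℕ × ℕ) (hφ : Function.Injective φ)
    {F : (κ → ℝ) → ℝ≥0∞} (hF : Measurable F) :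
    ∫⁻ ω, F (fun k => ω (φ k)) ∂(Pm μ) = ∫⁻ v, F v ∂(Measure.pi (fun _ : κ => μ)) := by
  rw [← map_sel μ φ hφ, lintegral_map hF]
  exact measurable_pi_lambda _ fun k => measurable_pi_apply _

theorem lintegral_mix (S : Set (ℕ × ℕ)) {F : Om → ℝ≥0∞} (hF : Measurable F) :
    ∫⁻ ω, F ω ∂(Pm μ) = ∫⁻ ω, ∫⁻ ω', F (mix S ω ω') ∂(Pm μ) ∂(Pm μ) := by
  conv_lhs => rw [← map_mix μ S]
  have h : Measurable fun p : Om × Om => F (mix S p.1 p.2) := hF.comp (measurable_mix S)
  rw [lintegral_map hF (measurable_mix S), lintegral_prod _ h.aemeasurable]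

/-- `X` only depends on the coordinates in `S` -/
def DepOn {α : Type*} (S : Set (ℕ × ℕ)) (X : Om → α) : Prop :=
  ∀ ω ω' : Om, (∀ p ∈ S, ω p = ω' p) → X ω = X ω'

theorem DepOn.mono {α : Type*} {S T : Set (ℕ × ℕ)} {X : Om → α} (h : DepOn S X) (hST : S ⊆ T) :
    DepOn T X := fun ω ω' hω => h ω ω' fun p hp => hω p (hST hp)

theorem DepOn.comp {α β : Type*} {S : Set (ℕ × ℕ)} {X : Om → α} (h : DepOn S X) (f : α → β) :
    DepOn S (fun ω => f (X ω)) := fun ω ω' hω => congrArg f (h ω ω' hω)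

theorem DepOn.comp₂ {α β γ : Type*} {S : Set (ℕ × ℕ)} {X : Om → α} {Y : Om → β}
    (h : DepOn S X) (h' : DepOn S Y) (f : α → β → γ) :
    DepOn S (fun ω => f (X ω) (Y ω)) := fun ω ω' hω => by
  simp only [h ω ω' hω, h' ω ω' hω]

theorem DepOn.const {α : Type*} (S : Set (ℕ × ℕ)) (a : α) : DepOn S (fun _ => a) :=
  fun _ _ _ => rfl

theorem DepOn.mix_left {α : Type*} {S : Set (ℕ × ℕ)} {X : Om → α} (h : DepOn S X) (ω ω' : Om) :
    X (mix S ω ω') = X ω := h _ _ fun _ hp => mix_mem _ _ hp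

theorem DepOn.mix_right {α : Type*} {S : Set (ℕ × ℕ)} {X : Om → α} (h : DepOn Sᶜ X)
    (ω ω' : Om) : X (mix S ω ω') = X ω' := h _ _ fun _ hp => mix_notMem _ _ hp

/-- independence -/
theorem lintegral_indep {α : Type*} [MeasurableSpace α] (S : Set (ℕ × ℕ)) {X : Om → α}
    {Y : α → Om → ℝ≥0∞} (hX : Measurable X) (hY : Measurable fun p : α × Om => Y p.1 p.2)
    (hXS : DepOn S X) (hYS : ∀ x, DepOn Sᶜ (Y x)) :
    ∫⁻ ω, Y (X ω) ω ∂(Pm μ) = ∫⁻ ω, ∫⁻ ω', Y (X ω) ω' ∂(Pm μ) ∂(Pm μ) := by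
  rw [lintegral_mix μ S (F := fun ω => Y (X ω) ω) (hY.comp (hX.prodMk measurable_id))]
  refine lintegral_congr fun ω => lintegral_congr fun ω' => ?_
  rw [hXS.mix_left, (hYS _).mix_right]

/-- independence, product form -/
theorem lintegral_mul_indep (S : Set (ℕ × ℕ)) {X Y : Om → ℝ≥0∞} (hX : Measurable X)
    (hY : Measurable Y) (hXS : DepOn S X) (hYS : DepOn Sᶜ Y) :
    ∫⁻ ω, X ω * Y ω ∂(Pm μ) = (∫⁻ ω, X ω ∂(Pm μ)) * ∫⁻ ω, Y ω ∂(Pm μ) := by
  rw [lintegral_indep μ S (X := X) (Y := fun x ω => x * Y ω) hX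
    (measurable_fst.mul (hY.comp measurable_snd)) hXS
    (fun x => hYS.comp fun y => x * y)]
  have h : ∀ ω, ∫⁻ ω', X ω * Y ω' ∂(Pm μ) = X ω * ∫⁻ ω', Y ω' ∂(Pm μ) := fun ω =>
    lintegral_const_mul _ hY
  simp_rw [h]
  rw [lintegral_mul_const _ hX]

/-- joint laws of independent variables -/
theorem lintegral_pair_indep {α β : Type*} [MeasurableSpace α] [MeasurableSpace β]
    (S : Set (ℕ × ℕ)) {X : Om → α} {Y : Om → β}
    (hX : Measurable X) (hY : Measurable Y) (hXS : DepOn S X) (hYS : DepOn Sᶜ Y)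
    {F : α × β → ℝ≥0∞} (hF : Measurable F) :
    ∫⁻ ω, F (X ω, Y ω) ∂(Pm μ) = ∫⁻ p, F p ∂(((Pm μ).map X).prod ((Pm μ).map Y)) := by
  have : IsProbabilityMeasure ((Pm μ).map X) := Measure.isProbabilityMeasure_map hX.aemeasurable
  have : IsProbabilityMeasure ((Pm μ).map Y) := Measure.isProbabilityMeasure_map hY.aemeasurable
  rw [lintegral_prod _ hF.aemeasurable, lintegral_map (hF.lintegral_prod_right') hX,
    lintegral_indep μ S (X := X) (Y := fun x ω => F (x, Y ω)) hX
    (hF.comp (measurable_fst.prodMk (hY.comp measurable_snd))) hXS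
    (fun x => hYS.comp fun y => F (x, y))]
  refine lintegral_congr fun ω => ?_
  have h : Measurable fun b : β => F (X ω, b) := hF.comp (measurable_const.prodMk measurable_id)
  rw [lintegral_map h hY]

theorem map_pair_indep {α β : Type*} [MeasurableSpace α] [MeasurableSpace β]
    (S : Set (ℕ × ℕ)) {X : Om → α} {Y : Om → β}
    (hX : Measurable X) (hY : Measurable Y) (hXS : DepOn S X) (hYS : DepOn Sᶜ Y) :
    (Pm μ).map (fun ω => (X ω, Y ω)) = ((Pm μ).map X).prod ((Pm μ).map Y) := by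
  ext s hs
  have h := lintegral_pair_indep μ S hX hY hXS hYS (F := s.indicator 1)
    ((measurable_const (a := (1 : ℝ≥0∞))).indicator hs)
  rw [lintegral_indicator_one hs] at h
  rw [← h, Measure.map_apply (hX.prodMk hY) hs, ← lintegral_indicator_one
    ((hX.prodMk hY) hs)]
  rfl

end Run7.h834
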