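import Pool.Agent.Run7.h834.LawV
import Pool.Agent.Run7.h834.Space

/-! Fractional moments of resolvent entries. -/

set_option autoImplicit false
open MeasureTheory Matrix
open scoped ENNReal

namespace Run7.h834

/-- domination by Lebesgue measure -/
def LeVol (μ : Measure ℝ) (D : ℝ) : Prop :=
  ∀ g : ℝ → ℝ≥0∞, Measurable g → ∫⁻ x, g x ∂μ ≤ ENNReal.ofReal D * ∫⁻ x, g x

theorem NiceV.leVol {V : ℝ → ℝ} {K : ℝ} (h : NiceV V K) :
    LeVol (lawV V) (Real.exp (K / 2)) := by
  intro g hg
  unfold lawV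
  have hm : Measurable fun x => ENNReal.ofReal (Real.exp (-V x)) :=
    ENNReal.measurable_ofReal.comp (Real.measurable_exp.comp h.meas.neg)
  rw [lintegral_withDensity_eq_lintegral_mul _ hm hg, ← lintegral_const_mul _ hg]
  refine lintegral_mono fun x => ?_
  rw [Pi.mul_apply]
  gcongr
  exact h.neg_le x

/-- the weight `|y|^(-1/2)` -/
noncomputable def wt (y : ℝ) : ℝ≥0∞ := ENNReal.ofReal (|y|⁻¹ ^ (1 / 2 : ℝ))

theorem measurable_wt : Measurable wt := by
  unfold wt
  exact ENNReal.measurable_ofReal.comp ((measurable_id.norm.inv).pow_const _)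

/-- the constant in the one variable bound -/
noncomputable def cW (D : ℝ) : ℝ≥0∞ := 1 + ENNReal.ofReal D * ∫⁻ x in Set.Icc (-1 : ℝ) 1, wt x

theorem lintegral_wt_lt_top : ∫⁻ x in Set.Icc (-1 : ℝ) 1, wt x < ⊤ := by
  have h1 : IntegrableOn (fun x : ℝ => x ^ (-(1 / 2) : ℝ)) (Set.Ioc 0 1) := by
    have := intervalIntegral.intervalIntegrable_rpow' (a := 0) (b := 1) (r := -(1 / 2)) (by norm_num)
    rwa [intervalIntegrable_iff_integrableOn_Ioc_of_le zero_le_one] at this
  have hpos : ∫⁻ x in Set.Ioc (0 : ℝ) 1, wt x < ⊤ := by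
    have h2 := h1.lintegral_lt_top
    refine lt_of_le_of_lt (le_of_eq ?_) h2
    refine setLIntegral_congr_fun measurableSet_Ioc fun x hx => ?_
    unfold wt
    congr 1
    rw [abs_of_pos hx.1, Real.rpow_neg hx.1.le, Real.inv_rpow hx.1.le]
  have hneg : ∫⁻ x in Set.Ico (-1 : ℝ) 0, wt x < ⊤ := by
    have h3 : ∫⁻ x in Set.Ico (-1 : ℝ) 0, wt x = ∫⁻ x in Set.Ioc (0 : ℝ) 1, wt x := by
      have h4 := (Measure.measurePreserving_neg (volume : Measure ℝ)).setLIntegral_comp_preimage
        (s := Set.Ioc (0 : ℝ) 1) measurableSet_Ioc measurable_wt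
      have h5 : (fun x : ℝ => -x) ⁻¹' Set.Ioc (0 : ℝ) 1 = Set.Ico (-1) 0 := by
        ext x
        simp only [Set.mem_preimage, Set.mem_Ioc, Set.mem_Ico]
        constructor
        · rintro ⟨a, b⟩
          constructor <;> linarith
        · rintro ⟨a, b⟩
          constructor <;> linarith
      rw [h5] at h4
      rw [← h4]
      refine lintegral_congr fun x => ?_
      simp [wt]
    rw [h3]
    exact hpos
  have hsub : Set.Icc (-1 : ℝ) 1 ⊆ Set.Ico (-1) 0 ∪ ({0} ∪ Set.Ioc 0 1) := by
    intro x hx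
    rcases lt_trichotomy x 0 with h | h | h
    · left
      exact ⟨hx.1, h⟩
    · right
      left
      exact h
    · right
      right
      exact ⟨h, hx.2⟩
  refine lt_of_le_of_lt (lintegral_mono_set hsub) ?_
  refine lt_of_le_of_lt (lintegral_union_le _ _ _) ?_
  refine ENNReal.add_lt_top.2 ⟨hneg, ?_⟩
  refine lt_of_le_of_lt (lintegral_union_le _ _ _) ?_
  refine ENNReal.add_lt_top.2 ⟨?_, hpos⟩
  simp [wt]

theorem cW_lt_top (D : ℝ) : cW D < ⊤ :=
  ENNReal.add_lt_top.2 ⟨ENNReal.one_lt_top, ENNReal.mul_lt_top ENNReal.ofReal_lt_top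
    lintegral_wt_lt_top⟩

theorem one_var_wt {μ : Measure ℝ} [IsProbabilityMeasure μ] {D : ℝ} (hμ : LeVol μ D) (c : ℝ) :
    ∫⁻ a, wt (a + c) ∂μ ≤ cW D := by
  have h1 : ∀ y, wt y ≤ 1 + (Set.Icc (-1 : ℝ) 1).indicator wt y := by
    intro y
    by_cases hy : y ∈ Set.Icc (-1 : ℝ) 1
    · rw [Set.indicator_of_mem hy]
      exact le_add_self
    · rw [Set.indicator_of_notMem hy, add_zero]
      unfold wt
      rw [ENNReal.ofReal_le_one]
      have h2 : 1 < |y| := by
        by_contra h
        push Not at h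
        exact hy (abs_le.1 h)
      exact Real.rpow_le_one (by positivity) (inv_le_one_of_one_le₀ h2.le) (by norm_num)
  have hm : Measurable fun a : ℝ => (Set.Icc (-1 : ℝ) 1).indicator wt (a + c) :=
    (measurable_wt.indicator measurableSet_Icc).comp (measurable_id.add_const c)
  calc ∫⁻ a, wt (a + c) ∂μ ≤ ∫⁻ a, 1 + (Set.Icc (-1 : ℝ) 1).indicator wt (a + c) ∂μ :=
        lintegral_mono fun a => h1 _
    _ = 1 + ∫⁻ a, (Set.Icc (-1 : ℝ) 1).indicator wt (a + c) ∂μ := by
        rw [lintegral_add_left measurable_const, lintegral_one, measure_univ]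
    _ ≤ 1 + ENNReal.ofReal D * ∫⁻ a, (Set.Icc (-1 : ℝ) 1).indicator wt (a + c) := by
        gcongr
        exact hμ _ hm
    _ = cW D := by
        rw [lintegral_add_right_eq_self (fun a => (Set.Icc (-1 : ℝ) 1).indicator wt a) c,
          lintegral_indicator measurableSet_Icc]
        rfl

/-- the elementary inequality behind the two variable bound -/
theorem two_var_bound (k α β : ℝ) :
    wt ((α * β - k ^ 2) / k) ≤ wt (β + -(k ^ 2 / α)) + wt (α + -(k ^ 2 / β)) + wt (α + -k) +
      wt (α + k) := by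
  have key : ∀ {u v : ℝ}, v ≠ 0 → |v| ≤ |u| → wt u ≤ wt v := by
    intro u v hv h
    unfold wt
    refine ENNReal.ofReal_le_ofReal (Real.rpow_le_rpow (by positivity) ?_ (by norm_num))
    exact inv_anti₀ (abs_pos.2 hv) h
  have hz : wt 0 = 0 := by
    unfold wt
    rw [abs_zero, _root_.inv_zero, Real.zero_rpow (by norm_num), ENNReal.ofReal_zero]
  by_cases hk : k = 0
  · rw [hk, div_zero, hz]
    exact zero_le
  by_cases hd : α * β - k ^ 2 = 0
  · rw [hd, zero_div, hz]
    exact zero_le
  have hk' : 0 < |k| := abs_pos.2 hk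
  by_cases h1 : |k| ≤ |α|
  · have hα : α ≠ 0 := by
      intro h
      rw [h, abs_zero] at h1
      linarith
    have e1 : (α * β - k ^ 2) / k = (α / k) * (β + -(k ^ 2 / α)) := by
      field_simp
      ring
    have hne : β + -(k ^ 2 / α) ≠ 0 := by
      intro h
      apply hd
      have : α * β - k ^ 2 = α * (β + -(k ^ 2 / α)) := by
        field_simp
        ring
      rw [this, h, mul_zero]
    refine (key hne ?_).trans (le_add_right (le_add_right (le_add_right le_rfl)))
    rw [e1, abs_mul, abs_div]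
    exact le_mul_of_one_le_left (abs_nonneg _) ((one_le_div hk').2 h1)
  · by_cases h2 : |k| ≤ |β|
    · have hβ : β ≠ 0 := by
        intro h
        rw [h, abs_zero] at h2
        linarith
      have e1 : (α * β - k ^ 2) / k = (β / k) * (α + -(k ^ 2 / β)) := by
        field_simp
        ring
      have hne : α + -(k ^ 2 / β) ≠ 0 := by
        intro h
        apply hd
        have : α * β - k ^ 2 = β * (α + -(k ^ 2 / β)) := by
          field_simp
          ring
        rw [this, h, mul_zero]
      refine (key hne ?_).trans ?_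
      · rw [e1, abs_mul, abs_div]
        exact le_mul_of_one_le_left (abs_nonneg _) ((one_le_div hk').2 h2)
      · exact le_add_right (le_add_right le_add_self)
    · push Not at h1 h2
      have h3 : |k| * (|k| - |α|) ≤ |α * β - k ^ 2| := by
        have : |α * β| ≤ |α| * |k| := by
          rw [abs_mul]
          exact mul_le_mul_of_nonneg_left h2.le (abs_nonneg _)
        have h4 : k ^ 2 = |k| * |k| := by rw [← sq_abs, sq]
        have h5 : k ^ 2 - α * β ≤ |α * β - k ^ 2| := by
          rw [abs_sub_comm]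
          exact le_abs_self _
        have h6 := le_abs_self (α * β)
        nlinarith
      have h4 : |k| - |α| ≤ |(α * β - k ^ 2) / k| := by
        rw [abs_div, le_div_iff₀ hk']
        linarith
      have h5 : 0 < |k| - |α| := by linarith
      -- |k| - |α| equals |α - k| or |α + k|
      have h6 : |α + -k| = |k| - |α| ∨ |α + k| = |k| - |α| := by
        rcases le_or_gt 0 α with hα | hα
        · rcases le_or_gt 0 k with hk0 | hk0
          · left
            have : |k| = k := abs_of_nonneg hk0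
            have : |α| = α := abs_of_nonneg hα
            rw [abs_of_neg (by linarith)]
            linarith
          · right
            have : |k| = -k := abs_of_neg hk0
            have : |α| = α := abs_of_nonneg hα
            rw [abs_of_neg (by linarith)]
            linarith
        · rcases le_or_gt 0 k with hk0 | hk0
          · right
            have : |k| = k := abs_of_nonneg hk0
            have : |α| = -α := abs_of_neg hα
            rw [abs_of_pos (by linarith)]
            linarith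
          · left
            have : |k| = -k := abs_of_neg hk0
            have : |α| = -α := abs_of_neg hα
            rw [abs_of_pos (by linarith)]
            linarith
      rcases h6 with h6 | h6
      · have hne : α + -k ≠ 0 := by
          intro h
          rw [h, abs_zero] at h6
          linarith
        refine (key hne ?_).trans (le_add_right le_add_self)
        rw [h6]
        exact h4
      · have hne : α + k ≠ 0 := by
          intro h
          rw [h, abs_zero] at h6
          linarith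
        refine (key hne ?_).trans le_add_self
        rw [h6]
        exact h4

/-- the form of the entry as a function of two diagonal entries -/
def NiceTwo (G : ℝ → ℝ → ℝ≥0∞) : Prop :=
  (∃ k x y : ℝ, ∀ a b, G a b ≤ wt (((a + x) * (b + y) - k ^ 2) / k)) ∨
  (∃ c : ℝ → ℝ, Measurable c ∧ ∀ a b, G a b ≤ wt (a + c b)) ∨
  (∃ c : ℝ → ℝ, Measurable c ∧ ∀ a b, G a b ≤ wt (b + c a))

theorem two_var_wt {μ : Measure ℝ} [IsProbabilityMeasure μ] {D : ℝ} (hμ : LeVol μ D)
    {G : ℝ → ℝ → ℝ≥0∞} (hG : NiceTwo G) :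
    ∫⁻ a, ∫⁻ b, G a b ∂μ ∂μ ≤ 4 * cW D := by
  have hone : cW D ≤ 4 * cW D := by
    calc cW D = 1 * cW D := (one_mul _).symm
      _ ≤ 4 * cW D := by
          gcongr
          norm_num
  rcases hG with ⟨k, x, y, h⟩ | ⟨c, hc, h⟩ | ⟨c, hc, h⟩
  · have m1 : Measurable fun p : ℝ × ℝ => wt ((p.2 + y) + -(k ^ 2 / (p.1 + x))) :=
      measurable_wt.comp (by fun_prop)
    have m2 : Measurable fun p : ℝ × ℝ => wt ((p.1 + x) + -(k ^ 2 / (p.2 + y))) :=
      measurable_wt.comp (by fun_prop)
    have m3 : Measurable fun a : ℝ => wt ((a + x) + -k) := measurable_wt.comp (by fun_prop)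
    have m4 : Measurable fun a : ℝ => wt ((a + x) + k) := measurable_wt.comp (by fun_prop)
    have b1 : ∫⁻ a, ∫⁻ b, wt ((b + y) + -(k ^ 2 / (a + x))) ∂μ ∂μ ≤ cW D := by
      calc ∫⁻ a, ∫⁻ b, wt ((b + y) + -(k ^ 2 / (a + x))) ∂μ ∂μ ≤ ∫⁻ _, cW D ∂μ := by
            refine lintegral_mono fun a => ?_
            have := one_var_wt hμ (y + -(k ^ 2 / (a + x)))
            simp_rw [← add_assoc] at this
            exact this
        _ = cW D := by simp
    have b2 : ∫⁻ a, ∫⁻ b, wt ((a + x) + -(k ^ 2 / (b + y))) ∂μ ∂μ ≤ cW D := by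
      rw [lintegral_lintegral_swap m2.aemeasurable]
      calc ∫⁻ b, ∫⁻ a, wt ((a + x) + -(k ^ 2 / (b + y))) ∂μ ∂μ ≤ ∫⁻ _, cW D ∂μ := by
            refine lintegral_mono fun b => ?_
            have := one_var_wt hμ (x + -(k ^ 2 / (b + y)))
            simp_rw [← add_assoc] at this
            exact this
        _ = cW D := by simp
    have b3 : ∫⁻ a, ∫⁻ _, wt ((a + x) + -k) ∂μ ∂μ ≤ cW D := by
      simp only [lintegral_const, measure_univ, mul_one]
      have := one_var_wt hμ (x + -k)
      simp_rw [← add_assoc] at this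
      exact this
    have b4 : ∫⁻ a, ∫⁻ _, wt ((a + x) + k) ∂μ ∂μ ≤ cW D := by
      simp only [lintegral_const, measure_univ, mul_one]
      have := one_var_wt hμ (x + k)
      simp_rw [← add_assoc] at this
      exact this
    have m1a : ∀ a, Measurable fun b : ℝ => wt ((b + y) + -(k ^ 2 / (a + x))) := fun a =>
      m1.comp (measurable_const.prodMk measurable_id)
    have m2a : ∀ a, Measurable fun b : ℝ => wt ((a + x) + -(k ^ 2 / (b + y))) := fun a =>
      m2.comp (measurable_const.prodMk measurable_id)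
    calc ∫⁻ a, ∫⁻ b, G a b ∂μ ∂μ
        ≤ ∫⁻ a, ∫⁻ b, (wt ((b + y) + -(k ^ 2 / (a + x))) + wt ((a + x) + -(k ^ 2 / (b + y))) +
            wt ((a + x) + -k) + wt ((a + x) + k)) ∂μ ∂μ :=
          lintegral_mono fun a => lintegral_mono fun b => (h a b).trans (two_var_bound _ _ _)
      _ = ∫⁻ a, ((∫⁻ b, wt ((b + y) + -(k ^ 2 / (a + x))) ∂μ) +
            (∫⁻ b, wt ((a + x) + -(k ^ 2 / (b + y))) ∂μ) +
            (∫⁻ _, wt ((a + x) + -k) ∂μ) + (∫⁻ _, wt ((a + x) + k) ∂μ)) ∂μ := by
          refine lintegral_congr fun a => ?_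
          have A1 : Measurable fun b : ℝ => wt ((b + y) + -(k ^ 2 / (a + x))) +
            wt ((a + x) + -(k ^ 2 / (b + y))) := (m1a a).add (m2a a)
          have A2 : Measurable fun b : ℝ => wt ((b + y) + -(k ^ 2 / (a + x))) +
            wt ((a + x) + -(k ^ 2 / (b + y))) + wt ((a + x) + -k) := A1.add measurable_const
          rw [lintegral_add_left A2, lintegral_add_left A1, lintegral_add_left (m1a a)]
      _ = (∫⁻ a, ∫⁻ b, wt ((b + y) + -(k ^ 2 / (a + x))) ∂μ ∂μ) +
            (∫⁻ a, ∫⁻ b, wt ((a + x) + -(k ^ 2 / (b + y))) ∂μ ∂μ) +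
            (∫⁻ a, ∫⁻ _, wt ((a + x) + -k) ∂μ ∂μ) + (∫⁻ a, ∫⁻ _, wt ((a + x) + k) ∂μ ∂μ) := by
          have n1 : Measurable fun a : ℝ => ∫⁻ b, wt ((b + y) + -(k ^ 2 / (a + x))) ∂μ :=
            m1.lintegral_prod_right' (ν := μ)
          have n2 : Measurable fun a : ℝ => ∫⁻ b, wt ((a + x) + -(k ^ 2 / (b + y))) ∂μ :=
            m2.lintegral_prod_right' (ν := μ)
          have n3 : Measurable fun a : ℝ => ∫⁻ _, wt ((a + x) + -k) ∂μ := by
            simp only [lintegral_const, measure_univ, mul_one]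
            exact m3
          have n12 : Measurable fun a : ℝ => (∫⁻ b, wt ((b + y) + -(k ^ 2 / (a + x))) ∂μ) +
            ∫⁻ b, wt ((a + x) + -(k ^ 2 / (b + y))) ∂μ := n1.add n2
          have n123 : Measurable fun a : ℝ => (∫⁻ b, wt ((b + y) + -(k ^ 2 / (a + x))) ∂μ) +
            (∫⁻ b, wt ((a + x) + -(k ^ 2 / (b + y))) ∂μ) + ∫⁻ _, wt ((a + x) + -k) ∂μ :=
            n12.add n3
          rw [lintegral_add_left n123, lintegral_add_left n12, lintegral_add_left n1]
      _ ≤ cW D + cW D + cW D + cW D := add_le_add (add_le_add (add_le_add b1 b2) b3) b4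
      _ = 4 * cW D := by ring
  · have m2 : Measurable fun p : ℝ × ℝ => wt (p.1 + c p.2) :=
      measurable_wt.comp (measurable_fst.add (hc.comp measurable_snd))
    calc ∫⁻ a, ∫⁻ b, G a b ∂μ ∂μ ≤ ∫⁻ a, ∫⁻ b, wt (a + c b) ∂μ ∂μ :=
          lintegral_mono fun a => lintegral_mono fun b => h a b
      _ = ∫⁻ b, ∫⁻ a, wt (a + c b) ∂μ ∂μ := lintegral_lintegral_swap m2.aemeasurable
      _ ≤ ∫⁻ _, cW D ∂μ := lintegral_mono fun b => one_var_wt hμ (c b)
      _ = cW D := by simp
      _ ≤ _ := hone
  · calc ∫⁻ a, ∫⁻ b, G a b ∂μ ∂μ ≤ ∫⁻ a, ∫⁻ b, wt (b + c a) ∂μ ∂μ :=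
          lintegral_mono fun a => lintegral_mono fun b => h a b
      _ ≤ ∫⁻ _, cW D ∂μ := lintegral_mono fun a => one_var_wt hμ (c a)
      _ = cW D := by simp
      _ ≤ _ := hone

/-- entries of the resolvent under a rank two diagonal perturbation -/
theorem entry_two {ι : Type*} [Fintype ι] [DecidableEq ι] {K0 K1 : Matrix ι ι ℝ}
    {p q : ι} {α β : ℝ} (h0 : IsUnit K0) (h1 : IsUnit K1) (hsym : (K0⁻¹)ᵀ = K0⁻¹)
    (h : K1 = K0 + Matrix.single p p α + Matrix.single q q β) :
    K0⁻¹ p q = K1⁻¹ p q * ((1 + α * K0⁻¹ p p) * (1 + β * K0⁻¹ q q) - α * β * (K0⁻¹ p q) ^ 2) := by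
  have hu0 : IsUnit K0.det := (Matrix.isUnit_iff_isUnit_det _).1 h0
  have hu1 : IsUnit K1.det := (Matrix.isUnit_iff_isUnit_det _).1 h1
  have e0 : K0⁻¹ = K1⁻¹ + K1⁻¹ * (Matrix.single p p α + Matrix.single q q β) * K0⁻¹ := by
    have : Matrix.single p p α + Matrix.single q q β = K1 - K0 := by
      rw [h]
      abel
    rw [this, Matrix.mul_sub, Matrix.sub_mul, Matrix.nonsing_inv_mul _ hu1, Matrix.one_mul,
      Matrix.mul_assoc, Matrix.mul_nonsing_inv _ hu0, Matrix.mul_one]
    abel
  have ent : ∀ j, K0⁻¹ p j = K1⁻¹ p j + (α * K1⁻¹ p p * K0⁻¹ p j + β * K1⁻¹ p q * K0⁻¹ q j) := by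
    intro j
    conv_lhs => rw [e0]
    rw [Matrix.add_apply, Matrix.mul_add, Matrix.add_mul, Matrix.add_apply]
    congr 1
    have s1 : ∀ (r : ι) (c : ℝ), (K1⁻¹ * Matrix.single r r c * K0⁻¹) p j =
        c * K1⁻¹ p r * K0⁻¹ r j := by
      intro r c
      rw [Matrix.mul_assoc, Matrix.mul_apply, Finset.sum_eq_single r]
      · rw [Matrix.single_mul_apply_same]
        ring
      · intro i _ hi
        rw [Matrix.single_mul_apply_of_ne (h := hi), mul_zero]
      · intro hr
        exact absurd (Finset.mem_univ r) hr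
    rw [s1, s1]
  have hqp : K0⁻¹ q p = K0⁻¹ p q := by
    conv_lhs => rw [← hsym]
    rfl
  have ep := ent p
  have eq := ent q
  rw [hqp] at ep
  set x := K0⁻¹ p p
  set y := K0⁻¹ q q
  set k := K0⁻¹ p q
  set g := K1⁻¹ p q
  set hh := K1⁻¹ p p
  -- ep : x = hh + (α hh x + β g k) ; eq : k = g + (α hh k + β g y)
  linear_combination (1 + α * x) * eq - α * k * ep

theorem wt_inv (t : ℝ) : wt t⁻¹ = ENNReal.ofReal (|t| ^ (1 / 2 : ℝ)) := by
  unfold wt
  rw [abs_inv, inv_inv]

theorem wt_zero : wt 0 = 0 := by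
  unfold wt
  rw [abs_zero, _root_.inv_zero, Real.zero_rpow (by norm_num), ENNReal.ofReal_zero]

theorem wt_mono {u v : ℝ} (hv : v ≠ 0) (h : |v| ≤ |u|) : wt u ≤ wt v := by
  unfold wt
  refine ENNReal.ofReal_le_ofReal (Real.rpow_le_rpow (by positivity) ?_ (by norm_num))
  exact inv_anti₀ (abs_pos.2 hv) h

/-- the form of the entry -/
theorem niceTwo_aux {G : ℝ → ℝ → ℝ} {k x y a0 b0 : ℝ}
    (h : ∀ a b, G a b = 0 ∨ (k ≠ 0 ∧ k = G a b *
      ((1 + (a - a0) * x) * (1 + (b - b0) * y) - (a - a0) * (b - b0) * k ^ 2))) :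
    NiceTwo fun a b => ENNReal.ofReal (|G a b| ^ (1 / 2 : ℝ)) := by
  simp_rw [← wt_inv]
  by_cases hk : k = 0
  · refine Or.inl ⟨0, 0, 0, fun a b => ?_⟩
    rcases h a b with h1 | ⟨h1, -⟩
    · show wt (G a b)⁻¹ ≤ _
      rw [h1, _root_.inv_zero, wt_zero]
      exact zero_le
    · exact absurd hk h1
  have inv : ∀ a b, G a b ≠ 0 → (G a b)⁻¹ =
      ((1 + (a - a0) * x) * (1 + (b - b0) * y) - (a - a0) * (b - b0) * k ^ 2) / k := by
    intro a b hg
    rcases h a b with h1 | ⟨-, h1⟩
    · exact absurd h1 hg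
    · have : G a b * ((1 + (a - a0) * x) * (1 + (b - b0) * y) -
        (a - a0) * (b - b0) * k ^ 2) ≠ 0 := by
        rw [← h1]
        exact hk
      have h2 := right_ne_zero_of_mul this
      rw [eq_div_iff hk]
      conv_lhs => rw [h1]
      rw [← mul_assoc, inv_mul_cancel₀ hg, one_mul]
  by_cases hd : x * y - k ^ 2 = 0
  · have hsimp : ∀ a b : ℝ, (1 + (a - a0) * x) * (1 + (b - b0) * y) -
        (a - a0) * (b - b0) * k ^ 2 = 1 + (a - a0) * x + (b - b0) * y := by
      intro a b
      have : k ^ 2 = x * y := by linarith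
      rw [this]
      ring
    have hxy : x * y ≠ 0 := by
      have : x * y = k ^ 2 := by linarith
      rw [this]
      positivity
    have hx : x ≠ 0 := left_ne_zero_of_mul hxy
    have hy : y ≠ 0 := right_ne_zero_of_mul hxy
    by_cases hxk : |k| ≤ |x|
    · refine Or.inr (Or.inl ⟨fun b => (1 + (b - b0) * y) / x - a0, by fun_prop, fun a b => ?_⟩)
      show wt (G a b)⁻¹ ≤ _
      by_cases hg : G a b = 0
      · rw [hg, _root_.inv_zero, wt_zero]
        exact zero_le
      have h3 := inv a b hg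
      rw [hsimp] at h3
      have h4 : (G a b)⁻¹ = (x / k) * (a + ((1 + (b - b0) * y) / x - a0)) := by
        rw [h3]
        field_simp
        ring
      have h5 : a + ((1 + (b - b0) * y) / x - a0) ≠ 0 := by
        intro h6
        rw [h6, mul_zero] at h4
        exact inv_ne_zero hg h4
      refine wt_mono h5 ?_
      rw [h4, abs_mul, abs_div]
      exact le_mul_of_one_le_left (abs_nonneg _) ((one_le_div (abs_pos.2 hk)).2 hxk)
    · have hyk : |k| ≤ |y| := by
        push Not at hxk
        by_contra hcon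
        push Not at hcon
        have h6 : |x| * |y| < |k| * |k| :=
          mul_lt_mul'' hxk hcon (abs_nonneg _) (abs_nonneg _)
        rw [← abs_mul, ← abs_mul] at h6
        have h7 : x * y = k * k := by linarith
        rw [h7] at h6
        exact lt_irrefl _ h6
      refine Or.inr (Or.inr ⟨fun a => (1 + (a - a0) * x) / y - b0, by fun_prop, fun a b => ?_⟩)
      show wt (G a b)⁻¹ ≤ _
      by_cases hg : G a b = 0
      · rw [hg, _root_.inv_zero, wt_zero]
        exact zero_le
      have h3 := inv a b hg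
      rw [hsimp] at h3
      have h4 : (G a b)⁻¹ = (y / k) * (b + ((1 + (a - a0) * x) / y - b0)) := by
        rw [h3]
        field_simp
        ring
      have h5 : b + ((1 + (a - a0) * x) / y - b0) ≠ 0 := by
        intro h6
        rw [h6, mul_zero] at h4
        exact inv_ne_zero hg h4
      refine wt_mono h5 ?_
      rw [h4, abs_mul, abs_div]
      exact le_mul_of_one_le_left (abs_nonneg _) ((one_le_div (abs_pos.2 hk)).2 hyk)
  · refine Or.inl ⟨k / (x * y - k ^ 2), y / (x * y - k ^ 2) - a0, x / (x * y - k ^ 2) - b0,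
      fun a b => ?_⟩
    show wt (G a b)⁻¹ ≤ _
    by_cases hg : G a b = 0
    · rw [hg, _root_.inv_zero, wt_zero]
      exact zero_le
    refine le_of_eq (congrArg wt ?_)
    rw [inv a b hg]
    set d := x * y - k ^ 2 with hd'
    have hxy : x * y = d + k ^ 2 := by rw [hd']; ring
    have e1 : (1 + (a - a0) * x) * (1 + (b - b0) * y) - (a - a0) * (b - b0) * k ^ 2 =
        1 + (a - a0) * x + (b - b0) * y + (a - a0) * (b - b0) * d := by
      rw [hd']
      ring
    have e2 : (a + (y / d - a0)) * (b + (x / d - b0)) - (k / d) ^ 2 =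
        ((a - a0) * (b - b0) * d + (a - a0) * x + (b - b0) * y + 1) / d := by
      field_simp
      linear_combination hxy
    rw [e1, e2]
    field_simp
    ring

theorem niceTwo_entry {ι : Type*} [Fintype ι] [DecidableEq ι] {K : Matrix ι ι ℝ}
    (hK : Kᵀ = K) (p q : ι) :
    NiceTwo fun a b => ENNReal.ofReal
      (|(K + Matrix.single p p a + Matrix.single q q b)⁻¹ p q| ^ (1 / 2 : ℝ)) := by
  have hsymm : ∀ a b, ((K + Matrix.single p p a + Matrix.single q q b)⁻¹)ᵀ =
      (K + Matrix.single p p a + Matrix.single q q b)⁻¹ := by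
    intro a b
    rw [Matrix.transpose_nonsing_inv, Matrix.transpose_add, Matrix.transpose_add, hK,
        Matrix.transpose_single, Matrix.transpose_single]
  have hdiff : ∀ a b a0 b0 : ℝ, K + Matrix.single p p a + Matrix.single q q b =
      K + Matrix.single p p a0 + Matrix.single q q b0 + Matrix.single p p (a - a0) +
        Matrix.single q q (b - b0) := by
    intro a b a0 b0
    have e1 : Matrix.single p p a = Matrix.single p p a0 + Matrix.single p p (a - a0) := by
      rw [← Matrix.single_add, add_sub_cancel]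
    have e2 : Matrix.single q q b = Matrix.single q q b0 + Matrix.single q q (b - b0) := by
      rw [← Matrix.single_add, add_sub_cancel]
    rw [e1, e2]
    abel
  by_cases hex : ∃ a0 b0, IsUnit (K + Matrix.single p p a0 + Matrix.single q q b0)
  · obtain ⟨a0, b0, h0⟩ := hex
    refine niceTwo_aux (a0 := a0) (b0 := b0)
      (k := (K + Matrix.single p p a0 + Matrix.single q q b0)⁻¹ p q)
      (x := (K + Matrix.single p p a0 + Matrix.single q q b0)⁻¹ p p)
      (y := (K + Matrix.single p p a0 + Matrix.single q q b0)⁻¹ q q) fun a b => ?_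
    by_cases h1 : IsUnit (K + Matrix.single p p a + Matrix.single q q b)
    · have h2 := entry_two h0 h1 (hsymm a0 b0) (hdiff a b a0 b0)
      have h3 := entry_two h1 h0 (hsymm a b) (hdiff a0 b0 a b)
      by_cases hk : (K + Matrix.single p p a0 + Matrix.single q q b0)⁻¹ p q = 0
      · left
        rw [h3, hk, zero_mul]
      · exact Or.inr ⟨hk, h2⟩
    · left
      have : ¬ IsUnit (K + Matrix.single p p a + Matrix.single q q b).det := fun h =>
        h1 ((Matrix.isUnit_iff_isUnit_det _).2 h)
      rw [Matrix.nonsing_inv_apply_not_isUnit _ this]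
      rfl
  · refine niceTwo_aux (a0 := 0) (b0 := 0) (k := 0) (x := 0) (y := 0) fun a b => ?_
    left
    have : ¬ IsUnit (K + Matrix.single p p a + Matrix.single q q b).det := fun h =>
      hex ⟨a, b, (Matrix.isUnit_iff_isUnit_det _).2 h⟩
    rw [Matrix.nonsing_inv_apply_not_isUnit _ this]
    rfl

/-- the diagonal entries -/
theorem one_entry {ι : Type*} [Fintype ι] [DecidableEq ι] {K : Matrix ι ι ℝ}
    (p : ι) : (∀ a : ℝ, (K + Matrix.single p p a)⁻¹ p p = 0) ∨ ∃ c : ℝ, ∀ a : ℝ,
      ENNReal.ofReal (|(K + Matrix.single p p a)⁻¹ p p| ^ (1 / 2 : ℝ)) ≤ wt (a + c) := by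
  by_cases hex : ∃ a0, IsUnit (K + Matrix.single p p a0) ∧ (K + Matrix.single p p a0)⁻¹ p p ≠ 0
  · obtain ⟨a0, h0, hx⟩ := hex
    right
    refine ⟨1 / (K + Matrix.single p p a0)⁻¹ p p - a0, fun a => ?_⟩
    rw [← wt_inv]
    by_cases h1 : IsUnit (K + Matrix.single p p a)
    · have hu0 : IsUnit (K + Matrix.single p p a0).det := (Matrix.isUnit_iff_isUnit_det _).1 h0
      have hu1 : IsUnit (K + Matrix.single p p a).det := (Matrix.isUnit_iff_isUnit_det _).1 h1
      set K0 := K + Matrix.single p p a0 with hK0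
      set K1 := K + Matrix.single p p a with hK1
      have e0 : K0⁻¹ = K1⁻¹ + K1⁻¹ * Matrix.single p p (a - a0) * K0⁻¹ := by
        have : Matrix.single p p (a - a0) = K1 - K0 := by
          have e1 : Matrix.single p p a = Matrix.single p p a0 + Matrix.single p p (a - a0) := by
            rw [← Matrix.single_add, add_sub_cancel]
          rw [hK0, hK1, e1]
          abel
        rw [this, Matrix.mul_sub, Matrix.sub_mul, Matrix.nonsing_inv_mul _ hu1, Matrix.one_mul,
          Matrix.mul_assoc, Matrix.mul_nonsing_inv _ hu0, Matrix.mul_one]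
        abel
      have ent : K0⁻¹ p p = K1⁻¹ p p + (a - a0) * K1⁻¹ p p * K0⁻¹ p p := by
        conv_lhs => rw [e0]
        rw [Matrix.add_apply]
        congr 1
        rw [Matrix.mul_assoc, Matrix.mul_apply, Finset.sum_eq_single p]
        · rw [Matrix.single_mul_apply_same]
          ring
        · intro i _ hi
          rw [Matrix.single_mul_apply_of_ne (h := hi), mul_zero]
        · intro hr
          exact absurd (Finset.mem_univ p) hr
      have hg : K1⁻¹ p p ≠ 0 := by
        intro h
        rw [h] at ent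
        apply hx
        rw [ent]
        ring
      refine le_of_eq (congrArg wt ?_)
      field_simp
      linear_combination ent
    · have : ¬ IsUnit (K + Matrix.single p p a).det := fun h =>
        h1 ((Matrix.isUnit_iff_isUnit_det _).2 h)
      rw [Matrix.nonsing_inv_apply_not_isUnit _ this]
      show wt (0 : ℝ)⁻¹ ≤ _
      rw [_root_.inv_zero, wt_zero]
      exact zero_le
  · left
    intro a
    by_contra h
    by_cases h1 : IsUnit (K + Matrix.single p p a)
    · exact hex ⟨a, h1, h⟩
    · have : ¬ IsUnit (K + Matrix.single p p a).det := fun h =>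
        h1 ((Matrix.isUnit_iff_isUnit_det _).2 h)
      rw [Matrix.nonsing_inv_apply_not_isUnit _ this] at h
      exact h rfl

end Run7.h834
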