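import Pool.Agent.Run7.h834.Intensity3

/-! Flatness of the mean counting function on the microscopic scale. -/

set_option autoImplicit false
open MeasureTheory Matrix Set Filter Topology
open scoped ENNReal

namespace Run7.h834

variable {V : ℝ → ℝ} {K : ℝ}

theorem log_gE (N : ℕ) (K t : ℝ) : Real.log (gE N K t) = N * (K * t ^ 2 / 2) := Real.log_exp _

/-- flatness, logarithmic form -/
theorem fN_ratio (h : NiceV V K) (w N : ℕ) {c T t κ : ℝ} (hc : 0 < fN V w N c) (hT : 0 < T)
    (ht : |t| ≤ T)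
    (hκ : |t| / T * Real.log (2 * Real.exp (K / 2) * N * gE N K T / fN V w N c) +
      N * (K * t ^ 2 / 2) ≤ κ) :
    fN V w N c * Real.exp (-κ) ≤ fN V w N (c + t) ∧
      fN V w N (c + t) ≤ fN V w N c * Real.exp κ := by
  have hK := h.one_le
  set X := 2 * Real.exp (K / 2) * N * gE N K T / fN V w N c with hX
  have hM := fN_le h w N c
  have hN0 : 0 < 2 * Real.exp (K / 2) * N := hc.trans_le hM
  have hX0 : 0 < X := div_pos (mul_pos hN0 (gE_pos _ _ _)) hc
  have e1 : X ^ (|t| / T) = Real.exp (|t| / T * Real.log X) := by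
    rw [Real.rpow_def_of_pos hX0, mul_comm]
  have hq : 0 ≤ (N : ℝ) * (K * t ^ 2 / 2) := by
    have : 0 ≤ K := by linarith
    positivity
  have up := fN_up h w N hc hT ht
  have dn := fN_down h w N hc hT ht
  rw [← hX, e1] at up dn
  constructor
  · have e2 : gE N K t = Real.exp (N * (K * t ^ 2 / 2)) := rfl
    rw [e2, mul_assoc, ← Real.exp_add] at dn
    have e3 : Real.exp (-κ) ≤ Real.exp (-(N * (K * t ^ 2 / 2) + |t| / T * Real.log X)) :=
      Real.exp_le_exp.2 (by linarith)
    calc fN V w N c * Real.exp (-κ)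
        ≤ (fN V w N (c + t) * Real.exp (N * (K * t ^ 2 / 2) + |t| / T * Real.log X)) *
          Real.exp (-(N * (K * t ^ 2 / 2) + |t| / T * Real.log X)) :=
          mul_le_mul dn e3 (Real.exp_pos _).le
            (mul_nonneg (fN_nonneg h w N _) (Real.exp_pos _).le)
      _ = fN V w N (c + t) := by
          rw [mul_assoc, ← Real.exp_add, add_neg_cancel, Real.exp_zero, mul_one]
  · refine up.trans (mul_le_mul_of_nonneg_left (Real.exp_le_exp.2 ?_) hc.le)
    linarith

/-- the mean number of eigenvalues in a window -/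
theorem mean_cN (h : NiceV V K) (w N : ℕ) {a b : ℝ} (hab : a ≤ b) :
    ∫ ω, (cN w ω a b 0 N : ℝ) ∂(Pm (lawV V)) = FN V w N b - FN V w N a := by
  have := h.prob
  unfold FN
  rw [← integral_sub (negIdx_integrable w N _) (negIdx_integrable w N _)]
  refine integral_congr_ae (Eventually.of_forall fun ω => ?_)
  have := cN_cast w ω hab 0 N
  have h2 : ((cN w ω a b 0 N : ℕ) : ℝ) = (negIdx (kM w ω b 0 0 N) : ℝ) -
      negIdx (kM w ω a 0 0 N) := by exact_mod_cast this
  exact h2

/-- flatness of the counting function -/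
theorem mean_flat (h : NiceV V K) (w N : ℕ) {e T r κ a b : ℝ} (hc : 0 < fN V w N e)
    (hT : 0 < T) (hr0 : 0 ≤ r) (hr : r / fN V w N e ≤ T)
    (hκ : r / fN V w N e / T * Real.log (2 * Real.exp (K / 2) * N * gE N K T / fN V w N e) +
      N * (K * (r / fN V w N e) ^ 2 / 2) ≤ κ) (ha : -r ≤ a) (hab : a ≤ b) (hb : b ≤ r) :
    (b - a) * Real.exp (-κ) ≤
      ∫ ω, (cN w ω (e + a / fN V w N e) (e + b / fN V w N e) 0 N : ℝ) ∂(Pm (lawV V)) ∧
    ∫ ω, (cN w ω (e + a / fN V w N e) (e + b / fN V w N e) 0 N : ℝ) ∂(Pm (lawV V)) ≤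
      (b - a) * Real.exp κ := by
  have hK := h.one_le
  set f := fN V w N e with hf
  have hab' : e + a / f ≤ e + b / f := by
    have : a / f ≤ b / f := div_le_div_of_nonneg_right hab hc.le
    linarith
  rw [mean_cN h w N hab']
  rcases hab.eq_or_lt with rfl | hlt
  · simp
  have hlt' : e + a / f < e + b / f := by
    have : a / f < b / f := div_lt_div_of_pos_right hlt hc
    linarith
  obtain ⟨ξ, hξ, hξ2⟩ := exists_hasDerivAt_eq_slope (FN V w N) (fN V w N) hlt'
    (fun x _ => (hasDerivAt_FN h w N x).continuousAt.continuousWithinAt)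
    (fun x _ => hasDerivAt_FN h w N x)
  have hlen : e + b / f - (e + a / f) = (b - a) / f := by ring
  rw [hlen] at hξ2
  have hba : 0 < b - a := by linarith
  have hsub : FN V w N (e + b / f) - FN V w N (e + a / f) = (b - a) / f * fN V w N ξ := by
    rw [hξ2]
    field_simp
  rw [hsub]
  have hM : 0 < 2 * Real.exp (K / 2) * N := hc.trans_le (fN_le h w N e)
  have hX1 : 1 ≤ 2 * Real.exp (K / 2) * N * gE N K T / f := by
    rw [le_div_iff₀ hc, one_mul]
    calc f ≤ 2 * Real.exp (K / 2) * N := fN_le h w N e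
      _ = 2 * Real.exp (K / 2) * N * 1 := (mul_one _).symm
      _ ≤ 2 * Real.exp (K / 2) * N * gE N K T :=
        mul_le_mul_of_nonneg_left (gE_one_le N hK T) hM.le
  have ht : |ξ - e| ≤ r / f := by
    rw [abs_le]
    have h1 : -r / f ≤ a / f := div_le_div_of_nonneg_right ha hc.le
    have h2 : b / f ≤ r / f := div_le_div_of_nonneg_right hb hc.le
    rw [neg_div] at h1
    constructor
    · linarith [hξ.1]
    · linarith [hξ.2]
  have hrf : 0 ≤ r / f := div_nonneg hr0 hc.le
  have key := fN_ratio h w N (c := e) (T := T) (t := ξ - e) (κ := κ) hc hT (ht.trans hr) (by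
    refine le_trans (add_le_add ?_ ?_) hκ
    · refine mul_le_mul_of_nonneg_right ?_ (Real.log_nonneg hX1)
      exact div_le_div_of_nonneg_right ht hT.le
    · have h3 : (ξ - e) ^ 2 ≤ (r / f) ^ 2 := by
        rw [← sq_abs (ξ - e)]
        exact pow_le_pow_left₀ (abs_nonneg _) ht 2
      have : 0 ≤ K := by linarith
      gcongr)
  rw [add_sub_cancel] at key
  constructor
  · calc (b - a) * Real.exp (-κ) = (b - a) / f * (f * Real.exp (-κ)) := by field_simp
      _ ≤ (b - a) / f * fN V w N ξ := by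
        refine mul_le_mul_of_nonneg_left key.1 (by positivity)
  · calc (b - a) / f * fN V w N ξ ≤ (b - a) / f * (f * Real.exp κ) := by
          refine mul_le_mul_of_nonneg_left key.2 (by positivity)
      _ = (b - a) * Real.exp κ := by field_simp

/-- the error of the flatness estimate -/
theorem kappa_bound (h : NiceV V K) {w N : ℕ} (hw : 1 ≤ w) (hwN : w ≤ N)
    (hlg : 1 ≤ Real.log N) {e c₀ r : ℝ} (hc₀ : 0 < c₀) (hr : 0 ≤ r)
    (hf : c₀ * N / (2 * Real.sqrt w) ≤ fN V w N e) :
    r / fN V w N e / Real.sqrt (Real.log N / N) *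
        Real.log (2 * Real.exp (K / 2) * N * gE N K (Real.sqrt (Real.log N / N)) /
          fN V w N e) + N * (K * (r / fN V w N e) ^ 2 / 2) ≤
      2 * r / c₀ * (|Real.log (4 * Real.exp (K / 2) / c₀)| + K / 2 + 1) *
        Real.sqrt (w * Real.log N / N) +
      2 * K * r ^ 2 / c₀ ^ 2 * (w * Real.log N / N) := by
  have hK := h.one_le
  have hw0 : (0 : ℝ) < w := by exact_mod_cast hw
  have hN0 : (0 : ℝ) < N := by exact_mod_cast (lt_of_lt_of_le hw hwN)
  have hwN' : (w : ℝ) ≤ N := by exact_mod_cast hwN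
  set lg := Real.log N with hlgd
  have hlg0 : 0 < lg := by linarith
  set f := fN V w N e with hfd
  have hsw : 0 < Real.sqrt w := Real.sqrt_pos.2 hw0
  have hf0 : 0 < f := lt_of_lt_of_le (by positivity) hf
  set T := Real.sqrt (lg / N) with hT
  have hT0 : 0 < T := Real.sqrt_pos.2 (by positivity)
  have hT2 : T ^ 2 = lg / N := Real.sq_sqrt (by positivity)
  -- bound of `r / f`
  have hrf : r / f ≤ 2 * r * Real.sqrt w / (c₀ * N) := by
    rw [div_le_div_iff₀ hf0 (by positivity)]
    have h1 : c₀ * N ≤ f * (2 * Real.sqrt w) := by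
      rwa [div_le_iff₀ (by positivity)] at hf
    calc r * (c₀ * N) ≤ r * (f * (2 * Real.sqrt w)) := mul_le_mul_of_nonneg_left h1 hr
      _ = 2 * r * Real.sqrt w * f := by ring
  have hrf0 : 0 ≤ r / f := div_nonneg hr hf0.le
  -- bound of the logarithm
  have hX : Real.log (2 * Real.exp (K / 2) * N * gE N K T / f) ≤
      (|Real.log (4 * Real.exp (K / 2) / c₀)| + K / 2 + 1) * lg := by
    have hX0 : 0 < 2 * Real.exp (K / 2) * N * gE N K T / f :=
      div_pos (mul_pos (by positivity) (gE_pos _ _ _)) hf0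
    have h2 : 2 * Real.exp (K / 2) * N * gE N K T / f ≤
        4 * Real.exp (K / 2) / c₀ * Real.sqrt w * gE N K T := by
      rw [div_le_iff₀ hf0]
      have h3 : c₀ * N ≤ f * (2 * Real.sqrt w) := by
        rwa [div_le_iff₀ (by positivity)] at hf
      calc 2 * Real.exp (K / 2) * N * gE N K T
          = 2 * Real.exp (K / 2) / c₀ * gE N K T * (c₀ * N) := by field_simp
        _ ≤ 2 * Real.exp (K / 2) / c₀ * gE N K T * (f * (2 * Real.sqrt w)) := by
            refine mul_le_mul_of_nonneg_left h3 ?_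
            have := gE_pos N K T
            positivity
        _ = 4 * Real.exp (K / 2) / c₀ * Real.sqrt w * gE N K T * f := by ring
    refine (Real.log_le_log hX0 h2).trans ?_
    have g0 := gE_pos N K T
    rw [Real.log_mul (by positivity) g0.ne', Real.log_mul (by positivity) hsw.ne', log_gE, hT2]
    have h4 : (N : ℝ) * (K * (lg / N) / 2) = K / 2 * lg := by field_simp
    rw [h4]
    have h5 : Real.log (Real.sqrt w) ≤ lg := by
      have h6 : Real.sqrt w ≤ N := by
        have h7 : Real.sqrt w ≤ w := by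
          rw [Real.sqrt_le_left hw0.le]
          have : (1 : ℝ) ≤ w := by exact_mod_cast hw
          nlinarith
        linarith
      exact Real.log_le_log hsw h6
    have h8 : Real.log (4 * Real.exp (K / 2) / c₀) ≤
        |Real.log (4 * Real.exp (K / 2) / c₀)| * lg := by
      have h9 := le_abs_self (Real.log (4 * Real.exp (K / 2) / c₀))
      have h10 := abs_nonneg (Real.log (4 * Real.exp (K / 2) / c₀))
      nlinarith
    nlinarith
  have hlogX0 : 0 ≤ Real.log (2 * Real.exp (K / 2) * N * gE N K T / f) := by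
    refine Real.log_nonneg ?_
    rw [le_div_iff₀ hf0, one_mul]
    calc f ≤ 2 * Real.exp (K / 2) * N := fN_le h w N e
      _ = 2 * Real.exp (K / 2) * N * 1 := (mul_one _).symm
      _ ≤ 2 * Real.exp (K / 2) * N * gE N K T :=
        mul_le_mul_of_nonneg_left (gE_one_le N hK T) (by positivity)
  refine add_le_add ?_ ?_
  · set A := |Real.log (4 * Real.exp (K / 2) / c₀)| + K / 2 + 1 with hA
    have hA0 : 0 ≤ A := by
      have := abs_nonneg (Real.log (4 * Real.exp (K / 2) / c₀))
      rw [hA]
      linarith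
    have h1 : r / f / T ≤ 2 * r * Real.sqrt w / (c₀ * N) / T :=
      div_le_div_of_nonneg_right hrf hT0.le
    calc r / f / T * Real.log (2 * Real.exp (K / 2) * N * gE N K T / f)
        ≤ 2 * r * Real.sqrt w / (c₀ * N) / T * (A * lg) :=
          mul_le_mul h1 hX hlogX0 (by positivity)
      _ = 2 * r / c₀ * A * (Real.sqrt w * (lg / N / T)) := by ring
      _ = 2 * r / c₀ * A * Real.sqrt (w * lg / N) := by
          have h2 : lg / N / T = T := by
            rw [← hT2]
            field_simp
          rw [h2, hT, ← Real.sqrt_mul hw0.le, mul_div_assoc (w : ℝ) lg N]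
  · have h1 : (r / f) ^ 2 ≤ (2 * r * Real.sqrt w / (c₀ * N)) ^ 2 :=
      pow_le_pow_left₀ hrf0 hrf 2
    calc (N : ℝ) * (K * (r / f) ^ 2 / 2)
        ≤ N * (K * (2 * r * Real.sqrt w / (c₀ * N)) ^ 2 / 2) := by
          have : 0 ≤ K := by linarith
          gcongr
      _ = 2 * K * r ^ 2 / c₀ ^ 2 * (w / N) := by
          have : Real.sqrt w ^ 2 = w := Real.sq_sqrt hw0.le
          rw [div_pow, mul_pow, mul_pow, this]
          field_simp
      _ ≤ 2 * K * r ^ 2 / c₀ ^ 2 * (w * lg / N) := by
          have h2 : (w : ℝ) / N ≤ w * lg / N :=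
            div_le_div_of_nonneg_right (le_mul_of_one_le_right hw0.le hlg) hN0.le
          have : 0 ≤ K := by linarith
          gcongr

end Run7.h834
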