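import Pool.Agent.Run7.h834.Par

/-! Choice of the parameters: the explicit bound. -/

set_option autoImplicit false
open MeasureTheory Matrix Set Finset
open scoped ENNReal

namespace Run7.h834

variable {V : ℝ → ℝ} {K : ℝ} {w : ℕ}

theorem kz_le {w N : ℕ} (hw : 1 ≤ w) (hwN : w ≤ N) (hN : 1 ≤ Real.log N) :
    1 + (kz w : ℝ) ≤ 10 * Real.log N := by
  have hw0 : (0 : ℝ) < w := by exact_mod_cast hw
  have hN0 : (0 : ℝ) < N := by exact_mod_cast (lt_of_lt_of_le hw hwN)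
  have h1 : 2 ^ (Nat.clog 2 (48 * w) - 1) < 48 * w :=
    Nat.pow_pred_clog_lt_self (by norm_num) (by omega)
  have hpos : 1 ≤ kz w := Nat.clog_pos (by norm_num) (by omega)
  have h2 : (2 : ℝ) ^ (kz w - 1) < 48 * w := by
    unfold kz
    exact_mod_cast h1
  have h3 : ((kz w - 1 : ℕ) : ℝ) * Real.log 2 ≤ Real.log (48 * w) := by
    rw [← Real.log_pow]
    exact Real.log_le_log (by positivity) h2.le
  have l2 : (0.6931 : ℝ) ≤ Real.log 2 := by
    have := Real.log_two_gt_d9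
    linarith
  have h4 : Real.log (48 * w) ≤ 6 * Real.log 2 + Real.log N := by
    rw [Real.log_mul (by norm_num) hw0.ne']
    have e1 : Real.log 48 ≤ 6 * Real.log 2 := by
      have : (6 : ℝ) * Real.log 2 = Real.log (2 ^ 6) := by
        rw [Real.log_pow]
        norm_num
      rw [this]
      exact Real.log_le_log (by norm_num) (by norm_num)
    have e2 : Real.log w ≤ Real.log N := Real.log_le_log hw0 (by exact_mod_cast hwN)
    linarith
  have h5 : ((kz w - 1 : ℕ) : ℝ) = (kz w : ℝ) - 1 := by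
    rw [Nat.cast_sub hpos, Nat.cast_one]
  rw [h5] at h3
  have h6 : ((kz w : ℝ) - 7) * Real.log 2 ≤ Real.log N := by nlinarith
  by_cases h7 : (kz w : ℝ) ≤ 7
  · linarith
  · push Not at h7
    have h8 : ((kz w : ℝ) - 7) * 0.6931 ≤ Real.log N := by
      refine le_trans ?_ h6
      exact mul_le_mul_of_nonneg_left l2 (by linarith)
    nlinarith

theorem one_le_cD (h : NiceV V K) : 1 ≤ cD V K := by
  have hK := h.one_le
  have h1 := m2_nonneg V
  have h2 := M2_nonneg V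
  unfold cD
  have h3 : 1 ≤ 100 * K * (12 * (1 + m2 V + M2 V)) := by
    have : 1 ≤ K * (1 + m2 V + M2 V) := by nlinarith
    nlinarith
  nlinarith

/-- the size of the blocks -/
noncomputable def kU (V : ℝ → ℝ) (K e₀ B β : ℝ) (w N : ℕ) : ℝ :=
  43 * cD V K * (46080 * (1 + e₀)) ^ 2 * ((w : ℝ) ^ 4 * Real.sqrt w) * B ^ 2 * β ^ 2 *
    Real.log N ^ 3

theorem LocP.mono {e : ℝ} {m : ℕ} {θ θ' : ℝ≥0∞} (h : LocP V w e m θ) (hθ : θ ≤ θ') :
    LocP V w e m θ' := fun Q s x y => (h Q s x y).trans hθ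

theorem laplace_final (h : NiceV V K) {N : ℕ} (hw : 1 ≤ w) (hwN : w ≤ N)
    (hlg : 1 ≤ Real.log N)
    {B β e₀ τ hh : ℝ} (hB1 : 1 ≤ B) (hB : WegB V w B) (hβ1 : 1 ≤ Real.sqrt w * β)
    (hβ : WegC V w β) (he₀ : 0 ≤ e₀) (hτ : 0 ≤ τ) (hh1 : 1 ≤ hh)
    (hU : 2 * kU V K e₀ B β w N * hh ≤ N)
    {p : ℕ} {x : ℕ → ℝ} (hx : Monotone x) (ht : ∀ j, x j ≤ x 0 + τ * Real.sqrt w / N)
    (hloc : ∀ j, |x j| ≤ e₀ * Real.sqrt w) {c : ℕ → ℝ} (hc : ∀ j, 0 ≤ c j) :
    |∫ ω, Real.exp (-∑ j ∈ range p, c j * (cN w ω (x j) (x (j + 1)) 0 N : ℝ)) ∂(Pm (lawV V)) -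
      Real.exp (-∑ j ∈ range p, (1 - Real.exp (-c j)) *
        ∫ ω, (cN w ω (x j) (x (j + 1)) 0 N : ℝ) ∂(Pm (lawV V)))| ≤
      (∑ j ∈ range p, (1 + c j)) * (4 * τ / hh + 2 * (cB K).toReal / (N : ℝ) ^ 2) +
        5 * τ ^ 2 * (2 * Real.exp (K / 2) + β) * (2 * kU V K e₀ B β w N * hh / N) := by
  have := h.prob
  have hw0 : (0 : ℝ) < w := by exact_mod_cast hw
  have hw1 : (1 : ℝ) ≤ w := by exact_mod_cast hw
  have hN0 : (0 : ℝ) < N := by exact_mod_cast (lt_of_lt_of_le hw hwN)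
  have hN1 : 1 ≤ N := hw.trans hwN
  have hsw : 0 < Real.sqrt w := Real.sqrt_pos.2 hw0
  have hsw1 : 1 ≤ Real.sqrt w := Real.one_le_sqrt.2 hw1
  have hβ0 : 0 < β := by
    by_contra hcon
    push Not at hcon
    nlinarith
  set lg := Real.log N with hlgd
  set R := RR e₀ B w with hR
  have hcD := one_le_cD h
  have hkz := kz_le hw hwN hlg
  have hkz0 : (0 : ℝ) ≤ kz w := Nat.cast_nonneg _
  have hB0 : 0 < B := by linarith
  have hR0 : 0 < R := by
    rw [hR, RR]
    positivity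
  have hR1 : 1 ≤ R := by
    rw [hR, RR]
    have a1 : 1 ≤ (w : ℝ) * B := by nlinarith
    have a2 : 1 ≤ (1 + e₀) * (w * B) := by nlinarith
    have a3 : 1 ≤ (1 + e₀) * (w * B) * (1 + kz w) := by nlinarith
    nlinarith
  have hRsq : R ^ 2 ≤ (46080 * (1 + e₀)) ^ 2 * ((w : ℝ) ^ 2 * B ^ 2 * lg ^ 2) := by
    have a1 : R ≤ 46080 * (1 + e₀) * (w * B * lg) := by
      rw [hR, RR]
      have a2 : 0 ≤ 4608 * (1 + e₀) * w * B := by positivity
      calc 4608 * (1 + e₀) * w * B * (1 + kz w) ≤ 4608 * (1 + e₀) * w * B * (10 * lg) :=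
            mul_le_mul_of_nonneg_left hkz a2
        _ = _ := by ring
    calc R ^ 2 ≤ (46080 * (1 + e₀) * (w * B * lg)) ^ 2 := pow_le_pow_left₀ hR0.le a1 2
      _ = _ := by ring
  -- the localization scale
  set n0 : ℕ := ⌈12 * cD V K * R ^ 2 * lg⌉₊ with hn0
  have hn0a : 12 * cD V K * R ^ 2 * lg ≤ n0 := Nat.le_ceil _
  have hn0b : (n0 : ℝ) ≤ 12 * cD V K * R ^ 2 * lg + 1 :=
    (Nat.ceil_lt_add_one (by positivity)).le
  set m : ℕ := 3 * (n0 + 1) with hm
  have hS1 : 1 ≤ cD V K * R ^ 2 * lg := by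
    have a1 : 1 ≤ R ^ 2 := by nlinarith
    have a2 : 1 ≤ cD V K * R ^ 2 := by nlinarith
    nlinarith
  have hm1 : (m : ℝ) + 1 ≤ 43 * (cD V K * R ^ 2 * lg) := by
    rw [hm]
    push_cast
    nlinarith
  set θ : ℝ≥0∞ := (w * (4 * cW (Real.exp (K / 2)) * 2)) ^ (1 / 2 : ℝ) *
      ENNReal.ofReal (((N : ℝ) ^ 12)⁻¹) with hθ
  have hLoc : ∀ e : ℝ, |e| ≤ e₀ * Real.sqrt w → LocP V w e m θ := by
    intro e he
    refine (locP_bound h hw hB1 hB he₀ he n0).mono (mul_le_mul_right ?_ _)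
    refine ENNReal.ofReal_le_ofReal ?_
    have e1 : ((N : ℝ) ^ 12)⁻¹ = Real.exp (-(12 * lg)) := by
      rw [Real.exp_neg, hlgd]
      congr 1
      have : (12 : ℝ) * Real.log N = Real.log ((N : ℝ) ^ 12) := by
        rw [Real.log_pow]
        norm_num
      rw [this, Real.exp_log (by positivity)]
    rw [e1]
    refine Real.exp_le_exp.2 (neg_le_neg ?_)
    rw [le_div_iff₀ (by positivity)]
    nlinarith
  -- the blocks
  set z : ℝ := (m + 1) * (Real.sqrt w * β) * hh with hz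
  have hz1 : (m : ℝ) + 1 ≤ z := by
    rw [hz]
    have a1 : (0 : ℝ) ≤ m + 1 := by positivity
    have a2 : (m : ℝ) + 1 ≤ (m + 1) * (Real.sqrt w * β) := le_mul_of_one_le_right a1 hβ1
    exact a2.trans (le_mul_of_one_le_right (by linarith) hh1)
  set k : ℕ := ⌈z⌉₊ with hk
  have hka : z ≤ k := Nat.le_ceil _
  have hkb : (k : ℝ) ≤ 2 * z := by
    have a1 : (k : ℝ) ≤ z + 1 := (Nat.ceil_lt_add_one (by linarith [(Nat.cast_nonneg m : (0:ℝ) ≤ m)])).le
    have a2 : (0 : ℝ) ≤ m := Nat.cast_nonneg m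
    linarith
  have hmk : m + 1 ≤ k := by
    have : (m : ℝ) + 1 ≤ k := hz1.trans hka
    exact_mod_cast this
  set L : ℕ := k * w with hL
  have hLz : (L : ℝ) * β * w ≤ 2 * kU V K e₀ B β w N * hh := by
    rw [hL]
    push_cast
    have a1 : (k : ℝ) * w * β * w ≤ 2 * z * w * β * w := by gcongr
    refine a1.trans ?_
    have a2 : 2 * z * w * β * w = 2 * ((m + 1) * ((w : ℝ) ^ 2 * Real.sqrt w * β ^ 2)) * hh := by
      rw [hz]
      ring
    rw [a2]
    refine mul_le_mul_of_nonneg_right (mul_le_mul_of_nonneg_left ?_ (by norm_num)) (by linarith)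
    calc ((m : ℝ) + 1) * ((w : ℝ) ^ 2 * Real.sqrt w * β ^ 2)
        ≤ 43 * (cD V K * R ^ 2 * lg) * ((w : ℝ) ^ 2 * Real.sqrt w * β ^ 2) := by gcongr
      _ ≤ 43 * (cD V K * ((46080 * (1 + e₀)) ^ 2 * ((w : ℝ) ^ 2 * B ^ 2 * lg ^ 2)) * lg) *
          ((w : ℝ) ^ 2 * Real.sqrt w * β ^ 2) := by gcongr
      _ = kU V K e₀ B β w N := by
          rw [kU, ← hlgd]
          ring
  have hwβ : 1 ≤ β * w := by
    have : Real.sqrt w * Real.sqrt w = w := Real.mul_self_sqrt hw0.le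
    calc (1 : ℝ) ≤ Real.sqrt w * β := hβ1
      _ ≤ Real.sqrt w * β * Real.sqrt w := le_mul_of_one_le_right (by positivity) hsw1
      _ = β * w := by
        rw [mul_comm (Real.sqrt w) β, mul_assoc, this]
  have hLN' : (L : ℝ) ≤ N := by
    calc (L : ℝ) ≤ L * (β * w) := le_mul_of_one_le_right (Nat.cast_nonneg _) hwβ
      _ = L * β * w := by ring
      _ ≤ _ := hLz.trans hU
  have hLN : L ≤ N := by exact_mod_cast hLN'
  have hkw : w ≤ L := Nat.le_mul_of_pos_left w (by omega)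
  have hL0 : 0 < L := lt_of_lt_of_le hw hkw
  have hmwL : m * w ≤ L := Nat.mul_le_mul_right w (by omega)
  set J : ℕ := N / L - 1 with hJ
  set n : ℕ := N - J * L with hn
  have hdiv : 1 ≤ N / L := Nat.div_pos hLN hL0
  have hdm := Nat.div_add_mod N L
  have hmod := Nat.mod_lt N hL0
  have hJL : J * L + L = L * (N / L) := by
    have : N / L = J + 1 := by omega
    rw [this]
    ring
  have hJN : J * L ≤ N := by omega
  have hNJ : J * L + n = N := by omega
  have hnL : L ≤ n := by omega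
  have hn2L : n < 2 * L := by omega
  set tN : ℝ := τ * Real.sqrt w / N with htN
  have htN0 : 0 ≤ tN := by positivity
  set y : ℝ≥0∞ := ENNReal.ofReal (((N : ℝ) ^ 4)⁻¹) with hy
  -- one cut
  have hcut : ∀ i s' j : ℕ, j < J → ∫⁻ ω, ENNReal.ofReal
      (defect w ω (x i) (x (i + 1)) s' L (j * L + n)) ∂(Pm (lawV V)) ≤
      ENNReal.ofReal (4 * (m * w) * (β * tN)) + N * (2 * (cB K * y)) := by
    intro i s' j hj
    have hjn : L + (j * L + n) ≤ N := by
      have : (j + 1) * L ≤ J * L := Nat.mul_le_mul_right L hj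
      have : (j + 1) * L = j * L + L := by ring
      omega
    have c1 := cut_expect h hβ (hx (Nat.le_succ i)) (k := k) (m := m) (n := j * L + n) (s := s')
      hmk (by omega) (by omega) (b := (N : ℝ) ^ 3) (g := (N : ℝ) ^ 12)
      (θ₁ := ((N : ℝ) ^ 16)⁻¹) (by positivity) (by positivity) (by positivity) hw
      (hLoc _ (hloc i)) (hLoc _ (hloc (i + 1)))
    have hbc := betaC_bound K (w := w) (m := m) (n := j * L + n) (N := N) hw hwN (by omega)
      (by omega) (le_of_eq hθ)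
    refine c1.trans (add_le_add ?_ ?_)
    · rw [ENNReal.ofReal_mul (p := 4 * ((m : ℝ) * w)) (by positivity)]
      have e1 : ((4 * (m * w) : ℕ) : ℝ≥0∞) = ENNReal.ofReal (4 * ((m : ℝ) * w)) := by
        rw [← ENNReal.ofReal_natCast]
        push_cast
        rfl
      rw [e1]
      have e2 : x (Nat.succ i) - x i ≤ tN := by
        have := ht (i + 1)
        have := hx (Nat.zero_le i)
        simp only [Nat.succ_eq_add_one]
        linarith
      gcongr
    · gcongr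
  have hJr : (J : ℝ) * L ≤ N := by exact_mod_cast hJN
  have hJ1 : (J : ℝ) ≤ N := by
    have : (1 : ℝ) ≤ L := by exact_mod_cast hL0
    calc (J : ℝ) = J * 1 := (mul_one _).symm
      _ ≤ J * L := mul_le_mul_of_nonneg_left this (Nat.cast_nonneg _)
      _ ≤ N := hJr
  set Δ : ℝ := 4 * τ / hh + 2 * (cB K).toReal / (N : ℝ) ^ 2 with hΔ
  have hΔ0 : 0 ≤ Δ := by
    have : 0 ≤ (cB K).toReal := ENNReal.toReal_nonneg
    positivity
  have hall : ∀ i, ∫⁻ ω, ENNReal.ofReal |(cN w ω (x i) (x (i + 1)) 0 (J * L + n) : ℝ) -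
      bS w ω (x i) (x (i + 1)) 0 L n J| ∂(Pm (lawV V)) ≤ ENNReal.ofReal Δ := by
    intro i
    refine (multi_cut J 0 (hcut i)).trans ?_
    rw [mul_add, hΔ, ENNReal.ofReal_add (by positivity) (by
      have : 0 ≤ (cB K).toReal := ENNReal.toReal_nonneg
      positivity)]
    refine add_le_add ?_ ?_
    · rw [← ENNReal.ofReal_natCast J, ← ENNReal.ofReal_mul (Nat.cast_nonneg _)]
      refine ENNReal.ofReal_le_ofReal ?_
      have e1 : (J : ℝ) * (4 * (m * w) * (β * tN)) =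
          4 * τ * ((J * w) * (m * (Real.sqrt w * β))) / N := by
        rw [htN]
        ring
      rw [e1, div_le_div_iff₀ hN0 (by linarith)]
      have e2 : (m : ℝ) * (Real.sqrt w * β) * hh ≤ k := by
        refine le_trans ?_ hka
        rw [hz]
        have : 0 ≤ (Real.sqrt w * β) := by positivity
        nlinarith [mul_nonneg this (by linarith : 0 ≤ hh)]
      have e3 : (J : ℝ) * (k * w) ≤ N := by
        have : (L : ℝ) = k * w := by
          rw [hL]
          push_cast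
          ring
        rw [← this]
        exact hJr
      calc 4 * τ * ((J * w) * (m * (Real.sqrt w * β))) * hh
          = 4 * τ * ((J * w) * (m * (Real.sqrt w * β) * hh)) := by ring
        _ ≤ 4 * τ * ((J * w) * k) := by gcongr
        _ = 4 * τ * (J * (k * w)) := by ring
        _ ≤ 4 * τ * N := by gcongr
    · have e1 : (J : ℝ≥0∞) ≤ ENNReal.ofReal N := by
        rw [← ENNReal.ofReal_natCast]
        exact ENNReal.ofReal_le_ofReal hJ1
      have e2 : cB K = ENNReal.ofReal (cB K).toReal :=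
        (ENNReal.ofReal_toReal (cB_lt_top K).ne).symm
      have e3 : (N : ℝ≥0∞) = ENNReal.ofReal N := (ENNReal.ofReal_natCast N).symm
      have e4 : (2 : ℝ≥0∞) = ENNReal.ofReal 2 := by simp
      rw [e3, e4, e2, hy, ENNReal.toReal_ofReal ENNReal.toReal_nonneg,
        ← ENNReal.ofReal_mul ENNReal.toReal_nonneg,
        ← ENNReal.ofReal_mul (by norm_num), ← ENNReal.ofReal_mul hN0.le]
      refine (mul_le_mul_left e1 _).trans ?_
      rw [← ENNReal.ofReal_mul hN0.le]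
      refine ENNReal.ofReal_le_ofReal (le_of_eq ?_)
      field_simp
  have key := laplace_band h hβ0.le hβ hw hNJ hkw (hkw.trans hnL) hx htN0 ht hc hΔ0 hall (p := p)
  refine key.trans (add_le_add le_rfl ?_)
  have hn' : (n : ℝ) ≤ 2 * L := by exact_mod_cast hn2L.le
  have hsum : (J : ℝ) * (L : ℝ) ^ 2 + (n : ℝ) ^ 2 ≤ 5 * (N * L) := by
    have a1 : (J : ℝ) * (L : ℝ) ^ 2 ≤ N * L := by
      calc (J : ℝ) * (L : ℝ) ^ 2 = (J * L) * L := by ring
        _ ≤ N * L := mul_le_mul_of_nonneg_right hJr (Nat.cast_nonneg _)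
    have a2 : (n : ℝ) ^ 2 ≤ 4 * (N * L) := by
      calc (n : ℝ) ^ 2 ≤ (2 * L) ^ 2 := pow_le_pow_left₀ (Nat.cast_nonneg _) hn' 2
        _ = 4 * (L * L) := by ring
        _ ≤ 4 * (N * L) := by gcongr
    linarith
  have hβD : 0 ≤ 2 * Real.exp (K / 2) + β := by positivity
  calc ((J : ℝ) * (L : ℝ) ^ 2 + (n : ℝ) ^ 2) * (tN ^ 2 * (β * (2 * Real.exp (K / 2) + β)))
      ≤ 5 * (N * L) * (tN ^ 2 * (β * (2 * Real.exp (K / 2) + β))) := by gcongr
    _ = 5 * τ ^ 2 * (2 * Real.exp (K / 2) + β) * (L * β * w / N) := by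
        rw [htN]
        have : Real.sqrt w ^ 2 = w := Real.sq_sqrt hw0.le
        field_simp
        rw [this]
    _ ≤ 5 * τ ^ 2 * (2 * Real.exp (K / 2) + β) * (2 * kU V K e₀ B β w N * hh / N) := by
        gcongr

end Run7.h834
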