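import Pool.Agent.Run7.h834.Asym1
import Pool.Agent.Run7.h834.Par2

/-! The limit of the Laplace functional on step functions. -/

set_option autoImplicit false
open MeasureTheory Matrix Set Filter Topology
open scoped ENNReal

namespace Run7.h834

variable {V : ℝ → ℝ} {K : ℝ}

/-- the energy on the scale of the unnormalized matrix -/
noncomputable def eS (E : ℝ) (W : ℕ → ℕ) (N : ℕ) : ℝ := E * Real.sqrt (2 * W N + 1)

/-- the density on the scale of the unnormalized matrix -/
noncomputable def fS (V : ℝ → ℝ) (E : ℝ) (W : ℕ → ℕ) (N : ℕ) : ℝ := fN V (W N) N (eS E W N)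

theorem log_ge_one_eventually : ∀ᶠ N : ℕ in atTop, 1 ≤ Real.log N := by
  filter_upwards [eventually_ge_atTop 3] with N hN
  rw [Real.le_log_iff_exp_le (by positivity)]
  have h1 := Real.exp_one_lt_d9
  have h2 : (3 : ℝ) ≤ N := by exact_mod_cast hN
  linarith

theorem kappa_tendsto {W : ℕ → ℕ} (hs : Tendsto (fun N : ℕ => (W N : ℝ) * Real.log N / N)
    atTop (𝓝 0)) (C₁ C₂ : ℝ) :
    Tendsto (fun N : ℕ => C₁ * Real.sqrt ((W N : ℝ) * Real.log N / N) +
      C₂ * ((W N : ℝ) * Real.log N / N)) atTop (𝓝 0) := by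
  have h1 : Tendsto (fun N : ℕ => Real.sqrt ((W N : ℝ) * Real.log N / N)) atTop (𝓝 0) := by
    have := (Real.continuous_sqrt.tendsto 0).comp hs
    rwa [Real.sqrt_zero] at this
  have := (h1.const_mul C₁).add (hs.const_mul C₂)
  simpa using this

theorem mean_tendsto (h : NiceV V K) {W : ℕ → ℕ} (hW1 : ∀ᶠ N : ℕ in atTop, 1 ≤ W N)
    (hs : Tendsto (fun N : ℕ => (W N : ℝ) * Real.log N / N) atTop (𝓝 0))
    {E c₀ : ℝ} (hc₀ : 0 < c₀)
    (hf : ∀ᶠ N : ℕ in atTop, c₀ * N / (2 * Real.sqrt (W N)) ≤ fS V E W N)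
    {a b : ℝ} (hab : a ≤ b) :
    Tendsto (fun N : ℕ => ∫ ω, (cN (W N) ω (eS E W N + a / fS V E W N)
      (eS E W N + b / fS V E W N) 0 N : ℝ) ∂(Pm (lawV V))) atTop (𝓝 (b - a)) := by
  set r : ℝ := |a| + |b| with hr
  have hr0 : 0 ≤ r := by positivity
  have ha : -r ≤ a := by
    have := neg_abs_le a
    have := abs_nonneg b
    linarith
  have hb : b ≤ r := by
    have := le_abs_self b
    have := abs_nonneg a
    linarith
  set κ : ℕ → ℝ := fun N => 2 * r / c₀ * (|Real.log (4 * Real.exp (K / 2) / c₀)| + K / 2 + 1) *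
        Real.sqrt ((W N : ℝ) * Real.log N / N) +
      2 * K * r ^ 2 / c₀ ^ 2 * ((W N : ℝ) * Real.log N / N) with hκ
  have hκ0 : Tendsto κ atTop (𝓝 0) := kappa_tendsto hs _ _
  have lo : Tendsto (fun N => (b - a) * Real.exp (-κ N)) atTop (𝓝 (b - a)) := by
    have h1 : Tendsto (fun N => Real.exp (-κ N)) atTop (𝓝 (Real.exp (-0))) :=
      (Real.continuous_exp.tendsto _).comp hκ0.neg
    rw [neg_zero, Real.exp_zero] at h1
    simpa using h1.const_mul (b - a)
  have up : Tendsto (fun N => (b - a) * Real.exp (κ N)) atTop (𝓝 (b - a)) := by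
    have h1 : Tendsto (fun N => Real.exp (κ N)) atTop (𝓝 (Real.exp 0)) :=
      (Real.continuous_exp.tendsto _).comp hκ0
    rw [Real.exp_zero] at h1
    simpa using h1.const_mul (b - a)
  have hε : 0 < min 1 (c₀ ^ 2 / (4 * r ^ 2 + 1)) := by positivity
  have hev : ∀ᶠ N : ℕ in atTop, (b - a) * Real.exp (-κ N) ≤
      ∫ ω, (cN (W N) ω (eS E W N + a / fS V E W N)
      (eS E W N + b / fS V E W N) 0 N : ℝ) ∂(Pm (lawV V)) ∧
      ∫ ω, (cN (W N) ω (eS E W N + a / fS V E W N)
      (eS E W N + b / fS V E W N) 0 N : ℝ) ∂(Pm (lawV V)) ≤ (b - a) * Real.exp (κ N) := by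
    filter_upwards [hW1, hf, log_ge_one_eventually, hs.eventually (gt_mem_nhds hε),
      eventually_ge_atTop 1] with N hw hfN hlg hsN hN1
    have hw0 : (0 : ℝ) < W N := by exact_mod_cast hw
    have hN0 : (0 : ℝ) < N := by exact_mod_cast hN1
    have hfp : 0 < fS V E W N := lt_of_lt_of_le (by positivity) hfN
    have hs1 : (W N : ℝ) * Real.log N / N < 1 := hsN.trans_le (min_le_left _ _)
    have hs2 : (W N : ℝ) * Real.log N / N < c₀ ^ 2 / (4 * r ^ 2 + 1) :=
      hsN.trans_le (min_le_right _ _)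
    have hwN : W N ≤ N := by
      rw [div_lt_one hN0] at hs1
      have : (W N : ℝ) ≤ N := by nlinarith
      exact_mod_cast this
    have hT0 : 0 < Real.sqrt (Real.log N / N) := Real.sqrt_pos.2 (by positivity)
    have hrT : r / fS V E W N ≤ Real.sqrt (Real.log N / N) := by
      have h1 : r / fS V E W N ≤ 2 * r * Real.sqrt (W N) / (c₀ * N) := by
        rw [div_le_div_iff₀ hfp (by positivity)]
        have h2 : c₀ * N ≤ fS V E W N * (2 * Real.sqrt (W N)) := by
          rwa [div_le_iff₀ (by positivity)] at hfN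
        calc r * (c₀ * N) ≤ r * (fS V E W N * (2 * Real.sqrt (W N))) :=
              mul_le_mul_of_nonneg_left h2 hr0
          _ = 2 * r * Real.sqrt (W N) * fS V E W N := by ring
      refine h1.trans (Real.le_sqrt_of_sq_le ?_)
      have h3 : (2 * r * Real.sqrt (W N) / (c₀ * N)) ^ 2 =
          4 * r ^ 2 * W N / (c₀ ^ 2 * N ^ 2) := by
        rw [div_pow, mul_pow, mul_pow, Real.sq_sqrt hw0.le]
        ring
      rw [h3, div_le_div_iff₀ (by positivity) hN0]
      rw [div_lt_div_iff₀ hN0 (by positivity)] at hs2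
      have h4 : (W N : ℝ) ≤ W N * Real.log N := le_mul_of_one_le_right hw0.le hlg
      have h5 : 4 * r ^ 2 * (W N : ℝ) ≤ c₀ ^ 2 * N := by
        nlinarith [mul_nonneg (sq_nonneg r) (sub_nonneg.2 h4)]
      calc 4 * r ^ 2 * (W N : ℝ) * N ≤ c₀ ^ 2 * N * N :=
            mul_le_mul_of_nonneg_right h5 hN0.le
        _ ≤ Real.log N * (c₀ ^ 2 * N * N) := le_mul_of_one_le_left (by positivity) hlg
        _ = Real.log N * (c₀ ^ 2 * (N : ℝ) ^ 2) := by ring
    exact mean_flat h (W N) N hfp hT0 hr0 hrT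
      (kappa_bound h hw hwN hlg hc₀ hr0 hfN) ha hab hb
  exact tendsto_of_tendsto_of_tendsto_of_le_of_le' lo up (hev.mono fun N hN => hN.1)
    (hev.mono fun N hN => hN.2)

/-- the regime: Wegner constants `B`, `β` and the growth condition on the bandwidth -/
structure Reg (V : ℝ → ℝ) (W : ℕ → ℕ) (B β : ℕ → ℝ) (hh : ℕ → ℝ) (Cβ : ℝ) : Prop where
  w1 : ∀ᶠ N : ℕ in atTop, 1 ≤ W N
  B1 : ∀ w, 1 ≤ w → 1 ≤ B w
  hB : ∀ w, 1 ≤ w → WegB V w (B w)
  β1 : ∀ w : ℕ, 1 ≤ w → 1 ≤ Real.sqrt w * β w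
  hβ : ∀ w, 1 ≤ w → WegC V w (β w)
  βC : ∀ w, 1 ≤ w → β w ≤ Cβ
  h1 : ∀ N, 1 ≤ hh N
  hT : Tendsto hh atTop atTop
  hU : Tendsto (fun N : ℕ => (W N : ℝ) ^ 4 * Real.sqrt (W N) * B (W N) ^ 2 * β (W N) ^ 2 *
    Real.log N ^ 3 * hh N / N) atTop (𝓝 0)

theorem Reg.small {W : ℕ → ℕ} {B β hh : ℕ → ℝ} {Cβ : ℝ} (hR : Reg V W B β hh Cβ) :
    Tendsto (fun N : ℕ => (W N : ℝ) * Real.log N / N) atTop (𝓝 0) := by
  refine tendsto_of_tendsto_of_tendsto_of_le_of_le' tendsto_const_nhds hR.hU ?_ ?_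
  · filter_upwards [log_ge_one_eventually] with N hlg
    positivity
  · filter_upwards [log_ge_one_eventually, hR.w1, eventually_ge_atTop 1] with N hlg hw hN1
    have hN0 : (0 : ℝ) < N := by exact_mod_cast hN1
    have hw1 : (1 : ℝ) ≤ W N := by exact_mod_cast hw
    refine div_le_div_of_nonneg_right ?_ hN0.le
    have b1 := hR.B1 _ hw
    have b2 := hR.β1 _ hw
    have b3 := hR.h1 N
    have s0 : 0 < Real.sqrt (W N) := Real.sqrt_pos.2 (by linarith)
    have ss : Real.sqrt (W N) * Real.sqrt (W N) = W N := Real.mul_self_sqrt (by linarith)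
    have lg0 : 0 < Real.log N := by linarith
    have s1 : 1 ≤ Real.sqrt (W N) := Real.one_le_sqrt.2 hw1
    have e1 : (W N : ℝ) ^ 4 * Real.sqrt (W N) * B (W N) ^ 2 * β (W N) ^ 2 * Real.log N ^ 3 * hh N =
        (W N : ℝ) * Real.log N * ((W N : ℝ) ^ 2 * Real.sqrt (W N) * (B (W N) ^ 2 *
          ((Real.sqrt (W N) * β (W N)) ^ 2 * (Real.log N ^ 2 * hh N)))) := by
      rw [mul_pow (Real.sqrt _), sq (Real.sqrt _), ss]
      ring
    rw [e1]
    refine le_mul_of_one_le_right (by positivity) ?_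
    have c1 : 1 ≤ (W N : ℝ) ^ 2 := one_le_pow₀ hw1
    have c2 : 1 ≤ B (W N) ^ 2 := one_le_pow₀ b1
    have c3 : 1 ≤ (Real.sqrt (W N) * β (W N)) ^ 2 := one_le_pow₀ b2
    have c4 : 1 ≤ Real.log N ^ 2 := one_le_pow₀ hlg
    have d1 : 1 ≤ Real.log N ^ 2 * hh N := one_le_mul_of_one_le_of_one_le c4 b3
    have d2 := one_le_mul_of_one_le_of_one_le c3 d1
    have d3 := one_le_mul_of_one_le_of_one_le c2 d2
    have d4 := one_le_mul_of_one_le_of_one_le c1 s1
    exact one_le_mul_of_one_le_of_one_le d4 d3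

theorem step_tendsto (h : NiceV V K) {W : ℕ → ℕ} {B β hh : ℕ → ℝ} {Cβ : ℝ}
    (hR : Reg V W B β hh Cβ) {E c₀ : ℝ} (hc₀ : 0 < c₀)
    (hf : ∀ᶠ N : ℕ in atTop, c₀ * N / (2 * Real.sqrt (W N)) ≤ fS V E W N)
    (p : ℕ) {x : ℕ → ℝ} (hx : Monotone x) {r : ℝ} (hr : ∀ j, |x j| ≤ r)
    {c : ℕ → ℝ} (hc : ∀ j, 0 ≤ c j) :
    Tendsto (fun N : ℕ => ∫ ω, Real.exp (-∑ j ∈ Finset.range p, c j *
      (cN (W N) ω (eS E W N + x j / fS V E W N) (eS E W N + x (j + 1) / fS V E W N) 0 N : ℝ))
      ∂(Pm (lawV V))) atTop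
      (𝓝 (Real.exp (-∑ j ∈ Finset.range p, (1 - Real.exp (-c j)) * (x (j + 1) - x j)))) := by
  have hr0 : 0 ≤ r := (abs_nonneg _).trans (hr 0)
  have hs := hR.small
  have hmean : ∀ j, Tendsto (fun N : ℕ => ∫ ω, (cN (W N) ω (eS E W N + x j / fS V E W N)
      (eS E W N + x (j + 1) / fS V E W N) 0 N : ℝ) ∂(Pm (lawV V))) atTop
      (𝓝 (x (j + 1) - x j)) := fun j =>
    mean_tendsto h hR.w1 hs hc₀ hf (hx (Nat.le_succ j))
  have hlim : Tendsto (fun N : ℕ => Real.exp (-∑ j ∈ Finset.range p, (1 - Real.exp (-c j)) *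
      ∫ ω, (cN (W N) ω (eS E W N + x j / fS V E W N)
      (eS E W N + x (j + 1) / fS V E W N) 0 N : ℝ) ∂(Pm (lawV V)))) atTop
      (𝓝 (Real.exp (-∑ j ∈ Finset.range p, (1 - Real.exp (-c j)) * (x (j + 1) - x j)))) :=
    (Real.continuous_exp.tendsto _).comp
      (tendsto_finset_sum _ fun j _ => (hmean j).const_mul _).neg
  -- the error
  set e₀ : ℝ := 2 * |E| + 1 with he₀
  set τ : ℝ := 4 * r / c₀ with hτ
  set U : ℕ → ℝ := fun N => 2 * kU V K e₀ (B (W N)) (β (W N)) (W N) N * hh N / N with hUd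
  have hU0 : Tendsto U atTop (𝓝 0) := by
    have := hR.hU.const_mul (2 * (43 * cD V K * (46080 * (1 + e₀)) ^ 2))
    rw [mul_zero] at this
    refine this.congr fun N => ?_
    simp only [hUd, kU]
    ring
  set err : ℕ → ℝ := fun N => (∑ j ∈ Finset.range p, (1 + c j)) *
      (4 * τ / hh N + 2 * (cB K).toReal / (N : ℝ) ^ 2) +
        5 * τ ^ 2 * (2 * Real.exp (K / 2) + Cβ) * U N with herr
  have herr0 : Tendsto err atTop (𝓝 0) := by
    have h1 : Tendsto (fun N => 4 * τ / hh N) atTop (𝓝 0) := hR.hT.const_div_atTop _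
    have h2 : Tendsto (fun N : ℕ => 2 * (cB K).toReal / (N : ℝ) ^ 2) atTop (𝓝 0) := by
      have : Tendsto (fun N : ℕ => (N : ℝ) ^ 2) atTop atTop :=
        (tendsto_pow_atTop (by norm_num)).comp tendsto_natCast_atTop_atTop
      exact this.const_div_atTop _
    have := ((h1.add h2).const_mul (∑ j ∈ Finset.range p, (1 + c j))).add
      (hU0.const_mul (5 * τ ^ 2 * (2 * Real.exp (K / 2) + Cβ)))
    simpa using this
  have hdiff : Tendsto (fun N : ℕ => ∫ ω, Real.exp (-∑ j ∈ Finset.range p, c j *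
      (cN (W N) ω (eS E W N + x j / fS V E W N) (eS E W N + x (j + 1) / fS V E W N) 0 N : ℝ))
      ∂(Pm (lawV V)) - Real.exp (-∑ j ∈ Finset.range p, (1 - Real.exp (-c j)) *
      ∫ ω, (cN (W N) ω (eS E W N + x j / fS V E W N)
      (eS E W N + x (j + 1) / fS V E W N) 0 N : ℝ) ∂(Pm (lawV V)))) atTop (𝓝 0) := by
    refine squeeze_zero_norm' ?_ herr0
    filter_upwards [hR.w1, hf, log_ge_one_eventually, hs.eventually (gt_mem_nhds one_pos),
      hU0.eventually (gt_mem_nhds one_pos), eventually_ge_atTop 1,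
      tendsto_natCast_atTop_atTop.eventually (eventually_ge_atTop (2 * r / c₀))]
      with N hw hfN hlg hsN hUN hN1 hNr
    rw [Real.norm_eq_abs]
    have hw0 : (0 : ℝ) < W N := by exact_mod_cast hw
    have hw1 : (1 : ℝ) ≤ W N := by exact_mod_cast hw
    have hN0 : (0 : ℝ) < N := by exact_mod_cast hN1
    have hsw : 0 < Real.sqrt (W N) := Real.sqrt_pos.2 hw0
    have hfp : 0 < fS V E W N := lt_of_lt_of_le (by positivity) hfN
    have hwN : W N ≤ N := by
      rw [div_lt_one hN0] at hsN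
      have : (W N : ℝ) ≤ N := by nlinarith
      exact_mod_cast this
    have hinv : 1 / fS V E W N ≤ 2 * Real.sqrt (W N) / (c₀ * N) := by
      rw [div_le_div_iff₀ hfp (by positivity)]
      have h2 : c₀ * N ≤ fS V E W N * (2 * Real.sqrt (W N)) := by
        rwa [div_le_iff₀ (by positivity)] at hfN
      linarith
    have hinv0 : 0 < 1 / fS V E W N := by positivity
    have hxr : ∀ j, |x j / fS V E W N| ≤ Real.sqrt (W N) := by
      intro j
      rw [abs_div, abs_of_pos hfp, div_eq_mul_one_div]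
      calc |x j| * (1 / fS V E W N) ≤ r * (2 * Real.sqrt (W N) / (c₀ * N)) :=
            mul_le_mul (hr j) hinv hinv0.le hr0
        _ = Real.sqrt (W N) * ((2 * r / c₀) / N) := by
            field_simp
        _ ≤ Real.sqrt (W N) * 1 := by
            refine mul_le_mul_of_nonneg_left ?_ hsw.le
            rw [div_le_one hN0]
            exact hNr
        _ = Real.sqrt (W N) := mul_one _
    have hs2 : Real.sqrt (2 * W N + 1) ≤ 2 * Real.sqrt (W N) := by
      rw [show (2 : ℝ) * Real.sqrt (W N) = Real.sqrt (4 * W N) by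
        rw [Real.sqrt_mul (by norm_num)]
        congr 1
        rw [show (4 : ℝ) = 2 ^ 2 by norm_num]
        exact (Real.sqrt_sq (by norm_num)).symm]
      exact Real.sqrt_le_sqrt (by linarith)
    set xx : ℕ → ℝ := fun j => eS E W N + x j / fS V E W N with hxx
    have key := laplace_final h (N := N) (p := p) hw hwN hlg (hR.B1 _ hw) (hR.hB _ hw)
      (hR.β1 _ hw) (hR.hβ _ hw) (e₀ := e₀) (τ := τ) (hh := hh N) (by positivity) (by positivity)
      (hR.h1 N) ?_ (x := xx) ?_ ?_ ?_ hc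
    · refine key.trans ?_
      simp only [herr, hUd]
      have hUnn : 0 ≤ 2 * kU V K e₀ (B (W N)) (β (W N)) (W N) N * hh N / N := by
        have h5 := one_le_cD h
        have h6 := hR.h1 N
        unfold kU
        positivity
      gcongr
      exact hR.βC _ hw
    · have : U N < 1 := hUN
      simp only [hUd] at this
      rw [div_lt_one hN0] at this
      exact this.le
    · intro i j hij
      simp only [hxx]
      have : x i / fS V E W N ≤ x j / fS V E W N := div_le_div_of_nonneg_right (hx hij) hfp.le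
      linarith
    · intro j
      simp only [hxx]
      have h7 : x j / fS V E W N - x 0 / fS V E W N ≤ τ * Real.sqrt (W N) / N := by
        rw [← sub_div, div_eq_mul_one_div]
        have h8 : x j - x 0 ≤ 2 * r := by
          have h9 := (abs_le.1 (hr j)).2
          have h10 := (abs_le.1 (hr 0)).1
          linarith
        calc (x j - x 0) * (1 / fS V E W N) ≤ (2 * r) * (1 / fS V E W N) :=
              mul_le_mul_of_nonneg_right h8 hinv0.le
          _ ≤ (2 * r) * (2 * Real.sqrt (W N) / (c₀ * N)) :=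
              mul_le_mul_of_nonneg_left hinv (by linarith)
          _ = τ * Real.sqrt (W N) / N := by
              rw [hτ]
              field_simp
              ring
      linarith
    · intro j
      simp only [hxx]
      refine (abs_add_le _ _).trans ?_
      have h11 : |eS E W N| ≤ 2 * |E| * Real.sqrt (W N) := by
        unfold eS
        rw [abs_mul, abs_of_nonneg (Real.sqrt_nonneg _)]
        calc |E| * Real.sqrt (2 * W N + 1) ≤ |E| * (2 * Real.sqrt (W N)) :=
              mul_le_mul_of_nonneg_left hs2 (abs_nonneg _)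
          _ = _ := by ring
      have h12 := hxr j
      rw [he₀]
      linarith
  have := hdiff.add hlim
  simpa using this

end Run7.h834
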