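import Pool.Agent.Run7.h834.Dens

/-! The Schur complement chain of a band matrix. -/

set_option autoImplicit false
open MeasureTheory Matrix
open scoped ENNReal

namespace Run7.h834

/-- square arrays of reals -/
abbrev Arr (w : ℕ) : Type := Fin w × Fin w → ℝ

variable {w : ℕ}

/-- symmetric matrix built from the upper triangle of an array -/
def symM (a : Arr w) : Matrix (Fin w) (Fin w) ℝ := Matrix.of fun i j => a (min i j, max i j)

/-- lower triangular matrix built from an array -/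
def lowM (b : Arr w) : Matrix (Fin w) (Fin w) ℝ := Matrix.of fun i j => if j ≤ i then b (i, j) else 0

/-- scalar array -/
def eyeA (e : ℝ) : Arr w := fun p => if p.1 = p.2 then e else 0

theorem symM_isHermitian (a : Arr w) : (symM a).IsHermitian := by
  ext i j
  simp [symM, min_comm, max_comm]

theorem symM_transpose (a : Arr w) : (symM a)ᵀ = symM a := by
  ext i j
  simp [symM, min_comm, max_comm]

theorem symM_smul (c : ℝ) (a : Arr w) : symM (c • a) = c • symM a := by
  ext i j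
  simp [symM]

theorem symM_add (a b : Arr w) : symM (a + b) = symM a + symM b := by
  ext i j
  simp [symM]

theorem symM_sub (a b : Arr w) : symM (a - b) = symM a - symM b := by
  ext i j
  simp [symM]

theorem symM_eye (e : ℝ) : symM (eyeA e : Arr w) = e • (1 : Matrix (Fin w) (Fin w) ℝ) := by
  ext i j
  simp only [symM, eyeA, Matrix.of_apply, Matrix.smul_apply, Matrix.one_apply, smul_eq_mul]
  by_cases h : i = j
  · subst h
    simp
  · have : min i j ≠ max i j := by
      intro h'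
      rcases le_total i j with hij | hij
      · rw [min_eq_left hij, max_eq_right hij] at h'
        exact h h'
      · rw [min_eq_right hij, max_eq_left hij] at h'
        exact h h'.symm
    simp [h, this]

theorem symM_of_symm (M : Matrix (Fin w) (Fin w) ℝ) (h : Mᵀ = M) :
    symM (fun p => M p.1 p.2) = M := by
  ext i j
  simp only [symM, Matrix.of_apply]
  rcases le_total i j with hij | hij
  · rw [min_eq_left hij, max_eq_right hij]
  · rw [min_eq_right hij, max_eq_left hij, ← h, Matrix.transpose_apply, h]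

/-- the block `A - e - Q` -/
def SM (e : ℝ) (Q a : Arr w) : Matrix (Fin w) (Fin w) ℝ := symM (a - (eyeA e + Q))

theorem SM_eq (e : ℝ) (Q a : Arr w) :
    SM e Q a = symM a - e • (1 : Matrix (Fin w) (Fin w) ℝ) - symM Q := by
  unfold SM
  rw [symM_sub, symM_add, symM_eye, sub_sub]

/-- the next self-energy `Bᵀ S⁻¹ B` -/
noncomputable def nextM (e : ℝ) (Q a b : Arr w) : Matrix (Fin w) (Fin w) ℝ :=
  (lowM b)ᵀ * (SM e Q a)⁻¹ * lowM b

/-- the same as an array -/
noncomputable def nextQ (e : ℝ) (Q a b : Arr w) : Arr w := fun p => nextM e Q a b p.1 p.2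

theorem nextM_transpose (e : ℝ) (Q a b : Arr w) : (nextM e Q a b)ᵀ = nextM e Q a b := by
  unfold nextM
  rw [Matrix.transpose_mul, Matrix.transpose_mul, Matrix.transpose_transpose,
    Matrix.transpose_nonsing_inv]
  unfold SM
  rw [symM_transpose, Matrix.mul_assoc]

theorem symM_nextQ (e : ℝ) (Q a b : Arr w) : symM (nextQ e Q a b) = nextM e Q a b :=
  symM_of_symm _ (nextM_transpose e Q a b)

/-- one step of the cocycle, acting on row vectors -/
noncomputable def stepT (e : ℝ) (Q a b : Arr w) (u : Fin w → ℝ) : Fin w → ℝ :=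
  u ᵥ* ((SM e Q a)⁻¹ * lowM b)

theorem inv_smul_pos {ι : Type*} [Fintype ι] [DecidableEq ι] {c : ℝ} (hc : c ≠ 0)
    (A : Matrix ι ι ℝ) : (c • A)⁻¹ = c⁻¹ • A⁻¹ := by
  by_cases h : IsUnit A.det
  · have : Invertible c := invertibleOfNonzero hc
    rw [Matrix.inv_smul A c h, invOf_eq_inv]
  · rw [Matrix.nonsing_inv_apply_not_isUnit A h, smul_zero]
    have h2 : ¬ IsUnit (c • A).det := by
      rw [Matrix.det_smul]
      intro h3
      exact h ((IsUnit.mul_iff.1 h3).2)
    exact Matrix.nonsing_inv_apply_not_isUnit _ h2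

section scaling

variable (e : ℝ) (Q : Arr w)

theorem SM_homo (s : ℝ) (a : Arr w) : SM e Q (homo s (eyeA e + Q) a) = s • SM e Q a := by
  unfold SM homo
  rw [← symM_smul]
  congr 1
  funext p
  simp only [Pi.sub_apply, Pi.add_apply, Pi.smul_apply, smul_eq_mul]
  ring

theorem nextQ_homo {s : ℝ} (hs : s ≠ 0) (a b : Arr w) :
    nextQ e Q (homo s (eyeA e + Q) a) b = s⁻¹ • nextQ e Q a b := by
  funext p
  simp only [nextQ, nextM, Pi.smul_apply, smul_eq_mul]
  rw [SM_homo, inv_smul_pos hs, Matrix.mul_smul, Matrix.smul_mul, Matrix.smul_apply, smul_eq_mul]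

theorem stepT_homo {s : ℝ} (hs : s ≠ 0) (a b : Arr w) (u : Fin w → ℝ) :
    stepT e Q (homo s (eyeA e + Q) a) b u = s⁻¹ • stepT e Q a b u := by
  unfold stepT
  rw [SM_homo, inv_smul_pos hs, Matrix.smul_mul, Matrix.vecMul_smul]

theorem stepT_smul (a b : Arr w) (c : ℝ) (u : Fin w → ℝ) :
    stepT e Q a b (c • u) = c • stepT e Q a b u := by
  unfold stepT
  rw [Matrix.smul_vecMul]

theorem SM_shift (a Y : Arr w) (c : ℝ) : SM e (c • Y) (a + (c - 1) • Y) = SM e Y a := by
  unfold SM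
  congr 1
  funext p
  simp only [Pi.sub_apply, Pi.add_apply, Pi.smul_apply, smul_eq_mul]
  ring

end scaling

/-! ### Groups of three blocks -/

/-- the variables of a group of three blocks -/
abbrev Grp (w : ℕ) : Type := (Arr w × Arr w) × (Arr w × Arr w) × (Arr w × Arr w)

/-- the state after a group -/
noncomputable def zetaG (e : ℝ) (Q : Arr w) (g : Grp w) : Arr w :=
  nextQ e (nextQ e (nextQ e Q g.1.1 g.1.2) g.2.1.1 g.2.1.2) g.2.2.1 g.2.2.2

/-- the cocycle of a group -/
noncomputable def transG (e : ℝ) (Q : Arr w) (g : Grp w) (u : Fin w → ℝ) : Fin w → ℝ :=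
  stepT e (nextQ e (nextQ e Q g.1.1 g.1.2) g.2.1.1 g.2.1.2) g.2.2.1 g.2.2.2
    (stepT e (nextQ e Q g.1.1 g.1.2) g.2.1.1 g.2.1.2 (stepT e Q g.1.1 g.1.2 u))

/-- the scaling of a group by `s` -/
noncomputable def tauG (e s : ℝ) (Q : Arr w) (g : Grp w) : Grp w :=
  let Q1 := nextQ e Q g.1.1 g.1.2
  let Y := nextQ e Q1 g.2.1.1 g.2.1.2
  (g.1, (homo s (eyeA e + Q1) g.2.1.1, g.2.1.2), (g.2.2.1 + (s⁻¹ - 1) • Y, g.2.2.2))

/-- the density of the scaling -/
noncomputable def ratG (V : ℝ → ℝ) (e s : ℝ) (Q : Arr w) (g : Grp w) : ℝ :=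
  let Q1 := nextQ e Q g.1.1 g.1.2
  let Y := nextQ e Q1 g.2.1.1 g.2.1.2
  (s ^ Fintype.card (Fin w × Fin w) * ratV V g.2.1.1 (homo s (eyeA e + Q1) g.2.1.1)) *
    ratV V g.2.2.1 (g.2.2.1 + (s⁻¹ - 1) • Y)

theorem zetaG_tauG (e : ℝ) {s : ℝ} (hs : s ≠ 0) (Q : Arr w) (g : Grp w) :
    zetaG e Q (tauG e s Q g) = zetaG e Q g := by
  simp only [zetaG, tauG]
  rw [nextQ_homo e _ hs]
  have h : ∀ (Y a b : Arr w), nextQ e (s⁻¹ • Y) (a + (s⁻¹ - 1) • Y) b = nextQ e Y a b := by
    intro Y a b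
    unfold nextQ nextM
    rw [SM_shift]
  rw [h]

theorem transG_tauG (e : ℝ) {s : ℝ} (hs : s ≠ 0) (Q : Arr w) (g : Grp w) (u : Fin w → ℝ) :
    transG e Q (tauG e s Q g) u = s⁻¹ • transG e Q g u := by
  simp only [transG, tauG]
  rw [nextQ_homo e _ hs, stepT_homo e _ hs]
  have h : ∀ (Y a b : Arr w) (u : Fin w → ℝ),
      stepT e (s⁻¹ • Y) (a + (s⁻¹ - 1) • Y) b u = stepT e Y a b u := by
    intro Y a b u
    unfold stepT
    rw [SM_shift]
  rw [h, stepT_smul]

theorem transG_smul (e : ℝ) (Q : Arr w) (g : Grp w) (c : ℝ) (u : Fin w → ℝ) :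
    transG e Q g (c • u) = c • transG e Q g u := by
  simp only [transG, stepT_smul]

/-- composition of scalings -/
theorem tauG_tauG (e : ℝ) {s t : ℝ} (hs : s ≠ 0) (ht : t ≠ 0) (Q : Arr w) (g : Grp w) :
    tauG e t Q (tauG e s Q g) = tauG e (t * s) Q g := by
  have hh : ∀ c a : Arr w, homo t c (homo s c a) = homo (t * s) c a := by
    intro c a
    funext p
    simp only [homo, Pi.add_apply, Pi.smul_apply, smul_eq_mul]
    ring
  simp only [tauG]
  rw [nextQ_homo e _ hs, hh]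
  congr 3
  funext p
  simp only [Pi.add_apply, Pi.smul_apply, smul_eq_mul]
  field_simp
  ring

theorem ratV_mul (V : ℝ → ℝ) {ι : Type*} [Fintype ι] (a b c : ι → ℝ) :
    ratV V a b * ratV V b c = ratV V a c := by
  unfold ratV
  rw [← Real.exp_add, ← Finset.sum_add_distrib]
  congr 1
  exact Finset.sum_congr rfl fun i _ => by ring

/-- cocycle property of the densities -/
theorem ratG_tauG (V : ℝ → ℝ) (e : ℝ) {s t : ℝ} (hs : s ≠ 0) (ht : t ≠ 0) (Q : Arr w)
    (g : Grp w) : ratG V e (t * s) Q g = ratG V e s Q g * ratG V e t Q (tauG e s Q g) := by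
  have h1 := tauG_tauG e hs ht Q g
  have h2 := congrArg (fun p : Grp w => p.2.1.1) h1
  have h3 := congrArg (fun p : Grp w => p.2.2.1) h1
  simp only [tauG] at h2 h3
  simp only [ratG, tauG]
  rw [h2, h3, ← ratV_mul V _ (homo s (eyeA e + nextQ e Q g.1.1 g.1.2) g.2.1.1) _,
    ← ratV_mul V g.2.2.1 (g.2.2.1 + (s⁻¹ - 1) • nextQ e (nextQ e Q g.1.1 g.1.2) g.2.1.1 g.2.1.2) _,
    mul_pow]
  ring

theorem ratG_nonneg (V : ℝ → ℝ) (e : ℝ) {s : ℝ} (hs : 0 ≤ s) (Q : Arr w) (g : Grp w) :
    0 ≤ ratG V e s Q g := by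
  unfold ratG ratV
  positivity

end Run7.h834
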