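import Pool.Agent.Run7.h834.Frac2

/-! Cutting the band matrix: the deterministic part. -/

set_option autoImplicit false
open MeasureTheory Matrix
open scoped ENNReal

namespace Run7.h834

variable {w : ℕ}

theorem qE_sub_le (Q Q' : Arr w) {η : ℝ} (hη : 0 ≤ η)
    (h : ∀ i j, |symM Q i j - symM Q' i j| ≤ η) (i j : ℕ) :
    |qE Q i j - qE Q' i j| ≤ if i < w ∧ j < w then η else 0 := by
  unfold qE
  by_cases hij : i < w ∧ j < w
  · rw [dif_pos hij, dif_pos hij, if_pos hij]
    exact h _ _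
  · rw [dif_neg hij, dif_neg hij, if_neg hij]
    simp

theorem quad_close (w : ℕ) (ω : Om) (e : ℝ) (Q Q' : Arr w) (s n : ℕ) {η : ℝ} (hη : 0 ≤ η)
    (h : ∀ i j, |symM Q i j - symM Q' i j| ≤ η) (x : Fin n → ℝ) :
    |x ⬝ᵥ ((kM w ω e Q' s n - kM w ω e Q s n) *ᵥ x)| ≤ (w * η) * (x ⬝ᵥ x) := by
  set Δ : Fin n → Fin n → ℝ := fun i j => qE Q i j - qE Q' i j with hΔ
  have e1 : x ⬝ᵥ ((kM w ω e Q' s n - kM w ω e Q s n) *ᵥ x) =
      ∑ i, ∑ j, x i * (Δ i j * x j) := by
    simp only [dotProduct, Matrix.mulVec, Matrix.sub_apply, kM, Matrix.of_apply, Finset.mul_sum]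
    refine Finset.sum_congr rfl fun i _ => Finset.sum_congr rfl fun j _ => ?_
    simp only [hΔ]
    ring
  have hb : ∀ i j : Fin n, |Δ i j| ≤ if (i : ℕ) < w ∧ (j : ℕ) < w then η else 0 := fun i j =>
    qE_sub_le Q Q' hη h i j
  have hcard : ∀ i : Fin n, ∑ j : Fin n, |Δ i j| ≤ w * η := by
    intro i
    calc ∑ j : Fin n, |Δ i j| ≤ ∑ j : Fin n, if (j : ℕ) < w then η else 0 := by
          refine Finset.sum_le_sum fun j _ => (hb i j).trans ?_
          by_cases hj : (j : ℕ) < w
          · rw [if_pos hj]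
            split_ifs
            · exact le_rfl
            · exact hη
          · rw [if_neg (fun hh => hj hh.2), if_neg hj]
      _ = ((Finset.univ.filter fun j : Fin n => (j : ℕ) < w).card : ℝ) * η := by
          rw [← Finset.sum_filter, Finset.sum_const, nsmul_eq_mul]
      _ ≤ w * η := by
          refine mul_le_mul_of_nonneg_right ?_ hη
          have : (Finset.univ.filter fun j : Fin n => (j : ℕ) < w).card ≤ w := by
            have h1 : ((Finset.univ.filter fun j : Fin n => (j : ℕ) < w).image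
                (fun j : Fin n => (j : ℕ))) ⊆ Finset.range w := by
              intro a ha
              simp only [Finset.mem_image, Finset.mem_filter, Finset.mem_univ, true_and] at ha
              obtain ⟨j, hj, rfl⟩ := ha
              exact Finset.mem_range.2 hj
            have h2 := Finset.card_le_card h1
            rw [Finset.card_image_of_injective _ Fin.val_injective, Finset.card_range] at h2
            exact h2
          exact_mod_cast this
  have hsym : ∀ i j : Fin n, |Δ i j| = |Δ j i| := by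
    intro i j
    simp only [hΔ]
    rw [qE_comm Q, qE_comm Q']
  rw [e1]
  calc |∑ i, ∑ j, x i * (Δ i j * x j)| ≤ ∑ i, ∑ j, |x i * (Δ i j * x j)| :=
        (Finset.abs_sum_le_sum_abs _ _).trans (Finset.sum_le_sum fun i _ =>
          Finset.abs_sum_le_sum_abs _ _)
    _ ≤ ∑ i, ∑ j, (|Δ i j| * (x i) ^ 2 / 2 + |Δ i j| * (x j) ^ 2 / 2) := by
        refine Finset.sum_le_sum fun i _ => Finset.sum_le_sum fun j _ => ?_
        rw [abs_mul, abs_mul]
        have h1 : |x i| * |x j| ≤ (x i) ^ 2 / 2 + (x j) ^ 2 / 2 := by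
          rw [← sq_abs (x i), ← sq_abs (x j)]
          nlinarith [sq_nonneg (|x i| - |x j|)]
        calc |x i| * (|Δ i j| * |x j|) = |Δ i j| * (|x i| * |x j|) := by ring
          _ ≤ |Δ i j| * ((x i) ^ 2 / 2 + (x j) ^ 2 / 2) :=
              mul_le_mul_of_nonneg_left h1 (abs_nonneg _)
          _ = _ := by ring
    _ = ∑ i, (∑ j, |Δ i j|) * (x i) ^ 2 := by
        simp_rw [Finset.sum_add_distrib]
        have e2 : ∑ i, ∑ j, |Δ i j| * (x j) ^ 2 / 2 = ∑ i, ∑ j, |Δ i j| * (x i) ^ 2 / 2 := by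
          rw [Finset.sum_comm]
          refine Finset.sum_congr rfl fun i _ => Finset.sum_congr rfl fun j _ => ?_
          rw [hsym]
        rw [e2, ← Finset.sum_add_distrib]
        refine Finset.sum_congr rfl fun i _ => ?_
        rw [← Finset.sum_add_distrib, Finset.sum_mul]
        refine Finset.sum_congr rfl fun j _ => ?_
        ring
    _ ≤ ∑ i, (w * η) * (x i) ^ 2 := Finset.sum_le_sum fun i _ =>
        mul_le_mul_of_nonneg_right (hcard i) (sq_nonneg _)
    _ = (w * η) * (x ⬝ᵥ x) := by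
        rw [← Finset.mul_sum]
        congr 1
        simp only [dotProduct]
        exact Finset.sum_congr rfl fun i _ => sq (x i)

theorem negIdx_close (w : ℕ) (ω : Om) (e : ℝ) (Q Q' : Arr w) (s n : ℕ) {η : ℝ} (hη : 0 ≤ η)
    (h : ∀ i j, |symM Q i j - symM Q' i j| ≤ η) (hn : nInt (kM w ω e Q s n) (w * η) = 0) :
    negIdx (kM w ω e Q' s n) = negIdx (kM w ω e Q s n) := by
  have hwη : 0 ≤ (w : ℝ) * η := by positivity
  refine negIdx_eq_of_close hwη (quad_close w ω e Q Q' s n hη h) ?_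
  have h1 := negIdx_shift_mono (kM w ω e Q s n) (s := -(w * η)) (t := w * η) (by linarith)
  unfold nInt at hn
  omega

/-- the deterministic part of the decoupling -/
theorem cut_identity (w : ℕ) (ω : Om) (e : ℝ) {k m n s : ℕ} (hmk : m ≤ k) (hmn : m * w ≤ n)
    {η : ℝ} (hη : 0 ≤ η)
    (hR1 : stR w ω e k 0 s)
    (hR2 : stR w ω e m (stQ w ω e k 0 s) (s + k * w))
    (hR3 : stR w ω e m 0 (s + k * w))
    (hR4 : stR w ω e m 0 (s + (k - m) * w))
    (hc1 : ∀ i j, |symM (stQ w ω e m 0 (s + k * w)) i j -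
      symM (stQ w ω e m (stQ w ω e k 0 s) (s + k * w)) i j| ≤ η)
    (hc2 : ∀ i j, |symM (stQ w ω e m 0 (s + (k - m) * w)) i j -
      symM (stQ w ω e k 0 s) i j| ≤ η)
    (hn1 : nInt (kM w ω e (stQ w ω e m 0 (s + k * w)) (s + k * w + m * w) (n - m * w))
      (w * η) = 0)
    (hn2 : nInt (kM w ω e (stQ w ω e m 0 (s + (k - m) * w)) (s + k * w) (m * w)) (w * η) = 0) :
    (negIdx (kM w ω e 0 s (k * w + n)) : ℤ) - negIdx (kM w ω e 0 s (k * w)) -
        negIdx (kM w ω e 0 (s + k * w) n) =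
      (negIdx (kM w ω e 0 (s + (k - m) * w) (m * w + m * w)) : ℤ) -
        negIdx (kM w ω e 0 (s + (k - m) * w) (m * w)) - negIdx (kM w ω e 0 (s + k * w) (m * w)) := by
  obtain ⟨n', rfl⟩ := Nat.exists_eq_add_of_le hmn
  have hsub : m * w + n' - m * w = n' := by omega
  rw [hsub] at hn1
  have hpos : s + (k - m) * w + m * w = s + k * w := by
    have : (k - m) * w + m * w = k * w := by
      rw [← Nat.add_mul, Nat.sub_add_cancel hmk]
    omega
  -- decompositions
  have a1 := negIdx_kM_add w ω e k (m * w + n') 0 s hR1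
  have a2 := negIdx_kM_add w ω e m n' (stQ w ω e k 0 s) (s + k * w) hR2
  have a3 := negIdx_kM_add w ω e m n' 0 (s + k * w) hR3
  have a4 := negIdx_kM_add w ω e m (m * w) 0 (s + (k - m) * w) hR4
  rw [hpos] at a4
  have b1 := negIdx_close w ω e _ _ (s + k * w + m * w) n' hη hc1 hn1
  have b2 := negIdx_close w ω e _ _ (s + k * w) (m * w) hη hc2 hn2
  rw [a1, a2, a3, a4, b1, b2]
  push_cast
  ring

end Run7.h834
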