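import Pool.Agent.Run7.h834.Cut
import Pool.Agent.Run7.h834.Decay

/-! Cutting the band matrix: probabilities. -/

set_option autoImplicit false
open MeasureTheory Matrix
open scoped ENNReal

namespace Run7.h834

variable {w : ℕ} {V : ℝ → ℝ} {K : ℝ}

theorem markov_fr {α : Type*} [MeasurableSpace α] {P : Measure α} {F : α → ℝ} (hF : Measurable F)
    {r θ : ℝ} (hr : 0 < r) (hθ : 0 < θ) {M : ℝ≥0∞} (h : ∫⁻ x, fr r (F x) ∂P ≤ M) :
    P {x | θ < |F x|} ≤ M / ENNReal.ofReal (θ ^ r) := by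
  have h1 : P {x | θ < |F x|} ≤ P {x | ENNReal.ofReal (θ ^ r) ≤ fr r (F x)} := by
    refine measure_mono fun x hx => ?_
    exact ENNReal.ofReal_le_ofReal (Real.rpow_le_rpow hθ.le (le_of_lt hx) hr.le)
  refine h1.trans ?_
  have h2 := meas_ge_le_lintegral_div (μ := P) (f := fun x => fr r (F x))
    (measurable_fr hF r).aemeasurable (ε := ENNReal.ofReal (θ ^ r))
    (by simpa using Real.rpow_pos_of_pos hθ r) ENNReal.ofReal_ne_top
  exact h2.trans (ENNReal.div_le_div_right h _)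

theorem prob_exists_le {α ι : Type*} [MeasurableSpace α] [Fintype ι] {P : Measure α}
    {S : ι → Set α} {M : ℝ≥0∞} (h : ∀ i, P (S i) ≤ M) :
    P {x | ∃ i, x ∈ S i} ≤ Fintype.card ι * M := by
  have : {x | ∃ i, x ∈ S i} = ⋃ i, S i := by
    ext x
    simp
  rw [this]
  calc P (⋃ i, S i) ≤ ∑ i, P (S i) := measure_iUnion_fintype_le P S
    _ ≤ ∑ _i : ι, M := Finset.sum_le_sum fun i _ => h i
    _ = _ := by simp

/-- localization property of `m` blocks -/
def LocP (V : ℝ → ℝ) (w : ℕ) (e : ℝ) (m : ℕ) (θ : ℝ≥0∞) : Prop :=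
  ∀ (Q : Arr w) (s : ℕ) (x y : Fin w),
    ∫⁻ ω, fr (1 / 4) (stP w ω e m Q s x y) ∂(Pm (lawV V)) ≤ θ

theorem locP_random (h : NiceV V K) {e : ℝ} {m : ℕ} {θ : ℝ≥0∞} (hL : LocP V w e m θ) {t : ℕ}
    {X : Om → Arr w} (hX : Measurable X) (hXd : DepOn {p : ℕ × ℕ | p.1 < t} X) (x y : Fin w) :
    ∫⁻ ω, fr (1 / 4) (stP w ω e m (X ω) t x y) ∂(Pm (lawV V)) ≤ θ := by
  have := h.prob
  rw [lintegral_indep (lawV V) {p : ℕ × ℕ | p.1 < t} (X := X)
    (Y := fun Q ω => fr (1 / 4) (stP w ω e m Q t x y)) hX ?_ hXd ?_]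
  · calc _ ≤ ∫⁻ _, θ ∂(Pm (lawV V)) := lintegral_mono fun ω => hL _ _ _ _
      _ = θ := by simp
  · exact measurable_fr (measurable_stP w e measurable_snd m t measurable_fst x y) _
  · intro Q
    exact ((depOn_stP w e m Q t).mono compl_rows).comp
      fun M : Matrix (Fin w) (Fin w) ℝ => fr (1 / 4) (M x y)

/-- tail of a state -/
theorem state_tail (h : NiceV V K) {e : ℝ} {t : ℕ} {X : Om → Arr w} (hX : Measurable X)
    (hXd : DepOn {p : ℕ × ℕ | p.1 < t} X) {b g : ℝ} (hb : 0 < b) (hg : 0 < g) :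
    Pm (lawV V) {ω | ∃ z : Fin w × Fin w, (w : ℝ) ^ 2 * (b ^ 2 * g) <
      |symM (nextQ e (X ω) (arrA w ω t) (arrB w ω t)) z.1 z.2|} ≤
      (w : ℝ≥0∞) ^ 2 * ENNReal.ofReal (1 / b ^ 2) +
        (w : ℝ≥0∞) ^ 2 * (4 * cW (Real.exp (K / 2)) / ENNReal.ofReal (g ^ (1 / 2 : ℝ))) := by
  have := h.prob
  have hcard : (Fintype.card (Fin w × Fin w) : ℝ≥0∞) = (w : ℝ≥0∞) ^ 2 := by
    simp [sq]
  set E1 : Set Om := {ω | ∃ z : Fin w × Fin w, ω ∈ {ω : Om | b < |arrB w ω t z|}} with hE1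
  set E2 : Set Om := {ω | ∃ z : Fin w × Fin w,
    ω ∈ {ω : Om | g < |(SM e (X ω) (arrA w ω t))⁻¹ z.1 z.2|}} with hE2
  have p1 : Pm (lawV V) E1 ≤ (w : ℝ≥0∞) ^ 2 * ENNReal.ofReal (1 / b ^ 2) := by
    rw [← hcard]
    refine prob_exists_le fun z => ?_
    have hm : Measurable fun ω : Om => arrB w ω t z ^ 2 :=
      (measurable_pi_apply _).pow_const 2
    have h1 : {ω : Om | b < |arrB w ω t z|} ⊆ {ω : Om | b ^ 2 < arrB w ω t z ^ 2} := by
      intro ω hω
      simp only [Set.mem_ofPred_eq] at hω ⊢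
      rw [← sq_abs (arrB w ω t z)]
      exact pow_lt_pow_left₀ hω hb.le two_ne_zero
    refine (measure_mono h1).trans (markov_lt hm (by positivity) ?_)
    have h5 : (Pm (lawV V)).map (fun ω => arrB w ω t z) = lawV V := by
      unfold Pm arrB
      exact Measure.infinitePi_map_eval (fun _ => lawV V) _
    have h7 : Measurable fun x : ℝ => ENNReal.ofReal (x ^ 2) :=
      ENNReal.measurable_ofReal.comp (measurable_id.pow_const 2)
    have h8 : Measurable fun ω : Om => arrB w ω t z := measurable_pi_apply _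
    have h9 := lintegral_map (μ := Pm (lawV V)) h7 h8
    rw [h5] at h9
    rw [← h9, ← ofReal_integral_eq_lintegral_ofReal h.integrable_sq
      (Filter.Eventually.of_forall fun _ => sq_nonneg _), h.var]
  have mSinv : ∀ z : Fin w × Fin w, Measurable fun p : Arr w × Om =>
      (SM e p.1 (arrA w p.2 t))⁻¹ z.1 z.2 := fun z =>
    measurable_inv_entry (measurable_SM e measurable_fst (measurable_arrA' w t measurable_snd))
      z.1 z.2
  have p2 : Pm (lawV V) E2 ≤
      (w : ℝ≥0∞) ^ 2 * (4 * cW (Real.exp (K / 2)) / ENNReal.ofReal (g ^ (1 / 2 : ℝ))) := by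
    rw [← hcard]
    refine prob_exists_le fun z => ?_
    have hF : Measurable fun ω : Om => (SM e (X ω) (arrA w ω t))⁻¹ z.1 z.2 :=
      (mSinv z).comp (hX.prodMk measurable_id)
    refine markov_fr hF (by norm_num) hg ?_
    rw [lintegral_indep (lawV V) {p : ℕ × ℕ | p.1 < t} (X := X)
      (Y := fun Q ω => fr (1 / 2) ((SM e Q (arrA w ω t))⁻¹ z.1 z.2)) hX
      (measurable_fr (mSinv z) _) hXd ?_]
    · calc _ ≤ ∫⁻ _, 4 * cW (Real.exp (K / 2)) ∂(Pm (lawV V)) :=
            lintegral_mono fun ω => stG_moment h.leVol h.bddDens w e 0 (X ω) t z.1 z.2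
        _ = _ := by simp
    · intro Q
      refine DepOn.comp (X := fun ω => arrA w ω t)
        (f := fun a : Arr w => fr (1 / 2) ((SM e Q a)⁻¹ z.1 z.2)) ?_
      exact (depOn_arrA w t).mono compl_rows
  refine le_trans (measure_mono ?_) ((measure_union_le E1 E2).trans (add_le_add p1 p2))
  intro ω hω
  by_contra hcon
  simp only [hE1, hE2, Set.mem_union, Set.mem_ofPred_eq, not_or, not_exists, not_lt] at hcon
  obtain ⟨c1, c2⟩ := hcon
  obtain ⟨z, hz⟩ := hω
  rw [symM_nextQ] at hz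
  refine absurd hz (not_lt.2 ?_)
  unfold nextM
  rw [Matrix.mul_apply]
  have hlow : ∀ i j, |lowM (arrB w ω t) i j| ≤ b := by
    intro i j
    simp only [lowM, Matrix.of_apply]
    split_ifs
    · exact c1 (i, j)
    · rw [abs_zero]
      exact hb.le
  calc |∑ j, ((lowM (arrB w ω t))ᵀ * (SM e (X ω) (arrA w ω t))⁻¹) z.1 j *
        lowM (arrB w ω t) j z.2|
      ≤ ∑ j, |((lowM (arrB w ω t))ᵀ * (SM e (X ω) (arrA w ω t))⁻¹) z.1 j *
        lowM (arrB w ω t) j z.2| := Finset.abs_sum_le_sum_abs _ _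
    _ ≤ ∑ _j : Fin w, (w * (b * g)) * b := by
        refine Finset.sum_le_sum fun j _ => ?_
        rw [abs_mul]
        refine mul_le_mul ?_ (hlow _ _) (abs_nonneg _) (by positivity)
        rw [Matrix.mul_apply]
        refine (Finset.abs_sum_le_sum_abs _ _).trans ?_
        calc _ ≤ ∑ _l : Fin w, b * g := by
              refine Finset.sum_le_sum fun l _ => ?_
              rw [abs_mul, Matrix.transpose_apply]
              exact mul_le_mul (hlow _ _) (c2 (l, j)) (abs_nonneg _) hb.le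
          _ = w * (b * g) := by simp
    _ = (w : ℝ) ^ 2 * (b ^ 2 * g) := by
        simp
        ring

/-- closeness of two states driven by the same blocks -/
theorem close_tail (h : NiceV V K) {e : ℝ} {m : ℕ} {θ : ℝ≥0∞} (hL : LocP V w e m θ) {t : ℕ}
    {X : Om → Arr w} (hX : Measurable X) (hXd : DepOn {p : ℕ × ℕ | p.1 < t} X)
    {R θ₁ : ℝ} (hθ₁ : 0 < θ₁) (hR : 0 < R) {τ : ℝ≥0∞}
    (hτ : Pm (lawV V) {ω | ∃ z : Fin w × Fin w, R < |symM (X ω) z.1 z.2|} ≤ τ) :
    Pm (lawV V) {ω | ∃ z : Fin w × Fin w, (w : ℝ) ^ 2 * (θ₁ ^ 2 * R) <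
      |symM (stQ w ω e m 0 t) z.1 z.2 - symM (stQ w ω e m (X ω) t) z.1 z.2|} ≤
      τ + ((w : ℝ≥0∞) ^ 2 * (θ / ENNReal.ofReal (θ₁ ^ (1 / 4 : ℝ))) +
        (w : ℝ≥0∞) ^ 2 * (θ / ENNReal.ofReal (θ₁ ^ (1 / 4 : ℝ)))) := by
  have := h.prob
  have hcard : (Fintype.card (Fin w × Fin w) : ℝ≥0∞) = (w : ℝ≥0∞) ^ 2 := by
    simp [sq]
  set E0 : Set Om := {ω | ∃ z : Fin w × Fin w, R < |symM (X ω) z.1 z.2|} with hE0
  set E1 : Set Om := {ω | ∃ z : Fin w × Fin w,
    ω ∈ {ω : Om | θ₁ < |stP w ω e m (X ω) t z.1 z.2|}} with hE1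
  set E2 : Set Om := {ω | ∃ z : Fin w × Fin w,
    ω ∈ {ω : Om | θ₁ < |stP w ω e m 0 t z.1 z.2|}} with hE2
  set E3 : Set Om := {ω | ¬ stR w ω e m (X ω) t} with hE3
  set E4 : Set Om := {ω | ¬ stR w ω e m 0 t} with hE4
  have p1 : Pm (lawV V) E1 ≤ (w : ℝ≥0∞) ^ 2 * (θ / ENNReal.ofReal (θ₁ ^ (1 / 4 : ℝ))) := by
    rw [← hcard]
    refine prob_exists_le fun z => ?_
    exact markov_fr (measurable_stP w e measurable_id m t hX z.1 z.2) (by norm_num) hθ₁
      (locP_random h hL hX hXd z.1 z.2)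
  have p2 : Pm (lawV V) E2 ≤ (w : ℝ≥0∞) ^ 2 * (θ / ENNReal.ofReal (θ₁ ^ (1 / 4 : ℝ))) := by
    rw [← hcard]
    refine prob_exists_le fun z => ?_
    exact markov_fr (measurable_stP w e measurable_id m t measurable_const z.1 z.2)
      (by norm_num) hθ₁ (hL 0 t z.1 z.2)
  have p4 : Pm (lawV V) E4 = 0 := stR_null h.bddDens w e m 0 t
  have p3 : Pm (lawV V) E3 = 0 := by
    have hT : MeasurableSet {p : Arr w × Om | stR w p.2 e m p.1 t} :=
      measurableSet_stR w e measurable_snd m t measurable_fst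
    have h2 := lintegral_indep (lawV V) {p : ℕ × ℕ | p.1 < t} (X := X)
      (Y := fun x ω => ({p : Arr w × Om | stR w p.2 e m p.1 t}ᶜ).indicator 1 (x, ω))
      hX (measurable_one.indicator hT.compl) hXd ?_
    · have hms : MeasurableSet {ω | ¬ stR w ω e m (X ω) t} :=
        (measurableSet_stR w e measurable_id m t hX).compl
      rw [hE3, ← lintegral_indicator_one hms]
      have e1 : ∀ ω : Om, ({ω | ¬ stR w ω e m (X ω) t} : Set Om).indicator (1 : Om → ℝ≥0∞) ω =
          ({p : Arr w × Om | stR w p.2 e m p.1 t}ᶜ).indicator 1 (X ω, ω) := fun ω => rfl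
      simp_rw [e1]
      rw [h2]
      refine (lintegral_congr fun ω => ?_).trans lintegral_zero
      have hms2 : MeasurableSet {ω' | ¬ stR w ω' e m (X ω) t} :=
        (measurableSet_stR w e measurable_id m t measurable_const).compl
      have := stR_null h.bddDens w e m (X ω) t
      rw [← lintegral_indicator_one hms2] at this
      exact this
    · intro x ω ω' hω
      have h3 : stR w ω e m x t = stR w ω' e m x t :=
        ((depOn_stR w e m x t).mono compl_rows) ω ω' hω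
      show ({p : Arr w × Om | stR w p.2 e m p.1 t}ᶜ).indicator (1 : Arr w × Om → ℝ≥0∞) (x, ω) =
        ({p : Arr w × Om | stR w p.2 e m p.1 t}ᶜ).indicator 1 (x, ω')
      by_cases h4 : stR w ω e m x t
      · have h5 : stR w ω' e m x t := h3 ▸ h4
        have g4 : (x, ω) ∉ ({p : Arr w × Om | stR w p.2 e m p.1 t}ᶜ) := fun h => h h4
        have g5 : (x, ω') ∉ ({p : Arr w × Om | stR w p.2 e m p.1 t}ᶜ) := fun h => h h5
        rw [Set.indicator_of_notMem g4, Set.indicator_of_notMem g5]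
      · have h5 : ¬ stR w ω' e m x t := h3 ▸ h4
        have g4 : (x, ω) ∈ ({p : Arr w × Om | stR w p.2 e m p.1 t}ᶜ) := h4
        have g5 : (x, ω') ∈ ({p : Arr w × Om | stR w p.2 e m p.1 t}ᶜ) := h5
        rw [Set.indicator_of_mem g4, Set.indicator_of_mem g5]
        rfl
  have hsub : {ω | ∃ z : Fin w × Fin w, (w : ℝ) ^ 2 * (θ₁ ^ 2 * R) <
      |symM (stQ w ω e m 0 t) z.1 z.2 - symM (stQ w ω e m (X ω) t) z.1 z.2|} ⊆
      (E3 ∪ E4) ∪ (E0 ∪ (E1 ∪ E2)) := by
    intro ω hω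
    by_contra hcon
    simp only [hE0, hE1, hE2, hE3, hE4, Set.mem_union, Set.mem_ofPred_eq, not_or, not_exists,
      not_lt, not_not] at hcon
    obtain ⟨⟨c3, c4⟩, c0, c1, c2⟩ := hcon
    obtain ⟨z, hz⟩ := hω
    refine absurd hz (not_lt.2 ?_)
    have h5 := stQ_sub w ω e m (X ω) 0 t c3 c4
    have h6 : symM (stQ w ω e m 0 t) z.1 z.2 - symM (stQ w ω e m (X ω) t) z.1 z.2 =
        -(((stP w ω e m (X ω) t)ᵀ * (symM (X ω) - symM (0 : Arr w)) * stP w ω e m 0 t :
          Matrix (Fin w) (Fin w) ℝ) z.1 z.2) := by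
      rw [← h5, Matrix.sub_apply]
      ring
    have h0 : symM (0 : Arr w) = 0 := by
      ext i j
      simp [symM]
    rw [h6, abs_neg, h0, sub_zero, Matrix.mul_apply]
    calc |∑ j, ((stP w ω e m (X ω) t)ᵀ * symM (X ω)) z.1 j * stP w ω e m 0 t j z.2|
        ≤ ∑ j, |((stP w ω e m (X ω) t)ᵀ * symM (X ω)) z.1 j * stP w ω e m 0 t j z.2| :=
          Finset.abs_sum_le_sum_abs _ _
      _ ≤ ∑ _j : Fin w, (w * (θ₁ * R)) * θ₁ := by
          refine Finset.sum_le_sum fun j _ => ?_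
          rw [abs_mul]
          refine mul_le_mul ?_ (c2 (j, z.2)) (abs_nonneg _) (by positivity)
          rw [Matrix.mul_apply]
          refine (Finset.abs_sum_le_sum_abs _ _).trans ?_
          calc _ ≤ ∑ _l : Fin w, θ₁ * R := by
                refine Finset.sum_le_sum fun l _ => ?_
                rw [abs_mul, Matrix.transpose_apply]
                exact mul_le_mul (c1 (l, z.1)) (c0 (l, j)) (abs_nonneg _) hθ₁.le
            _ = w * (θ₁ * R) := by simp
      _ = (w : ℝ) ^ 2 * (θ₁ ^ 2 * R) := by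
          simp
          ring
  refine (measure_mono hsub).trans ((measure_union_le _ _).trans ?_)
  have q1 : Pm (lawV V) (E3 ∪ E4) = 0 := measure_union_null p3 p4
  rw [q1, zero_add]
  exact (measure_union_le _ _).trans (add_le_add hτ ((measure_union_le _ _).trans
    (add_le_add p1 p2)))

/-- eigenvalues near zero of a section with a random self-energy -/
theorem nInt_tail (h : NiceV V K) {e : ℝ} {t : ℕ} {X : Om → Arr w} (hX : Measurable X)
    (hXd : DepOn {p : ℕ × ℕ | p.1 < t} X) (n : ℕ) {η : ℝ} (hη : 0 ≤ η) :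
    Pm (lawV V) {ω | nInt (kM w ω e (X ω) t n) η ≠ 0} ≤
      n * ENNReal.ofReal (4 * Real.exp (K / 2) * η) := by
  have := h.prob
  have mk : ∀ i j, Measurable fun p : Arr w × Om => kM w p.2 e p.1 t n i j := fun i j =>
    measurable_kM w measurable_snd measurable_const measurable_fst t n i j
  have hm : Measurable fun p : Arr w × Om => (nInt (kM w p.2 e p.1 t n) η : ℝ≥0∞) :=
    measurable_from_top.comp (measurable_nInt mk η)
  have mk1 : ∀ i j, Measurable fun ω : Om => kM w ω e (X ω) t n i j := fun i j =>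
    measurable_kM w measurable_id measurable_const hX t n i j
  have hm1 : Measurable fun ω : Om => (nInt (kM w ω e (X ω) t n) η : ℝ≥0∞) :=
    measurable_from_top.comp (measurable_nInt mk1 η)
  have h2 := mul_meas_ge_le_lintegral (μ := Pm (lawV V)) hm1 1
  rw [one_mul] at h2
  refine le_trans (measure_mono ?_) (h2.trans ?_)
  · intro ω hω
    simp only [Set.mem_ofPred_eq] at hω ⊢
    have : 1 ≤ nInt (kM w ω e (X ω) t n) η := Nat.one_le_iff_ne_zero.2 hω
    exact_mod_cast this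
  · rw [lintegral_indep (lawV V) {p : ℕ × ℕ | p.1 < t} (X := X)
      (Y := fun Q ω => (nInt (kM w ω e Q t n) η : ℝ≥0∞)) hX hm hXd ?_]
    · calc _ ≤ ∫⁻ _, n * ENNReal.ofReal (4 * Real.exp (K / 2) * η) ∂(Pm (lawV V)) :=
            lintegral_mono fun ω => wegner_nInt h.bddDens w e (X ω) t n hη
        _ = _ := by simp
    · intro Q ω ω' hω
      have : kM w ω e Q t n = kM w ω' e Q t n := by
        ext i j
        simp only [kM, Matrix.of_apply]
        congr 2
        unfold bnd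
        split_ifs
        · refine hω _ ?_
          simp only [Set.mem_compl_iff, Set.mem_ofPred_eq, not_lt]
          omega
        · rfl
      simp only [this]

end Run7.h834
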