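import Pool.Agent.Run7.h834.Cut2

/-! Cutting the band matrix: expectations. -/

set_option autoImplicit false
open MeasureTheory Matrix
open scoped ENNReal

namespace Run7.h834

variable {w : ℕ} {V : ℝ → ℝ} {K : ℝ}

/-- the good event for a cut -/
def goodCut (w : ℕ) (e : ℝ) (k m n s : ℕ) (η : ℝ) : Set Om :=
  {ω | stR w ω e k 0 s ∧ stR w ω e m (stQ w ω e k 0 s) (s + k * w) ∧
    stR w ω e m 0 (s + k * w) ∧ stR w ω e m 0 (s + (k - m) * w) ∧
    (∀ i j, |symM (stQ w ω e m 0 (s + k * w)) i j -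
      symM (stQ w ω e m (stQ w ω e k 0 s) (s + k * w)) i j| ≤ η) ∧
    (∀ i j, |symM (stQ w ω e m 0 (s + (k - m) * w)) i j -
      symM (stQ w ω e k 0 s) i j| ≤ η) ∧
    nInt (kM w ω e (stQ w ω e m 0 (s + k * w)) (s + k * w + m * w) (n - m * w)) (w * η) = 0 ∧
    nInt (kM w ω e (stQ w ω e m 0 (s + (k - m) * w)) (s + k * w) (m * w)) (w * η) = 0}

/-- the tail of a state -/
noncomputable def tauC (K : ℝ) (w : ℕ) (b g : ℝ) : ℝ≥0∞ :=
  (w : ℝ≥0∞) ^ 2 * ENNReal.ofReal (1 / b ^ 2) +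
    (w : ℝ≥0∞) ^ 2 * (4 * cW (Real.exp (K / 2)) / ENNReal.ofReal (g ^ (1 / 2 : ℝ)))

/-- probability of the bad event -/
noncomputable def betaC (K : ℝ) (w m n : ℕ) (b g θ₁ : ℝ) (θ : ℝ≥0∞) : ℝ≥0∞ :=
  2 * (tauC K w b g + ((w : ℝ≥0∞) ^ 2 * (θ / ENNReal.ofReal (θ₁ ^ (1 / 4 : ℝ))) +
        (w : ℝ≥0∞) ^ 2 * (θ / ENNReal.ofReal (θ₁ ^ (1 / 4 : ℝ))))) +
    ((n : ℝ≥0∞) + (m * w : ℕ)) * ENNReal.ofReal (4 * Real.exp (K / 2) *
      (w * ((w : ℝ) ^ 2 * (θ₁ ^ 2 * ((w : ℝ) ^ 2 * (b ^ 2 * g))))))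

theorem stQ_meas (w : ℕ) (e : ℝ) (k s : ℕ) : Measurable fun ω : Om => stQ w ω e k 0 s :=
  measurable_stQ w e measurable_id k s measurable_const

theorem stQ_dep (w : ℕ) (e : ℝ) (k s t : ℕ) (h : s + k * w ≤ t) :
    DepOn {p : ℕ × ℕ | p.1 < t} (fun ω => stQ w ω e k 0 s) :=
  (depOn_stQ w e k 0 s).mono fun _ hp => lt_of_lt_of_le hp.2.1 h

theorem state_tail' (h : NiceV V K) {e : ℝ} {k s : ℕ} (hk : 1 ≤ k) {b g : ℝ} (hb : 0 < b)
    (hg : 0 < g) :
    Pm (lawV V) {ω | ∃ z : Fin w × Fin w, (w : ℝ) ^ 2 * (b ^ 2 * g) <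
      |symM (stQ w ω e k 0 s) z.1 z.2|} ≤ tauC K w b g := by
  obtain ⟨k', rfl⟩ := Nat.exists_eq_add_of_le' hk
  have h1 := state_tail h (e := e) (t := s + k' * w) (stQ_meas w e k' s)
    (stQ_dep w e k' s _ le_rfl) hb hg
  have h2 : ∀ ω : Om, stQ w ω e (k' + 1) 0 s = nextQ e (stQ w ω e k' 0 s)
      (arrA w ω (s + k' * w)) (arrB w ω (s + k' * w)) := by
    intro ω
    rw [stQ_add]
    rfl
  simp_rw [h2]
  exact h1

theorem stR_null_random (h : NiceV V K) {e : ℝ} {m t : ℕ} {X : Om → Arr w} (hX : Measurable X)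
    (hXd : DepOn {p : ℕ × ℕ | p.1 < t} X) :
    Pm (lawV V) {ω | ¬ stR w ω e m (X ω) t} = 0 := by
  have := h.prob
  have hT : MeasurableSet {p : Arr w × Om | stR w p.2 e m p.1 t} :=
    measurableSet_stR w e measurable_snd m t measurable_fst
  have h2 := lintegral_indep (lawV V) {p : ℕ × ℕ | p.1 < t} (X := X)
    (Y := fun x ω => ({p : Arr w × Om | stR w p.2 e m p.1 t}ᶜ).indicator 1 (x, ω))
    hX (measurable_one.indicator hT.compl) hXd ?_
  · have hms : MeasurableSet {ω | ¬ stR w ω e m (X ω) t} :=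
      (measurableSet_stR w e measurable_id m t hX).compl
    rw [← lintegral_indicator_one hms]
    have e1 : ∀ ω : Om, ({ω | ¬ stR w ω e m (X ω) t} : Set Om).indicator (1 : Om → ℝ≥0∞) ω =
        ({p : Arr w × Om | stR w p.2 e m p.1 t}ᶜ).indicator 1 (X ω, ω) := fun ω => rfl
    simp_rw [e1]
    rw [h2]
    refine (lintegral_congr fun ω => ?_).trans lintegral_zero
    have hms2 : MeasurableSet {ω' | ¬ stR w ω' e m (X ω) t} :=
      (measurableSet_stR w e measurable_id m t measurable_const).compl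
    have := stR_null h.bddDens w e m (X ω) t
    rw [← lintegral_indicator_one hms2] at this
    exact this
  · intro x ω ω' hω
    have h3 : stR w ω e m x t = stR w ω' e m x t :=
      ((depOn_stR w e m x t).mono compl_rows) ω ω' hω
    show ({p : Arr w × Om | stR w p.2 e m p.1 t}ᶜ).indicator (1 : Arr w × Om → ℝ≥0∞) (x, ω) =
      ({p : Arr w × Om | stR w p.2 e m p.1 t}ᶜ).indicator 1 (x, ω')
    by_cases h4 : stR w ω e m x t
    · have h5 : stR w ω' e m x t := h3 ▸ h4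
      have g4 : (x, ω) ∉ ({p : Arr w × Om | stR w p.2 e m p.1 t}ᶜ) := fun h => h h4
      have g5 : (x, ω') ∉ ({p : Arr w × Om | stR w p.2 e m p.1 t}ᶜ) := fun h => h h5
      rw [Set.indicator_of_notMem g4, Set.indicator_of_notMem g5]
    · have h5 : ¬ stR w ω' e m x t := h3 ▸ h4
      have g4 : (x, ω) ∈ ({p : Arr w × Om | stR w p.2 e m p.1 t}ᶜ) := h4
      have g5 : (x, ω') ∈ ({p : Arr w × Om | stR w p.2 e m p.1 t}ᶜ) := h5
      rw [Set.indicator_of_mem g4, Set.indicator_of_mem g5]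
      rfl

/-- probability of the bad event of a cut -/
theorem cut_prob (h : NiceV V K) {e : ℝ} {k m n s : ℕ} (hmk : m + 1 ≤ k)
    {b g θ₁ : ℝ} (hb : 0 < b) (hg : 0 < g) (hθ₁ : 0 < θ₁) (hw : 1 ≤ w) {θ : ℝ≥0∞}
    (hL : LocP V w e m θ) :
    Pm (lawV V) (goodCut w e k m n s ((w : ℝ) ^ 2 * (θ₁ ^ 2 * ((w : ℝ) ^ 2 * (b ^ 2 * g)))))ᶜ ≤
      betaC K w m n b g θ₁ θ := by
  have := h.prob
  have hw0 : (0 : ℝ) < w := by exact_mod_cast (lt_of_lt_of_le one_pos hw)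
  have hR : 0 < (w : ℝ) ^ 2 * (b ^ 2 * g) := by positivity
  set η : ℝ := (w : ℝ) ^ 2 * (θ₁ ^ 2 * ((w : ℝ) ^ 2 * (b ^ 2 * g))) with hη
  have hη0 : 0 ≤ (w : ℝ) * η := by positivity
  have hpos : s + (k - m) * w + m * w = s + k * w := by
    have : (k - m) * w + m * w = k * w := by
      rw [← Nat.add_mul, Nat.sub_add_cancel (by omega)]
    omega
  have hkm : k = (k - m) + m := by omega
  have hst : ∀ ω : Om, stQ w ω e k 0 s =
      stQ w ω e m (stQ w ω e (k - m) 0 s) (s + (k - m) * w) := by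
    intro ω
    conv_lhs => rw [hkm]
    rw [stQ_add]
  have c1 := close_tail h hL (stQ_meas w e k s) (stQ_dep w e k s _ le_rfl) hθ₁ hR
    (state_tail' h (by omega) hb hg)
  have c2 := close_tail h hL (stQ_meas w e (k - m) s) (stQ_dep w e (k - m) s _ le_rfl) hθ₁ hR
    (state_tail' h (by omega) hb hg)
  have n1 := nInt_tail h (e := e) (t := s + k * w + m * w) (stQ_meas w e m (s + k * w))
    (stQ_dep w e m (s + k * w) _ le_rfl) (n - m * w) hη0
  have n2 := nInt_tail h (e := e) (t := s + k * w) (stQ_meas w e m (s + (k - m) * w))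
    (stQ_dep w e m (s + (k - m) * w) _ hpos.le) (m * w) hη0
  have r1 := stR_null h.bddDens w e k 0 s
  have r2 := stR_null_random h (e := e) (m := m) (stQ_meas w e k s) (stQ_dep w e k s _ le_rfl)
  have r3 := stR_null h.bddDens w e m 0 (s + k * w)
  have r4 := stR_null h.bddDens w e m 0 (s + (k - m) * w)
  set A1 : Set Om := {ω | ∃ z : Fin w × Fin w, η < |symM (stQ w ω e m 0 (s + k * w)) z.1 z.2 -
    symM (stQ w ω e m (stQ w ω e k 0 s) (s + k * w)) z.1 z.2|} with hA1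
  set A2 : Set Om := {ω | ∃ z : Fin w × Fin w,
    η < |symM (stQ w ω e m 0 (s + (k - m) * w)) z.1 z.2 -
    symM (stQ w ω e m (stQ w ω e (k - m) 0 s) (s + (k - m) * w)) z.1 z.2|} with hA2
  set A3 : Set Om := {ω | nInt (kM w ω e (stQ w ω e m 0 (s + k * w)) (s + k * w + m * w)
    (n - m * w)) (w * η) ≠ 0} with hA3
  set A4 : Set Om := {ω | nInt (kM w ω e (stQ w ω e m 0 (s + (k - m) * w)) (s + k * w) (m * w))
    (w * η) ≠ 0} with hA4
  set Z : Set Om := {ω | ¬ stR w ω e k 0 s} ∪ ({ω | ¬ stR w ω e m (stQ w ω e k 0 s) (s + k * w)} ∪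
    ({ω | ¬ stR w ω e m 0 (s + k * w)} ∪ {ω | ¬ stR w ω e m 0 (s + (k - m) * w)})) with hZ
  have hZ0 : Pm (lawV V) Z = 0 :=
    measure_union_null r1 (measure_union_null r2 (measure_union_null r3 r4))
  have hsub : (goodCut w e k m n s η)ᶜ ⊆ Z ∪ ((A1 ∪ A2) ∪ (A3 ∪ A4)) := by
    intro ω hω
    by_contra hcon
    apply hω
    simp only [hZ, hA1, hA2, hA3, hA4, Set.mem_union, Set.mem_ofPred_eq, not_or, not_exists,
      not_lt, not_not] at hcon
    obtain ⟨⟨z1, z2, z3, z4⟩, ⟨a1, a2⟩, a3, a4⟩ := hcon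
    refine ⟨z1, z2, z3, z4, fun i j => a1 (i, j), fun i j => ?_, a3, a4⟩
    rw [hst]
    exact a2 (i, j)
  have t1 := measure_mono (μ := Pm (lawV V)) hsub
  have t2 := measure_union_le (μ := Pm (lawV V)) Z ((A1 ∪ A2) ∪ (A3 ∪ A4))
  have t3 := measure_union_le (μ := Pm (lawV V)) (A1 ∪ A2) (A3 ∪ A4)
  have t4 := measure_union_le (μ := Pm (lawV V)) A1 A2
  have t5 := measure_union_le (μ := Pm (lawV V)) A3 A4
  rw [hZ0, zero_add] at t2
  have u1 : Pm (lawV V) (A1 ∪ A2) ≤ 2 * (tauC K w b g +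
      ((w : ℝ≥0∞) ^ 2 * (θ / ENNReal.ofReal (θ₁ ^ (1 / 4 : ℝ))) +
        (w : ℝ≥0∞) ^ 2 * (θ / ENNReal.ofReal (θ₁ ^ (1 / 4 : ℝ))))) := by
    rw [two_mul]
    exact t4.trans (add_le_add c1 c2)
  have u2 : Pm (lawV V) (A3 ∪ A4) ≤ ((n : ℝ≥0∞) + (m * w : ℕ)) *
      ENNReal.ofReal (4 * Real.exp (K / 2) * (w * η)) := by
    rw [add_mul]
    refine t5.trans (add_le_add (n1.trans ?_) n2)
    gcongr
    exact_mod_cast Nat.sub_le n (m * w)
  exact t1.trans (t2.trans (t3.trans (add_le_add u1 u2)))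

/-- number of eigenvalues of a section in `[e₁, e₂)` -/
noncomputable def cN (w : ℕ) (ω : Om) (e₁ e₂ : ℝ) (s n : ℕ) : ℕ :=
  negIdx (kM w ω e₂ 0 s n) - negIdx (kM w ω e₁ 0 s n)

theorem negIdx_kM_mono (w : ℕ) (ω : Om) {e₁ e₂ : ℝ} (h : e₁ ≤ e₂) (Q : Arr w) (s n : ℕ) :
    negIdx (kM w ω e₁ Q s n) ≤ negIdx (kM w ω e₂ Q s n) := by
  have h1 := negIdx_shift_mono (kM w ω e₁ Q s n) (s := 0) (t := e₂ - e₁) (by linarith)
  rw [← kM_add, ← kM_add, add_zero, add_sub_cancel] at h1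
  exact h1

theorem cN_cast (w : ℕ) (ω : Om) {e₁ e₂ : ℝ} (h : e₁ ≤ e₂) (s n : ℕ) :
    ((cN w ω e₁ e₂ s n : ℕ) : ℤ) =
      (negIdx (kM w ω e₂ 0 s n) : ℤ) - negIdx (kM w ω e₁ 0 s n) := by
  unfold cN
  exact Nat.cast_sub (negIdx_kM_mono w ω h 0 s n)

theorem measurable_cN (w : ℕ) (e₁ e₂ : ℝ) (s n : ℕ) :
    Measurable fun ω : Om => cN w ω e₁ e₂ s n := by
  have h1 : ∀ e, Measurable fun ω : Om => negIdx (kM w ω e 0 s n) := fun e =>
    measurable_negIdx_comp (measurable_kM w measurable_id measurable_const measurable_const s n)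
  exact (h1 _).sub (h1 _)

theorem cN_le (w : ℕ) (ω : Om) (e₁ e₂ : ℝ) (s n : ℕ) : cN w ω e₁ e₂ s n ≤ n := by
  have := negIdx_le_card (kM w ω e₂ 0 s n)
  rw [Fintype.card_fin] at this
  unfold cN
  omega

theorem cN_mean {μ : Measure ℝ} [IsProbabilityMeasure μ] {D : ℝ} (hμ : BddDens μ D)
    (w : ℕ) {e₁ e₂ : ℝ} (h : e₁ ≤ e₂) (s n : ℕ) :
    ∫⁻ ω, (cN w ω e₁ e₂ s n : ℝ≥0∞) ∂(Pm μ) ≤ n * ENNReal.ofReal (2 * D * (e₂ - e₁)) := by
  have := wegner_kM hμ w e₁ 0 s n (t := e₂ - e₁) (by linarith)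
  rw [add_sub_cancel] at this
  exact this

/-- the defect of a cut -/
noncomputable def defect (w : ℕ) (ω : Om) (e₁ e₂ : ℝ) (s L n : ℕ) : ℝ :=
  |(cN w ω e₁ e₂ s (L + n) : ℝ) - cN w ω e₁ e₂ s L - cN w ω e₁ e₂ (s + L) n|

theorem measurable_defect (w : ℕ) (e₁ e₂ : ℝ) (s L n : ℕ) :
    Measurable fun ω : Om => defect w ω e₁ e₂ s L n := by
  have h1 : ∀ s n, Measurable fun ω : Om => (cN w ω e₁ e₂ s n : ℝ) := fun s n =>
    measurable_from_top.comp (measurable_cN w e₁ e₂ s n)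
  unfold defect
  exact (((h1 _ _).sub (h1 _ _)).sub (h1 _ _)).norm

theorem defect_le (w : ℕ) (ω : Om) (e₁ e₂ : ℝ) (s L n : ℕ) :
    defect w ω e₁ e₂ s L n ≤ (L + n : ℕ) := by
  have h1 : (cN w ω e₁ e₂ s (L + n) : ℝ) ≤ (L + n : ℕ) := by exact_mod_cast cN_le w ω e₁ e₂ s _
  have h2 : (cN w ω e₁ e₂ s L : ℝ) ≤ L := by exact_mod_cast cN_le w ω e₁ e₂ s _
  have h3 : (cN w ω e₁ e₂ (s + L) n : ℝ) ≤ n := by exact_mod_cast cN_le w ω e₁ e₂ _ _
  have h4 : (0 : ℝ) ≤ cN w ω e₁ e₂ s (L + n) := by positivity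
  have h5 : (0 : ℝ) ≤ cN w ω e₁ e₂ s L := by positivity
  have h6 : (0 : ℝ) ≤ cN w ω e₁ e₂ (s + L) n := by positivity
  unfold defect
  push_cast at h1 ⊢
  rw [abs_le]
  constructor <;> linarith

theorem cut_pointwise (w : ℕ) (ω : Om) {e₁ e₂ : ℝ} (he : e₁ ≤ e₂) {k m n s : ℕ} (hmk : m ≤ k)
    (hmn : m * w ≤ n) {η : ℝ} (hη : 0 ≤ η) (h1 : ω ∈ goodCut w e₁ k m n s η)
    (h2 : ω ∈ goodCut w e₂ k m n s η) :
    defect w ω e₁ e₂ s (k * w) n ≤ cN w ω e₁ e₂ (s + (k - m) * w) (m * w + m * w) +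
      cN w ω e₁ e₂ (s + (k - m) * w) (m * w) + cN w ω e₁ e₂ (s + k * w) (m * w) := by
  obtain ⟨a1, a2, a3, a4, a5, a6, a7, a8⟩ := h1
  obtain ⟨b1, b2, b3, b4, b5, b6, b7, b8⟩ := h2
  have i1 := cut_identity w ω e₁ hmk hmn hη a1 a2 a3 a4 a5 a6 a7 a8
  have i2 := cut_identity w ω e₂ hmk hmn hη b1 b2 b3 b4 b5 b6 b7 b8
  have key : ((cN w ω e₁ e₂ s (k * w + n) : ℕ) : ℤ) - (cN w ω e₁ e₂ s (k * w) : ℕ) -
      (cN w ω e₁ e₂ (s + k * w) n : ℕ) =
      ((cN w ω e₁ e₂ (s + (k - m) * w) (m * w + m * w) : ℕ) : ℤ) -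
      (cN w ω e₁ e₂ (s + (k - m) * w) (m * w) : ℕ) - (cN w ω e₁ e₂ (s + k * w) (m * w) : ℕ) := by
    rw [cN_cast w ω he, cN_cast w ω he, cN_cast w ω he, cN_cast w ω he, cN_cast w ω he,
      cN_cast w ω he]
    linarith
  have key' : (cN w ω e₁ e₂ s (k * w + n) : ℝ) - (cN w ω e₁ e₂ s (k * w) : ℝ) -
      (cN w ω e₁ e₂ (s + k * w) n : ℝ) =
      (cN w ω e₁ e₂ (s + (k - m) * w) (m * w + m * w) : ℝ) -
      (cN w ω e₁ e₂ (s + (k - m) * w) (m * w) : ℝ) - (cN w ω e₁ e₂ (s + k * w) (m * w) : ℝ) := by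
    exact_mod_cast key
  unfold defect
  rw [key']
  have h4 : (0 : ℝ) ≤ cN w ω e₁ e₂ (s + (k - m) * w) (m * w + m * w) := by positivity
  have h5 : (0 : ℝ) ≤ cN w ω e₁ e₂ (s + (k - m) * w) (m * w) := by positivity
  have h6 : (0 : ℝ) ≤ cN w ω e₁ e₂ (s + k * w) (m * w) := by positivity
  rw [abs_le]
  constructor <;> linarith

theorem measurableSet_goodCut (w : ℕ) (e : ℝ) (k m n s : ℕ) (η : ℝ) :
    MeasurableSet (goodCut w e k m n s η) := by
  have q := stQ_meas w e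
  have m1 : ∀ {X : Om → Arr w} (_ : Measurable X) (i j : Fin w), Measurable fun ω =>
      symM (X ω) i j := fun hX i j => measurable_symM hX i j
  have q2 : Measurable fun ω : Om => stQ w ω e m (stQ w ω e k 0 s) (s + k * w) :=
    measurable_stQ w e measurable_id m _ (q k s)
  refine (measurableSet_stR w e measurable_id k s measurable_const).inter
    ((measurableSet_stR w e measurable_id m _ (q k s)).inter
    ((measurableSet_stR w e measurable_id m _ measurable_const).inter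
    ((measurableSet_stR w e measurable_id m _ measurable_const).inter ?_)))
  have s1 : MeasurableSet {ω : Om | ∀ i j, |symM (stQ w ω e m 0 (s + k * w)) i j -
      symM (stQ w ω e m (stQ w ω e k 0 s) (s + k * w)) i j| ≤ η} := by
    have : {ω : Om | ∀ i j, |symM (stQ w ω e m 0 (s + k * w)) i j -
      symM (stQ w ω e m (stQ w ω e k 0 s) (s + k * w)) i j| ≤ η} = ⋂ i, ⋂ j,
      {ω : Om | |symM (stQ w ω e m 0 (s + k * w)) i j -
      symM (stQ w ω e m (stQ w ω e k 0 s) (s + k * w)) i j| ≤ η} := by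
      ext ω
      simp
    rw [this]
    exact MeasurableSet.iInter fun i => MeasurableSet.iInter fun j =>
      measurableSet_le ((m1 (q m _) i j).sub (m1 q2 i j)).norm measurable_const
  have s2 : MeasurableSet {ω : Om | ∀ i j, |symM (stQ w ω e m 0 (s + (k - m) * w)) i j -
      symM (stQ w ω e k 0 s) i j| ≤ η} := by
    have : {ω : Om | ∀ i j, |symM (stQ w ω e m 0 (s + (k - m) * w)) i j -
      symM (stQ w ω e k 0 s) i j| ≤ η} = ⋂ i, ⋂ j,
      {ω : Om | |symM (stQ w ω e m 0 (s + (k - m) * w)) i j -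
      symM (stQ w ω e k 0 s) i j| ≤ η} := by
      ext ω
      simp
    rw [this]
    exact MeasurableSet.iInter fun i => MeasurableSet.iInter fun j =>
      measurableSet_le ((m1 (q m _) i j).sub (m1 (q k s) i j)).norm measurable_const
  have s3 : ∀ (t n' : ℕ) (X : Om → Arr w), Measurable X →
      MeasurableSet {ω : Om | nInt (kM w ω e (X ω) t n') (w * η) = 0} := by
    intro t n' X hX
    have mk1 : ∀ i j, Measurable fun ω : Om => kM w ω e (X ω) t n' i j := fun i j =>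
      measurable_kM w measurable_id measurable_const hX t n' i j
    exact (measurable_nInt mk1 (w * η)) (measurableSet_singleton 0)
  exact s1.inter (s2.inter ((s3 _ _ _ (q m _)).inter (s3 _ _ _ (q m _))))

/-- Wegner estimate for long sections -/
def WegC (V : ℝ → ℝ) (w : ℕ) (β : ℝ) : Prop :=
  ∀ e₁ e₂ : ℝ, e₁ ≤ e₂ → ∀ s n : ℕ, w ≤ n →
    ∫⁻ ω, (cN w ω e₁ e₂ s n : ℝ≥0∞) ∂(Pm (lawV V)) ≤ n * ENNReal.ofReal (β * (e₂ - e₁))

theorem wegC_weak (h : NiceV V K) (w : ℕ) : WegC V w (2 * Real.exp (K / 2)) := by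
  have := h.prob
  exact fun e₁ e₂ he s n _ => cN_mean h.bddDens w he s n

/-- expectation of the defect of a cut -/
theorem cut_expect (h : NiceV V K) {β : ℝ} (hS : WegC V w β) {e₁ e₂ : ℝ} (he : e₁ ≤ e₂)
    {k m n s : ℕ} (hmk : m + 1 ≤ k) (hm : 1 ≤ m)
    (hmn : m * w ≤ n)
    {b g θ₁ : ℝ} (hb : 0 < b) (hg : 0 < g) (hθ₁ : 0 < θ₁) (hw : 1 ≤ w) {θ : ℝ≥0∞}
    (hL1 : LocP V w e₁ m θ) (hL2 : LocP V w e₂ m θ) :
    ∫⁻ ω, ENNReal.ofReal (defect w ω e₁ e₂ s (k * w) n) ∂(Pm (lawV V)) ≤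
      (4 * (m * w) : ℕ) * ENNReal.ofReal (β * (e₂ - e₁)) +
        (k * w + n : ℕ) * (2 * betaC K w m n b g θ₁ θ) := by
  have := h.prob
  have hw0 : (0 : ℝ) < w := by exact_mod_cast (lt_of_lt_of_le one_pos hw)
  set η : ℝ := (w : ℝ) ^ 2 * (θ₁ ^ 2 * ((w : ℝ) ^ 2 * (b ^ 2 * g))) with hη
  have hη0 : 0 ≤ η := by positivity
  set G1 := goodCut w e₁ k m n s η with hG1
  set G2 := goodCut w e₂ k m n s η with hG2
  have mG1 : MeasurableSet G1 := measurableSet_goodCut w e₁ k m n s η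
  have mG2 : MeasurableSet G2 := measurableSet_goodCut w e₂ k m n s η
  have mc : ∀ s n, Measurable fun ω : Om => (cN w ω e₁ e₂ s n : ℝ≥0∞) := fun s n =>
    measurable_from_top.comp (measurable_cN w e₁ e₂ s n)
  have pt : ∀ ω, ENNReal.ofReal (defect w ω e₁ e₂ s (k * w) n) ≤
      ((cN w ω e₁ e₂ (s + (k - m) * w) (m * w + m * w) : ℝ≥0∞) +
      (cN w ω e₁ e₂ (s + (k - m) * w) (m * w) : ℝ≥0∞) +
      (cN w ω e₁ e₂ (s + k * w) (m * w) : ℝ≥0∞)) +
      ((k * w + n : ℕ) : ℝ≥0∞) * (G1ᶜ.indicator 1 ω + G2ᶜ.indicator 1 ω) := by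
    intro ω
    by_cases hω1 : ω ∈ G1
    · by_cases hω2 : ω ∈ G2
      · refine le_trans ?_ le_self_add
        have := cut_pointwise w ω he (by omega) hmn hη0 hω1 hω2
        refine (ENNReal.ofReal_le_ofReal this).trans (le_of_eq ?_)
        rw [ENNReal.ofReal_add (by positivity) (by positivity),
          ENNReal.ofReal_add (by positivity) (by positivity), ENNReal.ofReal_natCast,
          ENNReal.ofReal_natCast, ENNReal.ofReal_natCast]
      · refine le_trans ?_ le_add_self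
        rw [Set.indicator_of_mem (s := G2ᶜ) hω2]
        refine (ENNReal.ofReal_le_ofReal (defect_le w ω e₁ e₂ s (k * w) n)).trans ?_
        rw [ENNReal.ofReal_natCast]
        exact le_mul_of_one_le_right zero_le le_add_self
    · refine le_trans ?_ le_add_self
      rw [Set.indicator_of_mem (s := G1ᶜ) hω1]
      refine (ENNReal.ofReal_le_ofReal (defect_le w ω e₁ e₂ s (k * w) n)).trans ?_
      rw [ENNReal.ofReal_natCast]
      exact le_mul_of_one_le_right zero_le le_self_add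
  have mi : ∀ {G : Set Om}, MeasurableSet G → Measurable (G.indicator (1 : Om → ℝ≥0∞)) :=
    fun hG => measurable_one.indicator hG
  have m12 : Measurable fun ω : Om => (cN w ω e₁ e₂ (s + (k - m) * w) (m * w + m * w) : ℝ≥0∞) +
      (cN w ω e₁ e₂ (s + (k - m) * w) (m * w) : ℝ≥0∞) := (mc _ _).add (mc _ _)
  have m123 : Measurable fun ω : Om => (cN w ω e₁ e₂ (s + (k - m) * w) (m * w + m * w) : ℝ≥0∞) +
      (cN w ω e₁ e₂ (s + (k - m) * w) (m * w) : ℝ≥0∞) +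
      (cN w ω e₁ e₂ (s + k * w) (m * w) : ℝ≥0∞) := m12.add (mc _ _)
  refine (lintegral_mono pt).trans ?_
  rw [lintegral_add_left m123, lintegral_add_left m12, lintegral_add_left (mc _ _)]
  have mG : Measurable fun ω : Om => G1ᶜ.indicator (1 : Om → ℝ≥0∞) ω +
      G2ᶜ.indicator (1 : Om → ℝ≥0∞) ω := (mi mG1.compl).add (mi mG2.compl)
  rw [lintegral_const_mul _ mG, lintegral_add_left (mi mG1.compl),
    lintegral_indicator_one mG1.compl, lintegral_indicator_one mG2.compl]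
  refine add_le_add ?_ ?_
  · have hmw : w ≤ m * w := Nat.le_mul_of_pos_left w hm
    have c1 := hS e₁ e₂ he (s + (k - m) * w) (m * w + m * w) (by omega)
    have c2 := hS e₁ e₂ he (s + (k - m) * w) (m * w) hmw
    have c3 := hS e₁ e₂ he (s + k * w) (m * w) hmw
    refine (add_le_add (add_le_add c1 c2) c3).trans (le_of_eq ?_)
    rw [← add_mul, ← add_mul]
    congr 1
    push_cast
    ring
  · have p1 := cut_prob h (e := e₁) (k := k) (m := m) (n := n) (s := s) hmk hb hg hθ₁ hw hL1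
    have p2 := cut_prob h (e := e₂) (k := k) (m := m) (n := n) (s := s) hmk hb hg hθ₁ hw hL2
    rw [two_mul]
    gcongr

end Run7.h834
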