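import Mathlib

/-! Product measures with densities `exp (-V)`: translations and homotheties. -/

set_option autoImplicit false
open MeasureTheory Measure Set
open scoped ENNReal NNReal

namespace Run7.h834

theorem lintegral_fin_prod {n : ℕ} (μ : Fin n → Measure ℝ)
    [∀ i, SigmaFinite (μ i)] (f : Fin n → ℝ → ℝ≥0∞) (hf : ∀ i, Measurable (f i)) :
    ∫⁻ x : Fin n → ℝ, ∏ i, f i (x i) ∂(Measure.pi μ) = ∏ i, ∫⁻ x, f i x ∂(μ i) := by
  induction n with
  | zero => simp
  | succ n n_ih =>
      calc
        _ = ∫⁻ x : ℝ × (Fin n → ℝ),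
            f 0 x.1 * ∏ i : Fin n, f (Fin.succ i) (x.2 i)
            ∂((μ 0).prod (Measure.pi (fun i ↦ μ i.succ))) := by
          rw [← ((measurePreserving_piFinSuccAbove μ 0).symm).lintegral_comp_emb
            (MeasurableEquiv.measurableEmbedding _)]
          simp_rw [MeasurableEquiv.piFinSuccAbove_symm_apply, Fin.insertNthEquiv,
            Fin.prod_univ_succ, Fin.insertNth_zero, Equiv.coe_fn_mk, Fin.cons_succ,
            Fin.zero_succAbove, cast_eq, Fin.cons_zero]
        _ = (∫⁻ x, f 0 x ∂μ 0)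
            * ∏ i : Fin n, ∫⁻ (x : ℝ), f (Fin.succ i) x ∂(μ i.succ) := by
          rw [← n_ih (fun i => μ i.succ) (fun i => f i.succ) (fun i => hf _)]
          exact lintegral_prod_mul (hf 0).aemeasurable (Finset.measurable_prod _ (fun i _ =>
            (hf _).comp (measurable_pi_apply i))).aemeasurable
        _ = ∏ i, ∫⁻ x, f i x ∂(μ i) := by rw [Fin.prod_univ_succ]

theorem lintegral_fintype_prod {ι : Type*} [Fintype ι] (μ : ι → Measure ℝ)
    [∀ i, SigmaFinite (μ i)] (f : ι → ℝ → ℝ≥0∞) (hf : ∀ i, Measurable (f i)) :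
    ∫⁻ x : ι → ℝ, ∏ i, f i (x i) ∂(Measure.pi μ) = ∏ i, ∫⁻ x, f i x ∂(μ i) := by
  let e := (Fintype.equivFin ι).symm
  rw [← (measurePreserving_piCongrLeft _ e).lintegral_comp_emb
    (MeasurableEquiv.measurableEmbedding _)]
  simp_rw [← e.prod_comp, MeasurableEquiv.coe_piCongrLeft, Equiv.piCongrLeft_apply_apply]
  exact lintegral_fin_prod (fun i => μ (e i)) (fun i => f (e i)) (fun i => hf _)

theorem pi_withDensity {ι : Type*} [Fintype ι] (g : ℝ → ℝ≥0∞) (hg : Measurable g)
    [SigmaFinite ((volume : Measure ℝ).withDensity g)] :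
    Measure.pi (fun _ : ι => (volume : Measure ℝ).withDensity g) =
      (volume : Measure (ι → ℝ)).withDensity (fun y => ∏ i, g (y i)) := by
  rw [volume_pi]
  apply Measure.pi_eq
  intro s hs
  rw [withDensity_apply _ (MeasurableSet.univ_pi hs), Measure.restrict_pi_pi,
    lintegral_fintype_prod _ _ (fun _ => hg)]
  apply Finset.prod_congr rfl
  intro i _
  rw [withDensity_apply _ (hs i)]

/-- the law with density `exp (-V)` -/
noncomputable def lawV (V : ℝ → ℝ) : Measure ℝ :=
  (volume : Measure ℝ).withDensity fun x => ENNReal.ofReal (Real.exp (-V x))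

variable {ι : Type*} [Fintype ι] {V : ℝ → ℝ}

/-- the density of the product law -/
noncomputable def densV (V : ℝ → ℝ) (a : ι → ℝ) : ℝ≥0∞ :=
  ENNReal.ofReal (Real.exp (-∑ i, V (a i)))

theorem measurable_densV (hV : Measurable V) : Measurable (densV V : (ι → ℝ) → ℝ≥0∞) := by
  unfold densV
  refine ENNReal.measurable_ofReal.comp (Real.measurable_exp.comp ?_)
  refine Measurable.neg ?_
  exact Finset.measurable_sum _ fun i _ => hV.comp (measurable_pi_apply i)

theorem pi_lawV (hV : Measurable V) [IsProbabilityMeasure (lawV V)] :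
    Measure.pi (fun _ : ι => lawV V) = (volume : Measure (ι → ℝ)).withDensity (densV V) := by
  have hm : Measurable fun x => ENNReal.ofReal (Real.exp (-V x)) :=
    ENNReal.measurable_ofReal.comp (Real.measurable_exp.comp hV.neg)
  have : SigmaFinite ((volume : Measure ℝ).withDensity fun x => ENNReal.ofReal (Real.exp (-V x))) :=
    by
      have : IsProbabilityMeasure
        ((volume : Measure ℝ).withDensity fun x => ENNReal.ofReal (Real.exp (-V x))) :=
        (inferInstance : IsProbabilityMeasure (lawV V))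
      infer_instance
  have h := pi_withDensity (ι := ι) _ hm
  unfold lawV
  rw [h]
  congr 1
  funext y
  unfold densV
  rw [← Finset.sum_neg_distrib, Real.exp_sum, ENNReal.ofReal_prod_of_nonneg]
  exact fun i _ => (Real.exp_pos _).le

theorem lintegral_pi_lawV (hV : Measurable V) [IsProbabilityMeasure (lawV V)]
    {F : (ι → ℝ) → ℝ≥0∞} (hF : Measurable F) :
    ∫⁻ a, F a ∂(Measure.pi fun _ : ι => lawV V) = ∫⁻ a, F a * densV V a := by
  rw [pi_lawV hV, lintegral_withDensity_eq_lintegral_mul _ (measurable_densV hV) hF]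
  refine lintegral_congr fun a => ?_
  rw [Pi.mul_apply, mul_comm]

/-- ratio of densities -/
noncomputable def ratV (V : ℝ → ℝ) (a a' : ι → ℝ) : ℝ :=
  Real.exp (∑ i, (V (a i) - V (a' i)))

theorem densV_ratV (V : ℝ → ℝ) (a a' : ι → ℝ) :
    ENNReal.ofReal (ratV V a a') * densV V a = densV V a' := by
  unfold densV ratV
  rw [← ENNReal.ofReal_mul (Real.exp_pos _).le, ← Real.exp_add]
  congr 2
  rw [Finset.sum_sub_distrib]
  ring

theorem measurable_ratV (hV : Measurable V) {α : Type*} [MeasurableSpace α] {f g : α → ι → ℝ}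
    (hf : Measurable f) (hg : Measurable g) : Measurable fun x => ratV V (f x) (g x) := by
  unfold ratV
  refine Real.measurable_exp.comp (Finset.measurable_sum _ fun i _ => ?_)
  exact (hV.comp ((measurable_pi_apply i).comp hf)).sub
    (hV.comp ((measurable_pi_apply i).comp hg))

/-- quasi-invariance under translations -/
theorem lintegral_shift (hV : Measurable V) [IsProbabilityMeasure (lawV V)]
    {F : (ι → ℝ) → ℝ≥0∞} (hF : Measurable F) (y : ι → ℝ) :
    ∫⁻ a, F a ∂(Measure.pi fun _ : ι => lawV V) =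
      ∫⁻ a, F (a + y) * ENNReal.ofReal (ratV V a (a + y)) ∂(Measure.pi fun _ : ι => lawV V) := by
  have hm : Measurable fun a : ι → ℝ => a + y := measurable_id.add_const y
  rw [lintegral_pi_lawV hV hF, lintegral_pi_lawV hV
    (F := fun a => F (a + y) * ENNReal.ofReal (ratV V a (a + y)))
    ((hF.comp hm).mul (ENNReal.measurable_ofReal.comp (measurable_ratV hV measurable_id hm)))]
  rw [← lintegral_add_right_eq_self _ y]
  refine lintegral_congr fun a => ?_
  rw [mul_assoc, densV_ratV]

/-- the homothety with centre `c` and ratio `s` -/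
def homo (s : ℝ) (c a : ι → ℝ) : ι → ℝ := s • a + (1 - s) • c

omit [Fintype ι] in
theorem measurable_homo (s : ℝ) (c : ι → ℝ) : Measurable (homo s c) :=
  (measurable_id.const_smul s).add_const _

theorem lintegral_volume_homo {s : ℝ} (hs : 0 < s) (c : ι → ℝ) {F : (ι → ℝ) → ℝ≥0∞}
    (hF : Measurable F) :
    ∫⁻ a, F a = ENNReal.ofReal (s ^ Fintype.card ι) * ∫⁻ a, F (homo s c a) := by
  have h1 : ∫⁻ a, F (homo s c a) = ∫⁻ a, (fun x => F (x + (1 - s) • c)) (s • a) := rfl
  have hm : Measurable fun x : ι → ℝ => F (x + (1 - s) • c) := hF.comp (measurable_id.add_const _)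
  have h2 : ∫⁻ a : ι → ℝ, (fun x => F (x + (1 - s) • c)) (s • a) =
      ∫⁻ a, F (a + (1 - s) • c) ∂(Measure.map (fun x : ι → ℝ => s • x) volume) :=
    (lintegral_map hm (measurable_id.const_smul s)).symm
  rw [h1, h2, Measure.map_addHaar_smul volume hs.ne', lintegral_smul_measure,
    lintegral_add_right_eq_self, Module.finrank_fintype_fun_eq_card, smul_eq_mul, ← mul_assoc,
    ← ENNReal.ofReal_mul (by positivity), abs_of_pos (by positivity), mul_inv_cancel₀
    (by positivity), ENNReal.ofReal_one, one_mul]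

/-- quasi-invariance under homotheties -/
theorem lintegral_homo (hV : Measurable V) [IsProbabilityMeasure (lawV V)]
    {F : (ι → ℝ) → ℝ≥0∞} (hF : Measurable F) {s : ℝ} (hs : 0 < s) (c : ι → ℝ) :
    ∫⁻ a, F a ∂(Measure.pi fun _ : ι => lawV V) =
      ∫⁻ a, F (homo s c a) * ENNReal.ofReal (s ^ Fintype.card ι * ratV V a (homo s c a))
        ∂(Measure.pi fun _ : ι => lawV V) := by
  have hm := measurable_homo (ι := ι) s c
  rw [lintegral_pi_lawV hV hF, lintegral_pi_lawV hV
    (F := fun a => F (homo s c a) *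
      ENNReal.ofReal (s ^ Fintype.card ι * ratV V a (homo s c a)))
    ((hF.comp hm).mul (ENNReal.measurable_ofReal.comp
      ((measurable_ratV hV measurable_id hm).const_mul _)))]
  rw [lintegral_volume_homo hs c (F := fun a => F a * densV V a)
    (hF.mul (measurable_densV hV)), ← lintegral_const_mul']
  · refine lintegral_congr fun a => ?_
    rw [ENNReal.ofReal_mul (by positivity), ← densV_ratV V a (homo s c a)]
    ring
  · exact ENNReal.ofReal_ne_top

end Run7.h834
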