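import Pool.Agent.Run7.h834.Meas

set_option autoImplicit false

open Matrix Module MeasureTheory Topology Filter
open scoped ENNReal

namespace Run7.h834

variable {ι κ : Type*} [Fintype ι] [Fintype κ] [DecidableEq ι]

/-- the law has a density bounded by `D` -/
def BddDens (μ : Measure ℝ) (D : ℝ) : Prop :=
  ∀ a b : ℝ, a ≤ b → μ (Set.Icc a b) ≤ ENNReal.ofReal (D * (b - a))

/-- the index of `K + diag v` -/
noncomputable def dIdx (K : Matrix ι ι ℝ) (v : ι → ℝ) : ℕ :=
  negIdx (K + Matrix.diagonal v)

theorem measurable_dIdx (K : Matrix ι ι ℝ) : Measurable (dIdx K) := by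
  refine measurable_negIdx_comp fun i j => ?_
  by_cases h : i = j
  · subst h
    simp only [Matrix.add_apply, Matrix.diagonal_apply_eq]
    exact measurable_const.add (measurable_pi_apply i)
  · simp only [Matrix.add_apply, Matrix.diagonal_apply_ne _ h]
    exact measurable_const

omit [Fintype ι] in
theorem diagonal_update_eq (K : Matrix ι ι ℝ) (v : ι → ℝ) (k : ι) (a b : ℝ) :
    K + Matrix.diagonal (Function.update v k b) =
      (K + Matrix.diagonal (Function.update v k a)) + Matrix.single k k (b - a) := by
  ext i j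
  simp only [Matrix.add_apply, Matrix.single_apply]
  by_cases h : i = j
  · subst h
    simp only [Matrix.diagonal_apply_eq]
    by_cases hk : k = i
    · subst hk
      simp
    · simp [Function.update_of_ne (Ne.symm hk), hk]
  · rw [Matrix.diagonal_apply_ne _ h, Matrix.diagonal_apply_ne _ h]
    have : ¬ (k = i ∧ k = j) := fun hh => h (hh.1.symm.trans hh.2)
    simp [this]

theorem dIdx_anti (K : Matrix ι ι ℝ) (v : ι → ℝ) (k : ι) {a b : ℝ} (h : a ≤ b) :
    dIdx K (Function.update v k b) ≤ dIdx K (Function.update v k a) := by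
  unfold dIdx
  rw [diagonal_update_eq K v k a b]
  exact negIdx_add_single_le _ _ (sub_nonneg.2 h)

theorem dIdx_osc (K : Matrix ι ι ℝ) (v : ι → ℝ) (k : ι) (a b : ℝ) :
    dIdx K (Function.update v k a) ≤ dIdx K (Function.update v k b) + 1 := by
  unfold dIdx
  rw [diagonal_update_eq K v k a b]
  exact negIdx_le_add_single _ _ _

theorem dIdx_mono_shift (K : Matrix ι ι ℝ) {v v' : ι → ℝ} (h : ∀ i, v' i ≤ v i) :
    dIdx K v ≤ dIdx K v' := by
  unfold dIdx
  refine negIdx_mono fun x => ?_
  rw [quad_add, quad_add]
  have : ∀ d : ι → ℝ, x ⬝ᵥ (Matrix.diagonal d *ᵥ x) = ∑ i, d i * x i ^ 2 := by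
    intro d
    simp only [dotProduct, Matrix.mulVec_diagonal]
    exact Finset.sum_congr rfl fun i _ => by ring
  rw [this, this]
  have h2 : ∑ i, v' i * x i ^ 2 ≤ ∑ i, v i * x i ^ 2 :=
    Finset.sum_le_sum fun i _ => mul_le_mul_of_nonneg_right (h i) (sq_nonneg _)
  linarith

/-- one variable: an antitone function with oscillation at most one -/
theorem one_var {μ : Measure ℝ} {D : ℝ} (hμ : BddDens μ D) {φ : ℝ → ℕ}
    (h1 : Antitone φ) (h2 : ∀ a b, φ a ≤ φ b + 1) {t : ℝ} (ht : 0 ≤ t) :
    ∫⁻ y, ((φ (y - t) - φ y : ℕ) : ℝ≥0∞) ∂μ ≤ ENNReal.ofReal (2 * D * t) := by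
  by_cases hex : ∃ y0, φ (y0 - t) ≠ φ y0
  · obtain ⟨y0, hy0⟩ := hex
    have hsub : ∀ y, φ (y - t) ≠ φ y → y ∈ Set.Icc (y0 - t) (y0 + t) := by
      intro y hy
      have a1 : φ y0 ≤ φ (y0 - t) := h1 (by linarith)
      have a2 : φ y ≤ φ (y - t) := h1 (by linarith)
      constructor
      · by_contra hc
        push Not at hc
        have a3 : φ (y0 - t) ≤ φ y := h1 hc.le
        have a4 := h2 (y - t) y0
        omega
      · by_contra hc
        push Not at hc
        have a3 : φ (y - t) ≤ φ y0 := h1 (by linarith)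
        have a4 := h2 (y0 - t) y
        omega
    calc ∫⁻ y, ((φ (y - t) - φ y : ℕ) : ℝ≥0∞) ∂μ
        ≤ ∫⁻ y, (Set.Icc (y0 - t) (y0 + t)).indicator 1 y ∂μ := by
          refine lintegral_mono fun y => ?_
          by_cases hy : φ (y - t) = φ y
          · simp [hy]
          · rw [Set.indicator_of_mem (hsub y hy)]
            have := h2 (y - t) y
            have h3 : φ (y - t) - φ y ≤ 1 := by omega
            calc ((φ (y - t) - φ y : ℕ) : ℝ≥0∞) ≤ ((1 : ℕ) : ℝ≥0∞) := Nat.cast_le.2 h3
              _ = _ := by simp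
      _ = μ (Set.Icc (y0 - t) (y0 + t)) := lintegral_indicator_one measurableSet_Icc
      _ ≤ ENNReal.ofReal (D * ((y0 + t) - (y0 - t))) := hμ _ _ (by linarith)
      _ = ENNReal.ofReal (2 * D * t) := by
          congr 1
          ring
  · push Not at hex
    have : ∀ y, ((φ (y - t) - φ y : ℕ) : ℝ≥0∞) = 0 := by
      intro y
      simp [hex y]
    simp [this]

/-- subtract `t` on `s` -/
noncomputable def sub' (s : Finset ι) (t : ℝ) (v : ι → ℝ) : ι → ℝ :=
  fun i => v i - if i ∈ s then t else 0

omit [Fintype ι] in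
theorem measurable_sub' (s : Finset ι) (t : ℝ) : Measurable (sub' s t) :=
  measurable_pi_iff.2 fun i => (measurable_pi_apply i).sub_const _

omit [Fintype ι] in
theorem sub'_insert {s : Finset ι} {k : ι} (hk : k ∉ s) (t : ℝ) (v : ι → ℝ) (y : ℝ) :
    sub' (insert k s) t (Function.update v k y) = Function.update (sub' s t v) k (y - t) := by
  funext i
  by_cases h : i = k
  · subst h
    simp [sub']
  · simp [sub', h]

omit [Fintype ι] in
theorem sub'_update {s : Finset ι} {k : ι} (hk : k ∉ s) (t : ℝ) (v : ι → ℝ) (y : ℝ) :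
    sub' s t (Function.update v k y) = Function.update (sub' s t v) k y := by
  funext i
  by_cases h : i = k
  · subst h
    simp [sub', hk]
  · simp [sub', h]

theorem dIdx_sub'_le (K : Matrix ι ι ℝ) {s s' : Finset ι} (h : s ⊆ s') {t : ℝ} (ht : 0 ≤ t)
    (v : ι → ℝ) : dIdx K (sub' s t v) ≤ dIdx K (sub' s' t v) := by
  refine dIdx_mono_shift K fun i => ?_
  unfold sub'
  by_cases h1 : i ∈ s
  · simp [h1, h h1]
  · by_cases h2 : i ∈ s'
    · simp [h1, h2, ht]
    · simp [h1, h2]

omit [Fintype ι] in
theorem sub'_empty (t : ℝ) (v : ι → ℝ) : sub' ∅ t v = v := by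
  funext i
  simp [sub']

theorem step_bound {μ : Measure ℝ} {D : ℝ} (hμ : BddDens μ D) (K : Matrix ι ι ℝ)
    {s : Finset ι} {k : ι} (hk : k ∉ s) {t : ℝ} (ht : 0 ≤ t) (v : ι → ℝ) :
    ∫⁻ y, ((dIdx K (sub' (insert k s) t (Function.update v k y)) -
      dIdx K (sub' s t (Function.update v k y)) : ℕ) : ℝ≥0∞) ∂μ ≤ ENNReal.ofReal (2 * D * t) := by
  have h := one_var hμ (φ := fun y => dIdx K (Function.update (sub' s t v) k y))
    (fun a b hab => dIdx_anti K _ k hab) (fun a b => dIdx_osc K _ k a b) ht
  refine le_trans (le_of_eq ?_) h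
  refine lintegral_congr fun y => ?_
  rw [sub'_insert hk, sub'_update hk]

/-- **Wegner estimate**, expected number of eigenvalues -/
theorem wegner_aux {μ : Measure ℝ} [IsProbabilityMeasure μ] {D : ℝ} (hμ : BddDens μ D)
    (K : Matrix ι ι ℝ) {t : ℝ} (ht : 0 ≤ t) (s : Finset ι) :
    ∫⁻ v, ((dIdx K (sub' s t v) - dIdx K v : ℕ) : ℝ≥0∞) ∂(Measure.pi fun _ : ι => μ) ≤
      s.card * ENNReal.ofReal (2 * D * t) := by
  induction s using Finset.induction_on with
  | empty =>
    simp [sub'_empty]
  | insert k s hk ih =>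
    have m1 : Measurable fun v : ι → ℝ => ((dIdx K (sub' (insert k s) t v) -
        dIdx K (sub' s t v) : ℕ) : ℝ≥0∞) :=
      (measurable_from_top (f := fun n : ℕ => (n : ℝ≥0∞))).comp
        (((measurable_dIdx K).comp (measurable_sub' _ t)).sub
          ((measurable_dIdx K).comp (measurable_sub' _ t)))
    have m2 : Measurable fun v : ι → ℝ => ((dIdx K (sub' s t v) -
        dIdx K v : ℕ) : ℝ≥0∞) :=
      (measurable_from_top (f := fun n : ℕ => (n : ℝ≥0∞))).comp
        (((measurable_dIdx K).comp (measurable_sub' _ t)).sub (measurable_dIdx K))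
    calc ∫⁻ v, ((dIdx K (sub' (insert k s) t v) - dIdx K v : ℕ) : ℝ≥0∞)
          ∂(Measure.pi fun _ : ι => μ)
        = ∫⁻ v, (((dIdx K (sub' (insert k s) t v) - dIdx K (sub' s t v) : ℕ) : ℝ≥0∞) +
            ((dIdx K (sub' s t v) - dIdx K v : ℕ) : ℝ≥0∞)) ∂(Measure.pi fun _ : ι => μ) := by
          refine lintegral_congr fun v => ?_
          have h1 := dIdx_sub'_le K (Finset.subset_insert k s) ht v
          have h2 := dIdx_sub'_le K (Finset.empty_subset s) ht v
          rw [sub'_empty] at h2
          rw [← Nat.cast_add]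
          congr 1
          omega
      _ = ∫⁻ v, ((dIdx K (sub' (insert k s) t v) - dIdx K (sub' s t v) : ℕ) : ℝ≥0∞)
            ∂(Measure.pi fun _ : ι => μ) +
          ∫⁻ v, ((dIdx K (sub' s t v) - dIdx K v : ℕ) : ℝ≥0∞) ∂(Measure.pi fun _ : ι => μ) :=
          lintegral_add_left m1 _
      _ ≤ ENNReal.ofReal (2 * D * t) + s.card * ENNReal.ofReal (2 * D * t) := by
          refine add_le_add ?_ ih
          rw [← lintegral_resample μ k m1]
          calc _ ≤ ∫⁻ _x : ι → ℝ, ENNReal.ofReal (2 * D * t) ∂(Measure.pi fun _ : ι => μ) :=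
                lintegral_mono fun v => step_bound hμ K hk ht v
            _ = _ := by simp
      _ = _ := by
          rw [Finset.card_insert_of_notMem hk]
          push_cast
          ring

/-- the number of eigenvalues of `K + diag v` in `[e, e+t)` -/
noncomputable def cnt (K : Matrix ι ι ℝ) (t : ℝ) (v : ι → ℝ) : ℕ :=
  dIdx K (sub' Finset.univ t v) - dIdx K v

theorem measurable_cnt (K : Matrix ι ι ℝ) (t : ℝ) : Measurable (cnt K t) :=
  ((measurable_dIdx K).comp (measurable_sub' _ t)).sub (measurable_dIdx K)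

theorem wegner {μ : Measure ℝ} [IsProbabilityMeasure μ] {D : ℝ} (hμ : BddDens μ D)
    (K : Matrix ι ι ℝ) {t : ℝ} (ht : 0 ≤ t) :
    ∫⁻ v, (cnt K t v : ℝ≥0∞) ∂(Measure.pi fun _ : ι => μ) ≤
      Fintype.card ι * ENNReal.ofReal (2 * D * t) := by
  have := wegner_aux hμ K ht Finset.univ
  rwa [Finset.card_univ] at this

theorem dIdx_le_dIdx_sub'_univ (K : Matrix ι ι ℝ) {t : ℝ} (ht : 0 ≤ t) (v : ι → ℝ) :
    dIdx K v ≤ dIdx K (sub' Finset.univ t v) := by
  have := dIdx_sub'_le K (Finset.empty_subset Finset.univ) ht v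
  rwa [sub'_empty] at this

omit [Fintype ι] in
theorem sub'_univ_update [Fintype ι] (t : ℝ) (v : ι → ℝ) (k : ι) (y : ℝ) :
    sub' Finset.univ t (Function.update v k y) =
      Function.update (sub' Finset.univ t v) k (y - t) := by
  funext i
  by_cases h : i = k
  · subst h
    simp [sub']
  · simp [sub', h]

theorem cnt_update (K : Matrix ι ι ℝ) {t : ℝ} (ht : 0 ≤ t) (v : ι → ℝ) (k : ι) (y : ℝ) :
    cnt K t v ≤ cnt K t (Function.update v k y) + 1 := by
  unfold cnt
  rw [sub'_univ_update]
  have hv : v = Function.update v k (v k) := (Function.update_eq_self k v).symm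
  have hv' : sub' Finset.univ t v = Function.update (sub' Finset.univ t v) k (v k - t) := by
    conv_lhs => rw [hv, sub'_univ_update]
  rcases le_total y (v k) with h | h
  · have h1 : dIdx K (sub' Finset.univ t v) ≤
        dIdx K (Function.update (sub' Finset.univ t v) k (y - t)) := by
      conv_lhs => rw [hv']
      exact dIdx_anti K _ k (by linarith)
    have h2 : dIdx K (Function.update v k y) ≤ dIdx K v + 1 := by
      conv_rhs => rw [hv]
      exact dIdx_osc K _ k _ _
    omega
  · have h1 : dIdx K (sub' Finset.univ t v) ≤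
        dIdx K (Function.update (sub' Finset.univ t v) k (y - t)) + 1 := by
      conv_lhs => rw [hv']
      exact dIdx_osc K _ k _ _
    have h2 : dIdx K (Function.update v k y) ≤ dIdx K v := by
      conv_rhs => rw [hv]
      exact dIdx_anti K _ k h
    omega

/-- **Minami estimate** -/
theorem minami_aux {μ : Measure ℝ} [IsProbabilityMeasure μ] {D : ℝ} (hμ : BddDens μ D)
    (K : Matrix ι ι ℝ) {t : ℝ} (ht : 0 ≤ t) (s : Finset ι) :
    ∫⁻ v, (((dIdx K (sub' s t v) - dIdx K v) * (cnt K t v - 1) : ℕ) : ℝ≥0∞)
        ∂(Measure.pi fun _ : ι => μ) ≤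
      s.card * (ENNReal.ofReal (2 * D * t) *
        ∫⁻ v, (cnt K t v : ℝ≥0∞) ∂(Measure.pi fun _ : ι => μ)) := by
  induction s using Finset.induction_on with
  | empty =>
    simp [sub'_empty]
  | insert k s hk ih =>
    have m0 : Measurable fun v : ι → ℝ => dIdx K (sub' (insert k s) t v) -
        dIdx K (sub' s t v) :=
      (((measurable_dIdx K).comp (measurable_sub' _ t)).sub
          ((measurable_dIdx K).comp (measurable_sub' _ t)))
    have mc := measurable_cnt K t
    have cast : Measurable fun n : ℕ => (n : ℝ≥0∞) := measurable_from_top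
    have m1 : Measurable fun v : ι → ℝ => (((dIdx K (sub' (insert k s) t v) -
        dIdx K (sub' s t v)) * (cnt K t v - 1) : ℕ) : ℝ≥0∞) :=
      cast.comp (m0.mul (mc.sub measurable_const))
    calc ∫⁻ v, (((dIdx K (sub' (insert k s) t v) - dIdx K v) * (cnt K t v - 1) : ℕ) : ℝ≥0∞)
          ∂(Measure.pi fun _ : ι => μ)
        = ∫⁻ v, ((((dIdx K (sub' (insert k s) t v) - dIdx K (sub' s t v)) *
            (cnt K t v - 1) : ℕ) : ℝ≥0∞) +
            (((dIdx K (sub' s t v) - dIdx K v) * (cnt K t v - 1) : ℕ) : ℝ≥0∞))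
            ∂(Measure.pi fun _ : ι => μ) := by
          refine lintegral_congr fun v => ?_
          have h1 := dIdx_sub'_le K (Finset.subset_insert k s) ht v
          have h2 := dIdx_sub'_le K (Finset.empty_subset s) ht v
          rw [sub'_empty] at h2
          rw [← Nat.cast_add, ← Nat.add_mul]
          congr 2
          omega
      _ = ∫⁻ v, (((dIdx K (sub' (insert k s) t v) - dIdx K (sub' s t v)) *
            (cnt K t v - 1) : ℕ) : ℝ≥0∞) ∂(Measure.pi fun _ : ι => μ) +
          ∫⁻ v, (((dIdx K (sub' s t v) - dIdx K v) * (cnt K t v - 1) : ℕ) : ℝ≥0∞)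
            ∂(Measure.pi fun _ : ι => μ) := lintegral_add_left m1 _
      _ ≤ ENNReal.ofReal (2 * D * t) *
            ∫⁻ v, (cnt K t v : ℝ≥0∞) ∂(Measure.pi fun _ : ι => μ) +
          s.card * (ENNReal.ofReal (2 * D * t) *
            ∫⁻ v, (cnt K t v : ℝ≥0∞) ∂(Measure.pi fun _ : ι => μ)) := by
          refine add_le_add ?_ ih
          -- resample the coordinate `k` in the first factor; the count is compared with an
          -- independent copy
          have e1 : ∀ v : ι → ℝ, ∀ y z : ℝ,
              (((dIdx K (sub' (insert k s) t (Function.update v k y)) -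
                dIdx K (sub' s t (Function.update v k y))) *
                (cnt K t (Function.update v k y) - 1) : ℕ) : ℝ≥0∞) ≤
              ((dIdx K (sub' (insert k s) t (Function.update v k y)) -
                dIdx K (sub' s t (Function.update v k y)) : ℕ) : ℝ≥0∞) *
                (cnt K t (Function.update v k z) : ℝ≥0∞) := by
            intro v y z
            rw [← Nat.cast_mul]
            have h3 := cnt_update K ht (Function.update v k y) k z
            rw [Function.update_idem] at h3
            exact_mod_cast Nat.mul_le_mul_left _ (by omega)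
          rw [← lintegral_resample μ k m1]
          calc ∫⁻ v, ∫⁻ y, (((dIdx K (sub' (insert k s) t (Function.update v k y)) -
                dIdx K (sub' s t (Function.update v k y))) *
                (cnt K t (Function.update v k y) - 1) : ℕ) : ℝ≥0∞) ∂μ
                ∂(Measure.pi fun _ : ι => μ)
              ≤ ∫⁻ v, ENNReal.ofReal (2 * D * t) *
                  (∫⁻ z, (cnt K t (Function.update v k z) : ℝ≥0∞) ∂μ)
                ∂(Measure.pi fun _ : ι => μ) := by
                refine lintegral_mono fun v => ?_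
                have mz : Measurable fun z : ℝ => (cnt K t (Function.update v k z) : ℝ≥0∞) :=
                  cast.comp (mc.comp (measurable_update v))
                calc ∫⁻ y, (((dIdx K (sub' (insert k s) t (Function.update v k y)) -
                      dIdx K (sub' s t (Function.update v k y))) *
                      (cnt K t (Function.update v k y) - 1) : ℕ) : ℝ≥0∞) ∂μ
                    ≤ ∫⁻ y, ((dIdx K (sub' (insert k s) t (Function.update v k y)) -
                        dIdx K (sub' s t (Function.update v k y)) : ℕ) : ℝ≥0∞) *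
                        (∫⁻ z, (cnt K t (Function.update v k z) : ℝ≥0∞) ∂μ) ∂μ := by
                      refine lintegral_mono fun y => ?_
                      calc _ = ∫⁻ _z : ℝ, (((dIdx K (sub' (insert k s) t (Function.update v k y)) -
                              dIdx K (sub' s t (Function.update v k y))) *
                              (cnt K t (Function.update v k y) - 1) : ℕ) : ℝ≥0∞) ∂μ := by
                            simp
                        _ ≤ ∫⁻ z, ((dIdx K (sub' (insert k s) t (Function.update v k y)) -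
                              dIdx K (sub' s t (Function.update v k y)) : ℕ) : ℝ≥0∞) *
                              (cnt K t (Function.update v k z) : ℝ≥0∞) ∂μ :=
                            lintegral_mono fun z => e1 v y z
                        _ = _ := lintegral_const_mul _ mz
                  _ = (∫⁻ y, ((dIdx K (sub' (insert k s) t (Function.update v k y)) -
                        dIdx K (sub' s t (Function.update v k y)) : ℕ) : ℝ≥0∞) ∂μ) *
                        (∫⁻ z, (cnt K t (Function.update v k z) : ℝ≥0∞) ∂μ) :=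
                      lintegral_mul_const _ (cast.comp (m0.comp (measurable_update v)))
                  _ ≤ _ := by
                      gcongr
                      exact step_bound hμ K hk ht v
            _ = ENNReal.ofReal (2 * D * t) *
                  ∫⁻ v, (∫⁻ z, (cnt K t (Function.update v k z) : ℝ≥0∞) ∂μ)
                ∂(Measure.pi fun _ : ι => μ) := by
                rw [lintegral_const_mul']
                exact ENNReal.ofReal_ne_top
            _ = _ := by
                rw [lintegral_resample μ k (F := fun v => (cnt K t v : ℝ≥0∞)) (cast.comp mc)]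
      _ = _ := by
          rw [Finset.card_insert_of_notMem hk]
          push_cast
          ring

theorem minami {μ : Measure ℝ} [IsProbabilityMeasure μ] {D : ℝ} (hμ : BddDens μ D)
    (K : Matrix ι ι ℝ) {t : ℝ} (ht : 0 ≤ t) :
    ∫⁻ v, ((cnt K t v * (cnt K t v - 1) : ℕ) : ℝ≥0∞) ∂(Measure.pi fun _ : ι => μ) ≤
      (Fintype.card ι * ENNReal.ofReal (2 * D * t)) ^ 2 := by
  have h := minami_aux hμ K ht Finset.univ
  rw [Finset.card_univ] at h
  refine le_trans h ?_
  calc _ ≤ (Fintype.card ι : ℝ≥0∞) * (ENNReal.ofReal (2 * D * t) *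
        (Fintype.card ι * ENNReal.ofReal (2 * D * t))) := by
        refine mul_le_mul_right ?_ _
        refine mul_le_mul_right ?_ _
        exact wegner hμ K ht
    _ = _ := by ring

end Run7.h834
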