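import Pool.Agent.Run7.h834.Dens
import Pool.Agent.Run7.h834.Wegner

/-! Laws with density `exp (-V)`, where `V'` is Lipschitz. -/

set_option autoImplicit false
open MeasureTheory Set
open scoped ENNReal

namespace Run7.h834

/-- the standing assumptions on the potential `V` -/
structure NiceV (V : ℝ → ℝ) (K : ℝ) : Prop where
  one_le : 1 ≤ K
  diff : Differentiable ℝ V
  lip : ∀ x y, |deriv V x - deriv V y| ≤ K * |x - y|
  prob : IsProbabilityMeasure (lawV V)
  mean : ∫ x, x ∂(lawV V) = 0
  var : ∫ x, x ^ 2 ∂(lawV V) = 1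
  moments : ∀ k : ℕ, Integrable (fun x => |x| ^ k) (lawV V)

variable {V : ℝ → ℝ} {K : ℝ}

theorem NiceV.continuous_deriv (h : NiceV V K) : Continuous (deriv V) := by
  have h1 : LipschitzWith (Real.toNNReal K) (deriv V) := by
    refine LipschitzWith.of_dist_le_mul fun x y => ?_
    rw [Real.dist_eq, Real.dist_eq, Real.coe_toNNReal _ (by linarith [h.one_le])]
    exact h.lip x y
  exact h1.continuous

theorem NiceV.meas (h : NiceV V K) : Measurable V := h.diff.continuous.measurable

/-- Taylor estimate -/
theorem NiceV.taylor (h : NiceV V K) (x u : ℝ) :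
    |V (x + u) - V x - deriv V x * u| ≤ K * u ^ 2 / 2 := by
  have hK : 0 ≤ K := by linarith [h.one_le]
  have hd : ∀ t : ℝ, HasDerivAt (fun t : ℝ => V (x + t * u) - V x - deriv V x * (t * u))
      ((deriv V (x + t * u) - deriv V x) * u) t := by
    intro t
    have h1 : HasDerivAt (fun t : ℝ => x + t * u) u t := by
      simpa using ((hasDerivAt_id t).mul_const u).const_add x
    have h2 : HasDerivAt (fun t : ℝ => V (x + t * u)) (deriv V (x + t * u) * u) t :=
      (h.diff (x + t * u)).hasDerivAt.comp t h1
    have h3 : HasDerivAt (fun t : ℝ => deriv V x * (t * u)) (deriv V x * u) t := by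
      simpa using ((hasDerivAt_id t).mul_const u).const_mul (deriv V x)
    have h4 : HasDerivAt (fun t : ℝ => V (x + t * u) - V x - deriv V x * (t * u))
        (deriv V (x + t * u) * u - deriv V x * u) t := (h2.sub_const (V x)).sub h3
    rw [sub_mul]
    exact h4
  -- compare with K t^2 u^2 / 2 on [0,1]
  have key : ∀ (σ : ℝ), |σ| = 1 → σ * (V (x + u) - V x - deriv V x * u) ≤ K * u ^ 2 / 2 := by
    intro σ hσ
    have hmono : MonotoneOn (fun t : ℝ => K * u ^ 2 * t ^ 2 / 2 -
        σ * (V (x + t * u) - V x - deriv V x * (t * u))) (Icc 0 1) := by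
      refine monotoneOn_of_deriv_nonneg (convex_Icc 0 1) ?_ ?_ ?_
      · intro t _
        exact ((((continuous_id.pow 2).const_smul (K * u ^ 2)).div_const 2).continuousAt.sub
          ((hd t).continuousAt.const_smul σ)).continuousWithinAt
      · intro t _
        exact ((((hasDerivAt_pow 2 t).const_mul (K * u ^ 2)).div_const 2).sub
          ((hd t).const_mul σ)).differentiableAt.differentiableWithinAt
      · intro t ht
        rw [interior_Icc] at ht
        have h5 : HasDerivAt (fun t : ℝ => K * u ^ 2 * t ^ 2 / 2 -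
          σ * (V (x + t * u) - V x - deriv V x * (t * u)))
            (K * u ^ 2 * t - σ * ((deriv V (x + t * u) - deriv V x) * u)) t := by
          have h51 : HasDerivAt (fun t : ℝ => K * u ^ 2 * t ^ 2 / 2 -
            σ * (V (x + t * u) - V x - deriv V x * (t * u))) _ t :=
            (((hasDerivAt_pow 2 t).const_mul (K * u ^ 2)).div_const 2).sub ((hd t).const_mul σ)
          refine h51.congr_deriv ?_
          push_cast
          ring
        rw [h5.deriv]
        have h6 : |σ * ((deriv V (x + t * u) - deriv V x) * u)| ≤ K * u ^ 2 * t := by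
          rw [abs_mul, hσ, one_mul, abs_mul]
          have h7 := h.lip (x + t * u) x
          have h8 : |x + t * u - x| = t * |u| := by
            rw [add_sub_cancel_left, abs_mul, abs_of_pos ht.1]
          rw [h8] at h7
          calc |deriv V (x + t * u) - deriv V x| * |u| ≤ (K * (t * |u|)) * |u| :=
                mul_le_mul_of_nonneg_right h7 (abs_nonneg _)
            _ = K * u ^ 2 * t := by
                rw [← sq_abs u]
                ring
        linarith [le_abs_self (σ * ((deriv V (x + t * u) - deriv V x) * u))]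
    have h9 := hmono (left_mem_Icc.2 zero_le_one) (right_mem_Icc.2 zero_le_one) zero_le_one
    simp only [zero_mul, add_zero, sub_self, mul_zero, one_mul, one_pow, mul_one] at h9
    norm_num at h9
    linarith
  rw [abs_le]
  have k1 := key 1 (by simp)
  have k2 := key (-1) (by simp)
  constructor <;> linarith

/-- the density is bounded by `exp (K / 2)` -/
theorem NiceV.neg_le (h : NiceV V K) (x : ℝ) : -V x ≤ K / 2 := by
  have hK : 0 ≤ K := by linarith [h.one_le]
  have := h.prob
  -- an interval of length one next to x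
  have key : ∀ (I : Set ℝ), MeasurableSet I → volume I = 1 →
      (∀ y ∈ I, V y ≤ V x + K / 2) → -V x ≤ K / 2 := by
    intro I hI hI1 hb
    have h1 : lawV V I ≤ 1 := prob_le_one
    unfold lawV at h1
    rw [withDensity_apply _ hI] at h1
    have h2 : ∫⁻ y in I, ENNReal.ofReal (Real.exp (-V x - K / 2)) ≤
        ∫⁻ y in I, ENNReal.ofReal (Real.exp (-V y)) := by
      refine setLIntegral_mono' hI fun y hy => ?_
      refine ENNReal.ofReal_le_ofReal (Real.exp_le_exp.2 ?_)
      linarith [hb y hy]
    rw [setLIntegral_const, hI1, mul_one] at h2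
    have h3 := h2.trans h1
    rw [ENNReal.ofReal_le_one, Real.exp_le_one_iff] at h3
    linarith
  rcases le_total (deriv V x) 0 with h0 | h0
  · refine key (Icc x (x + 1)) measurableSet_Icc (by simp) fun y hy => ?_
    have := (abs_le.1 (h.taylor x (y - x))).2
    rw [add_sub_cancel] at this
    have h4 : 0 ≤ y - x := sub_nonneg.2 hy.1
    have h5 : y - x ≤ 1 := by linarith [hy.2]
    have h6 : deriv V x * (y - x) ≤ 0 := mul_nonpos_of_nonpos_of_nonneg h0 h4
    have h7 : K * (y - x) ^ 2 / 2 ≤ K / 2 := by
      have : (y - x) ^ 2 ≤ 1 := by nlinarith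
      nlinarith
    linarith
  · refine key (Icc (x - 1) x) measurableSet_Icc (by simp) fun y hy => ?_
    have := (abs_le.1 (h.taylor x (y - x))).2
    rw [add_sub_cancel] at this
    have h4 : y - x ≤ 0 := sub_nonpos.2 hy.2
    have h5 : -1 ≤ y - x := by linarith [hy.1]
    have h6 : deriv V x * (y - x) ≤ 0 := mul_nonpos_of_nonneg_of_nonpos h0 h4
    have h7 : K * (y - x) ^ 2 / 2 ≤ K / 2 := by
      have : (y - x) ^ 2 ≤ 1 := by nlinarith
      nlinarith
    linarith

theorem NiceV.bddDens (h : NiceV V K) : BddDens (lawV V) (Real.exp (K / 2)) := by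
  intro a b hab
  unfold lawV
  rw [withDensity_apply _ measurableSet_Icc]
  calc ∫⁻ y in Icc a b, ENNReal.ofReal (Real.exp (-V y))
      ≤ ∫⁻ y in Icc a b, ENNReal.ofReal (Real.exp (K / 2)) := by
        refine lintegral_mono fun y => ?_
        exact ENNReal.ofReal_le_ofReal (Real.exp_le_exp.2 (h.neg_le y))
    _ = ENNReal.ofReal (Real.exp (K / 2) * (b - a)) := by
        rw [setLIntegral_const, Real.volume_Icc, ← ENNReal.ofReal_mul (Real.exp_pos _).le]

theorem NiceV.sq_deriv_le (h : NiceV V K) (x : ℝ) :
    (deriv V x) ^ 2 ≤ 2 * K * (V x + K / 2) := by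
  have hK : 0 < K := by linarith [h.one_le]
  have h1 := (abs_le.1 (h.taylor x (-(deriv V x) / K))).2
  have h2 := h.neg_le (x + -(deriv V x) / K)
  have h3 : deriv V x * (-(deriv V x) / K) = -((deriv V x) ^ 2 / K) := by
    field_simp
  have h4 : K * (-(deriv V x) / K) ^ 2 / 2 = (deriv V x) ^ 2 / K / 2 := by
    field_simp
  rw [h3, h4] at h1
  have h5 : (deriv V x) ^ 2 / K / 2 ≤ V x + K / 2 := by linarith
  have h6 : (deriv V x) ^ 2 / K / 2 = (deriv V x) ^ 2 / (2 * K) := by
    field_simp
  rw [h6, div_le_iff₀ (by positivity)] at h5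
  linarith

/-- integrability with respect to `lawV` -/
theorem integrable_lawV_iff (hV : Measurable V) (g : ℝ → ℝ) :
    Integrable g (lawV V) ↔ Integrable (fun x => g x * Real.exp (-V x)) := by
  unfold lawV
  have hm : Measurable fun x => Real.toNNReal (Real.exp (-V x)) :=
    measurable_real_toNNReal.comp (Real.measurable_exp.comp hV.neg)
  have := integrable_withDensity_iff_integrable_smul (μ := (volume : Measure ℝ)) hm (g := g)
  have e1 : (fun x => ENNReal.ofReal (Real.exp (-V x))) =
      fun x => ((Real.toNNReal (Real.exp (-V x)) : NNReal) : ℝ≥0∞) := rfl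
  rw [e1, this]
  have e2 : (fun x => Real.toNNReal (Real.exp (-V x)) • g x) =
      fun x => g x * Real.exp (-V x) := by
    funext x
    rw [NNReal.smul_def, Real.coe_toNNReal _ (Real.exp_pos _).le, smul_eq_mul, mul_comm]
  rw [e2]

theorem integral_lawV (hV : Measurable V) (g : ℝ → ℝ) :
    ∫ x, g x ∂(lawV V) = ∫ x, g x * Real.exp (-V x) := by
  unfold lawV
  have hm : Measurable fun x => Real.toNNReal (Real.exp (-V x)) :=
    measurable_real_toNNReal.comp (Real.measurable_exp.comp hV.neg)
  have e1 : (fun x => ENNReal.ofReal (Real.exp (-V x))) =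
      fun x => ((Real.toNNReal (Real.exp (-V x)) : NNReal) : ℝ≥0∞) := rfl
  rw [e1, integral_withDensity_eq_integral_smul hm]
  refine integral_congr_ae (Filter.Eventually.of_forall fun x => ?_)
  simp only [NNReal.smul_def, Real.coe_toNNReal _ (Real.exp_pos _).le, smul_eq_mul, mul_comm]

/-- the square root of the density has all moments -/
theorem NiceV.sqrt_moment (h : NiceV V K) (k : ℕ) :
    Integrable (fun x => (1 + x ^ 2) ^ k * Real.exp (-V x / 2)) := by
  have hm : Measurable V := h.meas
  have h1 : Integrable (fun x : ℝ => (1 + x ^ 2) ^ (2 * k + 1) * Real.exp (-V x)) := by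
    rw [← integrable_lawV_iff hm]
    have h2 : ∀ n : ℕ, Integrable (fun x : ℝ => (1 + x ^ 2) ^ n) (lawV V) := by
      intro n
      have h3 : ∀ x : ℝ, (1 + x ^ 2) ^ n ≤ 2 ^ n * (1 + |x| ^ (2 * n)) := by
        intro x
        rcases le_total (x ^ 2) 1 with hx | hx
        · calc (1 + x ^ 2) ^ n ≤ 2 ^ n := by
                refine pow_le_pow_left₀ (by positivity) (by linarith) n
            _ ≤ _ := le_mul_of_one_le_right (by positivity) (by
                have : 0 ≤ |x| ^ (2 * n) := by positivity
                linarith)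
        · calc (1 + x ^ 2) ^ n ≤ (2 * x ^ 2) ^ n :=
                pow_le_pow_left₀ (by positivity) (by linarith) n
            _ = 2 ^ n * |x| ^ (2 * n) := by rw [mul_pow, pow_mul, sq_abs]
            _ ≤ _ := by
                refine mul_le_mul_of_nonneg_left ?_ (by positivity)
                linarith
      have := h.prob
      refine Integrable.mono' (((integrable_const (1 : ℝ)).add (h.moments (2 * n))).const_mul
        (2 ^ n)) ?_ (Filter.Eventually.of_forall fun x => ?_)
      · exact (by fun_prop : Measurable fun x : ℝ => (1 + x ^ 2) ^ n).aestronglyMeasurable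
      · rw [Real.norm_of_nonneg (by positivity)]
        exact h3 x
    exact h2 _
  have h2 : Integrable (fun x : ℝ => (1 + x ^ 2)⁻¹) := integrable_inv_one_add_sq
  refine Integrable.mono' ((h1.add h2).const_mul (1 / 2)) ?_
    (Filter.Eventually.of_forall fun x => ?_)
  · refine Measurable.aestronglyMeasurable ?_
    exact (by fun_prop : Measurable fun x : ℝ => (1 + x ^ 2) ^ k).mul
      (Real.measurable_exp.comp (hm.neg.div_const 2))
  · rw [Real.norm_of_nonneg (by positivity)]
    simp only [Pi.add_apply]
    have hp : 0 < 1 + x ^ 2 := by positivity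
    set s := Real.exp (-V x / 2) with hs
    have hs2 : Real.exp (-V x) = s ^ 2 := by
      rw [hs, ← Real.exp_nat_mul]
      congr 1
      push_cast
      ring
    rw [hs2]
    have hb : (1 + x ^ 2) ^ (2 * k + 1) = ((1 + x ^ 2) ^ k) ^ 2 * (1 + x ^ 2) := by ring
    rw [hb]
    -- a s with a = (1+x^2)^k ; a^2 (1+x^2) s^2 + 1/(1+x^2) >= 2 a s
    set a := (1 + x ^ 2) ^ k with ha
    have h5 : 0 ≤ (a * s * (1 + x ^ 2) - 1) ^ 2 / (1 + x ^ 2) := by positivity
    have h6 : (a * s * (1 + x ^ 2) - 1) ^ 2 / (1 + x ^ 2) =
        a ^ 2 * (1 + x ^ 2) * s ^ 2 - 2 * (a * s) + (1 + x ^ 2)⁻¹ := by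
      field_simp
      ring
    rw [h6] at h5
    linarith

/-- exponential moments of `V'` -/
theorem NiceV.exp_moment (h : NiceV V K) (c : ℝ) (k : ℕ) :
    Integrable (fun x => (1 + x ^ 2) ^ k * Real.exp (c * |deriv V x|)) (lawV V) := by
  have hm : Measurable V := h.meas
  have hK : 0 < K := by linarith [h.one_le]
  rw [integrable_lawV_iff hm]
  refine Integrable.mono' ((h.sqrt_moment k).const_mul (Real.exp (K * c ^ 2 + K / 4))) ?_
    (Filter.Eventually.of_forall fun x => ?_)
  · refine Measurable.aestronglyMeasurable ?_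
    refine Measurable.mul (Measurable.mul (by fun_prop) ?_) ?_
    · exact Real.measurable_exp.comp
        ((h.continuous_deriv.measurable.norm).const_mul c)
    · exact Real.measurable_exp.comp hm.neg
  · rw [Real.norm_of_nonneg (by positivity)]
    have h1 := h.sq_deriv_le x
    have h2 : c * |deriv V x| ≤ K * c ^ 2 + (deriv V x) ^ 2 / (4 * K) := by
      rw [← sq_abs (deriv V x)]
      have : 0 ≤ (2 * K * c - |deriv V x|) ^ 2 / (4 * K) := by positivity
      have e : (2 * K * c - |deriv V x|) ^ 2 / (4 * K) =
          K * c ^ 2 - c * |deriv V x| + |deriv V x| ^ 2 / (4 * K) := by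
        field_simp
        ring
      rw [e] at this
      linarith
    have h3 : (deriv V x) ^ 2 / (4 * K) ≤ (V x + K / 2) / 2 := by
      rw [div_le_iff₀ (by positivity)]
      linarith
    rw [mul_assoc, ← Real.exp_add, mul_left_comm, ← Real.exp_add]
    refine mul_le_mul_of_nonneg_left (Real.exp_le_exp.2 ?_) (by positivity)
    linarith

/-- polynomial bounds in `x` and `V'` are integrable -/
theorem NiceV.integrable_of_le (h : NiceV V K) {g : ℝ → ℝ} (hg : Measurable g) (C c : ℝ) (k : ℕ)
    (hb : ∀ x, |g x| ≤ C * ((1 + x ^ 2) ^ k * Real.exp (c * |deriv V x|))) :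
    Integrable g (lawV V) :=
  Integrable.mono' ((h.exp_moment c k).const_mul C) hg.aestronglyMeasurable
    (Filter.Eventually.of_forall fun x => by
      rw [Real.norm_eq_abs]
      exact hb x)

theorem abs_le_exp_abs (y : ℝ) : |y| ≤ Real.exp (1 * |y|) := by
  rw [one_mul]
  linarith [Real.add_one_le_exp |y|]

theorem NiceV.integrable_deriv (h : NiceV V K) : Integrable (deriv V) (lawV V) := by
  refine h.integrable_of_le h.continuous_deriv.measurable 1 1 0 fun x => ?_
  rw [pow_zero, one_mul, one_mul]
  exact abs_le_exp_abs _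

theorem NiceV.integrable_deriv_sq (h : NiceV V K) :
    Integrable (fun x => (deriv V x) ^ 2) (lawV V) := by
  refine h.integrable_of_le (h.continuous_deriv.measurable.pow_const 2) 1 2 0 fun x => ?_
  rw [pow_zero, one_mul, one_mul, abs_pow, sq]
  have := abs_le_exp_abs (deriv V x)
  calc |deriv V x| * |deriv V x| ≤ Real.exp (1 * |deriv V x|) * Real.exp (1 * |deriv V x|) :=
        mul_le_mul this this (abs_nonneg _) (Real.exp_pos _).le
    _ = _ := by
        rw [← Real.exp_add]
        congr 1
        ring

theorem NiceV.integrable_id (h : NiceV V K) : Integrable (fun x : ℝ => x) (lawV V) := by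
  have := h.moments 1
  refine Integrable.mono' this measurable_id.aestronglyMeasurable
    (Filter.Eventually.of_forall fun x => ?_)
  simp

theorem NiceV.integrable_sq (h : NiceV V K) : Integrable (fun x : ℝ => x ^ 2) (lawV V) := by
  have := h.moments 2
  simpa using this

theorem abs_le_one_add_sq (x : ℝ) : |x| ≤ (1 + x ^ 2) ^ 1 := by
  rw [pow_one, ← sq_abs]
  nlinarith [sq_nonneg (|x| - 1), abs_nonneg x]

theorem NiceV.integrable_mul_deriv (h : NiceV V K) :
    Integrable (fun x => deriv V x * x) (lawV V) := by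
  refine h.integrable_of_le (h.continuous_deriv.measurable.mul measurable_id) 1 1 1 fun x => ?_
  rw [one_mul, abs_mul, mul_comm]
  exact mul_le_mul (abs_le_one_add_sq x) (abs_le_exp_abs _) (abs_nonneg _) (by positivity)

theorem NiceV.integrable_mul_deriv_sq (h : NiceV V K) :
    Integrable (fun x => (deriv V x * x) ^ 2) (lawV V) := by
  refine h.integrable_of_le ((h.continuous_deriv.measurable.mul measurable_id).pow_const 2)
    1 2 2 fun x => ?_
  rw [one_mul, abs_pow, abs_mul, mul_comm, mul_pow]
  have h1 := pow_le_pow_left₀ (abs_nonneg _) (abs_le_one_add_sq x) 2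
  have h2 := pow_le_pow_left₀ (abs_nonneg _) (abs_le_exp_abs (deriv V x)) 2
  have h3 : ((1 + x ^ 2) ^ 1) ^ 2 = (1 + x ^ 2) ^ 2 := by ring
  have h4 : Real.exp (1 * |deriv V x|) ^ 2 = Real.exp (2 * |deriv V x|) := by
    rw [← Real.exp_nat_mul]
    congr 1
    push_cast
    ring
  rw [h3] at h1
  rw [h4] at h2
  exact mul_le_mul h1 h2 (by positivity) (by positivity)

/-- the score has mean zero -/
theorem NiceV.integral_deriv (h : NiceV V K) : ∫ x, deriv V x ∂(lawV V) = 0 := by
  rw [integral_lawV h.meas]
  have h1 := h.integrable_deriv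
  rw [integrable_lawV_iff h.meas] at h1
  have h2 : Integrable (fun x => Real.exp (-V x)) := by
    have := h.prob
    have := (integrable_lawV_iff h.meas (fun _ => (1 : ℝ))).1 (integrable_const 1)
    simpa using this
  have h3 : ∀ x, HasDerivAt (fun x => Real.exp (-V x)) (-(deriv V x * Real.exp (-V x))) x := by
    intro x
    refine ((h.diff x).hasDerivAt.fun_neg).exp.congr_deriv ?_
    ring
  have h4 := integral_eq_zero_of_hasDerivAt_of_integrable h3 h1.neg h2
  rw [integral_neg, neg_eq_zero] at h4
  exact h4

/-- the score is normalised -/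
theorem NiceV.integral_mul_deriv (h : NiceV V K) : ∫ x, deriv V x * x ∂(lawV V) = 1 := by
  have := h.prob
  rw [integral_lawV h.meas]
  have h1 := h.integrable_mul_deriv
  rw [integrable_lawV_iff h.meas] at h1
  have h2 : Integrable (fun x => Real.exp (-V x)) := by
    have := (integrable_lawV_iff h.meas (fun _ => (1 : ℝ))).1 (integrable_const 1)
    simpa using this
  have h5 : Integrable (fun x => x * Real.exp (-V x)) :=
    (integrable_lawV_iff h.meas _).1 h.integrable_id
  have h3 : ∀ x, HasDerivAt (fun x => x * Real.exp (-V x))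
      (Real.exp (-V x) - deriv V x * x * Real.exp (-V x)) x := by
    intro x
    refine ((hasDerivAt_id' x).fun_mul ((h.diff x).hasDerivAt.fun_neg).exp).congr_deriv ?_
    ring
  have h4 := integral_eq_zero_of_hasDerivAt_of_integrable h3 (h2.sub h1) h5
  rw [integral_sub h2 h1, sub_eq_zero] at h4
  rw [← h4]
  have h6 := integral_lawV h.meas (fun _ => (1 : ℝ))
  simp only [integral_const, smul_eq_mul, mul_one, one_mul] at h6
  rw [← h6]
  simp

end Run7.h834
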