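import Pool.Agent.Run7.h834.Chain
import Pool.Agent.Run7.h834.LawV

/-! The scaling of a group has a bounded density with probability at least one half. -/

set_option autoImplicit false
open MeasureTheory Set ProbabilityTheory
open scoped ENNReal

namespace Run7.h834

/-- second moment of a linear statistic -/
theorem lin_sq {ι : Type*} [Fintype ι] {μ : Measure ℝ} [IsProbabilityMeasure μ] {f : ℝ → ℝ}
    (hm : Measurable f) (hf0 : ∫ x, f x ∂μ = 0) (hf : Integrable (fun x => f x ^ 2) μ)
    (c : ι → ℝ) :
    ∫⁻ v, ENNReal.ofReal ((∑ i, c i * f (v i)) ^ 2) ∂(Measure.pi fun _ : ι => μ) =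
      ENNReal.ofReal ((∑ i, c i ^ 2) * ∫ x, f x ^ 2 ∂μ) := by
  have hL : MemLp f 2 μ := (memLp_two_iff_integrable_sq hm.aestronglyMeasurable).2 hf
  have hLi : ∀ i : ι, MemLp (fun x => c i * f x) 2 μ := fun i => hL.const_mul (c i)
  have h1 := variance_sum_pi (μ := fun _ : ι => μ) (X := fun i x => c i * f x) hLi
  have h2 : (∑ i, fun ω : ι → ℝ => c i * f (ω i)) = fun ω => ∑ i, c i * f (ω i) := by
    funext ω
    simp
  rw [h2] at h1
  have h3 : ∀ i : ι, Var[fun x => c i * f x; μ] = c i ^ 2 * ∫ x, f x ^ 2 ∂μ := by
    intro i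
    rw [variance_eq_integral (hm.const_mul (c i)).aemeasurable]
    have : ∫ x, c i * f x ∂μ = 0 := by rw [integral_const_mul, hf0, mul_zero]
    rw [this]
    simp_rw [sub_zero, mul_pow]
    rw [integral_const_mul]
  simp_rw [h3] at h1
  rw [← Finset.sum_mul] at h1
  have hms : Measurable fun ω : ι → ℝ => ∑ i, c i * f (ω i) :=
    Finset.measurable_sum _ fun i _ => (hm.comp (measurable_pi_apply i)).const_mul (c i)
  have hMem : MemLp (fun ω : ι → ℝ => ∑ i, c i * f (ω i)) 2 (Measure.pi fun _ : ι => μ) := by
    refine memLp_finsetSum _ fun i _ => ?_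
    exact (hLi i).comp_measurePreserving (measurePreserving_eval (fun _ : ι => μ) i)
  have h0 : ∫ ω, ∑ i, c i * f (ω i) ∂(Measure.pi fun _ : ι => μ) = 0 := by
    rw [integral_finsetSum _ fun i _ => ?_]
    · refine Finset.sum_eq_zero fun i _ => ?_
      rw [integral_const_mul]
      have h5 : ∫ a : ι → ℝ, f (a i) ∂(Measure.pi fun _ : ι => μ) = ∫ x, f x ∂μ := by
        have h6 := (measurePreserving_eval (fun _ : ι => μ) i).map_eq
        conv_rhs => rw [← h6]
        rw [integral_map (measurable_pi_apply i).aemeasurable hm.aestronglyMeasurable]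
      rw [h5, hf0, mul_zero]
    · have h7 := ((hLi i).comp_measurePreserving (measurePreserving_eval (fun _ : ι => μ) i))
      exact h7.integrable one_le_two
  rw [variance_eq_integral hms.aemeasurable, h0] at h1
  simp_rw [sub_zero] at h1
  rw [← h1, ofReal_integral_eq_lintegral_ofReal]
  · exact hMem.integrable_sq
  · exact Filter.Eventually.of_forall fun _ => sq_nonneg _

/-- Markov's inequality in the form used below -/
theorem markov_lt {α : Type*} [MeasurableSpace α] {μ : Measure α} {F : α → ℝ}
    (hF : Measurable F) {t m : ℝ} (ht : 0 < t)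
    (h : ∫⁻ x, ENNReal.ofReal (F x) ∂μ ≤ ENNReal.ofReal m) :
    μ {x | t < F x} ≤ ENNReal.ofReal (m / t) := by
  have h1 : μ {x | t < F x} ≤ μ {x | ENNReal.ofReal t ≤ ENNReal.ofReal (F x)} :=
    measure_mono fun x hx => ENNReal.ofReal_le_ofReal (le_of_lt hx)
  refine h1.trans ?_
  have h2 := meas_ge_le_lintegral_div (μ := μ) (f := fun x => ENNReal.ofReal (F x))
    (ENNReal.measurable_ofReal.comp hF).aemeasurable (ε := ENNReal.ofReal t)
    (by simpa using ht) ENNReal.ofReal_ne_top
  refine h2.trans ?_
  rw [ENNReal.ofReal_div_of_pos ht]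
  exact ENNReal.div_le_div_right h _

theorem prod_slice_le {α β : Type*} [MeasurableSpace α] [MeasurableSpace β] {μ : Measure α}
    {ν : Measure β} [IsProbabilityMeasure μ] [SFinite ν] {S : Set (α × β)}
    (hS : MeasurableSet S) {δ : ℝ≥0∞} (h : ∀ x, ν (Prod.mk x ⁻¹' S) ≤ δ) :
    (μ.prod ν) S ≤ δ := by
  rw [Measure.prod_apply hS]
  calc ∫⁻ x, ν (Prod.mk x ⁻¹' S) ∂μ ≤ ∫⁻ _, δ ∂μ := lintegral_mono h
    _ = δ := by simp

theorem prod_fst_eq {α β : Type*} [MeasurableSpace α] [MeasurableSpace β] {μ : Measure α}
    {ν : Measure β} [SFinite μ] [IsProbabilityMeasure ν] {S : Set α} :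
    (μ.prod ν) {p | p.1 ∈ S} = μ S := by
  have : {p : α × β | p.1 ∈ S} = S ×ˢ Set.univ := by
    ext p
    simp
  rw [this, Measure.prod_prod, measure_univ, mul_one]

/-- measurability of the inverse -/
theorem measurable_inv_entry {α ι : Type*} [MeasurableSpace α] [Fintype ι] [DecidableEq ι]
    {A : α → Matrix ι ι ℝ} (hA : ∀ i j, Measurable fun x => A x i j) (i j : ι) :
    Measurable fun x => (A x)⁻¹ i j := by
  have hAm : Measurable fun x => (fun i j => A x i j : ι → ι → ℝ) :=
    measurable_pi_iff.2 fun i => measurable_pi_iff.2 fun j => hA i j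
  have h1 : Continuous fun M : ι → ι → ℝ => (Matrix.of M).det :=
    Continuous.matrix_det continuous_id
  have h2 : Continuous fun M : ι → ι → ℝ => (Matrix.of M).adjugate i j := by
    have := Continuous.matrix_adjugate (A := fun M : ι → ι → ℝ => Matrix.of M) continuous_id
    exact (continuous_apply j).comp ((continuous_apply i).comp this)
  have h3 : (fun x => (A x)⁻¹ i j) = fun x => ((A x).det)⁻¹ * (A x).adjugate i j := by
    funext x
    rw [Matrix.inv_def, Matrix.smul_apply, smul_eq_mul, Ring.inverse_eq_inv']
  rw [h3]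
  exact (h1.measurable.comp hAm).inv.mul (h2.measurable.comp hAm)

variable {w : ℕ}

theorem measurable_arr_iff {α : Type*} [MeasurableSpace α] {f : α → Arr w} :
    Measurable f ↔ ∀ p, Measurable fun x => f x p := measurable_pi_iff

theorem measurable_symM {α : Type*} [MeasurableSpace α] {f : α → Arr w} (hf : Measurable f)
    (i j : Fin w) : Measurable fun x => symM (f x) i j := by
  simp only [symM, Matrix.of_apply]
  exact (measurable_pi_apply (min i j, max i j)).comp hf

theorem measurable_lowM {α : Type*} [MeasurableSpace α] {f : α → Arr w} (hf : Measurable f)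
    (i j : Fin w) : Measurable fun x => lowM (f x) i j := by
  unfold lowM
  by_cases h : j ≤ i
  · simp only [Matrix.of_apply, h, if_true]
    exact (measurable_pi_apply _).comp hf
  · simp only [Matrix.of_apply, h, if_false]
    exact measurable_const

theorem measurable_SM {α : Type*} [MeasurableSpace α] (e : ℝ) {f g : α → Arr w}
    (hf : Measurable f) (hg : Measurable g) (i j : Fin w) :
    Measurable fun x => SM e (f x) (g x) i j := by
  unfold SM
  refine measurable_symM ?_ i j
  exact hg.sub (measurable_const.add hf)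

theorem measurable_mat_mul {α ι κ τ : Type*} [MeasurableSpace α] [Fintype κ]
    {A : α → Matrix ι κ ℝ} {B : α → Matrix κ τ ℝ} (hA : ∀ i j, Measurable fun x => A x i j)
    (hB : ∀ i j, Measurable fun x => B x i j) (i : ι) (j : τ) :
    Measurable fun x => (A x * B x) i j := by
  simp only [Matrix.mul_apply]
  exact Finset.measurable_sum _ fun k _ => (hA i k).mul (hB k j)

theorem measurable_nextQ {α : Type*} [MeasurableSpace α] (e : ℝ) {f a b : α → Arr w}
    (hf : Measurable f) (ha : Measurable a) (hb : Measurable b) :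
    Measurable fun x => nextQ e (f x) (a x) (b x) := by
  refine measurable_arr_iff.2 fun p => ?_
  unfold nextQ nextM
  refine measurable_mat_mul (measurable_mat_mul ?_ ?_) ?_ _ _
  · intro i j
    simp only [Matrix.transpose_apply]
    exact measurable_lowM hb j i
  · exact fun i j => measurable_inv_entry (measurable_SM e hf ha) i j
  · exact measurable_lowM hb

theorem measurable_stepT {α : Type*} [MeasurableSpace α] (e : ℝ) {f a b : α → Arr w}
    {u : α → Fin w → ℝ}
    (hf : Measurable f) (ha : Measurable a) (hb : Measurable b) (hu : Measurable u) :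
    Measurable fun x => stepT e (f x) (a x) (b x) (u x) := by
  refine measurable_pi_iff.2 fun j => ?_
  unfold stepT
  simp only [Matrix.vecMul, dotProduct]
  refine Finset.measurable_sum _ fun i _ => ?_
  refine ((measurable_pi_apply i).comp hu).mul ?_
  exact measurable_mat_mul (fun i j => measurable_inv_entry (measurable_SM e hf ha) i j)
    (measurable_lowM hb) i j

theorem measurable_homo' {α : Type*} [MeasurableSpace α] {ι : Type*} (s : ℝ) {c a : α → ι → ℝ}
    (hc : Measurable c) (ha : Measurable a) : Measurable fun x => homo s (c x) (a x) := by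
  unfold homo
  exact (ha.const_smul s).add (hc.const_smul (1 - s))

theorem measurable_ratG {V : ℝ → ℝ} (hV : Measurable V) (e s : ℝ) :
    Measurable fun p : Arr w × Grp w => ratG V e s p.1 p.2 := by
  have m0 : Measurable fun p : Arr w × Grp w => p.1 := measurable_fst
  have m11 : Measurable fun p : Arr w × Grp w => p.2.1.1 := by fun_prop
  have m12 : Measurable fun p : Arr w × Grp w => p.2.1.2 := by fun_prop
  have m21 : Measurable fun p : Arr w × Grp w => p.2.2.1.1 := by fun_prop
  have m22 : Measurable fun p : Arr w × Grp w => p.2.2.1.2 := by fun_prop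
  have m31 : Measurable fun p : Arr w × Grp w => p.2.2.2.1 := by fun_prop
  have q1 := measurable_nextQ e m0 m11 m12
  have q2 := measurable_nextQ e q1 m21 m22
  unfold ratG
  refine Measurable.mul (Measurable.mul measurable_const ?_) ?_
  · exact measurable_ratV hV m21 (measurable_homo' s (measurable_const.add q1) m21)
  · exact measurable_ratV hV m31 (m31.add (q2.const_smul (s⁻¹ - 1)))

theorem measurable_tauG (e s : ℝ) :
    Measurable fun p : Arr w × Grp w => tauG e s p.1 p.2 := by
  have m0 : Measurable fun p : Arr w × Grp w => p.1 := measurable_fst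
  have m11 : Measurable fun p : Arr w × Grp w => p.2.1.1 := by fun_prop
  have m12 : Measurable fun p : Arr w × Grp w => p.2.1.2 := by fun_prop
  have m21 : Measurable fun p : Arr w × Grp w => p.2.2.1.1 := by fun_prop
  have m22 : Measurable fun p : Arr w × Grp w => p.2.2.1.2 := by fun_prop
  have m31 : Measurable fun p : Arr w × Grp w => p.2.2.2.1 := by fun_prop
  have m32 : Measurable fun p : Arr w × Grp w => p.2.2.2.2 := by fun_prop
  have q1 := measurable_nextQ e m0 m11 m12
  have q2 := measurable_nextQ e q1 m21 m22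
  unfold tauG
  refine (m11.prodMk m12).prodMk (Measurable.prodMk ?_ ?_)
  · exact (measurable_homo' s (measurable_const.add q1) m21).prodMk m22
  · exact (m31.add (q2.const_smul (s⁻¹ - 1))).prodMk m32

theorem measurable_zetaG (e : ℝ) :
    Measurable fun p : Arr w × Grp w => zetaG e p.1 p.2 := by
  have m0 : Measurable fun p : Arr w × Grp w => p.1 := measurable_fst
  unfold zetaG
  exact measurable_nextQ e (measurable_nextQ e (measurable_nextQ e m0 (by fun_prop) (by fun_prop))
    (by fun_prop) (by fun_prop)) (by fun_prop) (by fun_prop)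

theorem measurable_transG (e : ℝ) :
    Measurable fun p : (Arr w × (Fin w → ℝ)) × Grp w => transG e p.1.1 p.2 p.1.2 := by
  have m0 : Measurable fun p : (Arr w × (Fin w → ℝ)) × Grp w => p.1.1 := by fun_prop
  have q1 : Measurable fun p : (Arr w × (Fin w → ℝ)) × Grp w =>
      nextQ e p.1.1 p.2.1.1 p.2.1.2 := measurable_nextQ e m0 (by fun_prop) (by fun_prop)
  have q2 := measurable_nextQ e q1 (a := fun p => p.2.2.1.1) (b := fun p => p.2.2.1.2)
    (by fun_prop) (by fun_prop)
  unfold transG
  exact measurable_stepT e q2 (by fun_prop) (by fun_prop) (measurable_stepT e q1 (by fun_prop)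
    (by fun_prop) (measurable_stepT e m0 (by fun_prop) (by fun_prop) (by fun_prop)))

/-- squared Frobenius norm -/
def nsq {ι : Type*} [Fintype ι] (a : ι → ℝ) : ℝ := ∑ p, a p ^ 2

theorem nsq_nonneg {ι : Type*} [Fintype ι] (a : ι → ℝ) : 0 ≤ nsq a :=
  Finset.sum_nonneg fun _ _ => sq_nonneg _

theorem measurable_nsq {α ι : Type*} [MeasurableSpace α] [Fintype ι] {f : α → ι → ℝ}
    (hf : Measurable f) : Measurable fun x => nsq (f x) :=
  Finset.measurable_sum _ fun i _ => ((measurable_pi_apply i).comp hf).pow_const 2

/-- the law of an array -/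
noncomputable def piA (V : ℝ → ℝ) (w : ℕ) : Measure (Arr w) :=
  Measure.pi fun _ : Fin w × Fin w => lawV V

/-- the law of a group -/
noncomputable def gamG (V : ℝ → ℝ) (w : ℕ) : Measure (Grp w) :=
  ((piA V w).prod (piA V w)).prod
    (((piA V w).prod (piA V w)).prod ((piA V w).prod (piA V w)))

instance (V : ℝ → ℝ) (w : ℕ) [IsProbabilityMeasure (lawV V)] :
    IsProbabilityMeasure (piA V w) := by
  unfold piA
  infer_instance

instance (V : ℝ → ℝ) (w : ℕ) [IsProbabilityMeasure (lawV V)] :
    IsProbabilityMeasure (gamG V w) := by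
  unfold gamG
  infer_instance

end Run7.h834
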