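import Pool.Agent.Run7.h834.Site

/-! The product of transfer matrices is an entry of the resolvent. -/

set_option autoImplicit false
open MeasureTheory Matrix
open scoped ENNReal

namespace Run7.h834

section blocks

variable {m n : Type*} [Fintype m] [Fintype n] [DecidableEq m] [DecidableEq n]

theorem schur_isUnit {A : Matrix m m ℝ} {B : Matrix m n ℝ} {C : Matrix n m ℝ} {D : Matrix n n ℝ}
    (hA : IsUnit A) (hD : IsUnit (D - C * A⁻¹ * B)) : IsUnit (Matrix.fromBlocks A B C D) := by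
  have hAi : Invertible A := hA.invertible
  rw [Matrix.isUnit_fromBlocks_iff_of_invertible₁₁, Matrix.invOf_eq_nonsing_inv]
  exact hD

theorem schur_inv {A : Matrix m m ℝ} {B : Matrix m n ℝ} {C : Matrix n m ℝ} {D : Matrix n n ℝ}
    (hA : IsUnit A) (hD : IsUnit (D - C * A⁻¹ * B)) :
    (Matrix.fromBlocks A B C D)⁻¹ = Matrix.fromBlocks
      (A⁻¹ + A⁻¹ * B * (D - C * A⁻¹ * B)⁻¹ * C * A⁻¹)
      (-(A⁻¹ * B * (D - C * A⁻¹ * B)⁻¹))
      (-((D - C * A⁻¹ * B)⁻¹ * C * A⁻¹)) (D - C * A⁻¹ * B)⁻¹ := by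
  have hAi : Invertible A := hA.invertible
  have hDi : Invertible (D - C * ⅟A * B) := by
    rw [Matrix.invOf_eq_nonsing_inv]
    exact hD.invertible
  have : Invertible (Matrix.fromBlocks A B C D) := (schur_isUnit hA hD).invertible
  have h := Matrix.invOf_fromBlocks₁₁_eq A B C D
  simp only [Matrix.invOf_eq_nonsing_inv] at h
  exact h

end blocks

theorem kM_unit_iff_submatrix (w : ℕ) (ω : Om) (e : ℝ) (Q : Arr w) (s n : ℕ) :
    IsUnit (kM w ω e Q s (w + n)) ↔
      IsUnit ((kM w ω e Q s (w + n)).submatrix finSumFinEquiv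
        (finSumFinEquiv : Fin w ⊕ Fin n ≃ Fin (w + n))) := by
  rw [Matrix.isUnit_submatrix_equiv]

theorem kM_isUnit (w : ℕ) (ω : Om) (e : ℝ) (k : ℕ) : ∀ (n : ℕ) (_ : n = k * w) (Q : Arr w) (s : ℕ)
    (_ : stR w ω e k Q s), IsUnit (kM w ω e Q s n) := by
  induction k with
  | zero =>
    intro n hn Q s _
    have hn0 : n = 0 := by simpa using hn
    subst hn0
    rw [Matrix.isUnit_iff_isUnit_det, Matrix.det_isEmpty]
    exact isUnit_one
  | succ k ih =>
    intro n hn Q s hR
    have hn' : n = w + k * w := by rw [hn]; ring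
    subst hn'
    rw [kM_unit_iff_submatrix, kM_split]
    refine schur_isUnit hR.1 ?_
    rw [kM_schur]
    exact ih _ rfl _ _ hR.2

/-- the transfer product without the last coupling -/
noncomputable def stG (w : ℕ) (ω : Om) (e : ℝ) : ℕ → Arr w → ℕ → Matrix (Fin w) (Fin w) ℝ
  | 0, Q, s => (SM e Q (arrA w ω s))⁻¹
  | k + 1, Q, s => ((SM e Q (arrA w ω s))⁻¹ * lowM (arrB w ω s)) *
      stG w ω e k (nextQ e Q (arrA w ω s) (arrB w ω s)) (s + w)

theorem stP_succ_eq (w : ℕ) (ω : Om) (e : ℝ) (k : ℕ) (Q : Arr w) (s : ℕ) :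
    stP w ω e (k + 1) Q s = stG w ω e k Q s * lowM (arrB w ω (s + k * w)) := by
  induction k generalizing Q s with
  | zero => simp [stP, stG]
  | succ k ih =>
    have h : s + (k + 1) * w = s + w + k * w := by ring
    rw [h]
    simp only [stG]
    rw [stP, ih, Matrix.mul_assoc _ (stG w ω e k _ _)]

theorem green (w : ℕ) (ω : Om) (e : ℝ) (k : ℕ) : ∀ (n : ℕ) (_ : n = (k + 1) * w) (Q : Arr w)
    (s : ℕ) (_ : stR w ω e (k + 1) Q s) (x z : Fin w) (p q : Fin n) (_ : (p : ℕ) = x)
    (_ : (q : ℕ) = k * w + z), (kM w ω e Q s n)⁻¹ p q = (-1) ^ k * stG w ω e k Q s x z := by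
  induction k with
  | zero =>
    intro n hn Q s hR x z p q hp hq
    have hn' : w + 0 = n := by rw [hn]; ring
    subst hn'
    have hu : IsUnit (kM w ω e 0 (s + w) 0 -
        (cM w ω s 0)ᵀ * (SM e Q (arrA w ω s))⁻¹ * cM w ω s 0) := by
      rw [kM_schur]
      exact kM_isUnit w ω e 0 0 (by simp) _ _ trivial
    have h1 := schur_inv hR.1 hu
    rw [← kM_split, Matrix.inv_submatrix_equiv] at h1
    have hp' : p = finSumFinEquiv (Sum.inl x : Fin w ⊕ Fin 0) := by
      apply Fin.ext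
      rw [finSumFinEquiv_apply_left, Fin.val_castAdd, hp]
    have hq' : q = finSumFinEquiv (Sum.inl z : Fin w ⊕ Fin 0) := by
      apply Fin.ext
      rw [finSumFinEquiv_apply_left, Fin.val_castAdd, hq, Nat.zero_mul, Nat.zero_add]
    have h2 := congrFun (congrFun h1 (Sum.inl x)) (Sum.inl z)
    rw [Matrix.submatrix_apply, ← hp', ← hq', Matrix.fromBlocks_apply₁₁] at h2
    rw [h2]
    simp only [stG, pow_zero, one_mul, Matrix.add_apply]
    rw [Matrix.mul_assoc _ (cM w ω s 0)ᵀ, Matrix.mul_assoc (_ * _) _ (_ * _), Matrix.mul_assoc _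
      (cM w ω s 0), Matrix.mul_apply, add_eq_left]
    refine Finset.sum_eq_zero fun i _ => ?_
    rw [Matrix.mul_apply, Finset.univ_eq_empty, Finset.sum_empty, mul_zero]
  | succ k ih =>
    intro n hn Q s hR x z p q hp hq
    have hn' : n = w + (w + k * w) := by rw [hn]; ring
    subst hn'
    have hk : w + k * w = (k + 1) * w := by ring
    have hu : IsUnit (kM w ω e 0 (s + w) (w + k * w) -
        (cM w ω s (w + k * w))ᵀ * (SM e Q (arrA w ω s))⁻¹ * cM w ω s (w + k * w)) := by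
      rw [kM_schur]
      exact kM_isUnit w ω e (k + 1) _ hk _ _ hR.2
    have h1 := schur_inv hR.1 hu
    rw [← kM_split, Matrix.inv_submatrix_equiv, kM_schur] at h1
    have hz := z.2
    have hqlt : k * w + (z : ℕ) < w + k * w := by omega
    set q' : Fin (w + k * w) := ⟨k * w + z, hqlt⟩ with hq'def
    have hp' : p = finSumFinEquiv (Sum.inl x : Fin w ⊕ Fin (w + k * w)) := by
      apply Fin.ext
      simp [hp]
    have hq' : q = finSumFinEquiv (Sum.inr q' : Fin w ⊕ Fin (w + k * w)) := by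
      apply Fin.ext
      simp [hq, hq'def]
      ring
    have h2 := congrFun (congrFun h1 (Sum.inl x)) (Sum.inr q')
    rw [Matrix.submatrix_apply, ← hp', ← hq', Matrix.fromBlocks_apply₁₂] at h2
    rw [h2]
    simp only [stG]
    rw [Matrix.neg_apply, Matrix.mul_apply, Fin.sum_univ_add, Matrix.mul_apply]
    have e1 : ∑ i : Fin (k * w), ((SM e Q (arrA w ω s))⁻¹ * cM w ω s (w + k * w)) x
        (Fin.natAdd w i) * (kM w ω e (nextQ e Q (arrA w ω s) (arrB w ω s)) (s + w)
          (w + k * w))⁻¹ (Fin.natAdd w i) q' = 0 := by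
      refine Finset.sum_eq_zero fun i _ => ?_
      rw [Matrix.mul_apply, Finset.sum_eq_zero, zero_mul]
      intro l _
      rw [cM_apply_ge, mul_zero]
      simp
    rw [e1, add_zero, ← Finset.sum_neg_distrib, Finset.mul_sum]
    refine Finset.sum_congr rfl fun i _ => ?_
    rw [ih _ hk _ (s + w) hR.2 i z (Fin.castAdd (k * w) i) q' (by simp) rfl]
    have e2 : ((SM e Q (arrA w ω s))⁻¹ * cM w ω s (w + k * w)) x (Fin.castAdd (k * w) i) =
        ((SM e Q (arrA w ω s))⁻¹ * lowM (arrB w ω s)) x i := by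
      rw [Matrix.mul_apply, Matrix.mul_apply]
      refine Finset.sum_congr rfl fun l _ => ?_
      rw [cM_apply_lt w ω s _ l (Fin.castAdd (k * w) i) (by simp)]
      rfl
    rw [e2, pow_succ]
    ring

end Run7.h834
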