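import Pool.Agent.Run7.h834.Apriori
import Pool.Agent.Run7.h834.Green
import Pool.Agent.Run7.h834.Good
import Pool.Agent.Run7.h834.Wegner

/-! Fractional moments and regularity of the chain. -/

set_option autoImplicit false
open MeasureTheory Matrix
open scoped ENNReal

namespace Run7.h834

section space

variable (μ : Measure ℝ) [IsProbabilityMeasure μ]

theorem measurable_update_om (c : ℕ × ℕ) :
    Measurable fun p : Om × ℝ => Function.update p.1 c p.2 := by
  classical
  refine measurable_pi_iff.2 fun i => ?_
  by_cases h : i = c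
  · subst h
    simpa using measurable_snd
  · simp only [Function.update_of_ne h]
    exact (measurable_pi_apply i).comp measurable_fst

theorem lintegral_update (c : ℕ × ℕ) {F : Om → ℝ≥0∞} (hF : Measurable F) :
    ∫⁻ ω, F ω ∂(Pm μ) = ∫⁻ ω, ∫⁻ a, F (Function.update ω c a) ∂μ ∂(Pm μ) := by
  rw [lintegral_mix μ {c}ᶜ hF]
  refine lintegral_congr fun ω => ?_
  have h1 : ∀ ω', mix {c}ᶜ ω ω' = Function.update ω c (ω' c) := by
    intro ω'
    funext p
    by_cases h : p = c
    · subst h
      rw [mix_notMem _ _ (by simp), Function.update_self]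
    · rw [mix_mem _ _ (by simpa using h), Function.update_of_ne h]
  simp_rw [h1]
  have hm : Measurable fun a : ℝ => F (Function.update ω c a) :=
    hF.comp ((measurable_update_om c).comp (measurable_const.prodMk measurable_id))
  have h2 : (Pm μ).map (fun ω' => ω' c) = μ := by
    unfold Pm
    exact Measure.infinitePi_map_eval (fun _ => μ) c
  conv_rhs => rw [← h2]
  rw [lintegral_map hm (measurable_pi_apply c)]

theorem lintegral_update₂ (c d : ℕ × ℕ) {F : Om → ℝ≥0∞} (hF : Measurable F) :
    ∫⁻ ω, F ω ∂(Pm μ) =
      ∫⁻ ω, ∫⁻ a, ∫⁻ b, F (Function.update (Function.update ω c a) d b) ∂μ ∂μ ∂(Pm μ) := by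
  rw [lintegral_update μ d hF, lintegral_update μ c]
  have h1 : Measurable fun p : Om × ℝ => F (Function.update p.1 d p.2) :=
    hF.comp (measurable_update_om d)
  exact h1.lintegral_prod_right'

end space

variable {w : ℕ}

theorem kM_update (w : ℕ) (ω : Om) (e : ℝ) (Q : Arr w) (s n : ℕ) (p : Fin n) (a : ℝ) :
    kM w (Function.update ω (s + p, s + p) a) e Q s n =
      kM w (Function.update ω (s + p, s + p) 0) e Q s n + Matrix.single p p a := by
  ext i j
  simp only [kM, Matrix.of_apply, Matrix.add_apply, Matrix.single_apply]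
  by_cases h : p = i ∧ p = j
  · obtain ⟨rfl, rfl⟩ := h
    simp [bnd]
    ring
  · rw [if_neg h, add_zero]
    congr 2
    unfold bnd
    split_ifs with h1
    · have hne : ((min (s + (i : ℕ)) (s + j), max (s + (i : ℕ)) (s + j)) : ℕ × ℕ) ≠
          (s + p, s + p) := by
        intro h2
        rw [Prod.mk.injEq] at h2
        apply h
        constructor
        · apply Fin.ext
          omega
        · apply Fin.ext
          omega
      rw [Function.update_of_ne hne, Function.update_of_ne hne]
    · rfl

theorem measurable_bnd (w i j : ℕ) : Measurable fun ω : Om => bnd w ω i j := by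
  unfold bnd
  split_ifs
  · exact measurable_pi_apply _
  · exact measurable_const

theorem measurable_kM {α : Type*} [MeasurableSpace α] (w : ℕ) {ω : α → Om} {e : α → ℝ}
    {Q : α → Arr w} (hω : Measurable ω) (he : Measurable e) (hQ : Measurable Q) (s n : ℕ)
    (i j : Fin n) : Measurable fun x => kM w (ω x) (e x) (Q x) s n i j := by
  simp only [kM, Matrix.of_apply]
  refine Measurable.sub (Measurable.sub ((measurable_bnd _ _ _).comp hω) ?_) ?_
  · split_ifs
    · exact he
    · exact measurable_const
  · unfold qE
    split_ifs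
    · exact measurable_symM hQ _ _
    · exact measurable_const

theorem kM_transpose (w : ℕ) (ω : Om) (e : ℝ) (Q : Arr w) (s n : ℕ) :
    (kM w ω e Q s n)ᵀ = kM w ω e Q s n := by
  have := kM_isHermitian w ω e Q s n
  rwa [Matrix.IsHermitian, Matrix.conjTranspose_eq_transpose_of_trivial] at this

theorem measurable_frac {α : Type*} [MeasurableSpace α] {f : α → ℝ} (hf : Measurable f) (r : ℝ) :
    Measurable fun x => ENNReal.ofReal (|f x| ^ r) :=
  ENNReal.measurable_ofReal.comp (Measurable.pow_const (f := fun x => ‖f x‖) hf.norm r)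

/-- a priori bound, off-diagonal entries -/
theorem apriori_two {μ : Measure ℝ} [IsProbabilityMeasure μ] {D : ℝ} (hμ : LeVol μ D)
    (w : ℕ) (e : ℝ) (Q : Arr w) (s n : ℕ) {p q : Fin n} (hpq : p ≠ q) :
    ∫⁻ ω, ENNReal.ofReal (|(kM w ω e Q s n)⁻¹ p q| ^ (1 / 2 : ℝ)) ∂(Pm μ) ≤ 4 * cW D := by
  have hm : Measurable fun ω : Om =>
      ENNReal.ofReal (|(kM w ω e Q s n)⁻¹ p q| ^ (1 / 2 : ℝ)) := by
    refine measurable_frac ?_ _
    exact measurable_inv_entry (measurable_kM w measurable_id measurable_const measurable_const s n)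
      p q
  rw [lintegral_update₂ μ (s + p, s + p) (s + q, s + q) hm]
  calc _ ≤ ∫⁻ _, 4 * cW D ∂(Pm μ) := by
        refine lintegral_mono fun ω => ?_
        set ω0 := Function.update (Function.update ω (s + (q : ℕ), s + (q : ℕ)) 0)
          (s + (p : ℕ), s + (p : ℕ)) 0 with hω0
        have hne : ((s + (p : ℕ), s + (p : ℕ)) : ℕ × ℕ) ≠ (s + q, s + q) := by
          intro h
          rw [Prod.mk.injEq] at h
          apply hpq
          apply Fin.ext
          omega
        have key : ∀ a b : ℝ, kM w (Function.update (Function.update ω (s + (p : ℕ), s + (p : ℕ)) a)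
            (s + (q : ℕ), s + (q : ℕ)) b) e Q s n =
            kM w ω0 e Q s n + Matrix.single p p a + Matrix.single q q b := by
          intro a b
          rw [kM_update, Function.update_comm hne, kM_update, add_right_comm, add_right_comm]
        simp_rw [key]
        exact two_var_wt hμ (niceTwo_entry (kM_transpose w ω0 e Q s n) p q)
    _ = 4 * cW D := by simp

/-- a priori bound, diagonal entries -/
theorem apriori_one {μ : Measure ℝ} [IsProbabilityMeasure μ] {D : ℝ} (hμ : LeVol μ D)
    (w : ℕ) (e : ℝ) (Q : Arr w) (s n : ℕ) (p : Fin n) :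
    ∫⁻ ω, ENNReal.ofReal (|(kM w ω e Q s n)⁻¹ p p| ^ (1 / 2 : ℝ)) ∂(Pm μ) ≤ 4 * cW D := by
  have hm : Measurable fun ω : Om =>
      ENNReal.ofReal (|(kM w ω e Q s n)⁻¹ p p| ^ (1 / 2 : ℝ)) := by
    refine measurable_frac ?_ _
    exact measurable_inv_entry (measurable_kM w measurable_id measurable_const measurable_const s n)
      p p
  rw [lintegral_update μ (s + p, s + p) hm]
  calc _ ≤ ∫⁻ _, 4 * cW D ∂(Pm μ) := by
        refine lintegral_mono fun ω => ?_
        have key : ∀ a : ℝ, kM w (Function.update ω (s + (p : ℕ), s + (p : ℕ)) a) e Q s n =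
            kM w (Function.update ω (s + (p : ℕ), s + (p : ℕ)) 0) e Q s n +
              Matrix.single p p a := fun a => kM_update w ω e Q s n p a
        have key2 : ∀ a : ℝ, ENNReal.ofReal (|(kM w (Function.update ω
            (s + (p : ℕ), s + (p : ℕ)) a) e Q s n)⁻¹ p p| ^ (1 / 2 : ℝ)) =
            ENNReal.ofReal (|(kM w (Function.update ω (s + (p : ℕ), s + (p : ℕ)) 0) e Q s n +
              Matrix.single p p a)⁻¹ p p| ^ (1 / 2 : ℝ)) := fun a => by rw [key a]
        rw [lintegral_congr key2]
        rcases one_entry (K := kM w (Function.update ω (s + (p : ℕ), s + (p : ℕ)) 0) e Q s n) p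
          with h | ⟨c, h⟩
        · have : ∀ a : ℝ, ENNReal.ofReal (|(kM w (Function.update ω (s + (p : ℕ), s + (p : ℕ)) 0)
            e Q s n + Matrix.single p p a)⁻¹ p p| ^ (1 / 2 : ℝ)) = 0 := by
            intro a
            rw [h a, abs_zero, Real.zero_rpow (by norm_num), ENNReal.ofReal_zero]
          simp_rw [this]
          simp
        · calc _ ≤ ∫⁻ a, wt (a + c) ∂μ := lintegral_mono fun a => h a
            _ ≤ cW D := one_var_wt hμ c
            _ = 1 * cW D := (one_mul _).symm
            _ ≤ 4 * cW D := by
                gcongr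
                norm_num
    _ = 4 * cW D := by simp

theorem apriori {μ : Measure ℝ} [IsProbabilityMeasure μ] {D : ℝ} (hμ : LeVol μ D)
    (w : ℕ) (e : ℝ) (Q : Arr w) (s n : ℕ) (p q : Fin n) :
    ∫⁻ ω, ENNReal.ofReal (|(kM w ω e Q s n)⁻¹ p q| ^ (1 / 2 : ℝ)) ∂(Pm μ) ≤ 4 * cW D := by
  by_cases h : p = q
  · subst h
    exact apriori_one hμ w e Q s n p
  · exact apriori_two hμ w e Q s n h

/-! ### Counting eigenvalues near zero -/

/-- number of eigenvalues of `M` in `[-t, t)` -/
noncomputable def nInt {ι : Type*} [Fintype ι] [DecidableEq ι] (M : Matrix ι ι ℝ) (t : ℝ) : ℕ :=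
  negIdx (M - t • (1 : Matrix ι ι ℝ)) - negIdx (M - (-t) • (1 : Matrix ι ι ℝ))

theorem isUnit_of_nInt {ι : Type*} [Fintype ι] [DecidableEq ι] {M : Matrix ι ι ℝ}
    (hM : M.IsHermitian) {t : ℝ} (ht : 0 < t) (h : nInt M t = 0) : IsUnit M := by
  rw [Matrix.isUnit_iff_isUnit_det, hM.det_eq_prod_eigenvalues]
  simp only [RCLike.ofReal_real_eq_id, id_eq]
  rw [isUnit_iff_ne_zero, Finset.prod_ne_zero_iff]
  intro i _ h0
  unfold nInt at h
  rw [negIdx_sub_eq_card hM, negIdx_sub_eq_card hM] at h
  have h1 : (Finset.univ.filter fun i => hM.eigenvalues i < -t) ⊂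
      (Finset.univ.filter fun i => hM.eigenvalues i < t) := by
    rw [Finset.ssubset_iff_of_subset]
    · refine ⟨i, ?_, ?_⟩
      · simp [h0, ht]
      · simp [h0, ht.le]
    · intro j hj
      simp only [Finset.mem_filter, Finset.mem_univ, true_and] at hj ⊢
      linarith
  have := Finset.card_lt_card h1
  omega

theorem measurable_nInt {α ι : Type*} [MeasurableSpace α] [Fintype ι] [DecidableEq ι]
    {M : α → Matrix ι ι ℝ} (hM : ∀ i j, Measurable fun x => M x i j) (t : ℝ) :
    Measurable fun x => nInt (M x) t := by
  unfold nInt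
  refine Measurable.sub (measurable_negIdx_comp fun i j => ?_)
    (measurable_negIdx_comp fun i j => ?_)
  · simp only [Matrix.sub_apply]
    exact (hM i j).sub_const _
  · simp only [Matrix.sub_apply]
    exact (hM i j).sub_const _

/-- Wegner estimate for sections of the band matrix -/
theorem wegner_kM {μ : Measure ℝ} [IsProbabilityMeasure μ] {D : ℝ} (hμ : BddDens μ D)
    (w : ℕ) (e : ℝ) (Q : Arr w) (s n : ℕ) {t : ℝ} (ht : 0 ≤ t) :
    ∫⁻ ω, ((negIdx (kM w ω (e + t) Q s n) - negIdx (kM w ω e Q s n) : ℕ) : ℝ≥0∞) ∂(Pm μ) ≤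
      n * ENNReal.ofReal (2 * D * t) := by
  classical
  -- resample the diagonal
  set φ : Fin n → ℕ × ℕ := fun i => (s + i, s + i) with hφ
  have hφi : Function.Injective φ := by
    intro i j h
    simp only [hφ, Prod.mk.injEq] at h
    apply Fin.ext
    omega
  set S : Set (ℕ × ℕ) := Set.range φ with hS
  have hm : Measurable fun ω : Om =>
      ((negIdx (kM w ω (e + t) Q s n) - negIdx (kM w ω e Q s n) : ℕ) : ℝ≥0∞) := by
    have h1 : ∀ e, Measurable fun ω : Om => negIdx (kM w ω e Q s n) := fun e =>
      measurable_negIdx_comp (measurable_kM w measurable_id measurable_const measurable_const s n)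
    exact measurable_from_top.comp ((h1 _).sub (h1 _))
  rw [lintegral_mix μ Sᶜ hm]
  calc _ ≤ ∫⁻ _, n * ENNReal.ofReal (2 * D * t) ∂(Pm μ) := by
        refine lintegral_mono fun ω => ?_
        -- matrix without diagonal
        set K0 : Matrix (Fin n) (Fin n) ℝ := Matrix.of fun i j =>
          (if i = j then 0 else bnd w ω (s + i) (s + j)) - (if i = j then e else 0) - qE Q i j
          with hK0
        have key : ∀ (ω' : Om) (t' : ℝ), kM w (mix Sᶜ ω ω') (e + t') Q s n =
            K0 + Matrix.diagonal (sub' Finset.univ t' (fun i => ω' (φ i))) := by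
          intro ω' t'
          ext i j
          simp only [kM, hK0, Matrix.of_apply, Matrix.add_apply]
          by_cases h : i = j
          · subst h
            rw [if_pos rfl, if_pos rfl, if_pos rfl, Matrix.diagonal_apply_eq]
            have h1 : bnd w (mix Sᶜ ω ω') (s + i) (s + i) = ω' (φ i) := by
              unfold bnd
              rw [if_pos (by simp), min_self, max_self]
              rw [mix_notMem]
              simp only [Set.mem_compl_iff, not_not]
              exact ⟨i, rfl⟩
            rw [h1]
            simp only [sub', Finset.mem_univ, if_true]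
            ring
          · rw [if_neg h, if_neg h, if_neg h, Matrix.diagonal_apply_ne _ h, add_zero]
            congr 2
            unfold bnd
            split_ifs with h2
            · rw [mix_mem]
              simp only [Set.mem_compl_iff]
              rintro ⟨l, hl⟩
              simp only [hφ, Prod.mk.injEq] at hl
              apply h
              apply Fin.ext
              omega
            · rfl
        have key0 : ∀ ω' : Om, kM w (mix Sᶜ ω ω') e Q s n =
            K0 + Matrix.diagonal (fun i => ω' (φ i)) := by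
          intro ω'
          have := key ω' 0
          rw [add_zero] at this
          rw [this]
          congr 2
          funext i
          simp [sub']
        have e1 : ∀ ω' : Om, ((negIdx (kM w (mix Sᶜ ω ω') (e + t) Q s n) -
            negIdx (kM w (mix Sᶜ ω ω') e Q s n) : ℕ) : ℝ≥0∞) =
            (cnt K0 t (fun i => ω' (φ i)) : ℝ≥0∞) := by
          intro ω'
          rw [key, key0]
          rfl
        simp_rw [e1]
        have hc : Measurable fun v : Fin n → ℝ => (cnt K0 t v : ℝ≥0∞) :=
          measurable_from_top.comp (measurable_cnt K0 t)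
        have := lintegral_sel μ φ hφi hc
        rw [this]
        refine (wegner hμ K0 ht).trans ?_
        simp
    _ = n * ENNReal.ofReal (2 * D * t) := by simp

end Run7.h834
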