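import Mathlib

/-! An abstract decay estimate for multiplicative functionals with a scaling symmetry. -/

set_option autoImplicit false
open MeasureTheory
open scoped ENNReal

namespace Run7.h834

/-- the elementary gap in the Cauchy-Schwarz inequality for a two-point measure -/
theorem two_point_gap {x y E h : ℝ} (hx : 0 ≤ x) (hy : 0 ≤ y) (hxy : x ≤ E * y)
    (hyx : y ≤ E * x) (hh : 0 ≤ h) (hE : 1 ≤ E) :
    ((x * Real.exp (-h) + y * Real.exp h) / 2) ^ 2 ≤
      (1 - (1 - Real.exp (-(2 * h))) ^ 2 / (2 * E + 2)) *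
        (((x + y) / 2) * ((x * Real.exp (-(2 * h)) + y * Real.exp (2 * h)) / 2)) := by
  set q := Real.exp h with hq
  have hq1 : 1 ≤ q := Real.one_le_exp hh
  have hq0 : 0 < q := Real.exp_pos h
  have e1 : Real.exp (-h) = q⁻¹ := by rw [Real.exp_neg]
  have e2 : Real.exp (2 * h) = q ^ 2 := by
    rw [hq, ← Real.exp_nat_mul]
    norm_num
  have e3 : Real.exp (-(2 * h)) = (q ^ 2)⁻¹ := by rw [Real.exp_neg, e2]
  rw [e1, e2, e3]
  have hE2 : 0 < 2 * E + 2 := by linarith
  have hinv : q⁻¹ * q = 1 := inv_mul_cancel₀ hq0.ne'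
  set p := q⁻¹ with hp
  have hp0 : 0 < p := inv_pos.2 hq0
  have hp1 : p ≤ 1 := inv_le_one_of_one_le₀ hq1
  have e4 : (q ^ 2)⁻¹ = p ^ 2 := by rw [inv_pow]
  rw [e4]
  have hpq : p * q = 1 := hinv
  have hsum : (x + y) ^ 2 ≤ (2 * E + 2) * (x * y) := by nlinarith [mul_nonneg hx hy]
  -- the gap
  have key : ((x + y) / 2) * ((x * p ^ 2 + y * q ^ 2) / 2) - ((x * p + y * q) / 2) ^ 2 =
      x * y * (q - p) ^ 2 / 4 := by
    have : p ^ 2 * q ^ 2 = 1 := by rw [← mul_pow, hpq, one_pow]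
    have h3 : x * y * (q - p) ^ 2 = x * y * (q ^ 2 + p ^ 2 - 2 * (p * q)) := by ring
    rw [h3, hpq]
    have h4 : (x * p + y * q) ^ 2 = x ^ 2 * p ^ 2 + y ^ 2 * q ^ 2 + 2 * x * y * (p * q) := by ring
    have h5 : ((x * p + y * q) / 2) ^ 2 = (x * p + y * q) ^ 2 / 4 := by ring
    rw [h5, h4, hpq]
    ring
  have hprod : ((x + y) / 2) * ((x * p ^ 2 + y * q ^ 2) / 2) ≤
      (2 * E + 2) * (x * y) * q ^ 2 / 4 := by
    have h6 : x * p ^ 2 + y * q ^ 2 ≤ (x + y) * q ^ 2 := by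
      have : x * p ^ 2 ≤ x * q ^ 2 :=
        mul_le_mul_of_nonneg_left (by nlinarith) hx
      linarith
    have h7 : 0 ≤ x + y := add_nonneg hx hy
    calc ((x + y) / 2) * ((x * p ^ 2 + y * q ^ 2) / 2)
        = (x + y) * (x * p ^ 2 + y * q ^ 2) / 4 := by ring
      _ ≤ (x + y) * ((x + y) * q ^ 2) / 4 := by
          have := mul_le_mul_of_nonneg_left h6 h7
          linarith
      _ = (x + y) ^ 2 * q ^ 2 / 4 := by ring
      _ ≤ _ := by
          have := mul_le_mul_of_nonneg_right hsum (sq_nonneg q)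
          linarith
  have h8 : (1 - p ^ 2) ^ 2 / (2 * E + 2) *
      (((x + y) / 2) * ((x * p ^ 2 + y * q ^ 2) / 2)) ≤ x * y * (q - p) ^ 2 / 4 := by
    calc (1 - p ^ 2) ^ 2 / (2 * E + 2) * (((x + y) / 2) * ((x * p ^ 2 + y * q ^ 2) / 2))
        ≤ (1 - p ^ 2) ^ 2 / (2 * E + 2) * ((2 * E + 2) * (x * y) * q ^ 2 / 4) :=
          mul_le_mul_of_nonneg_left hprod (by positivity)
      _ = x * y * ((1 - p ^ 2) * q) ^ 2 / 4 := by
          field_simp
      _ = x * y * (q - p) ^ 2 / 4 := by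
          have : (1 - p ^ 2) * q = q - p := by
            have : p ^ 2 * q = p := by rw [sq, mul_assoc, hpq, mul_one]
            linarith [this, sub_mul 1 (p ^ 2) q]
          rw [this]
  nlinarith [h8, key]

section iter

variable {𝒬 𝒢 U : Type*} [MeasurableSpace 𝒬] [MeasurableSpace 𝒢] [MeasurableSpace U]

/-- iterating a random step -/
noncomputable def iter (γ : Measure 𝒢) (ζ : 𝒬 → 𝒢 → 𝒬) (T : 𝒬 → 𝒢 → U → U)
    (F : 𝒬 → U → ℝ≥0∞) : ℕ → 𝒬 → U → ℝ≥0∞
  | 0 => F
  | n + 1 => fun Q u => ∫⁻ g, iter γ ζ T F n (ζ Q g) (T Q g u) ∂γ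

variable {γ : Measure 𝒢} [IsProbabilityMeasure γ] {ζ : 𝒬 → 𝒢 → 𝒬} {T : 𝒬 → 𝒢 → U → U}

theorem measurable_iter (hζ : Measurable fun p : 𝒬 × 𝒢 => ζ p.1 p.2)
    (hT : Measurable fun p : (𝒬 × U) × 𝒢 => T p.1.1 p.2 p.1.2) {F : 𝒬 → U → ℝ≥0∞}
    (hF : Measurable fun p : 𝒬 × U => F p.1 p.2) (n : ℕ) :
    Measurable fun p : 𝒬 × U => iter γ ζ T F n p.1 p.2 := by
  induction n with
  | zero => exact hF
  | succ n ih =>
    have h1 : Measurable fun p : (𝒬 × U) × 𝒢 =>
        iter γ ζ T F n (ζ p.1.1 p.2) (T p.1.1 p.2 p.1.2) :=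
      ih.comp ((hζ.comp ((measurable_fst.comp measurable_fst).prodMk measurable_snd)).prodMk hT)
    exact h1.lintegral_prod_right'

/-- homogeneity is preserved -/
theorem iter_homog [SMul ℝ U] {r : ℝ} {F : 𝒬 → U → ℝ≥0∞}
    (hT : ∀ Q g (c : ℝ) u, T Q g (c • u) = c • T Q g u)
    (hF : ∀ Q u (c : ℝ), 0 < c → F Q (c • u) = ENNReal.ofReal (c ^ r) * F Q u) (n : ℕ) :
    ∀ Q u (c : ℝ), 0 < c → iter γ ζ T F n Q (c • u) =
      ENNReal.ofReal (c ^ r) * iter γ ζ T F n Q u := by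
  induction n with
  | zero => exact hF
  | succ n ih =>
    intro Q u c hc
    simp only [iter]
    rw [← lintegral_const_mul' _ _ ENNReal.ofReal_ne_top]
    refine lintegral_congr fun g => ?_
    rw [hT, ih _ _ _ hc]

/-- the comparison quantity -/
noncomputable def cIter (γ : Measure 𝒢) (ζ : 𝒬 → 𝒢 → 𝒬) (w : 𝒬 → 𝒢 → ℝ≥0∞) :
    ℕ → 𝒬 → ℝ≥0∞
  | 0 => fun _ => 1
  | n + 1 => fun Q => ∫⁻ g, cIter γ ζ w n (ζ Q g) * w Q g ∂γ

theorem cIter_le {w : 𝒬 → 𝒢 → ℝ≥0∞} {θ : ℝ≥0∞} (hw : ∀ Q, ∫⁻ g, w Q g ∂γ ≤ θ)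
    (hwm : ∀ Q, Measurable (w Q)) (n : ℕ) (Q : 𝒬) : cIter γ ζ w n Q ≤ θ ^ n := by
  induction n generalizing Q with
  | zero => simp [cIter]
  | succ n ih =>
    simp only [cIter]
    calc ∫⁻ g, cIter γ ζ w n (ζ Q g) * w Q g ∂γ ≤ ∫⁻ g, θ ^ n * w Q g ∂γ :=
          lintegral_mono fun g => by gcongr; exact ih _
      _ = θ ^ n * ∫⁻ g, w Q g ∂γ := lintegral_const_mul _ (hwm Q)
      _ ≤ θ ^ n * θ := by gcongr; exact hw Q
      _ = θ ^ (n + 1) := (pow_succ θ n).symm

theorem measurable_cIter (hζ : Measurable fun p : 𝒬 × 𝒢 => ζ p.1 p.2) {w : 𝒬 → 𝒢 → ℝ≥0∞}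
    (hwm : Measurable fun p : 𝒬 × 𝒢 => w p.1 p.2) (n : ℕ) :
    Measurable (cIter γ ζ w n) := by
  induction n with
  | zero => exact measurable_const
  | succ n ih =>
    have h1 : Measurable fun p : 𝒬 × 𝒢 => cIter γ ζ w n (ζ p.1 p.2) * w p.1 p.2 :=
      (ih.comp hζ).mul hwm
    exact h1.lintegral_prod_right'

/-- **The gap estimate.** `τ₊, τ₋` are the two scalings of the random variables, `R₊, R₋` the
densities which they cost; the scalings multiply the functional by `exp (∓ε)`. -/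
theorem gap_iter [SMul ℝ U] {τp τm : 𝒬 → 𝒢 → 𝒢} {Rp Rm : 𝒬 → 𝒢 → ℝ}
    {r ε E : ℝ} (hr : 0 ≤ r) (hε : 0 ≤ ε) (hE : 1 ≤ E)
    (hζ : Measurable fun p : 𝒬 × 𝒢 => ζ p.1 p.2)
    (hT : Measurable fun p : (𝒬 × U) × 𝒢 => T p.1.1 p.2 p.1.2)
    (hTs : ∀ Q g (c : ℝ) u, T Q g (c • u) = c • T Q g u)
    (hRp0 : ∀ Q g, 0 ≤ Rp Q g) (hRm0 : ∀ Q g, 0 ≤ Rm Q g)
    (hRp : Measurable fun p : 𝒬 × 𝒢 => Rp p.1 p.2)
    (hRm : Measurable fun p : 𝒬 × 𝒢 => Rm p.1 p.2)
    (hqp : ∀ Q, ∀ F : 𝒢 → ℝ≥0∞, Measurable F →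
      ∫⁻ g, F g ∂γ = ∫⁻ g, F (τp Q g) * ENNReal.ofReal (Rp Q g) ∂γ)
    (hqm : ∀ Q, ∀ F : 𝒢 → ℝ≥0∞, Measurable F →
      ∫⁻ g, F g ∂γ = ∫⁻ g, F (τm Q g) * ENNReal.ofReal (Rm Q g) ∂γ)
    (hζp : ∀ Q g, ζ Q (τp Q g) = ζ Q g) (hζm : ∀ Q g, ζ Q (τm Q g) = ζ Q g)
    (hTp : ∀ Q g u, T Q (τp Q g) u = Real.exp (-ε) • T Q g u)
    (hTm : ∀ Q g u, T Q (τm Q g) u = Real.exp ε • T Q g u)
    (good : 𝒬 → Set 𝒢) (hgood : ∀ Q, MeasurableSet (good Q))
    (hgP : ∀ Q, 1 / 2 ≤ γ (good Q))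
    (hgp : ∀ Q g, τp Q g ∈ good Q → Rp Q g ≤ E * Rm Q g ∧ Rm Q g ≤ E * Rp Q g)
    (hgm : ∀ Q g, τm Q g ∈ good Q → Rp Q g ≤ E * Rm Q g ∧ Rm Q g ≤ E * Rp Q g)
    {A B : 𝒬 → U → ℝ≥0∞} (hA : Measurable fun p : 𝒬 × U => A p.1 p.2)
    (hB : Measurable fun p : 𝒬 × U => B p.1 p.2)
    (hAB : ∀ Q u, A Q u ≤ B Q u ^ (1 / 2 : ℝ))
    (hAh : ∀ Q u (c : ℝ), 0 < c → A Q (c • u) = ENNReal.ofReal (c ^ r) * A Q u)
    (hBh : ∀ Q u (c : ℝ), 0 < c → B Q (c • u) = ENNReal.ofReal (c ^ (2 * r)) * B Q u)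
    (n : ℕ) (Q : 𝒬) (u : U) :
    iter γ ζ T A n Q u ≤ iter γ ζ T B n Q u ^ (1 / 2 : ℝ) *
      (ENNReal.ofReal (1 - (1 - Real.exp (-(2 * (r * ε)))) ^ 2 / (2 * E + 2) / 2) ^ n) ^
        (1 / 2 : ℝ) := by
  set δ : ℝ := (1 - Real.exp (-(2 * (r * ε)))) ^ 2 / (2 * E + 2) with hδ
  have hrε : 0 ≤ r * ε := mul_nonneg hr hε
  have hδ0 : 0 ≤ δ := by positivity
  have hδ1 : δ ≤ 1 := by
    have h1 : 0 ≤ 1 - Real.exp (-(2 * (r * ε))) := by
      have : Real.exp (-(2 * (r * ε))) ≤ 1 := Real.exp_le_one_iff.2 (by linarith)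
      linarith
    have h2 : 1 - Real.exp (-(2 * (r * ε))) ≤ 1 := by
      linarith [Real.exp_pos (-(2 * (r * ε)))]
    rw [hδ, div_le_one (by linarith)]
    nlinarith
  -- the averaged weights
  set mw : ℝ → 𝒬 → 𝒢 → ℝ := fun p Q g =>
    (Rp Q g * Real.exp (-(p * ε)) + Rm Q g * Real.exp (p * ε)) / 2 with hmw
  have hmw0 : ∀ p Q g, 0 ≤ mw p Q g := fun p Q g => by
    have := hRp0 Q g
    have := hRm0 Q g
    positivity
  have hmwm : ∀ p, Measurable fun q : 𝒬 × 𝒢 => mw p q.1 q.2 := fun p =>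
    ((hRp.mul_const _).add (hRm.mul_const _)).div_const _
  -- averaging identity
  have avg : ∀ (p : ℝ) (F : 𝒬 → U → ℝ≥0∞), (Measurable fun q : 𝒬 × U => F q.1 q.2) →
      (∀ Q u (c : ℝ), 0 < c → F Q (c • u) = ENNReal.ofReal (c ^ p) * F Q u) →
      ∀ Q u, ∫⁻ g, F (ζ Q g) (T Q g u) ∂γ =
        ∫⁻ g, F (ζ Q g) (T Q g u) * ENNReal.ofReal (mw p Q g) ∂γ := by
    intro p F hFm hFh Q u
    have hm1 : Measurable fun g => F (ζ Q g) (T Q g u) :=
      hFm.comp ((hζ.comp (measurable_const.prodMk measurable_id)).prodMk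
        (hT.comp ((measurable_const (a := (Q, u))).prodMk measurable_id)))
    have e1 := hqp Q _ hm1
    have e2 := hqm Q _ hm1
    have e3 : ∀ g, F (ζ Q (τp Q g)) (T Q (τp Q g) u) * ENNReal.ofReal (Rp Q g) =
        F (ζ Q g) (T Q g u) * ENNReal.ofReal (Rp Q g * Real.exp (-(p * ε))) := by
      intro g
      rw [hζp, hTp, hFh _ _ _ (Real.exp_pos _), ENNReal.ofReal_mul (hRp0 Q g),
        ← Real.exp_mul, show -ε * p = -(p * ε) by ring]
      ring
    have e4 : ∀ g, F (ζ Q (τm Q g)) (T Q (τm Q g) u) * ENNReal.ofReal (Rm Q g) =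
        F (ζ Q g) (T Q g u) * ENNReal.ofReal (Rm Q g * Real.exp (p * ε)) := by
      intro g
      rw [hζm, hTm, hFh _ _ _ (Real.exp_pos _), ENNReal.ofReal_mul (hRm0 Q g),
        ← Real.exp_mul, show ε * p = p * ε by ring]
      ring
    simp only [e3] at e1
    simp only [e4] at e2
    have hmp : Measurable fun g => F (ζ Q g) (T Q g u) *
        ENNReal.ofReal (Rp Q g * Real.exp (-(p * ε))) :=
      hm1.mul (ENNReal.measurable_ofReal.comp
        ((hRp.comp (measurable_const.prodMk measurable_id)).mul_const _))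
    have e5 : ∫⁻ g, F (ζ Q g) (T Q g u) * ENNReal.ofReal (mw p Q g) ∂γ =
        (1 / 2) * (∫⁻ g, F (ζ Q g) (T Q g u) ∂γ) + (1 / 2) * (∫⁻ g, F (ζ Q g) (T Q g u) ∂γ) := by
      conv_rhs => rw [e1]
      conv_rhs =>
        enter [2, 2]
        rw [← e1, e2]
      rw [← mul_add, ← lintegral_add_left hmp, ← lintegral_const_mul' _ _ (by norm_num)]
      refine lintegral_congr fun g => ?_
      rw [← mul_add, ← ENNReal.ofReal_add (mul_nonneg (hRp0 Q g) (Real.exp_pos _).le)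
        (mul_nonneg (hRm0 Q g) (Real.exp_pos _).le), ← mul_assoc, mul_comm (1 / 2 : ℝ≥0∞),
        mul_assoc]
      congr 1
      simp only [hmw]
      rw [div_eq_mul_inv, ENNReal.ofReal_mul (add_nonneg (mul_nonneg (hRp0 Q g)
        (Real.exp_pos _).le) (mul_nonneg (hRm0 Q g) (Real.exp_pos _).le)), mul_comm]
      congr 1
      rw [ENNReal.ofReal_inv_of_pos (by norm_num)]
      simp
    rw [e5, ← add_mul, ENNReal.add_halves, one_mul]
  -- the nice set
  set nice : Set (𝒬 × 𝒢) := {q | Rp q.1 q.2 ≤ E * Rm q.1 q.2 ∧ Rm q.1 q.2 ≤ E * Rp q.1 q.2}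
    with hnice
  have hnicem : MeasurableSet nice :=
    (measurableSet_le hRp (hRm.const_mul E)).inter (measurableSet_le hRm (hRp.const_mul E))
  set w : 𝒬 → 𝒢 → ℝ≥0∞ := fun Q g =>
    ENNReal.ofReal ((1 - δ * nice.indicator 1 (Q, g)) * mw 0 Q g) with hw
  have hfac0 : ∀ Q g, 0 ≤ 1 - δ * nice.indicator (1 : 𝒬 × 𝒢 → ℝ) (Q, g) := by
    intro Q g
    by_cases h : (Q, g) ∈ nice
    · rw [Set.indicator_of_mem h]
      simpa using hδ1
    · rw [Set.indicator_of_notMem h]
      simp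
  have hwm : Measurable fun q : 𝒬 × 𝒢 => w q.1 q.2 := by
    refine ENNReal.measurable_ofReal.comp ?_
    refine Measurable.mul ?_ (hmwm 0)
    exact measurable_const.sub ((measurable_one.indicator hnicem).const_mul δ)
  -- the pointwise inequality
  have hpt : ∀ Q g, ENNReal.ofReal (mw r Q g) ≤
      ENNReal.ofReal (mw (2 * r) Q g) ^ (1 / 2 : ℝ) * w Q g ^ (1 / 2 : ℝ) := by
    intro Q g
    have hreal : mw r Q g ^ 2 ≤ mw (2 * r) Q g *
        ((1 - δ * nice.indicator (1 : 𝒬 × 𝒢 → ℝ) (Q, g)) * mw 0 Q g) := by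
      have a1 : mw r Q g = (Rp Q g * Real.exp (-(r * ε)) + Rm Q g * Real.exp (r * ε)) / 2 := rfl
      have a2 : mw (2 * r) Q g = (Rp Q g * Real.exp (-(2 * (r * ε))) +
          Rm Q g * Real.exp (2 * (r * ε))) / 2 := by
        simp only [hmw]
        rw [show 2 * r * ε = 2 * (r * ε) by ring]
      have a3 : mw 0 Q g = (Rp Q g + Rm Q g) / 2 := by
        simp [hmw]
      by_cases h : (Q, g) ∈ nice
      · rw [Set.indicator_of_mem h, Pi.one_apply, mul_one, a1, a2, a3]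
        have := two_point_gap (hRp0 Q g) (hRm0 Q g) h.1 h.2 hrε hE
        linarith
      · rw [Set.indicator_of_notMem h, mul_zero, sub_zero, one_mul, a1, a2, a3]
        set x := Rp Q g
        set y := Rm Q g
        have hx := hRp0 Q g
        have hy := hRm0 Q g
        have b1 : Real.exp (-(2 * (r * ε))) = Real.exp (-(r * ε)) ^ 2 := by
          rw [← Real.exp_nat_mul]
          congr 1
          push_cast
          ring
        have b2 : Real.exp (2 * (r * ε)) = Real.exp (r * ε) ^ 2 := by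
          rw [← Real.exp_nat_mul]
          congr 1
        rw [b1, b2]
        set p := Real.exp (-(r * ε))
        set q := Real.exp (r * ε)
        nlinarith [mul_nonneg (mul_nonneg hx hy) (sq_nonneg (p - q))]
    have h2 : mw r Q g ≤ Real.sqrt (mw (2 * r) Q g *
        ((1 - δ * nice.indicator (1 : 𝒬 × 𝒢 → ℝ) (Q, g)) * mw 0 Q g)) :=
      Real.le_sqrt_of_sq_le hreal
    rw [← ENNReal.mul_rpow_of_nonneg _ _ (by norm_num), hw,
      ← ENNReal.ofReal_mul (hmw0 _ _ _), ENNReal.ofReal_rpow_of_nonneg (mul_nonneg (hmw0 _ _ _)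
        (mul_nonneg (hfac0 _ _) (hmw0 _ _ _))) (by norm_num), ← Real.sqrt_eq_rpow]
    exact ENNReal.ofReal_le_ofReal h2
  -- the induction
  have hAm := fun n => measurable_iter (γ := γ) hζ hT hA n
  have hBm := fun n => measurable_iter (γ := γ) hζ hT hB n
  have hAhn := fun n => iter_homog (γ := γ) (ζ := ζ) hTs hAh n
  have hBhn := fun n => iter_homog (γ := γ) (ζ := ζ) hTs hBh n
  have hcm := fun n => measurable_cIter (γ := γ) hζ hwm n
  have main : ∀ n Q u, iter γ ζ T A n Q u ≤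
      iter γ ζ T B n Q u ^ (1 / 2 : ℝ) * cIter γ ζ w n Q ^ (1 / 2 : ℝ) := by
    intro n
    induction n with
    | zero =>
      intro Q u
      simpa [iter, cIter] using hAB Q u
    | succ n ih =>
      intro Q u
      have hg1 : Measurable fun g => (ζ Q g, T Q g u) :=
        (hζ.comp (measurable_const.prodMk measurable_id)).prodMk
          (hT.comp ((measurable_const (a := (Q, u))).prodMk measurable_id))
      have hg2 : Measurable fun g => ζ Q g := hζ.comp (measurable_const.prodMk measurable_id)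
      have m2 : Measurable fun g => ENNReal.ofReal (mw (2 * r) Q g) :=
        ENNReal.measurable_ofReal.comp ((hmwm _).comp (measurable_const.prodMk measurable_id))
      have mB : Measurable fun g => iter γ ζ T B n (ζ Q g) (T Q g u) *
          ENNReal.ofReal (mw (2 * r) Q g) := ((hBm n).comp hg1).mul m2
      have mC : Measurable fun g => cIter γ ζ w n (ζ Q g) * w Q g :=
        ((hcm n).comp hg2).mul (hwm.comp (measurable_const.prodMk measurable_id))
      calc iter γ ζ T A (n + 1) Q u = ∫⁻ g, iter γ ζ T A n (ζ Q g) (T Q g u) ∂γ := rfl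
        _ = ∫⁻ g, iter γ ζ T A n (ζ Q g) (T Q g u) * ENNReal.ofReal (mw r Q g) ∂γ :=
            avg r _ (hAm n) (hAhn n) Q u
        _ ≤ ∫⁻ g, (iter γ ζ T B n (ζ Q g) (T Q g u) * ENNReal.ofReal (mw (2 * r) Q g)) ^
              (1 / 2 : ℝ) * (cIter γ ζ w n (ζ Q g) * w Q g) ^ (1 / 2 : ℝ) ∂γ := by
            refine lintegral_mono fun g => ?_
            calc iter γ ζ T A n (ζ Q g) (T Q g u) * ENNReal.ofReal (mw r Q g)
                ≤ (iter γ ζ T B n (ζ Q g) (T Q g u) ^ (1 / 2 : ℝ) *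
                    cIter γ ζ w n (ζ Q g) ^ (1 / 2 : ℝ)) *
                  (ENNReal.ofReal (mw (2 * r) Q g) ^ (1 / 2 : ℝ) * w Q g ^ (1 / 2 : ℝ)) :=
                  mul_le_mul' (ih _ _) (hpt Q g)
              _ = _ := by
                  rw [ENNReal.mul_rpow_of_nonneg _ _ (by norm_num),
                    ENNReal.mul_rpow_of_nonneg _ _ (by norm_num)]
                  ring
        _ ≤ (∫⁻ g, ((iter γ ζ T B n (ζ Q g) (T Q g u) * ENNReal.ofReal (mw (2 * r) Q g)) ^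
              (1 / 2 : ℝ)) ^ (2 : ℝ) ∂γ) ^ (1 / 2 : ℝ) *
            (∫⁻ g, ((cIter γ ζ w n (ζ Q g) * w Q g) ^ (1 / 2 : ℝ)) ^ (2 : ℝ) ∂γ) ^
              (1 / 2 : ℝ) :=
            ENNReal.lintegral_mul_le_Lp_mul_Lq γ Real.HolderConjugate.two_two
              (mB.pow_const _).aemeasurable (mC.pow_const _).aemeasurable
        _ = iter γ ζ T B (n + 1) Q u ^ (1 / 2 : ℝ) * cIter γ ζ w (n + 1) Q ^ (1 / 2 : ℝ) := by
            congr 2
            · simp only [iter]
              rw [avg (2 * r) _ (hBm n) (hBhn n) Q u]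
              refine lintegral_congr fun g => ?_
              rw [← ENNReal.rpow_mul]
              norm_num
            · simp only [cIter]
              refine lintegral_congr fun g => ?_
              rw [← ENNReal.rpow_mul]
              norm_num
  -- the weights integrate to at most `1 - δ / 2`
  have hwint : ∀ Q, ∫⁻ g, w Q g ∂γ ≤ ENNReal.ofReal (1 - δ / 2) := by
    intro Q
    have hRpm : Measurable fun g => Rp Q g := hRp.comp (measurable_const.prodMk measurable_id)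
    have hRmm : Measurable fun g => Rm Q g := hRm.comp (measurable_const.prodMk measurable_id)
    have hnQ : MeasurableSet {g | (Q, g) ∈ nice} := measurable_prodMk_left hnicem
    -- total mass of `mw 0`
    have t1 : ∫⁻ g, ENNReal.ofReal (mw 0 Q g) ∂γ = 1 := by
      have h1 := hqp Q (fun _ => 1) measurable_const
      have h2 := hqm Q (fun _ => 1) measurable_const
      simp only [one_mul, lintegral_const, measure_univ] at h1 h2
      have h3 : ∀ g, ENNReal.ofReal (mw 0 Q g) =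
          (ENNReal.ofReal (Rp Q g) + ENNReal.ofReal (Rm Q g)) * (1 / 2) := by
        intro g
        rw [← ENNReal.ofReal_add (hRp0 _ _) (hRm0 _ _)]
        simp only [hmw, zero_mul, neg_zero, Real.exp_zero, mul_one]
        rw [ENNReal.ofReal_div_of_pos (by norm_num), div_eq_mul_inv, one_div]
        norm_num
      simp only [h3]
      have h4 : Measurable fun g => ENNReal.ofReal (Rp Q g) := ENNReal.measurable_ofReal.comp hRpm
      rw [lintegral_mul_const' _ _ (by norm_num),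
        lintegral_add_left h4, ← h1, ← h2,
        ← two_mul, mul_one]
      exact ENNReal.mul_div_cancel (by norm_num) (by norm_num)
    -- the nice part
    have t2 : 1 / 2 ≤ ∫⁻ g, {g | (Q, g) ∈ nice}.indicator
        (fun g => ENNReal.ofReal (mw 0 Q g)) g ∂γ := by
      have hind : Measurable ((good Q).indicator (fun _ => (1 : ℝ≥0∞))) :=
        measurable_const.indicator (hgood Q)
      have h1 := hqp Q _ hind
      have h2 := hqm Q _ hind
      rw [lintegral_indicator_const (hgood Q), one_mul] at h1 h2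
      have h3 : ∀ g, (((good Q).indicator (fun _ => (1 : ℝ≥0∞)) (τp Q g) *
          ENNReal.ofReal (Rp Q g)) + ((good Q).indicator (fun _ => (1 : ℝ≥0∞)) (τm Q g) *
          ENNReal.ofReal (Rm Q g))) * (1 / 2) ≤ {g | (Q, g) ∈ nice}.indicator
        (fun g => ENNReal.ofReal (mw 0 Q g)) g := by
        intro g
        have hmw' : ENNReal.ofReal (mw 0 Q g) =
            (ENNReal.ofReal (Rp Q g) + ENNReal.ofReal (Rm Q g)) * (1 / 2) := by
          rw [← ENNReal.ofReal_add (hRp0 _ _) (hRm0 _ _)]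
          simp only [hmw, zero_mul, neg_zero, Real.exp_zero, mul_one]
          rw [ENNReal.ofReal_div_of_pos (by norm_num), div_eq_mul_inv, one_div]
          norm_num
        by_cases hg : (Q, g) ∈ nice
        · rw [Set.indicator_of_mem (show g ∈ {g | (Q, g) ∈ nice} from hg), hmw']
          gcongr
          · refine le_trans (mul_le_mul_left (Set.indicator_le_self' (by simp) _) _) ?_
            simp
          · refine le_trans (mul_le_mul_left (Set.indicator_le_self' (by simp) _) _) ?_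
            simp
        · have a1 : τp Q g ∉ good Q := fun h => hg (hgp Q g h)
          have a2 : τm Q g ∉ good Q := fun h => hg (hgm Q g h)
          rw [Set.indicator_of_notMem a1, Set.indicator_of_notMem a2]
          simp
      have m1 : Measurable fun g => {g | (Q, g) ∈ nice}.indicator
          (fun g => ENNReal.ofReal (mw 0 Q g)) g :=
        (ENNReal.measurable_ofReal.comp ((hmwm 0).comp
          (measurable_const.prodMk measurable_id))).indicator hnQ
      calc (1 / 2 : ℝ≥0∞) ≤ γ (good Q) := hgP Q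
        _ = (γ (good Q) + γ (good Q)) * (1 / 2) := by
            rw [← two_mul, mul_comm (2 : ℝ≥0∞), mul_assoc]
            rw [one_div, ENNReal.mul_inv_cancel (by norm_num) (by norm_num), mul_one]
        _ = ((∫⁻ g, (good Q).indicator (fun _ => (1 : ℝ≥0∞)) (τp Q g) *
              ENNReal.ofReal (Rp Q g) ∂γ) + (∫⁻ g, (good Q).indicator (fun _ => (1 : ℝ≥0∞))
              (τm Q g) * ENNReal.ofReal (Rm Q g) ∂γ)) * (1 / 2) := by rw [← h1, ← h2]
        _ ≤ (∫⁻ g, (((good Q).indicator (fun _ => (1 : ℝ≥0∞)) (τp Q g) *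
              ENNReal.ofReal (Rp Q g)) + ((good Q).indicator (fun _ => (1 : ℝ≥0∞))
              (τm Q g) * ENNReal.ofReal (Rm Q g))) ∂γ) * (1 / 2) := by
            gcongr
            exact le_lintegral_add _ _
        _ = ∫⁻ g, (((good Q).indicator (fun _ => (1 : ℝ≥0∞)) (τp Q g) *
              ENNReal.ofReal (Rp Q g)) + ((good Q).indicator (fun _ => (1 : ℝ≥0∞))
              (τm Q g) * ENNReal.ofReal (Rm Q g))) * (1 / 2) ∂γ :=
            (lintegral_mul_const' _ _ (by norm_num)).symm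
        _ ≤ _ := lintegral_mono h3
    -- combine
    have t3 : ∫⁻ g, w Q g ∂γ + ENNReal.ofReal δ * ∫⁻ g, {g | (Q, g) ∈ nice}.indicator
        (fun g => ENNReal.ofReal (mw 0 Q g)) g ∂γ = 1 := by
      have h4 : Measurable fun g => w Q g := hwm.comp (measurable_const.prodMk measurable_id)
      rw [← t1, ← lintegral_const_mul' _ _ ENNReal.ofReal_ne_top,
        ← lintegral_add_left h4]
      refine lintegral_congr fun g => ?_
      by_cases hg : (Q, g) ∈ nice
      · rw [Set.indicator_of_mem (show g ∈ {g | (Q, g) ∈ nice} from hg)]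
        simp only [hw]
        rw [Set.indicator_of_mem hg, Pi.one_apply, mul_one, ← ENNReal.ofReal_mul hδ0,
          ← ENNReal.ofReal_add (mul_nonneg (by linarith) (hmw0 _ _ _))
            (mul_nonneg hδ0 (hmw0 _ _ _))]
        congr 1
        ring
      · rw [Set.indicator_of_notMem (show g ∉ {g | (Q, g) ∈ nice} from hg)]
        simp only [hw]
        rw [Set.indicator_of_notMem hg]
        simp
    have t4 : ∫⁻ g, w Q g ∂γ + ENNReal.ofReal (δ / 2) ≤ 1 := by
      rw [← t3]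
      gcongr
      calc ENNReal.ofReal (δ / 2) = ENNReal.ofReal δ * (1 / 2) := by
            rw [ENNReal.ofReal_div_of_pos (by norm_num), div_eq_mul_inv, one_div]
            norm_num
        _ ≤ _ := by gcongr
    rw [ENNReal.ofReal_sub _ (by linarith), ENNReal.ofReal_one]
    exact ENNReal.le_sub_of_add_le_right ENNReal.ofReal_ne_top t4
  refine le_trans (main n Q u) ?_
  gcongr
  exact cIter_le hwint (fun Q => hwm.comp (measurable_const.prodMk measurable_id)) n Q

end iter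

end Run7.h834
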