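import Pool.Agent.Run7.h834.Good3
import Pool.Agent.Run7.h834.Gap

/-! The gap estimate for the band matrix cocycle. -/

set_option autoImplicit false
open MeasureTheory Set ProbabilityTheory
open scoped ENNReal

namespace Run7.h834

variable {V : ℝ → ℝ} {K : ℝ} {w : ℕ}

theorem qi_shift_fst (hV : Measurable V) [IsProbabilityMeasure (lawV V)] (y : Arr w)
    {G : Arr w × Arr w → ℝ≥0∞} (hG : Measurable G) :
    ∫⁻ z, G z ∂((piA V w).prod (piA V w)) =
      ∫⁻ z, G (z.1 + y, z.2) * ENNReal.ofReal (ratV V z.1 (z.1 + y))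
        ∂((piA V w).prod (piA V w)) := by
  have m1 : Measurable fun z : Arr w × Arr w => z.1 + y := measurable_fst.add_const y
  have m2 : Measurable fun z : Arr w × Arr w =>
      G (z.1 + y, z.2) * ENNReal.ofReal (ratV V z.1 (z.1 + y)) :=
    (hG.comp (m1.prodMk measurable_snd)).mul
      (ENNReal.measurable_ofReal.comp (measurable_ratV hV measurable_fst m1))
  rw [lintegral_prod_symm _ hG.aemeasurable, lintegral_prod_symm _ m2.aemeasurable]
  refine lintegral_congr fun b => ?_
  exact lintegral_shift hV (hG.comp (measurable_id.prodMk measurable_const)) y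

theorem qi_homo_fst (hV : Measurable V) [IsProbabilityMeasure (lawV V)] (c : Arr w) {s : ℝ}
    (hs : 0 < s) {G : Arr w × Arr w → ℝ≥0∞} (hG : Measurable G) :
    ∫⁻ z, G z ∂((piA V w).prod (piA V w)) =
      ∫⁻ z, G (homo s c z.1, z.2) * ENNReal.ofReal
        (s ^ Fintype.card (Fin w × Fin w) * ratV V z.1 (homo s c z.1))
        ∂((piA V w).prod (piA V w)) := by
  have m1 : Measurable fun z : Arr w × Arr w => homo s c z.1 :=
    measurable_homo' s measurable_const measurable_fst
  have m2 : Measurable fun z : Arr w × Arr w =>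
      G (homo s c z.1, z.2) * ENNReal.ofReal
        (s ^ Fintype.card (Fin w × Fin w) * ratV V z.1 (homo s c z.1)) :=
    (hG.comp (m1.prodMk measurable_snd)).mul
      (ENNReal.measurable_ofReal.comp ((measurable_ratV hV measurable_fst m1).const_mul _))
  rw [lintegral_prod_symm _ hG.aemeasurable, lintegral_prod_symm _ m2.aemeasurable]
  refine lintegral_congr fun b => ?_
  exact lintegral_homo hV (hG.comp (measurable_id.prodMk measurable_const)) hs c

/-- quasi-invariance of the law of a group -/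
theorem qi_group (hV : Measurable V) [IsProbabilityMeasure (lawV V)] (e : ℝ) {s : ℝ}
    (hs : 0 < s) (Q : Arr w) {F : Grp w → ℝ≥0∞} (hF : Measurable F) :
    ∫⁻ g, F g ∂(gamG V w) =
      ∫⁻ g, F (tauG e s Q g) * ENNReal.ofReal (ratG V e s Q g) ∂(gamG V w) := by
  have mt : Measurable fun g : Grp w => tauG e s Q g :=
    (measurable_tauG e s).comp (measurable_const.prodMk measurable_id)
  have mr : Measurable fun g : Grp w => ratG V e s Q g :=
    (measurable_ratG hV e s).comp (measurable_const.prodMk measurable_id)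
  have mR : Measurable fun g : Grp w => F (tauG e s Q g) * ENNReal.ofReal (ratG V e s Q g) :=
    (hF.comp mt).mul (ENNReal.measurable_ofReal.comp mr)
  unfold gamG
  rw [lintegral_prod _ hF.aemeasurable, lintegral_prod _ mR.aemeasurable]
  refine lintegral_congr fun x => ?_
  have hFx : Measurable fun y : (Arr w × Arr w) × (Arr w × Arr w) => F (x, y) :=
    hF.comp (measurable_const.prodMk measurable_id)
  have hRx : Measurable fun y : (Arr w × Arr w) × (Arr w × Arr w) =>
      F (tauG e s Q (x, y)) * ENNReal.ofReal (ratG V e s Q (x, y)) :=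
    mR.comp (measurable_const.prodMk measurable_id)
  rw [lintegral_prod _ hFx.aemeasurable, lintegral_prod _ hRx.aemeasurable]
  set Q1 := nextQ e Q x.1 x.2 with hQ1
  rw [qi_homo_fst hV (eyeA e + Q1) hs (G := fun y => ∫⁻ z, F (x, (y, z))
    ∂((piA V w).prod (piA V w))) (Measurable.lintegral_prod_right' (f := fun q :
      (Arr w × Arr w) × (Arr w × Arr w) => F (x, q)) hFx)]
  refine lintegral_congr fun y => ?_
  set Y := nextQ e Q1 y.1 y.2 with hY
  have hF1 : Measurable fun z : Arr w × Arr w => F (x, ((homo s (eyeA e + Q1) y.1, y.2), z)) :=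
    hF.comp (measurable_const.prodMk (measurable_const.prodMk measurable_id))
  rw [qi_shift_fst hV ((s⁻¹ - 1) • Y) hF1, ← lintegral_mul_const']
  · refine lintegral_congr fun z => ?_
    have e1 : tauG e s Q (x, (y, z)) = (x, ((homo s (eyeA e + Q1) y.1, y.2),
        (z.1 + (s⁻¹ - 1) • Y, z.2))) := rfl
    have e2 : ratG V e s Q (x, (y, z)) =
        (s ^ Fintype.card (Fin w × Fin w) * ratV V y.1 (homo s (eyeA e + Q1) y.1)) *
          ratV V z.1 (z.1 + (s⁻¹ - 1) • Y) := rfl
    have e3 : 0 ≤ s ^ Fintype.card (Fin w × Fin w) * ratV V y.1 (homo s (eyeA e + Q1) y.1) := by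
      unfold ratV
      positivity
    rw [e1, e2, ENNReal.ofReal_mul e3]
    ring
  · exact ENNReal.ofReal_ne_top

/-- the observables -/
noncomputable def obs (r : ℝ) (y : Fin w) (_ : Arr w) (u : Fin w → ℝ) : ℝ≥0∞ :=
  ENNReal.ofReal (|u y| ^ r)

theorem measurable_obs (r : ℝ) (y : Fin w) :
    Measurable fun p : Arr w × (Fin w → ℝ) => obs r y p.1 p.2 := by
  unfold obs
  have : Measurable fun p : Arr w × (Fin w → ℝ) => p.2 y := by fun_prop
  exact ENNReal.measurable_ofReal.comp (this.norm.pow_const r)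

theorem gap_group (h : NiceV V K) (hw : 1 ≤ w) {C R ε e : ℝ} (hC : 1 ≤ C)
    (hCm : 12 * (1 + m2 V + M2 V) ≤ C ^ 2) (hwR : (w : ℝ) ≤ R) (heR : w * e ^ 2 ≤ R ^ 2)
    (hε0 : 0 ≤ ε) (hε : ε * R * (100 * K * C ^ 2) ≤ 1)
    (hT : ∀ Q : Arr w, ((piA V w).prod (piA V w)) {p | R ^ 2 < nsq (nextQ e Q p.1 p.2)} ≤
      ENNReal.ofReal (1 / 12)) {r : ℝ} (hr : 0 ≤ r) (y : Fin w) (n : ℕ) (Q : Arr w)
    (u : Fin w → ℝ) :
    iter (gamG V w) (zetaG e) (transG e) (obs r y) n Q u ≤
      iter (gamG V w) (zetaG e) (transG e) (obs (2 * r) y) n Q u ^ (1 / 2 : ℝ) *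
      (ENNReal.ofReal (1 - (1 - Real.exp (-(2 * (r * ε)))) ^ 2 / (2 * Real.exp 1 + 2) / 2) ^ n) ^
        (1 / 2 : ℝ) := by
  have := h.prob
  have hV := h.meas
  have hee : Real.exp ε * Real.exp (-(2 * ε)) = Real.exp (-ε) := by
    rw [← Real.exp_add]
    congr 1
    ring
  have hee' : Real.exp (-ε) * Real.exp (2 * ε) = Real.exp ε := by
    rw [← Real.exp_add]
    congr 1
    ring
  have comp : ∀ {a b t : ℝ}, 0 ≤ a → b = a * t → t ∈ Icc (Real.exp (-1)) (Real.exp 1) →
      a ≤ Real.exp 1 * b ∧ b ≤ Real.exp 1 * a := by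
    intro a b t ha hb ht
    rw [hb]
    have h1 : Real.exp 1 * Real.exp (-1) = 1 := by
      rw [← Real.exp_add]
      simp
    constructor
    · have h2 : 1 ≤ Real.exp 1 * t :=
        h1.symm.le.trans (mul_le_mul_of_nonneg_left ht.1 (Real.exp_pos _).le)
      calc a = a * 1 := (mul_one a).symm
        _ ≤ a * (Real.exp 1 * t) := mul_le_mul_of_nonneg_left h2 ha
        _ = _ := by ring
    · rw [mul_comm a t]
      exact mul_le_mul_of_nonneg_right ht.2 ha
  refine gap_iter (γ := gamG V w) (ζ := zetaG e) (T := transG e)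
    (τp := fun Q g => tauG e (Real.exp ε) Q g)
    (τm := fun Q g => tauG e (Real.exp (-ε)) Q g) (Rp := fun Q g => ratG V e (Real.exp ε) Q g)
    (Rm := fun Q g => ratG V e (Real.exp (-ε)) Q g) (r := r) (ε := ε) (E := Real.exp 1)
    hr hε0 (Real.one_le_exp zero_le_one) (measurable_zetaG e) (measurable_transG e)
    (fun Q g c u => transG_smul e Q g c u)
    (fun Q g => ratG_nonneg V e (Real.exp_pos _).le Q g)
    (fun Q g => ratG_nonneg V e (Real.exp_pos _).le Q g)
    (measurable_ratG hV e _) (measurable_ratG hV e _)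
    (fun Q F hF => qi_group hV e (Real.exp_pos _) Q hF)
    (fun Q F hF => qi_group hV e (Real.exp_pos _) Q hF)
    (fun Q g => zetaG_tauG e (Real.exp_ne_zero _) Q g)
    (fun Q g => zetaG_tauG e (Real.exp_ne_zero _) Q g) ?_ ?_
    (goodG V e ε) (measurableSet_goodG hV e ε)
    (fun Q => good_prob h hw hC hCm hwR heR hε0 hε hT Q) ?_ ?_
    (measurable_obs r y) (measurable_obs (2 * r) y) ?_ ?_ ?_ n Q u
  · intro Q g u
    rw [transG_tauG e (Real.exp_ne_zero _), Real.exp_neg]
  · intro Q g u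
    rw [transG_tauG e (Real.exp_ne_zero _), Real.exp_neg, inv_inv]
  · intro Q g hg
    have h2 := ratG_tauG V e (Real.exp_ne_zero ε) (Real.exp_ne_zero (-(2 * ε))) Q g
    rw [mul_comm (Real.exp (-(2 * ε))), hee] at h2
    exact comp (ratG_nonneg V e (Real.exp_pos _).le Q g) h2 hg.2
  · intro Q g hg
    have h2 := ratG_tauG V e (Real.exp_ne_zero (-ε)) (Real.exp_ne_zero (2 * ε)) Q g
    rw [mul_comm (Real.exp (2 * ε)), hee'] at h2
    exact (comp (ratG_nonneg V e (Real.exp_pos _).le Q g) h2 hg.1).symm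
  · intro Q u
    unfold obs
    rw [ENNReal.ofReal_rpow_of_nonneg (by positivity) (by norm_num), ← Real.rpow_mul (abs_nonneg _)]
    refine ENNReal.ofReal_le_ofReal (le_of_eq ?_)
    congr 1
    ring
  · intro Q u c hc
    unfold obs
    rw [Pi.smul_apply, smul_eq_mul, abs_mul, abs_of_pos hc, Real.mul_rpow hc.le (abs_nonneg _),
      ENNReal.ofReal_mul (by positivity)]
  · intro Q u c hc
    unfold obs
    rw [Pi.smul_apply, smul_eq_mul, abs_mul, abs_of_pos hc, Real.mul_rpow hc.le (abs_nonneg _),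
      ENNReal.ofReal_mul (by positivity)]

end Run7.h834
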