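import Pool.Agent.Run7.h834.Frac
import Pool.Agent.Run7.h834.GapInst

/-! Decay of the transfer product. -/

set_option autoImplicit false
open MeasureTheory Matrix
open scoped ENNReal

namespace Run7.h834

variable {w : ℕ}

/-- rows in `[a, b)` and columns below `c` -/
def rect (a b c : ℕ) : Set (ℕ × ℕ) := {p | a ≤ p.1 ∧ p.1 < b ∧ p.2 < c}

theorem rect_mono {a b c a' b' c' : ℕ} (ha : a' ≤ a) (hb : b ≤ b') (hc : c ≤ c') :
    rect a b c ⊆ rect a' b' c' := fun _ hp =>
  ⟨ha.trans hp.1, lt_of_lt_of_le hp.2.1 hb, lt_of_lt_of_le hp.2.2 hc⟩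

theorem depOn_arrA (w s : ℕ) : DepOn (rect s (s + w) (s + w)) (fun ω => arrA w ω s) := by
  intro ω ω' h
  funext p
  have h1 := p.1.2
  have h2 := p.2.2
  refine h _ ⟨?_, ?_, ?_⟩ <;> simp <;> omega

theorem depOn_arrB (w s : ℕ) : DepOn (rect s (s + w) (s + 2 * w)) (fun ω => arrB w ω s) := by
  intro ω ω' h
  funext p
  have h1 := p.1.2
  have h2 := p.2.2
  refine h _ ⟨?_, ?_, ?_⟩
  · simp
  · simp
  · simp only
    omega

theorem depOn_stQ (w : ℕ) (e : ℝ) (k : ℕ) : ∀ (Q : Arr w) (s : ℕ),
    DepOn (rect s (s + k * w) (s + (k + 1) * w)) (fun ω => stQ w ω e k Q s) := by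
  induction k with
  | zero =>
    intro Q s ω ω' _
    rfl
  | succ k ih =>
    intro Q s ω ω' h
    have e1 : (s + w) + k * w = s + (k + 1) * w := by ring
    have e2 : (s + w) + (k + 1) * w = s + (k + 1 + 1) * w := by ring
    have hA : arrA w ω s = arrA w ω' s := (depOn_arrA w s).mono
      (rect_mono le_rfl (by nlinarith) (by nlinarith)) ω ω' h
    have hB : arrB w ω s = arrB w ω' s := (depOn_arrB w s).mono
      (rect_mono le_rfl (by nlinarith) (by nlinarith)) ω ω' h
    simp only [stQ]
    rw [hA, hB]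
    refine ih _ (s + w) ω ω' fun p hp => h p ?_
    rw [e1, e2] at hp
    exact rect_mono (by omega) le_rfl le_rfl hp

theorem depOn_stP (w : ℕ) (e : ℝ) (k : ℕ) : ∀ (Q : Arr w) (s : ℕ),
    DepOn (rect s (s + k * w) (s + (k + 1) * w)) (fun ω => stP w ω e k Q s) := by
  induction k with
  | zero =>
    intro Q s ω ω' _
    rfl
  | succ k ih =>
    intro Q s ω ω' h
    have e1 : (s + w) + k * w = s + (k + 1) * w := by ring
    have e2 : (s + w) + (k + 1) * w = s + (k + 1 + 1) * w := by ring
    have hA : arrA w ω s = arrA w ω' s := (depOn_arrA w s).mono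
      (rect_mono le_rfl (by nlinarith) (by nlinarith)) ω ω' h
    have hB : arrB w ω s = arrB w ω' s := (depOn_arrB w s).mono
      (rect_mono le_rfl (by nlinarith) (by nlinarith)) ω ω' h
    simp only [stP]
    rw [hA, hB]
    congr 1
    refine ih _ (s + w) ω ω' fun p hp => h p ?_
    rw [e1, e2] at hp
    exact rect_mono (by omega) le_rfl le_rfl hp

theorem depOn_stR (w : ℕ) (e : ℝ) (k : ℕ) : ∀ (Q : Arr w) (s : ℕ),
    DepOn (rect s (s + k * w) (s + (k + 1) * w)) (fun ω => stR w ω e k Q s) := by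
  induction k with
  | zero =>
    intro Q s ω ω' _
    rfl
  | succ k ih =>
    intro Q s ω ω' h
    have e1 : (s + w) + k * w = s + (k + 1) * w := by ring
    have e2 : (s + w) + (k + 1) * w = s + (k + 1 + 1) * w := by ring
    have hA : arrA w ω s = arrA w ω' s := (depOn_arrA w s).mono
      (rect_mono le_rfl (by nlinarith) (by nlinarith)) ω ω' h
    have hB : arrB w ω s = arrB w ω' s := (depOn_arrB w s).mono
      (rect_mono le_rfl (by nlinarith) (by nlinarith)) ω ω' h
    simp only [stR]
    rw [hA, hB]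
    congr 1
    refine ih _ (s + w) ω ω' fun p hp => h p ?_
    rw [e1, e2] at hp
    exact rect_mono (by omega) le_rfl le_rfl hp

theorem depOn_stG (w : ℕ) (e : ℝ) (k : ℕ) : ∀ (Q : Arr w) (s : ℕ),
    DepOn (rect s (s + (k + 1) * w) (s + (k + 1) * w)) (fun ω => stG w ω e k Q s) := by
  induction k with
  | zero =>
    intro Q s ω ω' h
    have hA : arrA w ω s = arrA w ω' s := (depOn_arrA w s).mono
      (rect_mono le_rfl (by nlinarith) (by nlinarith)) ω ω' h
    simp only [stG]
    rw [hA]
  | succ k ih =>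
    intro Q s ω ω' h
    have e1 : (s + w) + (k + 1) * w = s + (k + 1 + 1) * w := by ring
    have hA : arrA w ω s = arrA w ω' s := (depOn_arrA w s).mono
      (rect_mono le_rfl (by nlinarith) (by nlinarith)) ω ω' h
    have hB : arrB w ω s = arrB w ω' s := (depOn_arrB w s).mono
      (rect_mono le_rfl (by nlinarith) (by nlinarith)) ω ω' h
    simp only [stG]
    rw [hA, hB]
    congr 1
    refine ih _ (s + w) ω ω' fun p hp => h p ?_
    rw [e1] at hp
    exact rect_mono (by omega) le_rfl le_rfl hp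

theorem measurable_arrA' {α : Type*} [MeasurableSpace α] (w s : ℕ) {ω : α → Om}
    (hω : Measurable ω) : Measurable fun x => arrA w (ω x) s :=
  measurable_pi_iff.2 fun _ => (measurable_pi_apply _).comp hω

theorem measurable_arrB' {α : Type*} [MeasurableSpace α] (w s : ℕ) {ω : α → Om}
    (hω : Measurable ω) : Measurable fun x => arrB w (ω x) s :=
  measurable_pi_iff.2 fun _ => (measurable_pi_apply _).comp hω

theorem measurable_stQ {α : Type*} [MeasurableSpace α] (w : ℕ) (e : ℝ) {ω : α → Om}
    (hω : Measurable ω) (k : ℕ) : ∀ (s : ℕ) {Q : α → Arr w} (_ : Measurable Q),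
    Measurable fun x => stQ w (ω x) e k (Q x) s := by
  induction k with
  | zero =>
    intro s Q hQ
    exact hQ
  | succ k ih =>
    intro s Q hQ
    simp only [stQ]
    exact ih (s + w) (measurable_nextQ e hQ (measurable_arrA' w s hω) (measurable_arrB' w s hω))

theorem measurable_stP {α : Type*} [MeasurableSpace α] (w : ℕ) (e : ℝ) {ω : α → Om}
    (hω : Measurable ω) (k : ℕ) : ∀ (s : ℕ) {Q : α → Arr w} (_ : Measurable Q) (i j : Fin w),
    Measurable fun x => stP w (ω x) e k (Q x) s i j := by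
  induction k with
  | zero =>
    intro s Q hQ i j
    exact measurable_const
  | succ k ih =>
    intro s Q hQ i j
    simp only [stP]
    have hA := measurable_arrA' w s hω
    have hB := measurable_arrB' w s hω
    refine measurable_mat_mul (measurable_mat_mul ?_ (measurable_lowM hB)) ?_ i j
    · exact fun i j => measurable_inv_entry (measurable_SM e hQ hA) i j
    · exact ih (s + w) (measurable_nextQ e hQ hA hB)

theorem measurable_stG {α : Type*} [MeasurableSpace α] (w : ℕ) (e : ℝ) {ω : α → Om}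
    (hω : Measurable ω) (k : ℕ) : ∀ (s : ℕ) {Q : α → Arr w} (_ : Measurable Q) (i j : Fin w),
    Measurable fun x => stG w (ω x) e k (Q x) s i j := by
  induction k with
  | zero =>
    intro s Q hQ i j
    exact measurable_inv_entry (measurable_SM e hQ (measurable_arrA' w s hω)) i j
  | succ k ih =>
    intro s Q hQ i j
    simp only [stG]
    have hA := measurable_arrA' w s hω
    have hB := measurable_arrB' w s hω
    refine measurable_mat_mul (measurable_mat_mul ?_ (measurable_lowM hB)) ?_ i j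
    · exact fun i j => measurable_inv_entry (measurable_SM e hQ hA) i j
    · exact ih (s + w) (measurable_nextQ e hQ hA hB)

theorem measurableSet_isUnit {α ι : Type*} [MeasurableSpace α] [Fintype ι] [DecidableEq ι]
    {M : α → Matrix ι ι ℝ} (hM : ∀ i j, Measurable fun x => M x i j) :
    MeasurableSet {x | IsUnit (M x)} := by
  have h1 : Continuous fun M : ι → ι → ℝ => (Matrix.of M).det :=
    Continuous.matrix_det continuous_id
  have hAm : Measurable fun x => (fun i j => M x i j : ι → ι → ℝ) :=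
    measurable_pi_iff.2 fun i => measurable_pi_iff.2 fun j => hM i j
  have h2 : {x | IsUnit (M x)} = {x | (M x).det ≠ 0} := by
    ext x
    simp only [Set.mem_ofPred_eq]
    rw [Matrix.isUnit_iff_isUnit_det, isUnit_iff_ne_zero]
  rw [h2]
  exact (h1.measurable.comp hAm) (measurableSet_singleton 0).compl

theorem measurableSet_stR {α : Type*} [MeasurableSpace α] (w : ℕ) (e : ℝ) {ω : α → Om}
    (hω : Measurable ω) (k : ℕ) : ∀ (s : ℕ) {Q : α → Arr w} (_ : Measurable Q),
    MeasurableSet {x | stR w (ω x) e k (Q x) s} := by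
  induction k with
  | zero =>
    intro s Q hQ
    simp only [stR]
    exact MeasurableSet.univ
  | succ k ih =>
    intro s Q hQ
    simp only [stR]
    have hA := measurable_arrA' w s hω
    have hB := measurable_arrB' w s hω
    exact (measurableSet_isUnit (measurable_SM e hQ hA)).inter
      (ih (s + w) (measurable_nextQ e hQ hA hB))

theorem kM_add (w : ℕ) (ω : Om) (e t : ℝ) (Q : Arr w) (s n : ℕ) :
    kM w ω (e + t) Q s n = kM w ω e Q s n - t • (1 : Matrix (Fin n) (Fin n) ℝ) := by
  ext i j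
  simp only [kM, Matrix.of_apply, Matrix.sub_apply, Matrix.smul_apply, Matrix.one_apply,
    smul_eq_mul]
  split_ifs <;> ring

theorem nInt_kM (w : ℕ) (ω : Om) (e t : ℝ) (Q : Arr w) (s n : ℕ) :
    nInt (kM w ω e Q s n) t =
      negIdx (kM w ω (e + t) Q s n) - negIdx (kM w ω (e + -t) Q s n) := by
  unfold nInt
  rw [kM_add, kM_add]

theorem wegner_nInt {μ : Measure ℝ} [IsProbabilityMeasure μ] {D : ℝ} (hμ : BddDens μ D)
    (w : ℕ) (e : ℝ) (Q : Arr w) (s n : ℕ) {t : ℝ} (ht : 0 ≤ t) :
    ∫⁻ ω, (nInt (kM w ω e Q s n) t : ℝ≥0∞) ∂(Pm μ) ≤ n * ENNReal.ofReal (4 * D * t) := by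
  have h := wegner_kM hμ w (e + -t) Q s n (t := 2 * t) (by linarith)
  have e1 : e + -t + 2 * t = e + t := by ring
  have e2 : 2 * D * (2 * t) = 4 * D * t := by ring
  rw [e1, e2] at h
  simp_rw [nInt_kM]
  exact h

theorem kM_self (w : ℕ) (ω : Om) (e : ℝ) (Q : Arr w) (s : ℕ) :
    kM w ω e Q s w = SM e Q (arrA w ω s) := by
  ext i j
  rw [SM_eq, Matrix.sub_apply, Matrix.sub_apply, symM_arrA]
  simp only [kM, Matrix.of_apply, Matrix.smul_apply, Matrix.one_apply, smul_eq_mul, qE]
  rw [dif_pos ⟨i.2, j.2⟩]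
  split_ifs <;> simp

theorem not_isUnit_null {μ : Measure ℝ} [IsProbabilityMeasure μ] {D : ℝ} (hμ : BddDens μ D)
    (w : ℕ) (e : ℝ) (Q : Arr w) (s n : ℕ) :
    Pm μ {ω | ¬ IsUnit (kM w ω e Q s n)} = 0 := by
  have h1 : ∀ t : ℝ, 0 < t → Pm μ {ω | ¬ IsUnit (kM w ω e Q s n)} ≤
      n * ENNReal.ofReal (4 * D * t) := by
    intro t ht
    refine le_trans ?_ (wegner_nInt hμ w e Q s n ht.le)
    have hm : Measurable fun ω : Om => (nInt (kM w ω e Q s n) t : ℝ≥0∞) :=
      measurable_from_top.comp (measurable_nInt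
        (measurable_kM w measurable_id measurable_const measurable_const s n) t)
    have h2 := mul_meas_ge_le_lintegral (μ := Pm μ) hm 1
    rw [one_mul] at h2
    refine le_trans (measure_mono ?_) h2
    intro ω hω
    simp only [Set.mem_ofPred_eq] at hω ⊢
    by_contra hcon
    push Not at hcon
    apply hω
    refine isUnit_of_nInt (kM_isHermitian w ω e Q s n) ht ?_
    have : nInt (kM w ω e Q s n) t < 1 := by exact_mod_cast hcon
    omega
  have h2 : Filter.Tendsto (fun t : ℝ => (n : ℝ≥0∞) * ENNReal.ofReal (4 * D * t))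
      (nhdsWithin 0 (Set.Ioi 0)) (nhds 0) := by
    have h3 : Filter.Tendsto (fun t : ℝ => ENNReal.ofReal (4 * D * t))
        (nhdsWithin 0 (Set.Ioi 0)) (nhds 0) := by
      have : Continuous fun t : ℝ => ENNReal.ofReal (4 * D * t) :=
        ENNReal.continuous_ofReal.comp (by fun_prop)
      have h4 := (this.tendsto 0).mono_left (nhdsWithin_le_nhds (s := Set.Ioi (0 : ℝ)))
      simpa using h4
    have := ENNReal.Tendsto.const_mul (a := (n : ℝ≥0∞)) h3 (Or.inr (ENNReal.natCast_ne_top n))
    simpa using this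
  refine le_antisymm (ge_of_tendsto h2 ?_) zero_le
  filter_upwards [self_mem_nhdsWithin] with t ht
  exact h1 t ht

theorem compl_rows {s : ℕ} {b c : ℕ} : rect s b c ⊆ ({p : ℕ × ℕ | p.1 < s})ᶜ := by
  intro p hp
  simp only [Set.mem_compl_iff, Set.mem_ofPred_eq, not_lt]
  exact hp.1

theorem rows_sub {a b c : ℕ} : rect a b c ⊆ {p : ℕ × ℕ | p.1 < b} := fun _ hp => hp.2.1

theorem stR_null {μ : Measure ℝ} [IsProbabilityMeasure μ] {D : ℝ} (hμ : BddDens μ D)
    (w : ℕ) (e : ℝ) (k : ℕ) : ∀ (Q : Arr w) (s : ℕ), Pm μ {ω | ¬ stR w ω e k Q s} = 0 := by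
  induction k with
  | zero =>
    intro Q s
    simp [stR]
  | succ k ih =>
    intro Q s
    have h1 : {ω | ¬ stR w ω e (k + 1) Q s} ⊆ {ω | ¬ IsUnit (kM w ω e Q s w)} ∪
        {ω | ¬ stR w ω e k (nextQ e Q (arrA w ω s) (arrB w ω s)) (s + w)} := by
      intro ω hω
      simp only [Set.mem_ofPred_eq, stR, not_and_or] at hω
      rcases hω with h | h
      · left
        simp only [Set.mem_ofPred_eq]
        rwa [kM_self]
      · right
        exact h
    refine measure_mono_null h1 (measure_union_null (not_isUnit_null hμ w e Q s w) ?_)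
    have hT : MeasurableSet {p : Arr w × Om | stR w p.2 e k p.1 (s + w)} :=
      measurableSet_stR w e measurable_snd k (s + w) measurable_fst
    have hX : Measurable fun ω : Om => nextQ e Q (arrA w ω s) (arrB w ω s) :=
      measurable_nextQ e measurable_const (measurable_arrA' w s measurable_id)
        (measurable_arrB' w s measurable_id)
    have h2 := lintegral_indep μ {p : ℕ × ℕ | p.1 < s + w}
      (X := fun ω => nextQ e Q (arrA w ω s) (arrB w ω s))
      (Y := fun x ω => ({p : Arr w × Om | stR w p.2 e k p.1 (s + w)}ᶜ).indicator 1 (x, ω))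
      hX (measurable_one.indicator hT.compl) ?_ ?_
    · have hms : MeasurableSet {ω | ¬ stR w ω e k (nextQ e Q (arrA w ω s) (arrB w ω s)) (s + w)} :=
        (measurableSet_stR w e measurable_id k (s + w) hX).compl
      rw [← lintegral_indicator_one hms]
      have e1 : ∀ ω : Om, ({ω | ¬ stR w ω e k (nextQ e Q (arrA w ω s) (arrB w ω s)) (s + w)}
          : Set Om).indicator (1 : Om → ℝ≥0∞) ω =
          ({p : Arr w × Om | stR w p.2 e k p.1 (s + w)}ᶜ).indicator 1
            (nextQ e Q (arrA w ω s) (arrB w ω s), ω) := fun ω => rfl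
      simp_rw [e1]
      rw [h2]
      refine (lintegral_congr fun ω => ?_).trans lintegral_zero
      have hms2 : MeasurableSet {ω' | ¬ stR w ω' e k
          (nextQ e Q (arrA w ω s) (arrB w ω s)) (s + w)} :=
        (measurableSet_stR w e measurable_id k (s + w) measurable_const).compl
      have := ih (nextQ e Q (arrA w ω s) (arrB w ω s)) (s + w)
      rw [← lintegral_indicator_one hms2] at this
      exact this
    · have := (depOn_stQ w e 1 Q s).mono (T := {p : ℕ × ℕ | p.1 < s + w}) (by
        rw [Nat.one_mul]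
        exact rows_sub)
      exact this
    · intro x
      have := (depOn_stR w e k x (s + w)).mono
        (T := ({p : ℕ × ℕ | p.1 < s + w})ᶜ) compl_rows
      intro ω ω' hω
      have h3 : stR w ω e k x (s + w) = stR w ω' e k x (s + w) := this ω ω' hω
      show ({p : Arr w × Om | stR w p.2 e k p.1 (s + w)}ᶜ).indicator (1 : Arr w × Om → ℝ≥0∞) (x, ω) =
        ({p : Arr w × Om | stR w p.2 e k p.1 (s + w)}ᶜ).indicator 1 (x, ω')
      by_cases h4 : stR w ω e k x (s + w)
      · have h5 : stR w ω' e k x (s + w) := h3 ▸ h4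
        have g4 : (x, ω) ∉ ({p : Arr w × Om | stR w p.2 e k p.1 (s + w)}ᶜ) := fun h => h h4
        have g5 : (x, ω') ∉ ({p : Arr w × Om | stR w p.2 e k p.1 (s + w)}ᶜ) := fun h => h h5
        rw [Set.indicator_of_notMem g4, Set.indicator_of_notMem g5]
      · have h5 : ¬ stR w ω' e k x (s + w) := h3 ▸ h4
        have g4 : (x, ω) ∈ ({p : Arr w × Om | stR w p.2 e k p.1 (s + w)}ᶜ) := h4
        have g5 : (x, ω') ∈ ({p : Arr w × Om | stR w p.2 e k p.1 (s + w)}ᶜ) := h5
        rw [Set.indicator_of_mem g4, Set.indicator_of_mem g5]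
        rfl

end Run7.h834
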