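import Pool.Agent.Run7.h834.LawV
import Mathlib.Probability.Distributions.Gaussian.Real

/-! The Gaussian law belongs to the class `NiceV`. -/

set_option autoImplicit false
open MeasureTheory Set ProbabilityTheory
open scoped ENNReal NNReal

namespace Run7.h834

/-- the potential of the standard Gaussian law -/
noncomputable def gaussV (x : ℝ) : ℝ := x ^ 2 / 2 + Real.log (Real.sqrt (2 * Real.pi))

theorem lawV_gaussV : lawV gaussV = gaussianReal 0 1 := by
  rw [gaussianReal_of_var_ne_zero _ one_ne_zero]
  unfold lawV
  congr 1
  funext x
  rw [gaussianPDF]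
  congr 1
  rw [gaussianPDFReal]
  unfold gaussV
  have h1 : 0 < Real.sqrt (2 * Real.pi) := Real.sqrt_pos.2 (by positivity)
  rw [neg_add, Real.exp_add, Real.exp_neg (Real.log _), Real.exp_log h1]
  simp only [NNReal.coe_one, mul_one, sub_zero]
  rw [mul_comm]
  congr 2
  ring

theorem niceV_gaussV : NiceV gaussV 1 where
  one_le := le_refl 1
  diff := by
    unfold gaussV
    fun_prop
  lip := by
    have h : ∀ x : ℝ, deriv gaussV x = x := by
      intro x
      have h1 : HasDerivAt gaussV (2 * x / 2) x := by
        have h2 : HasDerivAt (fun x : ℝ => x ^ 2 / 2 + Real.log (Real.sqrt (2 * Real.pi))) _ x :=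
          ((hasDerivAt_pow 2 x).div_const 2).add_const _
        refine h2.congr_deriv ?_
        push_cast
        ring
      rw [h1.deriv]
      ring
    intro x y
    rw [h, h, one_mul]
  prob := by
    rw [lawV_gaussV]
    infer_instance
  mean := by
    rw [lawV_gaussV]
    exact integral_id_gaussianReal
  var := by
    rw [lawV_gaussV]
    have h1 := variance_id_gaussianReal (μ := 0) (v := 1)
    rw [variance_eq_integral measurable_id.aemeasurable] at h1
    simp only [id_eq, integral_id_gaussianReal, sub_zero, NNReal.coe_one] at h1
    exact h1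
  moments := by
    intro k
    rw [lawV_gaussV]
    have h1 : MemLp id (k : ℝ≥0∞) (gaussianReal 0 1) := by
      have := memLp_id_gaussianReal (μ := 0) (v := 1) (k : ℝ≥0)
      simpa using this
    have h2 := h1.integrable_norm_pow'
    simpa using h2

end Run7.h834
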