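import Pool.Agent.Run7.h834.Good

/-! The scaling of a group has a bounded density with probability at least one half. -/

set_option autoImplicit false
open MeasureTheory Set ProbabilityTheory
open scoped ENNReal

namespace Run7.h834

variable {V : ℝ → ℝ} {K : ℝ}

theorem ratV_taylor (h : NiceV V K) {ι : Type*} [Fintype ι] (a d : ι → ℝ) :
    |∑ i, (V (a i) - V (a i + d i)) + ∑ i, deriv V (a i) * d i| ≤ K / 2 * nsq d := by
  rw [← Finset.sum_add_distrib]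
  refine (Finset.abs_sum_le_sum_abs _ _).trans ?_
  unfold nsq
  rw [Finset.mul_sum]
  refine Finset.sum_le_sum fun i _ => ?_
  have := h.taylor (a i) (d i)
  have e : V (a i) - V (a i + d i) + deriv V (a i) * d i =
      -(V (a i + d i) - V (a i) - deriv V (a i) * d i) := by ring
  rw [e, abs_neg]
  linarith

theorem exp_sub_one_bound {x : ℝ} (hx : |x| ≤ 1) : |Real.exp x - 1| ≤ 2 * |x| ∧
    |x - (Real.exp x - 1)| ≤ x ^ 2 := by
  have h2 := Real.abs_exp_sub_one_sub_id_le hx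
  have h1 := Real.abs_exp_sub_one_le hx
  refine ⟨h1, ?_⟩
  rw [abs_sub_comm]
  exact h2

theorem nsq_smul {ι : Type*} [Fintype ι] (c : ℝ) (a : ι → ℝ) : nsq (c • a) = c ^ 2 * nsq a := by
  unfold nsq
  rw [Finset.mul_sum]
  exact Finset.sum_congr rfl fun i _ => by
    rw [Pi.smul_apply, smul_eq_mul, mul_pow]

theorem nsq_add_le {ι : Type*} [Fintype ι] (a b : ι → ℝ) : nsq (a + b) ≤ 2 * nsq a + 2 * nsq b := by
  unfold nsq
  rw [Finset.mul_sum, Finset.mul_sum, ← Finset.sum_add_distrib]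
  refine Finset.sum_le_sum fun i _ => ?_
  rw [Pi.add_apply]
  nlinarith [sq_nonneg (a i - b i)]

theorem nsq_sub_le {ι : Type*} [Fintype ι] (a b : ι → ℝ) : nsq (a - b) ≤ 2 * nsq a + 2 * nsq b := by
  unfold nsq
  rw [Finset.mul_sum, Finset.mul_sum, ← Finset.sum_add_distrib]
  refine Finset.sum_le_sum fun i _ => ?_
  rw [Pi.sub_apply]
  nlinarith [sq_nonneg (a i + b i)]

/-- deterministic estimate of the logarithm of the density -/
theorem log_bound (h : NiceV V K) {ι : Type*} [Fintype ι] {C R w ε x : ℝ} (hC : 1 ≤ C)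
    (hR : 1 ≤ R) (hw : 0 ≤ w) (hwR : w ≤ R) (hn : (Fintype.card ι : ℝ) = w ^ 2)
    (hε0 : 0 ≤ ε) (hε : ε * R * (100 * K * C ^ 2) ≤ 1) (hx : |x| ≤ 2 * ε)
    {a c a2 Y : ι → ℝ} (hc : nsq c ≤ 4 * R ^ 2)
    (h1 : (∑ i, (deriv V (a i) * a i - 1)) ^ 2 ≤ C ^ 2 * w ^ 2)
    (h2 : (∑ i, c i * deriv V (a i)) ^ 2 ≤ C ^ 2 * (nsq c + 1))
    (h3 : nsq a ≤ C ^ 2 * w ^ 2)
    (h5 : nsq Y ≤ R ^ 2)
    (h6 : (∑ i, Y i * deriv V (a2 i)) ^ 2 ≤ C ^ 2 * (nsq Y + 1)) :
    |(Fintype.card ι : ℝ) * x + ∑ i, (V (a i) - V (homo (Real.exp x) c a i)) +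
      ∑ i, (V (a2 i) - V ((a2 + ((Real.exp x)⁻¹ - 1) • Y) i))| ≤ 1 := by
  have hK := h.one_le
  have hKC : 1 ≤ K * C ^ 2 := one_le_mul_of_one_le_of_one_le hK (one_le_pow₀ hC)
  have hεR00 : 0 ≤ ε * R := mul_nonneg hε0 (by linarith)
  have hg0 : (K * C ^ 2) * (ε * R) ≤ 1 / 100 := by linarith
  have hεR : ε * R ≤ 1 / 100 := le_trans (le_mul_of_one_le_left hεR00 hKC) hg0
  have hε1 : ε ≤ 1 / 100 := le_trans (le_mul_of_one_le_right hε0 hR) hεR
  have hx1 : |x| ≤ 1 := by linarith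
  obtain ⟨b1, b2⟩ := exp_sub_one_bound hx1
  have hx1' : |-x| ≤ 1 := by rwa [abs_neg]
  obtain ⟨b3, -⟩ := exp_sub_one_bound hx1'
  rw [Real.exp_neg, abs_neg] at b3
  set s := Real.exp x with hs
  -- the two displacements
  set d : ι → ℝ := (s - 1) • (a - c) with hd
  have hhomo : ∀ i, homo s c a i = a i + d i := by
    intro i
    simp only [homo, hd, Pi.add_apply, Pi.smul_apply, Pi.sub_apply, smul_eq_mul]
    ring
  have t1 := ratV_taylor h a d
  have t2 := ratV_taylor h a2 ((s⁻¹ - 1) • Y)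
  have e1 : ∑ i, (V (a i) - V (homo s c a i)) = ∑ i, (V (a i) - V (a i + d i)) :=
    Finset.sum_congr rfl fun i _ => by rw [hhomo]
  have e2 : ∑ i, (V (a2 i) - V ((a2 + (s⁻¹ - 1) • Y) i)) =
      ∑ i, (V (a2 i) - V (a2 i + ((s⁻¹ - 1) • Y) i)) := rfl
  rw [e1, e2]
  have e3 : ∑ i, deriv V (a i) * d i =
      (s - 1) * (∑ i, (deriv V (a i) * a i - 1)) + (s - 1) * (Fintype.card ι : ℝ) -
        (s - 1) * ∑ i, c i * deriv V (a i) := by
    rw [Finset.sum_sub_distrib, Finset.sum_const, Finset.card_univ, nsmul_eq_mul, mul_one,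
      mul_sub, Finset.mul_sum, Finset.mul_sum]
    rw [sub_add_cancel, ← Finset.sum_sub_distrib]
    refine Finset.sum_congr rfl fun i _ => ?_
    simp only [hd, Pi.smul_apply, Pi.sub_apply, smul_eq_mul]
    ring
  have e4 : ∑ i, deriv V (a2 i) * ((s⁻¹ - 1) • Y) i = (s⁻¹ - 1) * ∑ i, Y i * deriv V (a2 i) := by
    rw [Finset.mul_sum]
    refine Finset.sum_congr rfl fun i _ => ?_
    simp only [Pi.smul_apply, smul_eq_mul]
    ring
  rw [e3] at t1
  rw [e4] at t2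
  set X1 := ∑ i, (deriv V (a i) * a i - 1) with hX1
  set X2 := ∑ i, c i * deriv V (a i) with hX2
  set X3 := ∑ i, Y i * deriv V (a2 i) with hX3
  set A1 := ∑ i, (V (a i) - V (a i + d i)) with hA1
  set A2 := ∑ i, (V (a2 i) - V (a2 i + ((s⁻¹ - 1) • Y) i)) with hA2
  have hC0 : 0 ≤ C := by linarith
  have hR0 : 0 ≤ R := by linarith
  have hR2 : 1 ≤ R ^ 2 := one_le_pow₀ hR
  have y1 : |X1| ≤ C * R := by
    have : |X1| ≤ C * w := by
      refine abs_le_of_sq_le_sq ?_ (by positivity)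
      rw [mul_pow]
      exact h1
    exact this.trans (mul_le_mul_of_nonneg_left hwR hC0)
  have y2 : |X2| ≤ C * (3 * R) := by
    refine abs_le_of_sq_le_sq ?_ (by positivity)
    rw [mul_pow]
    refine h2.trans (mul_le_mul_of_nonneg_left ?_ (sq_nonneg C))
    linarith
  have y3 : |X3| ≤ C * (2 * R) := by
    refine abs_le_of_sq_le_sq ?_ (by positivity)
    rw [mul_pow]
    refine h6.trans (mul_le_mul_of_nonneg_left ?_ (sq_nonneg C))
    linarith
  have s1 : |s - 1| ≤ 4 * ε := by linarith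
  have s2 : |s⁻¹ - 1| ≤ 4 * ε := by linarith
  have sq1 : (s - 1) ^ 2 ≤ 16 * ε ^ 2 := by
    have := sq_le_sq' (by linarith [abs_nonneg (s - 1)]) s1
    rw [sq_abs] at this
    linarith
  have sq2 : (s⁻¹ - 1) ^ 2 ≤ 16 * ε ^ 2 := by
    have := sq_le_sq' (by linarith [abs_nonneg (s⁻¹ - 1)]) s2
    rw [sq_abs] at this
    linarith
  have hC2 : 1 ≤ C ^ 2 := one_le_pow₀ hC
  have hwR2 : w ^ 2 ≤ R ^ 2 := pow_le_pow_left₀ hw hwR 2
  have z1 : K / 2 * nsq d ≤ 80 * (K * C ^ 2) * (ε * R) ^ 2 := by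
    rw [hd, nsq_smul]
    have q1 := nsq_sub_le a c
    have q2 : nsq (a - c) ≤ 10 * C ^ 2 * R ^ 2 := by
      have : C ^ 2 * w ^ 2 ≤ C ^ 2 * R ^ 2 := mul_le_mul_of_nonneg_left hwR2 (sq_nonneg C)
      have : R ^ 2 ≤ C ^ 2 * R ^ 2 := le_mul_of_one_le_left (by positivity) hC2
      linarith
    calc K / 2 * ((s - 1) ^ 2 * nsq (a - c)) ≤ K / 2 * ((16 * ε ^ 2) * (10 * C ^ 2 * R ^ 2)) :=
          mul_le_mul_of_nonneg_left (mul_le_mul sq1 q2 (nsq_nonneg _) (by positivity))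
            (by linarith)
      _ = _ := by ring
  have z2 : K / 2 * nsq ((s⁻¹ - 1) • Y) ≤ 8 * (K * C ^ 2) * (ε * R) ^ 2 := by
    rw [nsq_smul]
    calc K / 2 * ((s⁻¹ - 1) ^ 2 * nsq Y) ≤ K / 2 * ((16 * ε ^ 2) * R ^ 2) :=
          mul_le_mul_of_nonneg_left (mul_le_mul sq2 h5 (nsq_nonneg _) (by positivity))
            (by linarith)
      _ = 8 * K * (ε * R) ^ 2 := by ring
      _ ≤ 8 * (K * C ^ 2) * (ε * R) ^ 2 := by
          refine mul_le_mul_of_nonneg_right ?_ (sq_nonneg _)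
          have : K ≤ K * C ^ 2 := le_mul_of_one_le_right (by linarith) hC2
          linarith
  have z3 : |(Fintype.card ι : ℝ) * (x - (s - 1))| ≤ 4 * (ε * R) ^ 2 := by
    rw [abs_mul, hn, abs_of_nonneg (sq_nonneg w)]
    have : x ^ 2 ≤ 4 * ε ^ 2 := by
      have := sq_le_sq' (by linarith [abs_nonneg x]) hx
      rw [sq_abs] at this
      linarith
    calc w ^ 2 * |x - (s - 1)| ≤ R ^ 2 * (4 * ε ^ 2) :=
          mul_le_mul hwR2 (b2.trans this) (abs_nonneg _) (by positivity)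
      _ = _ := by ring
  have z4 : |(s - 1) * X1| ≤ 4 * C * (ε * R) := by
    rw [abs_mul]
    calc |s - 1| * |X1| ≤ (4 * ε) * (C * R) := mul_le_mul s1 y1 (abs_nonneg _) (by positivity)
      _ = _ := by ring
  have z5 : |(s - 1) * X2| ≤ 12 * C * (ε * R) := by
    rw [abs_mul]
    calc |s - 1| * |X2| ≤ (4 * ε) * (C * (3 * R)) :=
          mul_le_mul s1 y2 (abs_nonneg _) (by positivity)
      _ = _ := by ring
  have z6 : |(s⁻¹ - 1) * X3| ≤ 8 * C * (ε * R) := by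
    rw [abs_mul]
    calc |s⁻¹ - 1| * |X3| ≤ (4 * ε) * (C * (2 * R)) :=
          mul_le_mul s2 y3 (abs_nonneg _) (by positivity)
      _ = _ := by ring
  have hεR0 : 0 ≤ ε * R := mul_nonneg hε0 hR0
  have hCK : C ≤ K * C ^ 2 := by
    have : C ≤ C ^ 2 := le_self_pow₀ hC two_ne_zero
    exact this.trans (le_mul_of_one_le_left (by positivity) hK)
  have f1 : C * (ε * R) ≤ 1 / 100 :=
    (mul_le_mul_of_nonneg_right hCK hεR0).trans hg0
  have f2 : (K * C ^ 2) * (ε * R) ^ 2 ≤ 1 / 10000 := by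
    have g1 : (K * C ^ 2) * (ε * R) ≤ 1 / 100 := hg0
    calc (K * C ^ 2) * (ε * R) ^ 2 = ((K * C ^ 2) * (ε * R)) * (ε * R) := by ring
      _ ≤ (1 / 100) * (1 / 100) := mul_le_mul g1 hεR hεR0 (by norm_num)
      _ = _ := by norm_num
  have f3 : (ε * R) ^ 2 ≤ 1 / 10000 := by
    have := pow_le_pow_left₀ hεR0 hεR 2
    norm_num at this
    exact this
  rw [abs_le] at t1 t2 z3 z4 z5 z6 ⊢
  constructor <;> linarith

end Run7.h834
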