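import Pool.Agent.Run7.h834.Good2

/-! The scaling of a group has a bounded density with probability at least one half. -/

set_option autoImplicit false
open MeasureTheory Set ProbabilityTheory
open scoped ENNReal

namespace Run7.h834

variable {V : ℝ → ℝ} {K : ℝ} {w : ℕ}

/-- the set of groups on which the densities of the two scalings are bounded -/
def goodG (V : ℝ → ℝ) (e ε : ℝ) (Q : Arr w) : Set (Grp w) :=
  {g | ratG V e (Real.exp (2 * ε)) Q g ∈ Icc (Real.exp (-1)) (Real.exp 1) ∧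
    ratG V e (Real.exp (-(2 * ε))) Q g ∈ Icc (Real.exp (-1)) (Real.exp 1)}

theorem measurableSet_goodG (hV : Measurable V) (e ε : ℝ) (Q : Arr w) :
    MeasurableSet (goodG V e ε Q) := by
  have h1 : ∀ s, Measurable fun g : Grp w => ratG V e s Q g := fun s =>
    (measurable_ratG hV e s).comp (measurable_const.prodMk measurable_id)
  exact ((h1 _) measurableSet_Icc).inter ((h1 _) measurableSet_Icc)

/-- constants of the law -/
noncomputable def M2 (V : ℝ → ℝ) : ℝ := ∫ x, (deriv V x) ^ 2 ∂(lawV V)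

noncomputable def m2 (V : ℝ → ℝ) : ℝ := ∫ x, (deriv V x * x - 1) ^ 2 ∂(lawV V)

theorem M2_nonneg (V : ℝ → ℝ) : 0 ≤ M2 V := integral_nonneg fun _ => sq_nonneg _

theorem m2_nonneg (V : ℝ → ℝ) : 0 ≤ m2 V := integral_nonneg fun _ => sq_nonneg _

theorem NiceV.score_sq (h : NiceV V K) {ι : Type*} [Fintype ι] (c : ι → ℝ) :
    ∫⁻ v, ENNReal.ofReal ((∑ i, c i * deriv V (v i)) ^ 2) ∂(Measure.pi fun _ : ι => lawV V) =
      ENNReal.ofReal (nsq c * M2 V) := by
  have := h.prob
  exact lin_sq h.continuous_deriv.measurable h.integral_deriv h.integrable_deriv_sq c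

theorem NiceV.entry_sq (h : NiceV V K) {ι : Type*} [Fintype ι] (c : ι → ℝ) :
    ∫⁻ v, ENNReal.ofReal ((∑ i, c i * v i) ^ 2) ∂(Measure.pi fun _ : ι => lawV V) =
      ENNReal.ofReal (nsq c) := by
  have := h.prob
  have h1 := lin_sq (μ := lawV V) (f := fun x => x) measurable_id h.mean h.integrable_sq c
  rw [h.var, mul_one] at h1
  exact h1

theorem NiceV.virial_sq (h : NiceV V K) {ι : Type*} [Fintype ι] :
    ∫⁻ v, ENNReal.ofReal ((∑ i : ι, (deriv V (v i) * v i - 1)) ^ 2)
      ∂(Measure.pi fun _ : ι => lawV V) = ENNReal.ofReal (Fintype.card ι * m2 V) := by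
  have := h.prob
  have hi : Integrable (fun x => (deriv V x * x - 1) ^ 2) (lawV V) := by
    have h1 := h.integrable_mul_deriv_sq
    have h2 := h.integrable_mul_deriv
    have h3 : (fun x => (deriv V x * x - 1) ^ 2) =
        fun x => (deriv V x * x) ^ 2 - 2 * (deriv V x * x) + 1 := by
      funext x
      ring
    rw [h3]
    exact (h1.sub (h2.const_mul 2)).add (integrable_const 1)
  have h0 : ∫ x, (deriv V x * x - 1) ∂(lawV V) = 0 := by
    rw [integral_sub h.integrable_mul_deriv (integrable_const 1), h.integral_mul_deriv]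
    simp
  have h1 := lin_sq (μ := lawV V) (f := fun x => deriv V x * x - 1)
    ((h.continuous_deriv.measurable.mul measurable_id).sub_const 1) h0 hi (fun _ : ι => 1)
  simpa [m2] using h1

theorem lintegral_eval_pi {ι : Type*} [Fintype ι] {μ : Measure ℝ} [IsProbabilityMeasure μ]
    (i : ι) {F : ℝ → ℝ≥0∞} (hF : Measurable F) :
    ∫⁻ v : ι → ℝ, F (v i) ∂(Measure.pi fun _ : ι => μ) = ∫⁻ x, F x ∂μ := by
  have h6 := (measurePreserving_eval (fun _ : ι => μ) i).map_eq
  conv_rhs => rw [← h6]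
  rw [lintegral_map hF (measurable_pi_apply i)]

theorem NiceV.nsq_mean (h : NiceV V K) {ι : Type*} [Fintype ι] :
    ∫⁻ v, ENNReal.ofReal (nsq v) ∂(Measure.pi fun _ : ι => lawV V) =
      ENNReal.ofReal (Fintype.card ι) := by
  have := h.prob
  have h1 : ∀ v : ι → ℝ, ENNReal.ofReal (nsq v) = ∑ i, ENNReal.ofReal (v i ^ 2) := by
    intro v
    unfold nsq
    rw [ENNReal.ofReal_sum_of_nonneg fun i _ => sq_nonneg _]
  simp_rw [h1]
  have hm : Measurable fun x : ℝ => ENNReal.ofReal (x ^ 2) :=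
    ENNReal.measurable_ofReal.comp (measurable_id.pow_const 2)
  have hmi : ∀ i ∈ (Finset.univ : Finset ι), Measurable fun v : ι → ℝ =>
      ENNReal.ofReal (v i ^ 2) := fun i _ => hm.comp (measurable_pi_apply i)
  rw [lintegral_finsetSum _ hmi]
  have h2 : ∀ i : ι, ∫⁻ v : ι → ℝ, ENNReal.ofReal (v i ^ 2) ∂(Measure.pi fun _ : ι => lawV V) =
      1 := by
    intro i
    rw [lintegral_eval_pi i hm, ← ofReal_integral_eq_lintegral_ofReal h.integrable_sq
      (Filter.Eventually.of_forall fun _ => sq_nonneg _), h.var, ENNReal.ofReal_one]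
  rw [Finset.sum_congr rfl fun i _ => h2 i]
  simp

theorem gam_slice1 [IsProbabilityMeasure (lawV V)] {S : Set (Grp w)} (hS : MeasurableSet S)
    {T : (Arr w × Arr w) → Set (Arr w × Arr w)} {δ : ℝ≥0∞}
    (hT : ∀ x y z, (x, (y, z)) ∈ S → y ∈ T x)
    (h : ∀ x, ((piA V w).prod (piA V w)) (T x) ≤ δ) :
    gamG V w S ≤ δ := by
  unfold gamG
  refine prod_slice_le hS fun x => ?_
  refine le_trans (measure_mono (t := {p | p.1 ∈ T x}) ?_) ?_
  · rintro ⟨y, z⟩ hyz
    exact hT x y z hyz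
  · rw [prod_fst_eq]
    exact h x

theorem gam_slice1a [IsProbabilityMeasure (lawV V)] {S : Set (Grp w)} (hS : MeasurableSet S)
    {T : (Arr w × Arr w) → Set (Arr w)} {δ : ℝ≥0∞}
    (hT : ∀ x a b z, (x, ((a, b), z)) ∈ S → a ∈ T x)
    (h : ∀ x, (piA V w) (T x) ≤ δ) :
    gamG V w S ≤ δ := by
  refine gam_slice1 hS (T := fun x => {p | p.1 ∈ T x}) ?_ ?_
  · rintro x ⟨a, b⟩ z hz
    exact hT x a b z hz
  · intro x
    rw [prod_fst_eq]
    exact h x

theorem gam_slice2a [IsProbabilityMeasure (lawV V)] {S : Set (Grp w)} (hS : MeasurableSet S)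
    {T : (Arr w × Arr w) → (Arr w × Arr w) → Set (Arr w)} {δ : ℝ≥0∞}
    (hT : ∀ x y a b, (x, (y, (a, b))) ∈ S → a ∈ T x y)
    (h : ∀ x y, (piA V w) (T x y) ≤ δ) :
    gamG V w S ≤ δ := by
  unfold gamG
  refine prod_slice_le hS fun x => ?_
  refine prod_slice_le (measurable_prodMk_left hS) fun y => ?_
  refine le_trans (measure_mono (t := {p | p.1 ∈ T x y}) ?_) ?_
  · rintro ⟨a, b⟩ hab
    exact hT x y a b hab
  · rw [prod_fst_eq]
    exact h x y

theorem ofReal_div_le {m C t : ℝ} (hC : 0 < C) (ht : 0 < t) (hm : 12 * m ≤ C) :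
    ENNReal.ofReal (m * t / (C * t)) ≤ ENNReal.ofReal (1 / 12) := by
  refine ENNReal.ofReal_le_ofReal ?_
  rw [mul_div_mul_right _ _ ht.ne', div_le_div_iff₀ hC (by norm_num)]
  linarith

theorem eyeA_nsq (e : ℝ) : nsq (eyeA e : Arr w) = w * e ^ 2 := by
  unfold nsq eyeA
  rw [Fintype.sum_prod_type]
  simp

theorem good_prob (h : NiceV V K) (hw : 1 ≤ w) {C R ε e : ℝ} (hC : 1 ≤ C)
    (hCm : 12 * (1 + m2 V + M2 V) ≤ C ^ 2) (hwR : (w : ℝ) ≤ R) (heR : w * e ^ 2 ≤ R ^ 2)
    (hε0 : 0 ≤ ε) (hε : ε * R * (100 * K * C ^ 2) ≤ 1)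
    (hT : ∀ Q : Arr w, ((piA V w).prod (piA V w)) {p | R ^ 2 < nsq (nextQ e Q p.1 p.2)} ≤
      ENNReal.ofReal (1 / 12)) (Q : Arr w) :
    1 / 2 ≤ gamG V w (goodG V e ε Q) := by
  have := h.prob
  have hw1 : (1 : ℝ) ≤ w := by exact_mod_cast hw
  have hw0 : (0 : ℝ) < w := by linarith
  have hR1 : 1 ≤ R := hw1.trans hwR
  have hC2 : 0 < C ^ 2 := by positivity
  have hM := M2_nonneg V
  have hm := m2_nonneg V
  have mQ1 : Measurable fun g : Grp w => nextQ e Q g.1.1 g.1.2 :=
    measurable_nextQ e measurable_const (by fun_prop) (by fun_prop)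
  have mY : Measurable fun g : Grp w =>
      nextQ e (nextQ e Q g.1.1 g.1.2) g.2.1.1 g.2.1.2 :=
    measurable_nextQ e mQ1 (by fun_prop) (by fun_prop)
  have mV : Measurable (deriv V) := h.continuous_deriv.measurable
  have hcard : (Fintype.card (Fin w × Fin w) : ℝ) = (w : ℝ) ^ 2 := by
    simp [sq]
  -- bad sets
  set b1 : Set (Grp w) := {g | C ^ 2 * (w : ℝ) ^ 2 <
    (∑ p, (deriv V (g.2.1.1 p) * g.2.1.1 p - 1)) ^ 2} with hb1
  set b2 : Set (Grp w) := {g | C ^ 2 * (nsq (eyeA e + nextQ e Q g.1.1 g.1.2) + 1) <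
    (∑ p, (eyeA e + nextQ e Q g.1.1 g.1.2 : Arr w) p * deriv V (g.2.1.1 p)) ^ 2} with hb2
  set b3 : Set (Grp w) := {g | C ^ 2 * (w : ℝ) ^ 2 < nsq g.2.1.1} with hb3
  set b4 : Set (Grp w) := {g | R ^ 2 < nsq (nextQ e Q g.1.1 g.1.2)} with hb4
  set b5 : Set (Grp w) := {g | R ^ 2 <
    nsq (nextQ e (nextQ e Q g.1.1 g.1.2) g.2.1.1 g.2.1.2)} with hb5
  set b6 : Set (Grp w) := {g | C ^ 2 * (nsq (nextQ e (nextQ e Q g.1.1 g.1.2) g.2.1.1 g.2.1.2) + 1)
    < (∑ p, (nextQ e (nextQ e Q g.1.1 g.1.2) g.2.1.1 g.2.1.2) p * deriv V (g.2.2.1 p)) ^ 2}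
    with hb6
  have ma1 : ∀ p, Measurable fun g : Grp w => g.2.1.1 p := fun p => by fun_prop
  have ma2 : ∀ p, Measurable fun g : Grp w => g.2.2.1 p := fun p => by fun_prop
  have mb1 : MeasurableSet b1 := by
    refine measurableSet_lt measurable_const (Measurable.pow_const ?_ 2)
    exact Finset.measurable_sum _ fun p _ => ((mV.comp (ma1 p)).mul (ma1 p)).sub_const 1
  have mc : Measurable fun g : Grp w => eyeA e + nextQ e Q g.1.1 g.1.2 :=
    measurable_const.add mQ1
  have mb2 : MeasurableSet b2 := by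
    refine measurableSet_lt (((measurable_nsq mc).add_const 1).const_mul _)
      (Measurable.pow_const ?_ 2)
    exact Finset.measurable_sum _ fun p _ =>
      ((measurable_pi_apply p).comp mc).mul (mV.comp (ma1 p))
  have mb3 : MeasurableSet b3 :=
    measurableSet_lt measurable_const (measurable_nsq (by fun_prop))
  have mb4 : MeasurableSet b4 := measurableSet_lt measurable_const (measurable_nsq mQ1)
  have mb5 : MeasurableSet b5 := measurableSet_lt measurable_const (measurable_nsq mY)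
  have mb6 : MeasurableSet b6 := by
    refine measurableSet_lt (((measurable_nsq mY).add_const 1).const_mul _)
      (Measurable.pow_const ?_ 2)
    exact Finset.measurable_sum _ fun p _ =>
      ((measurable_pi_apply p).comp mY).mul (mV.comp (ma2 p))
  have score : ∀ c : Arr w, (piA V w) {a | C ^ 2 * (nsq c + 1) <
      (∑ p, c p * deriv V (a p)) ^ 2} ≤ ENNReal.ofReal (1 / 12) := by
    intro c
    have h0 := nsq_nonneg c
    have h1 := markov_lt (μ := piA V w) (F := fun a => (∑ p, c p * deriv V (a p)) ^ 2)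
      ((Finset.measurable_sum _ fun p _ =>
        ((mV.comp (measurable_pi_apply p)).const_mul (c p))).pow_const 2)
      (t := C ^ 2 * (nsq c + 1)) (m := nsq c * M2 V) (by positivity) (h.score_sq c).le
    refine h1.trans ?_
    refine le_trans (ENNReal.ofReal_le_ofReal ?_)
      (ofReal_div_le (m := M2 V) (t := nsq c + 1) hC2 (by linarith) (by linarith))
    refine div_le_div_of_nonneg_right ?_ (by positivity)
    rw [mul_comm]
    exact mul_le_mul_of_nonneg_left (by linarith) hM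
  have p1 : gamG V w b1 ≤ ENNReal.ofReal (1 / 12) := by
    refine gam_slice1a mb1 (T := fun _ => {a | C ^ 2 * (w : ℝ) ^ 2 <
      (∑ p, (deriv V (a p) * a p - 1)) ^ 2}) (fun x a b z hz => hz) fun x => ?_
    have h1 := markov_lt (μ := piA V w) (F := fun a => (∑ p, (deriv V (a p) * a p - 1)) ^ 2)
      ((Finset.measurable_sum _ fun p _ => ((mV.comp (measurable_pi_apply p)).mul
        (measurable_pi_apply p)).sub_const 1).pow_const 2)
      (t := C ^ 2 * (w : ℝ) ^ 2) (m := m2 V * (w : ℝ) ^ 2) (by positivity) (by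
        have := h.virial_sq (ι := Fin w × Fin w)
        rw [hcard, mul_comm] at this
        exact this.le)
    exact h1.trans (ofReal_div_le hC2 (by positivity) (by linarith))
  have p3 : gamG V w b3 ≤ ENNReal.ofReal (1 / 12) := by
    refine gam_slice1a mb3 (T := fun _ => {a | C ^ 2 * (w : ℝ) ^ 2 < nsq a})
      (fun x a b z hz => hz) fun x => ?_
    have h1 := markov_lt (μ := piA V w) (F := fun a => nsq a)
      (measurable_nsq measurable_id)
      (t := C ^ 2 * (w : ℝ) ^ 2) (m := 1 * (w : ℝ) ^ 2) (by positivity) (by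
        have := h.nsq_mean (ι := Fin w × Fin w)
        rw [hcard] at this
        rw [one_mul]
        exact this.le)
    exact h1.trans (ofReal_div_le hC2 (by positivity) (by linarith))
  have p2 : gamG V w b2 ≤ ENNReal.ofReal (1 / 12) :=
    gam_slice1a mb2 (T := fun x => {a | C ^ 2 * (nsq (eyeA e + nextQ e Q x.1 x.2) + 1) <
      (∑ p, (eyeA e + nextQ e Q x.1 x.2 : Arr w) p * deriv V (a p)) ^ 2})
      (fun x a b z hz => hz) fun x => score _
  have p4 : gamG V w b4 ≤ ENNReal.ofReal (1 / 12) := by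
    unfold gamG
    have : b4 = {g : Grp w | g.1 ∈ {p : Arr w × Arr w | R ^ 2 < nsq (nextQ e Q p.1 p.2)}} := rfl
    rw [this, prod_fst_eq]
    exact hT Q
  have p5 : gamG V w b5 ≤ ENNReal.ofReal (1 / 12) :=
    gam_slice1 mb5 (T := fun x => {p | R ^ 2 < nsq (nextQ e (nextQ e Q x.1 x.2) p.1 p.2)})
      (fun x y z hz => hz) fun x => hT _
  have p6 : gamG V w b6 ≤ ENNReal.ofReal (1 / 12) :=
    gam_slice2a mb6 (T := fun x y => {a | C ^ 2 *
      (nsq (nextQ e (nextQ e Q x.1 x.2) y.1 y.2) + 1) <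
      (∑ p, (nextQ e (nextQ e Q x.1 x.2) y.1 y.2) p * deriv V (a p)) ^ 2})
      (fun x y a b hz => hz) fun x y => score _
  -- the complement of the bad sets is good
  have hsub : (goodG V e ε Q)ᶜ ⊆ b1 ∪ b2 ∪ b3 ∪ b4 ∪ b5 ∪ b6 := by
    intro g hg
    by_contra hnot
    apply hg
    simp only [Set.mem_union, not_or] at hnot
    obtain ⟨⟨⟨⟨⟨n1, n2⟩, n3⟩, n4⟩, n5⟩, n6⟩ := hnot
    simp only [hb1, hb2, hb3, hb4, hb5, hb6, Set.mem_setOf_eq, not_lt] at n1 n2 n3 n4 n5 n6
    have hc : nsq (eyeA e + nextQ e Q g.1.1 g.1.2) ≤ 4 * R ^ 2 := by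
      have := nsq_add_le (eyeA e) (nextQ e Q g.1.1 g.1.2)
      rw [eyeA_nsq] at this
      linarith
    have main : ∀ x : ℝ, |x| ≤ 2 * ε →
        ratG V e (Real.exp x) Q g ∈ Icc (Real.exp (-1)) (Real.exp 1) := by
      intro x hx
      have hb := log_bound h hC hR1 hw0.le hwR hcard hε0 hε hx hc n1 n2 n3 n5 n6
      have e1 : ratG V e (Real.exp x) Q g = Real.exp
          ((Fintype.card (Fin w × Fin w) : ℝ) * x +
            ∑ i, (V (g.2.1.1 i) - V (homo (Real.exp x) (eyeA e + nextQ e Q g.1.1 g.1.2)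
              g.2.1.1 i)) +
            ∑ i, (V (g.2.2.1 i) - V ((g.2.2.1 + ((Real.exp x)⁻¹ - 1) •
              nextQ e (nextQ e Q g.1.1 g.1.2) g.2.1.1 g.2.1.2) i))) := by
        unfold ratG ratV
        simp only
        rw [Real.exp_add, Real.exp_add, Real.exp_nat_mul]
      rw [e1, Set.mem_Icc, Real.exp_le_exp, Real.exp_le_exp]
      exact abs_le.1 hb
    refine ⟨main _ ?_, main _ ?_⟩
    · rw [abs_of_nonneg (by linarith)]
    · rw [abs_neg, abs_of_nonneg (by linarith)]
  have hbad : gamG V w (goodG V e ε Q)ᶜ ≤ ENNReal.ofReal (1 / 2) := by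
    refine (measure_mono hsub).trans ?_
    refine (measure_union_le _ _).trans ?_
    have q1 := (measure_union_le (μ := gamG V w) (b1 ∪ b2 ∪ b3 ∪ b4) b5)
    have q2 := (measure_union_le (μ := gamG V w) (b1 ∪ b2 ∪ b3) b4)
    have q3 := (measure_union_le (μ := gamG V w) (b1 ∪ b2) b3)
    have q4 := (measure_union_le (μ := gamG V w) b1 b2)
    have hsum : ENNReal.ofReal (1 / 2) = ENNReal.ofReal (1 / 12) + ENNReal.ofReal (1 / 12) +
        ENNReal.ofReal (1 / 12) + ENNReal.ofReal (1 / 12) + ENNReal.ofReal (1 / 12) +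
        ENNReal.ofReal (1 / 12) := by
      rw [← ENNReal.ofReal_add, ← ENNReal.ofReal_add, ← ENNReal.ofReal_add,
        ← ENNReal.ofReal_add, ← ENNReal.ofReal_add]
      · norm_num
      all_goals norm_num
    rw [hsum]
    refine add_le_add (q1.trans (add_le_add (q2.trans (add_le_add (q3.trans (add_le_add
      (q4.trans (add_le_add p1 p2)) p3)) p4)) p5)) p6
  have hmG := measurableSet_goodG h.meas e ε Q
  have hcompl := prob_add_prob_compl (μ := gamG V w) hmG
  have h12 : ENNReal.ofReal (1 / 2) = 1 / 2 := by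
    rw [ENNReal.ofReal_div_of_pos (by norm_num)]
    norm_num
  rw [h12] at hbad
  by_contra hlt
  push Not at hlt
  have : gamG V w (goodG V e ε Q) + gamG V w (goodG V e ε Q)ᶜ < 1 := by
    calc gamG V w (goodG V e ε Q) + gamG V w (goodG V e ε Q)ᶜ
        < 1 / 2 + 1 / 2 := ENNReal.add_lt_add_of_lt_of_le (by
          exact ne_top_of_le_ne_top (by norm_num) hbad) hlt hbad
      _ = 1 := ENNReal.add_halves 1
  rw [hcompl] at this
  exact lt_irrefl _ this

end Run7.h834
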