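import Pool.Agent.Run7.h834.Cut3

/-! Smoothness of the mean counting function. -/

set_option autoImplicit false
open MeasureTheory Matrix Set
open scoped ENNReal

namespace Run7.h834

variable {V : ℝ → ℝ} {K : ℝ}

/-- the section without its diagonal -/
def offM (w N : ℕ) (ω : Om) : Matrix (Fin N) (Fin N) ℝ :=
  Matrix.of fun i j => if i = j then 0 else bnd w ω i j

/-- the index as a function of the diagonal -/
noncomputable def Gd (w N : ℕ) (ω : Om) (v : Fin N → ℝ) : ℕ := dIdx (offM w N ω) v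

theorem measurable_Gd {α : Type*} [MeasurableSpace α] (w N : ℕ) {ω : α → Om}
    {v : α → Fin N → ℝ} (hω : Measurable ω) (hv : Measurable v) :
    Measurable fun x => Gd w N (ω x) (v x) := by
  unfold Gd dIdx
  refine measurable_negIdx_comp fun i j => ?_
  simp only [Matrix.add_apply, offM, Matrix.of_apply]
  by_cases h : i = j
  · subst h
    simp only [if_true, Matrix.diagonal_apply_eq]
    exact measurable_const.add ((measurable_pi_apply i).comp hv)
  · simp only [h, if_false, Matrix.diagonal_apply_ne _ h]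
    exact ((measurable_bnd w i j).comp hω).add measurable_const

/-- constant vector -/
def cv {N : ℕ} (e : ℝ) : Fin N → ℝ := fun _ => e

theorem kM_eq_Gd (w N : ℕ) (ω : Om) (e : ℝ) :
    negIdx (kM w ω e 0 0 N) = Gd w N ω ((fun i : Fin N => ω (i, i)) - cv e) := by
  unfold Gd dIdx
  congr 1
  ext i j
  simp only [kM, offM, Matrix.of_apply, Matrix.add_apply, zero_add]
  have h0 : qE (0 : Arr w) i j = 0 := by
    unfold qE
    split_ifs
    · simp [symM]
    · rfl
  rw [h0, sub_zero]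
  by_cases h : i = j
  · subst h
    simp [bnd, cv]
  · simp [h, Matrix.diagonal_apply_ne _ h]

/-- splitting off the diagonal -/
theorem split_diag {μ : Measure ℝ} [IsProbabilityMeasure μ] (w N : ℕ)
    {Φ : Matrix (Fin N) (Fin N) ℝ → (Fin N → ℝ) → ℝ≥0∞}
    (hΦ : Measurable fun p : Om × (Fin N → ℝ) => Φ (offM w N p.1) p.2) :
    ∫⁻ ω, Φ (offM w N ω) (fun i => ω (i, i)) ∂(Pm μ) =
      ∫⁻ ω, ∫⁻ v, Φ (offM w N ω) v ∂(Measure.pi fun _ : Fin N => μ) ∂(Pm μ) := by
  set φ : Fin N → ℕ × ℕ := fun i => (i, i) with hφ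
  have hφi : Function.Injective φ := by
    intro i j h
    simp only [hφ, Prod.mk.injEq] at h
    exact Fin.ext h.1
  have hm : Measurable fun ω : Om => Φ (offM w N ω) (fun i => ω (i, i)) :=
    hΦ.comp (measurable_id.prodMk (measurable_pi_iff.2 fun i => measurable_pi_apply _))
  rw [lintegral_mix μ (Set.range φ)ᶜ hm]
  refine lintegral_congr fun ω => ?_
  have e1 : ∀ ω' : Om, Φ (offM w N (mix (Set.range φ)ᶜ ω ω'))
      (fun i : Fin N => mix (Set.range φ)ᶜ ω ω' (i, i)) =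
      Φ (offM w N ω) (fun i => ω' (φ i)) := by
    intro ω'
    congr 1
    · ext i j
      simp only [offM, Matrix.of_apply]
      by_cases h : i = j
      · simp [h]
      · rw [if_neg h, if_neg h]
        unfold bnd
        split_ifs with h2
        · rw [mix_mem]
          simp only [Set.mem_compl_iff]
          rintro ⟨l, hl⟩
          simp only [hφ, Prod.mk.injEq] at hl
          apply h
          apply Fin.ext
          omega
        · rfl
    · funext i
      rw [mix_notMem]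
      simp only [Set.mem_compl_iff, not_not]
      exact ⟨i, rfl⟩
  rw [lintegral_congr e1]
  have hm2 : Measurable fun v : Fin N → ℝ => Φ (offM w N ω) v :=
    hΦ.comp (measurable_const.prodMk measurable_id)
  exact lintegral_sel μ φ hφi hm2

/-- shift of the diagonal -/
theorem shift_diag (h : NiceV V K) (N : ℕ) {G : (Fin N → ℝ) → ℝ≥0∞} (hG : Measurable G) (e : ℝ) :
    ∫⁻ v, G (v - cv e) ∂(Measure.pi fun _ : Fin N => lawV V) =
      ∫⁻ v, G v * ENNReal.ofReal (ratV V v (v + cv e)) ∂(Measure.pi fun _ : Fin N => lawV V) := by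
  have := h.prob
  have h1 := lintegral_shift h.meas (F := fun v => G (v - cv e))
    (hG.comp (measurable_id.sub_const _)) (cv e : Fin N → ℝ)
  rw [h1]
  refine lintegral_congr fun v => ?_
  rw [add_sub_cancel_right]

/-- semi-concavity of `-V` -/
theorem NiceV.semi (h : NiceV V K) (x t₁ t₂ θ : ℝ) (hθ : 0 ≤ θ) (hθ1 : θ ≤ 1) :
    -V (x + (θ * t₁ + (1 - θ) * t₂)) + K * (θ * t₁ + (1 - θ) * t₂) ^ 2 / 2 ≤
      θ * (-V (x + t₁) + K * t₁ ^ 2 / 2) + (1 - θ) * (-V (x + t₂) + K * t₂ ^ 2 / 2) := by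
  set t := θ * t₁ + (1 - θ) * t₂ with ht
  have h1 := (abs_le.1 (h.taylor (x + t) (t₁ - t))).2
  have h2 := (abs_le.1 (h.taylor (x + t) (t₂ - t))).2
  have e1 : x + t + (t₁ - t) = x + t₁ := by ring
  have e2 : x + t + (t₂ - t) = x + t₂ := by ring
  rw [e1] at h1
  rw [e2] at h2
  have h3 := mul_le_mul_of_nonneg_left h1 hθ
  have h4 := mul_le_mul_of_nonneg_left h2 (sub_nonneg.2 hθ1)
  have e3 : θ * (V (x + t₁) - V (x + t) - deriv V (x + t) * (t₁ - t)) +
      (1 - θ) * (V (x + t₂) - V (x + t) - deriv V (x + t) * (t₂ - t)) =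
      θ * V (x + t₁) + (1 - θ) * V (x + t₂) - V (x + t) -
        deriv V (x + t) * (θ * t₁ + (1 - θ) * t₂ - t) := by ring
  have e4 : θ * (K * (t₁ - t) ^ 2 / 2) + (1 - θ) * (K * (t₂ - t) ^ 2 / 2) =
      θ * (K * t₁ ^ 2 / 2) + (1 - θ) * (K * t₂ ^ 2 / 2) - K * t ^ 2 / 2 := by
    rw [ht]
    ring
  rw [← ht, sub_self, mul_zero, sub_zero] at e3
  linarith

/-- the Gaussian factor -/
noncomputable def gE (N : ℕ) (K t : ℝ) : ℝ := Real.exp (N * (K * t ^ 2 / 2))

theorem gE_pos (N : ℕ) (K t : ℝ) : 0 < gE N K t := Real.exp_pos _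

/-- log-convexity of the weights -/
theorem weight_logconv (h : NiceV V K) {N : ℕ} (v : Fin N → ℝ) (c t₁ t₂ θ : ℝ) (hθ : 0 ≤ θ)
    (hθ1 : θ ≤ 1) :
    ratV V v (v + cv (c + (θ * t₁ + (1 - θ) * t₂))) * gE N K (θ * t₁ + (1 - θ) * t₂) ≤
      (ratV V v (v + cv (c + t₁)) * gE N K t₁) ^ θ *
        (ratV V v (v + cv (c + t₂)) * gE N K t₂) ^ (1 - θ) := by
  unfold ratV gE
  rw [← Real.exp_add, ← Real.exp_add, ← Real.exp_add, ← Real.exp_mul, ← Real.exp_mul,
    ← Real.exp_add, Real.exp_le_exp]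
  have hN : ∀ t : ℝ, (N : ℝ) * (K * t ^ 2 / 2) = ∑ _i : Fin N, K * t ^ 2 / 2 := by
    intro t
    simp
  rw [hN, hN, hN, ← Finset.sum_add_distrib, ← Finset.sum_add_distrib, ← Finset.sum_add_distrib,
    Finset.sum_mul, Finset.sum_mul, ← Finset.sum_add_distrib]
  refine Finset.sum_le_sum fun i _ => ?_
  have h1 := h.semi (v i + c) t₁ t₂ θ hθ hθ1
  simp only [Pi.add_apply, cv]
  have a1 : ∀ t, v i + (c + t) = v i + c + t := fun t => (add_assoc _ _ _).symm
  rw [a1, a1, a1]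
  linarith

/-- mean number of eigenvalues in `[e, e + δ)` -/
noncomputable def Hd (V : ℝ → ℝ) (w N : ℕ) (δ e : ℝ) : ℝ≥0∞ :=
  ∫⁻ ω, (cN w ω e (e + δ) 0 N : ℝ≥0∞) ∂(Pm (lawV V))

theorem Hd_rep (h : NiceV V K) (w N : ℕ) (δ e : ℝ) :
    Hd V w N δ e = ∫⁻ ω, ∫⁻ v, ((Gd w N ω (v - cv δ) - Gd w N ω v : ℕ) : ℝ≥0∞) *
      ENNReal.ofReal (ratV V v (v + cv e)) ∂(Measure.pi fun _ : Fin N => lawV V)
        ∂(Pm (lawV V)) := by
  have := h.prob
  unfold Hd
  set Φ : Matrix (Fin N) (Fin N) ℝ → (Fin N → ℝ) → ℝ≥0∞ := fun M v =>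
    ((dIdx M (v - cv e - cv δ) - dIdx M (v - cv e) : ℕ) : ℝ≥0∞) with hΦ
  have e1 : ∀ ω : Om, (cN w ω e (e + δ) 0 N : ℝ≥0∞) =
      Φ (offM w N ω) (fun i => ω (i, i)) := by
    intro ω
    unfold cN
    rw [kM_eq_Gd, kM_eq_Gd]
    simp only [Gd, hΦ]
    congr 3
    funext i
    simp only [Pi.sub_apply, cv]
    ring
  refine (lintegral_congr e1).trans ((split_diag (μ := lawV V) w N (Φ := Φ) ?_).trans ?_)
  · have h1 : Measurable fun p : Om × (Fin N → ℝ) => p.2 - cv e := measurable_snd.sub_const _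
    exact measurable_from_top.comp ((measurable_Gd w N measurable_fst (h1.sub_const _)).sub
      (measurable_Gd w N measurable_fst h1))
  · refine lintegral_congr fun ω => ?_
    have hG : Measurable fun v : Fin N → ℝ =>
        ((Gd w N ω (v - cv δ) - Gd w N ω v : ℕ) : ℝ≥0∞) :=
      measurable_from_top.comp ((measurable_Gd w N measurable_const
        (measurable_id.sub_const _)).sub (measurable_Gd w N measurable_const measurable_id))
    exact shift_diag h N hG e

/-- log-convexity of the mean number of eigenvalues -/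
theorem Hd_logconv (h : NiceV V K) (w N : ℕ) (δ c t₁ t₂ θ : ℝ) (hθ : 0 ≤ θ) (hθ1 : θ ≤ 1) :
    Hd V w N δ (c + (θ * t₁ + (1 - θ) * t₂)) *
        ENNReal.ofReal (gE N K (θ * t₁ + (1 - θ) * t₂)) ≤
      (Hd V w N δ (c + t₁) * ENNReal.ofReal (gE N K t₁)) ^ θ *
        (Hd V w N δ (c + t₂) * ENNReal.ofReal (gE N K t₂)) ^ (1 - θ) := by
  have := h.prob
  set π : Measure (Fin N → ℝ) := Measure.pi fun _ : Fin N => lawV V with hπ
  set g : Om × (Fin N → ℝ) → ℝ≥0∞ := fun p =>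
    ((Gd w N p.1 (p.2 - cv δ) - Gd w N p.1 p.2 : ℕ) : ℝ≥0∞) with hg
  have mg : Measurable g :=
    measurable_from_top.comp ((measurable_Gd w N measurable_fst
      (measurable_snd.sub_const _)).sub (measurable_Gd w N measurable_fst measurable_snd))
  have mr : ∀ e : ℝ, Measurable fun p : Om × (Fin N → ℝ) =>
      ENNReal.ofReal (ratV V p.2 (p.2 + cv e)) := fun e =>
    ENNReal.measurable_ofReal.comp (measurable_ratV h.meas measurable_snd
      (measurable_snd.add_const _))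
  have mgr : ∀ e : ℝ, Measurable fun p : Om × (Fin N → ℝ) =>
      g p * ENNReal.ofReal (ratV V p.2 (p.2 + cv e)) := fun e => mg.mul (mr e)
  have rep : ∀ e : ℝ, Hd V w N δ e = ∫⁻ p, g p * ENNReal.ofReal (ratV V p.2 (p.2 + cv e))
      ∂((Pm (lawV V)).prod π) := by
    intro e
    rw [Hd_rep h, lintegral_prod _ (mgr e).aemeasurable]
  have rep2 : ∀ e t : ℝ, Hd V w N δ e * ENNReal.ofReal (gE N K t) =
      ∫⁻ p, g p * ENNReal.ofReal (ratV V p.2 (p.2 + cv e)) * ENNReal.ofReal (gE N K t)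
      ∂((Pm (lawV V)).prod π) := by
    intro e t
    rw [rep, lintegral_mul_const _ (mgr e)]
  rw [rep2, rep2, rep2]
  have hH := ENNReal.lintegral_mul_norm_pow_le (μ := (Pm (lawV V)).prod π)
    (f := fun p => g p * ENNReal.ofReal (ratV V p.2 (p.2 + cv (c + t₁))) *
      ENNReal.ofReal (gE N K t₁))
    (g := fun p => g p * ENNReal.ofReal (ratV V p.2 (p.2 + cv (c + t₂))) *
      ENNReal.ofReal (gE N K t₂))
    ((mgr _).mul_const _).aemeasurable ((mgr _).mul_const _).aemeasurable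
    hθ (sub_nonneg.2 hθ1) (by ring)
  refine le_trans (lintegral_mono fun p => ?_) hH
  have hr : ∀ e, 0 ≤ ratV V p.2 (p.2 + cv e) := fun e => (Real.exp_pos _).le
  have hw := weight_logconv h p.2 c t₁ t₂ θ hθ hθ1
  have e1 : ∀ e t : ℝ, g p * ENNReal.ofReal (ratV V p.2 (p.2 + cv e)) *
      ENNReal.ofReal (gE N K t) = g p * ENNReal.ofReal (ratV V p.2 (p.2 + cv e) * gE N K t) := by
    intro e t
    rw [mul_assoc, ← ENNReal.ofReal_mul (hr e)]
  simp only [e1]
  rw [ENNReal.mul_rpow_of_nonneg _ _ hθ, ENNReal.mul_rpow_of_nonneg _ _ (sub_nonneg.2 hθ1),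
    ENNReal.ofReal_rpow_of_nonneg (mul_nonneg (hr _) (gE_pos _ _ _).le) hθ,
    ENNReal.ofReal_rpow_of_nonneg (mul_nonneg (hr _) (gE_pos _ _ _).le) (sub_nonneg.2 hθ1)]
  calc g p * ENNReal.ofReal (ratV V p.2 (p.2 + cv (c + (θ * t₁ + (1 - θ) * t₂))) *
        gE N K (θ * t₁ + (1 - θ) * t₂))
      ≤ g p * ENNReal.ofReal ((ratV V p.2 (p.2 + cv (c + t₁)) * gE N K t₁) ^ θ *
        (ratV V p.2 (p.2 + cv (c + t₂)) * gE N K t₂) ^ (1 - θ)) := by
        gcongr
    _ = (g p ^ θ * g p ^ (1 - θ)) * (ENNReal.ofReal ((ratV V p.2 (p.2 + cv (c + t₁)) *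
          gE N K t₁) ^ θ) * ENNReal.ofReal ((ratV V p.2 (p.2 + cv (c + t₂)) *
          gE N K t₂) ^ (1 - θ))) := by
        rw [← ENNReal.rpow_add_of_nonneg _ _ hθ (sub_nonneg.2 hθ1), add_sub_cancel,
          ENNReal.rpow_one, ← ENNReal.ofReal_mul (by
            have := mul_nonneg (hr (c + t₁)) (gE_pos N K t₁).le
            positivity)]
    _ = _ := by ring

end Run7.h834
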