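import Pool.Agent.Run7.h834.Intensity

/-! Smoothness of the mean counting function: the derivative. -/

set_option autoImplicit false
open MeasureTheory Matrix Set Filter Topology
open scoped ENNReal

namespace Run7.h834

variable {V : ℝ → ℝ} {K : ℝ}

/-- mean number of eigenvalues below `e` -/
noncomputable def FN (V : ℝ → ℝ) (w N : ℕ) (e : ℝ) : ℝ :=
  ∫ ω, (negIdx (kM w ω e 0 0 N) : ℝ) ∂(Pm (lawV V))

/-- the joint law of the off-diagonal part and of the diagonal -/
noncomputable def PP (V : ℝ → ℝ) (N : ℕ) : Measure (Om × (Fin N → ℝ)) :=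
  (Pm (lawV V)).prod (Measure.pi fun _ : Fin N => lawV V)

/-- the integrand -/
noncomputable def psi (V : ℝ → ℝ) (w N : ℕ) (e : ℝ) (p : Om × (Fin N → ℝ)) : ℝ :=
  (Gd w N p.1 p.2 : ℝ) * ratV V p.2 (p.2 + cv e)

/-- its derivative -/
noncomputable def psi' (V : ℝ → ℝ) (w N : ℕ) (e : ℝ) (p : Om × (Fin N → ℝ)) : ℝ :=
  (Gd w N p.1 p.2 : ℝ) * (ratV V p.2 (p.2 + cv e) * (∑ i, -deriv V (p.2 i + e)))

/-- the density of the mean counting function -/
noncomputable def fN (V : ℝ → ℝ) (w N : ℕ) (e : ℝ) : ℝ := ∫ p, psi' V w N e p ∂(PP V N)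

theorem measurable_negIdx_kM (w N : ℕ) (e : ℝ) (s : ℕ) :
    Measurable fun ω : Om => negIdx (kM w ω e 0 s N) :=
  measurable_negIdx_comp (measurable_kM w measurable_id measurable_const measurable_const s N)

theorem measurable_psi (h : NiceV V K) (w N : ℕ) (e : ℝ) : Measurable (psi V w N e) := by
  unfold psi
  refine Measurable.mul ?_ ?_
  · exact measurable_from_top.comp (measurable_Gd w N measurable_fst measurable_snd)
  · exact measurable_ratV h.meas measurable_snd (measurable_snd.add_const _)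

theorem measurable_psi' (h : NiceV V K) (w N : ℕ) (e : ℝ) : Measurable (psi' V w N e) := by
  unfold psi'
  refine Measurable.mul ?_ (Measurable.mul ?_ ?_)
  · exact measurable_from_top.comp (measurable_Gd w N measurable_fst measurable_snd)
  · exact measurable_ratV h.meas measurable_snd (measurable_snd.add_const _)
  · refine Finset.measurable_sum _ fun i _ => Measurable.neg ?_
    have m0 : Measurable fun p : Om × (Fin N → ℝ) => p.2 i :=
      (measurable_pi_apply i).comp measurable_snd
    exact h.continuous_deriv.measurable.comp (m0.add_const e)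

theorem FN_rep (h : NiceV V K) (w N : ℕ) (e : ℝ) : FN V w N e = ∫ p, psi V w N e p ∂(PP V N) := by
  have := h.prob
  have e1 : ∫⁻ ω, (negIdx (kM w ω e 0 0 N) : ℝ≥0∞) ∂(Pm (lawV V)) =
      ∫⁻ p, ENNReal.ofReal (psi V w N e p) ∂(PP V N) := by
    set Φ : Matrix (Fin N) (Fin N) ℝ → (Fin N → ℝ) → ℝ≥0∞ := fun M v =>
      ((dIdx M (v - cv e) : ℕ) : ℝ≥0∞) with hΦ
    have e2 : ∀ ω : Om, (negIdx (kM w ω e 0 0 N) : ℝ≥0∞) =
        Φ (offM w N ω) (fun i => ω (i, i)) := by
      intro ω
      rw [kM_eq_Gd]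
      rfl
    refine (lintegral_congr e2).trans ((split_diag (μ := lawV V) w N (Φ := Φ) ?_).trans ?_)
    · have h1 : Measurable fun p : Om × (Fin N → ℝ) => p.2 - cv e := measurable_snd.sub_const _
      exact measurable_from_top.comp (measurable_Gd w N measurable_fst h1)
    · unfold PP
      have mo : Measurable fun p : Om × (Fin N → ℝ) => ENNReal.ofReal (psi V w N e p) :=
        ENNReal.measurable_ofReal.comp (measurable_psi h w N e)
      rw [lintegral_prod _ mo.aemeasurable]
      refine lintegral_congr fun ω => ?_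
      have hG : Measurable fun v : Fin N → ℝ => ((Gd w N ω v : ℕ) : ℝ≥0∞) :=
        measurable_from_top.comp (measurable_Gd w N measurable_const measurable_id)
      have h3 := shift_diag h N hG e
      refine h3.trans (lintegral_congr fun v => ?_)
      unfold psi
      rw [ENNReal.ofReal_mul (by positivity), ENNReal.ofReal_natCast]
  unfold FN
  have m1 : Measurable fun ω : Om => (negIdx (kM w ω e 0 0 N) : ℝ) :=
    measurable_from_top.comp (measurable_negIdx_kM w N e 0)
  rw [integral_eq_lintegral_of_nonneg_ae (Eventually.of_forall fun ω => by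
      simp only [Pi.zero_apply]
      positivity)
    m1.aestronglyMeasurable,
    integral_eq_lintegral_of_nonneg_ae (Eventually.of_forall fun p => by
      simp only [Pi.zero_apply, psi]
      exact mul_nonneg (by positivity) (Real.exp_pos _).le)
    (measurable_psi h w N e).aestronglyMeasurable, ← e1]
  congr 1
  refine lintegral_congr fun ω => ?_
  rw [ENNReal.ofReal_natCast]

theorem exp_sum_integrable (h : NiceV V K) (N : ℕ) (c : ℝ) :
    Integrable (fun v : Fin N → ℝ => Real.exp (c * ∑ i, |deriv V (v i)|))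
      (Measure.pi fun _ : Fin N => lawV V) := by
  have := h.prob
  have h1 : Integrable (fun x => Real.exp (c * |deriv V x|)) (lawV V) := by
    have := h.exp_moment c 0
    simpa using this
  have h2 := Integrable.fintype_prod (ι := Fin N) (μ := fun _ => lawV V)
    (f := fun _ x => Real.exp (c * |deriv V x|)) fun _ => h1
  refine h2.congr (Eventually.of_forall fun v => ?_)
  simp only
  rw [← Real.exp_sum, Finset.mul_sum]

theorem Gd_le (w N : ℕ) (ω : Om) (v : Fin N → ℝ) : (Gd w N ω v : ℝ) ≤ N := by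
  have := negIdx_le_card (offM w N ω + Matrix.diagonal v)
  rw [Fintype.card_fin] at this
  exact_mod_cast this

/-- pointwise bounds -/
theorem psi_bounds (h : NiceV V K) (w N : ℕ) {A x : ℝ} (hA : 1 ≤ A) (hx : |x| ≤ A)
    (p : Om × (Fin N → ℝ)) :
    |psi V w N x p| ≤ N * Real.exp (N * K * A ^ 2 + N * K * A) *
      Real.exp ((A + 1) * ∑ i, |deriv V (p.2 i)|) ∧
    |psi' V w N x p| ≤ N * Real.exp (N * K * A ^ 2 + N * K * A) *
      Real.exp ((A + 1) * ∑ i, |deriv V (p.2 i)|) := by
  have hK := h.one_le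
  have hA0 : 0 ≤ A := by linarith
  set S := ∑ i, |deriv V (p.2 i)| with hS
  have hS0 : 0 ≤ S := Finset.sum_nonneg fun i _ => abs_nonneg _
  have hx2 : x ^ 2 ≤ A ^ 2 := by
    rw [← sq_abs x]
    exact pow_le_pow_left₀ (abs_nonneg _) hx 2
  have r1 : ratV V p.2 (p.2 + cv x) ≤ Real.exp (A * S + N * (K * A ^ 2)) := by
    unfold ratV
    refine Real.exp_le_exp.2 ?_
    have : (A * S + N * (K * A ^ 2)) = ∑ i : Fin N, (A * |deriv V (p.2 i)| + K * A ^ 2) := by
      rw [Finset.sum_add_distrib, ← Finset.mul_sum]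
      simp [hS]
    rw [this]
    refine Finset.sum_le_sum fun i _ => ?_
    have h1 := (abs_le.1 (h.taylor (p.2 i) x)).1
    have h2 : -(deriv V (p.2 i) * x) ≤ A * |deriv V (p.2 i)| := by
      calc -(deriv V (p.2 i) * x) ≤ |deriv V (p.2 i) * x| := neg_le_abs _
        _ = |x| * |deriv V (p.2 i)| := by rw [abs_mul, mul_comm]
        _ ≤ A * |deriv V (p.2 i)| := mul_le_mul_of_nonneg_right hx (abs_nonneg _)
    simp only [Pi.add_apply, cv]
    have h3 : K * x ^ 2 / 2 ≤ K * A ^ 2 := by
      have := mul_le_mul_of_nonneg_left hx2 (by linarith : 0 ≤ K)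
      nlinarith [sq_nonneg x]
    linarith
  have r0 : 0 ≤ ratV V p.2 (p.2 + cv x) := (Real.exp_pos _).le
  have g0 : (0 : ℝ) ≤ Gd w N p.1 p.2 := by positivity
  have gN := Gd_le w N p.1 p.2
  have d1 : |∑ i, -deriv V (p.2 i + x)| ≤ Real.exp (S + N * (K * A)) := by
    calc |∑ i, -deriv V (p.2 i + x)| ≤ ∑ i, |-deriv V (p.2 i + x)| :=
          Finset.abs_sum_le_sum_abs _ _
      _ ≤ ∑ i, (|deriv V (p.2 i)| + K * A) := by
          refine Finset.sum_le_sum fun i _ => ?_
          rw [abs_neg]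
          have h1 := h.lip (p.2 i + x) (p.2 i)
          rw [add_sub_cancel_left] at h1
          have h2 : |deriv V (p.2 i + x)| ≤ |deriv V (p.2 i)| +
              |deriv V (p.2 i + x) - deriv V (p.2 i)| := by
            have := abs_add_le (deriv V (p.2 i)) (deriv V (p.2 i + x) - deriv V (p.2 i))
            rwa [add_sub_cancel] at this
          have h3 : K * |x| ≤ K * A := mul_le_mul_of_nonneg_left hx (by linarith)
          linarith
      _ = S + N * (K * A) := by
          rw [Finset.sum_add_distrib]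
          simp [hS]
      _ ≤ Real.exp (S + N * (K * A)) := by
          have := Real.add_one_le_exp (S + N * (K * A))
          linarith
  constructor
  · unfold psi
    rw [abs_mul, abs_of_nonneg g0, abs_of_nonneg r0]
    calc (Gd w N p.1 p.2 : ℝ) * ratV V p.2 (p.2 + cv x)
        ≤ N * Real.exp (A * S + N * (K * A ^ 2)) := mul_le_mul gN r1 r0 (by positivity)
      _ ≤ N * (Real.exp (N * K * A ^ 2 + N * K * A) * Real.exp ((A + 1) * S)) := by
          rw [← Real.exp_add]
          refine mul_le_mul_of_nonneg_left (Real.exp_le_exp.2 ?_) (by positivity)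
          have : 0 ≤ (N : ℝ) * K * A := by positivity
          nlinarith
      _ = _ := by ring
  · unfold psi'
    rw [abs_mul, abs_of_nonneg g0, abs_mul, abs_of_nonneg r0]
    calc (Gd w N p.1 p.2 : ℝ) * (ratV V p.2 (p.2 + cv x) * |∑ i, -deriv V (p.2 i + x)|)
        ≤ N * (Real.exp (A * S + N * (K * A ^ 2)) * Real.exp (S + N * (K * A))) :=
          mul_le_mul gN (mul_le_mul r1 d1 (abs_nonneg _) (Real.exp_pos _).le)
            (mul_nonneg r0 (abs_nonneg _)) (by positivity)
      _ = N * (Real.exp (N * K * A ^ 2 + N * K * A) * Real.exp ((A + 1) * S)) := by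
          rw [← Real.exp_add, ← Real.exp_add]
          congr 2
          ring
      _ = _ := by ring

theorem hasDerivAt_psi (h : NiceV V K) (w N : ℕ) (p : Om × (Fin N → ℝ)) (x : ℝ) :
    HasDerivAt (fun e => psi V w N e p) (psi' V w N x p) x := by
  have h1 : ∀ i : Fin N, HasDerivAt (fun e : ℝ => V (p.2 i) - V ((p.2 + cv e : Fin N → ℝ) i))
      (-deriv V (p.2 i + x)) x := by
    intro i
    have h2 : HasDerivAt (fun e : ℝ => p.2 i + e) 1 x := by
      simpa using (hasDerivAt_id x).const_add (p.2 i)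
    have h3 : HasDerivAt (fun e : ℝ => V (p.2 i + e)) (deriv V (p.2 i + x) * 1) x :=
      (h.diff (p.2 i + x)).hasDerivAt.comp x h2
    have h4 := h3.const_sub (V (p.2 i))
    rw [mul_one] at h4
    exact h4
  have h5 : HasDerivAt (fun e : ℝ => ∑ i, (V (p.2 i) - V ((p.2 + cv e : Fin N → ℝ) i)))
      (∑ i, -deriv V (p.2 i + x)) x := HasDerivAt.fun_sum fun i _ => h1 i
  exact h5.exp.const_mul _

theorem hasDerivAt_FN (h : NiceV V K) (w N : ℕ) (e : ℝ) :
    HasDerivAt (FN V w N) (fN V w N e) e := by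
  have := h.prob
  have e1 : FN V w N = fun e => ∫ p, psi V w N e p ∂(PP V N) := by
    funext e
    exact FN_rep h w N e
  rw [e1]
  set A : ℝ := |e| + 1 with hA
  have hA1 : 1 ≤ A := by
    have := abs_nonneg e
    linarith
  set bound : Om × (Fin N → ℝ) → ℝ := fun p => N * Real.exp (N * K * A ^ 2 + N * K * A) *
      Real.exp ((A + 1) * ∑ i, |deriv V (p.2 i)|) with hbound
  have hb : Integrable bound (PP V N) := by
    have h2 : Integrable (fun p : Om × (Fin N → ℝ) =>
        Real.exp ((A + 1) * ∑ i, |deriv V (p.2 i)|)) (PP V N) := by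
      unfold PP
      exact (exp_sum_integrable h N (A + 1)).comp_snd (Pm (lawV V))
    exact h2.const_mul _
  have hball : ∀ x ∈ Metric.ball e 1, |x| ≤ A := by
    intro x hx
    rw [Metric.mem_ball, Real.dist_eq] at hx
    have := abs_add_le e (x - e)
    rw [add_sub_cancel] at this
    linarith
  refine (hasDerivAt_integral_of_dominated_loc_of_deriv_le (μ := PP V N)
    (F := fun e p => psi V w N e p) (F' := fun e p => psi' V w N e p) (x₀ := e) (bound := bound)
    (Metric.ball_mem_nhds e one_pos) ?_ ?_ ?_ ?_ hb ?_).2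
  · exact Eventually.of_forall fun x => (measurable_psi h w N x).aestronglyMeasurable
  · refine Integrable.mono' hb (measurable_psi h w N e).aestronglyMeasurable
      (Eventually.of_forall fun p => ?_)
    rw [Real.norm_eq_abs]
    exact (psi_bounds h w N hA1 (hball e (Metric.mem_ball_self one_pos)) p).1
  · exact (measurable_psi' h w N e).aestronglyMeasurable
  · refine Eventually.of_forall fun p x hx => ?_
    rw [Real.norm_eq_abs]
    exact (psi_bounds h w N hA1 (hball x hx) p).2
  · exact Eventually.of_forall fun p x _ => hasDerivAt_psi h w N p x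

theorem negIdx_integrable [IsProbabilityMeasure (lawV V)] (w N : ℕ) (e : ℝ) :
    Integrable (fun ω => (negIdx (kM w ω e 0 0 N) : ℝ)) (Pm (lawV V)) := by
  refine Integrable.mono' (integrable_const (N : ℝ))
    (measurable_from_top.comp (measurable_negIdx_kM w N e 0)).aestronglyMeasurable
    (Eventually.of_forall fun ω => ?_)
  rw [Real.norm_of_nonneg (by positivity)]
  have := negIdx_le_card (kM w ω e 0 0 N)
  rw [Fintype.card_fin] at this
  exact_mod_cast this

theorem FN_sub (h : NiceV V K) (w N : ℕ) (e : ℝ) {δ : ℝ} (hδ : 0 ≤ δ) :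
    ENNReal.ofReal (FN V w N (e + δ) - FN V w N e) = Hd V w N δ e := by
  have := h.prob
  unfold FN Hd
  rw [← integral_sub (negIdx_integrable w N _) (negIdx_integrable w N _)]
  have e1 : ∀ ω, (negIdx (kM w ω (e + δ) 0 0 N) : ℝ) - negIdx (kM w ω e 0 0 N) =
      (cN w ω e (e + δ) 0 N : ℝ) := by
    intro ω
    have := cN_cast w ω (e₁ := e) (e₂ := e + δ) (by linarith) 0 N
    exact_mod_cast this.symm
  simp_rw [e1]
  rw [ofReal_integral_eq_lintegral_ofReal]
  · exact lintegral_congr fun ω => ENNReal.ofReal_natCast _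
  · refine Integrable.mono' (integrable_const (N : ℝ))
      (measurable_from_top.comp (measurable_cN w e (e + δ) 0 N)).aestronglyMeasurable
      (Eventually.of_forall fun ω => ?_)
    rw [Real.norm_of_nonneg (by positivity)]
    exact_mod_cast cN_le w ω e (e + δ) 0 N
  · exact Eventually.of_forall fun ω => by
      simp only [Pi.zero_apply]
      positivity

theorem FN_mono (h : NiceV V K) (w N : ℕ) {e e' : ℝ} (he : e ≤ e') :
    FN V w N e ≤ FN V w N e' := by
  have := h.prob
  unfold FN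
  refine integral_mono (negIdx_integrable w N _) (negIdx_integrable w N _) fun ω => ?_
  exact Nat.cast_le.2 (negIdx_kM_mono w ω he 0 0 N)

theorem FN_lip (h : NiceV V K) (w N : ℕ) (e : ℝ) {δ : ℝ} (hδ : 0 ≤ δ) :
    FN V w N (e + δ) - FN V w N e ≤ N * (2 * Real.exp (K / 2) * δ) := by
  have := h.prob
  have h1 := FN_sub h w N e hδ
  have h2 := cN_mean h.bddDens w (e₁ := e) (e₂ := e + δ) (by linarith) 0 N
  rw [add_sub_cancel_left] at h2
  have h3 : Hd V w N δ e ≤ ENNReal.ofReal (N * (2 * Real.exp (K / 2) * δ)) := by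
    rw [ENNReal.ofReal_mul (by positivity), ENNReal.ofReal_natCast]
    exact h2
  rw [← h1] at h3
  exact (ENNReal.ofReal_le_ofReal_iff (by positivity)).1 h3

theorem fN_tendsto (h : NiceV V K) (w N : ℕ) (e : ℝ) :
    Tendsto (fun δ : ℝ => (FN V w N (e + δ) - FN V w N e) / δ) (𝓝[>] 0) (𝓝 (fN V w N e)) := by
  have h1 := (hasDerivAt_FN h w N e).tendsto_slope_zero_right
  refine h1.congr fun δ => ?_
  rw [smul_eq_mul]
  ring

theorem fN_nonneg (h : NiceV V K) (w N : ℕ) (e : ℝ) : 0 ≤ fN V w N e := by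
  refine ge_of_tendsto (fN_tendsto h w N e) ?_
  filter_upwards [self_mem_nhdsWithin] with δ hδ
  have hδ' : (0 : ℝ) < δ := hδ
  have := FN_mono h w N (e := e) (e' := e + δ) (by linarith)
  exact div_nonneg (by linarith) hδ'.le

theorem fN_le (h : NiceV V K) (w N : ℕ) (e : ℝ) :
    fN V w N e ≤ 2 * Real.exp (K / 2) * N := by
  refine le_of_tendsto (fN_tendsto h w N e) ?_
  filter_upwards [self_mem_nhdsWithin] with δ hδ
  have hδ' : (0 : ℝ) < δ := hδ
  rw [div_le_iff₀ hδ']
  have := FN_lip h w N e hδ'.le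
  linarith

/-- log-convexity of the density -/
theorem fN_logconv (h : NiceV V K) (w N : ℕ) (c t₁ t₂ : ℝ) {θ : ℝ} (hθ : 0 < θ) (hθ1 : θ < 1) :
    fN V w N (c + (θ * t₁ + (1 - θ) * t₂)) * gE N K (θ * t₁ + (1 - θ) * t₂) ≤
      (fN V w N (c + t₁) * gE N K t₁) ^ θ * (fN V w N (c + t₂) * gE N K t₂) ^ (1 - θ) := by
  have hθ' : 0 < 1 - θ := by linarith
  have T : ∀ t : ℝ, Tendsto (fun δ : ℝ => (FN V w N (c + t + δ) - FN V w N (c + t)) / δ *
      gE N K t) (𝓝[>] 0) (𝓝 (fN V w N (c + t) * gE N K t)) := fun t =>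
    (fN_tendsto h w N (c + t)).mul_const _
  have T1 := (T t₁).rpow_const (p := θ) (Or.inr hθ.le)
  have T2 := (T t₂).rpow_const (p := 1 - θ) (Or.inr hθ'.le)
  refine le_of_tendsto_of_tendsto (T _) (T1.mul T2) ?_
  filter_upwards [self_mem_nhdsWithin] with δ hδ
  have hδ' : (0 : ℝ) < δ := hδ
  have hH := Hd_logconv h w N δ c t₁ t₂ θ hθ.le hθ1.le
  rw [← FN_sub h w N _ hδ'.le, ← FN_sub h w N _ hδ'.le, ← FN_sub h w N _ hδ'.le] at hH
  have nn : ∀ e, 0 ≤ FN V w N (e + δ) - FN V w N e := fun e => by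
    have := FN_mono h w N (e := e) (e' := e + δ) (by linarith)
    linarith
  have gp : ∀ t, 0 ≤ gE N K t := fun t => (gE_pos N K t).le
  rw [← ENNReal.ofReal_mul (nn _), ← ENNReal.ofReal_mul (nn _), ← ENNReal.ofReal_mul (nn _),
    ENNReal.ofReal_rpow_of_nonneg (mul_nonneg (nn _) (gp _)) hθ.le,
    ENNReal.ofReal_rpow_of_nonneg (mul_nonneg (nn _) (gp _)) hθ'.le,
    ← ENNReal.ofReal_mul (Real.rpow_nonneg (mul_nonneg (nn _) (gp _)) _)] at hH
  have hH2 := (ENNReal.ofReal_le_ofReal_iff (mul_nonneg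
    (Real.rpow_nonneg (mul_nonneg (nn _) (gp _)) _)
    (Real.rpow_nonneg (mul_nonneg (nn _) (gp _)) _))).1 hH
  set x := FN V w N (c + t₁ + δ) - FN V w N (c + t₁)
  set y := FN V w N (c + t₂ + δ) - FN V w N (c + t₂)
  have hx : 0 ≤ x := nn _
  have hy : 0 ≤ y := nn _
  have e1 : (x / δ * gE N K t₁) ^ θ * (y / δ * gE N K t₂) ^ (1 - θ) =
      ((x * gE N K t₁) ^ θ * (y * gE N K t₂) ^ (1 - θ)) / δ := by
    have a1 : x / δ * gE N K t₁ = (x * gE N K t₁) / δ := by ring
    have a2 : y / δ * gE N K t₂ = (y * gE N K t₂) / δ := by ring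
    rw [a1, a2, Real.div_rpow (mul_nonneg hx (gp _)) hδ'.le,
      Real.div_rpow (mul_nonneg hy (gp _)) hδ'.le, div_mul_div_comm, ← Real.rpow_add hδ',
      add_sub_cancel, Real.rpow_one]
  rw [e1]
  have e2 : ∀ X G : ℝ, X / δ * G = (X * G) / δ := fun X G => by ring
  rw [e2]
  exact div_le_div_of_nonneg_right hH2 hδ'.le

end Run7.h834
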