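import Pool.Agent.Run7.h834.Intensity2

/-! Ratio bounds for the density of the mean counting function. -/

set_option autoImplicit false
open MeasureTheory Matrix Set Filter Topology
open scoped ENNReal

namespace Run7.h834

variable {V : ℝ → ℝ} {K : ℝ}

/-- convexity of the tilted density -/
theorem fN_convex (h : NiceV V K) (w N : ℕ) :
    ConvexOn ℝ Set.univ fun t => fN V w N t * gE N K t := by
  refine ⟨convex_univ, ?_⟩
  intro x _ y _ a b ha hb hab
  simp only [smul_eq_mul]
  have nn : ∀ t, 0 ≤ fN V w N t * gE N K t := fun t =>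
    mul_nonneg (fN_nonneg h w N t) (gE_pos N K t).le
  rcases ha.eq_or_lt with rfl | ha
  · have hb1 : b = 1 := by linarith
    subst hb1
    simp
  rcases hb.eq_or_lt with rfl | hb
  · have ha1 : a = 1 := by linarith
    subst ha1
    simp
  have h1 := fN_logconv h w N 0 x y ha (by linarith : a < 1)
  have hb' : 1 - a = b := by linarith
  rw [hb'] at h1
  simp only [zero_add] at h1
  refine h1.trans ?_
  exact Real.geom_mean_le_arith_mean2_weighted ha.le hb.le (nn x) (nn y) hab

theorem fN_continuous (h : NiceV V K) (w N : ℕ) : Continuous (fN V w N) := by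
  have h1 : Continuous fun t => fN V w N t * gE N K t :=
    continuousOn_univ.1 ((fN_convex h w N).continuousOn isOpen_univ)
  have h2 : Continuous fun t => gE N K t := by
    unfold gE
    fun_prop
  have h3 : fN V w N = fun t => (fN V w N t * gE N K t) / gE N K t := by
    funext t
    rw [mul_div_cancel_right₀ _ (gE_pos N K t).ne']
  rw [h3]
  exact h1.div h2 fun t => (gE_pos N K t).ne'

theorem gE_one_le (N : ℕ) {K : ℝ} (hK : 1 ≤ K) (t : ℝ) : 1 ≤ gE N K t := by
  unfold gE
  refine Real.one_le_exp ?_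
  have : 0 ≤ K := by linarith
  positivity

theorem gE_abs (N : ℕ) (K : ℝ) {s t : ℝ} (h : |s| = |t|) : gE N K s = gE N K t := by
  unfold gE
  rw [← sq_abs s, h, sq_abs]

/-- upper ratio bound -/
theorem fN_up (h : NiceV V K) (w N : ℕ) {c T t : ℝ} (hc : 0 < fN V w N c) (hT : 0 < T)
    (ht : |t| ≤ T) :
    fN V w N (c + t) ≤ fN V w N c *
      (2 * Real.exp (K / 2) * N * gE N K T / fN V w N c) ^ (|t| / T) := by
  have hK := h.one_le
  set M : ℝ := 2 * Real.exp (K / 2) * N with hM
  set X : ℝ := M * gE N K T / fN V w N c with hX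
  have g1 := gE_one_le N hK T
  have M0 : 0 < M := hc.trans_le (fN_le h w N c)
  have X1 : 1 ≤ X := by
    rw [hX, le_div_iff₀ hc, one_mul]
    calc fN V w N c ≤ M := fN_le h w N c
      _ = M * 1 := (mul_one _).symm
      _ ≤ M * gE N K T := mul_le_mul_of_nonneg_left g1 M0.le
  have X0 : 0 < X := by linarith
  have key : ∀ s : ℝ, |s| = T → ∀ θ : ℝ, 0 < θ → θ < 1 →
      fN V w N (c + θ * s) ≤ fN V w N c * X ^ θ := by
    intro s hs θ hθ hθ1
    have h1 := fN_logconv h w N c s 0 hθ hθ1
    have e0 : gE N K 0 = 1 := by simp [gE]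
    rw [mul_zero, add_zero, add_zero, e0, mul_one] at h1
    have g2 := gE_one_le N hK (θ * s)
    have g3 : gE N K s = gE N K T := gE_abs N K (by rw [hs, abs_of_pos hT])
    calc fN V w N (c + θ * s) ≤ fN V w N (c + θ * s) * gE N K (θ * s) :=
          le_mul_of_one_le_right (fN_nonneg h w N _) g2
      _ ≤ (fN V w N (c + s) * gE N K s) ^ θ * fN V w N c ^ (1 - θ) := h1
      _ ≤ (M * gE N K T) ^ θ * fN V w N c ^ (1 - θ) := by
          rw [g3]
          refine mul_le_mul_of_nonneg_right (Real.rpow_le_rpow ?_ ?_ hθ.le)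
            (Real.rpow_nonneg hc.le _)
          · exact mul_nonneg (fN_nonneg h w N _) (by linarith)
          · exact mul_le_mul_of_nonneg_right (fN_le h w N _) (by linarith)
      _ = fN V w N c * X ^ θ := by
          rw [hX, Real.div_rpow (by positivity) hc.le, Real.rpow_sub hc, Real.rpow_one]
          have : 0 < fN V w N c ^ θ := Real.rpow_pos_of_pos hc θ
          field_simp
  rcases eq_or_ne t 0 with rfl | ht0
  · simp
  rcases ht.eq_or_lt with hT' | hlt
  · rw [hT', div_self hT.ne', Real.rpow_one, hX, mul_div_cancel₀ _ hc.ne']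
    calc fN V w N (c + t) ≤ M := fN_le h w N _
      _ = M * 1 := (mul_one _).symm
      _ ≤ M * gE N K T := mul_le_mul_of_nonneg_left g1 M0.le
  · have ha : 0 < |t| := abs_pos.2 ht0
    have k := key (t * T / |t|) (by
      rw [abs_div, abs_mul, abs_abs, abs_of_pos hT]
      field_simp) (|t| / T) (by positivity) ((div_lt_one hT).2 hlt)
    have e1 : |t| / T * (t * T / |t|) = t := by
      field_simp
    rw [e1] at k
    exact k

/-- lower ratio bound -/
theorem fN_down (h : NiceV V K) (w N : ℕ) {c T t : ℝ} (hc : 0 < fN V w N c) (hT : 0 < T)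
    (ht : |t| ≤ T) :
    fN V w N c ≤ fN V w N (c + t) * gE N K t *
      (2 * Real.exp (K / 2) * N * gE N K T / fN V w N c) ^ (|t| / T) := by
  have hK := h.one_le
  set M : ℝ := 2 * Real.exp (K / 2) * N with hM
  set X : ℝ := M * gE N K T / fN V w N c with hX
  have g1 := gE_one_le N hK T
  have M0 : 0 < M := hc.trans_le (fN_le h w N c)
  rcases eq_or_ne t 0 with rfl | ht0
  · simp [gE]
  have ha : 0 < |t| := abs_pos.2 ht0
  set s : ℝ := -(t * T / |t|) with hs
  have hsT : |s| = T := by
    rw [hs, abs_neg, abs_div, abs_mul, abs_abs, abs_of_pos hT]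
    field_simp
  set θ : ℝ := T / (T + |t|) with hθ
  have hθ0 : 0 < θ := by positivity
  have hθ1 : θ < 1 := by
    rw [hθ, div_lt_one (by positivity)]
    linarith
  have e1 : θ * t + (1 - θ) * s = 0 := by
    rw [hθ, hs]
    have h2 : 1 - T / (T + |t|) = |t| / (T + |t|) := by
      field_simp
      ring
    rw [h2]
    field_simp
    ring
  have h1 := fN_logconv h w N c t s hθ0 hθ1
  have e0 : gE N K 0 = 1 := by simp [gE]
  rw [e1, e0, add_zero, mul_one] at h1
  have g3 : gE N K s = gE N K T := gE_abs N K (by rw [hsT, abs_of_pos hT])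
  set y : ℝ := fN V w N (c + t) * gE N K t with hy
  have hy0 : 0 ≤ y := mul_nonneg (fN_nonneg h w N _) (gE_pos _ _ _).le
  have h2 : fN V w N c ≤ y ^ θ * (M * gE N K T) ^ (1 - θ) := by
    refine h1.trans (mul_le_mul_of_nonneg_left ?_ (Real.rpow_nonneg hy0 _))
    rw [g3]
    refine Real.rpow_le_rpow ?_ ?_ (by linarith)
    · exact mul_nonneg (fN_nonneg h w N _) (by linarith)
    · exact mul_le_mul_of_nonneg_right (fN_le h w N _) (by linarith)
  -- raise to the power 1/θ = 1 + |t|/T
  have h3 : fN V w N c ^ (1 / θ) ≤ y * (M * gE N K T) ^ (|t| / T) := by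
    have := Real.rpow_le_rpow hc.le h2 (by positivity : 0 ≤ 1 / θ)
    rw [Real.mul_rpow (Real.rpow_nonneg hy0 _) (Real.rpow_nonneg (by positivity) _),
      ← Real.rpow_mul hy0, ← Real.rpow_mul (by positivity), mul_one_div_cancel hθ0.ne',
      Real.rpow_one] at this
    have e3 : (1 - θ) * (1 / θ) = |t| / T := by
      rw [hθ]
      field_simp
      ring
    rwa [e3] at this
  have e4 : 1 / θ = 1 + |t| / T := by
    rw [hθ]
    field_simp
  rw [e4, Real.rpow_add hc, Real.rpow_one] at h3
  rw [hX, Real.div_rpow (by positivity) hc.le, mul_div_assoc', le_div_iff₀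
    (Real.rpow_pos_of_pos hc _)]
  exact h3

end Run7.h834
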