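import Pool.Agent.Run7.h834.Neg3

set_option autoImplicit false

open Matrix Module MeasureTheory Topology Filter
open scoped ENNReal

namespace Run7.h834

variable {ι κ : Type*} [Fintype ι] [Fintype κ]

theorem isOpen_le_negIdx (k : ℕ) : IsOpen {K : Matrix ι ι ℝ | k ≤ negIdx K} := by
  rw [isOpen_iff_mem_nhds]
  intro K hK
  obtain ⟨V, hV, hn⟩ := exists_negIdx K
  set S : Set (ι → ℝ) := (V : Set (ι → ℝ)) ∩ Metric.sphere 0 1 with hS
  have hScomp : IsCompact S := (isCompact_sphere 0 1).inter_left V.closed_of_finiteDimensional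
  have hcont : Continuous fun p : Matrix ι ι ℝ × (ι → ℝ) => p.2 ⬝ᵥ (p.1 *ᵥ p.2) := by
    unfold dotProduct Matrix.mulVec dotProduct
    fun_prop
  have h1 : ∀ x ∈ S, ∀ᶠ p : Matrix ι ι ℝ × (ι → ℝ) in 𝓝 (K, x), p.2 ⬝ᵥ (p.1 *ᵥ p.2) < 0 := by
    intro x hx
    have hx0 : x ≠ 0 := by
      rintro rfl
      have := hx.2
      simp at this
    exact hcont.continuousAt.eventually_lt continuousAt_const (hn x hx.1 hx0)
  have h2 := hScomp.eventually_forall_of_forall_eventually (x₀ := K)
    (P := fun K' x => x ⬝ᵥ (K' *ᵥ x) < 0) (fun x hx => h1 x hx)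
  refine mem_of_superset h2 fun K' hK' => ?_
  have h3 : NegOn K' V := by
    intro x hx h0
    have hnx : 0 < ‖x‖ := norm_pos_iff.2 h0
    have h4 := hK' (‖x‖⁻¹ • x) ⟨V.smul_mem _ hx, by
      rw [mem_sphere_zero_iff_norm, norm_smul, norm_inv, norm_norm, inv_mul_cancel₀ hnx.ne']⟩
    rw [Matrix.mulVec_smul, smul_dotProduct, dotProduct_smul, smul_eq_mul, smul_eq_mul] at h4
    have h5 : 0 < ‖x‖⁻¹ := inv_pos.2 hnx
    by_contra h6
    push Not at h6
    have := mul_nonneg h5.le (mul_nonneg h5.le h6)
    linarith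
  have h4 : k ≤ negIdx K := hK
  have h5 : negIdx K ≤ negIdx K' := by
    rw [← hV]
    exact le_negIdx h3
  exact le_trans h4 h5

theorem measurable_negIdx : Measurable fun K : ι → ι → ℝ => negIdx (Matrix.of K) := by
  refine measurable_of_Ici fun k => ?_
  have h : IsOpen {K : ι → ι → ℝ | k ≤ negIdx (Matrix.of K)} := isOpen_le_negIdx (ι := ι) k
  exact h.measurableSet

theorem measurable_negIdx_comp {α : Type*} [MeasurableSpace α] {f : α → Matrix ι ι ℝ}
    (hf : ∀ i j, Measurable fun a => f a i j) : Measurable fun a => negIdx (f a) :=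
  measurable_negIdx.comp (f := fun a => (f a : ι → ι → ℝ))
    (measurable_pi_iff.2 fun i => measurable_pi_iff.2 fun j => hf i j)

theorem measurable_update_prod [DecidableEq ι] (k : ι) :
    Measurable fun p : (ι → ℝ) × ℝ => Function.update p.1 k p.2 := by
  refine measurable_pi_iff.2 fun i => ?_
  by_cases h : i = k
  · subst h
    simpa using measurable_snd
  · simp only [Function.update_of_ne h]
    exact (measurable_pi_apply i).comp measurable_fst

/-- resampling one coordinate -/
theorem map_update_pi [DecidableEq ι] (μ : Measure ℝ) [IsProbabilityMeasure μ] (k : ι) :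
    ((Measure.pi fun _ : ι => μ).prod μ).map (fun p : (ι → ℝ) × ℝ => Function.update p.1 k p.2) =
      Measure.pi fun _ : ι => μ := by
  symm
  refine Measure.pi_eq fun s hs => ?_
  have hm := measurable_update_prod (ι := ι) k
  rw [Measure.map_apply hm (MeasurableSet.univ_pi hs)]
  have h1 : (fun p : (ι → ℝ) × ℝ => Function.update p.1 k p.2) ⁻¹' Set.univ.pi s =
      (Set.univ.pi (Function.update s k Set.univ)) ×ˢ (s k) := by
    ext ⟨x, y⟩
    simp only [Set.mem_preimage, Set.mem_pi, Set.mem_univ, true_implies, Set.mem_prod]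
    constructor
    · intro h
      refine ⟨fun i => ?_, by simpa using h k⟩
      by_cases hi : i = k
      · subst hi
        simp
      · simpa [Function.update_of_ne hi] using h i
    · rintro ⟨h, h'⟩ i
      by_cases hi : i = k
      · subst hi
        simpa using h'
      · simpa [Function.update_of_ne hi] using h i
  rw [h1, Measure.prod_prod, Measure.pi_pi]
  rw [← Finset.mul_prod_erase Finset.univ (fun i => μ (Function.update s k Set.univ i))
    (Finset.mem_univ k), ← Finset.mul_prod_erase Finset.univ (fun i => μ (s i)) (Finset.mem_univ k)]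
  rw [Function.update_self, measure_univ, one_mul, mul_comm]
  congr 1
  refine Finset.prod_congr rfl fun i hi => ?_
  rw [Function.update_of_ne (Finset.ne_of_mem_erase hi)]

theorem lintegral_resample [DecidableEq ι] (μ : Measure ℝ) [IsProbabilityMeasure μ] (k : ι)
    {F : (ι → ℝ) → ℝ≥0∞} (hF : Measurable F) :
    ∫⁻ x, ∫⁻ y, F (Function.update x k y) ∂μ ∂(Measure.pi fun _ : ι => μ) =
      ∫⁻ x, F x ∂(Measure.pi fun _ : ι => μ) := by
  conv_rhs => rw [← map_update_pi μ k]
  rw [lintegral_map hF (measurable_update_prod k)]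
  exact (lintegral_prod _ (hF.comp (measurable_update_prod k)).aemeasurable).symm

end Run7.h834
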