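import Mathlib

/-!
# The number of negative directions of a real quadratic form
-/

set_option autoImplicit false

open Matrix Module

namespace Run7.h834

variable {ι κ : Type*} [Fintype ι] [Fintype κ]

/-- `K` is negative definite on `V` -/
def NegOn (K : Matrix ι ι ℝ) (V : Submodule ℝ (ι → ℝ)) : Prop :=
  ∀ x ∈ V, x ≠ 0 → x ⬝ᵥ (K *ᵥ x) < 0

/-- the largest dimension of a subspace on which `K` is negative definite -/
noncomputable def negIdx (K : Matrix ι ι ℝ) : ℕ :=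
  sSup {k | ∃ V : Submodule ℝ (ι → ℝ), finrank ℝ V = k ∧ NegOn K V}

theorem negSet_bdd (K : Matrix ι ι ℝ) :
    BddAbove {k | ∃ V : Submodule ℝ (ι → ℝ), finrank ℝ V = k ∧ NegOn K V} := by
  refine ⟨Fintype.card ι, ?_⟩
  rintro k ⟨V, rfl, -⟩
  have := Submodule.finrank_le V
  rwa [finrank_fintype_fun_eq_card] at this

theorem negSet_nonempty (K : Matrix ι ι ℝ) :
    {k | ∃ V : Submodule ℝ (ι → ℝ), finrank ℝ V = k ∧ NegOn K V}.Nonempty := by
  refine ⟨0, ⊥, by simp, ?_⟩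
  intro x hx h0
  exact absurd ((Submodule.mem_bot ℝ).1 hx) h0

theorem le_negIdx {K : Matrix ι ι ℝ} {V : Submodule ℝ (ι → ℝ)} (h : NegOn K V) :
    finrank ℝ V ≤ negIdx K :=
  le_csSup (negSet_bdd K) ⟨V, rfl, h⟩

theorem exists_negIdx (K : Matrix ι ι ℝ) :
    ∃ V : Submodule ℝ (ι → ℝ), finrank ℝ V = negIdx K ∧ NegOn K V :=
  Nat.sSup_mem (negSet_nonempty K) (negSet_bdd K)

theorem negIdx_add_le {K : Matrix ι ι ℝ} {U : Submodule ℝ (ι → ℝ)}
    (h : ∀ x ∈ U, 0 ≤ x ⬝ᵥ (K *ᵥ x)) : negIdx K + finrank ℝ U ≤ Fintype.card ι := by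
  obtain ⟨V, hV, hn⟩ := exists_negIdx K
  rw [← hV]
  have hd : Disjoint V U := by
    rw [Submodule.disjoint_def]
    intro x hx hx'
    by_contra h0
    exact absurd (hn x hx h0) (not_lt.2 (h x hx'))
  have := Submodule.finrank_add_finrank_le_of_disjoint hd
  rwa [finrank_fintype_fun_eq_card] at this

theorem negIdx_le_card (K : Matrix ι ι ℝ) : negIdx K ≤ Fintype.card ι := by
  have := negIdx_add_le (K := K) (U := ⊥) (by
    intro x hx
    rw [(Submodule.mem_bot ℝ).1 hx]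
    simp)
  omega

theorem negIdx_mono {K K' : Matrix ι ι ℝ} (h : ∀ x, x ⬝ᵥ (K' *ᵥ x) ≤ x ⬝ᵥ (K *ᵥ x)) :
    negIdx K ≤ negIdx K' := by
  obtain ⟨V, hV, hn⟩ := exists_negIdx K
  rw [← hV]
  exact le_negIdx fun x hx h0 => lt_of_le_of_lt (h x) (hn x hx h0)

/-- pulling a form back by an injective linear map -/
theorem negIdx_comp_le {K : Matrix ι ι ℝ} {K' : Matrix κ κ ℝ} (f : (ι → ℝ) →ₗ[ℝ] (κ → ℝ))
    (hf : Function.Injective f) (h : ∀ x, (f x) ⬝ᵥ (K' *ᵥ (f x)) ≤ x ⬝ᵥ (K *ᵥ x)) :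
    negIdx K ≤ negIdx K' := by
  obtain ⟨V, hV, hn⟩ := exists_negIdx K
  rw [← hV]
  have h1 : finrank ℝ (V.map f) = finrank ℝ V :=
    (Submodule.equivMapOfInjective f hf V).finrank_eq.symm
  rw [← h1]
  refine le_negIdx ?_
  intro y hy h0
  obtain ⟨x, hx, rfl⟩ := Submodule.mem_map.1 hy
  have hx0 : x ≠ 0 := by
    rintro rfl
    exact h0 (map_zero f)
  exact lt_of_le_of_lt (h x) (hn x hx hx0)

theorem negIdx_congr (K : Matrix ι ι ℝ) (f : (κ → ℝ) ≃ₗ[ℝ] (ι → ℝ)) (K' : Matrix κ κ ℝ)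
    (h : ∀ x, x ⬝ᵥ (K' *ᵥ x) = (f x) ⬝ᵥ (K *ᵥ (f x))) : negIdx K' = negIdx K := by
  apply le_antisymm
  · exact negIdx_comp_le f.toLinearMap f.injective fun x => by
      simpa using (h x).ge
  · refine negIdx_comp_le f.symm.toLinearMap f.symm.injective fun x => ?_
    have := h (f.symm x)
    simp only [LinearEquiv.apply_symm_apply] at this
    exact this.le

theorem negIdx_reindex (K : Matrix ι ι ℝ) (e : ι ≃ κ) :
    negIdx (K.submatrix e.symm e.symm) = negIdx K := by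
  refine negIdx_congr K (LinearEquiv.funCongrLeft ℝ ℝ e) _ fun x => ?_
  rw [Matrix.submatrix_mulVec_equiv]
  simp only [dotProduct, LinearEquiv.funCongrLeft_apply, LinearMap.funLeft_apply,
    Function.comp_apply, Equiv.symm_symm]
  rw [← Equiv.sum_comp e]
  simp [LinearMap.funLeft, Function.comp_def]

end Run7.h834
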