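import Pool.Agent.Run7.h834.Neg

set_option autoImplicit false

open Matrix Module

namespace Run7.h834

variable {ι κ : Type*} [Fintype ι] [Fintype κ]

/-- extension by zero from a set of coordinates -/
noncomputable def extZ (p : ι → Prop) [DecidablePred p] : ({i // p i} → ℝ) →ₗ[ℝ] (ι → ℝ) where
  toFun x i := if h : p i then x ⟨i, h⟩ else 0
  map_add' x y := by
    funext i
    by_cases h : p i <;> simp [h]
  map_smul' c x := by
    funext i
    by_cases h : p i <;> simp [h]

omit [Fintype ι] in
theorem extZ_neg (p : ι → Prop) [DecidablePred p] (x : {i // p i} → ℝ) {i : ι} (h : ¬ p i) :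
    extZ p x i = 0 := by
  simp [extZ, h]

omit [Fintype ι] in
theorem extZ_inj (p : ι → Prop) [DecidablePred p] : Function.Injective (extZ p) := by
  intro x y h
  funext ⟨i, hi⟩
  have := congrFun h i
  simpa [extZ, hi] using this

theorem negIdx_diagonal [DecidableEq ι] (d : ι → ℝ) :
    negIdx (Matrix.diagonal d) = (Finset.univ.filter fun i => d i < 0).card := by
  classical
  have hq : ∀ x : ι → ℝ, x ⬝ᵥ (Matrix.diagonal d *ᵥ x) = ∑ i, d i * x i ^ 2 := by
    intro x
    simp only [dotProduct, Matrix.mulVec_diagonal]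
    exact Finset.sum_congr rfl fun i _ => by ring
  apply le_antisymm
  · have h1 := negIdx_add_le (K := Matrix.diagonal d)
      (U := LinearMap.range (extZ fun i => ¬ d i < 0)) (by
        rintro x ⟨y, rfl⟩
        rw [hq]
        refine Finset.sum_nonneg fun i _ => ?_
        by_cases h : d i < 0
        · rw [extZ_neg (fun i => ¬ d i < 0) y (i := i) (not_not.2 h)]
          simp
        · exact mul_nonneg (not_lt.1 h) (sq_nonneg _))
    rw [LinearMap.finrank_range_of_inj (extZ_inj _), finrank_fintype_fun_eq_card,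
      Fintype.card_subtype] at h1
    have h2 := Finset.card_filter_add_card_filter_not (s := (Finset.univ : Finset ι))
      (fun i => d i < 0)
    rw [Finset.card_univ] at h2
    omega
  · have h1 := le_negIdx (K := Matrix.diagonal d)
      (V := LinearMap.range (extZ fun i => d i < 0)) (by
        rintro x ⟨y, rfl⟩ h0
        rw [hq]
        have hne : ∃ i, extZ (fun i => d i < 0) y i ≠ 0 := by
          by_contra hc
          push Not at hc
          exact h0 (funext hc)
        obtain ⟨i, hi⟩ := hne
        have hdi : d i < 0 := by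
          by_contra hc
          exact hi (by simp [extZ, hc])
        refine Finset.sum_neg' (fun j _ => ?_) ⟨i, Finset.mem_univ _, ?_⟩
        · by_cases h : d j < 0
          · exact mul_nonpos_of_nonpos_of_nonneg h.le (sq_nonneg _)
          · simp [extZ, h]
        · exact mul_neg_of_neg_of_pos hdi (by positivity))
    rw [LinearMap.finrank_range_of_inj (extZ_inj _), finrank_fintype_fun_eq_card,
      Fintype.card_subtype] at h1
    exact h1

/-- congruence by an invertible matrix -/
theorem negIdx_conj [DecidableEq ι] (K P : Matrix ι ι ℝ) (hP : IsUnit P) :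
    negIdx (Pᵀ * K * P) = negIdx K := by
  obtain ⟨u, rfl⟩ := hP
  have : Invertible (u : Matrix ι ι ℝ) := u.invertible
  refine negIdx_congr K (Matrix.toLinearEquiv' (u : Matrix ι ι ℝ) this) _ fun x => ?_
  have h1 : (Matrix.toLinearEquiv' (u : Matrix ι ι ℝ) this) x = (u : Matrix ι ι ℝ) *ᵥ x := rfl
  rw [h1, ← Matrix.mulVec_mulVec, ← Matrix.mulVec_mulVec, Matrix.dotProduct_mulVec,
    Matrix.vecMul_transpose]

theorem negIdx_eq_card_neg [DecidableEq ι] {K : Matrix ι ι ℝ} (hK : K.IsHermitian) :
    negIdx K = (Finset.univ.filter fun i => hK.eigenvalues i < 0).card := by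
  have h1 := hK.spectral_theorem
  rw [Unitary.conjStarAlgAut_apply] at h1
  have h2 : (RCLike.ofReal ∘ hK.eigenvalues : ι → ℝ) = hK.eigenvalues := by
    funext i
    simp
  rw [h2] at h1
  set U : Matrix ι ι ℝ := (hK.eigenvectorUnitary : Matrix ι ι ℝ) with hU
  have h3 : K = (star U)ᵀ * Matrix.diagonal hK.eigenvalues * star U := by
    conv_lhs => rw [h1]
    rw [Matrix.star_eq_conjTranspose, Matrix.conjTranspose_eq_transpose_of_trivial,
      Matrix.transpose_transpose]
  have h4 : IsUnit (star U) := by
    have h5 : star U = ((star hK.eigenvectorUnitary : Matrix.unitaryGroup ι ℝ) : Matrix ι ι ℝ) :=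
      rfl
    rw [h5]
    exact (Unitary.toUnits (star hK.eigenvectorUnitary)).isUnit
  have h6 := negIdx_conj (Matrix.diagonal hK.eigenvalues) (star U) h4
  rw [← h3] at h6
  rw [h6, negIdx_diagonal]

/-- a nonnegative subspace of complementary dimension -/
theorem exists_nonneg [DecidableEq ι] {K : Matrix ι ι ℝ} (hK : K.IsHermitian) :
    ∃ U : Submodule ℝ (ι → ℝ), finrank ℝ U + negIdx K = Fintype.card ι ∧
      ∀ x ∈ U, 0 ≤ x ⬝ᵥ (K *ᵥ x) := by
  classical
  have h1 := hK.spectral_theorem
  rw [Unitary.conjStarAlgAut_apply] at h1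
  have h2 : (RCLike.ofReal ∘ hK.eigenvalues : ι → ℝ) = hK.eigenvalues := by
    funext i
    simp
  rw [h2] at h1
  set U : Matrix ι ι ℝ := (hK.eigenvectorUnitary : Matrix ι ι ℝ) with hU
  set u := Unitary.toUnits hK.eigenvectorUnitary with hu
  have hinv : Invertible (u : Matrix ι ι ℝ) := u.invertible
  set f := Matrix.toLinearEquiv' (u : Matrix ι ι ℝ) hinv with hf
  have hfx : ∀ x, f x = U *ᵥ x := fun x => rfl
  refine ⟨(LinearMap.range (extZ fun i => ¬ hK.eigenvalues i < 0)).map f.toLinearMap, ?_, ?_⟩
  · have h3 : finrank ℝ ((LinearMap.range (extZ fun i => ¬ hK.eigenvalues i < 0)).map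
        f.toLinearMap) = finrank ℝ (LinearMap.range (extZ fun i => ¬ hK.eigenvalues i < 0)) :=
      (Submodule.equivMapOfInjective f.toLinearMap f.injective _).finrank_eq.symm
    rw [h3, LinearMap.finrank_range_of_inj (extZ_inj _), finrank_fintype_fun_eq_card,
      Fintype.card_subtype, negIdx_eq_card_neg hK]
    have h4 := Finset.card_filter_add_card_filter_not (s := (Finset.univ : Finset ι))
      (fun i => hK.eigenvalues i < 0)
    rw [Finset.card_univ] at h4
    omega
  · rintro x hx
    obtain ⟨y, ⟨z, rfl⟩, rfl⟩ := Submodule.mem_map.1 hx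
    set y := extZ (fun i => ¬ hK.eigenvalues i < 0) z with hy
    have h5 : f.toLinearMap y = U *ᵥ y := hfx y
    rw [h5]
    have h6 : (U *ᵥ y) ⬝ᵥ (K *ᵥ (U *ᵥ y)) = ∑ i, hK.eigenvalues i * y i ^ 2 := by
      have hUU : star U * U = 1 := by
        have := Unitary.star_mul_self_of_mem hK.eigenvectorUnitary.2
        exact this
      have hst : star U = Uᵀ := by
        rw [Matrix.star_eq_conjTranspose, Matrix.conjTranspose_eq_transpose_of_trivial]
      have h7 : Uᵀ * (K * U) = Matrix.diagonal hK.eigenvalues := by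
        rw [← hst]
        calc star U * (K * U) = star U * ((U * Matrix.diagonal hK.eigenvalues * star U) * U) := by
              rw [← h1]
          _ = (star U * U) * Matrix.diagonal hK.eigenvalues * (star U * U) := by
              simp only [Matrix.mul_assoc]
          _ = _ := by rw [hUU]; simp
      rw [Matrix.mulVec_mulVec, ← Matrix.vecMul_transpose, ← Matrix.dotProduct_mulVec,
        Matrix.mulVec_mulVec, h7]
      simp only [dotProduct, Matrix.mulVec_diagonal]
      exact Finset.sum_congr rfl fun i _ => by ring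
    rw [h6]
    refine Finset.sum_nonneg fun i _ => ?_
    by_cases h : hK.eigenvalues i < 0
    · rw [hy, extZ_neg (fun i => ¬ hK.eigenvalues i < 0) z (i := i) (not_not.2 h)]
      simp
    · exact mul_nonneg (not_lt.1 h) (sq_nonneg _)

/-- product of submodules -/
def prodEq (V : Submodule ℝ (ι → ℝ)) (V' : Submodule ℝ (κ → ℝ)) : (V.prod V') ≃ₗ[ℝ] V × V' where
  toFun x := (⟨x.1.1, x.2.1⟩, ⟨x.1.2, x.2.2⟩)
  invFun y := ⟨(y.1.1, y.2.1), ⟨y.1.2, y.2.2⟩⟩
  map_add' _ _ := rfl
  map_smul' _ _ := rfl
  left_inv _ := rfl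
  right_inv _ := rfl

/-- the index of a direct sum -/
theorem negIdx_fromBlocks_diag [DecidableEq ι] [DecidableEq κ] {A : Matrix ι ι ℝ}
    {D : Matrix κ κ ℝ} (hA : A.IsHermitian) (hD : D.IsHermitian) :
    negIdx (Matrix.fromBlocks A 0 0 D) = negIdx A + negIdx D := by
  classical
  set e := LinearEquiv.sumArrowLequivProdArrow ι κ ℝ ℝ with he
  have hq : ∀ x : ι ⊕ κ → ℝ, x ⬝ᵥ (Matrix.fromBlocks A 0 0 D *ᵥ x) =
      (e x).1 ⬝ᵥ (A *ᵥ (e x).1) + (e x).2 ⬝ᵥ (D *ᵥ (e x).2) := by
    intro x
    rw [Matrix.fromBlocks_mulVec]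
    simp only [Matrix.zero_mulVec, add_zero, zero_add, dotProduct, Fintype.sum_sum_type,
      Sum.elim_inl, Sum.elim_inr]
    rfl
  have key : ∀ (V : Submodule ℝ (ι → ℝ)) (V' : Submodule ℝ (κ → ℝ)),
      finrank ℝ ((V.prod V').map e.symm.toLinearMap) = finrank ℝ V + finrank ℝ V' := by
    intro V V'
    have h3 : finrank ℝ ((V.prod V').map e.symm.toLinearMap) = finrank ℝ (V.prod V') :=
      (Submodule.equivMapOfInjective e.symm.toLinearMap e.symm.injective _).finrank_eq.symm
    rw [h3, ← Module.finrank_prod]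
    exact (prodEq V V').finrank_eq
  apply le_antisymm
  · obtain ⟨U, hU, hU'⟩ := exists_nonneg hA
    obtain ⟨U2, hU2, hU2'⟩ := exists_nonneg hD
    have h1 := negIdx_add_le (K := Matrix.fromBlocks A 0 0 D)
      (U := (U.prod U2).map e.symm.toLinearMap) (by
        intro x hx
        obtain ⟨y, hy, rfl⟩ := Submodule.mem_map.1 hx
        rw [hq]
        have : e (e.symm.toLinearMap y) = y := e.apply_symm_apply y
        rw [this]
        exact add_nonneg (hU' _ hy.1) (hU2' _ hy.2))
    rw [key, Fintype.card_sum] at h1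
    omega
  · obtain ⟨V, hV, hV'⟩ := exists_negIdx A
    obtain ⟨V2, hV2, hV2'⟩ := exists_negIdx D
    have h1 := le_negIdx (K := Matrix.fromBlocks A 0 0 D)
      (V := (V.prod V2).map e.symm.toLinearMap) (by
        intro x hx h0
        obtain ⟨y, hy, rfl⟩ := Submodule.mem_map.1 hx
        rw [hq]
        have : e (e.symm.toLinearMap y) = y := e.apply_symm_apply y
        rw [this]
        have hy0 : y ≠ 0 := by
          rintro rfl
          exact h0 (map_zero _)
        by_cases h1 : y.1 = 0
        · have h2 : y.2 ≠ 0 := fun h => hy0 (Prod.ext h1 h)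
          rw [h1]
          simpa using hV2' _ hy.2 h2
        · by_cases h2 : y.2 = 0
          · rw [h2]
            simpa using hV' _ hy.1 h1
          · exact add_neg (hV' _ hy.1 h1) (hV2' _ hy.2 h2))
    rw [key] at h1
    omega

end Run7.h834
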