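import Pool.Agent.Run7.h834.Neg2

set_option autoImplicit false

open Matrix Module

namespace Run7.h834

variable {ι κ : Type*} [Fintype ι] [Fintype κ]

/-- number of eigenvalues smaller than `e` -/
theorem negIdx_sub_eq_card [DecidableEq ι] {K : Matrix ι ι ℝ} (hK : K.IsHermitian) (e : ℝ) :
    negIdx (K - e • (1 : Matrix ι ι ℝ)) =
      (Finset.univ.filter fun i => hK.eigenvalues i < e).card := by
  have h1 := hK.spectral_theorem
  rw [Unitary.conjStarAlgAut_apply] at h1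
  have h2 : (RCLike.ofReal ∘ hK.eigenvalues : ι → ℝ) = hK.eigenvalues := by
    funext i
    simp
  rw [h2] at h1
  set U : Matrix ι ι ℝ := (hK.eigenvectorUnitary : Matrix ι ι ℝ) with hU
  have hUU : U * star U = 1 := Unitary.mul_star_self_of_mem hK.eigenvectorUnitary.2
  have h3 : K - e • (1 : Matrix ι ι ℝ) =
      (star U)ᵀ * Matrix.diagonal (fun i => hK.eigenvalues i - e) * star U := by
    have hst : (star U)ᵀ = U := by
      rw [Matrix.star_eq_conjTranspose, Matrix.conjTranspose_eq_transpose_of_trivial,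
        Matrix.transpose_transpose]
    have hd : Matrix.diagonal (fun i => hK.eigenvalues i - e) =
        Matrix.diagonal hK.eigenvalues - e • (1 : Matrix ι ι ℝ) := by
      rw [← Matrix.diagonal_one, ← Matrix.diagonal_smul, Matrix.diagonal_sub]
      congr 1
      funext i
      simp
    rw [hst, hd, Matrix.mul_sub, Matrix.sub_mul, ← h1, Matrix.mul_smul, Matrix.mul_one,
      Matrix.smul_mul, hUU]
  have h4 : IsUnit (star U) := by
    have h5 : star U = ((star hK.eigenvectorUnitary : Matrix.unitaryGroup ι ℝ) : Matrix ι ι ℝ) :=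
      rfl
    rw [h5]
    exact (Unitary.toUnits (star hK.eigenvectorUnitary)).isUnit
  rw [h3, negIdx_conj _ _ h4, negIdx_diagonal]
  congr 1
  ext i
  simp

/-- **Haynsworth's inertia additivity** for the negative index. -/
theorem negIdx_fromBlocks [DecidableEq ι] [DecidableEq κ] {A : Matrix ι ι ℝ} (B : Matrix ι κ ℝ)
    {D : Matrix κ κ ℝ} (hA : A.IsHermitian) (hD : D.IsHermitian) (hu : IsUnit A) :
    negIdx (Matrix.fromBlocks A B Bᵀ D) = negIdx A + negIdx (D - Bᵀ * A⁻¹ * B) := by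
  obtain ⟨u, hu⟩ := hu
  have : Invertible A := by
    rw [← hu]
    exact u.invertible
  have hAt : Aᵀ = A := by
    have := hA.eq
    rwa [Matrix.conjTranspose_eq_transpose_of_trivial] at this
  have hinv : (⅟A)ᵀ = ⅟A := by
    rw [Matrix.invOf_eq_nonsing_inv, Matrix.transpose_nonsing_inv, hAt]
  have hSch : (D - Bᵀ * A⁻¹ * B).IsHermitian := by
    refine hD.sub ?_
    have h1 : (A⁻¹).IsHermitian := hA.inv
    have h2 := Matrix.isHermitian_conjTranspose_mul_mul B h1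
    rwa [Matrix.conjTranspose_eq_transpose_of_trivial] at h2
  rw [← negIdx_fromBlocks_diag hA hSch]
  rw [Matrix.fromBlocks_eq_of_invertible₁₁ A B Bᵀ D, ← Matrix.invOf_eq_nonsing_inv A]
  have h3 : Matrix.fromBlocks (1 : Matrix ι ι ℝ) 0 (Bᵀ * ⅟A) (1 : Matrix κ κ ℝ) =
      (Matrix.fromBlocks (1 : Matrix ι ι ℝ) (⅟A * B) 0 (1 : Matrix κ κ ℝ))ᵀ := by
    rw [Matrix.fromBlocks_transpose, Matrix.transpose_mul, hinv]
    simp
  rw [h3]
  refine negIdx_conj _ _ ?_
  rw [Matrix.isUnit_iff_isUnit_det, Matrix.det_fromBlocks_zero₂₁]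
  simp

theorem dot_single [DecidableEq ι] (k : ι) (c : ℝ) (x : ι → ℝ) :
    x ⬝ᵥ (Matrix.single k k c *ᵥ x) = c * x k ^ 2 := by
  rw [Matrix.single_mulVec]
  simp [dotProduct, Function.update_apply]
  ring

theorem quad_add (K L : Matrix ι ι ℝ) (x : ι → ℝ) :
    x ⬝ᵥ ((K + L) *ᵥ x) = x ⬝ᵥ (K *ᵥ x) + x ⬝ᵥ (L *ᵥ x) := by
  rw [Matrix.add_mulVec, dotProduct_add]

theorem quad_smul_one [DecidableEq ι] (t : ℝ) (x : ι → ℝ) :
    x ⬝ᵥ ((t • (1 : Matrix ι ι ℝ)) *ᵥ x) = t * (x ⬝ᵥ x) := by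
  rw [Matrix.smul_mulVec, Matrix.one_mulVec, dotProduct_smul, smul_eq_mul]

theorem dot_self_nonneg (x : ι → ℝ) : 0 ≤ x ⬝ᵥ x :=
  Finset.sum_nonneg fun i _ => mul_self_nonneg (x i)

/-- raising a diagonal entry lowers the index, by at most one -/
theorem negIdx_add_single_le [DecidableEq ι] (K : Matrix ι ι ℝ) (k : ι) {c : ℝ} (hc : 0 ≤ c) :
    negIdx (K + Matrix.single k k c) ≤ negIdx K := by
  refine negIdx_mono fun x => ?_
  rw [quad_add, dot_single]
  nlinarith [sq_nonneg (x k), mul_nonneg hc (sq_nonneg (x k))]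

theorem negIdx_le_add_single [DecidableEq ι] (K : Matrix ι ι ℝ) (k : ι) (c : ℝ) :
    negIdx K ≤ negIdx (K + Matrix.single k k c) + 1 := by
  obtain ⟨V, hV, hn⟩ := exists_negIdx K
  set L : Submodule ℝ (ι → ℝ) := LinearMap.ker (LinearMap.proj k : (ι → ℝ) →ₗ[ℝ] ℝ) with hL
  have h1 : finrank ℝ ↥(V ⊓ L) ≤ negIdx (K + Matrix.single k k c) := by
    refine le_negIdx fun x hx h0 => ?_
    rw [quad_add, dot_single]
    have hxk : x k = 0 := hx.2
    rw [hxk]
    simpa using hn x hx.1 h0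
  have h2 := Submodule.finrank_sup_add_finrank_inf_eq V L
  have h3 : finrank ℝ ↥(V ⊔ L) ≤ Fintype.card ι := by
    have := Submodule.finrank_le (V ⊔ L)
    rwa [finrank_fintype_fun_eq_card] at this
  have h4 := LinearMap.finrank_range_add_finrank_ker (LinearMap.proj k : (ι → ℝ) →ₗ[ℝ] ℝ)
  rw [finrank_fintype_fun_eq_card, ← hL] at h4
  have h5 : finrank ℝ (LinearMap.range (LinearMap.proj k : (ι → ℝ) →ₗ[ℝ] ℝ)) ≤ 1 := by
    have := Submodule.finrank_le (LinearMap.range (LinearMap.proj k : (ι → ℝ) →ₗ[ℝ] ℝ))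
    simpa using this
  omega

/-- shifts by multiples of the identity -/
theorem negIdx_shift_mono [DecidableEq ι] (K : Matrix ι ι ℝ) {s t : ℝ} (h : s ≤ t) :
    negIdx (K - s • (1 : Matrix ι ι ℝ)) ≤ negIdx (K - t • (1 : Matrix ι ι ℝ)) := by
  refine negIdx_mono fun x => ?_
  rw [sub_eq_add_neg, ← neg_smul, quad_add, sub_eq_add_neg, ← neg_smul, quad_add, quad_smul_one,
    quad_smul_one]
  nlinarith [mul_nonneg (sub_nonneg.2 h) (dot_self_nonneg x)]

/-- a perturbation of size `η` does not change the index if there is no eigenvalue in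
`[-η, η)` -/
theorem negIdx_eq_of_close [DecidableEq ι] {K K' : Matrix ι ι ℝ} {η : ℝ} (hη : 0 ≤ η)
    (h : ∀ x, |x ⬝ᵥ ((K' - K) *ᵥ x)| ≤ η * (x ⬝ᵥ x))
    (hgap : negIdx (K - η • (1 : Matrix ι ι ℝ)) = negIdx (K - (-η) • (1 : Matrix ι ι ℝ))) :
    negIdx K' = negIdx K := by
  have e1 : ∀ x, x ⬝ᵥ ((K - η • (1 : Matrix ι ι ℝ)) *ᵥ x) = x ⬝ᵥ (K *ᵥ x) - η * (x ⬝ᵥ x) := by
    intro x
    rw [sub_eq_add_neg, ← neg_smul, quad_add, quad_smul_one]
    ring
  have e2 : ∀ x, x ⬝ᵥ ((K - (-η) • (1 : Matrix ι ι ℝ)) *ᵥ x) =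
      x ⬝ᵥ (K *ᵥ x) + η * (x ⬝ᵥ x) := by
    intro x
    rw [sub_eq_add_neg, ← neg_smul, quad_add, quad_smul_one]
    ring
  have e3 : ∀ x, x ⬝ᵥ (K' *ᵥ x) = x ⬝ᵥ (K *ᵥ x) + x ⬝ᵥ ((K' - K) *ᵥ x) := by
    intro x
    rw [← quad_add]
    congr 2
    abel
  have l1 : negIdx K' ≤ negIdx (K - η • (1 : Matrix ι ι ℝ)) := negIdx_mono fun x => by
    rw [e1, e3]
    linarith [(abs_le.1 (h x)).1]
  have l2 : negIdx (K - (-η) • (1 : Matrix ι ι ℝ)) ≤ negIdx K' := negIdx_mono fun x => by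
    rw [e2, e3]
    linarith [(abs_le.1 (h x)).2]
  have l3 : negIdx K ≤ negIdx (K - η • (1 : Matrix ι ι ℝ)) := negIdx_mono fun x => by
    rw [e1]
    nlinarith [mul_nonneg hη (dot_self_nonneg x)]
  have l4 : negIdx (K - (-η) • (1 : Matrix ι ι ℝ)) ≤ negIdx K := negIdx_mono fun x => by
    rw [e2]
    nlinarith [mul_nonneg hη (dot_self_nonneg x)]
  omega

end Run7.h834
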