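import Pool.Agent.Run7.h834.Poi2

/-! The Laplace functional of the counts of a band matrix. -/

set_option autoImplicit false
open MeasureTheory Matrix Set Finset
open scoped ENNReal

namespace Run7.h834

variable {V : ℝ → ℝ} {K : ℝ} {w : ℕ}

theorem cN_telescope (w : ℕ) (ω : Om) {x : ℕ → ℝ} (hx : Monotone x) (s n p : ℕ) :
    ∑ j ∈ range p, cN w ω (x j) (x (j + 1)) s n = cN w ω (x 0) (x p) s n := by
  induction p with
  | zero => simp [cN]
  | succ p ih =>
    rw [Finset.sum_range_succ, ih]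
    have h1 := negIdx_kM_mono w ω (hx (Nat.zero_le p)) 0 s n
    have h2 := negIdx_kM_mono w ω (hx (Nat.le_succ p)) 0 s n
    unfold cN
    simp only [Nat.succ_eq_add_one] at h2 ⊢
    omega

/-- independence of blocks -/
theorem lintegral_prod_indep {μ : Measure ℝ} [IsProbabilityMeasure μ] (L : ℕ)
    {G : ℕ → Om → ℝ≥0∞} (hG : ∀ i, Measurable (G i)) (t : ℕ → ℕ)
    (hd : ∀ i, DepOn {p : ℕ × ℕ | i * L ≤ p.1 ∧ p.1 < t i} (G i)) (k : ℕ)
    (ht : ∀ i, i < k → t i ≤ (i + 1) * L ∨ i + 1 = k) :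
    ∫⁻ ω, ∏ i ∈ range k, G i ω ∂(Pm μ) = ∏ i ∈ range k, ∫⁻ ω, G i ω ∂(Pm μ) := by
  induction k with
  | zero => simp
  | succ k ih =>
    rw [Finset.prod_range_succ]
    simp_rw [Finset.prod_range_succ]
    have hih : ∫⁻ ω, ∏ i ∈ range k, G i ω ∂(Pm μ) = ∏ i ∈ range k, ∫⁻ ω, G i ω ∂(Pm μ) := by
      refine ih fun i hi => ?_
      rcases ht i (by omega) with h | h
      · exact Or.inl h
      · omega
    rw [← hih]
    refine lintegral_mul_indep μ {p : ℕ × ℕ | p.1 < k * L}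
      (Finset.measurable_prod _ fun i _ => hG i) (hG k) ?_ ?_
    · intro ω ω' h
      refine Finset.prod_congr rfl fun i hi => ?_
      have hik := Finset.mem_range.1 hi
      refine hd i ω ω' fun p hp => h p ?_
      rcases ht i (by omega) with h1 | h1
      · have h2 : (i + 1) * L ≤ k * L := Nat.mul_le_mul_right L hik
        simp only [Set.mem_ofPred_eq] at hp ⊢
        omega
      · omega
    · refine (hd k).mono fun p hp => ?_
      simp only [Set.mem_compl_iff, Set.mem_ofPred_eq, not_lt] at hp ⊢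
      exact hp.1

/-- lengths of blocks -/
def bl (L n J i : ℕ) : ℕ := if i < J then L else n

theorem bS_eq (w : ℕ) (ω : Om) (e₁ e₂ : ℝ) (L n J : ℕ) :
    bS w ω e₁ e₂ 0 L n J = ∑ i ∈ range (J + 1), (cN w ω e₁ e₂ (i * L) (bl L n J i) : ℝ) := by
  rw [Finset.sum_range_succ]
  unfold bS bl
  rw [if_neg (lt_irrefl J), zero_add]
  congr 1
  refine Finset.sum_congr rfl fun i hi => ?_
  rw [if_pos (Finset.mem_range.1 hi), zero_add]

/-- Laplace functional of step functions -/
theorem laplace_band (h : NiceV V K) {β : ℝ} (hβ : 0 ≤ β) (hS : WegC V w β) (hw : 1 ≤ w)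
    {J L n N p : ℕ} (hN : J * L + n = N) (hL : w ≤ L) (hn : w ≤ n)
    {x : ℕ → ℝ} (hx : Monotone x) {t : ℝ} (ht0 : 0 ≤ t) (ht : ∀ j, x j ≤ x 0 + t)
    {c : ℕ → ℝ} (hc : ∀ j, 0 ≤ c j) {Δ : ℝ} (hΔ0 : 0 ≤ Δ)
    (hΔ : ∀ j, ∫⁻ ω, ENNReal.ofReal |(cN w ω (x j) (x (j + 1)) 0 (J * L + n) : ℝ) -
      bS w ω (x j) (x (j + 1)) 0 L n J| ∂(Pm (lawV V)) ≤ ENNReal.ofReal Δ) :
    |∫ ω, Real.exp (-∑ j ∈ range p, c j * (cN w ω (x j) (x (j + 1)) 0 N : ℝ)) ∂(Pm (lawV V)) -
      Real.exp (-∑ j ∈ range p, (1 - Real.exp (-c j)) *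
        ∫ ω, (cN w ω (x j) (x (j + 1)) 0 N : ℝ) ∂(Pm (lawV V)))| ≤
      (∑ j ∈ range p, (1 + c j)) * Δ +
        (J * (L : ℝ) ^ 2 + (n : ℝ) ^ 2) * (t ^ 2 * (β * (2 * Real.exp (K / 2) + β))) := by
  have := h.prob
  subst hN
  set D := Real.exp (K / 2) with hD
  have hD0 : 0 < D := Real.exp_pos _
  set X : ℕ → Om → ℕ := fun j ω => cN w ω (x j) (x (j + 1)) 0 (J * L + n) with hX
  set Y : ℕ → ℕ → Om → ℕ := fun i j ω => cN w ω (x j) (x (j + 1)) (i * L) (bl L n J i) with hY
  have mX : ∀ j, Measurable (X j) := fun j => measurable_cN w _ _ _ _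
  have mY : ∀ i j, Measurable (Y i j) := fun i j => measurable_cN w _ _ _ _
  have blw : ∀ i, w ≤ bl L n J i := fun i => by
    unfold bl
    split_ifs <;> assumption
  have Zeq : ∀ i ω, ∑ j ∈ range p, Y i j ω = cN w ω (x 0) (x p) (i * L) (bl L n J i) :=
    fun i ω => cN_telescope w ω hx _ _ p
  have x0p : x 0 ≤ x p := hx (Nat.zero_le p)
  have hmean : ∀ i, ∫⁻ ω, (cN w ω (x 0) (x p) (i * L) (bl L n J i) : ℝ≥0∞) ∂(Pm (lawV V)) ≤
      ENNReal.ofReal (bl L n J i * (β * t)) := by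
    intro i
    refine (hS (x 0) (x p) x0p (i * L) (bl L n J i) (blw i)).trans ?_
    rw [ENNReal.ofReal_mul (p := (bl L n J i : ℝ)) (Nat.cast_nonneg _), ENNReal.ofReal_natCast]
    gcongr
    have := ht p
    linarith
  have hmin : ∀ i, ∫⁻ ω, ((cN w ω (x 0) (x p) (i * L) (bl L n J i) *
      (cN w ω (x 0) (x p) (i * L) (bl L n J i) - 1) : ℕ) : ℝ≥0∞) ∂(Pm (lawV V)) ≤
      ENNReal.ofReal ((bl L n J i : ℝ) ^ 2 * (t ^ 2 * (β * (2 * D)))) := by
    intro i
    have h1 := minami_kM h.bddDens w (x 0) (i * L) (bl L n J i) (t := x p - x 0) (by linarith)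
    rw [add_sub_cancel] at h1
    refine h1.trans ?_
    have e1 : (bl L n J i : ℝ) ^ 2 * (t ^ 2 * (β * (2 * D))) =
        bl L n J i * ((2 * D * t) * (bl L n J i * (β * t))) := by ring
    rw [e1, ENNReal.ofReal_mul (p := (bl L n J i : ℝ)) (Nat.cast_nonneg _),
      ENNReal.ofReal_natCast, ENNReal.ofReal_mul (p := 2 * D * t) (by positivity)]
    gcongr
    · have := ht p
      linarith
    · exact hmean i
  have toR : ∀ (F : Om → ℝ), (∀ ω, 0 ≤ F ω) → Measurable F → ∀ c : ℝ, 0 ≤ c →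
      ∫⁻ ω, ENNReal.ofReal (F ω) ∂(Pm (lawV V)) ≤ ENNReal.ofReal c →
      ∫ ω, F ω ∂(Pm (lawV V)) ≤ c := by
    intro F hF0 hF c hc0 hle
    rw [integral_eq_lintegral_of_nonneg_ae (Filter.Eventually.of_forall hF0)
      hF.aestronglyMeasurable]
    exact ENNReal.toReal_le_of_le_ofReal hc0 hle
  have cast : Measurable fun n : ℕ => (n : ℝ) := measurable_from_top
  have key := laplace_abstract (P := Pm (lawV V)) p (J + 1) c hc X Y mX mY (J * L + n + L + n)
    (fun j ω => (cN_le w ω _ _ _ _).trans (by omega))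
    (fun i j ω => (cN_le w ω _ _ _ _).trans (by unfold bl; split_ifs <;> omega))
    ?_ Δ ?_ (fun i => (bl L n J i : ℝ) ^ 2 * (t ^ 2 * (β * (2 * D))))
    (fun i => bl L n J i * (β * t)) ?_ ?_
  · refine key.trans (le_of_eq ?_)
    congr 1
    have e1 : ∀ i, (bl L n J i : ℝ) ^ 2 * (t ^ 2 * (β * (2 * D))) +
        (bl L n J i * (β * t)) ^ 2 = (bl L n J i : ℝ) ^ 2 * (t ^ 2 * (β * (2 * D + β))) := by
      intro i
      ring
    simp_rw [e1]
    rw [← Finset.sum_mul]
    congr 1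
    rw [Finset.sum_range_succ]
    congr 1
    · rw [Finset.sum_congr rfl (g := fun _ => (L : ℝ) ^ 2) fun i hi => by
        rw [bl, if_pos (Finset.mem_range.1 hi)]]
      simp
    · rw [bl, if_neg (lt_irrefl J)]
  · -- independence
    set G : ℕ → Om → ℝ≥0∞ := fun i ω =>
      ENNReal.ofReal (Real.exp (-∑ j ∈ range p, c j * (Y i j ω : ℝ))) with hG
    have mF : ∀ i, Measurable fun ω => Real.exp (-∑ j ∈ range p, c j * (Y i j ω : ℝ)) :=
      fun i => Real.measurable_exp.comp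
        (Finset.measurable_sum _ fun j _ => (cast.comp (mY i j)).const_mul _).neg
    have mG : ∀ i, Measurable (G i) := fun i => ENNReal.measurable_ofReal.comp (mF i)
    have hprod := lintegral_prod_indep (μ := lawV V) L mG (fun i => i * L + bl L n J i) ?_
      (J + 1) ?_
    · have p0 : ∀ ω, 0 ≤ ∏ i ∈ range (J + 1),
          Real.exp (-∑ j ∈ range p, c j * (Y i j ω : ℝ)) := fun ω =>
        Finset.prod_nonneg fun i _ => (Real.exp_pos _).le
      have mp : Measurable fun ω => ∏ i ∈ range (J + 1),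
          Real.exp (-∑ j ∈ range p, c j * (Y i j ω : ℝ)) :=
        Finset.measurable_prod _ fun i _ => mF i
      rw [integral_eq_lintegral_of_nonneg_ae (Filter.Eventually.of_forall p0)
        mp.aestronglyMeasurable]
      have e2 : ∀ ω, ENNReal.ofReal (∏ i ∈ range (J + 1),
          Real.exp (-∑ j ∈ range p, c j * (Y i j ω : ℝ))) = ∏ i ∈ range (J + 1), G i ω := by
        intro ω
        rw [ENNReal.ofReal_prod_of_nonneg fun i _ => (Real.exp_pos _).le]
      simp_rw [e2]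
      rw [hprod, ENNReal.toReal_prod]
      refine Finset.prod_congr rfl fun i _ => ?_
      rw [integral_eq_lintegral_of_nonneg_ae
        (Filter.Eventually.of_forall fun ω => (Real.exp_pos _).le) (mF i).aestronglyMeasurable]
    · intro i ω ω' hω
      simp only [hG, hY]
      have e3 : ∀ j, cN w ω (x j) (x (j + 1)) (i * L) (bl L n J i) =
          cN w ω' (x j) (x (j + 1)) (i * L) (bl L n J i) := by
        intro j
        refine depOn_cN w _ _ _ _ ω ω' fun p hp => hω p ⟨hp.1, hp.2.1⟩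
      simp_rw [e3]
    · intro i hi
      by_cases hiJ : i < J
      · left
        simp only [bl, if_pos hiJ]
        have : (i + 1) * L = i * L + L := by ring
        omega
      · right
        omega
  · intro j
    refine toR _ (fun ω => abs_nonneg _) ?_ Δ hΔ0 ?_
    · exact ((cast.comp (mX j)).sub
        (Finset.measurable_sum _ fun i _ => cast.comp (mY i j))).norm
    · refine le_trans (le_of_eq ?_) (hΔ j)
      refine lintegral_congr fun ω => ?_
      rw [bS_eq]
  · intro i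
    have m1 : Measurable fun ω => ∑ j ∈ range p, Y i j ω :=
      Finset.measurable_sum _ fun j _ => mY i j
    have m2 : Measurable fun ω => (((∑ j ∈ range p, Y i j ω) *
        (∑ j ∈ range p, Y i j ω - 1) : ℕ) : ℝ) := cast.comp (m1.mul (m1.sub measurable_const))
    refine toR _ (fun ω => by positivity) m2 _ (by positivity) ?_
    simp_rw [ENNReal.ofReal_natCast, Zeq]
    exact hmin i
  · intro i
    have m1 : Measurable fun ω => ∑ j ∈ range p, (Y i j ω : ℝ) :=
      Finset.measurable_sum _ fun j _ => cast.comp (mY i j)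
    refine toR _ (fun ω => by positivity) m1 _ (by positivity) ?_
    have e4 : ∀ ω, ENNReal.ofReal (∑ j ∈ range p, (Y i j ω : ℝ)) =
        (cN w ω (x 0) (x p) (i * L) (bl L n J i) : ℝ≥0∞) := by
      intro ω
      rw [← Nat.cast_sum, ENNReal.ofReal_natCast, Zeq]
    simp_rw [e4]
    exact hmean i

end Run7.h834
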