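import Pool.Agent.Run7.h834.LocE
import Pool.Agent.Run7.h834.Poi3

/-! Choice of the parameters. -/

set_option autoImplicit false
open MeasureTheory Matrix Set Finset
open scoped ENNReal

namespace Run7.h834

variable {V : ℝ → ℝ} {K : ℝ} {w : ℕ}

/-- constant of the bad event -/
noncomputable def cB (K : ℝ) : ℝ≥0∞ := 2 + 40 * cW (Real.exp (K / 2)) +
  ENNReal.ofReal (8 * Real.exp (K / 2))

theorem cB_lt_top (K : ℝ) : cB K < ⊤ := by
  unfold cB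
  refine ENNReal.add_lt_top.2 ⟨ENNReal.add_lt_top.2 ⟨by simp, ?_⟩, ENNReal.ofReal_lt_top⟩
  exact ENNReal.mul_lt_top (by simp) (cW_lt_top _)

theorem one_le_cW (D : ℝ) : 1 ≤ cW D := by
  unfold cW
  exact le_self_add

theorem rpow_half_le {a : ℝ≥0∞} (ha : 1 ≤ a) : a ^ (1 / 2 : ℝ) ≤ a := by
  calc a ^ (1 / 2 : ℝ) ≤ a ^ (1 : ℝ) := ENNReal.rpow_le_rpow_of_exponent_le ha (by norm_num)
    _ = a := ENNReal.rpow_one a

theorem betaC_bound (K : ℝ) {w m n N : ℕ} (hw : 1 ≤ w) (hwN : w ≤ N) (hn : n ≤ N)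
    (hm : m * w ≤ N) {θ : ℝ≥0∞}
    (hθ : θ ≤ (w * (4 * cW (Real.exp (K / 2)) * 2)) ^ (1 / 2 : ℝ) *
      ENNReal.ofReal (((N : ℝ) ^ 12)⁻¹)) :
    betaC K w m n ((N : ℝ) ^ 3) ((N : ℝ) ^ 12) (((N : ℝ) ^ 16)⁻¹) θ ≤
      cB K * ENNReal.ofReal (((N : ℝ) ^ 4)⁻¹) := by
  have hN1 : (1 : ℝ) ≤ N := by exact_mod_cast hw.trans hwN
  have hN0 : (0 : ℝ) < N := by linarith
  have hwN' : (w : ℝ) ≤ N := by exact_mod_cast hwN
  have hw0 : (0 : ℝ) ≤ w := Nat.cast_nonneg _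
  set c := cW (Real.exp (K / 2)) with hc
  have hc1 : 1 ≤ c := one_le_cW _
  have w2 : (w : ℝ≥0∞) ^ 2 = ENNReal.ofReal ((w : ℝ) ^ 2) := by
    rw [ENNReal.ofReal_pow hw0, ENNReal.ofReal_natCast]
  set y := ENNReal.ofReal (((N : ℝ) ^ 4)⁻¹) with hy
  -- first term
  have t1 : (w : ℝ≥0∞) ^ 2 * ENNReal.ofReal (1 / ((N : ℝ) ^ 3) ^ 2) ≤ y := by
    rw [w2, ← ENNReal.ofReal_mul (by positivity)]
    refine ENNReal.ofReal_le_ofReal ?_
    rw [mul_one_div, div_le_iff₀ (by positivity)]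
    have : ((N : ℝ) ^ 4)⁻¹ * ((N : ℝ) ^ 3) ^ 2 = (N : ℝ) ^ 2 := by
      field_simp
    rw [this]
    exact pow_le_pow_left₀ hw0 hwN' 2
  have t2 : (w : ℝ≥0∞) ^ 2 * (4 * c / ENNReal.ofReal (((N : ℝ) ^ 12) ^ (1 / 2 : ℝ))) ≤
      4 * c * y := by
    have e1 : (((N : ℝ) ^ 12) ^ (1 / 2 : ℝ)) = (N : ℝ) ^ 6 := by
      rw [← Real.rpow_natCast, ← Real.rpow_mul hN0.le]
      norm_num
    rw [e1, ENNReal.div_eq_inv_mul, ← ENNReal.ofReal_inv_of_pos (by positivity), w2]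
    calc ENNReal.ofReal ((w : ℝ) ^ 2) * (ENNReal.ofReal ((N : ℝ) ^ 6)⁻¹ * (4 * c))
        = 4 * c * (ENNReal.ofReal ((w : ℝ) ^ 2) * ENNReal.ofReal ((N : ℝ) ^ 6)⁻¹) := by ring
      _ ≤ 4 * c * y := by
          rw [← ENNReal.ofReal_mul (by positivity)]
          gcongr
          refine ENNReal.ofReal_le_ofReal ?_
          rw [mul_inv_le_iff₀ (by positivity)]
          have : ((N : ℝ) ^ 4)⁻¹ * (N : ℝ) ^ 6 = (N : ℝ) ^ 2 := by
            field_simp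
          rw [this]
          exact pow_le_pow_left₀ hw0 hwN' 2
  have t3 : (w : ℝ≥0∞) ^ 2 * (θ / ENNReal.ofReal ((((N : ℝ) ^ 16)⁻¹) ^ (1 / 4 : ℝ))) ≤
      8 * c * y := by
    have e1 : ((((N : ℝ) ^ 16)⁻¹) ^ (1 / 4 : ℝ)) = ((N : ℝ) ^ 4)⁻¹ := by
      rw [Real.inv_rpow (by positivity), ← Real.rpow_natCast, ← Real.rpow_mul hN0.le]
      norm_num
    have e2 : (w * (4 * c * 2)) ^ (1 / 2 : ℝ) ≤ (w : ℝ≥0∞) * (4 * c * 2) := by
      refine rpow_half_le ?_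
      have a1 : (1 : ℝ≥0∞) ≤ w := by exact_mod_cast hw
      calc (1 : ℝ≥0∞) = 1 * (1 * 1 * 1) := by norm_num
        _ ≤ w * (4 * c * 2) := by
          gcongr
          · norm_num
          · norm_num
    rw [e1, ENNReal.div_eq_inv_mul, ← ENNReal.ofReal_inv_of_pos (by positivity), inv_inv, w2]
    calc ENNReal.ofReal ((w : ℝ) ^ 2) * (ENNReal.ofReal ((N : ℝ) ^ 4) * θ)
        ≤ ENNReal.ofReal ((w : ℝ) ^ 2) * (ENNReal.ofReal ((N : ℝ) ^ 4) *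
          ((w * (4 * c * 2)) * ENNReal.ofReal (((N : ℝ) ^ 12)⁻¹))) := by
          gcongr
          exact hθ.trans (mul_le_mul_left e2 _)
      _ = 8 * c * (ENNReal.ofReal ((w : ℝ) ^ 2) * ENNReal.ofReal (w : ℝ) *
          ENNReal.ofReal ((N : ℝ) ^ 4) * ENNReal.ofReal (((N : ℝ) ^ 12)⁻¹)) := by
          rw [ENNReal.ofReal_natCast]
          ring
      _ ≤ 8 * c * y := by
          rw [← ENNReal.ofReal_mul (by positivity), ← ENNReal.ofReal_mul (by positivity),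
            ← ENNReal.ofReal_mul (by positivity)]
          gcongr
          refine ENNReal.ofReal_le_ofReal ?_
          rw [mul_inv_le_iff₀ (by positivity)]
          have : ((N : ℝ) ^ 4)⁻¹ * (N : ℝ) ^ 12 = (N : ℝ) ^ 4 * (N : ℝ) ^ 4 := by
            field_simp
          rw [this]
          refine mul_le_mul_of_nonneg_right ?_ (by positivity)
          calc (w : ℝ) ^ 2 * w = (w : ℝ) ^ 3 := by ring
            _ ≤ (N : ℝ) ^ 3 := pow_le_pow_left₀ hw0 hwN' 3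
            _ ≤ (N : ℝ) ^ 4 := pow_le_pow_right₀ hN1 (by norm_num)
  have t4 : ((n : ℝ≥0∞) + (m * w : ℕ)) * ENNReal.ofReal (4 * Real.exp (K / 2) *
      (w * ((w : ℝ) ^ 2 * ((((N : ℝ) ^ 16)⁻¹) ^ 2 * ((w : ℝ) ^ 2 * (((N : ℝ) ^ 3) ^ 2 *
        (N : ℝ) ^ 12)))))) ≤ ENNReal.ofReal (8 * Real.exp (K / 2)) * y := by
    have a1 : (n : ℝ≥0∞) + (m * w : ℕ) ≤ ENNReal.ofReal (2 * N) := by
      rw [← Nat.cast_add, ← ENNReal.ofReal_natCast]
      refine ENNReal.ofReal_le_ofReal ?_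
      have : n + m * w ≤ 2 * N := by omega
      exact_mod_cast this
    calc _ ≤ ENNReal.ofReal (2 * N) * ENNReal.ofReal (4 * Real.exp (K / 2) *
          (w * ((w : ℝ) ^ 2 * ((((N : ℝ) ^ 16)⁻¹) ^ 2 * ((w : ℝ) ^ 2 * (((N : ℝ) ^ 3) ^ 2 *
            (N : ℝ) ^ 12)))))) := by gcongr
      _ ≤ _ := by
          rw [← ENNReal.ofReal_mul (by positivity), hy, ← ENNReal.ofReal_mul (by positivity)]
          refine ENNReal.ofReal_le_ofReal ?_
          have e1 : (w : ℝ) * ((w : ℝ) ^ 2 * ((((N : ℝ) ^ 16)⁻¹) ^ 2 * ((w : ℝ) ^ 2 *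
              (((N : ℝ) ^ 3) ^ 2 * (N : ℝ) ^ 12)))) = (w : ℝ) ^ 5 / (N : ℝ) ^ 14 := by
            field_simp
          rw [e1]
          have e2 : (w : ℝ) ^ 5 / (N : ℝ) ^ 14 ≤ 1 / (N : ℝ) ^ 9 := by
            rw [div_le_div_iff₀ (by positivity) (by positivity), one_mul]
            calc (w : ℝ) ^ 5 * (N : ℝ) ^ 9 ≤ (N : ℝ) ^ 5 * (N : ℝ) ^ 9 :=
                  mul_le_mul_of_nonneg_right (pow_le_pow_left₀ hw0 hwN' 5) (by positivity)
              _ = (N : ℝ) ^ 14 := by ring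
          have e3 : N * (1 / (N : ℝ) ^ 9) ≤ ((N : ℝ) ^ 4)⁻¹ := by
            rw [mul_one_div, ← one_div, div_le_div_iff₀ (by positivity) (by positivity)]
            calc (N : ℝ) * (N : ℝ) ^ 4 = (N : ℝ) ^ 5 := by ring
              _ ≤ (N : ℝ) ^ 9 := pow_le_pow_right₀ hN1 (by norm_num)
              _ = 1 * (N : ℝ) ^ 9 := (one_mul _).symm
          calc 2 * (N : ℝ) * (4 * Real.exp (K / 2) * ((w : ℝ) ^ 5 / (N : ℝ) ^ 14))
              ≤ 2 * (N : ℝ) * (4 * Real.exp (K / 2) * (1 / (N : ℝ) ^ 9)) := by gcongr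
            _ = 8 * Real.exp (K / 2) * (N * (1 / (N : ℝ) ^ 9)) := by ring
            _ ≤ 8 * Real.exp (K / 2) * ((N : ℝ) ^ 4)⁻¹ := by gcongr
  unfold betaC tauC
  rw [← hc]
  calc _ ≤ 2 * ((y + 4 * c * y) + (8 * c * y + 8 * c * y)) +
        ENNReal.ofReal (8 * Real.exp (K / 2)) * y := by
        gcongr
    _ = cB K * y := by
        rw [cB, ← hc]
        ring

end Run7.h834
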