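import Pool.Agent.Run7.h834.Cut3

/-! Section estimates for the Poisson limit. -/

set_option autoImplicit false
open MeasureTheory Matrix Set
open scoped ENNReal

namespace Run7.h834

variable {V : ℝ → ℝ} {K : ℝ} {w : ℕ}

theorem depOn_kM (w : ℕ) (e : ℝ) (s n : ℕ) :
    DepOn (rect s (s + n) (s + n)) (fun ω => kM w ω e 0 s n) := by
  intro ω ω' h
  ext i j
  simp only [kM, Matrix.of_apply]
  have h1 : bnd w ω (s + i) (s + j) = bnd w ω' (s + i) (s + j) := by
    unfold bnd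
    split_ifs with h2
    · refine h _ ?_
      have := i.2
      have := j.2
      simp only [rect, Set.mem_ofPred_eq]
      omega
    · rfl
  rw [h1]

theorem depOn_cN (w : ℕ) (e₁ e₂ : ℝ) (s n : ℕ) :
    DepOn (rect s (s + n) (s + n)) (fun ω => cN w ω e₁ e₂ s n) := by
  have h1 := (depOn_kM w e₁ s n).comp negIdx
  have h2 := (depOn_kM w e₂ s n).comp negIdx
  exact h2.comp₂ h1 (fun a b => a - b)

/-- Minami estimate for sections -/
theorem minami_kM {μ : Measure ℝ} [IsProbabilityMeasure μ] {D : ℝ} (hμ : BddDens μ D)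
    (w : ℕ) (e : ℝ) (s n : ℕ) {t : ℝ} (ht : 0 ≤ t) :
    ∫⁻ ω, ((cN w ω e (e + t) s n * (cN w ω e (e + t) s n - 1) : ℕ) : ℝ≥0∞) ∂(Pm μ) ≤
      n * (ENNReal.ofReal (2 * D * t) * ∫⁻ ω, (cN w ω e (e + t) s n : ℝ≥0∞) ∂(Pm μ)) := by
  classical
  set φ : Fin n → ℕ × ℕ := fun i => (s + i, s + i) with hφ
  have hφi : Function.Injective φ := by
    intro i j h
    simp only [hφ, Prod.mk.injEq] at h
    apply Fin.ext
    omega
  set S : Set (ℕ × ℕ) := Set.range φ with hS
  have m0 := measurable_cN w e (e + t) s n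
  have hm : Measurable fun ω : Om =>
      ((cN w ω e (e + t) s n * (cN w ω e (e + t) s n - 1) : ℕ) : ℝ≥0∞) :=
    measurable_from_top.comp (m0.mul (m0.sub measurable_const))
  have hm1 : Measurable fun ω : Om => (cN w ω e (e + t) s n : ℝ≥0∞) :=
    measurable_from_top.comp m0
  -- matrix without diagonal
  set K0 : Om → Matrix (Fin n) (Fin n) ℝ := fun ω => Matrix.of fun i j =>
    (if i = j then 0 else bnd w ω (s + i) (s + j)) - (if i = j then e else 0) -
      qE (0 : Arr w) i j with hK0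
  have key : ∀ (ω ω' : Om) (t' : ℝ), kM w (mix Sᶜ ω ω') (e + t') 0 s n =
      K0 ω + Matrix.diagonal (sub' Finset.univ t' (fun i => ω' (φ i))) := by
    intro ω ω' t'
    ext i j
    simp only [kM, hK0, Matrix.of_apply, Matrix.add_apply]
    by_cases h : i = j
    · subst h
      rw [if_pos rfl, if_pos rfl, if_pos rfl, Matrix.diagonal_apply_eq]
      have h1 : bnd w (mix Sᶜ ω ω') (s + i) (s + i) = ω' (φ i) := by
        unfold bnd
        rw [if_pos (by simp), min_self, max_self]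
        rw [mix_notMem]
        simp only [Set.mem_compl_iff, not_not]
        exact ⟨i, rfl⟩
      rw [h1]
      simp only [sub', Finset.mem_univ, if_true]
      ring
    · rw [if_neg h, if_neg h, if_neg h, Matrix.diagonal_apply_ne _ h, add_zero]
      congr 2
      unfold bnd
      split_ifs with h2
      · rw [mix_mem]
        simp only [Set.mem_compl_iff]
        rintro ⟨l, hl⟩
        simp only [hφ, Prod.mk.injEq] at hl
        apply h
        apply Fin.ext
        omega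
      · rfl
  have key0 : ∀ ω ω' : Om, kM w (mix Sᶜ ω ω') e 0 s n =
      K0 ω + Matrix.diagonal (fun i => ω' (φ i)) := by
    intro ω ω'
    have := key ω ω' 0
    rw [add_zero] at this
    rw [this]
    congr 2
    funext i
    simp [sub']
  have e1 : ∀ ω ω' : Om, cN w (mix Sᶜ ω ω') e (e + t) s n =
      cnt (K0 ω) t (fun i => ω' (φ i)) := by
    intro ω ω'
    unfold cN
    rw [key, key0]
    rfl
  rw [lintegral_mix μ Sᶜ hm, lintegral_mix μ Sᶜ hm1]
  simp_rw [e1]
  have hc : ∀ ω, Measurable fun v : Fin n → ℝ => (cnt (K0 ω) t v : ℝ≥0∞) := fun ω =>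
    measurable_from_top.comp (measurable_cnt (K0 ω) t)
  have hc2 : ∀ ω, Measurable fun v : Fin n → ℝ =>
      ((cnt (K0 ω) t v * (cnt (K0 ω) t v - 1) : ℕ) : ℝ≥0∞) := fun ω =>
    measurable_from_top.comp ((measurable_cnt (K0 ω) t).mul
      ((measurable_cnt (K0 ω) t).sub measurable_const))
  have s1 : ∀ ω, ∫⁻ ω', (cnt (K0 ω) t (fun i => ω' (φ i)) : ℝ≥0∞) ∂(Pm μ) =
      ∫⁻ v, (cnt (K0 ω) t v : ℝ≥0∞) ∂(Measure.pi fun _ : Fin n => μ) := fun ω =>
    lintegral_sel μ φ hφi (hc ω)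
  have s2 : ∀ ω, ∫⁻ ω', ((cnt (K0 ω) t (fun i => ω' (φ i)) *
      (cnt (K0 ω) t (fun i => ω' (φ i)) - 1) : ℕ) : ℝ≥0∞) ∂(Pm μ) =
      ∫⁻ v, ((cnt (K0 ω) t v * (cnt (K0 ω) t v - 1) : ℕ) : ℝ≥0∞)
        ∂(Measure.pi fun _ : Fin n => μ) := fun ω =>
    lintegral_sel μ φ hφi (hc2 ω)
  simp_rw [s1, s2]
  rw [← lintegral_const_mul' _ _ ENNReal.ofReal_ne_top, ← lintegral_const_mul' _ _
    (ENNReal.natCast_ne_top n)]
  refine lintegral_mono fun ω => ?_
  have := minami_aux hμ (K0 ω) ht Finset.univ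
  rw [Finset.card_univ, Fintype.card_fin] at this
  exact this

/-- partial sums over blocks -/
noncomputable def bS (w : ℕ) (ω : Om) (e₁ e₂ : ℝ) (s L n J : ℕ) : ℝ :=
  ∑ i ∈ Finset.range J, (cN w ω e₁ e₂ (s + i * L) L : ℝ) + cN w ω e₁ e₂ (s + J * L) n

theorem measurable_bS (w : ℕ) (e₁ e₂ : ℝ) (s L n J : ℕ) :
    Measurable fun ω : Om => bS w ω e₁ e₂ s L n J := by
  have h1 : ∀ s n, Measurable fun ω : Om => (cN w ω e₁ e₂ s n : ℝ) := fun s n =>
    measurable_from_top.comp (measurable_cN w e₁ e₂ s n)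
  unfold bS
  exact (Finset.measurable_sum _ fun i _ => h1 _ _).add (h1 _ _)

theorem bS_succ (w : ℕ) (ω : Om) (e₁ e₂ : ℝ) (s L n J : ℕ) :
    bS w ω e₁ e₂ s L n (J + 1) = cN w ω e₁ e₂ s L + bS w ω e₁ e₂ (s + L) L n J := by
  unfold bS
  rw [Finset.sum_range_succ']
  have h1 : ∀ i, s + (i + 1) * L = s + L + i * L := fun i => by ring
  simp_rw [h1]
  rw [zero_mul, add_zero]
  ring

/-- cutting into many blocks -/
theorem multi_cut {L n : ℕ} {e₁ e₂ : ℝ} {Δ : ℝ≥0∞} :
    ∀ (J s : ℕ), (∀ (s' j : ℕ), j < J → ∫⁻ ω, ENNReal.ofReal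
      (defect w ω e₁ e₂ s' L (j * L + n)) ∂(Pm (lawV V)) ≤ Δ) →
    ∫⁻ ω, ENNReal.ofReal |(cN w ω e₁ e₂ s (J * L + n) : ℝ) - bS w ω e₁ e₂ s L n J|
      ∂(Pm (lawV V)) ≤ J * Δ := by
  intro J
  induction J with
  | zero =>
    intro s _
    simp [bS]
  | succ J ih =>
    intro s hd
    have h1 := hd s J (Nat.lt_succ_self J)
    have h2 := ih (s + L) fun s' j hj => hd s' j (by omega)
    have hN : (J + 1) * L + n = L + (J * L + n) := by ring
    have pt : ∀ ω, ENNReal.ofReal |(cN w ω e₁ e₂ s ((J + 1) * L + n) : ℝ) -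
        bS w ω e₁ e₂ s L n (J + 1)| ≤ ENNReal.ofReal (defect w ω e₁ e₂ s L (J * L + n)) +
        ENNReal.ofReal |(cN w ω e₁ e₂ (s + L) (J * L + n) : ℝ) -
          bS w ω e₁ e₂ (s + L) L n J| := by
      intro ω
      have hd0 : 0 ≤ defect w ω e₁ e₂ s L (J * L + n) := abs_nonneg _
      rw [← ENNReal.ofReal_add hd0 (abs_nonneg _)]
      refine ENNReal.ofReal_le_ofReal ?_
      rw [bS_succ, hN]
      unfold defect
      refine le_trans (le_of_eq ?_) (abs_add_le _ _)
      congr 1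
      ring
    have m1 : Measurable fun ω : Om => ENNReal.ofReal (defect w ω e₁ e₂ s L (J * L + n)) :=
      ENNReal.measurable_ofReal.comp (measurable_defect w e₁ e₂ s L _)
    refine (lintegral_mono pt).trans ?_
    rw [lintegral_add_left m1]
    refine (add_le_add h1 h2).trans (le_of_eq ?_)
    push_cast
    ring

end Run7.h834
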