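import Pool.Agent.Run7.h834.Poi1

/-! The Laplace functional of a sum of independent rare counts. -/

set_option autoImplicit false
open MeasureTheory Matrix Set Finset
open scoped ENNReal

namespace Run7.h834

theorem exp_neg_le_one {x : ℝ} (hx : 0 ≤ x) : Real.exp (-x) ≤ 1 :=
  Real.exp_le_one_iff.2 (by linarith)

theorem laplace_pt (p : ℕ) (c : ℕ → ℝ) (hc : ∀ j, 0 ≤ c j) (Y : ℕ → ℕ) :
    |1 - Real.exp (-∑ j ∈ range p, c j * Y j) -
      ∑ j ∈ range p, (1 - Real.exp (-c j)) * Y j| ≤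
      (((∑ j ∈ range p, Y j) * (∑ j ∈ range p, Y j - 1) : ℕ) : ℝ) := by
  have hc' : ∀ j, 0 ≤ 1 - Real.exp (-c j) := fun j => by
    have := exp_neg_le_one (hc j)
    linarith
  have hc'' : ∀ j, 1 - Real.exp (-c j) ≤ 1 := fun j => by
    have := Real.exp_pos (-c j)
    linarith
  set Z := ∑ j ∈ range p, Y j with hZ
  rcases Nat.lt_or_ge Z 2 with h2 | h2
  · have h3 : Z = 0 ∨ Z = 1 := by omega
    rcases h3 with h0 | h1
    · have hz : ∀ j ∈ range p, Y j = 0 := by
        intro j hj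
        exact (Finset.sum_eq_zero_iff.1 (hZ.symm.trans h0)) j hj
      have e1 : ∑ j ∈ range p, c j * (Y j : ℝ) = 0 :=
        Finset.sum_eq_zero fun j hj => by rw [hz j hj]; simp
      have e2 : ∑ j ∈ range p, (1 - Real.exp (-c j)) * (Y j : ℝ) = 0 :=
        Finset.sum_eq_zero fun j hj => by rw [hz j hj]; simp
      rw [e1, e2, h0]
      simp
    · obtain ⟨j₀, hj₀, hY⟩ : ∃ j₀ ∈ range p, Y j₀ ≠ 0 := by
        by_contra hcon
        push Not at hcon
        have : Z = 0 := Finset.sum_eq_zero hcon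
        omega
      have hle : Y j₀ + ∑ j ∈ (range p).erase j₀, Y j = Z := Finset.add_sum_erase _ _ hj₀
      have hY1 : Y j₀ = 1 := by omega
      have hr : ∑ j ∈ (range p).erase j₀, Y j = 0 := by omega
      have hz : ∀ j ∈ (range p).erase j₀, Y j = 0 := fun j hj =>
        (Finset.sum_eq_zero_iff.1 hr) j hj
      have e1 : ∑ j ∈ range p, c j * (Y j : ℝ) = c j₀ := by
        rw [← Finset.add_sum_erase _ _ hj₀, hY1,
          Finset.sum_eq_zero fun j hj => by rw [hz j hj]; simp]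
        simp
      have e2 : ∑ j ∈ range p, (1 - Real.exp (-c j)) * (Y j : ℝ) = 1 - Real.exp (-c j₀) := by
        rw [← Finset.add_sum_erase _ _ hj₀, hY1,
          Finset.sum_eq_zero fun j hj => by rw [hz j hj]; simp]
        simp
      rw [e1, e2, h1]
      simp
  · have e0 : 0 ≤ ∑ j ∈ range p, c j * (Y j : ℝ) :=
      Finset.sum_nonneg fun j _ => mul_nonneg (hc j) (by positivity)
    have a1 := exp_neg_le_one e0
    have a2 := Real.exp_pos (-∑ j ∈ range p, c j * (Y j : ℝ))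
    have b1 : 0 ≤ ∑ j ∈ range p, (1 - Real.exp (-c j)) * (Y j : ℝ) :=
      Finset.sum_nonneg fun j _ => mul_nonneg (hc' j) (by positivity)
    have b2 : ∑ j ∈ range p, (1 - Real.exp (-c j)) * (Y j : ℝ) ≤ Z := by
      rw [hZ]
      push_cast
      refine Finset.sum_le_sum fun j _ => ?_
      exact mul_le_of_le_one_left (by positivity) (hc'' j)
    have hZ2 : (Z : ℝ) ≤ ((Z * (Z - 1) : ℕ) : ℝ) := by
      have : Z ≤ Z * (Z - 1) := Nat.le_mul_of_pos_right Z (by omega)
      exact_mod_cast this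
    have hZ3 : (1 : ℝ) ≤ Z := by
      have : 1 ≤ Z := by omega
      exact_mod_cast this
    rw [abs_le]
    constructor <;> linarith

theorem prod_close (s : Finset ℕ) (x y : ℕ → ℝ) (hx : ∀ i, 0 ≤ x i ∧ x i ≤ 1)
    (hy : ∀ i, 0 ≤ y i ∧ y i ≤ 1) :
    |∏ i ∈ s, x i - ∏ i ∈ s, y i| ≤ ∑ i ∈ s, |x i - y i| := by
  induction s using Finset.induction_on with
  | empty => simp
  | insert a s ha ih =>
    rw [Finset.prod_insert ha, Finset.prod_insert ha, Finset.sum_insert ha]
    have hpy0 : 0 ≤ ∏ i ∈ s, y i := Finset.prod_nonneg fun i _ => (hy i).1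
    have hpy1 : ∏ i ∈ s, y i ≤ 1 := Finset.prod_le_one (fun i _ => (hy i).1) fun i _ => (hy i).2
    have e1 : x a * ∏ i ∈ s, x i - y a * ∏ i ∈ s, y i =
        (x a - y a) * ∏ i ∈ s, y i + x a * (∏ i ∈ s, x i - ∏ i ∈ s, y i) := by ring
    rw [e1]
    refine (abs_add_le _ _).trans (add_le_add ?_ ?_)
    · rw [abs_mul, abs_of_nonneg hpy0]
      exact mul_le_of_le_one_right (abs_nonneg _) hpy1
    · rw [abs_mul, abs_of_nonneg (hx a).1]
      exact (mul_le_of_le_one_left (abs_nonneg _) (hx a).2).trans ih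

theorem exp_sub_close {a b : ℝ} (ha : 0 ≤ a) (hb : 0 ≤ b) :
    |Real.exp (-a) - Real.exp (-b)| ≤ |a - b| := by
  wlog h : a ≤ b generalizing a b
  · rw [abs_sub_comm, abs_sub_comm a b]
    exact this hb ha (by linarith)
  have h1 : Real.exp (-b) ≤ Real.exp (-a) := Real.exp_le_exp.2 (by linarith)
  rw [abs_of_nonneg (by linarith), abs_of_nonpos (by linarith : a - b ≤ 0)]
  have h2 : Real.exp (-b) = Real.exp (-a) * Real.exp (a - b) := by
    rw [← Real.exp_add]
    congr 1
    ring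
  have h3 := Real.add_one_le_exp (a - b)
  have h4 := exp_neg_le_one ha
  have h5 := Real.exp_pos (-a)
  rw [h2]
  nlinarith

theorem one_sub_exp_close {b : ℝ} (hb : 0 ≤ b) : |1 - b - Real.exp (-b)| ≤ b ^ 2 := by
  have h1 := Real.add_one_le_exp (-b)
  have h2 : Real.exp (-b) ≤ 1 - b + b ^ 2 := by
    have h3 := Real.add_one_le_exp b
    have h4 : Real.exp (-b) = 1 / Real.exp b := by
      rw [Real.exp_neg, one_div]
    rw [h4, div_le_iff₀ (Real.exp_pos b)]
    nlinarith [mul_nonneg (by nlinarith [sq_nonneg (b - 1/2)] : (0:ℝ) ≤ 1 - b + b ^ 2)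
      (by linarith : (0:ℝ) ≤ Real.exp b - (b + 1)), pow_nonneg hb 3]
  rw [abs_le]
  constructor <;> linarith

theorem laplace_abstract {Ω : Type*} [MeasurableSpace Ω] {P : Measure Ω}
    [IsProbabilityMeasure P] (p J : ℕ) (c : ℕ → ℝ) (hc : ∀ j, 0 ≤ c j)
    (X : ℕ → Ω → ℕ) (Y : ℕ → ℕ → Ω → ℕ) (hX : ∀ j, Measurable (X j))
    (hY : ∀ i j, Measurable (Y i j)) (B : ℕ) (bX : ∀ j ω, X j ω ≤ B) (bY : ∀ i j ω, Y i j ω ≤ B)
    (hind : ∫ ω, ∏ i ∈ range J, Real.exp (-∑ j ∈ range p, c j * Y i j ω) ∂P =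
      ∏ i ∈ range J, ∫ ω, Real.exp (-∑ j ∈ range p, c j * Y i j ω) ∂P)
    (Δ : ℝ) (hΔ : ∀ j, ∫ ω, |(X j ω : ℝ) - ∑ i ∈ range J, (Y i j ω : ℝ)| ∂P ≤ Δ)
    (M E1 : ℕ → ℝ) (hM : ∀ i, ∫ ω, (((∑ j ∈ range p, Y i j ω) *
      (∑ j ∈ range p, Y i j ω - 1) : ℕ) : ℝ) ∂P ≤ M i)
    (hE : ∀ i, ∫ ω, ∑ j ∈ range p, (Y i j ω : ℝ) ∂P ≤ E1 i) :
    |∫ ω, Real.exp (-∑ j ∈ range p, c j * X j ω) ∂P -
      Real.exp (-∑ j ∈ range p, (1 - Real.exp (-c j)) * ∫ ω, (X j ω : ℝ) ∂P)| ≤
      (∑ j ∈ range p, (1 + c j)) * Δ + ∑ i ∈ range J, (M i + E1 i ^ 2) := by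
  have hc' : ∀ j, 0 ≤ 1 - Real.exp (-c j) := fun j => by
    have := exp_neg_le_one (hc j)
    linarith
  have hc'' : ∀ j, 1 - Real.exp (-c j) ≤ 1 := fun j => by
    have := Real.exp_pos (-c j)
    linarith
  have cast : Measurable fun n : ℕ => (n : ℝ) := measurable_from_top
  have mX : ∀ j, Measurable fun ω => (X j ω : ℝ) := fun j => cast.comp (hX j)
  have mY : ∀ i j, Measurable fun ω => (Y i j ω : ℝ) := fun i j => cast.comp (hY i j)
  have iX : ∀ j, Integrable (fun ω => (X j ω : ℝ)) P := fun j => by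
    refine Integrable.mono' (integrable_const (B : ℝ)) (mX j).aestronglyMeasurable
      (Filter.Eventually.of_forall fun ω => ?_)
    rw [Real.norm_of_nonneg (by positivity)]
    exact_mod_cast bX j ω
  have iY : ∀ i j, Integrable (fun ω => (Y i j ω : ℝ)) P := fun i j => by
    refine Integrable.mono' (integrable_const (B : ℝ)) (mY i j).aestronglyMeasurable
      (Filter.Eventually.of_forall fun ω => ?_)
    rw [Real.norm_of_nonneg (by positivity)]
    exact_mod_cast bY i j ω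
  have iexp : ∀ (f : Ω → ℝ), Measurable f → (∀ ω, 0 ≤ f ω) →
      Integrable (fun ω => Real.exp (-f ω)) P := fun f hf hf0 => by
    refine Integrable.mono' (integrable_const (1 : ℝ))
      (Real.measurable_exp.comp hf.neg).aestronglyMeasurable
      (Filter.Eventually.of_forall fun ω => ?_)
    rw [Real.norm_of_nonneg (Real.exp_pos _).le]
    exact exp_neg_le_one (hf0 ω)
  -- the block variables
  set SX : Ω → ℝ := fun ω => ∑ j ∈ range p, c j * (X j ω : ℝ) with hSX
  set SY : ℕ → Ω → ℝ := fun i ω => ∑ j ∈ range p, c j * (Y i j ω : ℝ) with hSY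
  have mSX : Measurable SX := Finset.measurable_sum _ fun j _ => (mX j).const_mul _
  have mSY : ∀ i, Measurable (SY i) := fun i =>
    Finset.measurable_sum _ fun j _ => (mY i j).const_mul _
  have SX0 : ∀ ω, 0 ≤ SX ω := fun ω => Finset.sum_nonneg fun j _ =>
    mul_nonneg (hc j) (by positivity)
  have SY0 : ∀ i ω, 0 ≤ SY i ω := fun i ω => Finset.sum_nonneg fun j _ =>
    mul_nonneg (hc j) (by positivity)
  set b : ℕ → ℝ := fun i => ∑ j ∈ range p, (1 - Real.exp (-c j)) * ∫ ω, (Y i j ω : ℝ) ∂P with hb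
  have iYn : ∀ i j, 0 ≤ ∫ ω, (Y i j ω : ℝ) ∂P := fun i j =>
    integral_nonneg fun ω => by positivity
  have iXn : ∀ j, 0 ≤ ∫ ω, (X j ω : ℝ) ∂P := fun j =>
    integral_nonneg fun ω => by positivity
  have b0 : ∀ i, 0 ≤ b i := fun i => Finset.sum_nonneg fun j _ => mul_nonneg (hc' j) (iYn i j)
  have bE : ∀ i, b i ≤ E1 i := fun i => by
    refine le_trans ?_ (hE i)
    rw [integral_finsetSum _ fun j _ => iY i j]
    exact Finset.sum_le_sum fun j _ => mul_le_of_le_one_left (iYn i j) (hc'' j)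
  -- expectation over one block
  have blk : ∀ i, |∫ ω, Real.exp (-SY i ω) ∂P - Real.exp (-b i)| ≤ M i + E1 i ^ 2 := by
    intro i
    have h1 : |1 - ∫ ω, Real.exp (-SY i ω) ∂P - b i| ≤ M i := by
      have e1 : 1 - ∫ ω, Real.exp (-SY i ω) ∂P - b i =
          ∫ ω, (1 - Real.exp (-SY i ω) - ∑ j ∈ range p, (1 - Real.exp (-c j)) *
            (Y i j ω : ℝ)) ∂P := by
        have i1 : Integrable (fun ω => 1 - Real.exp (-SY i ω)) P :=
          (integrable_const _).sub (iexp _ (mSY i) (SY0 i))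
        have i2 : Integrable (fun ω => ∑ j ∈ range p, (1 - Real.exp (-c j)) *
            (Y i j ω : ℝ)) P := integrable_finsetSum _ fun j _ => (iY i j).const_mul _
        rw [integral_sub i1 i2, integral_sub (integrable_const _) (iexp _ (mSY i) (SY0 i)),
          integral_finsetSum _ fun j _ => (iY i j).const_mul _]
        simp only [integral_const_mul, integral_const, probReal_univ, smul_eq_mul, one_mul, hb]
      rw [e1]
      refine (abs_integral_le_integral_abs).trans (le_trans ?_ (hM i))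
      refine integral_mono_of_nonneg (Filter.Eventually.of_forall fun ω => abs_nonneg _) ?_
        (Filter.Eventually.of_forall fun ω => ?_)
      · have hs : Measurable fun ω => ∑ j ∈ range p, Y i j ω :=
          Finset.measurable_sum _ fun j _ => hY i j
        have hm : Measurable fun ω => (((∑ j ∈ range p, Y i j ω) *
            (∑ j ∈ range p, Y i j ω - 1) : ℕ) : ℝ) :=
          cast.comp (hs.mul (hs.sub measurable_const))
        refine Integrable.mono' (integrable_const (((p * B) * (p * B) : ℕ) : ℝ))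
          hm.aestronglyMeasurable (Filter.Eventually.of_forall fun ω => ?_)
        rw [Real.norm_of_nonneg (by positivity)]
        have hs2 : ∑ j ∈ range p, Y i j ω ≤ p * B := by
          have := Finset.sum_le_card_nsmul (range p) (fun j => Y i j ω) B fun j _ => bY i j ω
          simpa using this
        exact_mod_cast Nat.mul_le_mul hs2 ((Nat.sub_le _ _).trans hs2)
      · exact laplace_pt p c hc fun j => Y i j ω
    have h2 := one_sub_exp_close (b0 i)
    have h3 : b i ^ 2 ≤ E1 i ^ 2 := pow_le_pow_left₀ (b0 i) (bE i) 2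
    have e2 : ∫ ω, Real.exp (-SY i ω) ∂P - Real.exp (-b i) =
        -(1 - ∫ ω, Real.exp (-SY i ω) ∂P - b i) + (1 - b i - Real.exp (-b i)) := by ring
    rw [e2]
    refine (abs_add_le _ _).trans ?_
    rw [abs_neg]
    linarith
  -- comparison of the two sums
  have hdiff : ∀ j, Integrable (fun ω => |(X j ω : ℝ) - ∑ i ∈ range J, (Y i j ω : ℝ)|) P :=
    fun j => ((iX j).sub (integrable_finsetSum _ fun i _ => iY i j)).abs
  have swap : ∀ ω, ∑ i ∈ range J, SY i ω = ∑ j ∈ range p, c j * ∑ i ∈ range J, (Y i j ω : ℝ) := by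
    intro ω
    simp only [hSY]
    rw [Finset.sum_comm]
    refine Finset.sum_congr rfl fun j _ => ?_
    rw [Finset.mul_sum]
  have t1 : |∫ ω, Real.exp (-SX ω) ∂P - ∫ ω, ∏ i ∈ range J, Real.exp (-SY i ω) ∂P| ≤
      (∑ j ∈ range p, c j) * Δ := by
    have e1 : ∀ ω, ∏ i ∈ range J, Real.exp (-SY i ω) = Real.exp (-∑ i ∈ range J, SY i ω) := by
      intro ω
      rw [← Real.exp_sum, Finset.sum_neg_distrib]
    simp_rw [e1]
    have i2 : Integrable (fun ω => Real.exp (-∑ i ∈ range J, SY i ω)) P :=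
      iexp _ (Finset.measurable_sum _ fun i _ => mSY i)
        fun ω => Finset.sum_nonneg fun i _ => SY0 i ω
    rw [← integral_sub (iexp _ mSX SX0) i2]
    refine (abs_integral_le_integral_abs).trans ?_
    calc ∫ ω, |Real.exp (-SX ω) - Real.exp (-∑ i ∈ range J, SY i ω)| ∂P
        ≤ ∫ ω, ∑ j ∈ range p, c j * |(X j ω : ℝ) - ∑ i ∈ range J, (Y i j ω : ℝ)| ∂P := by
          refine integral_mono_of_nonneg (Filter.Eventually.of_forall fun ω => abs_nonneg _)
            (integrable_finsetSum _ fun j _ => (hdiff j).const_mul _)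
            (Filter.Eventually.of_forall fun ω => ?_)
          refine (exp_sub_close (SX0 ω) (Finset.sum_nonneg fun i _ => SY0 i ω)).trans ?_
          simp only
          rw [swap ω]
          simp only [hSX]
          rw [← Finset.sum_sub_distrib]
          refine (Finset.abs_sum_le_sum_abs _ _).trans (Finset.sum_le_sum fun j _ => ?_)
          rw [← mul_sub, abs_mul, abs_of_nonneg (hc j)]
      _ = ∑ j ∈ range p, c j * ∫ ω, |(X j ω : ℝ) - ∑ i ∈ range J, (Y i j ω : ℝ)| ∂P := by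
          rw [integral_finsetSum _ fun j _ => (hdiff j).const_mul _]
          simp_rw [integral_const_mul]
      _ ≤ ∑ j ∈ range p, c j * Δ :=
          Finset.sum_le_sum fun j _ => mul_le_mul_of_nonneg_left (hΔ j) (hc j)
      _ = (∑ j ∈ range p, c j) * Δ := by rw [Finset.sum_mul]
  have t2 : |∏ i ∈ range J, ∫ ω, Real.exp (-SY i ω) ∂P - ∏ i ∈ range J, Real.exp (-b i)| ≤
      ∑ i ∈ range J, (M i + E1 i ^ 2) := by
    refine (prod_close _ _ _ (fun i => ⟨integral_nonneg fun ω => (Real.exp_pos _).le, ?_⟩)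
      fun i => ⟨(Real.exp_pos _).le, exp_neg_le_one (b0 i)⟩).trans
      (Finset.sum_le_sum fun i _ => blk i)
    calc ∫ ω, Real.exp (-SY i ω) ∂P ≤ ∫ _, (1 : ℝ) ∂P :=
          integral_mono (iexp _ (mSY i) (SY0 i)) (integrable_const _)
            fun ω => exp_neg_le_one (SY0 i ω)
      _ = 1 := by simp
  have t3 : |∏ i ∈ range J, Real.exp (-b i) -
      Real.exp (-∑ j ∈ range p, (1 - Real.exp (-c j)) * ∫ ω, (X j ω : ℝ) ∂P)| ≤
      (∑ j ∈ range p, (1 : ℝ)) * Δ := by
    rw [← Real.exp_sum, Finset.sum_neg_distrib]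
    refine (exp_sub_close (Finset.sum_nonneg fun i _ => b0 i)
      (Finset.sum_nonneg fun j _ => mul_nonneg (hc' j) (iXn j))).trans ?_
    have e1 : ∑ i ∈ range J, b i = ∑ j ∈ range p, (1 - Real.exp (-c j)) *
        ∫ ω, ∑ i ∈ range J, (Y i j ω : ℝ) ∂P := by
      simp only [hb]
      rw [Finset.sum_comm]
      refine Finset.sum_congr rfl fun j _ => ?_
      rw [integral_finsetSum _ fun i _ => iY i j, Finset.mul_sum]
    rw [e1, ← Finset.sum_sub_distrib, Finset.sum_mul]
    refine (Finset.abs_sum_le_sum_abs _ _).trans (Finset.sum_le_sum fun j _ => ?_)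
    rw [← mul_sub, abs_mul, abs_of_nonneg (hc' j), one_mul]
    have h4 : |∫ ω, ∑ i ∈ range J, (Y i j ω : ℝ) ∂P - ∫ ω, (X j ω : ℝ) ∂P| ≤ Δ := by
      rw [abs_sub_comm, ← integral_sub (iX j) (integrable_finsetSum _ fun i _ => iY i j)]
      exact (abs_integral_le_integral_abs).trans (hΔ j)
    exact (mul_le_of_le_one_left (abs_nonneg _) (hc'' j)).trans h4
  rw [hind] at t1
  have tri : ∀ x y z u : ℝ, |x - u| ≤ |x - y| + (|y - z| + |z - u|) := fun x y z u => by
    have e : x - u = (x - y) + ((y - z) + (z - u)) := by ring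
    rw [e]
    exact (abs_add_le _ _).trans (add_le_add le_rfl (abs_add_le _ _))
  refine (tri _ _ _ _).trans ((add_le_add t1 (add_le_add t2 t3)).trans (le_of_eq ?_))
  have hs : ∑ j ∈ range p, (1 + c j) = ∑ j ∈ range p, (1 : ℝ) + ∑ j ∈ range p, c j :=
    Finset.sum_add_distrib
  rw [hs]
  ring

end Run7.h834
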