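import Pool.Agent.Run7.h834.Asym2

/-! Power-law bandwidths lie in the regime. -/

set_option autoImplicit false
open MeasureTheory Matrix Set Filter Topology
open scoped ENNReal

namespace Run7.h834

variable {V : ℝ → ℝ} {K : ℝ}

theorem log_pow_div_tendsto {δ : ℝ} (hδ : 0 < δ) :
    Tendsto (fun N : ℕ => Real.log N ^ 3 / (N : ℝ) ^ δ) atTop (𝓝 0) := by
  have h1 := (isLittleO_log_rpow_atTop (r := δ / 3) (by positivity)).tendsto_div_nhds_zero
  have h2 := (h1.comp tendsto_natCast_atTop_atTop).pow 3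
  rw [zero_pow (by norm_num)] at h2
  refine h2.congr' ?_
  filter_upwards [eventually_ge_atTop 1] with N hN
  have hN0 : (0 : ℝ) < N := by exact_mod_cast hN
  simp only [Function.comp_apply]
  rw [div_pow, ← Real.rpow_natCast ((N : ℝ) ^ (δ / 3)), ← Real.rpow_mul hN0.le]
  congr 2
  push_cast
  ring

theorem reg_of_pow {W : ℕ → ℕ} {B β : ℕ → ℝ} {Cβ : ℝ} {γ c C : ℝ} (hγ : 0 ≤ γ)
    (hcγ : c * γ < 1) (w1 : ∀ᶠ N : ℕ in atTop, 1 ≤ W N)
    (B1 : ∀ w, 1 ≤ w → 1 ≤ B w) (hB : ∀ w, 1 ≤ w → WegB V w (B w))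
    (β1 : ∀ w : ℕ, 1 ≤ w → 1 ≤ Real.sqrt w * β w) (hβ : ∀ w, 1 ≤ w → WegC V w (β w))
    (βC : ∀ w, 1 ≤ w → β w ≤ Cβ)
    (hbd : ∀ w : ℕ, 1 ≤ w → (w : ℝ) ^ 4 * Real.sqrt w * B w ^ 2 * β w ^ 2 ≤ C * (w : ℝ) ^ γ)
    (hW : ∀ᶠ N : ℕ in atTop, (W N : ℝ) ≤ (N : ℝ) ^ c) :
    ∃ hh : ℕ → ℝ, Reg V W B β hh Cβ := by
  set δ : ℝ := (1 - c * γ) / 2 with hδ
  have hδ0 : 0 < δ := by
    rw [hδ]
    linarith
  have hC : 0 ≤ C := by
    have h1 := hbd 1 le_rfl
    rw [Nat.cast_one, Real.one_rpow, mul_one] at h1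
    refine le_trans ?_ h1
    positivity
  refine ⟨fun N => ((N : ℝ) + 1) ^ δ, w1, B1, hB, β1, hβ, βC, ?_, ?_, ?_⟩
  · intro N
    exact Real.one_le_rpow (by linarith [(Nat.cast_nonneg N : (0:ℝ) ≤ N)]) hδ0.le
  · exact (tendsto_rpow_atTop hδ0).comp
      (tendsto_atTop_add_const_right _ _ tendsto_natCast_atTop_atTop)
  · have hlim : Tendsto (fun N : ℕ => C * 2 ^ δ * (Real.log N ^ 3 / (N : ℝ) ^ δ)) atTop (𝓝 0) := by
      have := (log_pow_div_tendsto hδ0).const_mul (C * 2 ^ δ)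
      rwa [mul_zero] at this
    refine tendsto_of_tendsto_of_tendsto_of_le_of_le' tendsto_const_nhds hlim ?_ ?_
    · filter_upwards [log_ge_one_eventually] with N hlg
      positivity
    · filter_upwards [log_ge_one_eventually, w1, hW, eventually_ge_atTop 1] with N hlg hw hWN hN1
      have hN0 : (0 : ℝ) < N := by exact_mod_cast hN1
      have hN1' : (1 : ℝ) ≤ N := by exact_mod_cast hN1
      have h1 := hbd (W N) hw
      have h2 : (W N : ℝ) ^ γ ≤ (N : ℝ) ^ (c * γ) := by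
        rw [Real.rpow_mul hN0.le]
        exact Real.rpow_le_rpow (Nat.cast_nonneg _) hWN hγ
      have h3 : ((N : ℝ) + 1) ^ δ ≤ 2 ^ δ * (N : ℝ) ^ δ := by
        rw [← Real.mul_rpow (by norm_num) hN0.le]
        exact Real.rpow_le_rpow (by positivity) (by linarith) hδ0.le
      calc (W N : ℝ) ^ 4 * Real.sqrt (W N) * B (W N) ^ 2 * β (W N) ^ 2 * Real.log N ^ 3 *
            ((N : ℝ) + 1) ^ δ / N
          ≤ (C * (N : ℝ) ^ (c * γ)) * Real.log N ^ 3 * (2 ^ δ * (N : ℝ) ^ δ) / N := by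
            refine div_le_div_of_nonneg_right ?_ hN0.le
            refine mul_le_mul ?_ h3 (by positivity) (by positivity)
            refine mul_le_mul_of_nonneg_right ?_ (by positivity)
            exact h1.trans (mul_le_mul_of_nonneg_left h2 hC)
        _ = C * 2 ^ δ * (Real.log N ^ 3 / (N : ℝ) ^ δ) := by
            have e1 : (N : ℝ) = (N : ℝ) ^ (c * γ) * (N : ℝ) ^ δ * (N : ℝ) ^ δ := by
              rw [← Real.rpow_add hN0, ← Real.rpow_add hN0]
              have : c * γ + δ + δ = 1 := by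
                rw [hδ]
                ring
              rw [this, Real.rpow_one]
            have p1 : 0 < (N : ℝ) ^ (c * γ) := Real.rpow_pos_of_pos hN0 _
            have p2 : 0 < (N : ℝ) ^ δ := Real.rpow_pos_of_pos hN0 _
            rw [div_eq_iff hN0.ne']
            conv_rhs => rw [mul_assoc (C * 2 ^ δ)]
            rw [div_mul_eq_mul_div]
            rw [show Real.log (N : ℝ) ^ 3 * (N : ℝ) / (N : ℝ) ^ δ =
              Real.log (N : ℝ) ^ 3 * ((N : ℝ) / (N : ℝ) ^ δ) by ring]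
            have e2 : (N : ℝ) / (N : ℝ) ^ δ = (N : ℝ) ^ (c * γ) * (N : ℝ) ^ δ := by
              rw [div_eq_iff p2.ne']
              exact e1
            rw [e2]
            ring

/-- the weak Wegner estimate gives the exponents `c < 2 / 13` -/
theorem reg_weak (h : NiceV V K) {W : ℕ → ℕ} {c : ℝ} (hc : c < 2 / 13)
    (w1 : ∀ᶠ N : ℕ in atTop, 1 ≤ W N) (hW : ∀ᶠ N : ℕ in atTop, (W N : ℝ) ≤ (N : ℝ) ^ c) :
    ∃ hh : ℕ → ℝ, Reg V W (fun w => w * (4 * Real.exp (K / 2))) (fun _ => 2 * Real.exp (K / 2)) hh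
      (2 * Real.exp (K / 2)) := by
  have hK := h.one_le
  have hD : 1 ≤ Real.exp (K / 2) := Real.one_le_exp (by linarith)
  refine reg_of_pow (γ := 13 / 2)
    (C := (4 * Real.exp (K / 2)) ^ 2 * (2 * Real.exp (K / 2)) ^ 2)
    (by norm_num) (by linarith) w1 ?_ (fun w _ => wegB_weak h w) ?_
    (fun w _ => wegC_weak h w) (fun w _ => le_rfl) ?_ hW
  · intro w hw
    have : (1 : ℝ) ≤ w := by exact_mod_cast hw
    nlinarith
  · intro w hw
    have hw1 : (1 : ℝ) ≤ w := by exact_mod_cast hw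
    have : 1 ≤ Real.sqrt w := Real.one_le_sqrt.2 hw1
    nlinarith
  · intro w hw
    have hw0 : (0 : ℝ) < w := by exact_mod_cast hw
    have e1 : (w : ℝ) ^ (13 / 2 : ℝ) = (w : ℝ) ^ 6 * Real.sqrt w := by
      rw [Real.sqrt_eq_rpow, ← Real.rpow_natCast, ← Real.rpow_add hw0]
      norm_num
    rw [e1]
    refine le_of_eq ?_
    ring

end Run7.h834
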