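import Pool.Agent.Run7.h834.Good3

/-! Negative moments of projections of a random vector. -/

set_option autoImplicit false
open MeasureTheory Matrix Set
open scoped ENNReal

namespace Run7.h834

variable {V : ℝ → ℝ} {K : ℝ}

/-- integration by parts in one variable -/
theorem NiceV.ibp (h : NiceV V K) {g g' : ℝ → ℝ} (hg : ∀ x, HasDerivAt g (g' x) x) {C : ℝ}
    (hC : ∀ x, |g x| ≤ C) (hC' : ∀ x, |g' x| ≤ C) (hm' : Measurable g') :
    ∫ x, g' x ∂(lawV V) = ∫ x, deriv V x * g x ∂(lawV V) := by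
  have := h.prob
  have hmg : Measurable g := by
    have : Differentiable ℝ g := fun x => (hg x).differentiableAt
    exact this.continuous.measurable
  rw [integral_lawV h.meas, integral_lawV h.meas]
  have i1 : Integrable g' (lawV V) := by
    refine Integrable.mono' (integrable_const C) hm'.aestronglyMeasurable
      (Filter.Eventually.of_forall fun x => ?_)
    rw [Real.norm_eq_abs]
    exact hC' x
  have i2 : Integrable g (lawV V) := by
    refine Integrable.mono' (integrable_const C) hmg.aestronglyMeasurable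
      (Filter.Eventually.of_forall fun x => ?_)
    rw [Real.norm_eq_abs]
    exact hC x
  have i3 : Integrable (fun x => deriv V x * g x) (lawV V) := by
    refine h.integrable_deriv.mul_bdd (c := C) hmg.aestronglyMeasurable
      (Filter.Eventually.of_forall fun x => ?_)
    rw [Real.norm_eq_abs]
    exact hC x
  rw [integrable_lawV_iff h.meas] at i1 i2 i3
  have h3 : ∀ x, HasDerivAt (fun x => g x * Real.exp (-V x))
      (g' x * Real.exp (-V x) - deriv V x * g x * Real.exp (-V x)) x := by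
    intro x
    refine ((hg x).fun_mul ((h.diff x).hasDerivAt.fun_neg).exp).congr_deriv ?_
    ring
  have h4 := integral_eq_zero_of_hasDerivAt_of_integrable h3 (i1.sub i3) i2
  rw [integral_sub i1 i3, sub_eq_zero] at h4
  exact h4

section pi

variable {κ : Type*} [Fintype κ] [DecidableEq κ]

theorem integral_resample (μ : Measure ℝ) [IsProbabilityMeasure μ] (k : κ) {F : (κ → ℝ) → ℝ}
    (hF : Integrable F (Measure.pi fun _ : κ => μ)) :
    ∫ v, F v ∂(Measure.pi fun _ : κ => μ) =
      ∫ v, ∫ y, F (Function.update v k y) ∂μ ∂(Measure.pi fun _ : κ => μ) := by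
  have hm : Measurable fun p : (κ → ℝ) × ℝ => Function.update p.1 k p.2 :=
    measurable_update_prod k
  have e := map_update_pi (ι := κ) μ k
  have h1 : ∫ v, F v ∂(Measure.pi fun _ : κ => μ) =
      ∫ p, F (Function.update p.1 k p.2) ∂((Measure.pi fun _ : κ => μ).prod μ) := by
    conv_lhs => rw [← e]
    exact integral_map hm.aemeasurable (by rw [e]; exact hF.aestronglyMeasurable)
  have h2 : Integrable (fun p : (κ → ℝ) × ℝ => F (Function.update p.1 k p.2))
      ((Measure.pi fun _ : κ => μ).prod μ) := by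
    have := (integrable_map_measure (f := fun p : (κ → ℝ) × ℝ => Function.update p.1 k p.2)
      (g := F) (μ := (Measure.pi fun _ : κ => μ).prod μ)
      (by rw [e]; exact hF.aestronglyMeasurable) hm.aemeasurable).1 (by rw [e]; exact hF)
    exact this
  rw [h1, integral_prod _ h2]

/-- integration by parts in one coordinate -/
theorem NiceV.ibp_pi (h : NiceV V K) (i : κ) {F F' : (κ → ℝ) → ℝ} (hF : Measurable F)
    (hF' : Measurable F') (hd : ∀ x t, HasDerivAt (fun t => F (Function.update x i t))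
      (F' (Function.update x i t)) t) {C : ℝ} (hC : ∀ x, |F x| ≤ C) (hC' : ∀ x, |F' x| ≤ C) :
    ∫ x, F' x ∂(Measure.pi fun _ : κ => lawV V) =
      ∫ x, deriv V (x i) * F x ∂(Measure.pi fun _ : κ => lawV V) := by
  have := h.prob
  have i1 : Integrable F' (Measure.pi fun _ : κ => lawV V) := by
    refine Integrable.mono' (integrable_const C) hF'.aestronglyMeasurable
      (Filter.Eventually.of_forall fun x => ?_)
    rw [Real.norm_eq_abs]
    exact hC' x
  have i2 : Integrable (fun x : κ → ℝ => deriv V (x i)) (Measure.pi fun _ : κ => lawV V) :=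
    integrable_comp_eval (μ := fun _ : κ => lawV V) (i := i) h.integrable_deriv
  have i3 : Integrable (fun x => deriv V (x i) * F x) (Measure.pi fun _ : κ => lawV V) := by
    refine i2.mul_bdd (c := C) hF.aestronglyMeasurable (Filter.Eventually.of_forall fun x => ?_)
    rw [Real.norm_eq_abs]
    exact hC x
  rw [integral_resample (lawV V) i i1, integral_resample (lawV V) i i3]
  refine integral_congr_ae (Filter.Eventually.of_forall fun x => ?_)
  have mu : Measurable fun t : ℝ => Function.update x i t := measurable_update x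
  have := h.ibp (g := fun t => F (Function.update x i t))
    (g' := fun t => F' (Function.update x i t)) (hd x) (C := C) (fun t => hC _) (fun t => hC' _)
    (hF'.comp mu)
  simp only [Function.update_self]
  exact this

variable {P : Matrix κ κ ℝ}

theorem proj_quad_nonneg (h1 : Pᵀ = P) (h2 : P * P = P) (z : κ → ℝ) : 0 ≤ z ⬝ᵥ (P *ᵥ z) := by
  have : z ⬝ᵥ (P *ᵥ z) = (P *ᵥ z) ⬝ᵥ (P *ᵥ z) := by
    conv_rhs => rw [Matrix.dotProduct_mulVec, ← Matrix.mulVec_transpose, h1,
      Matrix.mulVec_mulVec, h2]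
    rw [dotProduct_comm]
  rw [this]
  exact dot_self_nonneg _

theorem proj_quad_eq (h1 : Pᵀ = P) (h2 : P * P = P) (z : κ → ℝ) :
    z ⬝ᵥ (P *ᵥ z) = ∑ i, ((P *ᵥ z) i) ^ 2 := by
  have : z ⬝ᵥ (P *ᵥ z) = (P *ᵥ z) ⬝ᵥ (P *ᵥ z) := by
    conv_rhs => rw [Matrix.dotProduct_mulVec, ← Matrix.mulVec_transpose, h1,
      Matrix.mulVec_mulVec, h2]
    rw [dotProduct_comm]
  rw [this]
  unfold dotProduct
  exact Finset.sum_congr rfl fun i _ => by ring

/-- the second moment of the projected score -/
theorem NiceV.proj_score (h : NiceV V K) (h1 : Pᵀ = P) (h2 : P * P = P) :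
    Integrable (fun x : κ → ℝ => (fun i => deriv V (x i)) ⬝ᵥ (P *ᵥ fun i => deriv V (x i)))
      (Measure.pi fun _ : κ => lawV V) ∧
    ∫ x, (fun i => deriv V (x i)) ⬝ᵥ (P *ᵥ fun i => deriv V (x i))
      ∂(Measure.pi fun _ : κ => lawV V) = P.trace * M2 V := by
  have := h.prob
  have hmd := h.continuous_deriv.measurable
  have ms : ∀ i : κ, Measurable fun x : κ → ℝ => deriv V (x i) := fun i =>
    hmd.comp (measurable_pi_apply i)
  have mrow : ∀ j : κ, Measurable fun x : κ → ℝ => ∑ i, P j i * deriv V (x i) := fun j =>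
    Finset.measurable_sum _ fun i _ => (ms i).const_mul _
  have e0 : ∀ x : κ → ℝ, (fun i => deriv V (x i)) ⬝ᵥ (P *ᵥ fun i => deriv V (x i)) =
      ∑ j, (∑ i, P j i * deriv V (x i)) ^ 2 := by
    intro x
    rw [proj_quad_eq h1 h2]
    rfl
  have row : ∀ j : κ, Integrable (fun x : κ → ℝ => (∑ i, P j i * deriv V (x i)) ^ 2)
      (Measure.pi fun _ : κ => lawV V) ∧
      ∫ x, (∑ i, P j i * deriv V (x i)) ^ 2 ∂(Measure.pi fun _ : κ => lawV V) =
        (∑ i, P j i ^ 2) * M2 V := by
    intro j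
    have hsc := h.score_sq (ι := κ) (fun i => P j i)
    have hfin : ∫⁻ v : κ → ℝ, ENNReal.ofReal ((∑ i, P j i * deriv V (v i)) ^ 2)
        ∂(Measure.pi fun _ : κ => lawV V) < ⊤ := by
      rw [hsc]
      exact ENNReal.ofReal_lt_top
    have mm : Measurable fun x : κ → ℝ => (∑ i, P j i * deriv V (x i)) ^ 2 := (mrow j).pow_const 2
    constructor
    · refine ⟨mm.aestronglyMeasurable, ?_⟩
      rw [hasFiniteIntegral_iff_ofReal (Filter.Eventually.of_forall fun x => sq_nonneg _)]
      exact hfin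
    · rw [integral_eq_lintegral_of_nonneg_ae (Filter.Eventually.of_forall fun x => sq_nonneg _)
        mm.aestronglyMeasurable, hsc, ENNReal.toReal_ofReal]
      · rfl
      · exact mul_nonneg (nsq_nonneg _) (M2_nonneg V)
  have e1 : ∑ j, ∑ i, P j i ^ 2 = P.trace := by
    conv_rhs => rw [← h2]
    unfold Matrix.trace
    refine Finset.sum_congr rfl fun j _ => ?_
    rw [Matrix.diag_apply, Matrix.mul_apply]
    refine Finset.sum_congr rfl fun i _ => ?_
    have : P i j = P j i := by
      conv_lhs => rw [← h1]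
      rfl
    rw [this]
    ring
  constructor
  · simp_rw [e0]
    exact integrable_finsetSum _ fun j _ => (row j).1
  · simp_rw [e0]
    rw [integral_finsetSum _ fun j _ => (row j).1]
    simp_rw [(row _).2]
    rw [← Finset.sum_mul, e1]

/-- derivative of the shifted projection along a coordinate -/
theorem hasDerivAt_mulVec_update (P : Matrix κ κ ℝ) (q x : κ → ℝ) (i j : κ) (t : ℝ) :
    HasDerivAt (fun t => (P *ᵥ (Function.update x i t - q)) j) (P j i) t := by
  have h1 : ∀ t, (P *ᵥ (Function.update x i t - q)) j =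
      P j i * t + (P *ᵥ (Function.update x i 0 - q)) j := by
    intro t
    have : Function.update x i t - q = t • Pi.single i (1 : ℝ) + (Function.update x i 0 - q) := by
      funext k
      by_cases hk : k = i
      · subst hk
        simp only [Pi.sub_apply, Pi.add_apply, Pi.smul_apply, Function.update_self,
          Pi.single_eq_same, smul_eq_mul, mul_one]
        ring
      · simp only [Pi.sub_apply, Pi.add_apply, Pi.smul_apply, Function.update_of_ne hk,
          Pi.single_eq_of_ne hk, smul_eq_mul, mul_zero, zero_add]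
    rw [this, Matrix.mulVec_add, Matrix.mulVec_smul, Matrix.mulVec_single_one]
    simp only [Pi.add_apply, Pi.smul_apply, smul_eq_mul, Matrix.col_apply]
    ring
  have hfun : (fun t => (P *ᵥ (Function.update x i t - q)) j) = fun t : ℝ =>
      P j i * t + (P *ᵥ (Function.update x i 0 - q)) j := funext h1
  rw [hfun]
  exact (((hasDerivAt_id' t).const_mul (P j i)).add_const _).congr_deriv (mul_one _)

theorem hasDerivAt_quad_update (h1 : Pᵀ = P) (h2 : P * P = P) (q x : κ → ℝ) (i : κ) (t : ℝ) :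
    HasDerivAt (fun t => (Function.update x i t - q) ⬝ᵥ (P *ᵥ (Function.update x i t - q)))
      (2 * (P *ᵥ (Function.update x i t - q)) i) t := by
  have e1 : ∀ t, (Function.update x i t - q) ⬝ᵥ (P *ᵥ (Function.update x i t - q)) =
      ∑ j, ((P *ᵥ (Function.update x i t - q)) j) ^ 2 := fun t => proj_quad_eq h1 h2 _
  simp_rw [e1]
  have h3 : HasDerivAt (fun t => ∑ j, ((P *ᵥ (Function.update x i t - q)) j) ^ 2)
      (∑ j, 2 * (P *ᵥ (Function.update x i t - q)) j ^ 1 * P j i) t :=
    HasDerivAt.fun_sum fun j _ =>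
      ((hasDerivAt_mulVec_update P q x i j t).fun_pow 2).congr_deriv (by norm_num)
  refine h3.congr_deriv ?_
  have e2 : (P *ᵥ (Function.update x i t - q)) i =
      ∑ j, (P *ᵥ (Function.update x i t - q)) j * P j i := by
    conv_lhs => rw [← h2, ← Matrix.mulVec_mulVec]
    change ∑ j, P i j * (P *ᵥ (Function.update x i t - q)) j = _
    refine Finset.sum_congr rfl fun j _ => ?_
    have : P i j = P j i := by
      conv_lhs => rw [← h1]
      rfl
    rw [this, mul_comm]
  rw [e2, Finset.mul_sum]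
  refine Finset.sum_congr rfl fun j _ => ?_
  ring

/-- **negative moment** of the projection of a random vector -/
theorem NiceV.neg_moment (h : NiceV V K) (h1 : Pᵀ = P) (h2 : P * P = P) (hr : 3 ≤ P.trace)
    (q : κ → ℝ) {ε : ℝ} (hε : 0 < ε) :
    ∫ x, (ε + (x - q) ⬝ᵥ (P *ᵥ (x - q)))⁻¹ ∂(Measure.pi fun _ : κ => lawV V) ≤ 3 * M2 V := by
  have := h.prob
  set r := P.trace with hrd
  set π : Measure (κ → ℝ) := Measure.pi fun _ : κ => lawV V with hπ
  set y : (κ → ℝ) → (κ → ℝ) := fun x => P *ᵥ (x - q) with hy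
  set Q : (κ → ℝ) → ℝ := fun x => (x - q) ⬝ᵥ (P *ᵥ (x - q)) with hQ
  set G : (κ → ℝ) → ℝ := fun x => (ε + Q x)⁻¹ with hG
  have Q0 : ∀ x, 0 ≤ Q x := fun x => proj_quad_nonneg h1 h2 _
  have Qe : ∀ x, Q x = ∑ i, (y x i) ^ 2 := fun x => proj_quad_eq h1 h2 _
  have den : ∀ x, 0 < ε + Q x := fun x => by linarith [Q0 x]
  have G0 : ∀ x, 0 < G x := fun x => inv_pos.2 (den x)
  have GQ : ∀ x, Q x * G x ≤ 1 := fun x => by
    simp only [hG]
    rw [mul_inv_le_iff₀ (den x), one_mul]
    linarith
  have Gε : ∀ x, G x ≤ ε⁻¹ := fun x => by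
    simp only [hG]
    exact inv_anti₀ hε (by linarith [Q0 x])
  have my : ∀ i, Measurable fun x : κ → ℝ => y x i := fun i => by
    simp only [hy, Matrix.mulVec, dotProduct, Pi.sub_apply]
    exact Finset.measurable_sum _ fun j _ => ((measurable_pi_apply j).sub_const _).const_mul _
  have mQ : Measurable Q := by
    have : Q = fun x => ∑ i, (y x i) ^ 2 := funext Qe
    rw [this]
    exact Finset.measurable_sum _ fun i _ => (my i).pow_const 2
  have mG : Measurable G := (mQ.const_add ε).inv
  have yG : ∀ x i, (y x i) ^ 2 * G x ≤ 1 := fun x i => by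
    refine le_trans (mul_le_mul_of_nonneg_right ?_ (G0 x).le) (GQ x)
    rw [Qe]
    exact Finset.single_le_sum (f := fun i => (y x i) ^ 2) (fun j _ => sq_nonneg _)
      (Finset.mem_univ i)
  -- the fields
  set Z : κ → (κ → ℝ) → ℝ := fun i x => y x i * G x with hZ
  set Z' : κ → (κ → ℝ) → ℝ := fun i x => P i i * G x - 2 * (y x i) ^ 2 * G x ^ 2 with hZ'
  have mZ : ∀ i, Measurable (Z i) := fun i => (my i).mul mG
  have mZ' : ∀ i, Measurable (Z' i) := fun i =>
    (mG.const_mul _).sub ((((my i).pow_const 2).const_mul 2).mul (mG.pow_const 2))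
  have hder : ∀ i x t, HasDerivAt (fun t => Z i (Function.update x i t))
      (Z' i (Function.update x i t)) t := by
    intro i x t
    have d1 := hasDerivAt_mulVec_update P q x i i t
    have d2 := (hasDerivAt_quad_update h1 h2 q x i t).const_add ε
    have d3 := d2.fun_inv (den (Function.update x i t)).ne'
    refine (d1.fun_mul d3).congr_deriv ?_
    simp only [hZ', hG, hy, hQ]
    have hne := (den (Function.update x i t)).ne'
    simp only [hQ] at hne
    field_simp
    ring
  -- bounds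
  have Pii : ∀ i, |P i i| ≤ 1 := by
    intro i
    have e1 : P i i = ∑ j, P i j ^ 2 := by
      conv_lhs => rw [← h2]
      rw [Matrix.mul_apply]
      refine Finset.sum_congr rfl fun j _ => ?_
      have : P j i = P i j := by
        conv_lhs => rw [← h1]
        rfl
      rw [this]
      ring
    have e2 : P i i ^ 2 ≤ P i i := by
      conv_rhs => rw [e1]
      exact Finset.single_le_sum (f := fun j => P i j ^ 2) (fun j _ => sq_nonneg _)
        (Finset.mem_univ i)
    have e3 : 0 ≤ P i i := le_trans (sq_nonneg _) e2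
    rw [abs_of_nonneg e3]
    nlinarith
  set C : ℝ := 1 + 3 * ε⁻¹ with hC
  have hεi : 0 < ε⁻¹ := inv_pos.2 hε
  have bZ : ∀ i x, |Z i x| ≤ C := by
    intro i x
    have h3 : (Z i x) ^ 2 ≤ ε⁻¹ := by
      have : (Z i x) ^ 2 = ((y x i) ^ 2 * G x) * G x := by
        simp only [hZ]
        ring
      rw [this]
      calc ((y x i) ^ 2 * G x) * G x ≤ 1 * ε⁻¹ :=
            mul_le_mul (yG x i) (Gε x) (G0 x).le (by norm_num)
        _ = ε⁻¹ := one_mul _
    refine abs_le_of_sq_le_sq ?_ (by rw [hC]; positivity)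
    rw [hC]
    nlinarith
  have bZ' : ∀ i x, |Z' i x| ≤ C := by
    intro i x
    have h3 : |P i i * G x| ≤ ε⁻¹ := by
      rw [abs_mul, abs_of_pos (G0 x)]
      calc |P i i| * G x ≤ 1 * ε⁻¹ := mul_le_mul (Pii i) (Gε x) (G0 x).le (by norm_num)
        _ = ε⁻¹ := one_mul _
    have h4 : |2 * (y x i) ^ 2 * G x ^ 2| ≤ 2 * ε⁻¹ := by
      have e1 : 2 * (y x i) ^ 2 * G x ^ 2 = 2 * (((y x i) ^ 2 * G x) * G x) := by ring
      have e2 : 0 ≤ ((y x i) ^ 2 * G x) * G x :=
        mul_nonneg (mul_nonneg (sq_nonneg _) (G0 x).le) (G0 x).le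
      rw [e1, abs_of_nonneg (by linarith)]
      have : ((y x i) ^ 2 * G x) * G x ≤ 1 * ε⁻¹ :=
        mul_le_mul (yG x i) (Gε x) (G0 x).le (by norm_num)
      linarith
    have h5 : |Z' i x| ≤ |P i i * G x| + |2 * (y x i) ^ 2 * G x ^ 2| := abs_sub _ _
    rw [hC]
    linarith
  have iZ' : ∀ i, Integrable (Z' i) π := fun i => by
    refine Integrable.mono' (integrable_const C) (mZ' i).aestronglyMeasurable
      (Filter.Eventually.of_forall fun x => ?_)
    rw [Real.norm_eq_abs]
    exact bZ' i x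
  have iG : Integrable G π := by
    refine Integrable.mono' (integrable_const ε⁻¹) mG.aestronglyMeasurable
      (Filter.Eventually.of_forall fun x => ?_)
    rw [Real.norm_of_nonneg (G0 x).le]
    exact Gε x
  have idV : ∀ i : κ, Integrable (fun x : κ → ℝ => deriv V (x i)) π := fun i =>
    integrable_comp_eval (μ := fun _ : κ => lawV V) (i := i) h.integrable_deriv
  have iVZ : ∀ i, Integrable (fun x => deriv V (x i) * Z i x) π := fun i => by
    refine (idV i).mul_bdd (c := C) (mZ i).aestronglyMeasurable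
      (Filter.Eventually.of_forall fun x => ?_)
    rw [Real.norm_eq_abs]
    exact bZ i x
  have hibp : ∀ i, ∫ x, Z' i x ∂π = ∫ x, deriv V (x i) * Z i x ∂π := fun i =>
    h.ibp_pi i (mZ i) (mZ' i) (hder i) (bZ i) (bZ' i)
  have hsum : ∫ x, ∑ i, Z' i x ∂π = ∫ x, ∑ i, deriv V (x i) * Z i x ∂π := by
    rw [integral_finsetSum _ fun i _ => iZ' i, integral_finsetSum _ fun i _ => iVZ i]
    exact Finset.sum_congr rfl fun i _ => hibp i
  -- lower bound
  have lo : (r - 2) * ∫ x, G x ∂π ≤ ∫ x, ∑ i, Z' i x ∂π := by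
    rw [← integral_const_mul]
    refine integral_mono (iG.const_mul _) (integrable_finsetSum _ fun i _ => iZ' i) fun x => ?_
    have e1 : ∑ i, Z' i x = r * G x - 2 * (Q x * G x) * G x := by
      simp only [hZ']
      rw [Finset.sum_sub_distrib, ← Finset.sum_mul, Qe]
      have : ∑ i, P i i = r := rfl
      rw [this, Finset.sum_mul, Finset.mul_sum, Finset.sum_mul]
      congr 1
      refine Finset.sum_congr rfl fun i _ => ?_
      ring
    simp only
    rw [e1]
    nlinarith [GQ x, G0 x]
  -- upper bound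
  obtain ⟨iS, eS⟩ := h.proj_score (κ := κ) h1 h2
  have ha : 0 < r - 2 := by linarith
  have up : ∫ x, ∑ i, deriv V (x i) * Z i x ∂π ≤
      1 / (2 * (r - 2)) * (r * M2 V) + (r - 2) / 2 * ∫ x, G x ∂π := by
    rw [← eS, ← integral_const_mul, ← integral_const_mul, ← integral_add (iS.const_mul _)
      (iG.const_mul _)]
    refine integral_mono (integrable_finsetSum _ fun i _ => iVZ i)
      ((iS.const_mul _).add (iG.const_mul _)) fun x => ?_
    set s : κ → ℝ := fun i => deriv V (x i) with hs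
    have e1 : ∑ i, deriv V (x i) * Z i x = (s ⬝ᵥ (P *ᵥ (x - q))) * G x := by
      simp only [hZ, hy, dotProduct, hs]
      rw [Finset.sum_mul]
      refine Finset.sum_congr rfl fun i _ => ?_
      ring
    have e2 := proj_quad_nonneg h1 h2 (s - ((r - 2) * G x) • (x - q))
    have e3 : (s - ((r - 2) * G x) • (x - q)) ⬝ᵥ (P *ᵥ (s - ((r - 2) * G x) • (x - q))) =
        s ⬝ᵥ (P *ᵥ s) - 2 * ((r - 2) * G x) * (s ⬝ᵥ (P *ᵥ (x - q))) +
          ((r - 2) * G x) ^ 2 * Q x := by
      have sym : (x - q) ⬝ᵥ (P *ᵥ s) = s ⬝ᵥ (P *ᵥ (x - q)) := by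
        rw [Matrix.dotProduct_mulVec, ← Matrix.mulVec_transpose, h1, dotProduct_comm]
      rw [Matrix.mulVec_sub, Matrix.mulVec_smul, sub_dotProduct, dotProduct_sub, dotProduct_sub,
        smul_dotProduct, smul_dotProduct, dotProduct_smul, dotProduct_smul, sym]
      simp only [smul_eq_mul, hQ]
      ring
    rw [e3] at e2
    simp only
    rw [e1]
    have g0 := G0 x
    have q1 := GQ x
    have q0 := Q0 x
    -- 2 a G s·Py ≤ s·Ps + a² G² Q ≤ s·Ps + a² G
    have e4 : 2 * (r - 2) * ((s ⬝ᵥ (P *ᵥ (x - q))) * G x) ≤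
        s ⬝ᵥ (P *ᵥ s) + (r - 2) ^ 2 * G x := by
      have e5 : ((r - 2) * G x) ^ 2 * Q x ≤ (r - 2) ^ 2 * G x := by
        have : ((r - 2) * G x) ^ 2 * Q x = ((r - 2) ^ 2 * G x) * (Q x * G x) := by ring
        rw [this]
        exact mul_le_of_le_one_right (by positivity) q1
      linarith
    have e6 : (s ⬝ᵥ (P *ᵥ (x - q))) * G x =
        1 / (2 * (r - 2)) * (2 * (r - 2) * ((s ⬝ᵥ (P *ᵥ (x - q))) * G x)) := by
      field_simp
    rw [e6]
    calc 1 / (2 * (r - 2)) * (2 * (r - 2) * ((s ⬝ᵥ (P *ᵥ (x - q))) * G x))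
        ≤ 1 / (2 * (r - 2)) * (s ⬝ᵥ (P *ᵥ s) + (r - 2) ^ 2 * G x) :=
          mul_le_mul_of_nonneg_left e4 (by positivity)
      _ = 1 / (2 * (r - 2)) * (s ⬝ᵥ (P *ᵥ s)) + (r - 2) / 2 * G x := by
          field_simp
  -- conclusion
  rw [hsum] at lo
  have fin := lo.trans up
  have M0 := M2_nonneg V
  have fin2 : (r - 2) / 2 * ∫ x, G x ∂π ≤ 1 / (2 * (r - 2)) * (r * M2 V) := by linarith
  have fin3 : (r - 2) ^ 2 * ∫ x, G x ∂π ≤ r * M2 V := by
    have : (r - 2) ^ 2 * ∫ x, G x ∂π = 2 * (r - 2) * ((r - 2) / 2 * ∫ x, G x ∂π) := by ring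
    rw [this]
    calc 2 * (r - 2) * ((r - 2) / 2 * ∫ x, G x ∂π)
        ≤ 2 * (r - 2) * (1 / (2 * (r - 2)) * (r * M2 V)) :=
          mul_le_mul_of_nonneg_left fin2 (by linarith)
      _ = r * M2 V := by field_simp
  have hGi : 0 ≤ ∫ x, G x ∂π := integral_nonneg fun x => (G0 x).le
  have h7 : r * M2 V ≤ 3 * (r - 2) ^ 2 * M2 V := by
    refine mul_le_mul_of_nonneg_right ?_ M0
    nlinarith
  have h8 : (r - 2) ^ 2 * ∫ x, G x ∂π ≤ (r - 2) ^ 2 * (3 * M2 V) := by linarith
  exact le_of_mul_le_mul_left h8 (by positivity)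

end pi

end Run7.h834
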