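import Pool.Agent.Run7.h834.Trace
import Pool.Agent.Run7.h834.SW1

/-! Local counting of eigenvalues through the columns of the matrix. -/

set_option autoImplicit false
open MeasureTheory Matrix Set Module
open scoped ENNReal

namespace Run7.h834

section quad

variable {κ : Type*} [Fintype κ] [DecidableEq κ]

/-- the minor without the site `i` -/
def mnr (K : Matrix κ κ ℝ) (i : κ) : Matrix {j // j ≠ i} {j // j ≠ i} ℝ :=
  K.submatrix Subtype.val Subtype.val

/-- the column of the site `i` without its diagonal entry -/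
def clm (K : Matrix κ κ ℝ) (i : κ) : {j // j ≠ i} → ℝ := fun j => K j i

/-- restriction of a vector -/
def rst (x : κ → ℝ) (i : κ) : {j // j ≠ i} → ℝ := fun j => x j

theorem mulVec_minor (K : Matrix κ κ ℝ) (i : κ) (x : κ → ℝ) (j : {j // j ≠ i}) :
    (K *ᵥ x) j = (mnr K i *ᵥ rst x i + x i • clm K i) j := by
  simp only [Matrix.mulVec, dotProduct, mnr, rst, clm, Pi.add_apply, Pi.smul_apply,
    Matrix.submatrix_apply, smul_eq_mul]
  rw [Fintype.sum_eq_add_sum_subtype_ne _ i]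
  ring

theorem quad_minor (K : Matrix κ κ ℝ) (i : κ) {x : κ → ℝ} (hx : x i = 0) :
    x ⬝ᵥ (K *ᵥ x) = rst x i ⬝ᵥ (mnr K i *ᵥ rst x i) := by
  unfold dotProduct
  rw [Fintype.sum_eq_add_sum_subtype_ne _ i, hx, zero_mul, zero_add]
  refine Finset.sum_congr rfl fun j _ => ?_
  rw [mulVec_minor, hx, zero_smul, add_zero]
  rfl

theorem dot_minor (x : κ → ℝ) (i : κ) : x ⬝ᵥ x = x i ^ 2 + rst x i ⬝ᵥ rst x i := by
  unfold dotProduct
  rw [Fintype.sum_eq_add_sum_subtype_ne _ i]
  simp only [rst]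
  ring

theorem negIdx_le_minor (K : Matrix κ κ ℝ) (i : κ) : negIdx K ≤ negIdx (mnr K i) + 1 := by
  obtain ⟨V, hV, hn⟩ := exists_negIdx K
  set L : Submodule ℝ (κ → ℝ) := LinearMap.ker (LinearMap.proj i : (κ → ℝ) →ₗ[ℝ] ℝ) with hL
  set f : (κ → ℝ) →ₗ[ℝ] ({j // j ≠ i} → ℝ) := LinearMap.funLeft ℝ ℝ Subtype.val with hf
  have hfr : ∀ x, f x = rst x i := fun x => rfl
  have h1 : finrank ℝ ↥((V ⊓ L).map f) = finrank ℝ ↥(V ⊓ L) := by
    have hd : Function.Injective (f.domRestrict (V ⊓ L)) := by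
      rw [injective_iff_map_eq_zero]
      rintro ⟨x, hx⟩ hfx
      have h0 : x i = 0 := hx.2
      have hfx' : f x = 0 := hfx
      apply Subtype.ext
      funext j
      by_cases hj : j = i
      · subst hj
        exact h0
      · exact congrFun hfx' ⟨j, hj⟩
    have := LinearMap.finrank_range_of_inj hd
    rwa [LinearMap.range_domRestrict] at this
  have h2 : finrank ℝ ↥(V ⊓ L) ≤ negIdx (mnr K i) := by
    rw [← h1]
    refine le_negIdx fun y hy h0 => ?_
    obtain ⟨x, hx, rfl⟩ := Submodule.mem_map.1 hy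
    have hxi : x i = 0 := hx.2
    rw [hfr, ← quad_minor K i hxi]
    refine hn x hx.1 ?_
    rintro rfl
    exact h0 (map_zero f)
  have h3 := Submodule.finrank_sup_add_finrank_inf_eq V L
  have h4 : finrank ℝ ↥(V ⊔ L) ≤ Fintype.card κ := by
    have := Submodule.finrank_le (V ⊔ L)
    rwa [finrank_fintype_fun_eq_card] at this
  have h5 := LinearMap.finrank_range_add_finrank_ker (LinearMap.proj i : (κ → ℝ) →ₗ[ℝ] ℝ)
  rw [finrank_fintype_fun_eq_card, ← hL] at h5
  have h6 : finrank ℝ (LinearMap.range (LinearMap.proj i : (κ → ℝ) →ₗ[ℝ] ℝ)) ≤ 1 := by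
    have := Submodule.finrank_le (LinearMap.range (LinearMap.proj i : (κ → ℝ) →ₗ[ℝ] ℝ))
    simpa using this
  omega

theorem minor_le_negIdx (K : Matrix κ κ ℝ) (i : κ) : negIdx (mnr K i) ≤ negIdx K := by
  set f : ({j // j ≠ i} → ℝ) →ₗ[ℝ] (κ → ℝ) := extZ (fun j => j ≠ i) with hf
  have hrst : ∀ y, rst (f y) i = y := by
    intro y
    funext j
    simp [rst, hf, extZ, j.2]
  have hfi : ∀ y, f y i = 0 := by
    intro y
    simp [hf, extZ]
  refine negIdx_comp_le f ?_ fun y => ?_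
  · intro y z hyz
    rw [← hrst y, ← hrst z, hyz]
  · rw [quad_minor K i (hfi y), hrst]

theorem mnr_sub (K : Matrix κ κ ℝ) (i : κ) (t : ℝ) :
    mnr (K - t • (1 : Matrix κ κ ℝ)) i = mnr K i - t • 1 := by
  ext j l
  simp only [mnr, Matrix.submatrix_apply, Matrix.sub_apply, Matrix.smul_apply, Matrix.one_apply,
    smul_eq_mul]
  congr 2
  by_cases h : j = l
  · simp [h]
  · have : (j : κ) ≠ l := fun h2 => h (Subtype.ext h2)
    simp [h, this]

theorem nInt_minor (K : Matrix κ κ ℝ) (i : κ) {η : ℝ} (hη : 0 ≤ η) :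
    nInt K η ≤ nInt (mnr K i) η + 1 := by
  unfold nInt
  rw [← mnr_sub, ← mnr_sub]
  have h1 := negIdx_le_minor (K - η • (1 : Matrix κ κ ℝ)) i
  have h2 := minor_le_negIdx (K - (-η) • (1 : Matrix κ κ ℝ)) i
  omega

end quad

end Run7.h834
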