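import Pool.Agent.Run7.h834.SW2

/-! Local counting of eigenvalues through the columns of the matrix: the inequalities. -/

set_option autoImplicit false
open MeasureTheory Matrix Set Module
open scoped ENNReal

namespace Run7.h834

section quad

variable {κ : Type*} [Fintype κ] [DecidableEq κ]

/-- `S² + η²` -/
def sqM (S : Matrix κ κ ℝ) (η : ℝ) : Matrix κ κ ℝ := S * S + (η ^ 2) • (1 : Matrix κ κ ℝ)

theorem quad_conj (U : Matrix κ κ ℝ) (d : κ → ℝ) (x : κ → ℝ) :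
    x ⬝ᵥ ((U * Matrix.diagonal d * Uᵀ) *ᵥ x) = ∑ β, d β * ((Uᵀ *ᵥ x) β) ^ 2 := by
  rw [← Matrix.mulVec_mulVec, ← Matrix.mulVec_mulVec, Matrix.dotProduct_mulVec,
    ← Matrix.mulVec_transpose]
  unfold dotProduct
  refine Finset.sum_congr rfl fun β _ => ?_
  rw [Matrix.mulVec_diagonal]
  ring

theorem sqM_inv {S : Matrix κ κ ℝ} {η : ℝ} (hη : 0 < η) {lam : κ → ℝ} {U : Matrix κ κ ℝ}
    (h1 : U * Uᵀ = 1) (h2 : Uᵀ * U = 1) (h3 : S = U * Matrix.diagonal lam * Uᵀ) :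
    (sqM S η)⁻¹ = U * Matrix.diagonal (fun i => (lam i ^ 2 + η ^ 2)⁻¹) * Uᵀ ∧
      IsUnit (sqM S η) := by
  have h0 : ∀ i, lam i ^ 2 + η ^ 2 ≠ 0 := fun i => by positivity
  have e1 : sqM S η = U * Matrix.diagonal (fun i => lam i ^ 2 + η ^ 2) * Uᵀ := by
    have e2 : S * S = U * Matrix.diagonal (fun i => lam i ^ 2) * Uᵀ := by
      rw [h3]
      have : U * Matrix.diagonal lam * Uᵀ * (U * Matrix.diagonal lam * Uᵀ) =
          U * (Matrix.diagonal lam * (Uᵀ * U) * Matrix.diagonal lam) * Uᵀ := by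
        simp only [Matrix.mul_assoc]
      rw [this, h2, Matrix.mul_one, Matrix.diagonal_mul_diagonal]
      congr 3
      funext i
      ring
    have e3 : (η ^ 2) • (1 : Matrix κ κ ℝ) = U * Matrix.diagonal (fun _ => η ^ 2) * Uᵀ := by
      have : Matrix.diagonal (fun _ : κ => η ^ 2) = (η ^ 2) • (1 : Matrix κ κ ℝ) := by
        rw [← Matrix.diagonal_one, ← Matrix.diagonal_smul]
        congr 1
        funext i
        simp
      rw [this, Matrix.mul_smul, Matrix.mul_one, Matrix.smul_mul, h1]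
    unfold sqM
    rw [e2, e3, ← Matrix.add_mul, ← Matrix.mul_add, Matrix.diagonal_add]
  refine ⟨spec_inv h0 h1 h2 e1, ?_⟩
  rw [e1, Matrix.isUnit_iff_isUnit_det, Matrix.det_mul, Matrix.det_mul, Matrix.det_diagonal]
  have hU : IsUnit U.det := by
    have := congrArg Matrix.det h1
    rw [Matrix.det_mul, Matrix.det_one] at this
    exact IsUnit.of_mul_eq_one _ this
  have hUt : IsUnit Uᵀ.det := by rwa [Matrix.det_transpose]
  refine (hU.mul ?_).mul hUt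
  rw [isUnit_iff_ne_zero, Finset.prod_ne_zero_iff]
  exact fun i _ => h0 i

theorem sqM_solve {S : Matrix κ κ ℝ} (hS : S.IsHermitian) {η : ℝ} (hη : 0 < η) (X : κ → ℝ) :
    S *ᵥ (S *ᵥ ((sqM S η)⁻¹ *ᵥ X)) + (η ^ 2) • ((sqM S η)⁻¹ *ᵥ X) = X := by
  obtain ⟨U, h1, h2, h3⟩ := spec_decomp hS
  obtain ⟨-, hu⟩ := sqM_inv hη h1 h2 h3
  have e1 : sqM S η *ᵥ ((sqM S η)⁻¹ *ᵥ X) = X := by
    rw [Matrix.mulVec_mulVec, Matrix.mul_nonsing_inv _ ((Matrix.isUnit_iff_isUnit_det _).1 hu),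
      Matrix.one_mulVec]
  conv_rhs => rw [← e1]
  unfold sqM
  rw [Matrix.add_mulVec, Matrix.smul_mulVec, Matrix.one_mulVec, ← Matrix.mulVec_mulVec]

theorem dot_symm {S : Matrix κ κ ℝ} (hS : Sᵀ = S) (a b : κ → ℝ) :
    (S *ᵥ a) ⬝ᵥ b = a ⬝ᵥ (S *ᵥ b) := by
  rw [Matrix.dotProduct_mulVec, ← Matrix.mulVec_transpose, hS]

/-- core inequality, abstract form -/
theorem core_ineq {S : Matrix κ κ ℝ} (hS : Sᵀ = S) {η : ℝ} (u z X : κ → ℝ) (c : ℝ)
    (hX : S *ᵥ (S *ᵥ z) + (η ^ 2) • z = X) :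
    η ^ 2 * (c ^ 2 * (X ⬝ᵥ z)) ≤
      (S *ᵥ u + c • X) ⬝ᵥ (S *ᵥ u + c • X) + η ^ 2 * (u ⬝ᵥ u) := by
  set A := S *ᵥ u with hA
  set D := S *ᵥ z with hD
  have f1 : A ⬝ᵥ z = u ⬝ᵥ D := dot_symm hS u z
  have f2 : X ⬝ᵥ z = D ⬝ᵥ D + η ^ 2 * (z ⬝ᵥ z) := by
    rw [← hX, add_dotProduct, smul_dotProduct, dot_symm hS, smul_eq_mul]
  have p1 := dot_self_nonneg (A + c • X - (c * η ^ 2) • z)
  have p2 := dot_self_nonneg (η • u + (c * η) • D)
  have e1 : (A + c • X - (c * η ^ 2) • z) ⬝ᵥ (A + c • X - (c * η ^ 2) • z) =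
      (A + c • X) ⬝ᵥ (A + c • X) - 2 * (c * η ^ 2) * ((A ⬝ᵥ z) + c * (X ⬝ᵥ z)) +
        (c * η ^ 2) ^ 2 * (z ⬝ᵥ z) := by
    rw [sub_dotProduct, dotProduct_sub, dotProduct_sub]
    simp only [smul_dotProduct, dotProduct_smul, smul_eq_mul]
    have : z ⬝ᵥ (A + c • X) = A ⬝ᵥ z + c * (X ⬝ᵥ z) := by
      rw [dotProduct_comm, add_dotProduct, smul_dotProduct, smul_eq_mul]
    rw [this]
    have : (A + c • X) ⬝ᵥ z = A ⬝ᵥ z + c * (X ⬝ᵥ z) := by
      rw [add_dotProduct, smul_dotProduct, smul_eq_mul]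
    rw [this]
    ring
  have e2 : (η • u + (c * η) • D) ⬝ᵥ (η • u + (c * η) • D) =
      η ^ 2 * (u ⬝ᵥ u) + 2 * (c * η ^ 2) * (u ⬝ᵥ D) + (c * η) ^ 2 * (D ⬝ᵥ D) := by
    rw [add_dotProduct, dotProduct_add, dotProduct_add]
    simp only [smul_dotProduct, dotProduct_smul, smul_eq_mul]
    rw [dotProduct_comm D u]
    ring
  rw [e1] at p1
  rw [e2] at p2
  rw [f1] at p1
  have key := add_nonneg p1 p2
  have e3 : (c * η ^ 2) ^ 2 * (z ⬝ᵥ z) + (c * η) ^ 2 * (D ⬝ᵥ D) =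
      c ^ 2 * η ^ 2 * (X ⬝ᵥ z) := by
    rw [f2]
    ring
  nlinarith

/-- the column inequality -/
theorem col_ineq {S : Matrix κ κ ℝ} (hS : S.IsHermitian) {η : ℝ} (hη : 0 < η) (i : κ)
    (u : κ → ℝ) :
    η ^ 2 * ((1 + clm S i ⬝ᵥ ((sqM (mnr S i) η)⁻¹ *ᵥ clm S i)) * u i ^ 2) ≤
      (S *ᵥ u) ⬝ᵥ (S *ᵥ u) + η ^ 2 * (u ⬝ᵥ u) := by
  have hM : (mnr S i).IsHermitian := hS.submatrix _
  have hMt : (mnr S i)ᵀ = mnr S i := by
    have := hM.eq
    rwa [Matrix.conjTranspose_eq_transpose_of_trivial] at this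
  have key := core_ineq hMt (η := η) (rst u i) ((sqM (mnr S i) η)⁻¹ *ᵥ clm S i) (clm S i) (u i)
    (sqM_solve hM hη _)
  have e1 : rst (S *ᵥ u) i = mnr S i *ᵥ rst u i + u i • clm S i := by
    funext j
    exact mulVec_minor S i u j
  rw [dot_minor (S *ᵥ u) i, dot_minor u i, e1]
  nlinarith [sq_nonneg ((S *ᵥ u) i)]

/-- the window indicator -/
noncomputable def wI (η : ℝ) (lam : κ → ℝ) (α : κ) : ℝ :=
  if -η ≤ lam α ∧ lam α < η then 1 else 0

theorem wI_sq (η : ℝ) (lam : κ → ℝ) (α : κ) : wI η lam α ^ 2 = wI η lam α := by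
  unfold wI
  split_ifs <;> norm_num

theorem wI_nonneg (η : ℝ) (lam : κ → ℝ) (α : κ) : 0 ≤ wI η lam α := by
  unfold wI
  split_ifs <;> norm_num

theorem wI_lam {η : ℝ} (lam : κ → ℝ) (α : κ) :
    lam α ^ 2 * wI η lam α ≤ η ^ 2 * wI η lam α := by
  unfold wI
  split_ifs with h
  · rw [mul_one, mul_one]
    exact sq_le_sq' (by linarith [h.1]) h.2.le
  · simp

theorem orth_norm {U : Matrix κ κ ℝ} (h2 : Uᵀ * U = 1) (y : κ → ℝ) :
    (U *ᵥ y) ⬝ᵥ (U *ᵥ y) = y ⬝ᵥ y := by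
  rw [Matrix.dotProduct_mulVec, ← Matrix.mulVec_transpose, Matrix.mulVec_mulVec, h2,
    Matrix.one_mulVec]

/-- local counting -/
theorem count_le {S : Matrix κ κ ℝ} (hS : S.IsHermitian) {η : ℝ} (hη : 0 < η) :
    (nInt S η : ℝ) ≤ ∑ i, 2 / (1 + clm S i ⬝ᵥ ((sqM (mnr S i) η)⁻¹ *ᵥ clm S i)) := by
  obtain ⟨U, h1, h2, h3⟩ := spec_decomp hS
  set lam := hS.eigenvalues with hlam
  have hN : (nInt S η : ℝ) = ∑ α, wI η lam α := nInt_eq hS hη.le
  have hcol : ∀ α, ∑ i, U i α ^ 2 = 1 := by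
    intro α
    have := congrFun (congrFun h2 α) α
    rw [Matrix.mul_apply, Matrix.one_apply_eq] at this
    rw [← this]
    refine Finset.sum_congr rfl fun i _ => ?_
    rw [Matrix.transpose_apply]
    ring
  have hsum : ∑ α, wI η lam α = ∑ i, ∑ α, wI η lam α * U i α ^ 2 := by
    rw [Finset.sum_comm]
    refine Finset.sum_congr rfl fun α _ => ?_
    rw [← Finset.mul_sum, hcol, mul_one]
  rw [hN, hsum]
  refine Finset.sum_le_sum fun i _ => ?_
  set p := ∑ α, wI η lam α * U i α ^ 2 with hp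
  have p0 : 0 ≤ p := Finset.sum_nonneg fun α _ => mul_nonneg (wI_nonneg _ _ _) (sq_nonneg _)
  set y : κ → ℝ := fun α => wI η lam α * U i α with hy
  have hyy : y ⬝ᵥ y = p := by
    simp only [dotProduct, hy, hp]
    refine Finset.sum_congr rfl fun α _ => ?_
    have := wI_sq η lam α
    nlinarith
  have hui : (U *ᵥ y) i = p := by
    simp only [Matrix.mulVec, dotProduct, hy, hp]
    refine Finset.sum_congr rfl fun α _ => ?_
    ring
  have huu : (U *ᵥ y) ⬝ᵥ (U *ᵥ y) = p := by rw [orth_norm h2, hyy]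
  have hSu : S *ᵥ (U *ᵥ y) = U *ᵥ (fun α => lam α * y α) := by
    rw [h3]
    have : (U * Matrix.diagonal lam * Uᵀ) *ᵥ (U *ᵥ y) =
        U *ᵥ (Matrix.diagonal lam *ᵥ ((Uᵀ * U) *ᵥ y)) := by
      simp only [Matrix.mulVec_mulVec, Matrix.mul_assoc]
    rw [this, h2, Matrix.one_mulVec]
    congr 1
    funext α
    rw [Matrix.mulVec_diagonal]
  have hSS : (S *ᵥ (U *ᵥ y)) ⬝ᵥ (S *ᵥ (U *ᵥ y)) ≤ η ^ 2 * p := by
    rw [hSu, orth_norm h2, ← hyy]
    simp only [dotProduct, hy]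
    rw [Finset.mul_sum]
    refine Finset.sum_le_sum fun α _ => ?_
    have h4 := wI_lam (η := η) lam α
    have h5 := wI_sq η lam α
    have e1 : lam α * (wI η lam α * U i α) * (lam α * (wI η lam α * U i α)) =
        (lam α ^ 2 * wI η lam α ^ 2) * U i α ^ 2 := by ring
    have e2 : η ^ 2 * (wI η lam α * U i α * (wI η lam α * U i α)) =
        (η ^ 2 * wI η lam α ^ 2) * U i α ^ 2 := by ring
    rw [e1, e2, h5]
    exact mul_le_mul_of_nonneg_right h4 (sq_nonneg _)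
  have key := col_ineq hS hη i (U *ᵥ y)
  rw [hui, huu] at key
  set q := clm S i ⬝ᵥ ((sqM (mnr S i) η)⁻¹ *ᵥ clm S i) with hq
  have q0 : 0 ≤ q := by
    have hM : (mnr S i).IsHermitian := hS.submatrix _
    obtain ⟨U', g1, g2, g3⟩ := spec_decomp hM
    rw [hq, (sqM_inv hη g1 g2 g3).1, quad_conj]
    exact Finset.sum_nonneg fun β _ => mul_nonneg (by positivity) (sq_nonneg _)
  have h6 : (1 + q) * p ^ 2 ≤ 2 * p := by
    have h7 : η ^ 2 * ((1 + q) * p ^ 2) ≤ η ^ 2 * (2 * p) := by linarith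
    exact le_of_mul_le_mul_left h7 (by positivity)
  rw [le_div_iff₀ (by linarith)]
  rcases p0.eq_or_lt with hp0 | hp0
  · rw [← hp0]
    norm_num
  · have h8 : ((1 + q) * p) * p ≤ 2 * p := by nlinarith
    have := le_of_mul_le_mul_right h8 hp0
    linarith

/-- lower bound of the inverse by the spectral projection -/
theorem exists_proj {S : Matrix κ κ ℝ} (hS : S.IsHermitian) {η : ℝ} (hη : 0 < η) :
    ∃ P : Matrix κ κ ℝ, Pᵀ = P ∧ P * P = P ∧ P.trace = nInt S η ∧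
      ∀ x : κ → ℝ, (x ⬝ᵥ (P *ᵥ x)) / (2 * η ^ 2) ≤ x ⬝ᵥ ((sqM S η)⁻¹ *ᵥ x) := by
  obtain ⟨U, h1, h2, h3⟩ := spec_decomp hS
  set lam := hS.eigenvalues with hlam
  refine ⟨U * Matrix.diagonal (wI η lam) * Uᵀ, ?_, ?_, ?_, ?_⟩
  · rw [Matrix.transpose_mul, Matrix.transpose_mul, Matrix.transpose_transpose,
      Matrix.diagonal_transpose, Matrix.mul_assoc]
  · have : U * Matrix.diagonal (wI η lam) * Uᵀ * (U * Matrix.diagonal (wI η lam) * Uᵀ) =
        U * (Matrix.diagonal (wI η lam) * (Uᵀ * U) * Matrix.diagonal (wI η lam)) * Uᵀ := by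
      simp only [Matrix.mul_assoc]
    rw [this, h2, Matrix.mul_one, Matrix.diagonal_mul_diagonal]
    congr 3
    funext α
    rw [← sq, wI_sq]
  · rw [Matrix.trace_mul_comm, ← Matrix.mul_assoc, h2, Matrix.one_mul, Matrix.trace_diagonal]
    exact (nInt_eq hS hη.le).symm
  · intro x
    rw [quad_conj, (sqM_inv hη h1 h2 h3).1, quad_conj, Finset.sum_div]
    refine Finset.sum_le_sum fun β _ => ?_
    rw [mul_div_right_comm]
    refine mul_le_mul_of_nonneg_right ?_ (sq_nonneg _)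
    unfold wI
    split_ifs with h
    · rw [one_div]
      refine inv_anti₀ (by positivity) ?_
      have : lam β ^ 2 ≤ η ^ 2 := sq_le_sq' (by linarith [h.1]) h.2.le
      linarith
    · rw [zero_div]
      positivity

end quad

end Run7.h834
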