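import Pool.Agent.Run7.h834.SW3
import Pool.Agent.Run7.h834.Frac2

/-! Mean number of eigenvalues of a block in a window of the size of the mean spacing. -/

set_option autoImplicit false
open MeasureTheory Matrix Set Module
open scoped ENNReal

namespace Run7.h834

variable {V : ℝ → ℝ} {K : ℝ}

/-- a full symmetric block -/
def sA (s d : ℕ) (ω : Om) : Matrix (Fin d) (Fin d) ℝ :=
  Matrix.of fun i j => ω (s + min (i : ℕ) j, s + max (i : ℕ) j)

theorem sA_isHermitian (s d : ℕ) (ω : Om) : (sA s d ω).IsHermitian := by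
  ext i j
  simp only [Matrix.conjTranspose_apply, sA, Matrix.of_apply, star_trivial]
  rw [max_comm, min_comm]

theorem measurable_sA (s d : ℕ) (i j : Fin d) : Measurable fun ω : Om => sA s d ω i j :=
  measurable_pi_apply _

/-- the column statistic -/
noncomputable def cG (s d : ℕ) (Q : Matrix (Fin d) (Fin d) ℝ) (η : ℝ) (i : Fin d) (ω : Om) :
    ℝ≥0∞ :=
  if 3 ≤ nInt (mnr (sA s d ω + Q) i) η then
    ENNReal.ofReal (2 / (1 + clm (sA s d ω + Q) i ⬝ᵥ
      ((sqM (mnr (sA s d ω + Q) i) η)⁻¹ *ᵥ clm (sA s d ω + Q) i))) else 0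

theorem measurable_cG (s d : ℕ) (Q : Matrix (Fin d) (Fin d) ℝ) (η : ℝ) (i : Fin d) :
    Measurable (cG s d Q η i) := by
  have mS : ∀ j l, Measurable fun ω : Om => (sA s d ω + Q) j l := fun j l =>
    (measurable_sA s d j l).add_const _
  have mM : ∀ j l, Measurable fun ω : Om => mnr (sA s d ω + Q) i j l := fun j l => mS _ _
  have mT : ∀ j l, Measurable fun ω : Om => sqM (mnr (sA s d ω + Q) i) η j l := fun j l => by
    unfold sqM
    simp only [Matrix.add_apply, Matrix.mul_apply]
    exact (Finset.measurable_sum _ fun k _ => (mM j k).mul (mM k l)).add_const _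
  have mI : ∀ j l, Measurable fun ω : Om => (sqM (mnr (sA s d ω + Q) i) η)⁻¹ j l :=
    fun j l => measurable_inv_entry mT j l
  have mc : ∀ j, Measurable fun ω : Om => clm (sA s d ω + Q) i j := fun j => mS _ _
  have mq : Measurable fun ω : Om => clm (sA s d ω + Q) i ⬝ᵥ
      ((sqM (mnr (sA s d ω + Q) i) η)⁻¹ *ᵥ clm (sA s d ω + Q) i) := by
    simp only [Matrix.mulVec, dotProduct]
    exact Finset.measurable_sum _ fun j _ => (mc j).mul
      (Finset.measurable_sum _ fun l _ => (mI j l).mul (mc l))
  have mn : Measurable fun ω : Om => nInt (mnr (sA s d ω + Q) i) η := measurable_nInt mM η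
  unfold cG
  refine Measurable.ite ?_ ?_ measurable_const
  · exact measurableSet_le measurable_const mn
  · exact ENNReal.measurable_ofReal.comp (measurable_const.div (mq.const_add 1))

theorem nInt_le_cG (s d : ℕ) {Q : Matrix (Fin d) (Fin d) ℝ} (hQ : Q.IsHermitian) {η : ℝ}
    (hη : 0 < η) (ω : Om) :
    (nInt (sA s d ω + Q) η : ℝ≥0∞) ≤ 3 + ∑ i, cG s d Q η i ω := by
  set S := sA s d ω + Q with hS
  have hSH : S.IsHermitian := (sA_isHermitian s d ω).add hQ
  by_cases h3 : nInt S η ≤ 3
  · refine le_trans ?_ le_self_add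
    exact_mod_cast h3
  · have h4 : ∀ i, 3 ≤ nInt (mnr S i) η := fun i => by
      have := nInt_minor S i hη.le
      omega
    refine le_trans ?_ le_add_self
    have h5 := count_le hSH hη
    have h6 : ∑ i, cG s d Q η i ω = ∑ i, ENNReal.ofReal (2 / (1 + clm S i ⬝ᵥ
      ((sqM (mnr S i) η)⁻¹ *ᵥ clm S i))) := by
      refine Finset.sum_congr rfl fun i _ => ?_
      unfold cG
      rw [← hS, if_pos (h4 i)]
    have q0 : ∀ i, 0 ≤ clm S i ⬝ᵥ ((sqM (mnr S i) η)⁻¹ *ᵥ clm S i) := by
      intro i
      have hM : (mnr S i).IsHermitian := hSH.submatrix _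
      obtain ⟨U', g1, g2, g3⟩ := spec_decomp hM
      rw [(sqM_inv hη g1 g2 g3).1, quad_conj]
      exact Finset.sum_nonneg fun β _ => mul_nonneg (by positivity) (sq_nonneg _)
    rw [h6, ← ENNReal.ofReal_sum_of_nonneg fun i _ => by
      have := q0 i
      positivity, ← ENNReal.ofReal_natCast]
    exact ENNReal.ofReal_le_ofReal h5

theorem cG_mean (h : NiceV V K) (s d : ℕ) {Q : Matrix (Fin d) (Fin d) ℝ} (hQ : Q.IsHermitian)
    {η : ℝ} (hη : 0 < η) (i : Fin d) :
    ∫⁻ ω, cG s d Q η i ω ∂(Pm (lawV V)) ≤ ENNReal.ofReal (12 * η ^ 2 * M2 V) := by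
  have := h.prob
  set φ : {j : Fin d // j ≠ i} → ℕ × ℕ := fun j =>
    (s + min ((j : Fin d) : ℕ) i, s + max ((j : Fin d) : ℕ) i) with hφ
  have hφi : Function.Injective φ := by
    intro j l h
    simp only [hφ, Prod.mk.injEq] at h
    apply Subtype.ext
    apply Fin.ext
    omega
  set T : Set (ℕ × ℕ) := Set.range φ with hT
  rw [lintegral_mix (lawV V) Tᶜ (measurable_cG s d Q η i)]
  calc _ ≤ ∫⁻ _, ENNReal.ofReal (12 * η ^ 2 * M2 V) ∂(Pm (lawV V)) := by
        refine lintegral_mono fun ω => ?_
        set q : {j : Fin d // j ≠ i} → ℝ := fun j => -Q j i with hq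
        set S' := mnr (sA s d ω + Q) i with hS'
        have hS'H : S'.IsHermitian := ((sA_isHermitian s d ω).add hQ).submatrix _
        have em : ∀ ω' : Om, mnr (sA s d (mix Tᶜ ω ω') + Q) i = S' := by
          intro ω'
          ext j l
          simp only [hS', mnr, Matrix.submatrix_apply, Matrix.add_apply, sA, Matrix.of_apply]
          congr 1
          rw [mix_mem]
          simp only [Set.mem_compl_iff]
          rintro ⟨k, hk⟩
          simp only [hφ, Prod.mk.injEq] at hk
          have hj : ((j : Fin d) : ℕ) ≠ i := fun h2 => j.2 (Fin.ext h2)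
          have hl : ((l : Fin d) : ℕ) ≠ i := fun h2 => l.2 (Fin.ext h2)
          omega
        have ec : ∀ ω' : Om, clm (sA s d (mix Tᶜ ω ω') + Q) i = (fun j => ω' (φ j)) - q := by
          intro ω'
          funext j
          simp only [clm, Matrix.add_apply, sA, Matrix.of_apply, Pi.sub_apply, hq, sub_neg_eq_add]
          congr 1
          rw [mix_notMem]
          simp only [Set.mem_compl_iff, not_not]
          exact ⟨j, rfl⟩
        have e1 : ∀ ω' : Om, cG s d Q η i (mix Tᶜ ω ω') =
            (fun v : {j : Fin d // j ≠ i} → ℝ => if 3 ≤ nInt S' η then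
              ENNReal.ofReal (2 / (1 + (v - q) ⬝ᵥ ((sqM S' η)⁻¹ *ᵥ (v - q)))) else 0)
              (fun j => ω' (φ j)) := by
          intro ω'
          unfold cG
          rw [em, ec]
        simp_rw [e1]
        by_cases h3 : 3 ≤ nInt S' η
        · simp only [if_pos h3]
          obtain ⟨P, p1, p2, p3, p4⟩ := exists_proj hS'H hη
          have hm : Measurable fun v : {j : Fin d // j ≠ i} → ℝ =>
              ENNReal.ofReal (4 * η ^ 2 * (2 * η ^ 2 + (v - q) ⬝ᵥ (P *ᵥ (v - q)))⁻¹) := by
            refine ENNReal.measurable_ofReal.comp (Measurable.const_mul ?_ _)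
            refine Measurable.inv ?_
            simp only [Matrix.mulVec, dotProduct, Pi.sub_apply]
            refine (Finset.measurable_sum _ fun j _ => ?_).const_add _
            exact ((measurable_pi_apply j).sub_const _).mul (Finset.measurable_sum _ fun l _ =>
              ((measurable_pi_apply l).sub_const _).const_mul _)
          have le1 : ∀ v : {j : Fin d // j ≠ i} → ℝ,
              ENNReal.ofReal (2 / (1 + (v - q) ⬝ᵥ ((sqM S' η)⁻¹ *ᵥ (v - q)))) ≤
              ENNReal.ofReal (4 * η ^ 2 * (2 * η ^ 2 + (v - q) ⬝ᵥ (P *ᵥ (v - q)))⁻¹) := by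
            intro v
            refine ENNReal.ofReal_le_ofReal ?_
            have a1 := p4 (v - q)
            have a2 := proj_quad_nonneg p1 p2 (v - q)
            have a3 : 0 ≤ ((v - q) ⬝ᵥ (P *ᵥ (v - q))) / (2 * η ^ 2) := by positivity
            calc 2 / (1 + (v - q) ⬝ᵥ ((sqM S' η)⁻¹ *ᵥ (v - q)))
                ≤ 2 / (1 + ((v - q) ⬝ᵥ (P *ᵥ (v - q))) / (2 * η ^ 2)) :=
                  div_le_div_of_nonneg_left (by norm_num) (by linarith) (by linarith)
              _ = 4 * η ^ 2 * (2 * η ^ 2 + (v - q) ⬝ᵥ (P *ᵥ (v - q)))⁻¹ := by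
                  have : 0 < 2 * η ^ 2 + (v - q) ⬝ᵥ (P *ᵥ (v - q)) := by positivity
                  field_simp
                  norm_num
          refine (lintegral_mono fun ω' => le1 _).trans ?_
          rw [lintegral_sel (lawV V) φ hφi hm]
          have hneg := h.neg_moment p1 p2 (by rw [p3]; exact_mod_cast h3) q
            (ε := 2 * η ^ 2) (by positivity)
          have hin : Integrable (fun v : {j : Fin d // j ≠ i} → ℝ =>
              4 * η ^ 2 * (2 * η ^ 2 + (v - q) ⬝ᵥ (P *ᵥ (v - q)))⁻¹)
              (Measure.pi fun _ : {j : Fin d // j ≠ i} => lawV V) := by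
            refine Integrable.const_mul ?_ _
            refine Integrable.mono' (integrable_const (2 * η ^ 2)⁻¹) ?_
              (Filter.Eventually.of_forall fun v => ?_)
            · refine Measurable.aestronglyMeasurable (Measurable.inv ?_)
              simp only [Matrix.mulVec, dotProduct, Pi.sub_apply]
              refine (Finset.measurable_sum _ fun j _ => ?_).const_add _
              exact ((measurable_pi_apply j).sub_const _).mul (Finset.measurable_sum _
                fun l _ => ((measurable_pi_apply l).sub_const _).const_mul _)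
            · have a2 := proj_quad_nonneg p1 p2 (v - q)
              rw [Real.norm_of_nonneg (by positivity)]
              exact inv_anti₀ (by positivity) (by linarith)
          rw [← ofReal_integral_eq_lintegral_ofReal hin
            (Filter.Eventually.of_forall fun v => by
              have a2 := proj_quad_nonneg p1 p2 (v - q)
              simp only [Pi.zero_apply]
              positivity)]
          refine ENNReal.ofReal_le_ofReal ?_
          rw [integral_const_mul]
          calc 4 * η ^ 2 * ∫ v, (2 * η ^ 2 + (v - q) ⬝ᵥ (P *ᵥ (v - q)))⁻¹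
                ∂(Measure.pi fun _ : {j : Fin d // j ≠ i} => lawV V)
              ≤ 4 * η ^ 2 * (3 * M2 V) := mul_le_mul_of_nonneg_left hneg (by positivity)
            _ = 12 * η ^ 2 * M2 V := by ring
        · simp only [if_neg h3, lintegral_zero]
          exact zero_le
    _ = _ := by simp

/-- mean number of eigenvalues in a small window -/
theorem micro_mean (h : NiceV V K) (s d : ℕ) {Q : Matrix (Fin d) (Fin d) ℝ}
    (hQ : Q.IsHermitian) {η : ℝ} (hη : 0 < η) :
    ∫⁻ ω, (nInt (sA s d ω + Q) η : ℝ≥0∞) ∂(Pm (lawV V)) ≤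
      3 + d * ENNReal.ofReal (12 * η ^ 2 * M2 V) := by
  have := h.prob
  refine (lintegral_mono fun ω => nInt_le_cG s d hQ hη ω).trans ?_
  rw [lintegral_add_left measurable_const, lintegral_finsetSum _ fun i _ => measurable_cG s d Q η i]
  refine add_le_add (by simp) ?_
  refine (Finset.sum_le_sum fun i _ => cG_mean h s d hQ hη i).trans ?_
  simp

end Run7.h834
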