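import Pool.Agent.Run7.h834.SW4
import Pool.Agent.Run7.h834.Intensity

/-! Strong Wegner estimate for one block. -/

set_option autoImplicit false
open MeasureTheory Matrix Set Module
open scoped ENNReal

namespace Run7.h834

variable {V : ℝ → ℝ} {K : ℝ}

/-- number of eigenvalues of a matrix in `[a, b)` -/
noncomputable def nW {ι : Type*} [Fintype ι] [DecidableEq ι] (M : Matrix ι ι ℝ) (a b : ℝ) : ℕ :=
  negIdx (M - b • (1 : Matrix ι ι ℝ)) - negIdx (M - a • (1 : Matrix ι ι ℝ))

theorem nW_cast {ι : Type*} [Fintype ι] [DecidableEq ι] (M : Matrix ι ι ℝ) {a b : ℝ}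
    (h : a ≤ b) : ((nW M a b : ℕ) : ℤ) = (negIdx (M - b • (1 : Matrix ι ι ℝ)) : ℤ) -
      negIdx (M - a • (1 : Matrix ι ι ℝ)) := by
  unfold nW
  exact Nat.cast_sub (negIdx_shift_mono M h)

theorem measurable_nW {α ι : Type*} [MeasurableSpace α] [Fintype ι] [DecidableEq ι]
    {M : α → Matrix ι ι ℝ} (hM : ∀ i j, Measurable fun x => M x i j) (a b : ℝ) :
    Measurable fun x => nW (M x) a b := by
  have h1 : ∀ c : ℝ, Measurable fun x => negIdx (M x - c • (1 : Matrix ι ι ℝ)) := fun c =>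
    measurable_negIdx_comp fun i j => by
      simp only [Matrix.sub_apply]
      exact (hM i j).sub_const _
  exact (h1 b).sub (h1 a)

/-- the block without its random diagonal -/
def oK (s d : ℕ) (Q : Matrix (Fin d) (Fin d) ℝ) (ω : Om) : Matrix (Fin d) (Fin d) ℝ :=
  Matrix.of fun i j => if i = j then Q i j else sA s d ω i j + Q i j

theorem sA_eq_oK (s d : ℕ) (Q : Matrix (Fin d) (Fin d) ℝ) (ω : Om) (c : ℝ) :
    sA s d ω + Q - c • (1 : Matrix (Fin d) (Fin d) ℝ) =
      oK s d Q ω + Matrix.diagonal ((fun i : Fin d => ω (s + i, s + i)) - cv c) := by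
  ext i j
  by_cases h : i = j
  · subst h
    simp [oK, sA, cv]
    ring
  · simp [oK, h, Matrix.one_apply]

/-- mean number of eigenvalues of the block in `[c, c + δ)` -/
noncomputable def HA (V : ℝ → ℝ) (s d : ℕ) (Q : Matrix (Fin d) (Fin d) ℝ) (c δ : ℝ) : ℝ≥0∞ :=
  ∫⁻ ω, (nW (sA s d ω + Q) c (c + δ) : ℝ≥0∞) ∂(Pm (lawV V))

theorem HA_rep (h : NiceV V K) (s d : ℕ) (Q : Matrix (Fin d) (Fin d) ℝ) (c δ : ℝ) :
    HA V s d Q c δ = ∫⁻ ω, ∫⁻ v, ((dIdx (oK s d Q ω) (v - cv δ) - dIdx (oK s d Q ω) v : ℕ) :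
      ℝ≥0∞) * ENNReal.ofReal (ratV V v (v + cv c)) ∂(Measure.pi fun _ : Fin d => lawV V)
        ∂(Pm (lawV V)) := by
  have := h.prob
  unfold HA
  set φ : Fin d → ℕ × ℕ := fun i => (s + i, s + i) with hφ
  have hφi : Function.Injective φ := by
    intro i j h
    simp only [hφ, Prod.mk.injEq] at h
    apply Fin.ext
    omega
  have mS : ∀ i j, Measurable fun ω : Om => (sA s d ω + Q) i j := fun i j =>
    (measurable_sA s d i j).add_const _
  have mF : Measurable fun ω : Om => (nW (sA s d ω + Q) c (c + δ) : ℝ≥0∞) :=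
    measurable_from_top.comp (measurable_nW mS _ _)
  rw [lintegral_mix (lawV V) (Set.range φ)ᶜ mF]
  refine lintegral_congr fun ω => ?_
  have ek : ∀ ω' : Om, oK s d Q (mix (Set.range φ)ᶜ ω ω') = oK s d Q ω := by
    intro ω'
    ext i j
    simp only [oK, sA, Matrix.of_apply]
    by_cases h1 : i = j
    · rw [if_pos h1, if_pos h1]
    · rw [if_neg h1, if_neg h1, mix_mem]
      simp only [Set.mem_compl_iff]
      rintro ⟨l, hl⟩
      simp only [hφ, Prod.mk.injEq] at hl
      apply h1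
      apply Fin.ext
      omega
  have ev : ∀ ω' : Om, (fun i : Fin d => mix (Set.range φ)ᶜ ω ω' (s + i, s + i)) =
      fun i => ω' (φ i) := by
    intro ω'
    funext i
    rw [mix_notMem]
    simp only [Set.mem_compl_iff, not_not]
    exact ⟨i, rfl⟩
  have e1 : ∀ ω' : Om, (nW (sA s d (mix (Set.range φ)ᶜ ω ω') + Q) c (c + δ) : ℝ≥0∞) =
      (fun v : Fin d → ℝ => ((dIdx (oK s d Q ω) (v - cv (c + δ)) -
        dIdx (oK s d Q ω) (v - cv c) : ℕ) : ℝ≥0∞)) (fun i => ω' (φ i)) := by
    intro ω'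
    unfold nW
    rw [sA_eq_oK, sA_eq_oK, ek, ev]
    rfl
  simp_rw [e1]
  have md := measurable_dIdx (oK s d Q ω)
  have mv : ∀ e : ℝ, Measurable fun v : Fin d → ℝ => v - cv e := fun e =>
    measurable_id.sub_const _
  have m1 : Measurable fun v : Fin d → ℝ => ((dIdx (oK s d Q ω) (v - cv (c + δ)) -
        dIdx (oK s d Q ω) (v - cv c) : ℕ) : ℝ≥0∞) :=
    measurable_from_top.comp ((md.comp (mv _)).sub (md.comp (mv _)))
  rw [lintegral_sel (lawV V) φ hφi m1]
  have m2 : Measurable fun v : Fin d → ℝ => ((dIdx (oK s d Q ω) (v - cv δ) -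
        dIdx (oK s d Q ω) v : ℕ) : ℝ≥0∞) :=
    measurable_from_top.comp ((md.comp (mv _)).sub md)
  rw [← shift_diag h d m2 c]
  refine lintegral_congr fun v => ?_
  have : v - cv c - cv δ = v - (cv (c + δ) : Fin d → ℝ) := by
    funext i
    simp only [Pi.sub_apply, cv]
    ring
  rw [this]

/-- midpoint inequality -/
theorem HA_mid (h : NiceV V K) (s d : ℕ) (Q : Matrix (Fin d) (Fin d) ℝ) (c δ t : ℝ) :
    HA V s d Q c δ ≤ ENNReal.ofReal (gE d K t / 2) *
      (HA V s d Q (c + t) δ + HA V s d Q (c - t) δ) := by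
  have := h.prob
  have wt : ∀ v : Fin d → ℝ, ratV V v (v + cv c) ≤
      gE d K t / 2 * (ratV V v (v + cv (c + t)) + ratV V v (v + cv (c - t))) := by
    intro v
    have h1 := weight_logconv h v c t (-t) (1 / 2) (by norm_num) (by norm_num)
    have e0 : (1 / 2 : ℝ) * t + (1 - 1 / 2) * -t = 0 := by ring
    have e1 : gE d K 0 = 1 := by simp [gE]
    have e2 : gE d K (-t) = gE d K t := by simp [gE]
    rw [e0, add_zero, e1, mul_one, e2] at h1
    have g0 := gE_pos d K t
    have r0 : ∀ e, 0 ≤ ratV V v (v + cv e) := fun e => (Real.exp_pos _).le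
    have h2 := Real.geom_mean_le_arith_mean2_weighted (w₁ := 1 / 2) (w₂ := 1 - 1 / 2)
      (p₁ := ratV V v (v + cv (c + t)) * gE d K t)
      (p₂ := ratV V v (v + cv (c + -t)) * gE d K t) (by norm_num) (by norm_num)
      (mul_nonneg (r0 _) g0.le) (mul_nonneg (r0 _) g0.le) (by norm_num)
    rw [← sub_eq_add_neg] at h1 h2
    refine (h1.trans h2).trans (le_of_eq ?_)
    ring
  rw [HA_rep h, HA_rep h, HA_rep h]
  have mr : ∀ e : ℝ, Measurable fun v : Fin d → ℝ => ENNReal.ofReal (ratV V v (v + cv e)) :=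
    fun e => ENNReal.measurable_ofReal.comp (measurable_ratV h.meas measurable_id
      (measurable_id.add_const _))
  have mo : ∀ i j, Measurable fun p : Om × (Fin d → ℝ) => oK s d Q p.1 i j := by
    intro i j
    simp only [oK, Matrix.of_apply]
    by_cases h1 : i = j
    · simp only [h1, if_true]
      exact measurable_const
    · simp only [h1, if_false]
      exact ((measurable_sA s d i j).comp measurable_fst).add_const _
  have mdI : ∀ {v : Om × (Fin d → ℝ) → (Fin d → ℝ)}, Measurable v →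
      Measurable fun p : Om × (Fin d → ℝ) => dIdx (oK s d Q p.1) (v p) := by
    intro v hv
    unfold dIdx
    refine measurable_negIdx_comp fun i j => ?_
    simp only [Matrix.add_apply]
    refine (mo i j).add ?_
    by_cases h1 : i = j
    · subst h1
      simp only [Matrix.diagonal_apply_eq]
      exact (measurable_pi_apply i).comp hv
    · simp only [Matrix.diagonal_apply_ne _ h1]
      exact measurable_const
  set g : Om × (Fin d → ℝ) → ℝ≥0∞ := fun p =>
    ((dIdx (oK s d Q p.1) (p.2 - cv δ) - dIdx (oK s d Q p.1) p.2 : ℕ) : ℝ≥0∞) with hg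
  have mg : Measurable g := measurable_from_top.comp
    ((mdI (measurable_snd.sub_const _)).sub (mdI measurable_snd))
  have mr2 : ∀ e : ℝ, Measurable fun p : Om × (Fin d → ℝ) =>
      g p * ENNReal.ofReal (ratV V p.2 (p.2 + cv e)) := fun e => mg.mul ((mr e).comp measurable_snd)
  have rep : ∀ e : ℝ, ∫⁻ ω, ∫⁻ v, g (ω, v) * ENNReal.ofReal (ratV V v (v + cv e))
      ∂(Measure.pi fun _ : Fin d => lawV V) ∂(Pm (lawV V)) =
      ∫⁻ p, g p * ENNReal.ofReal (ratV V p.2 (p.2 + cv e))
      ∂((Pm (lawV V)).prod (Measure.pi fun _ : Fin d => lawV V)) := by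
    intro e
    rw [lintegral_prod _ (mr2 e).aemeasurable]
  rw [rep c, rep (c + t), rep (c - t), ← lintegral_add_left (mr2 _),
    ← lintegral_const_mul' _ _ ENNReal.ofReal_ne_top]
  refine lintegral_mono fun p => ?_
  have r0 : ∀ e, 0 ≤ ratV V p.2 (p.2 + cv e) := fun e => (Real.exp_pos _).le
  have g0 := gE_pos d K t
  calc g p * ENNReal.ofReal (ratV V p.2 (p.2 + cv c))
      ≤ g p * ENNReal.ofReal (gE d K t / 2 *
        (ratV V p.2 (p.2 + cv (c + t)) + ratV V p.2 (p.2 + cv (c - t)))) := by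
        gcongr
        exact wt p.2
    _ = _ := by
        rw [ENNReal.ofReal_mul (by positivity), ENNReal.ofReal_add (r0 _) (r0 _)]
        ring

end Run7.h834
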