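import Pool.Agent.Run7.h834.SW5

/-! Strong Wegner estimate for one block: conclusion. -/

set_option autoImplicit false
open MeasureTheory Matrix Set Module
open scoped ENNReal

namespace Run7.h834

variable {V : ℝ → ℝ} {K : ℝ}

section win

variable {ι : Type*} [Fintype ι] [DecidableEq ι]

theorem nW_add (M : Matrix ι ι ℝ) {a b c : ℝ} (h1 : a ≤ b) (h2 : b ≤ c) :
    nW M a b + nW M b c = nW M a c := by
  have e1 := nW_cast M h1
  have e2 := nW_cast M h2
  have e3 := nW_cast M (h1.trans h2)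
  omega

theorem nW_mono (M : Matrix ι ι ℝ) {a b a' b' : ℝ} (h1 : a' ≤ a) (h : a ≤ b) (h2 : b ≤ b') :
    nW M a b ≤ nW M a' b' := by
  have e1 := nW_add M h1 h
  have e2 := nW_add M (h1.trans h) h2
  omega

theorem nW_sum_up (M : Matrix ι ι ℝ) (a : ℝ) {δ : ℝ} (hδ : 0 ≤ δ) (n : ℕ) :
    ∑ k ∈ Finset.range n, nW M (a + k * δ) (a + k * δ + δ) = nW M a (a + n * δ) := by
  induction n with
  | zero =>
    simp [nW]
  | succ n ih =>
    rw [Finset.sum_range_succ, ih]
    have h1 : a ≤ a + n * δ := by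
      have : 0 ≤ (n : ℝ) * δ := by positivity
      linarith
    have h2 : a + n * δ + δ = a + ((n + 1 : ℕ) : ℝ) * δ := by
      push_cast
      ring
    rw [h2]
    exact nW_add M h1 (by rw [← h2]; linarith)

theorem nW_sum_down (M : Matrix ι ι ℝ) (c : ℝ) {δ : ℝ} (hδ : 0 ≤ δ) (n : ℕ) :
    ∑ k ∈ Finset.range n, nW M (c - (k + 1) * δ) (c - (k + 1) * δ + δ) =
      nW M (c - n * δ) c := by
  induction n with
  | zero =>
    simp [nW]
  | succ n ih =>
    rw [Finset.sum_range_succ, ih]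
    have h1 : c - (n + 1) * δ + δ = c - n * δ := by ring
    have h2 : c - ((n + 1 : ℕ) : ℝ) * δ = c - (n + 1) * δ := by
      push_cast
      ring
    rw [h1, h2, add_comm]
    have h3 : c - (n + 1) * δ ≤ c - n * δ := by rw [← h1]; linarith
    have h4 : c - n * δ ≤ c := by
      have : 0 ≤ (n : ℝ) * δ := by positivity
      linarith
    exact nW_add M h3 h4

theorem nW_eq_nInt (M : Matrix ι ι ℝ) (x t : ℝ) :
    nW M (x - t) (x + t) = nInt (M - x • (1 : Matrix ι ι ℝ)) t := by
  unfold nW nInt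
  have e1 : M - (x + t) • (1 : Matrix ι ι ℝ) = M - x • (1 : Matrix ι ι ℝ) - t • 1 := by
    rw [add_smul]
    abel
  have e2 : M - (x - t) • (1 : Matrix ι ι ℝ) = M - x • (1 : Matrix ι ι ℝ) - (-t) • 1 := by
    rw [sub_smul, neg_smul]
    abel
  rw [e1, e2]

end win

/-- the constant of the strong Wegner estimate -/
noncomputable def cS (V : ℝ → ℝ) (K : ℝ) : ℝ := Real.exp (K / 2) * (3 + 27 * M2 V)

theorem cS_pos (V : ℝ → ℝ) (K : ℝ) : 0 < cS V K := by
  unfold cS
  have := M2_nonneg V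
  positivity

theorem one_le_cS (h : NiceV V K) : 1 ≤ cS V K := by
  have hK := h.one_le
  have hD : 1 ≤ Real.exp (K / 2) := Real.one_le_exp (by linarith)
  have := M2_nonneg V
  unfold cS
  nlinarith

theorem HA_small (h : NiceV V K) (s : ℕ) {d : ℕ} (hd : 1 ≤ d) {Q : Matrix (Fin d) (Fin d) ℝ}
    (hQ : Q.IsHermitian) (c : ℝ) {δ : ℝ} (hδ : 0 < δ) (hδT : δ * Real.sqrt d ≤ 1) :
    HA V s d Q c δ ≤ ENNReal.ofReal (cS V K * Real.sqrt d * δ) := by
  have := h.prob
  have hK := h.one_le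
  have hd0 : (0 : ℝ) < d := by exact_mod_cast hd
  have hsd : 0 < Real.sqrt d := Real.sqrt_pos.2 hd0
  have hss : Real.sqrt d * Real.sqrt d = d := Real.mul_self_sqrt hd0.le
  set T : ℝ := 1 / Real.sqrt d with hT
  have hT0 : 0 < T := by positivity
  have hδT' : δ ≤ T := by
    rw [hT, le_div_iff₀ hsd]
    exact hδT
  have hdT : (d : ℝ) * T ^ 2 = 1 := by
    rw [hT, div_pow, one_pow, sq (Real.sqrt d), hss]
    field_simp
  set n : ℕ := ⌊T / δ⌋₊ with hn
  have hn1 : 1 ≤ n := by
    rw [hn, Nat.one_le_floor_iff]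
    rw [le_div_iff₀ hδ, one_mul]
    exact hδT'
  have hnT : (n : ℝ) * δ ≤ T := by
    have := Nat.floor_le (show 0 ≤ T / δ by positivity)
    rwa [le_div_iff₀ hδ] at this
  have hn2 : T / δ ≤ 2 * n := by
    have h1 := (Nat.lt_floor_add_one (T / δ)).le
    rw [← hn] at h1
    have : (1 : ℝ) ≤ n := by exact_mod_cast hn1
    linarith
  have mS : ∀ i j, Measurable fun ω : Om => (sA s d ω + Q) i j := fun i j =>
    (measurable_sA s d i j).add_const _
  have mF : ∀ a b : ℝ, Measurable fun ω : Om => (nW (sA s d ω + Q) a b : ℝ≥0∞) := fun a b =>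
    measurable_from_top.comp (measurable_nW mS a b)
  -- the sum over the grid
  have hk : ∀ k ∈ Finset.range n, HA V s d Q c δ ≤ ENNReal.ofReal (Real.exp (K / 2) / 2) *
      (HA V s d Q (c + (k + 1) * δ) δ + HA V s d Q (c - (k + 1) * δ) δ) := by
    intro k hk
    refine (HA_mid h s d Q c δ ((k + 1) * δ)).trans ?_
    gcongr
    unfold gE
    refine Real.exp_le_exp.2 ?_
    have h1 : ((k : ℝ) + 1) * δ ≤ T := by
      have h2 : (k : ℝ) + 1 ≤ n := by exact_mod_cast Finset.mem_range.1 hk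
      exact (mul_le_mul_of_nonneg_right h2 hδ.le).trans hnT
    have h3 : (((k : ℝ) + 1) * δ) ^ 2 ≤ T ^ 2 := pow_le_pow_left₀ (by positivity) h1 2
    calc (d : ℝ) * (K * (((k : ℝ) + 1) * δ) ^ 2 / 2) ≤ d * (K * T ^ 2 / 2) := by gcongr
      _ = K / 2 * (d * T ^ 2) := by ring
      _ = K / 2 := by rw [hdT, mul_one]
  have hsum := Finset.sum_le_sum hk
  rw [Finset.sum_const, Finset.card_range, nsmul_eq_mul, ← Finset.mul_sum,
    Finset.sum_add_distrib] at hsum
  have hup : ∑ k ∈ Finset.range n, HA V s d Q (c + (k + 1) * δ) δ +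
      ∑ k ∈ Finset.range n, HA V s d Q (c - (k + 1) * δ) δ ≤
      3 + ENNReal.ofReal (27 * M2 V) := by
    have e1 : ∑ k ∈ Finset.range n, HA V s d Q (c + (k + 1) * δ) δ +
        ∑ k ∈ Finset.range n, HA V s d Q (c - (k + 1) * δ) δ =
        ∫⁻ ω, (∑ k ∈ Finset.range n, (nW (sA s d ω + Q) (c + (k + 1) * δ)
            (c + (k + 1) * δ + δ) : ℝ≥0∞) +
          ∑ k ∈ Finset.range n, (nW (sA s d ω + Q) (c - (k + 1) * δ)
            (c - (k + 1) * δ + δ) : ℝ≥0∞)) ∂(Pm (lawV V)) := by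
      rw [lintegral_add_left (Finset.measurable_sum _ fun k _ => mF _ _),
        lintegral_finsetSum _ fun k _ => mF _ _, lintegral_finsetSum _ fun k _ => mF _ _]
      rfl
    rw [e1]
    have hmm := micro_mean h s d (Q := Q - (c + T / 2) • (1 : Matrix (Fin d) (Fin d) ℝ))
      (hQ.sub (by
        rw [Matrix.IsHermitian, Matrix.conjTranspose_smul, Matrix.conjTranspose_one,
          star_trivial])) (η := 3 * T / 2) (by positivity)
    refine (lintegral_mono fun ω => ?_).trans (hmm.trans ?_)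
    · set M := sA s d ω + Q with hM
      have f1 : ∑ k ∈ Finset.range n, nW M (c + (k + 1) * δ) (c + (k + 1) * δ + δ) =
          nW M (c + δ) (c + δ + n * δ) := by
        rw [← nW_sum_up M (c + δ) hδ.le n]
        refine Finset.sum_congr rfl fun k _ => ?_
        have : c + ((k : ℝ) + 1) * δ = c + δ + k * δ := by ring
        rw [this]
      have f2 := nW_sum_down M c hδ.le n
      have f3 : nW M (c + δ) (c + δ + n * δ) + nW M (c - n * δ) c ≤
          nInt (M - (c + T / 2) • (1 : Matrix (Fin d) (Fin d) ℝ)) (3 * T / 2) := by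
        rw [← nW_eq_nInt]
        have hnd : 0 ≤ (n : ℝ) * δ := by positivity
        have g1 := nW_add M (a := c - n * δ) (b := c) (c := c + δ) (by linarith) (by linarith)
        have g2 := nW_add M (a := c - n * δ) (b := c + δ) (c := c + δ + n * δ) (by linarith)
          (by linarith)
        have g3 := nW_mono M (a := c - n * δ) (b := c + δ + n * δ)
          (a' := c + T / 2 - 3 * T / 2) (b' := c + T / 2 + 3 * T / 2) (by linarith)
          (by linarith) (by linarith)
        omega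
      have f4 : M - (c + T / 2) • (1 : Matrix (Fin d) (Fin d) ℝ) =
          sA s d ω + (Q - (c + T / 2) • (1 : Matrix (Fin d) (Fin d) ℝ)) := by
        rw [hM]
        abel
      rw [f4] at f3
      rw [← f1, ← f2] at f3
      have f5 := (Nat.cast_le (α := ℝ≥0∞)).2 f3
      rw [Nat.cast_add, Nat.cast_sum, Nat.cast_sum] at f5
      exact f5
    · have e2 : (d : ℝ≥0∞) * ENNReal.ofReal (12 * (3 * T / 2) ^ 2 * M2 V) =
          ENNReal.ofReal (27 * M2 V) := by
        rw [← ENNReal.ofReal_natCast, ← ENNReal.ofReal_mul hd0.le]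
        congr 1
        calc (d : ℝ) * (12 * (3 * T / 2) ^ 2 * M2 V) = 27 * M2 V * (d * T ^ 2) := by ring
          _ = 27 * M2 V := by rw [hdT, mul_one]
      rw [e2]
  have hfin : (n : ℝ≥0∞) * HA V s d Q c δ ≤ ENNReal.ofReal (cS V K / 2) := by
    refine hsum.trans ((mul_le_mul_right hup _).trans (le_of_eq ?_))
    have e3 : (3 : ℝ≥0∞) = ENNReal.ofReal 3 := by simp
    have := M2_nonneg V
    rw [e3, ← ENNReal.ofReal_add (by norm_num) (by positivity),
      ← ENNReal.ofReal_mul (by positivity)]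
    congr 1
    unfold cS
    ring
  have hn0 : (0 : ℝ) < n := by exact_mod_cast hn1
  have hnn : (n : ℝ≥0∞) ≠ 0 := by
    have : n ≠ 0 := by omega
    exact_mod_cast this
  calc HA V s d Q c δ = (n : ℝ≥0∞)⁻¹ * ((n : ℝ≥0∞) * HA V s d Q c δ) := by
        rw [← mul_assoc, ENNReal.inv_mul_cancel hnn (ENNReal.natCast_ne_top n), one_mul]
    _ ≤ (n : ℝ≥0∞)⁻¹ * ENNReal.ofReal (cS V K / 2) := mul_le_mul_right hfin _
    _ = ENNReal.ofReal (cS V K / 2 / n) := by
        rw [← ENNReal.ofReal_natCast, ← ENNReal.ofReal_inv_of_pos hn0,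
          ← ENNReal.ofReal_mul (by positivity)]
        congr 1
        ring
    _ ≤ ENNReal.ofReal (cS V K * Real.sqrt d * δ) := by
        refine ENNReal.ofReal_le_ofReal ?_
        rw [div_le_iff₀ hn0]
        have h5 : 1 ≤ 2 * (Real.sqrt d * δ * n) := by
          have h6 : T / δ * (Real.sqrt d * δ) = 1 := by
            rw [hT]
            field_simp
          calc (1 : ℝ) = T / δ * (Real.sqrt d * δ) := h6.symm
            _ ≤ 2 * n * (Real.sqrt d * δ) := mul_le_mul_of_nonneg_right hn2 (by positivity)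
            _ = 2 * (Real.sqrt d * δ * n) := by ring
        have := cS_pos V K
        nlinarith

/-- **strong Wegner estimate** for one block -/
theorem HA_strong (h : NiceV V K) (s : ℕ) {d : ℕ} (hd : 1 ≤ d) {Q : Matrix (Fin d) (Fin d) ℝ}
    (hQ : Q.IsHermitian) (c : ℝ) {δ : ℝ} (hδ : 0 ≤ δ) :
    HA V s d Q c δ ≤ ENNReal.ofReal (cS V K * Real.sqrt d * δ) := by
  have := h.prob
  have hd0 : (0 : ℝ) < d := by exact_mod_cast hd
  have hsd : 0 < Real.sqrt d := Real.sqrt_pos.2 hd0
  have hcS := cS_pos V K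
  rcases hδ.eq_or_lt with rfl | hδ0
  · unfold HA
    simp [nW]
  obtain ⟨m, hm⟩ := exists_nat_gt (δ * Real.sqrt d)
  have hm0 : (0 : ℝ) < m := lt_trans (by positivity) hm
  set δ' : ℝ := δ / m with hδ'
  have hδ'0 : 0 < δ' := by positivity
  have hδ'T : δ' * Real.sqrt d ≤ 1 := by
    rw [hδ', div_mul_eq_mul_div, div_le_one hm0]
    exact hm.le
  have mS : ∀ i j, Measurable fun ω : Om => (sA s d ω + Q) i j := fun i j =>
    (measurable_sA s d i j).add_const _
  have mF : ∀ a b : ℝ, Measurable fun ω : Om => (nW (sA s d ω + Q) a b : ℝ≥0∞) := fun a b =>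
    measurable_from_top.comp (measurable_nW mS a b)
  have e1 : HA V s d Q c δ = ∑ k ∈ Finset.range m, HA V s d Q (c + k * δ') δ' := by
    unfold HA
    rw [← lintegral_finsetSum _ fun k _ => mF _ _]
    refine lintegral_congr fun ω => ?_
    have h1 := nW_sum_up (sA s d ω + Q) c hδ'0.le m
    have h2 : (m : ℝ) * δ' = δ := by
      rw [hδ']
      field_simp
    rw [h2] at h1
    rw [← h1]
    push_cast
    rfl
  rw [e1]
  calc ∑ k ∈ Finset.range m, HA V s d Q (c + k * δ') δ'
      ≤ ∑ k ∈ Finset.range m, ENNReal.ofReal (cS V K * Real.sqrt d * δ') :=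
        Finset.sum_le_sum fun k _ => HA_small h s hd hQ _ hδ'0 hδ'T
    _ = ENNReal.ofReal (cS V K * Real.sqrt d * δ) := by
        rw [Finset.sum_const, Finset.card_range, nsmul_eq_mul, ← ENNReal.ofReal_natCast,
          ← ENNReal.ofReal_mul hm0.le]
        congr 1
        rw [hδ']
        field_simp

end Run7.h834
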