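import Pool.Agent.Run7.h834.Chain
import Pool.Agent.Run7.h834.Neg3
import Pool.Agent.Run7.h834.Space

/-! The band matrix, its sections and the removal of the first block. -/

set_option autoImplicit false
open MeasureTheory Matrix
open scoped ENNReal

namespace Run7.h834

/-- the infinite band matrix of band width `w` -/
def bnd (w : ℕ) (ω : Om) (i j : ℕ) : ℝ :=
  if max i j ≤ w + min i j then ω (min i j, max i j) else 0

/-- the diagonal block starting at `s` -/
def arrA (w : ℕ) (ω : Om) (s : ℕ) : Arr w := fun p => ω (s + p.1, s + p.2)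

/-- the off-diagonal block starting at `s` -/
def arrB (w : ℕ) (ω : Om) (s : ℕ) : Arr w := fun p => ω (s + p.1, s + w + p.2)

/-- a self-energy extended by zero -/
def qE {w : ℕ} (Q : Arr w) (i j : ℕ) : ℝ :=
  if h : i < w ∧ j < w then symM Q ⟨i, h.1⟩ ⟨j, h.2⟩ else 0

/-- the section `[s, s + n)` of the band matrix, shifted by `e` and by a self-energy in its
first block -/
def kM (w : ℕ) (ω : Om) (e : ℝ) (Q : Arr w) (s n : ℕ) : Matrix (Fin n) (Fin n) ℝ :=
  Matrix.of fun i j => bnd w ω (s + i) (s + j) - (if i = j then e else 0) - qE Q i j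

/-- the coupling of the first block to the rest -/
def cM (w : ℕ) (ω : Om) (s n : ℕ) : Matrix (Fin w) (Fin n) ℝ :=
  Matrix.of fun i j => bnd w ω (s + i) (s + w + j)

theorem bnd_comm (w : ℕ) (ω : Om) (i j : ℕ) : bnd w ω i j = bnd w ω j i := by
  unfold bnd
  rw [min_comm, max_comm]

theorem qE_comm {w : ℕ} (Q : Arr w) (i j : ℕ) : qE Q i j = qE Q j i := by
  unfold qE
  by_cases h : i < w ∧ j < w
  · have h' : j < w ∧ i < w := ⟨h.2, h.1⟩
    rw [dif_pos h, dif_pos h']
    have := congrFun (congrFun (symM_transpose Q) ⟨i, h.1⟩) ⟨j, h.2⟩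
    rw [Matrix.transpose_apply] at this
    exact this.symm
  · have h' : ¬ (j < w ∧ i < w) := fun h' => h ⟨h'.2, h'.1⟩
    rw [dif_neg h, dif_neg h']

theorem kM_isHermitian (w : ℕ) (ω : Om) (e : ℝ) (Q : Arr w) (s n : ℕ) :
    (kM w ω e Q s n).IsHermitian := by
  ext i j
  simp only [kM, Matrix.conjTranspose_apply, Matrix.of_apply, star_trivial]
  rw [bnd_comm, qE_comm]
  by_cases h : i = j
  · subst h
    rfl
  · have h' : ¬ j = i := fun h' => h h'.symm
    rw [if_neg h, if_neg h']

theorem SM_isHermitian {w : ℕ} (e : ℝ) (Q a : Arr w) : (SM e Q a).IsHermitian :=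
  symM_isHermitian _

theorem symM_arrA (w : ℕ) (ω : Om) (s : ℕ) (i j : Fin w) :
    symM (arrA w ω s) i j = bnd w ω (s + i) (s + j) := by
  have hi := i.2
  have hj := j.2
  simp only [symM, arrA, bnd, Matrix.of_apply]
  rw [if_pos (by omega)]
  rcases le_total i j with h | h
  · have h' : (i : ℕ) ≤ j := h
    rw [min_eq_left h, max_eq_right h, min_eq_left (by omega), max_eq_right (by omega)]
  · have h' : (j : ℕ) ≤ i := h
    rw [min_eq_right h, max_eq_left h, min_eq_right (by omega), max_eq_left (by omega)]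

theorem cM_apply_lt (w : ℕ) (ω : Om) (s n : ℕ) (i : Fin w) (j : Fin n) (hj : (j : ℕ) < w) :
    cM w ω s n i j = lowM (arrB w ω s) i ⟨j, hj⟩ := by
  have hi := i.2
  simp only [cM, lowM, arrB, bnd, Matrix.of_apply]
  have h1 : max (s + (i : ℕ)) (s + w + j) = s + w + j := max_eq_right (by omega)
  have h2 : min (s + (i : ℕ)) (s + w + j) = s + i := min_eq_left (by omega)
  rw [h1, h2]
  by_cases h : (j : ℕ) ≤ i
  · have h' : (⟨j, hj⟩ : Fin w) ≤ i := h
    rw [if_pos (by omega), if_pos h']
  · have h' : ¬ (⟨j, hj⟩ : Fin w) ≤ i := h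
    rw [if_neg (by omega), if_neg h']

theorem cM_apply_ge (w : ℕ) (ω : Om) (s n : ℕ) (i : Fin w) (j : Fin n) (hj : ¬ (j : ℕ) < w) :
    cM w ω s n i j = 0 := by
  have hi := i.2
  simp only [cM, bnd, Matrix.of_apply]
  rw [if_neg]
  rw [max_eq_right (by omega), min_eq_left (by omega)]
  omega

theorem kM_split (w : ℕ) (ω : Om) (e : ℝ) (Q : Arr w) (s n : ℕ) :
    (kM w ω e Q s (w + n)).submatrix finSumFinEquiv finSumFinEquiv =
      Matrix.fromBlocks (SM e Q (arrA w ω s)) (cM w ω s n) (cM w ω s n)ᵀ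
        (kM w ω e 0 (s + w) n) := by
  ext i j
  rcases i with i | i <;> rcases j with j | j
  · simp only [Matrix.submatrix_apply, finSumFinEquiv_apply_left, Matrix.fromBlocks_apply₁₁, SM_eq,
      Matrix.sub_apply, symM_arrA, Matrix.smul_apply, Matrix.one_apply, smul_eq_mul]
    simp only [kM, Matrix.of_apply, Fin.val_castAdd, qE]
    have h : (i : ℕ) < w ∧ (j : ℕ) < w := ⟨i.2, j.2⟩
    rw [dif_pos h]
    congr 2
    by_cases hij : i = j
    · subst hij
      simp
    · have : ¬ Fin.castAdd n i = Fin.castAdd n j := fun h' => hij (Fin.castAdd_injective _ _ h')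
      simp [hij, this]
  · simp only [Matrix.submatrix_apply, finSumFinEquiv_apply_left, finSumFinEquiv_apply_right,
      Matrix.fromBlocks_apply₁₂]
    simp only [kM, cM, Matrix.of_apply, Fin.val_castAdd, Fin.val_natAdd, qE]
    have h : ¬ ((i : ℕ) < w ∧ w + (j : ℕ) < w) := by omega
    rw [dif_neg h]
    have h2 : ¬ (Fin.castAdd n i = Fin.natAdd w j) := by
      intro h'
      have := congrArg Fin.val h'
      simp only [Fin.val_castAdd, Fin.val_natAdd] at this
      have := i.2
      omega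
    rw [if_neg h2, sub_zero, sub_zero, add_assoc]
  · simp only [Matrix.submatrix_apply, finSumFinEquiv_apply_left, finSumFinEquiv_apply_right,
      Matrix.fromBlocks_apply₂₁, Matrix.transpose_apply]
    simp only [kM, cM, Matrix.of_apply, Fin.val_castAdd, Fin.val_natAdd, qE]
    have h : ¬ (w + (i : ℕ) < w ∧ (j : ℕ) < w) := by omega
    rw [dif_neg h]
    have h2 : ¬ (Fin.natAdd w i = Fin.castAdd n j) := by
      intro h'
      have := congrArg Fin.val h'
      simp only [Fin.val_castAdd, Fin.val_natAdd] at this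
      have := j.2
      omega
    rw [if_neg h2, sub_zero, sub_zero, add_assoc, bnd_comm]
  · simp only [Matrix.submatrix_apply, finSumFinEquiv_apply_right, Matrix.fromBlocks_apply₂₂]
    simp only [kM, Matrix.of_apply, Fin.val_natAdd, qE]
    have h : ¬ (w + (i : ℕ) < w ∧ w + (j : ℕ) < w) := by omega
    rw [dif_neg h]
    have h3 : (if hh : (i : ℕ) < w ∧ (j : ℕ) < w then symM (0 : Arr w) ⟨i, hh.1⟩ ⟨j, hh.2⟩ else 0)
        = (0 : ℝ) := by
      split_ifs
      · simp [symM]
      · rfl
    rw [h3, ← add_assoc, ← add_assoc]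
    congr 2
    by_cases hij : i = j
    · subst hij
      simp
    · have : ¬ Fin.natAdd w i = Fin.natAdd w j := fun h' => hij (Fin.natAdd_injective _ _ h')
      simp [hij, this]

theorem kM_schur (w : ℕ) (ω : Om) (e : ℝ) (Q : Arr w) (s n : ℕ) :
    kM w ω e 0 (s + w) n - (cM w ω s n)ᵀ * (SM e Q (arrA w ω s))⁻¹ * cM w ω s n =
      kM w ω e (nextQ e Q (arrA w ω s) (arrB w ω s)) (s + w) n := by
  set S := (SM e Q (arrA w ω s))⁻¹ with hS
  ext i j
  have h0 : qE (0 : Arr w) i j = 0 := by
    unfold qE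
    split_ifs
    · simp [symM]
    · rfl
  have key : ((cM w ω s n)ᵀ * S * cM w ω s n) i j =
      qE (nextQ e Q (arrA w ω s) (arrB w ω s)) i j := by
    unfold qE
    by_cases hi : (i : ℕ) < w
    · by_cases hj : (j : ℕ) < w
      · rw [dif_pos ⟨hi, hj⟩, symM_nextQ]
        simp only [nextM, Matrix.mul_apply, Matrix.transpose_apply, ← hS]
        refine Finset.sum_congr rfl fun k _ => ?_
        rw [cM_apply_lt w ω s n k j hj]
        congr 1
        refine Finset.sum_congr rfl fun l _ => ?_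
        rw [cM_apply_lt w ω s n l i hi]
      · rw [dif_neg (fun h => hj h.2)]
        simp only [Matrix.mul_apply, Matrix.transpose_apply]
        refine Finset.sum_eq_zero fun k _ => ?_
        rw [cM_apply_ge w ω s n k j hj, mul_zero]
    · rw [dif_neg (fun h => hi h.1)]
      simp only [Matrix.mul_apply, Matrix.transpose_apply]
      refine Finset.sum_eq_zero fun k _ => ?_
      rw [Finset.sum_eq_zero, zero_mul]
      intro l _
      rw [cM_apply_ge w ω s n l i hi, zero_mul]
  rw [Matrix.sub_apply, key]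
  simp only [kM, Matrix.of_apply]
  rw [h0]
  ring

/-- removal of the first block: the counting function -/
theorem negIdx_kM_split (w : ℕ) (ω : Om) (e : ℝ) (Q : Arr w) (s n : ℕ)
    (hu : IsUnit (SM e Q (arrA w ω s))) :
    negIdx (kM w ω e Q s (w + n)) = negIdx (SM e Q (arrA w ω s)) +
      negIdx (kM w ω e (nextQ e Q (arrA w ω s) (arrB w ω s)) (s + w) n) := by
  have h1 : negIdx (kM w ω e Q s (w + n)) =
      negIdx ((kM w ω e Q s (w + n)).submatrix finSumFinEquiv finSumFinEquiv) := by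
    have := negIdx_reindex ((kM w ω e Q s (w + n)).submatrix finSumFinEquiv finSumFinEquiv)
      (finSumFinEquiv (m := w) (n := n))
    rw [← this, Matrix.submatrix_submatrix]
    congr 1
    ext i j
    simp
  rw [h1, kM_split, negIdx_fromBlocks _ (SM_isHermitian _ _ _) (kM_isHermitian _ _ _ _ _ _) hu,
    kM_schur]

/-- the state after `k` blocks, started at `s` with the self-energy `Q` -/
noncomputable def stQ (w : ℕ) (ω : Om) (e : ℝ) : ℕ → Arr w → ℕ → Arr w
  | 0, Q, _ => Q
  | k + 1, Q, s => stQ w ω e k (nextQ e Q (arrA w ω s) (arrB w ω s)) (s + w)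

/-- the transfer matrix over `k` blocks -/
noncomputable def stP (w : ℕ) (ω : Om) (e : ℝ) : ℕ → Arr w → ℕ → Matrix (Fin w) (Fin w) ℝ
  | 0, _, _ => 1
  | k + 1, Q, s => ((SM e Q (arrA w ω s))⁻¹ * lowM (arrB w ω s)) *
      stP w ω e k (nextQ e Q (arrA w ω s) (arrB w ω s)) (s + w)

/-- all blocks met are invertible -/
def stR (w : ℕ) (ω : Om) (e : ℝ) : ℕ → Arr w → ℕ → Prop
  | 0, _, _ => True
  | k + 1, Q, s => IsUnit (SM e Q (arrA w ω s)) ∧
      stR w ω e k (nextQ e Q (arrA w ω s) (arrB w ω s)) (s + w)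

theorem stQ_add (w : ℕ) (ω : Om) (e : ℝ) (k l : ℕ) (Q : Arr w) (s : ℕ) :
    stQ w ω e (k + l) Q s = stQ w ω e l (stQ w ω e k Q s) (s + k * w) := by
  induction k generalizing Q s with
  | zero => simp [stQ]
  | succ k ih =>
    have : k + 1 + l = (k + l) + 1 := by ring
    rw [this]
    simp only [stQ]
    rw [ih]
    congr 1
    ring

theorem stP_add (w : ℕ) (ω : Om) (e : ℝ) (k l : ℕ) (Q : Arr w) (s : ℕ) :
    stP w ω e (k + l) Q s = stP w ω e k Q s * stP w ω e l (stQ w ω e k Q s) (s + k * w) := by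
  induction k generalizing Q s with
  | zero => simp [stQ, stP]
  | succ k ih =>
    have h : k + 1 + l = (k + l) + 1 := by ring
    have h2 : s + (k + 1) * w = s + w + k * w := by ring
    rw [h, h2]
    simp only [stQ, stP]
    rw [ih]
    simp only [Matrix.mul_assoc]

theorem stR_add (w : ℕ) (ω : Om) (e : ℝ) (k l : ℕ) (Q : Arr w) (s : ℕ) :
    stR w ω e (k + l) Q s ↔ stR w ω e k Q s ∧ stR w ω e l (stQ w ω e k Q s) (s + k * w) := by
  induction k generalizing Q s with
  | zero => simp [stQ, stR]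
  | succ k ih =>
    have h : k + 1 + l = (k + l) + 1 := by ring
    have h2 : s + (k + 1) * w = s + w + k * w := by ring
    rw [h, h2]
    simp only [stQ, stR]
    rw [ih, and_assoc]

/-- the counting function of `k` blocks and a tail -/
theorem negIdx_kM_add (w : ℕ) (ω : Om) (e : ℝ) (k n : ℕ) (Q : Arr w) (s : ℕ)
    (hR : stR w ω e k Q s) :
    negIdx (kM w ω e Q s (k * w + n)) = negIdx (kM w ω e Q s (k * w)) +
      negIdx (kM w ω e (stQ w ω e k Q s) (s + k * w) n) := by
  induction k generalizing Q s with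
  | zero =>
    have h0 : negIdx (kM w ω e Q s (0 * w)) = 0 := by
      have := negIdx_le_card (kM w ω e Q s (0 * w))
      simp at this
      exact this
    have h1 : 0 * w + n = n := by simp
    have h2 : s + 0 * w = s := by simp
    rw [h0, h1, h2, Nat.zero_add]
    rfl
  | succ k ih =>
    have h : (k + 1) * w + n = w + (k * w + n) := by ring
    have h' : (k + 1) * w = w + k * w := by ring
    have h2 : s + (w + k * w) = s + w + k * w := by ring
    rw [h, h', h2, negIdx_kM_split w ω e Q s _ hR.1, negIdx_kM_split w ω e Q s _ hR.1,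
      ih _ _ hR.2]
    simp only [stQ]
    ring

/-- difference of two states driven by the same blocks -/
theorem nextM_sub (e : ℝ) {w : ℕ} (Q Q' a b : Arr w) (h : IsUnit (SM e Q a))
    (h' : IsUnit (SM e Q' a)) :
    nextM e Q a b - nextM e Q' a b = ((SM e Q a)⁻¹ * lowM b)ᵀ * (symM Q - symM Q') *
      ((SM e Q' a)⁻¹ * lowM b) := by
  have hd : symM Q - symM Q' = SM e Q' a - SM e Q a := by
    rw [SM_eq, SM_eq]
    abel
  have hT : ((SM e Q a)⁻¹)ᵀ = (SM e Q a)⁻¹ := by
    rw [Matrix.transpose_nonsing_inv]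
    unfold SM
    rw [symM_transpose]
  have hu : IsUnit (SM e Q a).det := (Matrix.isUnit_iff_isUnit_det _).1 h
  have hu' : IsUnit (SM e Q' a).det := (Matrix.isUnit_iff_isUnit_det _).1 h'
  rw [hd, Matrix.transpose_mul, hT, nextM, nextM]
  have e1 : (lowM b)ᵀ * (SM e Q a)⁻¹ * (SM e Q' a - SM e Q a) * ((SM e Q' a)⁻¹ * lowM b) =
      (lowM b)ᵀ * ((SM e Q a)⁻¹ * (SM e Q' a * (SM e Q' a)⁻¹)) * lowM b -
      (lowM b)ᵀ * (((SM e Q a)⁻¹ * SM e Q a) * (SM e Q' a)⁻¹) * lowM b := by
    simp only [Matrix.mul_sub, Matrix.sub_mul, Matrix.mul_assoc]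
  rw [e1, Matrix.mul_nonsing_inv _ hu', Matrix.nonsing_inv_mul _ hu, Matrix.mul_one,
    Matrix.one_mul]

theorem stQ_sub (w : ℕ) (ω : Om) (e : ℝ) (k : ℕ) (Q Q' : Arr w) (s : ℕ)
    (h : stR w ω e k Q s) (h' : stR w ω e k Q' s) :
    symM (stQ w ω e k Q s) - symM (stQ w ω e k Q' s) =
      (stP w ω e k Q s)ᵀ * (symM Q - symM Q') * stP w ω e k Q' s := by
  induction k generalizing Q Q' s with
  | zero => simp [stQ, stP]
  | succ k ih =>
    simp only [stQ, stP]
    rw [ih _ _ _ h.2 h'.2, symM_nextQ, symM_nextQ, nextM_sub e _ _ _ _ h.1 h'.1]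
    simp only [Matrix.transpose_mul, Matrix.mul_assoc]

end Run7.h834
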