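import Pool.Agent.Run7.h834.Asym2

/-! Band matrices, their eigenvalues, the density of the mean spectral measure. -/

set_option autoImplicit false
open MeasureTheory Matrix Set Filter Topology
open scoped ENNReal

namespace Run7.h834

/-- the `N × N` real symmetric band matrix of bandwidth `W`, normalized by `(2 W + 1) ^ (-1/2)`;
its independent entries are read off the array `ω` -/
noncomputable def bandH (W N : ℕ) (ω : ℕ × ℕ → ℝ) : Matrix (Fin N) (Fin N) ℝ :=
  Matrix.of fun i j => if max (i : ℕ) j ≤ W + min (i : ℕ) j then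
    (Real.sqrt (2 * W + 1))⁻¹ * ω (min (i : ℕ) j, max (i : ℕ) j) else 0

theorem bandH_isHermitian (W N : ℕ) (ω : ℕ × ℕ → ℝ) : (bandH W N ω).IsHermitian := by
  ext i j
  simp only [Matrix.conjTranspose_apply, bandH, Matrix.of_apply, star_trivial]
  rw [max_comm, min_comm]

/-- the eigenvalues of the band matrix -/
noncomputable def bandEig (W N : ℕ) (ω : ℕ × ℕ → ℝ) : Fin N → ℝ :=
  (bandH_isHermitian W N ω).eigenvalues

/-- the number of eigenvalues in `[a, b)` -/
noncomputable def bandNum (W N : ℕ) (ω : ℕ × ℕ → ℝ) (a b : ℝ) : ℕ :=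
  (Finset.univ.filter fun i => a ≤ bandEig W N ω i ∧ bandEig W N ω i < b).card

theorem negIdx_smul_le {ι : Type*} [Fintype ι] (K : Matrix ι ι ℝ) {s : ℝ} (hs : 0 < s) :
    negIdx K ≤ negIdx (s • K) := by
  obtain ⟨V, hV, hn⟩ := exists_negIdx K
  rw [← hV]
  refine le_negIdx fun x hx h0 => ?_
  rw [Matrix.smul_mulVec, dotProduct_smul, smul_eq_mul]
  exact mul_neg_of_pos_of_neg hs (hn x hx h0)

theorem negIdx_smul {ι : Type*} [Fintype ι] (K : Matrix ι ι ℝ) {s : ℝ} (hs : 0 < s) :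
    negIdx (s • K) = negIdx K := by
  refine le_antisymm ?_ (negIdx_smul_le K hs)
  have h1 := negIdx_smul_le (s • K) (inv_pos.2 hs)
  rwa [smul_smul, inv_mul_cancel₀ hs.ne', one_smul] at h1

theorem sqrtW_pos (W : ℕ) : 0 < Real.sqrt (2 * W + 1) := Real.sqrt_pos.2 (by positivity)

theorem bandH_sub (W N : ℕ) (ω : ℕ × ℕ → ℝ) (a : ℝ) :
    bandH W N ω - a • (1 : Matrix (Fin N) (Fin N) ℝ) =
      (Real.sqrt (2 * W + 1))⁻¹ • kM W ω (a * Real.sqrt (2 * W + 1)) 0 0 N := by
  have hs := sqrtW_pos W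
  ext i j
  simp only [bandH, kM, Matrix.sub_apply, Matrix.smul_apply, Matrix.of_apply, smul_eq_mul,
    Matrix.one_apply, zero_add]
  have h0 : qE (0 : Arr W) i j = 0 := by
    unfold qE
    split_ifs
    · simp [symM]
    · rfl
  rw [h0, sub_zero]
  unfold bnd
  by_cases h1 : max (i : ℕ) j ≤ W + min (i : ℕ) j
  · by_cases h2 : i = j
    · subst h2
      rw [if_pos h1, if_pos h1, if_pos rfl, if_pos rfl]
      field_simp
    · rw [if_pos h1, if_pos h1, if_neg h2, if_neg h2]
      ring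
  · by_cases h2 : i = j
    · subst h2
      exfalso
      apply h1
      simp
    · rw [if_neg h1, if_neg h1, if_neg h2, if_neg h2]
      ring

theorem card_lt (W N : ℕ) (ω : ℕ × ℕ → ℝ) (a : ℝ) :
    (Finset.univ.filter fun i => bandEig W N ω i < a).card =
      negIdx (kM W ω (a * Real.sqrt (2 * W + 1)) 0 0 N) := by
  have h1 := negIdx_sub_eq_card (bandH_isHermitian W N ω) a
  rw [bandH_sub, negIdx_smul _ (inv_pos.2 (sqrtW_pos W))] at h1
  exact h1.symm

theorem bandNum_eq (W N : ℕ) (ω : ℕ × ℕ → ℝ) {a b : ℝ} (hab : a ≤ b) :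
    bandNum W N ω a b = cN W ω (a * Real.sqrt (2 * W + 1)) (b * Real.sqrt (2 * W + 1)) 0 N := by
  unfold cN
  rw [← card_lt, ← card_lt]
  unfold bandNum
  have hsub : (Finset.univ.filter fun i => bandEig W N ω i < a) ⊆
      (Finset.univ.filter fun i => bandEig W N ω i < b) := by
    intro i hi
    simp only [Finset.mem_filter, Finset.mem_univ, true_and] at hi ⊢
    linarith
  rw [← Finset.card_sdiff_of_subset hsub]
  congr 1
  ext i
  simp only [Finset.mem_filter, Finset.mem_univ, true_and, Finset.mem_sdiff, not_lt]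
  tauto

/-- `ρ` is the (continuous) density of the mean of the empirical spectral measure -/
def IsMeanDens (V : ℝ → ℝ) (W N : ℕ) (ρ : ℝ → ℝ) : Prop :=
  Continuous ρ ∧ ∀ a b : ℝ, a ≤ b →
    ∫ ω, (bandNum W N ω a b : ℝ) / N ∂(Pm (lawV V)) = ∫ x in a..b, ρ x

variable {V : ℝ → ℝ} {K : ℝ}

/-- the density of the mean of the empirical spectral measure -/
noncomputable def rhoN (V : ℝ → ℝ) (W N : ℕ) (x : ℝ) : ℝ :=
  Real.sqrt (2 * W + 1) * fN V W N (x * Real.sqrt (2 * W + 1)) / N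

theorem isMeanDens_rhoN (h : NiceV V K) (W N : ℕ) : IsMeanDens V W N (rhoN V W N) := by
  have := h.prob
  have hs := sqrtW_pos W
  have hc : Continuous (rhoN V W N) := by
    unfold rhoN
    have := fN_continuous h W N
    fun_prop
  refine ⟨hc, fun a b hab => ?_⟩
  have hab' : a * Real.sqrt (2 * W + 1) ≤ b * Real.sqrt (2 * W + 1) :=
    mul_le_mul_of_nonneg_right hab hs.le
  have h1 : ∀ ω, (bandNum W N ω a b : ℝ) / N =
      (cN W ω (a * Real.sqrt (2 * W + 1)) (b * Real.sqrt (2 * W + 1)) 0 N : ℝ) / N := by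
    intro ω
    rw [bandNum_eq W N ω hab]
  simp_rw [h1]
  rw [integral_div, mean_cN h W N hab']
  have hd : ∀ x ∈ Set.uIcc a b, HasDerivAt (fun x => FN V W N (x * Real.sqrt (2 * W + 1)) / N)
      (rhoN V W N x) x := by
    intro x _
    have h2 : HasDerivAt (fun x : ℝ => x * Real.sqrt (2 * W + 1)) (1 * Real.sqrt (2 * W + 1)) x :=
      (hasDerivAt_id x).mul_const _
    have h3 := ((hasDerivAt_FN h W N (x * Real.sqrt (2 * W + 1))).comp x h2).div_const (N : ℝ)
    have e1 : fN V W N (x * Real.sqrt (2 * W + 1)) * (1 * Real.sqrt (2 * W + 1)) / N =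
        rhoN V W N x := by
      unfold rhoN
      ring
    rw [e1] at h3
    exact h3
  rw [intervalIntegral.integral_eq_sub_of_hasDerivAt hd (hc.intervalIntegrable _ _)]
  ring

theorem isMeanDens_unique {W N : ℕ} {ρ ρ' : ℝ → ℝ} (h1 : IsMeanDens V W N ρ)
    (h2 : IsMeanDens V W N ρ') : ρ = ρ' := by
  funext x
  have key : ∀ y ∈ Set.Ioi (x - 1), ∫ u in (x - 1)..y, ρ u = ∫ u in (x - 1)..y, ρ' u := by
    intro y hy
    rw [← h1.2 _ _ (le_of_lt hy), ← h2.2 _ _ (le_of_lt hy)]
  have d1 : HasDerivAt (fun y => ∫ u in (x - 1)..y, ρ u) (ρ x) x :=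
    intervalIntegral.integral_hasDerivAt_right (h1.1.intervalIntegrable _ _)
      (h1.1.stronglyMeasurableAtFilter _ _) h1.1.continuousAt
  have d2 : HasDerivAt (fun y => ∫ u in (x - 1)..y, ρ' u) (ρ' x) x :=
    intervalIntegral.integral_hasDerivAt_right (h2.1.intervalIntegrable _ _)
      (h2.1.stronglyMeasurableAtFilter _ _) h2.1.continuousAt
  have hev : (fun y => ∫ u in (x - 1)..y, ρ u) =ᶠ[𝓝 x] fun y => ∫ u in (x - 1)..y, ρ' u :=
    Filter.eventually_of_mem (Ioi_mem_nhds (by linarith)) key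
  exact (d1.congr_of_eventuallyEq hev.symm).unique d2

/-- step approximation of a linear statistic -/
theorem step_indicator (x : ℕ → ℝ) (hx : Monotone x) (p : ℕ) (u : ℝ) :
    ∑ j ∈ Finset.range p, (if x j ≤ u ∧ u < x (j + 1) then (1 : ℝ) else 0) =
      if x 0 ≤ u ∧ u < x p then 1 else 0 := by
  induction p with
  | zero =>
    rw [Finset.sum_range_zero, if_neg]
    rintro ⟨h1, h2⟩
    linarith
  | succ p ih =>
    rw [Finset.sum_range_succ, ih]
    have h1 := hx (Nat.zero_le p)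
    have h2 := hx (Nat.le_succ p)
    simp only [Nat.succ_eq_add_one] at h2
    by_cases a1 : x 0 ≤ u
    · by_cases a2 : u < x p
      · rw [if_pos ⟨a1, a2⟩, if_neg (fun h => absurd h.1 (not_le.2 a2)),
          if_pos ⟨a1, lt_of_lt_of_le a2 h2⟩, add_zero]
      · have a2' : x p ≤ u := not_lt.1 a2
        by_cases a3 : u < x (p + 1)
        · rw [if_neg (fun h => a2 h.2), if_pos ⟨a2', a3⟩, if_pos ⟨a1, a3⟩, zero_add]
        · rw [if_neg (fun h => a2 h.2), if_neg (fun h => a3 h.2), if_neg (fun h => a3 h.2),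
            zero_add]
    · rw [if_neg (fun h => a1 h.1), if_neg (fun h => a1 (h1.trans h.1)),
        if_neg (fun h => a1 h.1), zero_add]

theorem step_approx {ι : Type*} [Fintype ι] (y : ι → ℝ) {φ : ℝ → ℝ} {x : ℕ → ℝ}
    (hx : Monotone x) {p : ℕ} {ε : ℝ}
    (happ : ∀ j, j < p → ∀ u, x j ≤ u → u ≤ x (j + 1) → |φ u - φ (x j)| ≤ ε)
    (hout : ∀ u, ¬(x 0 ≤ u ∧ u < x p) → φ u = 0) :
    |∑ i, φ (y i) - ∑ j ∈ Finset.range p, φ (x j) *
      ((Finset.univ.filter fun i => x j ≤ y i ∧ y i < x (j + 1)).card : ℝ)| ≤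
      ε * ((Finset.univ.filter fun i => x 0 ≤ y i ∧ y i < x p).card : ℝ) := by
  have pt : ∀ u, |φ u - ∑ j ∈ Finset.range p, φ (x j) *
      (if x j ≤ u ∧ u < x (j + 1) then (1 : ℝ) else 0)| ≤
      ε * (if x 0 ≤ u ∧ u < x p then (1 : ℝ) else 0) := by
    intro u
    have e1 : φ u = ∑ j ∈ Finset.range p, φ u *
        (if x j ≤ u ∧ u < x (j + 1) then (1 : ℝ) else 0) := by
      rw [← Finset.mul_sum, step_indicator x hx p u]
      split_ifs with h
      · rw [mul_one]
      · rw [mul_zero, hout u h]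
    rw [← step_indicator x hx p u, Finset.mul_sum]
    conv_lhs => rw [e1]
    rw [← Finset.sum_sub_distrib]
    refine (Finset.abs_sum_le_sum_abs _ _).trans (Finset.sum_le_sum fun j hj => ?_)
    split_ifs with h
    · rw [mul_one, mul_one, mul_one]
      exact happ j (Finset.mem_range.1 hj) u h.1 h.2.le
    · simp
  have c1 : ∀ a b : ℝ, ((Finset.univ.filter fun i => a ≤ y i ∧ y i < b).card : ℝ) =
      ∑ i, if a ≤ y i ∧ y i < b then (1 : ℝ) else 0 := by
    intro a b
    rw [Finset.sum_boole]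
  rw [c1]
  have e2 : ∑ j ∈ Finset.range p, φ (x j) *
      ((Finset.univ.filter fun i => x j ≤ y i ∧ y i < x (j + 1)).card : ℝ) =
      ∑ i, ∑ j ∈ Finset.range p, φ (x j) *
        (if x j ≤ y i ∧ y i < x (j + 1) then (1 : ℝ) else 0) := by
    rw [Finset.sum_comm]
    refine Finset.sum_congr rfl fun j _ => ?_
    rw [c1, Finset.mul_sum]
  rw [e2, ← Finset.sum_sub_distrib, Finset.mul_sum]
  exact (Finset.abs_sum_le_sum_abs _ _).trans (Finset.sum_le_sum fun i _ => pt (y i))

/-- step approximation of the intensity integral -/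
theorem step_integral {φ : ℝ → ℝ} (hφ : Continuous φ) (hφ0 : ∀ u, 0 ≤ φ u) {x : ℕ → ℝ}
    (hx : Monotone x) {p : ℕ} {ε : ℝ}
    (happ : ∀ j, j < p → ∀ u, x j ≤ u → u ≤ x (j + 1) → |φ u - φ (x j)| ≤ ε)
    (hout : ∀ u, ¬(x 0 ≤ u ∧ u < x p) → φ u = 0) :
    |∑ j ∈ Finset.range p, (1 - Real.exp (-φ (x j))) * (x (j + 1) - x j) -
      ∫ u, (1 - Real.exp (-φ u))| ≤ ε * (x p - x 0) := by
  have hg : Continuous fun u => 1 - Real.exp (-φ u) := by fun_prop
  have h0 : ∫ u, (1 - Real.exp (-φ u)) = ∫ u in (x 0)..(x p), (1 - Real.exp (-φ u)) := by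
    rw [intervalIntegral.integral_of_le (hx (Nat.zero_le p)), ← integral_Icc_eq_integral_Ioc,
      ← integral_indicator measurableSet_Icc]
    refine integral_congr_ae (Eventually.of_forall fun u => ?_)
    by_cases hu : u ∈ Set.Icc (x 0) (x p)
    · simp only [Set.indicator_of_mem hu]
    · simp only [Set.indicator_of_notMem hu]
      rw [hout u (fun h => hu ⟨h.1, h.2.le⟩)]
      simp
  have h1 : ∫ u in (x 0)..(x p), (1 - Real.exp (-φ u)) =
      ∑ j ∈ Finset.range p, ∫ u in (x j)..(x (j + 1)), (1 - Real.exp (-φ u)) :=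
    (intervalIntegral.sum_integral_adjacent_intervals fun j _ =>
      hg.intervalIntegrable _ _).symm
  have h2 : x p - x 0 = ∑ j ∈ Finset.range p, (x (j + 1) - x j) :=
    (Finset.sum_range_sub x p).symm
  rw [h0, h1, h2, ← Finset.sum_sub_distrib, Finset.mul_sum]
  refine (Finset.abs_sum_le_sum_abs _ _).trans (Finset.sum_le_sum fun j hj => ?_)
  have hj' := Finset.mem_range.1 hj
  have hxj : x j ≤ x (j + 1) := hx (Nat.le_succ j)
  have h3 : (1 - Real.exp (-φ (x j))) * (x (j + 1) - x j) =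
      ∫ _ in (x j)..(x (j + 1)), (1 - Real.exp (-φ (x j))) := by
    rw [intervalIntegral.integral_const, smul_eq_mul]
    ring
  rw [h3, ← intervalIntegral.integral_sub (intervalIntegrable_const)
    (hg.intervalIntegrable _ _)]
  have h4 := intervalIntegral.norm_integral_le_of_norm_le_const (a := x j) (b := x (j + 1))
    (f := fun u => (1 - Real.exp (-φ (x j))) - (1 - Real.exp (-φ u))) (C := ε) (by
      intro u hu
      rw [Set.uIoc_of_le hxj] at hu
      rw [Real.norm_eq_abs]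
      have h5 := exp_sub_close (hφ0 u) (hφ0 (x j))
      have h6 := happ j hj' u hu.1.le hu.2
      have h7 : (1 - Real.exp (-φ (x j))) - (1 - Real.exp (-φ u)) =
          Real.exp (-φ u) - Real.exp (-φ (x j)) := by ring
      rw [h7]
      exact h5.trans h6)
  rw [Real.norm_eq_abs, abs_of_nonneg (sub_nonneg.2 hxj)] at h4
  exact h4

end Run7.h834
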