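import Pool.Agent.Run7.h834.Stat

/-! The limit of the Laplace functional. -/

set_option autoImplicit false
open MeasureTheory Matrix Set Filter Topology
open scoped ENNReal

namespace Run7.h834

variable {V : ℝ → ℝ} {K : ℝ}

/-- a grid of `[-R, R]` -/
noncomputable def grd (R : ℝ) (p j : ℕ) : ℝ := -R + 2 * R * (min j p : ℕ) / p

theorem grd_mono {R : ℝ} (hR : 0 ≤ R) (p : ℕ) : Monotone (grd R p) := by
  intro i j hij
  unfold grd
  have h1 : ((min i p : ℕ) : ℝ) ≤ ((min j p : ℕ) : ℝ) := by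
    exact_mod_cast min_le_min_right p hij
  have h2 : 2 * R * ((min i p : ℕ) : ℝ) / p ≤ 2 * R * ((min j p : ℕ) : ℝ) / p :=
    div_le_div_of_nonneg_right (mul_le_mul_of_nonneg_left h1 (by linarith)) (Nat.cast_nonneg p)
  linarith

theorem grd_zero (R : ℝ) (p : ℕ) : grd R p 0 = -R := by
  simp [grd]

theorem grd_last (R : ℝ) {p : ℕ} (hp : 1 ≤ p) : grd R p p = R := by
  have : (p : ℝ) ≠ 0 := by
    have : 0 < p := hp
    positivity
  unfold grd
  rw [min_self, mul_div_assoc, div_self this]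
  ring

theorem grd_abs {R : ℝ} (hR : 0 ≤ R) {p : ℕ} (hp : 1 ≤ p) (j : ℕ) : |grd R p j| ≤ R := by
  have h0 := grd_mono hR p (Nat.zero_le j)
  rw [grd_zero] at h0
  have h1 : grd R p j ≤ R := by
    have hp0 : (0 : ℝ) < p := by exact_mod_cast hp
    unfold grd
    have h2 : ((min j p : ℕ) : ℝ) ≤ p := by exact_mod_cast min_le_right j p
    have h3 : 2 * R * ((min j p : ℕ) : ℝ) / p ≤ 2 * R := by
      rw [div_le_iff₀ hp0]
      exact mul_le_mul_of_nonneg_left h2 (by linarith)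
    linarith
  exact abs_le.2 ⟨h0, h1⟩

theorem grd_step {R : ℝ} (hR : 0 ≤ R) {p : ℕ} (hp : 1 ≤ p) (j : ℕ) :
    grd R p (j + 1) - grd R p j ≤ 2 * R / p := by
  have hp0 : (0 : ℝ) < p := by exact_mod_cast hp
  unfold grd
  have h1 : ((min (j + 1) p : ℕ) : ℝ) ≤ ((min j p : ℕ) : ℝ) + 1 := by
    have : min (j + 1) p ≤ min j p + 1 := by omega
    exact_mod_cast this
  have h2 : 2 * R * ((min (j + 1) p : ℕ) : ℝ) / p ≤
      2 * R * (((min j p : ℕ) : ℝ) + 1) / p :=
    div_le_div_of_nonneg_right (mul_le_mul_of_nonneg_left h1 (by linarith)) hp0.le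
  have h3 : 2 * R * (((min j p : ℕ) : ℝ) + 1) / p = 2 * R * ((min j p : ℕ) : ℝ) / p +
      2 * R / p := by ring
  linarith

/-- the step sums -/
noncomputable def stS (W N : ℕ) (ω : ℕ × ℕ → ℝ) (φ : ℝ → ℝ) (E s R : ℝ) (p : ℕ) : ℝ :=
  ∑ j ∈ Finset.range p, φ (grd R p j) *
    (bandNum W N ω (E + grd R p j / s) (E + grd R p (j + 1) / s) : ℝ)

/-- the linear statistic -/
noncomputable def linS (W N : ℕ) (ω : ℕ × ℕ → ℝ) (φ : ℝ → ℝ) (E s : ℝ) : ℝ :=
  ∑ i, φ (s * (bandEig W N ω i - E))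

theorem count_scaled (W N : ℕ) (ω : ℕ × ℕ → ℝ) (E : ℝ) {s : ℝ} (hs : 0 < s) (a b : ℝ) :
    (Finset.univ.filter fun i => a ≤ s * (bandEig W N ω i - E) ∧
      s * (bandEig W N ω i - E) < b).card = bandNum W N ω (E + a / s) (E + b / s) := by
  unfold bandNum
  congr 1
  ext i
  simp only [Finset.mem_filter, Finset.mem_univ, true_and]
  have h1 : a ≤ s * (bandEig W N ω i - E) ↔ E + a / s ≤ bandEig W N ω i := by
    rw [← sub_nonneg, ← sub_nonneg (b := E + a / s)]
    have : s * (bandEig W N ω i - E) - a = s * (bandEig W N ω i - (E + a / s)) := by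
      field_simp
      ring
    rw [this, mul_nonneg_iff_of_pos_left hs]
  have h2 : s * (bandEig W N ω i - E) < b ↔ bandEig W N ω i < E + b / s := by
    rw [← sub_pos, ← sub_pos (b := bandEig W N ω i)]
    have : b - s * (bandEig W N ω i - E) = s * (E + b / s - bandEig W N ω i) := by
      field_simp
      ring
    rw [this, mul_pos_iff_of_pos_left hs]
  rw [h1, h2]

/-- uniform closeness of the test function on the grid -/
def GoodGrid (φ : ℝ → ℝ) (R : ℝ) (p : ℕ) (ε : ℝ) : Prop :=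
  ∀ j, j < p → ∀ u, grd R p j ≤ u → u ≤ grd R p (j + 1) → |φ u - φ (grd R p j)| ≤ ε

theorem exists_goodGrid {φ : ℝ → ℝ} (hφ : Continuous φ) (hs : HasCompactSupport φ) {R : ℝ}
    (hR : 0 ≤ R) {ε : ℝ} (hε : 0 < ε) : ∃ p₀ : ℕ, ∀ p, p₀ ≤ p → 1 ≤ p → GoodGrid φ R p ε := by
  have huc := hs.uniformContinuous_of_continuous hφ
  rw [Metric.uniformContinuous_iff] at huc
  obtain ⟨δ, hδ, h⟩ := huc ε hε
  obtain ⟨p₀, hp₀⟩ := exists_nat_gt (2 * R / δ)
  refine ⟨p₀, fun p hp hp1 j _ u h1 h2 => ?_⟩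
  have hp0 : (0 : ℝ) < p := by exact_mod_cast hp1
  have h3 := grd_step hR hp1 j
  have h4 : 2 * R / p < δ := by
    rw [div_lt_iff₀ hp0]
    rw [div_lt_iff₀ hδ] at hp₀
    have : (p₀ : ℝ) ≤ p := by exact_mod_cast hp
    nlinarith
  have h5 : dist u (grd R p j) < δ := by
    rw [Real.dist_eq, abs_of_nonneg (by linarith)]
    linarith
  exact (h h5).le

theorem linS_close {W N : ℕ} (ω : ℕ × ℕ → ℝ) {φ : ℝ → ℝ} (E : ℝ) {s R : ℝ} (hs : 0 < s)
    (hR : 0 ≤ R) {p : ℕ} (hp : 1 ≤ p) {ε : ℝ} (hg : GoodGrid φ R p ε)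
    (hout : ∀ u, R ≤ |u| → φ u = 0) :
    |linS W N ω φ E s - stS W N ω φ E s R p| ≤
      ε * (bandNum W N ω (E + -R / s) (E + R / s) : ℝ) := by
  have h1 := step_approx (fun i => s * (bandEig W N ω i - E)) (φ := φ) (grd_mono hR p) (p := p)
    (ε := ε) hg (fun u hu => hout u (by
      rw [grd_zero, grd_last R hp] at hu
      by_contra hcon
      rw [not_le, abs_lt] at hcon
      exact hu ⟨hcon.1.le, hcon.2⟩))
  unfold linS stS
  rw [count_scaled W N ω E hs, grd_zero, grd_last R hp] at h1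
  simp_rw [count_scaled W N ω E hs] at h1
  exact h1

theorem bandNum_le (W N : ℕ) (ω : ℕ × ℕ → ℝ) (a b : ℝ) : bandNum W N ω a b ≤ N := by
  unfold bandNum
  refine (Finset.card_le_univ _).trans ?_
  rw [Fintype.card_fin]

theorem measurable_bandNum (W N : ℕ) {a b : ℝ} (hab : a ≤ b) :
    Measurable fun ω : ℕ × ℕ → ℝ => bandNum W N ω a b := by
  simp_rw [bandNum_eq W N _ hab]
  exact measurable_cN W _ _ 0 N

theorem measurable_stS (W N : ℕ) (φ : ℝ → ℝ) (E : ℝ) {s R : ℝ} (hs : 0 < s) (hR : 0 ≤ R)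
    (p : ℕ) : Measurable fun ω : ℕ × ℕ → ℝ => stS W N ω φ E s R p := by
  unfold stS
  refine Finset.measurable_sum _ fun j _ => ?_
  have h1 : E + grd R p j / s ≤ E + grd R p (j + 1) / s := by
    have := div_le_div_of_nonneg_right (grd_mono hR p (Nat.le_succ j)) hs.le
    simp only [Nat.succ_eq_add_one] at this
    linarith
  have h2 : Measurable fun ω : ℕ × ℕ → ℝ =>
      (bandNum W N ω (E + grd R p j / s) (E + grd R p (j + 1) / s) : ℝ) :=
    measurable_from_top.comp (measurable_bandNum W N h1)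
  exact h2.const_mul _

theorem measurable_linS (W N : ℕ) {φ : ℝ → ℝ} (hφ : Continuous φ) (hsup : HasCompactSupport φ)
    (E : ℝ) {s R : ℝ} (hs : 0 < s) (hR : 0 ≤ R) (hout : ∀ u, R ≤ |u| → φ u = 0) :
    Measurable fun ω : ℕ × ℕ → ℝ => linS W N ω φ E s := by
  refine measurable_of_tendsto_metrizable (f := fun p ω => stS W N ω φ E s R (p + 1))
    (fun p => measurable_stS W N φ E hs hR (p + 1)) ?_
  rw [tendsto_pi_nhds]
  intro ω
  rw [Metric.tendsto_atTop]
  intro ε hε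
  obtain ⟨p₀, hp₀⟩ := exists_goodGrid hφ hsup hR (ε := ε / (N + 1)) (by positivity)
  refine ⟨p₀, fun p hp => ?_⟩
  have h1 := linS_close (W := W) (N := N) ω E hs hR (p := p + 1) (by omega)
    (hp₀ (p + 1) (by omega) (by omega)) hout
  rw [dist_comm, Real.dist_eq]
  have h2 : (bandNum W N ω (E + -R / s) (E + R / s) : ℝ) ≤ N := by
    exact_mod_cast bandNum_le W N ω _ _
  calc |linS W N ω φ E s - stS W N ω φ E s R (p + 1)| ≤ ε / (N + 1) *
        (bandNum W N ω (E + -R / s) (E + R / s) : ℝ) := h1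
    _ ≤ ε / (N + 1) * N := mul_le_mul_of_nonneg_left h2 (by positivity)
    _ < ε := by
        rw [div_mul_eq_mul_div, div_lt_iff₀ (by positivity)]
        nlinarith

/-- comparison of the Laplace functionals -/
theorem laplace_close [IsProbabilityMeasure (lawV V)] (W N : ℕ) {φ : ℝ → ℝ}
    (hφ : Continuous φ) (hφ0 : ∀ u, 0 ≤ φ u) (hsup : HasCompactSupport φ) (E : ℝ) {s R : ℝ}
    (hs : 0 < s) (hR : 0 ≤ R) (hout : ∀ u, R ≤ |u| → φ u = 0) {p : ℕ} (hp : 1 ≤ p) {ε : ℝ}
    (hg : GoodGrid φ R p ε) :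
    |∫ ω, Real.exp (-linS W N ω φ E s) ∂(Pm (lawV V)) -
      ∫ ω, Real.exp (-stS W N ω φ E s R p) ∂(Pm (lawV V))| ≤
      ε * ∫ ω, (bandNum W N ω (E + -R / s) (E + R / s) : ℝ) ∂(Pm (lawV V)) := by
  have m1 := measurable_linS W N hφ hsup E hs hR hout
  have m2 := measurable_stS W N φ E hs hR p
  have n1 : ∀ ω, 0 ≤ linS W N ω φ E s := fun ω => Finset.sum_nonneg fun i _ => hφ0 _
  have n2 : ∀ ω, 0 ≤ stS W N ω φ E s R p := fun ω => Finset.sum_nonneg fun j _ =>
    mul_nonneg (hφ0 _) (Nat.cast_nonneg _)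
  have iexp : ∀ (f : (ℕ × ℕ → ℝ) → ℝ), Measurable f → (∀ ω, 0 ≤ f ω) →
      Integrable (fun ω => Real.exp (-f ω)) (Pm (lawV V)) := fun f hf hf0 => by
    refine Integrable.mono' (integrable_const (1 : ℝ))
      (Real.measurable_exp.comp hf.neg).aestronglyMeasurable
      (Filter.Eventually.of_forall fun ω => ?_)
    rw [Real.norm_of_nonneg (Real.exp_pos _).le]
    exact exp_neg_le_one (hf0 ω)
  have hab : E + -R / s ≤ E + R / s := by
    have := div_le_div_of_nonneg_right (by linarith : -R ≤ R) hs.le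
    linarith
  have mb : Measurable fun ω : ℕ × ℕ → ℝ =>
      (bandNum W N ω (E + -R / s) (E + R / s) : ℝ) :=
    measurable_from_top.comp (measurable_bandNum W N hab)
  have ib : Integrable (fun ω : ℕ × ℕ → ℝ =>
      (bandNum W N ω (E + -R / s) (E + R / s) : ℝ)) (Pm (lawV V)) := by
    refine Integrable.mono' (integrable_const (N : ℝ)) mb.aestronglyMeasurable
      (Filter.Eventually.of_forall fun ω => ?_)
    rw [Real.norm_of_nonneg (Nat.cast_nonneg _)]
    exact_mod_cast bandNum_le W N ω _ _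
  rw [← integral_sub (iexp _ m1 n1) (iexp _ m2 n2), ← integral_const_mul]
  refine (abs_integral_le_integral_abs).trans ?_
  refine integral_mono_of_nonneg (Eventually.of_forall fun ω => abs_nonneg _)
    (ib.const_mul ε) (Eventually.of_forall fun ω => ?_)
  exact (exp_sub_close (n1 ω) (n2 ω)).trans (linS_close ω E hs hR hp hg hout)

theorem poisson_of_reg (h : NiceV V K) {W : ℕ → ℕ} {B β hh : ℕ → ℝ} {Cβ : ℝ}
    (hR : Reg V W B β hh Cβ) {ρ : ℕ → ℝ → ℝ} (hρ : ∀ N, IsMeanDens V (W N) N (ρ N))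
    {E c₀ : ℝ} (hc₀ : 0 < c₀) (hE : ∀ᶠ N : ℕ in atTop, c₀ ≤ ρ N E) {φ : ℝ → ℝ}
    (hφ : Continuous φ) (hsup : HasCompactSupport φ) (hφ0 : ∀ u, 0 ≤ φ u) :
    Tendsto (fun N : ℕ => ∫ ω, Real.exp (-∑ i, φ (N * ρ N E * (bandEig (W N) N ω i - E)))
      ∂(Pm (lawV V))) atTop (𝓝 (Real.exp (-∫ u, (1 - Real.exp (-φ u))))) := by
  have := h.prob
  have hρ' : ∀ N, ρ N = rhoN V (W N) N := fun N =>
    isMeanDens_unique (hρ N) (isMeanDens_rhoN h (W N) N)
  -- the support
  obtain ⟨R, hR1, hout⟩ : ∃ R : ℝ, 1 ≤ R ∧ ∀ u, R ≤ |u| → φ u = 0 := by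
    obtain ⟨r, hr⟩ := hsup.isCompact.isBounded.subset_closedBall 0
    refine ⟨max (r + 1) 1, le_max_right _ _, fun u hu => ?_⟩
    by_contra hne
    have h1 : u ∈ tsupport φ := subset_tsupport _ hne
    have h2 := hr h1
    rw [Metric.mem_closedBall, Real.dist_eq, sub_zero] at h2
    have := (le_max_left (r + 1) 1).trans hu
    linarith
  have hR0 : 0 ≤ R := by linarith
  -- the scale
  have hscale : ∀ᶠ N : ℕ in atTop, 0 < (N : ℝ) * ρ N E ∧
      (N : ℝ) * ρ N E = Real.sqrt (2 * W N + 1) * fS V E W N := by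
    filter_upwards [hE, eventually_ge_atTop 1] with N hN hN1
    have hN0 : (0 : ℝ) < N := by exact_mod_cast hN1
    refine ⟨mul_pos hN0 (by linarith), ?_⟩
    rw [hρ' N]
    unfold rhoN fS eS
    field_simp
  have hf : ∀ᶠ N : ℕ in atTop, c₀ * N / (2 * Real.sqrt (W N)) ≤ fS V E W N := by
    filter_upwards [hE, hscale, hR.w1] with N hN hN2 hw
    have hw1 : (1 : ℝ) ≤ W N := by exact_mod_cast hw
    have hsw : 0 < Real.sqrt (W N) := Real.sqrt_pos.2 (by linarith)
    have hs2 : Real.sqrt (2 * W N + 1) ≤ 2 * Real.sqrt (W N) := by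
      rw [show (2 : ℝ) * Real.sqrt (W N) = Real.sqrt (4 * W N) by
        rw [Real.sqrt_mul (by norm_num)]
        congr 1
        rw [show (4 : ℝ) = 2 ^ 2 by norm_num]
        exact (Real.sqrt_sq (by norm_num)).symm]
      exact Real.sqrt_le_sqrt (by linarith)
    have hfp : 0 < fS V E W N := by
      have h1 := hN2.1
      rw [hN2.2] at h1
      exact (mul_pos_iff_of_pos_left (sqrtW_pos (W N))).1 h1
    rw [div_le_iff₀ (by positivity)]
    calc c₀ * N ≤ ρ N E * N := mul_le_mul_of_nonneg_right hN (Nat.cast_nonneg _)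
      _ = Real.sqrt (2 * W N + 1) * fS V E W N := by rw [mul_comm, hN2.2]
      _ ≤ 2 * Real.sqrt (W N) * fS V E W N := mul_le_mul_of_nonneg_right hs2 hfp.le
      _ = fS V E W N * (2 * Real.sqrt (W N)) := by ring
  -- counts
  have hcount : ∀ᶠ N : ℕ in atTop, ∀ (ω : ℕ × ℕ → ℝ) (a b : ℝ), a ≤ b →
      bandNum (W N) N ω (E + a / (N * ρ N E)) (E + b / (N * ρ N E)) =
      cN (W N) ω (eS E W N + a / fS V E W N) (eS E W N + b / fS V E W N) 0 N := by
    filter_upwards [hscale] with N hN ω a b hab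
    have hs := sqrtW_pos (W N)
    have hab' : E + a / (N * ρ N E) ≤ E + b / (N * ρ N E) := by
      have := div_le_div_of_nonneg_right hab hN.1.le
      linarith
    have hfp : 0 < fS V E W N := by
      have h1 := hN.1
      rw [hN.2] at h1
      exact (mul_pos_iff_of_pos_left hs).1 h1
    have e1 : ∀ c : ℝ, (E + c / (N * ρ N E)) * Real.sqrt (2 * W N + 1) =
        eS E W N + c / fS V E W N := by
      intro c
      rw [hN.2]
      unfold eS
      field_simp
    rw [bandNum_eq _ _ _ hab', e1, e1]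
  have hmeanR : Tendsto (fun N : ℕ => ∫ ω, (bandNum (W N) N ω (E + -R / (N * ρ N E))
      (E + R / (N * ρ N E)) : ℝ) ∂(Pm (lawV V))) atTop (𝓝 (R - -R)) := by
    refine (mean_tendsto h hR.w1 hR.small hc₀ hf (by linarith : -R ≤ R)).congr' ?_
    filter_upwards [hcount] with N hN
    refine integral_congr_ae (Eventually.of_forall fun ω => ?_)
    simp only
    rw [hN ω (-R) R (by linarith)]
  rw [Metric.tendsto_atTop]
  intro ε hε
  set δ : ℝ := ε / (8 * R + 4) with hδ
  have hδ0 : 0 < δ := by positivity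
  obtain ⟨p₀, hp₀⟩ := exists_goodGrid hφ hsup hR0 hδ0
  set p := max p₀ 1 with hp
  have hp1 : 1 ≤ p := le_max_right _ _
  have hg : GoodGrid φ R p δ := hp₀ p (le_max_left _ _) hp1
  have hstep := step_tendsto h hR hc₀ hf p (grd_mono hR0 p) (grd_abs hR0 hp1)
    (c := fun j => φ (grd R p j)) (fun j => hφ0 _)
  have hstep' : Tendsto (fun N : ℕ => ∫ ω, Real.exp (-stS (W N) N ω φ E (N * ρ N E) R p)
      ∂(Pm (lawV V))) atTop (𝓝 (Real.exp (-∑ j ∈ Finset.range p,
        (1 - Real.exp (-φ (grd R p j))) * (grd R p (j + 1) - grd R p j)))) := by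
    refine hstep.congr' ?_
    filter_upwards [hcount] with N hN
    refine integral_congr_ae (Eventually.of_forall fun ω => ?_)
    unfold stS
    simp only
    congr 2
    refine Finset.sum_congr rfl fun j _ => ?_
    rw [hN ω _ _ (grd_mono hR0 p (Nat.le_succ j))]
  have hint := step_integral hφ hφ0 (grd_mono hR0 p) (p := p) (ε := δ) hg (fun u hu => hout u (by
      rw [grd_zero, grd_last R hp1] at hu
      by_contra hcon
      rw [not_le, abs_lt] at hcon
      exact hu ⟨hcon.1.le, hcon.2⟩))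
  rw [grd_zero, grd_last R hp1] at hint
  have hexp : |Real.exp (-∑ j ∈ Finset.range p,
        (1 - Real.exp (-φ (grd R p j))) * (grd R p (j + 1) - grd R p j)) -
        Real.exp (-∫ u, (1 - Real.exp (-φ u)))| ≤ δ * (R - -R) := by
    refine (exp_sub_close ?_ ?_).trans hint
    · refine Finset.sum_nonneg fun j _ => mul_nonneg ?_ ?_
      · have := exp_neg_le_one (hφ0 (grd R p j))
        linarith
      · have := grd_mono hR0 p (Nat.le_succ j)
        simp only [Nat.succ_eq_add_one] at this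
        linarith
    · refine integral_nonneg fun u => ?_
      have := exp_neg_le_one (hφ0 u)
      simp only [Pi.zero_apply]
      linarith
  have ev1 := Metric.tendsto_atTop.1 hstep' (ε / 4) (by positivity)
  have ev2 := Metric.tendsto_atTop.1 hmeanR 1 one_pos
  obtain ⟨N1, hN1⟩ := ev1
  obtain ⟨N2, hN2⟩ := ev2
  obtain ⟨N3, hN3⟩ := eventually_atTop.1 hscale
  refine ⟨max N1 (max N2 N3), fun N hN => ?_⟩
  have g1 := hN1 N ((le_max_left _ _).trans hN)
  have g2 := hN2 N ((le_max_left _ _).trans ((le_max_right _ _).trans hN))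
  have g3 := hN3 N ((le_max_right _ _).trans ((le_max_right _ _).trans hN))
  rw [Real.dist_eq] at g1 g2 ⊢
  have c1 := laplace_close (V := V) (W N) N hφ hφ0 hsup E g3.1 hR0 hout hp1 hg
  have c2 : ∫ ω, (bandNum (W N) N ω (E + -R / (N * ρ N E)) (E + R / (N * ρ N E)) : ℝ)
      ∂(Pm (lawV V)) ≤ 2 * R + 1 := by
    have := (abs_lt.1 g2).2
    linarith
  have c3 : δ * ∫ ω, (bandNum (W N) N ω (E + -R / (N * ρ N E)) (E + R / (N * ρ N E)) : ℝ)
      ∂(Pm (lawV V)) ≤ δ * (2 * R + 1) := mul_le_mul_of_nonneg_left c2 hδ0.le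
  have c4 : δ * (8 * R + 4) = ε := by
    rw [hδ]
    field_simp
  unfold linS at c1
  have tri : ∀ x y z u : ℝ, |x - u| ≤ |x - y| + (|y - z| + |z - u|) := fun x y z u => by
    have e : x - u = (x - y) + ((y - z) + (z - u)) := by ring
    rw [e]
    exact (abs_add_le _ _).trans (add_le_add le_rfl (abs_add_le _ _))
  refine lt_of_le_of_lt (tri _ (∫ ω, Real.exp (-stS (W N) N ω φ E (N * ρ N E) R p)
      ∂(Pm (lawV V))) (Real.exp (-∑ j ∈ Finset.range p,
        (1 - Real.exp (-φ (grd R p j))) * (grd R p (j + 1) - grd R p j))) _) ?_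
  nlinarith

end Run7.h834
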