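import Pool.Agent.Run7.h834.Frac2

/-! Size of the self-energy. -/

set_option autoImplicit false
open MeasureTheory Matrix
open scoped ENNReal

namespace Run7.h834

/-- sum of the inverses of the absolute values of the eigenvalues -/
noncomputable def trInv {ι : Type*} [Fintype ι] [DecidableEq ι] {S : Matrix ι ι ℝ}
    (hS : S.IsHermitian) : ℝ := ∑ i, |hS.eigenvalues i|⁻¹

section spec

variable {ι : Type*} [Fintype ι] [DecidableEq ι] {S : Matrix ι ι ℝ}

theorem spec_decomp (hS : S.IsHermitian) : ∃ U : Matrix ι ι ℝ, U * Uᵀ = 1 ∧ Uᵀ * U = 1 ∧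
    S = U * Matrix.diagonal hS.eigenvalues * Uᵀ := by
  have h1 := hS.spectral_theorem
  rw [Unitary.conjStarAlgAut_apply] at h1
  have h2 : (RCLike.ofReal ∘ hS.eigenvalues : ι → ℝ) = hS.eigenvalues := by
    funext i
    simp
  rw [h2] at h1
  have hst : (star (hS.eigenvectorUnitary : Matrix ι ι ℝ)) =
      (hS.eigenvectorUnitary : Matrix ι ι ℝ)ᵀ := by
    rw [Matrix.star_eq_conjTranspose, Matrix.conjTranspose_eq_transpose_of_trivial]
  refine ⟨(hS.eigenvectorUnitary : Matrix ι ι ℝ), ?_, ?_, ?_⟩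
  · rw [← hst]
    exact Unitary.mul_star_self_of_mem hS.eigenvectorUnitary.2
  · rw [← hst]
    exact Unitary.star_mul_self_of_mem hS.eigenvectorUnitary.2
  · rw [← hst]
    exact h1

theorem isUnit_of_eig (hS : S.IsHermitian) (h0 : ∀ i, hS.eigenvalues i ≠ 0) :
    S⁻¹ = S⁻¹ ∧ IsUnit S := by
  refine ⟨rfl, ?_⟩
  rw [Matrix.isUnit_iff_isUnit_det, hS.det_eq_prod_eigenvalues]
  simp only [RCLike.ofReal_real_eq_id, id_eq]
  rw [isUnit_iff_ne_zero, Finset.prod_ne_zero_iff]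
  exact fun i _ => h0 i

theorem spec_inv {lam : ι → ℝ} (h0 : ∀ i, lam i ≠ 0) {U : Matrix ι ι ℝ}
    (h1 : U * Uᵀ = 1) (h2 : Uᵀ * U = 1) (h3 : S = U * Matrix.diagonal lam * Uᵀ) :
    S⁻¹ = U * Matrix.diagonal (fun i => (lam i)⁻¹) * Uᵀ := by
  subst h3
  refine Matrix.inv_eq_right_inv ?_
  have e1 : U * Matrix.diagonal lam * Uᵀ *
      (U * Matrix.diagonal (fun i => (lam i)⁻¹) * Uᵀ) =
      U * (Matrix.diagonal lam * (Uᵀ * U) *
        Matrix.diagonal (fun i => (lam i)⁻¹)) * Uᵀ := by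
    simp only [Matrix.mul_assoc]
  rw [e1, h2, Matrix.mul_one, Matrix.diagonal_mul_diagonal]
  have e2 : (fun i => lam i * (lam i)⁻¹) = fun _ => (1 : ℝ) := by
    funext i
    exact mul_inv_cancel₀ (h0 i)
  rw [e2, Matrix.diagonal_one, Matrix.mul_one, h1]

/-- Frobenius norm of `Bᵀ S⁻¹ B` -/
theorem frob_le {lam : ι → ℝ} (h0 : ∀ i, lam i ≠ 0) {U : Matrix ι ι ℝ}
    (h1 : U * Uᵀ = 1) (h2 : Uᵀ * U = 1) (h3 : S = U * Matrix.diagonal lam * Uᵀ)
    (B : Matrix ι ι ℝ) :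
    ∑ i, ∑ j, ((Bᵀ * S⁻¹ * B) i j) ^ 2 ≤
      (∑ j, ∑ α, |lam α|⁻¹ * ((Uᵀ * B) α j) ^ 2) ^ 2 := by
  set c := Uᵀ * B with hc
  have e1 : Bᵀ * S⁻¹ * B = cᵀ * Matrix.diagonal (fun i => (lam i)⁻¹) * c := by
    rw [spec_inv h0 h1 h2 h3, hc, Matrix.transpose_mul, Matrix.transpose_transpose]
    simp only [Matrix.mul_assoc]
  have e2 : ∀ i j, (Bᵀ * S⁻¹ * B) i j = ∑ α, (lam α)⁻¹ * (c α i * c α j) := by
    intro i j
    rw [e1, Matrix.mul_apply]
    refine Finset.sum_congr rfl fun α _ => ?_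
    rw [Matrix.mul_diagonal, Matrix.transpose_apply]
    ring
  have e3 : ∀ i j, ((Bᵀ * S⁻¹ * B) i j) ^ 2 ≤
      (∑ α, |lam α|⁻¹ * (c α i) ^ 2) * (∑ α, |lam α|⁻¹ * (c α j) ^ 2) := by
    intro i j
    rw [e2]
    have hcs := Finset.sum_mul_sq_le_sq_mul_sq Finset.univ
      (fun α => Real.sqrt |lam α|⁻¹ * |c α i|) (fun α => Real.sqrt |lam α|⁻¹ * |c α j|)
    have f1 : ∀ α i, (Real.sqrt |lam α|⁻¹ * |c α i|) ^ 2 = |lam α|⁻¹ * (c α i) ^ 2 := by
      intro α i
      rw [mul_pow, Real.sq_sqrt (by positivity), sq_abs]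
    have f2 : ∀ α, (Real.sqrt |lam α|⁻¹ * |c α i|) * (Real.sqrt |lam α|⁻¹ * |c α j|) =
        |(lam α)⁻¹ * (c α i * c α j)| := by
      intro α
      have h5 : Real.sqrt |lam α|⁻¹ * Real.sqrt |lam α|⁻¹ = |lam α|⁻¹ :=
        Real.mul_self_sqrt (by positivity)
      calc (Real.sqrt |lam α|⁻¹ * |c α i|) * (Real.sqrt |lam α|⁻¹ * |c α j|) =
          (Real.sqrt |lam α|⁻¹ * Real.sqrt |lam α|⁻¹) * (|c α i| * |c α j|) := by ring
        _ = |(lam α)⁻¹ * (c α i * c α j)| := by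
            rw [h5, abs_mul, abs_inv, abs_mul]
    simp_rw [f1, f2] at hcs
    refine le_trans ?_ hcs
    rw [← sq_abs]
    exact pow_le_pow_left₀ (abs_nonneg _) (Finset.abs_sum_le_sum_abs _ _) 2
  calc ∑ i, ∑ j, ((Bᵀ * S⁻¹ * B) i j) ^ 2
      ≤ ∑ i, ∑ j, (∑ α, |lam α|⁻¹ * (c α i) ^ 2) * (∑ α, |lam α|⁻¹ * (c α j) ^ 2) :=
        Finset.sum_le_sum fun i _ => Finset.sum_le_sum fun j _ => e3 i j
    _ = _ := by
        rw [sq, Finset.sum_mul_sum]

/-- the counting function in terms of the eigenvalues -/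
theorem nInt_eq (hS : S.IsHermitian) {t : ℝ} (ht : 0 ≤ t) :
    (nInt S t : ℝ) = ∑ i, if -t ≤ hS.eigenvalues i ∧ hS.eigenvalues i < t then (1 : ℝ) else 0 := by
  unfold nInt
  rw [negIdx_sub_eq_card hS, negIdx_sub_eq_card hS]
  have h1 : (Finset.univ.filter fun i => hS.eigenvalues i < -t) ⊆
      (Finset.univ.filter fun i => hS.eigenvalues i < t) := by
    intro j hj
    simp only [Finset.mem_filter, Finset.mem_univ, true_and] at hj ⊢
    linarith
  rw [← Finset.card_sdiff_of_subset h1, ← Finset.sum_filter, Finset.sum_const, nsmul_eq_mul,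
    mul_one]
  congr 1
  refine congrArg Finset.card ?_
  ext i
  simp only [Finset.mem_sdiff, Finset.mem_filter, Finset.mem_univ, true_and, not_lt]
  exact and_comm

/-- dyadic estimate of the trace norm of the inverse -/
theorem trInv_le (hS : S.IsHermitian) {t0 : ℝ} (ht0 : 0 < t0) (k0 : ℕ)
    (h : nInt S (t0 / 2 ^ k0) = 0) :
    (∀ i, hS.eigenvalues i ≠ 0) ∧ trInv hS ≤ Fintype.card ι / t0 +
      ∑ k ∈ Finset.range k0, (2 ^ (k + 1) / t0) * (nInt S (t0 / 2 ^ k) : ℝ) := by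
  have hbig : ∀ i, t0 / 2 ^ k0 ≤ |hS.eigenvalues i| := by
    intro i
    by_contra hcon
    push Not at hcon
    rw [abs_lt] at hcon
    have h1 := nInt_eq hS (t := t0 / 2 ^ k0) (by positivity)
    rw [h, Nat.cast_zero] at h1
    have h2 := (Finset.sum_eq_zero_iff_of_nonneg (fun i _ => by
      split_ifs <;> norm_num)).1 h1.symm i (Finset.mem_univ i)
    rw [if_pos ⟨hcon.1.le, hcon.2⟩] at h2
    exact one_ne_zero h2
  refine ⟨fun i h0 => ?_, ?_⟩
  · have := hbig i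
    rw [h0, abs_zero] at this
    have : 0 < t0 / 2 ^ k0 := by positivity
    linarith
  -- pointwise bound
  have key : ∀ x : ℝ, t0 / 2 ^ k0 ≤ |x| → |x|⁻¹ ≤ 1 / t0 +
      ∑ k ∈ Finset.range k0, (2 ^ (k + 1) / t0) *
        (if -(t0 / 2 ^ k) ≤ x ∧ x < t0 / 2 ^ k then (1 : ℝ) else 0) := by
    intro x hx
    by_cases h1 : t0 ≤ |x|
    · have h2 : |x|⁻¹ ≤ 1 / t0 := by
        rw [one_div]
        exact inv_anti₀ ht0 h1
      refine h2.trans (le_add_of_nonneg_right (Finset.sum_nonneg fun k _ => ?_))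
      split_ifs <;> positivity
    · push Not at h1
      -- find j
      have hex : ∃ j, j < k0 ∧ t0 / 2 ^ (j + 1) ≤ |x| ∧ |x| < t0 / 2 ^ j := by
        have hne : ∃ m, t0 / 2 ^ m ≤ |x| := ⟨k0, hx⟩
        classical
        set m := Nat.find hne with hm
        have hm1 : t0 / 2 ^ m ≤ |x| := Nat.find_spec hne
        have hm0 : m ≠ 0 := by
          intro h0
          rw [h0, pow_zero, div_one] at hm1
          linarith
        have hmk : m ≤ k0 := Nat.find_min' hne hx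
        obtain ⟨j, hj⟩ := Nat.exists_eq_succ_of_ne_zero hm0
        refine ⟨j, by omega, ?_, ?_⟩
        · have : j + 1 = m := hj.symm
          rw [this]
          exact hm1
        · have := Nat.find_min hne (m := j) (by omega)
          push Not at this
          exact this
      obtain ⟨j, hj, hj1, hj2⟩ := hex
      have hxpos : 0 < |x| := lt_of_lt_of_le (by positivity) hj1
      have h3 : |x|⁻¹ ≤ 2 ^ (j + 1) / t0 := by
        have := inv_anti₀ (by positivity) hj1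
        rwa [inv_div] at this
      have h4 : (2 ^ (j + 1) / t0) * (if -(t0 / 2 ^ j) ≤ x ∧ x < t0 / 2 ^ j then (1 : ℝ) else 0) ≤
          ∑ k ∈ Finset.range k0, (2 ^ (k + 1) / t0) *
            (if -(t0 / 2 ^ k) ≤ x ∧ x < t0 / 2 ^ k then (1 : ℝ) else 0) := by
        refine Finset.single_le_sum (f := fun k => (2 ^ (k + 1) / t0) *
            (if -(t0 / 2 ^ k) ≤ x ∧ x < t0 / 2 ^ k then (1 : ℝ) else 0)) (fun k _ => ?_)
            (Finset.mem_range.2 hj)
        split_ifs <;> positivity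
      rw [abs_lt] at hj2
      rw [if_pos ⟨hj2.1.le, hj2.2⟩, mul_one] at h4
      have : 0 ≤ 1 / t0 := by positivity
      linarith
  unfold trInv
  calc ∑ i, |hS.eigenvalues i|⁻¹ ≤ ∑ i, (1 / t0 + ∑ k ∈ Finset.range k0, (2 ^ (k + 1) / t0) *
        (if -(t0 / 2 ^ k) ≤ hS.eigenvalues i ∧ hS.eigenvalues i < t0 / 2 ^ k
          then (1 : ℝ) else 0)) := Finset.sum_le_sum fun i _ => key _ (hbig i)
    _ = _ := by
        rw [Finset.sum_add_distrib, Finset.sum_const, Finset.card_univ, nsmul_eq_mul,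
          Finset.sum_comm]
        congr 1
        · ring
        · refine Finset.sum_congr rfl fun k _ => ?_
          rw [← Finset.mul_sum, nInt_eq hS (by positivity)]

end spec

end Run7.h834
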